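import Pool.Agent.Lib.MP_c5a075_co.Basic

/-! The constant `1/√5`. -/

set_option autoImplicit false

namespace Pool.Agent.Lib.MP_c5a075_co

noncomputable section

open Real

/-- `1/√5` -/
def i5 : ℝ := c5 / (1 - c5)

lemma one_sub_c5_pos : 0 < 1 - c5 := by have := c5_lt; linarith
lemma i5_mul : (1 - c5) * i5 = c5 := by
  unfold i5; have := one_sub_c5_pos; field_simp
lemma i5_pos : 0 < i5 := div_pos c5_pos one_sub_c5_pos
lemma i5_sq : i5 ^ 2 = 1 / 5 := by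
  have h1 := i5_mul
  have h2 := one_sub_c5_pos
  have h3 : (1 - c5) ^ 2 * i5 ^ 2 = c5 ^ 2 := by rw [← mul_pow, h1]
  have h4 : (1 - c5) ^ 2 = 5 * c5 ^ 2 := by
    have := c5_sq
    have e : (1 - c5) ^ 2 = 1 - 2 * c5 + c5 ^ 2 := by ring
    rw [e]; linarith
  rw [h4] at h3
  have h5 : 0 < c5 ^ 2 := pow_pos c5_pos 2
  nlinarith

end

end Pool.Agent.Lib.MP_c5a075_co
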