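import Pool.Agent.Lib.MP_c5a075_co.RingBase
import Pool.Agent.Lib.MP_c5a075_co.I5

/-! The standard icosahedral star, its symmetries, and the configuration of Stage 2. -/

set_option autoImplicit false

namespace Pool.Agent.Lib.MP_c5a075_co

noncomputable section

open Real

/-- The vertical unit vector. -/
def e3 : E3 := vec 0 0 1

@[simp] lemma e3_0 : e3 0 = 0 := rfl
@[simp] lemma e3_1 : e3 1 = 0 := rfl
@[simp] lemma e3_2 : e3 2 = 1 := rfl

lemma dot_e3 (v : E3) : dot v e3 = v 2 := by simp [dot]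
lemma e3_dot (v : E3) : dot e3 v = v 2 := by simp [dot]
lemma dot_e3_e3 : dot e3 e3 = 1 := by simp [dot]

/-- The five neighbours of `e3` in the standard icosahedron. -/
def V (k : ℤ) : E3 := (2 * i5) • W k + i5 • e3

@[simp] lemma W_2 (k : ℤ) : W k 2 = 0 := rfl
@[simp] lemma V_0 (k : ℤ) : V k 0 = 2 * i5 * W k 0 := by simp [V]
@[simp] lemma V_1 (k : ℤ) : V k 1 = 2 * i5 * W k 1 := by simp [V]
@[simp] lemma V_2 (k : ℤ) : V k 2 = i5 := by simp [V]

lemma W_sq (k : ℤ) : W k 0 ^ 2 + W k 1 ^ 2 = 1 := by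
  have := dot_W k
  simp only [dot, W_2] at this
  linarith

lemma dot_V (k : ℤ) : dot (V k) (V k) = 1 := by
  have h := W_sq k
  have h5 := i5_sq
  simp only [dot, V_0, V_1, V_2]
  linear_combination (4 * i5 ^ 2) * h + 5 * h5

/-- The twelve directions of the standard star. -/
def Dr : Set E3 := {v | v = e3 ∨ v = -e3 ∨ ∃ k : ℤ, v = V k ∨ v = -V k}

/-- The six lines of the standard star. -/
def Sig : Set E3 := {x | ∃ v ∈ Dr, ∃ r : ℝ, 0 ≤ r ∧ x = r • v}

lemma e3_mem : e3 ∈ Dr := Or.inl rfl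
lemma neg_e3_mem : -e3 ∈ Dr := Or.inr (Or.inl rfl)
lemma V_mem (k : ℤ) : V k ∈ Dr := Or.inr (Or.inr ⟨k, Or.inl rfl⟩)
lemma neg_V_mem (k : ℤ) : -V k ∈ Dr := Or.inr (Or.inr ⟨k, Or.inr rfl⟩)

lemma neg_mem {v : E3} (h : v ∈ Dr) : -v ∈ Dr := by
  rcases h with rfl | rfl | ⟨k, rfl | rfl⟩
  · exact neg_e3_mem
  · rw [neg_neg]; exact e3_mem
  · exact neg_V_mem k
  · rw [neg_neg]; exact V_mem k

lemma Dr_unit {v : E3} (h : v ∈ Dr) : dot v v = 1 := by
  rcases h with rfl | rfl | ⟨k, rfl | rfl⟩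
  · exact dot_e3_e3
  · rw [dot_neg_left, dot_neg_right, neg_neg]; exact dot_e3_e3
  · exact dot_V k
  · rw [dot_neg_left, dot_neg_right, neg_neg]; exact dot_V k

/-- The height of a direction of the star. -/
lemma Dr_height {v : E3} (h : v ∈ Dr) : v = e3 ∨ v = -e3 ∨ v 2 = i5 ∨ v 2 = -i5 := by
  rcases h with rfl | rfl | ⟨k, rfl | rfl⟩
  · exact Or.inl rfl
  · exact Or.inr (Or.inl rfl)
  · right; right; left; simp
  · right; right; right; simp

lemma smul_mem_Sig {v : E3} (h : v ∈ Dr) (r : ℝ) : r • v ∈ Sig := by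
  rcases le_total 0 r with hr | hr
  · exact ⟨v, h, r, hr, rfl⟩
  · exact ⟨-v, neg_mem h, -r, by linarith, by rw [neg_smul, smul_neg, neg_neg]⟩

lemma zero_mem_Sig : (0 : E3) ∈ Sig := ⟨e3, e3_mem, 0, le_rfl, by simp⟩

/-! ### Symmetries -/

lemma co_inj (F : Fr) {u v : E3} (h : F.lin u = F.lin v) : u = v := by
  rw [← F.co_lin u, h, F.co_lin]

/-- A frame with origin `0` mapping the star onto itself. -/
structure Sym (F : Fr) : Prop where
  o : F.o = 0
  maps : ∀ v ∈ Dr, F.lin v ∈ Dr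
  comaps : ∀ v ∈ Dr, F.co v ∈ Dr

lemma Sym.map {F : Fr} (h : Sym F) (v : E3) : F.map v = F.lin v := by
  rw [Fr.map, h.o, zero_add]

lemma Sym.inv {F : Fr} (h : Sym F) (v : E3) : F.inv v = F.co v := by
  rw [Fr.inv, h.o, sub_zero]

lemma rotFr_V (k j : ℤ) : (rotFr k).lin (V j) = V (k + j) := by
  rw [V, Fr.lin_add, Fr.lin_smul, Fr.lin_smul, rotFr_W]
  have : (rotFr k).lin e3 = e3 := by rw [rotFr_lin]; apply ext3 <;> simp
  rw [this]; rfl

lemma rotFr_e3 (k : ℤ) : (rotFr k).lin e3 = e3 := by rw [rotFr_lin]; apply ext3 <;> simp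

lemma reflFr_e3 : reflFr.lin e3 = e3 := by rw [reflFr_lin]; apply ext3 <;> simp

lemma reflFr_V (j : ℤ) : reflFr.lin (V j) = V (-j) := by
  rw [V, Fr.lin_add, Fr.lin_smul, Fr.lin_smul, reflFr_W, reflFr_e3]; rfl

lemma rot_maps (k : ℤ) : ∀ v ∈ Dr, (rotFr k).lin v ∈ Dr := by
  rintro v (rfl | rfl | ⟨j, rfl | rfl⟩)
  · rw [rotFr_e3]; exact e3_mem
  · rw [Fr.lin_neg, rotFr_e3]; exact neg_e3_mem
  · rw [rotFr_V]; exact V_mem _
  · rw [Fr.lin_neg, rotFr_V]; exact neg_V_mem _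

lemma rotFr_neg_lin (k : ℤ) (v : E3) : (rotFr k).lin ((rotFr (-k)).lin v) = v := by
  have e : ((-k : ℤ) : ℝ) * (2 * π / 5) = -(k * (2 * π / 5)) := by push_cast; ring
  rw [rotFr_lin, rotFr_lin, e, Real.cos_neg, Real.sin_neg]
  have h := Real.cos_sq_add_sin_sq ((k:ℝ) * (2 * π / 5))
  apply ext3
  · simp only [vec_0, vec_1]; linear_combination (v 0) * h
  · simp only [vec_0, vec_1]; linear_combination (v 1) * h
  · simp

lemma rotFr_co (k : ℤ) (v : E3) : (rotFr k).co v = (rotFr (-k)).lin v :=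
  co_inj (rotFr k) (by rw [Fr.lin_co, rotFr_neg_lin])

lemma sym_rot (k : ℤ) : Sym (rotFr k) where
  o := rfl
  maps := rot_maps k
  comaps := fun v hv => by rw [rotFr_co]; exact rot_maps _ v hv

lemma refl_maps : ∀ v ∈ Dr, reflFr.lin v ∈ Dr := by
  rintro v (rfl | rfl | ⟨j, rfl | rfl⟩)
  · rw [reflFr_e3]; exact e3_mem
  · rw [Fr.lin_neg, reflFr_e3]; exact neg_e3_mem
  · rw [reflFr_V]; exact V_mem _
  · rw [Fr.lin_neg, reflFr_V]; exact neg_V_mem _

lemma sym_refl : Sym reflFr where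
  o := rfl
  maps := refl_maps
  comaps := fun v hv => by
    have : reflFr.co v = reflFr.lin v :=
      co_inj reflFr (by rw [Fr.lin_co, reflFr_lin, reflFr_lin]; apply ext3 <;> simp)
    rw [this]; exact refl_maps v hv

/-- The central inversion. -/
def negFr : Fr where
  o := 0
  f1 := vec (-1) 0 0
  f2 := vec 0 (-1) 0
  f3 := vec 0 0 (-1)
  σ := -1
  h11 := by simp [dot]
  h22 := by simp [dot]
  h33 := by simp [dot]
  h12 := by simp [dot]
  h13 := by simp [dot]
  h23 := by simp [dot]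
  hσ := Or.inr rfl
  hc := by apply ext3 <;> simp

lemma negFr_lin (v : E3) : negFr.lin v = -v := by
  apply ext3 <;> simp [Fr.lin, negFr]

lemma sym_neg : Sym negFr where
  o := rfl
  maps := by intro v hv; rw [negFr_lin]; exact neg_mem hv
  comaps := by
    intro v hv
    have : negFr.co v = -v := co_inj negFr (by rw [Fr.lin_co, negFr_lin, neg_neg])
    rw [this]; exact neg_mem hv

/-- The half-turn exchanging `e3` and `V 0`. -/
def halfFr : Fr where
  o := 0
  f1 := vec (-i5) 0 (2 * i5)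
  f2 := vec 0 (-1) 0
  f3 := vec (2 * i5) 0 i5
  σ := 1
  h11 := by have := i5_sq; simp only [dot, vec_0, vec_1, vec_2]; linear_combination 5 * this
  h22 := by simp [dot]
  h33 := by have := i5_sq; simp only [dot, vec_0, vec_1, vec_2]; linear_combination 5 * this
  h12 := by simp [dot]
  h13 := by simp only [dot, vec_0, vec_1, vec_2]; ring
  h23 := by simp [dot]
  hσ := Or.inl rfl
  hc := by apply ext3 <;> simp

lemma halfFr_lin (v : E3) : halfFr.lin v =
    vec (-i5 * v 0 + 2 * i5 * v 2) (-v 1) (2 * i5 * v 0 + i5 * v 2) := by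
  apply ext3 <;> simp [Fr.lin, halfFr] <;> ring

lemma halfFr_e3 : halfFr.lin e3 = V 0 := by
  rw [halfFr_lin]; apply ext3 <;> simp [W_zero]

lemma halfFr_half (v : E3) : halfFr.lin (halfFr.lin v) = v := by
  have h := i5_sq
  rw [halfFr_lin, halfFr_lin]
  apply ext3
  · simp only [vec_0, vec_2]; linear_combination (5 * v 0) * h
  · simp
  · simp only [vec_0, vec_2]; linear_combination (5 * v 2) * h

lemma W_two : W 2 = vec (2 * c5 ^ 2 - 1) (2 * s5 * c5) 0 := by
  unfold W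
  rw [Int.cast_ofNat, Real.cos_two_mul, Real.sin_two_mul, cos_two_pi_div_five,
    sin_two_pi_div_five]
lemma W_neg_two : W (-2) = vec (2 * c5 ^ 2 - 1) (-(2 * s5 * c5)) 0 := by
  unfold W
  rw [Int.cast_neg, Int.cast_ofNat, neg_mul, Real.cos_neg, Real.sin_neg, Real.cos_two_mul,
    Real.sin_two_mul, cos_two_pi_div_five, sin_two_pi_div_five]

lemma W_add_mul (k j : ℤ) : W (k + 5 * j) = W k := by
  unfold W
  have : ((k + 5 * j : ℤ) : ℝ) * (2 * π / 5) = k * (2 * π / 5) + j * (2 * π) := by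
    push_cast; ring
  rw [this, Real.cos_add_int_mul_two_pi, Real.sin_add_int_mul_two_pi]

lemma W_cases (k : ℤ) : W k = W 0 ∨ W k = W 1 ∨ W k = W (-1) ∨ W k = W 2 ∨ W k = W (-2) := by
  have h : k % 5 = 0 ∨ k % 5 = 1 ∨ k % 5 = 4 ∨ k % 5 = 2 ∨ k % 5 = 3 := by omega
  have e := Int.emod_add_mul_ediv k 5
  rcases h with h | h | h | h | h <;> rw [h] at e
  · left; rw [← e, W_add_mul]
  · right; left; rw [← e, W_add_mul]
  · right; right; left
    rw [← e, W_add_mul, show (4:ℤ) = -1 + 5 * 1 by norm_num, W_add_mul]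
  · right; right; right; left; rw [← e, W_add_mul]
  · right; right; right; right
    rw [← e, W_add_mul, show (3:ℤ) = -2 + 5 * 1 by norm_num, W_add_mul]

lemma V_cases (k : ℤ) : V k = V 0 ∨ V k = V 1 ∨ V k = V (-1) ∨ V k = V 2 ∨ V k = V (-2) := by
  rcases W_cases k with h | h | h | h | h <;> simp only [V, h, true_or, or_true]

/-- `4 cos 72° + 1 = √5`, in terms of `i5`. -/
lemma c5_i5 : 4 * c5 + 1 = 5 * i5 := by
  have h1 := i5_mul
  have h2 := i5_sq
  have h3 := c5_sq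
  have h4 := i5_pos
  have h5 := c5_pos
  have h6 : (4 * c5 + 1) ^ 2 = (5 * i5) ^ 2 := by
    rw [mul_pow, h2]; ring_nf; linarith
  exact (pow_left_inj₀ (by linarith) (by linarith) two_ne_zero).1 h6

lemma halfFr_V0 : halfFr.lin (V 0) = e3 := by rw [← halfFr_e3, halfFr_half]

lemma c5_eq : c5 = (5 * i5 - 1) / 4 := by have := c5_i5; linarith

lemma halfFr_V1 : halfFr.lin (V 1) = V (-1) := by
  have h := i5_sq
  have h1 := i5_mul
  have h2 := c5_i5
  rw [halfFr_lin]
  apply ext3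
  · simp only [vec_0, V_0, V_2, W_one, W_neg_one]
    linear_combination (2 * i5) * h1
  · simp only [vec_1, V_1, W_one, W_neg_one]; ring
  · simp only [vec_0, vec_2, V_0, V_2, W_one]
    linear_combination (4 * c5 + 1) * h + (1 / 5 : ℝ) * h2

lemma halfFr_V2 : halfFr.lin (V 2) = -V 2 := by
  have h := i5_sq
  have h2 := c5_eq
  have h3 := c5_sq
  rw [halfFr_lin]
  apply ext3
  · simp only [vec_0, V_0, V_2, W_two, neg_0, h3]
    rw [h2]
    linear_combination (5 / 2 * i5) * h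
  · simp only [vec_1, V_1, neg_1]
  · simp only [vec_0, vec_2, V_0, V_2, W_two, neg_2, h3]
    rw [h2]
    linear_combination (-5 * i5) * h

lemma halfFr_Vm (j : ℤ) : halfFr.lin (V (-j)) = reflFr.lin (halfFr.lin (V j)) := by
  rw [← reflFr_V, reflFr_lin, reflFr_lin, halfFr_lin, halfFr_lin]
  apply ext3 <;> simp

lemma half_maps : ∀ v ∈ Dr, halfFr.lin v ∈ Dr := by
  have key : ∀ k : ℤ, halfFr.lin (V k) ∈ Dr := by
    intro k
    rcases V_cases k with h | h | h | h | h <;> rw [h]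
    · rw [halfFr_V0]; exact e3_mem
    · rw [halfFr_V1]; exact V_mem _
    · rw [halfFr_Vm, halfFr_V1, reflFr_V]; exact V_mem _
    · rw [halfFr_V2]; exact neg_V_mem _
    · rw [halfFr_Vm, halfFr_V2, Fr.lin_neg, reflFr_V]; exact neg_V_mem _
  rintro v (rfl | rfl | ⟨j, rfl | rfl⟩)
  · rw [halfFr_e3]; exact V_mem 0
  · rw [Fr.lin_neg, halfFr_e3]; exact neg_V_mem 0
  · exact key j
  · rw [Fr.lin_neg]; exact neg_mem (key j)

lemma sym_half : Sym halfFr where
  o := rfl
  maps := half_maps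
  comaps := by
    intro v hv
    have : halfFr.co v = halfFr.lin v := co_inj halfFr (by rw [Fr.lin_co, halfFr_half])
    rw [this]; exact half_maps v hv

/-- Composition of frames. -/
def Fr.comp (F G : Fr) : Fr where
  o := F.map G.o
  f1 := F.lin G.f1
  f2 := F.lin G.f2
  f3 := F.lin G.f3
  σ := F.σ * G.σ
  h11 := by rw [F.dot_lin]; exact G.h11
  h22 := by rw [F.dot_lin]; exact G.h22
  h33 := by rw [F.dot_lin]; exact G.h33
  h12 := by rw [F.dot_lin]; exact G.h12
  h13 := by rw [F.dot_lin]; exact G.h13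
  h23 := by rw [F.dot_lin]; exact G.h23
  hσ := by
    rcases F.hσ with h | h <;> rcases G.hσ with h' | h' <;> rw [h, h'] <;> norm_num
  hc := by rw [F.cross_lin, G.hc, F.lin_smul, smul_smul]

lemma Fr.comp_lin (F G : Fr) (v : E3) : (F.comp G).lin v = F.lin (G.lin v) := by
  simp only [Fr.lin, Fr.comp]
  rw [show v 0 • G.f1 + v 1 • G.f2 + v 2 • G.f3 = G.lin v from rfl]
  apply ext3 <;> simp [Fr.lin] <;> ring

lemma Fr.comp_co (F G : Fr) (v : E3) : (F.comp G).co v = G.co (F.co v) :=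
  co_inj (F.comp G) (by rw [Fr.lin_co, Fr.comp_lin, G.lin_co, F.lin_co])

lemma Sym.comp {F G : Fr} (hF : Sym F) (hG : Sym G) : Sym (F.comp G) where
  o := by
    show F.map G.o = 0
    rw [hG.o, hF.map, Fr.lin_zero]
  maps := fun v hv => by rw [Fr.comp_lin]; exact hF.maps _ (hG.maps v hv)
  comaps := fun v hv => by rw [Fr.comp_co]; exact hG.comaps _ (hF.comaps v hv)

/-- The symmetry group is transitive on the directions. -/
lemma exists_sym {v : E3} (hv : v ∈ Dr) : ∃ F : Fr, Sym F ∧ F.lin e3 = v := by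
  rcases hv with rfl | rfl | ⟨k, rfl | rfl⟩
  · exact ⟨rotFr 0, sym_rot 0, rotFr_e3 0⟩
  · exact ⟨negFr, sym_neg, negFr_lin e3⟩
  · exact ⟨(rotFr k).comp halfFr, (sym_rot k).comp sym_half, by
      rw [Fr.comp_lin, halfFr_e3, rotFr_V, add_zero]⟩
  · exact ⟨negFr.comp ((rotFr k).comp halfFr), sym_neg.comp ((sym_rot k).comp sym_half), by
      rw [Fr.comp_lin, Fr.comp_lin, halfFr_e3, rotFr_V, add_zero, negFr_lin]⟩

lemma Sym.Sig_iff {F : Fr} (h : Sym F) (x : E3) : F.lin x ∈ Sig ↔ x ∈ Sig := by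
  constructor
  · rintro ⟨v, hv, r, hr, e⟩
    refine ⟨F.co v, h.comaps v hv, r, hr, ?_⟩
    apply co_inj F
    rw [e, Fr.lin_smul, F.lin_co]
  · rintro ⟨v, hv, r, hr, rfl⟩
    exact ⟨F.lin v, h.maps v hv, r, hr, by rw [Fr.lin_smul]⟩

lemma Dr_finite : Dr.Finite := by
  have : Dr ⊆ ({e3, -e3, V 0, V 1, V (-1), V 2, V (-2), -V 0, -V 1, -V (-1), -V 2, -V (-2)} :
      Set E3) := by
    rintro v (rfl | rfl | ⟨k, rfl | rfl⟩)
    · simp
    · simp
    · rcases V_cases k with h | h | h | h | h <;> rw [h] <;> simp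
    · rcases V_cases k with h | h | h | h | h <;> rw [h] <;> simp
  exact (Set.toFinite _).subset this

/-- There is a nearest direction. -/
lemma exists_near (w : E3) : ∃ v ∈ Dr, ∀ u ∈ Dr, dot w u ≤ dot w v := by
  obtain ⟨v, hv, h⟩ := Dr_finite.exists_maximalFor (fun u => dot w u) Dr ⟨e3, e3_mem⟩
  refine ⟨v, hv, fun u hu => ?_⟩
  by_contra hcon
  push Not at hcon
  exact absurd (h hu hcon.le) (not_le.2 hcon)

/-! ### Configurations -/

/-- The base assumptions on `X` near the origin. -/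
structure Bas (X : Set E3) : Prop where
  sep : ∃ r : ℝ, 0 < r ∧ ∀ x ∈ X, ∀ y ∈ X, x ≠ y → r ≤ dist x y
  cov : ∀ y : E3, ∃ x ∈ X, dist x y ≤ 1
  bad : ∀ x ∈ X, dot x x ≤ 100 → ∃ a n, Ax X x a n

/-- All points of `X` in the open ball of radius `t` lie on the star. -/
def Clean (X : Set E3) (t : ℝ) : Prop := ∀ x ∈ X, dot x x < t ^ 2 → x ∈ Sig

/-- The twelve points at distance `a` on the star carry five-fold star axes. -/
def StarAx (X : Set E3) (a : ℝ) : Prop := ∀ v ∈ Dr, Ax X (a • v) v 5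

/-- The configuration of Stage 2: a clean ball of radius `t`, a layer `τ` with star axes, a
nearest point `w` off the star, with `e3` the star direction nearest to `w`, visible from the
point `τ e3`. -/
structure Cfg (X : Set E3) (t τ : ℝ) (w : E3) : Prop where
  bas : Bas X
  clean : Clean X t
  t_pos : 0 < t
  t_le : t ≤ 2.648
  τ_pos : 0 < τ
  τ_lt : τ < t
  τ_le : τ ≤ 1.72
  star : StarAx X τ
  mem : w ∈ X
  norm : dot w w = t ^ 2
  off : w ∉ Sig
  near : ∀ v ∈ Dr, dot w v ≤ w 2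
  vis : dot (w - τ • e3) (w - τ • e3) ≤ 4

/-- The distance of `w` to the vertical axis. -/
def rh (w : E3) : ℝ := √(w 0 ^ 2 + w 1 ^ 2)

/-- The axis direction of case A: the line through `w` in this direction meets the vertical axis
in `(w 2 + rh w / 2) e3`, at distance `√5 / 2 * rh w` from `w`. -/
def bst (w : E3) : E3 := vec (2 * i5 * w 0 / rh w) (2 * i5 * w 1 / rh w) (-i5)

/-- The main local statement (proved elsewhere): in a configuration, `w` has the axis `bst w`. -/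
def LocalA : Prop := ∀ (X : Set E3) (t τ : ℝ) (w : E3), Cfg X t τ w → Ax X w (bst w) 5

end

end Pool.Agent.Lib.MP_c5a075_co
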