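import Pool.Agent.Lib.MP_c5a075_co.Tube
import Pool.Agent.Lib.MP_c5a075_co.Star

/-! Regime B: the axis at the centre of a node. -/

set_option autoImplicit false

namespace Pool.Agent.Lib.MP_c5a075_co

noncomputable section

open Real

/-- The six axes of the icosahedron form a tight frame. -/
lemma six_frame (b : E3) : dot b e3 ^ 2 + dot b (V 0) ^ 2 + dot b (V 1) ^ 2 + dot b (V (-1)) ^ 2 +
    dot b (V 2) ^ 2 + dot b (V (-2)) ^ 2 = 2 * dot b b := by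
  have h5 := i5_sq
  have hc := c5_sq
  have hs := s5_sq'
  simp only [dot, e3_0, e3_1, e3_2, V_0, V_1, V_2, W_zero, W_one, W_neg_one, W_two, W_neg_two,
    vec_0, vec_1]
  obtain ⟨x, hx⟩ : ∃ x, x = b 0 := ⟨_, rfl⟩
  obtain ⟨y, hy⟩ : ∃ y, y = b 1 := ⟨_, rfl⟩
  obtain ⟨z, hz⟩ : ∃ z, z = b 2 := ⟨_, rfl⟩
  rw [← hx, ← hy, ← hz]
  obtain ⟨C, hC⟩ : ∃ C, C = 2 * c5 ^ 2 - 1 := ⟨_, rfl⟩
  have hC' : C = -c5 - 1 / 2 := by rw [hC, hc]; ring
  rw [← hC, hC']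
  have e : (x * 0 + y * 0 + z * 1) ^ 2 + (x * (2 * i5 * 1) + y * (2 * i5 * 0) + z * i5) ^ 2 +
      (x * (2 * i5 * c5) + y * (2 * i5 * s5) + z * i5) ^ 2 +
      (x * (2 * i5 * c5) + y * (2 * i5 * -s5) + z * i5) ^ 2 +
      (x * (2 * i5 * (-c5 - 1 / 2)) + y * (2 * i5 * (2 * s5 * c5)) + z * i5) ^ 2 +
      (x * (2 * i5 * (-c5 - 1 / 2)) + y * (2 * i5 * -(2 * s5 * c5)) + z * i5) ^ 2 =
      z ^ 2 + i5 ^ 2 * ((2 * x + z) ^ 2 + 2 * (2 * x * c5 + z) ^ 2 +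
        2 * (x * (-2 * c5 - 1) + z) ^ 2 + 8 * y ^ 2 * s5 ^ 2 + 32 * y ^ 2 * s5 ^ 2 * c5 ^ 2) := by ring
  rw [e, h5, hs]
  have e2 : (2 * x + z) ^ 2 + 2 * (2 * x * c5 + z) ^ 2 +
        2 * (x * (-2 * c5 - 1) + z) ^ 2 + 8 * y ^ 2 * ((3 + 2 * c5) / 4) +
        32 * y ^ 2 * ((3 + 2 * c5) / 4) * c5 ^ 2 = 10 * x ^ 2 + 10 * y ^ 2 + 5 * z ^ 2 := by
    linear_combination (16 * x ^ 2 + 24 * y ^ 2 + 16 * y ^ 2 * c5 - 8 * y ^ 2) * hc
  rw [e2]; ring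

/-- Regime B: the centre of a node carries one of the known axes. -/
theorem axisO {X : Set E3} {μ a : ℝ} (H : Tube X 0 20 μ) (hμ : μ ≤ 1.7)
    (ha : a = 5 / 2 * i5 * μ) (h0 : (0 : E3) ∈ X) (he : a • e3 ∈ X)
    (hV : ∀ k : ℤ, a • V k ∈ X) : ∃ u : E3, (u = e3 ∨ ∃ k : ℤ, u = V k) ∧ Ax X 0 u 5 := by
  have hμ1 := H.μ_ge
  have hμ0 : 0 < μ := by linarith
  have hμ2 : 0 < μ ^ 2 := by positivity
  have h5 := i5_sq
  have ha2 : a ^ 2 = 5 / 4 * μ ^ 2 := by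
    rw [ha]; linear_combination (25 / 4 * μ ^ 2) * h5
  have hμ4 : μ ^ 2 ≤ 2.89 := by nlinarith only [hμ, hμ1]
  obtain ⟨b, n, hb⟩ := H.bad 0 h0 (by rw [dist_self]; norm_num)
  have hbu := hb.unit
  -- the squared distance of a node point to the axis
  have hrho : ∀ w u : E3, dot w w = 1 → dot u u = 1 → rho2 w (a • u - 0) = a ^ 2 * (1 - dot w u ^ 2) := by
    intro w u hw hu
    rw [sub_zero, rho2_smul, rho2, hu]
  have hdd : ∀ u : E3, dot u u = 1 → dot (a • u - 0) (a • u - 0) = a ^ 2 := by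
    intro u hu
    rw [sub_zero, dot_smul_left, dot_smul_right, hu]; ring
  have key : ∀ u : E3, dot u u = 1 → a • u ∈ X → rho2 b u = 0 ∨ dot b u ^ 2 ≤ 0.2 + 1 / 1000000 := by
    intro u hu hm
    rcases H.tube 0 b n hb (by rw [dist_self]; norm_num) _ hm (by rw [hdd u hu, ha2]; linarith)
      with h | h
    · left
      rw [sub_zero, rho2_smul] at h
      have : a ^ 2 ≠ 0 := by rw [ha2]; positivity
      rcases mul_eq_zero.1 h with h | h
      · exact absurd h this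
      · exact h
    · right
      rw [hrho b u hbu hu, ha2] at h
      have h1 : μ ^ 2 * (dot b u ^ 2) ≤ μ ^ 2 * (0.2 + 1 / 1000000) := by nlinarith only [h, hμ2]
      exact le_of_mul_le_mul_left h1 hμ2
  -- the axis is one of the six lines
  have hline : ∃ u : E3, (u = e3 ∨ ∃ k : ℤ, u = V k) ∧ rho2 b u = 0 := by
    by_contra hcon
    push Not at hcon
    have k0 := (key e3 dot_e3_e3 he).resolve_left (hcon e3 (Or.inl rfl))
    have kk : ∀ k : ℤ, dot b (V k) ^ 2 ≤ 0.2 + 1 / 1000000 := fun k =>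
      (key (V k) (dot_V k) (hV k)).resolve_left (hcon (V k) (Or.inr ⟨k, rfl⟩))
    have hs := six_frame b
    rw [hbu] at hs
    linarith [kk 0, kk 1, kk (-1), kk 2, kk (-2)]
  obtain ⟨u, hu, hr⟩ := hline
  have huu : dot u u = 1 := by
    rcases hu with h | ⟨k, h⟩
    · rw [h]; exact dot_e3_e3
    · rw [h]; exact dot_V k
  -- another known point
  obtain ⟨v, hvv, huv, hvX⟩ : ∃ v : E3, dot v v = 1 ∧ dot u v = i5 ∧ a • v ∈ X := by
    rcases hu with h | ⟨k, h⟩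
    · exact ⟨V 0, dot_V 0, by rw [h, e3_dot, V_2], hV 0⟩
    · exact ⟨e3, dot_e3_e3, by rw [h, dot_e3, V_2], he⟩
  have hax : Ax X 0 u n := by
    rcases eq_or_neg_of_rho2 huu hbu hr with h | h
    · rw [← h]; exact hb
    · have := hb.neg
      rw [h, neg_neg] at this; exact this
  have hρ : rho2 u (a • v - 0) = μ ^ 2 := by
    rw [hrho u v huu hvv, huv, h5, ha2]; ring
  have hn : n = 5 := by
    apply H.five hax (by rw [dist_self]; norm_num) hvX (by rw [hdd v hvv, ha2]; linarith)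
    · rw [hρ]; exact hμ2.ne'
    · rw [hρ]; linarith
  refine ⟨u, hu, ?_⟩
  rw [← hn]; exact hax

end

end Pool.Agent.Lib.MP_c5a075_co
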