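import Pool.Agent.Lib.MP_c5a075_co.Vec

/-! Basic notions: points with an axis, regions, local finiteness, covering, near-minimal choice. -/

set_option autoImplicit false

namespace Pool.Agent.Lib.MP_c5a075_co

noncomputable section

open Real

/-- The rotation with cosine `c` and sine `s` about the axis through `x` with unit direction `a`
maps the `2`-cluster of `X` at `x` into `X`. -/
def Inv (X : Set E3) (x a : E3) (c s : ℝ) : Prop :=
  ∀ v : E3, dot v v ≤ 4 → x + v ∈ X → x + rot a c s v ∈ X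

/-- The point `x` of `X` carries an `n`-fold axis with unit direction `a`, `n = 5` or `n ≥ 7`. -/
structure Ax (X : Set E3) (x a : E3) (n : ℕ) : Prop where
  mem : x ∈ X
  unit : dot a a = 1
  ord : n = 5 ∨ 7 ≤ n
  inv : Inv X x a (cos (2 * π / n)) (sin (2 * π / n))

/-- `X` is a Delone set with covering radius `1` and all its points in the ball of radius `K`
around `y0` carry an axis of order `5` or at least `7`. -/
structure Region (X : Set E3) (y0 : E3) (K : ℝ) : Prop where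
  sep : ∃ r : ℝ, 0 < r ∧ ∀ x ∈ X, ∀ y ∈ X, x ≠ y → r ≤ dist x y
  cov : ∀ y : E3, ∃ x ∈ X, dist x y ≤ 1
  bad : ∀ x ∈ X, dist x y0 ≤ K → ∃ a n, Ax X x a n

lemma finite_of_sep {X : Set E3} (h : ∃ r : ℝ, 0 < r ∧ ∀ x ∈ X, ∀ y ∈ X, x ≠ y → r ≤ dist x y)
    (c : E3) (ρ : ℝ) : (X ∩ Metric.closedBall c ρ).Finite := by
  obtain ⟨r, hr, hsep⟩ := h
  have hK : IsCompact (Metric.closedBall c ρ) := isCompact_closedBall c ρ
  obtain ⟨t, -, ht, hcov⟩ := Metric.totallyBounded_iff.1 hK.totallyBounded (r / 2) (by positivity)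
    |>.imp fun t h => (⟨trivial, h.1, h.2⟩ : True ∧ _ ∧ _)
  have hf : ∀ x ∈ X ∩ Metric.closedBall c ρ, ∃ y ∈ t, dist x y < r / 2 := by
    intro x hx
    have := hcov hx.2
    simpa using this
  choose! f hf1 hf2 using hf
  refine Set.Finite.of_finite_image (f := f) (ht.subset ?_) ?_
  · rintro _ ⟨x, hx, rfl⟩; exact hf1 x hx
  · intro x hx y hy hxy
    by_contra hne
    have h1 := hsep x hx.1 y hy.1 hne
    have h2 := hf2 x hx
    have h3 := hf2 y hy
    have h4 : dist x y ≤ dist x (f x) + dist y (f x) := dist_triangle_right x y (f x)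
    have hxy' : f x = f y := hxy
    rw [← hxy'] at h3
    linarith

/-- Covering with a prescribed side: moving the centre of the covering ball slightly in the
direction `n`, one can avoid the points of the boundary sphere on the other side. -/
lemma cov_dir {X : Set E3} (hs : ∃ r : ℝ, 0 < r ∧ ∀ x ∈ X, ∀ y ∈ X, x ≠ y → r ≤ dist x y)
    (hc : ∀ y : E3, ∃ x ∈ X, dist x y ≤ 1) (c n : E3) (hn : n ≠ 0) :
    ∃ q ∈ X, dot (q - c) (q - c) ≤ 1 ∧ (dot (q - c) (q - c) < 1 ∨ 0 < dot n (q - c)) := by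
  by_contra hcon
  push Not at hcon
  have hfin := finite_of_sep hs c 2
  have key : ∀ q ∈ X ∩ Metric.closedBall c 2, ∀ᶠ δ in nhdsWithin (0:ℝ) (Set.Ioi 0),
      1 < dot (q - (c + δ • n)) (q - (c + δ • n)) := by
    intro q hq
    have hexp : ∀ δ : ℝ, dot (q - (c + δ • n)) (q - (c + δ • n)) =
        dot (q - c) (q - c) - 2 * δ * dot n (q - c) + δ ^ 2 * dot n n := by
      intro δ
      simp only [dot, sub_0, sub_1, sub_2, add_0, add_1, add_2, smul_0, smul_1, smul_2]
      ring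
    rcases lt_or_ge 1 (dot (q - c) (q - c)) with h1 | h1
    · have hcont : Filter.Tendsto (fun δ : ℝ => dot (q - (c + δ • n)) (q - (c + δ • n)))
          (nhdsWithin (0:ℝ) (Set.Ioi 0)) (nhds (dot (q - c) (q - c))) := by
        have : Continuous (fun δ : ℝ => dot (q - c) (q - c) - 2 * δ * dot n (q - c) +
            δ ^ 2 * dot n n) := by fun_prop
        have h2 := (this.tendsto 0).mono_left (nhdsWithin_le_nhds (s := Set.Ioi 0))
        simp only [hexp]
        convert h2 using 2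
        ring
      exact hcont.eventually (lt_mem_nhds h1)
    · have h2 := (hcon q hq.1 h1).1
      have h3 := (hcon q hq.1 h1).2
      have h4 : dot (q - c) (q - c) = 1 := le_antisymm h1 h2
      filter_upwards [self_mem_nhdsWithin] with δ hδ
      have hδ' : (0:ℝ) < δ := hδ
      rw [hexp, h4]
      have h5 := dot_self_pos hn
      have h6 : 0 < δ ^ 2 * dot n n := by positivity
      have h7 : 0 ≤ -(2 * δ * dot n (q - c)) := by
        have := mul_nonneg hδ'.le (neg_nonneg.2 h3)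
        linarith
      linarith
  have hall := (Filter.eventually_all_finite hfin).2 key
  have hsmall : ∀ᶠ δ in nhdsWithin (0:ℝ) (Set.Ioi 0), ‖δ • n‖ < 1 := by
    have hcont : Continuous (fun δ : ℝ => ‖δ • n‖) := by fun_prop
    have h2 := (hcont.tendsto 0).mono_left (nhdsWithin_le_nhds (s := Set.Ioi 0))
    simp only [zero_smul, norm_zero] at h2
    exact h2.eventually (gt_mem_nhds one_pos)
  obtain ⟨δ, hδ1, hδ2⟩ := (hall.and hsmall).exists
  obtain ⟨q, hq, hq1⟩ := hc (c + δ • n)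
  have hq2 : dist q c ≤ 2 := by
    have := dist_triangle q (c + δ • n) c
    have h3 : dist (c + δ • n) c = ‖δ • n‖ := by rw [dist_eq_norm]; congr 1; abel
    linarith
  have := hδ1 q ⟨hq, hq2⟩
  rw [dist_le_iff _ _ zero_le_one] at hq1
  linarith

/-- Near-minimal choice. -/
lemma near_min {P : Type*} (S : Set P) (pos : P → E3) (τ : P → ℝ) (ε C m : ℝ)
    (hε : 0 < ε) (hε1 : ε < 1) (hC : 0 ≤ C) (hm : 0 < m) (hτ : ∀ p ∈ S, m ≤ τ p)
    (p0 : P) (hp0 : p0 ∈ S) :
    ∃ p ∈ S, dist (pos p) (pos p0) ≤ C * τ p0 / ε ∧ τ p ≤ τ p0 ∧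
      ∀ p' ∈ S, dist (pos p') (pos p) ≤ C * τ p → (1 - ε) * τ p < τ p' := by
  by_contra hcon
  push Not at hcon
  have key : ∀ k : ℕ, ∃ p ∈ S, τ p ≤ (1 - ε) ^ k * τ p0 ∧
      dist (pos p) (pos p0) ≤ C * τ p0 * ((1 - (1 - ε) ^ k) / ε) := by
    intro k
    induction k with
    | zero => exact ⟨p0, hp0, by simp, by simp⟩
    | succ k ih =>
      obtain ⟨p, hp, h1, h2⟩ := ih
      have hpow : 0 < (1 - ε) ^ k := pow_pos (by linarith) k
      have hpow1 : (1 - ε) ^ k ≤ 1 := pow_le_one₀ (by linarith) (by linarith)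
      have h0 : 0 < τ p0 := lt_of_lt_of_le hm (hτ p0 hp0)
      have h3 : dist (pos p) (pos p0) ≤ C * τ p0 / ε := by
        refine h2.trans ?_
        rw [mul_div_assoc]
        rw [mul_div_assoc', mul_div_assoc']
        apply div_le_div_of_nonneg_right _ hε.le
        have : 0 ≤ C * τ p0 := by positivity
        nlinarith
      have h4 : τ p ≤ τ p0 := h1.trans (by nlinarith)
      obtain ⟨p', hp', h5, h6⟩ := hcon p hp h3 h4
      refine ⟨p', hp', ?_, ?_⟩
      · calc τ p' ≤ (1 - ε) * τ p := h6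
          _ ≤ (1 - ε) * ((1 - ε) ^ k * τ p0) := mul_le_mul_of_nonneg_left h1 (by linarith)
          _ = (1 - ε) ^ (k + 1) * τ p0 := by ring
      · calc dist (pos p') (pos p0) ≤ dist (pos p') (pos p) + dist (pos p) (pos p0) :=
              dist_triangle _ _ _
          _ ≤ C * τ p + C * τ p0 * ((1 - (1 - ε) ^ k) / ε) := add_le_add h5 h2
          _ ≤ C * ((1 - ε) ^ k * τ p0) + C * τ p0 * ((1 - (1 - ε) ^ k) / ε) := by
              have := mul_le_mul_of_nonneg_left h1 hC
              linarith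
          _ = C * τ p0 * ((1 - (1 - ε) ^ (k + 1)) / ε) := by
              field_simp
              ring
  have h0 : 0 < τ p0 := lt_of_lt_of_le hm (hτ p0 hp0)
  have hlim : Filter.Tendsto (fun k : ℕ => (1 - ε) ^ k * τ p0) Filter.atTop (nhds 0) := by
    have := (tendsto_pow_atTop_nhds_zero_of_lt_one (r := 1 - ε) (by linarith) (by linarith)).mul_const
      (τ p0)
    simpa using this
  obtain ⟨k, hk⟩ := (hlim.eventually (gt_mem_nhds hm)).exists
  obtain ⟨p, hp, h1, -⟩ := key k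
  have := hτ p hp
  linarith

/-! ### Powers of the rotation -/

lemma Inv.comp {X : Set E3} {x a : E3} {c s c' s' : ℝ} (ha : dot a a = 1)
    (h' : c' ^ 2 + s' ^ 2 = 1)
    (h1 : Inv X x a c s) (h2 : Inv X x a c' s') :
    Inv X x a (c * c' - s * s') (s * c' + c * s') := by
  intro v hv hx
  have h3 := h2 v hv hx
  have h4 := h1 (rot a c' s' v) (by rw [dot_rot_rot a ha c' s' h']; exact hv) h3
  rwa [rot_rot a ha] at h4

lemma Inv.pow {X : Set E3} {x a : E3} {φ : ℝ} (ha : dot a a = 1)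
    (h : Inv X x a (cos φ) (sin φ)) (k : ℕ) : Inv X x a (cos (k * φ)) (sin (k * φ)) := by
  induction k with
  | zero =>
    intro v _ hx
    simpa [rot_id] using hx
  | succ k ih =>
    have h2 := Inv.comp ha (Real.cos_sq_add_sin_sq φ) ih h
    have e1 : ((k + 1 : ℕ) : ℝ) * φ = k * φ + φ := by push_cast; ring
    rw [e1, Real.cos_add, Real.sin_add]
    exact h2

lemma Ax.pow {X : Set E3} {x a : E3} {n : ℕ} (h : Ax X x a n) (k : ℤ) :
    Inv X x a (cos (k * (2 * π / n))) (sin (k * (2 * π / n))) := by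
  have hn : (0:ℝ) < n := by
    have : 0 < n := by rcases h.ord with h | h <;> omega
    exact_mod_cast this
  have hn' : 0 < n := by exact_mod_cast hn
  -- choose a natural representative
  obtain ⟨m, hm⟩ : ∃ m : ℕ, ∃ j : ℤ, (m : ℤ) = k + j * n := by
    refine ⟨(k % n).toNat, -(k / n), ?_⟩
    have h1 : 0 ≤ k % n := Int.emod_nonneg _ (by omega)
    rw [Int.toNat_of_nonneg h1]
    have := Int.emod_add_mul_ediv k n
    linarith
  obtain ⟨j, hj⟩ := hm
  have h2 := Inv.pow h.unit h.inv m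
  have e : (m : ℝ) * (2 * π / n) = k * (2 * π / n) + j * (2 * π) := by
    have : (m : ℝ) = k + j * n := by exact_mod_cast hj
    rw [this]; field_simp
  rw [e, Real.cos_add_int_mul_two_pi, Real.sin_add_int_mul_two_pi] at h2
  exact h2

lemma Ax.neg {X : Set E3} {x a : E3} {n : ℕ} (h : Ax X x a n) : Ax X x (-a) n where
  mem := h.mem
  unit := by rw [dot_neg_left, dot_neg_right, neg_neg]; exact h.unit
  ord := h.ord
  inv := by
    intro v hv hx
    rw [rot_neg_axis]
    have := h.pow (-1)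
    have e : ((-1 : ℤ) : ℝ) * (2 * π / n) = -(2 * π / n) := by push_cast; ring
    rw [e, Real.cos_neg, Real.sin_neg] at this
    exact this v hv hx

/-! ### The regular pentagon constants -/

/-- `cos 72°` -/
def c5 : ℝ := (√5 - 1) / 4
/-- `sin 72°` -/
def s5 : ℝ := √((5 + √5) / 8)

lemma sqrt5_sq : √5 ^ 2 = (5:ℝ) := Real.sq_sqrt (by norm_num)
lemma sqrt5_gt : (2.236067:ℝ) < √5 := by
  rw [show (2.236067:ℝ) = √(2.236067 ^ 2) from (Real.sqrt_sq (by norm_num)).symm]
  exact Real.sqrt_lt_sqrt (by norm_num) (by norm_num)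
lemma sqrt5_lt : √5 < (2.236068:ℝ) := by
  rw [show (2.236068:ℝ) = √(2.236068 ^ 2) from (Real.sqrt_sq (by norm_num)).symm]
  exact Real.sqrt_lt_sqrt (by norm_num) (by norm_num)
lemma s5_sq : s5 ^ 2 = (5 + √5) / 8 := Real.sq_sqrt (by positivity)
lemma s5_pos : 0 < s5 := Real.sqrt_pos.2 (by positivity)
lemma c5_pos : 0 < c5 := by have := sqrt5_gt; unfold c5; linarith
lemma c5_sq : c5 ^ 2 = (1 - 2 * c5) / 4 := by
  unfold c5; have := sqrt5_sq; nlinarith
lemma c5_sq_add : c5 ^ 2 + s5 ^ 2 = 1 := by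
  rw [s5_sq]; unfold c5; have := sqrt5_sq; nlinarith
lemma s5_sq' : s5 ^ 2 = (3 + 2 * c5) / 4 := by
  have h1 := c5_sq; have h2 := c5_sq_add; linarith
lemma c5_gt : (0.30901675:ℝ) < c5 := by have := sqrt5_gt; unfold c5; linarith
lemma c5_lt : c5 < (0.309017:ℝ) := by have := sqrt5_lt; unfold c5; linarith
lemma s5_gt : (0.951056:ℝ) < s5 := by
  have h := s5_sq
  have h1 := sqrt5_gt
  have h2 := s5_pos
  nlinarith
lemma s5_lt : s5 < (0.951057:ℝ) := by
  have h := s5_sq
  have h1 := sqrt5_lt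
  have h2 := s5_pos
  nlinarith

lemma cos_two_pi_div_five : cos (2 * π / 5) = c5 := by
  have h : 2 * π / 5 = 2 * (π / 5) := by ring
  rw [h, Real.cos_two_mul, Real.cos_pi_div_five]
  unfold c5
  have := sqrt5_sq
  nlinarith

lemma sin_two_pi_div_five : sin (2 * π / 5) = s5 := by
  have h1 : sin (2 * π / 5) ^ 2 = s5 ^ 2 := by
    have := Real.sin_sq_add_cos_sq (2 * π / 5)
    rw [cos_two_pi_div_five] at this
    have h2 := c5_sq_add
    linarith
  have h3 : 0 ≤ sin (2 * π / 5) := by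
    apply Real.sin_nonneg_of_nonneg_of_le_pi <;> nlinarith [Real.pi_pos]
  exact (pow_left_inj₀ h3 s5_pos.le (by norm_num)).1 h1

/-- The four nontrivial rotations of a five-fold axis. -/
lemma Ax.five {X : Set E3} {x a : E3} (h : Ax X x a 5) :
    Inv X x a c5 s5 ∧ Inv X x a c5 (-s5) ∧ Inv X x a (2 * c5 ^ 2 - 1) (2 * s5 * c5) ∧
      Inv X x a (2 * c5 ^ 2 - 1) (-(2 * s5 * c5)) := by
  have e1 := h.pow 1
  have e2 := h.pow (-1)
  have e3 := h.pow 2
  have e4 := h.pow (-2)
  have a1 : ((1:ℤ):ℝ) * (2 * π / (5:ℕ)) = 2 * π / 5 := by push_cast; ring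
  have a2 : ((-1:ℤ):ℝ) * (2 * π / (5:ℕ)) = -(2 * π / 5) := by push_cast; ring
  have a3 : ((2:ℤ):ℝ) * (2 * π / (5:ℕ)) = 2 * (2 * π / 5) := by push_cast; ring
  have a4 : ((-2:ℤ):ℝ) * (2 * π / (5:ℕ)) = -(2 * (2 * π / 5)) := by push_cast; ring
  rw [a1, cos_two_pi_div_five, sin_two_pi_div_five] at e1
  rw [a2, Real.cos_neg, Real.sin_neg, cos_two_pi_div_five, sin_two_pi_div_five] at e2
  rw [a3, Real.cos_two_mul, Real.sin_two_mul, cos_two_pi_div_five, sin_two_pi_div_five] at e3
  rw [a4, Real.cos_neg, Real.sin_neg, Real.cos_two_mul, Real.sin_two_mul,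
    cos_two_pi_div_five, sin_two_pi_div_five] at e4
  exact ⟨e1, e2, e3, e4⟩

end

end Pool.Agent.Lib.MP_c5a075_co
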