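import Pool.Agent.Lib.BoxPos.Dnf

/-!
Front end with shared subexpressions: a list of definitions is converted once, and the groups are
expressions in the variables and the definitions. All conversions are fully evaluated.
-/

set_option autoImplicit false

namespace Pool.Agent.Lib.BoxPos

/-- entry of a list of pairs -/
def getP (ds : List ℕ) : List (NP ds × NP ds) → ℕ → NP ds × NP ds
  | [], _ => (zeroN ds, zeroN ds)
  | p :: _, 0 => p
  | _ :: ps, i + 1 => getP ds ps i

/-- conversion in an environment -/
def convV (ds : List ℕ) (env : List (NP ds × NP ds)) : E → NP ds × NP ds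
  | .v i => getP ds env i
  | .c n => (constN ds n, zeroN ds)
  | .add a b => match convV ds env a, convV ds env b with
    | (p, m), (q, n) => red ds (addN ds p q) (addN ds m n)
  | .sub a b => match convV ds env a, convV ds env b with
    | (p, m), (q, n) => red ds (addN ds p n) (addN ds m q)
  | .mul a b => mulP ds (convV ds env a) (convV ds env b)
  | .neg a => match convV ds env a with
    | (p, m) => (m, p)
  | .pow a n => powP ds (convV ds env a) n

/-- continue with evaluated coefficients -/
noncomputable def fNP {β : Type} : (ds : List ℕ) → NP ds → (NP ds → β) → β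
  | [], n, k => force (α := β) n k
  | _ :: ds, ps, k => List.rec (motive := fun _ => (List (NP ds) → β) → β) (fun k => k [])
      (fun a _ ih k => fNP ds a fun a' => ih fun l' => k (a' :: l')) ps k

lemma fNP_eq {β : Type} : ∀ (ds : List ℕ) (p : NP ds) (k : NP ds → β), fNP ds p k = k p := by
  intro ds
  induction ds with
  | nil => intro n k; exact force_eq n k
  | cons d ds ih =>
    intro p
    induction (p : List (NP ds)) with
    | nil => intro k; rfl
    | cons a l ihl =>
      intro k
      have : fNP (d :: ds) (a :: l : List (NP ds)) k =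
        fNP ds a fun a' => fNP (d :: ds) (l : List (NP ds)) fun l' => k (a' :: l') := rfl
      rw [this, ih a]
      exact ihl _

/-- the same for pairs -/
noncomputable def fP {β : Type} (ds : List ℕ) (p : NP ds × NP ds) (k : NP ds × NP ds → β) : β :=
  fNP ds p.1 fun a => fNP ds p.2 fun b => k (a, b)

lemma fP_eq {β : Type} (ds : List ℕ) (p : NP ds × NP ds) (k : NP ds × NP ds → β) :
    fP ds p k = k p := by
  rw [fP, fNP_eq, fNP_eq]

/-- evaluated conversion -/
noncomputable def convK {β : Type} (ds : List ℕ) (env : List (NP ds × NP ds)) :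
    E → (NP ds × NP ds → β) → β
  | .v i, k => k (getP ds env i)
  | .c n, k => fP ds (constN ds n, zeroN ds) k
  | .add a b, k => convK ds env a fun p => convK ds env b fun q =>
      fP ds (red ds (addN ds p.1 q.1) (addN ds p.2 q.2)) k
  | .sub a b, k => convK ds env a fun p => convK ds env b fun q =>
      fP ds (red ds (addN ds p.1 q.2) (addN ds p.2 q.1)) k
  | .mul a b, k => convK ds env a fun p => convK ds env b fun q => fP ds (mulP ds p q) k
  | .neg a, k => convK ds env a fun p => k (p.2, p.1)
  | .pow a n, k => convK ds env a fun p => fP ds (powP ds p n) k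

lemma convK_eq {β : Type} (ds : List ℕ) (env : List (NP ds × NP ds)) :
    ∀ (e : E) (k : NP ds × NP ds → β), convK ds env e k = k (convV ds env e)
  | .v i, k => rfl
  | .c n, k => by rw [convK, fP_eq]; rfl
  | .add a b, k => by rw [convK, convK_eq ds env a, convK_eq ds env b, fP_eq]; rfl
  | .sub a b, k => by rw [convK, convK_eq ds env a, convK_eq ds env b, fP_eq]; rfl
  | .mul a b, k => by rw [convK, convK_eq ds env a, convK_eq ds env b, fP_eq]; rfl
  | .neg a, k => by rw [convK, convK_eq ds env a]; rfl
  | .pow a n, k => by rw [convK, convK_eq ds env a, fP_eq]; rfl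

/-- the environment of the shifted variables -/
def baseV (ds : List ℕ) : ℕ → List ℕ → List (NP ds × NP ds)
  | _, [] => []
  | i, s :: sh => (varN ds i, constN ds s) :: baseV ds (i + 1) sh

/-- extension of the environment by definitions -/
def extV (ds : List ℕ) : List (NP ds × NP ds) → List E → List (NP ds × NP ds)
  | env, [] => env
  | env, e :: es => extV ds (env ++ [convV ds env e]) es

/-- evaluated extension -/
noncomputable def extK {β : Type} (ds : List ℕ) :
    List E → List (NP ds × NP ds) → (List (NP ds × NP ds) → β) → β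
  | [], env, k => k env
  | e :: es, env, k => convK ds env e fun p => extK ds es (env ++ [p]) k

lemma extK_eq {β : Type} (ds : List ℕ) : ∀ (es : List E) (env : List (NP ds × NP ds))
    (k : List (NP ds × NP ds) → β), extK ds es env k = k (extV ds env es)
  | [], _, _ => rfl
  | e :: es, env, k => by rw [extK, convK_eq, extK_eq ds es]; rfl

/-- evaluated conversion of a list -/
noncomputable def convLK {β : Type} (ds : List ℕ) (env : List (NP ds × NP ds)) :
    List E → (List (NP ds × NP ds) → β) → β
  | [], k => k []
  | e :: es, k => convK ds env e fun p => convLK ds env es fun ps => k (p :: ps)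

lemma convLK_eq {β : Type} (ds : List ℕ) (env : List (NP ds × NP ds)) :
    ∀ (es : List E) (k : List (NP ds × NP ds) → β),
    convLK ds env es k = k (es.map (convV ds env))
  | [], _ => rfl
  | e :: es, k => by rw [convLK, convK_eq, convLK_eq ds env es]; rfl

/-- evaluated conversion of a list of lists -/
noncomputable def convLLK {β : Type} (ds : List ℕ) (env : List (NP ds × NP ds)) :
    List (List E) → (List (List (NP ds × NP ds)) → β) → β
  | [], k => k []
  | e :: es, k => convLK ds env e fun p => convLLK ds env es fun ps => k (p :: ps)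

lemma convLLK_eq {β : Type} (ds : List ℕ) (env : List (NP ds × NP ds)) :
    ∀ (es : List (List E)) (k : List (List (NP ds × NP ds)) → β),
    convLLK ds env es k = k (es.map fun G => G.map (convV ds env))
  | [], _ => rfl
  | e :: es, k => by rw [convLLK, convLK_eq, convLLK_eq ds env es]; rfl

/-- real values of the definitions -/
noncomputable def extR : List ℝ → List E → List ℝ
  | xs, [] => xs
  | xs, e :: es => extR (xs ++ [e.ev xs]) es

lemma get_append_left : ∀ (xs ys : List ℝ) (i : ℕ), i < xs.length → get (xs ++ ys) i = get xs i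
  | [], _, i, h => by simp at h
  | x :: xs, ys, 0, _ => rfl
  | x :: xs, ys, i + 1, h => get_append_left xs ys i (by simpa using h)

lemma get_append_last : ∀ (xs : List ℝ) (y : ℝ), get (xs ++ [y]) xs.length = y
  | [], _ => rfl
  | _ :: xs, y => get_append_last xs y

lemma get_len : ∀ (xs : List ℝ) (i : ℕ), xs.length ≤ i → get xs i = 0
  | [], _, _ => by simp [get]
  | _ :: xs, 0, h => by simp at h
  | _ :: xs, i + 1, h => get_len xs i (by simpa using h)

/-- the environment is correct at the point `zs` -/
def EnvOK (ds : List ℕ) (zs : List ℝ) : List (NP ds × NP ds) → List ℝ → Prop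
  | [], [] => True
  | p :: ps, x :: xs => evP ds p zs = x ∧ EnvOK ds zs ps xs
  | _, _ => False

lemma EnvOK.append {ds : List ℕ} {zs : List ℝ} {p : NP ds × NP ds} {x : ℝ}
    (h' : evP ds p zs = x) : ∀ {env : List (NP ds × NP ds)} {xs : List ℝ},
    EnvOK ds zs env xs → EnvOK ds zs (env ++ [p]) (xs ++ [x])
  | [], [], _ => ⟨h', trivial⟩
  | _ :: _, _ :: _, h => ⟨h.1, EnvOK.append h' h.2⟩
  | [], _ :: _, h => h.elim
  | _ :: _, [], h => h.elim

lemma EnvOK.getE {ds : List ℕ} {zs : List ℝ} (hz : zs.length = ds.length) :
    ∀ {env : List (NP ds × NP ds)} {xs : List ℝ}, EnvOK ds zs env xs → ∀ i : ℕ,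
    evP ds (getP ds env i) zs = get xs i
  | [], [], _, i => by
      have e1 : get ([] : List ℝ) i = 0 := by simp [get]
      rw [e1]
      show ev ds (zeroN ds) zs - ev ds (zeroN ds) zs = 0
      rw [sub_self]
  | _ :: _, _ :: _, h, 0 => h.1
  | _ :: _, _ :: _, h, i + 1 => EnvOK.getE hz h.2 i
  | [], _ :: _, h, _ => h.elim
  | _ :: _, [], h, _ => h.elim

lemma convV_ev {ds : List ℕ} {zs : List ℝ} (hz : zs.length = ds.length)
    {env : List (NP ds × NP ds)} {xs : List ℝ} (h : EnvOK ds zs env xs) :
    ∀ e : E, evP ds (convV ds env e) zs = e.ev xs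
  | .v i => by simp only [convV, E.ev]; exact h.getE hz i
  | .c n => by
      simp only [convV, evP, E.ev]
      rw [ev_const ds _ _ hz, ev_zero ds _ hz, sub_zero]
  | .add a b => by
      have ha := convV_ev hz h a
      have hb := convV_ev hz h b
      simp only [convV, red, evP, E.ev] at ha hb ⊢
      rw [ev_sub ds _ hz, ev_add ds _ hz, ev_add ds _ hz, ← ha, ← hb]
      ring
  | .sub a b => by
      have ha := convV_ev hz h a
      have hb := convV_ev hz h b
      simp only [convV, red, evP, E.ev] at ha hb ⊢
      rw [ev_sub ds _ hz, ev_add ds _ hz, ev_add ds _ hz, ← ha, ← hb]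
      ring
  | .mul a b => by
      rw [convV, evP_mul hz, convV_ev hz h a, convV_ev hz h b, E.ev]
  | .neg a => by
      have ha := convV_ev hz h a
      simp only [convV, evP, E.ev] at ha ⊢
      rw [← ha]
      ring
  | .pow a n => by
      rw [convV, evP_pow hz, convV_ev hz h a, E.ev]

lemma extV_ok {ds : List ℕ} {zs : List ℝ} (hz : zs.length = ds.length) :
    ∀ (es : List E) (env : List (NP ds × NP ds)) (xs : List ℝ), EnvOK ds zs env xs →
    EnvOK ds zs (extV ds env es) (extR xs es)
  | [], _, _, h => h
  | e :: es, env, xs, h => by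
      rw [extV, extR]
      exact extV_ok hz es _ _ (h.append (convV_ev hz h e))

lemma baseV_ok {ds : List ℕ} {zs : List ℝ} (hz : zs.length = ds.length) :
    ∀ (sh : List ℕ) (xs : List ℝ) (i : ℕ), sh.length = xs.length →
    (∀ j : ℕ, get zs (i + j) = get (shl sh xs) j) →
    EnvOK ds zs (baseV ds i sh) xs
  | [], [], _, _, _ => trivial
  | s :: sh, x :: xs, i, hl, h => by
      refine ⟨?_, baseV_ok hz sh xs (i + 1) (by simpa using hl) fun j => ?_⟩
      · have h0 := h 0
        simp only [evP]
        rw [ev_var ds _ i hz, ev_const ds _ _ hz]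
        have e1 : get (shl (s :: sh) (x :: xs)) 0 = x + s := by simp [shl, get]
        rw [add_zero, e1] at h0
        rw [h0]; ring
      · have hj := h (j + 1)
        have e1 : get (shl (s :: sh) (x :: xs)) (j + 1) = get (shl sh xs) j := by simp [shl, get]
        rw [e1] at hj
        rw [← hj]
        congr 1
        omega
  | [], _ :: _, _, hl, _ => by simp at hl
  | _ :: _, [], _, hl, _ => by simp at hl

/-- the check with definitions -/
noncomputable def checkD (w s : ℕ) (ds sh : List ℕ) (bs : List (ℕ × ℕ × ℕ))
    (defs : List E) (es : List (List E)) (t : GTree) : Bool :=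
  extK ds defs (baseV ds 0 sh) fun env => convLLK ds env es fun Ps => checkG w s ds bs Ps t

theorem checkD_sound {w s : ℕ} (hs : s ≤ 1) {ds sh : List ℕ} {bs : List (ℕ × ℕ × ℕ)}
    {defs : List E} {es : List (List E)} {t : GTree}
    (h : checkD w s ds sh bs defs es t = true) {xs : List ℝ}
    (hx : InB xs sh bs) :
    ∃ G ∈ es, ∀ e ∈ G, 0 ≤ e.ev (extR xs defs) ∧ (s ≠ 0 → 0 < e.ev (extR xs defs)) := by
  obtain ⟨i1, i2, i3, i4⟩ := inB_spec xs sh bs hx
  unfold checkD at h
  rw [extK_eq, convLLK_eq] at h
  have h' := h
  unfold checkG at h'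
  simp only [Bool.cond_eq_ite] at h'
  split_ifs at h' with h1 h2
  have hl := boxOK_length ds bs h2
  have hz : (shl sh xs).length = ds.length := by omega
  obtain ⟨G, hG, hG1⟩ := checkG_sound hs h i1
  obtain ⟨G0, hG0, rfl⟩ := List.mem_map.1 hG
  have henv := extV_ok hz defs _ _ (baseV_ok (ds := ds) hz sh xs 0 i2
    (fun j => by rw [Nat.zero_add]))
  refine ⟨G0, hG0, fun e he => ?_⟩
  obtain ⟨h3, h4⟩ := hG1 _ (List.mem_map.2 ⟨e, he, rfl⟩)
  have h5 := convV_ev hz henv e
  unfold evP at h5
  refine ⟨by linarith, fun h0 => ?_⟩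
  have := h4 h0
  linarith

/-- all variables have index less than `n` -/
def E.wf (n : ℕ) : E → Bool
  | .v i => Nat.blt i n
  | .c _ => true
  | .add a b => a.wf n && b.wf n
  | .sub a b => a.wf n && b.wf n
  | .mul a b => a.wf n && b.wf n
  | .neg a => a.wf n
  | .pow a _ => a.wf n

lemma E.ev_append {xs : List ℝ} (ys : List ℝ) : ∀ {e : E}, e.wf xs.length = true →
    e.ev (xs ++ ys) = e.ev xs
  | .v i, h => by
      simp only [E.wf] at h
      exact get_append_left xs ys i (Nat.le_of_ble_eq_true h)
  | .c n, _ => rfl
  | .add a b, h => by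
      simp only [E.wf, Bool.and_eq_true] at h
      simp only [E.ev, E.ev_append ys h.1, E.ev_append ys h.2]
  | .sub a b, h => by
      simp only [E.wf, Bool.and_eq_true] at h
      simp only [E.ev, E.ev_append ys h.1, E.ev_append ys h.2]
  | .mul a b, h => by
      simp only [E.wf, Bool.and_eq_true] at h
      simp only [E.ev, E.ev_append ys h.1, E.ev_append ys h.2]
  | .neg a, h => by
      simp only [E.wf] at h
      simp only [E.ev, E.ev_append ys h]
  | .pow a n, h => by
      simp only [E.wf] at h
      simp only [E.ev, E.ev_append ys h]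

/-- all definitions refer to earlier entries -/
def wfD : ℕ → List E → Bool
  | _, [] => true
  | n, e :: es => e.wf n && wfD (n + 1) es

lemma extR_prefix : ∀ (es : List E) (xs : List ℝ), ∃ zs : List ℝ, extR xs es = xs ++ zs
  | [], xs => ⟨[], by simp [extR]⟩
  | e :: es, xs => by
      obtain ⟨zs, h⟩ := extR_prefix es (xs ++ [e.ev xs])
      exact ⟨e.ev xs :: zs, by rw [extR, h, List.append_assoc]; rfl⟩

/-- the equations satisfied by the values of the definitions -/
def Eqs (ys : List ℝ) : ℕ → List E → Prop
  | _, [] => True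
  | n, e :: es => get ys n = e.ev ys ∧ Eqs ys (n + 1) es

lemma extR_eqs : ∀ (es : List E) (xs : List ℝ), wfD xs.length es = true →
    Eqs (extR xs es) xs.length es
  | [], _, _ => trivial
  | e :: es, xs, h => by
      simp only [wfD, Bool.and_eq_true] at h
      obtain ⟨zs, hz⟩ := extR_prefix es (xs ++ [e.ev xs])
      have hl : (xs ++ [e.ev xs]).length = xs.length + 1 := by simp
      have ih := extR_eqs es (xs ++ [e.ev xs]) (by rw [hl]; exact h.2)
      rw [hl] at ih
      refine ⟨?_, ih⟩
      rw [extR, hz, List.append_assoc, E.ev_append _ h.1]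
      rw [← List.append_assoc]
      rw [get_append_left _ _ _ (by rw [hl]; omega), get_append_last]

theorem checkD_main {w : ℕ} {ds sh : List ℕ} {bs : List (ℕ × ℕ × ℕ)}
    {defs : List E} {es : List (List E)} {t : GTree}
    (h : checkD w 1 ds sh bs defs es t = true) {xs : List ℝ}
    (hx : InB xs sh bs) (hd : wfD xs.length defs = true) :
    ∃ ys : List ℝ, (∀ i < xs.length, get ys i = get xs i) ∧ Eqs ys xs.length defs ∧
      ∃ G ∈ es, ∀ e ∈ G, 0 < e.ev ys := by
  obtain ⟨G, hG, h1⟩ := checkD_sound le_rfl h hx
  obtain ⟨zs, hz⟩ := extR_prefix defs xs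
  refine ⟨extR xs defs, ?_, extR_eqs defs xs hd, G, hG, fun e he => (h1 e he).2 one_ne_zero⟩
  intro i hi
  rw [hz]
  exact get_append_left _ _ _ hi

end Pool.Agent.Lib.BoxPos
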