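import Pool.Agent.Lib.MP_c5a075_co.BoxEnv

/-!
A version of the check which evaluates, at every leaf of the subdivision, only the polynomials of
the group named there, directly on the box of the leaf.
-/

set_option autoImplicit false

namespace Pool.Agent.Lib.BoxPos

/-- certificate: a leaf names a group -/
inductive BTree where
  | leaf (g : ℕ) : BTree
  | split (j : ℕ) (l r : BTree) : BTree

/-- dot product -/
noncomputable def dotK {α : Type} (f : α → ℕ) (As : List ℕ) : List α → ℕ :=
  List.rec (motive := fun _ => List α → ℕ) (fun _ => 0)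
    (fun A _ ih ps => List.rec (motive := fun _ => ℕ) 0
      (fun p ps' _ => Nat.add (Nat.mul A (f p)) (ih ps')) ps) As

lemma dotK_eq {α : Type} (f : α → ℕ) : ∀ (As : List ℕ) (ps : List α),
    dotK f As ps = dotL f As ps
  | [], ps => by cases ps <;> rfl
  | A :: As, [] => rfl
  | A :: As, p :: ps => by
      have h1 : dotK f (A :: As) (p :: ps) = A * f p + dotK f As ps := rfl
      rw [h1, dotK_eq f As ps]
      rfl

/-- packed value -/
noncomputable def homK (ds : List ℕ) : List (List ℕ) → NP ds → ℕ :=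
  List.rec (motive := fun ds => List (List ℕ) → NP ds → ℕ) (fun _ n => n)
    (fun _ ds ih Ts ps => List.rec (motive := fun _ => ℕ) 0
      (fun T Ts' _ => dotK (α := NP ds) (ih Ts') T ps) Ts) ds

lemma homK_eq : ∀ (ds : List ℕ) (Ts : List (List ℕ)) (p : NP ds), homK ds Ts p = hom ds Ts p
  | [], _, _ => rfl
  | d :: ds, [], p => rfl
  | d :: ds, T :: Ts, p => by
      have h1 : homK (d :: ds) (T :: Ts) p = dotK (homK ds Ts) T (p : List (NP ds)) := rfl
      have h2 : homK ds Ts = hom ds Ts := funext fun q => homK_eq ds Ts q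
      rw [h1, h2, dotK_eq]
      rfl

/-- test of a group on a box -/
noncomputable def testB (ds : List ℕ) (o hm : ℕ) (Ts : List (List ℕ)) (G : List (NP ds × NP ds)) :
    Bool :=
  List.rec (motive := fun _ => Bool) true
    (fun P _ ih => force (homK ds Ts P.1) fun X => force (Nat.add (homK ds Ts P.2) o) fun Y =>
      cond (testXY X Y hm) ih false) G

/-- test of a group on a box, with tables and bounds -/
noncomputable def leafF (w : ℕ) (ds : List ℕ) (o hm hB S : ℕ) (bs : List (ℕ × ℕ × ℕ))
    (G : List (NP ds × NP ds)) : Bool :=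
  cond (boxOK ds bs) (cond (Nat.ble (Nat.add (Nat.mul S (prodm ds bs)) 2) hB)
    (forceLL (tabs w ds bs) fun Ts => testB ds o hm Ts G) false) false

/-- the entry of a list -/
noncomputable def nthK {α : Type} (z : α) (g : ℕ) (l : List α) : α :=
  List.rec (motive := fun _ => ℕ → α) (fun _ => z)
    (fun a _ ih g => Nat.rec (motive := fun _ => α) a (fun g' _ => ih g') g) l g

/-- halves of a box -/
noncomputable def halfL (j : ℕ) (bs : List (ℕ × ℕ × ℕ)) : List (ℕ × ℕ × ℕ) :=
  List.rec (motive := fun _ => ℕ → List (ℕ × ℕ × ℕ)) (fun _ => [])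
    (fun b bs ih j => Nat.rec (motive := fun _ => List (ℕ × ℕ × ℕ))
      (force (Nat.mul 2 b.1) fun x => force (Nat.add b.1 b.2.1) fun y =>
        force (Nat.mul 2 b.2.2) fun z => (x, y, z) :: bs) (fun j _ => b :: ih j) j) bs j
/-- halves of a box -/
noncomputable def halfR (j : ℕ) (bs : List (ℕ × ℕ × ℕ)) : List (ℕ × ℕ × ℕ) :=
  List.rec (motive := fun _ => ℕ → List (ℕ × ℕ × ℕ)) (fun _ => [])
    (fun b bs ih j => Nat.rec (motive := fun _ => List (ℕ × ℕ × ℕ))
      (force (Nat.add b.1 b.2.1) fun x => force (Nat.mul 2 b.2.1) fun y =>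
        force (Nat.mul 2 b.2.2) fun z => (x, y, z) :: bs) (fun j _ => b :: ih j) j) bs j

lemma half_cover : ∀ (j : ℕ) {bs : List (ℕ × ℕ × ℕ)} {xs : List ℝ}, InBox bs xs →
    InBox (halfL j bs) xs ∨ InBox (halfR j bs) xs
  | j, [], [], _ => by
      left
      exact List.Forall₂.nil
  | _, [], _ :: _, h => by cases h
  | _, _ :: _, [], h => by cases h
  | 0, (a, b, q) :: bs, x :: xs, h => by
      obtain ⟨⟨h1, h2⟩, h3⟩ := List.forall₂_cons.1 h
      simp only at h1 h2
      have e1 : halfL 0 ((a, b, q) :: bs) = (2 * a, a + b, 2 * q) :: bs := by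
        have : halfL 0 ((a, b, q) :: bs) = (force (Nat.mul 2 a) fun x => force (Nat.add a b)
          fun y => force (Nat.mul 2 q) fun z => (x, y, z) :: bs) := rfl
        rw [this, force_eq, force_eq, force_eq]
        rfl
      have e2 : halfR 0 ((a, b, q) :: bs) = (a + b, 2 * b, 2 * q) :: bs := by
        have : halfR 0 ((a, b, q) :: bs) = (force (Nat.add a b) fun x => force (Nat.mul 2 b)
          fun y => force (Nat.mul 2 q) fun z => (x, y, z) :: bs) := rfl
        rw [this, force_eq, force_eq, force_eq]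
        rfl
      rw [e1, e2]
      rcases lt_or_ge ((2 * q : ℝ) * x) (a + b) with h4 | h4
      · left
        refine List.Forall₂.cons ⟨?_, ?_⟩ h3
        · push_cast; linarith
        · push_cast; linarith
      · right
        refine List.Forall₂.cons ⟨?_, ?_⟩ h3
        · push_cast; linarith
        · push_cast; linarith
  | j + 1, b :: bs, x :: xs, h => by
      obtain ⟨h1, h3⟩ := List.forall₂_cons.1 h
      have e1 : halfL (j + 1) (b :: bs) = b :: halfL j bs := rfl
      have e2 : halfR (j + 1) (b :: bs) = b :: halfR j bs := rfl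
      rw [e1, e2]
      rcases half_cover j h3 with h4 | h4
      · exact Or.inl (List.Forall₂.cons h1 h4)
      · exact Or.inr (List.Forall₂.cons h1 h4)

/-- run through the tree -/
noncomputable def runB (w : ℕ) (ds : List ℕ) (o hm hB S : ℕ) (Ps : List (List (NP ds × NP ds)))
    (t : BTree) : List (ℕ × ℕ × ℕ) → Bool :=
  BTree.rec (motive := fun _ => List (ℕ × ℕ × ℕ) → Bool)
    (fun g bs => cond (Nat.blt g Ps.length) (leafF w ds o hm hB S bs (nthK [] g Ps)) false)
    (fun j _ _ ihl ihr bs => cond (ihl (halfL j bs)) (ihr (halfR j bs)) false) t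

/-- the check at the root -/
noncomputable def checkGB (w s : ℕ) (ds : List ℕ) (bs : List (ℕ × ℕ × ℕ))
    (Ps : List (List (NP ds × NP ds))) (t : BTree) : Bool :=
  cond (Nat.blt 0 w) (cond (wfsG ds Ps)
    (force (s * ones w (sz ds)) fun o => force (ones w (sz ds) * 2 ^ (w - 1)) fun hm =>
      force (2 ^ (w - 1)) fun hB => force (maxSG ds Ps) fun S =>
      runB w ds o hm hB S Ps t bs) false) false

/-- the check with definitions -/
noncomputable def checkB (w s : ℕ) (ds sh : List ℕ) (bs : List (ℕ × ℕ × ℕ))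
    (defs : List E) (es : List (List E)) (t : BTree) : Bool :=
  extK ds defs (baseV ds 0 sh) fun env => convLLK ds env es fun Ps => checkGB w s ds bs Ps t

lemma testB_eq {w : ℕ} {ds : List ℕ} {bs : List (ℕ × ℕ × ℕ)} {o hm : ℕ} :
    ∀ G : List (NP ds × NP ds), testB ds o hm (tabs w ds bs) G =
      testG o hm (startP w ds bs G) (startM w ds bs G)
  | [] => rfl
  | (p, m) :: G => by
      have h1 : testB ds o hm (tabs w ds bs) ((p, m) :: G) =
        force (homK ds (tabs w ds bs) p) fun X =>
        force (Nat.add (homK ds (tabs w ds bs) m) o) fun Y =>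
        cond (testXY X Y hm) (testB ds o hm (tabs w ds bs) G) false := rfl
      rw [h1, force_eq, force_eq, homK_eq, homK_eq, testB_eq G]
      rfl

lemma maxSG_mem {ds : List ℕ} : ∀ {Ps : List (List (NP ds × NP ds))} {G : List (NP ds × NP ds)},
    G ∈ Ps → maxSG ds [G] ≤ maxSG ds Ps
  | [], G, h => by simp at h
  | G' :: Ps, G, h => by
      rcases List.mem_cons.1 h with rfl | h
      · simp only [maxSG]
        have h1 : ∀ Ps : List (List (NP ds × NP ds)), 1 ≤ maxSG ds Ps := by
          intro Ps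
          induction Ps with
          | nil => exact le_rfl
          | cons G Ps ih => exact ih.trans (le_max_right _ _)
        exact max_le_max le_rfl (h1 _)
      · have := maxSG_mem h
        exact this.trans (le_max_right _ _)

lemma leafF_imp {w s : ℕ} (hw : Nat.blt 0 w = true) {ds : List ℕ} {bs : List (ℕ × ℕ × ℕ)}
    {Ps : List (List (NP ds × NP ds))} (hwf : wfsG ds Ps = true) {G : List (NP ds × NP ds)}
    (hG : G ∈ Ps)
    (h : leafF w ds (s * ones w (sz ds)) (ones w (sz ds) * 2 ^ (w - 1)) (2 ^ (w - 1))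
      (maxSG ds Ps) bs G = true) : checkG w s ds bs [G] (.leaf 0) = true := by
  unfold leafF at h
  rw [forceLL_eq, testB_eq] at h
  simp only [Bool.cond_eq_ite] at h
  split_ifs at h with h1 h2
  have h3 : wfsG ds [G] = true := by
    simp only [wfsG, Bool.and_true]
    exact wfsG_mem hwf G hG
  unfold checkG
  simp only [force_eq, forceLL_eq, hw, h1, h3, cond_true]
  rw [runG_leaf]
  have h4 : Nat.ble (maxSG ds [G] * prodm ds bs + 2) (2 ^ (w - 1)) = true := by
    rw [Nat.ble_eq] at h2 ⊢
    refine le_trans ?_ h2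
    exact Nat.add_le_add_right (Nat.mul_le_mul_right _ (maxSG_mem hG)) 2
  rw [h4, cond_true]
  exact h

lemma nthK_mem {α : Type} (z : α) : ∀ (l : List α) (g : ℕ), g < l.length → nthK z g l ∈ l
  | [], g, h => by simp at h
  | a :: l, 0, _ => by
      have : nthK z 0 (a :: l) = a := rfl
      rw [this]; simp
  | a :: l, g + 1, h => by
      have h1 : nthK z (g + 1) (a :: l) = nthK z g l := rfl
      rw [h1]
      exact List.mem_cons_of_mem _ (nthK_mem z l g (by simpa using h))

theorem runB_sound {w s : ℕ} (hs : s ≤ 1) (hw : Nat.blt 0 w = true) {ds : List ℕ}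
    {Ps : List (List (NP ds × NP ds))} (hwf : wfsG ds Ps = true) {xs : List ℝ} :
    ∀ (t : BTree) (bs : List (ℕ × ℕ × ℕ)), InBox bs xs →
    runB w ds (s * ones w (sz ds)) (ones w (sz ds) * 2 ^ (w - 1)) (2 ^ (w - 1))
      (maxSG ds Ps) Ps t bs = true →
    ∃ G ∈ Ps, ∀ P ∈ G, ev ds P.2 xs ≤ ev ds P.1 xs ∧ (s ≠ 0 → ev ds P.2 xs < ev ds P.1 xs)
  | .leaf g, bs, hx, h => by
      have h1 : runB w ds (s * ones w (sz ds)) (ones w (sz ds) * 2 ^ (w - 1)) (2 ^ (w - 1))
        (maxSG ds Ps) Ps (.leaf g) bs = cond (Nat.blt g Ps.length)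
          (leafF w ds (s * ones w (sz ds)) (ones w (sz ds) * 2 ^ (w - 1)) (2 ^ (w - 1))
          (maxSG ds Ps) bs (nthK [] g Ps)) false := rfl
      rw [h1, Bool.cond_eq_ite] at h
      split_ifs at h with h2
      have h3 : nthK [] g Ps ∈ Ps := nthK_mem _ _ _ (Nat.le_of_ble_eq_true h2)
      have h4 := leafF_imp hw hwf h3 h
      obtain ⟨G, hG, h5⟩ := checkG_sound hs h4 hx
      rw [List.mem_singleton] at hG
      rw [hG] at h5
      exact ⟨_, h3, h5⟩
  | .split j l r, bs, hx, h => by
      have h1 : runB w ds (s * ones w (sz ds)) (ones w (sz ds) * 2 ^ (w - 1)) (2 ^ (w - 1))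
        (maxSG ds Ps) Ps (.split j l r) bs =
        cond (runB w ds (s * ones w (sz ds)) (ones w (sz ds) * 2 ^ (w - 1)) (2 ^ (w - 1))
          (maxSG ds Ps) Ps l (halfL j bs))
        (runB w ds (s * ones w (sz ds)) (ones w (sz ds) * 2 ^ (w - 1)) (2 ^ (w - 1))
          (maxSG ds Ps) Ps r (halfR j bs)) false := rfl
      rw [h1, Bool.cond_eq_ite] at h
      split_ifs at h with h2
      rcases half_cover j hx with h3 | h3
      · exact runB_sound hs hw hwf l _ h3 h2
      · exact runB_sound hs hw hwf r _ h3 h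

theorem checkB_sound {w s : ℕ} (hs : s ≤ 1) {ds sh : List ℕ} {bs : List (ℕ × ℕ × ℕ)}
    {defs : List E} {es : List (List E)} {t : BTree}
    (h : checkB w s ds sh bs defs es t = true) {xs : List ℝ}
    (hx : InB xs sh bs) (hl : xs.length = ds.length) :
    ∃ G ∈ es, ∀ e ∈ G, 0 ≤ e.ev (extR xs defs) ∧ (s ≠ 0 → 0 < e.ev (extR xs defs)) := by
  obtain ⟨i1, i2, i3, i4⟩ := inB_spec xs sh bs hx
  unfold checkB at h
  rw [extK_eq, convLLK_eq] at h
  unfold checkGB at h
  simp only [Bool.cond_eq_ite, force_eq] at h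
  split_ifs at h with h1 h2
  have hz : (shl sh xs).length = ds.length := by omega
  obtain ⟨G, hG, hG1⟩ := runB_sound hs h1 h2 t bs i1 h
  obtain ⟨G0, hG0, rfl⟩ := List.mem_map.1 hG
  have henv := extV_ok hz defs _ _ (baseV_ok (ds := ds) hz sh xs 0 i2
    (fun j => by rw [Nat.zero_add]))
  refine ⟨G0, hG0, fun e he => ?_⟩
  obtain ⟨h3, h4⟩ := hG1 _ (List.mem_map.2 ⟨e, he, rfl⟩)
  have h5 := convV_ev hz henv e
  unfold evP at h5
  refine ⟨by linarith, fun h0 => ?_⟩
  have := h4 h0
  linarith

theorem checkB_main {w : ℕ} {ds sh : List ℕ} {bs : List (ℕ × ℕ × ℕ)}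
    {defs : List E} {es : List (List E)} {t : BTree}
    (h : checkB w 1 ds sh bs defs es t = true) {xs : List ℝ}
    (hx : InB xs sh bs) (hl : xs.length = ds.length) (hd : wfD xs.length defs = true) :
    ∃ ys : List ℝ, (∀ i < xs.length, get ys i = get xs i) ∧ Eqs ys xs.length defs ∧
      ∃ G ∈ es, ∀ e ∈ G, 0 < e.ev ys := by
  obtain ⟨G, hG, h1⟩ := checkB_sound le_rfl h hx hl
  obtain ⟨zs, hz⟩ := extR_prefix defs xs
  refine ⟨extR xs defs, ?_, extR_eqs defs xs hd, G, hG, fun e he => (h1 e he).2 one_ne_zero⟩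
  intro i hi
  rw [hz]
  exact get_append_left _ _ _ hi

end Pool.Agent.Lib.BoxPos
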