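import Pool.Agent.Lib.MP_c5a075_co.RingM

/-! Ring argument: conclusion. -/

set_option autoImplicit false

namespace Pool.Agent.Lib.MP_c5a075_co

noncomputable section

open Real

/-- The star direction at the ring point `W k`. -/
def starDir (k : ℤ) (σ : ℝ) : E3 := (rotFr k).lin (vec (2 * σ * i5) 0 i5)

lemma pull_ax {X : Set E3} {μ : ℝ} (k : ℤ) {j : ℤ} {b : E3} {n : ℕ}
    (hb : Ax X (μ • W (k + j)) b n) :
    Ax ((rotFr k).pull X) (μ • W j) ((rotFr k).co b) n := by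
  apply Fr.ax_pull
  rw [rotFr_map, Fr.lin_smul, rotFr_W, Fr.lin_co]
  exact hb

lemma pull_rho {μ : ℝ} (k i j : ℤ) (b : E3) :
    rho2 ((rotFr k).co b) (μ • W i - μ • W j) = rho2 b (μ • W (k + i) - μ • W (k + j)) := by
  have : μ • W (k + i) - μ • W (k + j) = (rotFr k).lin (μ • W i - μ • W j) := by
    rw [Fr.lin_sub, Fr.lin_smul, Fr.lin_smul, rotFr_W, rotFr_W]
  rw [this, ← Fr.rho2_lin (rotFr k), Fr.lin_co]

lemma refl_ax {X : Set E3} {μ : ℝ} {j : ℤ} {b : E3} {n : ℕ}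
    (hb : Ax X (μ • W (-j)) b n) :
    Ax (reflFr.pull X) (μ • W j) (reflFr.co b) n := by
  apply Fr.ax_pull
  rw [reflFr_map, Fr.lin_smul, reflFr_W, Fr.lin_co]
  exact hb

lemma refl_rho {μ : ℝ} (i j : ℤ) (b : E3) :
    rho2 (reflFr.co b) (μ • W i - μ • W j) = rho2 b (μ • W (-i) - μ • W (-j)) := by
  have : μ • W (-i) - μ • W (-j) = reflFr.lin (μ • W i - μ • W j) := by
    rw [Fr.lin_sub, Fr.lin_smul, Fr.lin_smul, reflFr_W, reflFr_W]
  rw [this, ← Fr.rho2_lin reflFr, Fr.lin_co]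

lemma pull_z {X : Set E3} (k : ℤ) (t : ℝ) : vec 0 0 t ∈ (rotFr k).pull X ↔ vec 0 0 t ∈ X := by
  rw [Fr.mem_pull, rotFr_map, rotFr_lin]
  have : vec (cos (k * (2 * π / 5)) * (vec 0 0 t) 0 - sin (k * (2 * π / 5)) * (vec 0 0 t) 1)
      (sin (k * (2 * π / 5)) * (vec 0 0 t) 0 + cos (k * (2 * π / 5)) * (vec 0 0 t) 1)
      ((vec 0 0 t) 2) = vec 0 0 t := by apply ext3 <;> simp
  rw [this]

lemma refl_z {X : Set E3} (t : ℝ) : vec 0 0 t ∈ reflFr.pull X ↔ vec 0 0 t ∈ X := by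
  rw [Fr.mem_pull, reflFr_map, reflFr_lin]
  have : vec ((vec 0 0 t) 0) (-(vec 0 0 t) 1) ((vec 0 0 t) 2) = vec 0 0 t := by
    apply ext3 <;> simp
  rw [this]

lemma parity5 (P M : ℤ → Prop) (h : ∀ k, P k ∨ M k) (hP : ∀ k, P k → ¬ P (k + 1))
    (hM : ∀ k, M k → ¬ M (k + 1)) (pP : ∀ k, P (k + 5) ↔ P k) (pM : ∀ k, M (k + 5) ↔ M k) :
    False := by
  have step1 : ∀ k, P k → P (k + 2) := by
    intro k hk
    have h1 := (h (k + 1)).resolve_left (hP k hk)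
    have h2 := (h (k + 1 + 1)).resolve_right (hM (k + 1) h1)
    have e : k + 1 + 1 = k + 2 := by ring
    rwa [e] at h2
  have step2 : ∀ k, M k → M (k + 2) := by
    intro k hk
    have h1 := (h (k + 1)).resolve_right (hM k hk)
    have h2 := (h (k + 1 + 1)).resolve_left (hP (k + 1) h1)
    have e : k + 1 + 1 = k + 2 := by ring
    rwa [e] at h2
  rcases h 0 with h0 | h0
  · have h4 : P 4 := step1 2 (step1 0 h0)
    exact hP 4 h4 ((pP 0).2 h0)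
  · have h4 : M 4 := step2 2 (step2 0 h0)
    exact hM 4 h4 ((pM 0).2 h0)

section
variable {X : Set E3} {μ T e H : ℝ}

lemma core_un (h : RingHyp X μ T e H) {k : ℤ} {b : E3} {n : ℕ} (hb : Ax X (μ • W k) b n)
    (h1 : rho2 b (μ • W (k + 1) - μ • W k) ≠ 0) (h2 : rho2 b (μ • W (k - 1) - μ • W k) ≠ 0) :
    n = 5 ∧ T ^ 2 ≤ 2 * e ∧ ∃ σ : ℝ, (σ = 1 ∨ σ = -1) ∧ (b = starDir k σ ∨ b = -starDir k σ) ∧
      vec 0 0 (σ * (2 * c5) * μ) ∈ X := by
  have hb' : Ax ((rotFr k).pull X) (μ • W 0) ((rotFr k).co b) n := pull_ax k (by rwa [add_zero])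
  have e1 := pull_rho (μ := μ) k 1 0 b
  have e2 := pull_rho (μ := μ) k (-1) 0 b
  rw [add_zero] at e1 e2
  rw [← sub_eq_add_neg] at e2
  obtain ⟨a1, a2, σ, a3, a4, a5⟩ := ring_unmatched (h.pull_rot k) hb' (by rw [e1]; exact h1)
    (by rw [e2]; exact h2)
  refine ⟨a1, a2, σ, a3, ?_, (pull_z k _).1 a5⟩
  rcases a4 with a4 | a4
  · left; rw [starDir, ← a4, Fr.lin_co]
  · right; rw [starDir, ← Fr.lin_neg, ← a4, Fr.lin_co]

lemma core_matched_p (h : RingHyp X μ T e H) (hT : T ^ 2 ≤ 2 * e) {σ : ℝ} (hσ : σ = 1 ∨ σ = -1)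
    (hz : vec 0 0 (σ * (2 * c5) * μ) ∈ X) {k : ℤ} {b : E3} {n : ℕ} (hb : Ax X (μ • W k) b n)
    (h1 : rho2 b (μ • W (k + 1) - μ • W k) = 0) : False := by
  have hb' : Ax ((rotFr k).pull X) (μ • W 0) ((rotFr k).co b) n := pull_ax k (by rwa [add_zero])
  have e1 := pull_rho (μ := μ) k 1 0 b
  rw [add_zero] at e1
  exact ring_matched_false (h.pull_rot k) hb' (by rw [e1]; exact h1) hT hσ ((pull_z k _).2 hz)

lemma core_matched_m (h : RingHyp X μ T e H) (hT : T ^ 2 ≤ 2 * e) {σ : ℝ} (hσ : σ = 1 ∨ σ = -1)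
    (hz : vec 0 0 (σ * (2 * c5) * μ) ∈ X) {k : ℤ} {b : E3} {n : ℕ} (hb : Ax X (μ • W k) b n)
    (h1 : rho2 b (μ • W (k - 1) - μ • W k) = 0) : False := by
  have e1 := refl_rho (μ := μ) (-(k - 1)) (-k) b
  rw [neg_neg, neg_neg] at e1
  have hb' : Ax (reflFr.pull X) (μ • W (-k)) (reflFr.co b) n := refl_ax (by rwa [neg_neg])
  refine core_matched_p h.pull_refl hT hσ ((refl_z _).2 hz) hb' ?_
  have e2 : -k + 1 = -(k - 1) := by ring
  rw [e2, e1]; exact h1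

lemma core_mixed (h : RingHyp X μ T e H) {σ : ℝ} (hσ : σ = 1 ∨ σ = -1)
    (hz : vec 0 0 (-σ * (2 * c5) * μ) ∈ X) {k : ℤ} {b : E3} {n : ℕ} (hb : Ax X (μ • W k) b n)
    (hbe : b = starDir k σ ∨ b = -starDir k σ) : False := by
  have hb' : Ax ((rotFr k).pull X) (μ • W 0) ((rotFr k).co b) n := pull_ax k (by rwa [add_zero])
  refine ring_mixed_false (h.pull_rot k) hb' hσ ?_ ((pull_z k _).2 hz)
  rcases hbe with h1 | h1
  · left; rw [h1, starDir, Fr.co_lin]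
  · right; rw [h1, starDir, ← Fr.lin_neg, Fr.co_lin]

lemma core_chain_p (h : RingHyp X μ T e H) (hμ : μ ≤ 1.52) {k : ℤ} {b : E3} {n : ℕ}
    (hb : Ax X (μ • W k) b n) (h1 : rho2 b (μ • W (k + 1) - μ • W k) = 0) {b' : E3} {n' : ℕ}
    (hb' : Ax X (μ • W (k - 1)) b' n') (h1' : rho2 b' (μ • W k - μ • W (k - 1)) = 0) : False := by
  have hb1 : Ax ((rotFr k).pull X) (μ • W 0) ((rotFr k).co b) n := pull_ax k (by rwa [add_zero])
  have hb2 : Ax ((rotFr k).pull X) (μ • W (-1)) ((rotFr k).co b') n' :=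
    pull_ax k (by rw [← sub_eq_add_neg]; exact hb')
  have e1 := pull_rho (μ := μ) k 1 0 b
  have e2 := pull_rho (μ := μ) k 0 (-1) b'
  rw [add_zero] at e1 e2
  rw [← sub_eq_add_neg] at e2
  exact ring_chain_false (h.pull_rot k) hμ hb1 (by rw [e1]; exact h1) hb2
    (by rw [e2]; exact h1')

lemma core_chain_m (h : RingHyp X μ T e H) (hμ : μ ≤ 1.52) {k : ℤ} {b : E3} {n : ℕ}
    (hb : Ax X (μ • W k) b n) (h1 : rho2 b (μ • W (k - 1) - μ • W k) = 0) {b' : E3} {n' : ℕ}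
    (hb' : Ax X (μ • W (k + 1)) b' n') (h1' : rho2 b' (μ • W k - μ • W (k + 1)) = 0) : False := by
  have hb1 : Ax (reflFr.pull X) (μ • W (-k)) (reflFr.co b) n := refl_ax (by rwa [neg_neg])
  have e2 : -k - 1 = -(k + 1) := by ring
  have hb2 : Ax (reflFr.pull X) (μ • W (-k - 1)) (reflFr.co b') n' := by
    rw [e2]; exact refl_ax (by rwa [neg_neg])
  refine core_chain_p h.pull_refl hμ hb1 ?_ hb2 ?_
  · rw [refl_rho]
    have e3 : -(-k + 1) = k - 1 := by ring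
    rw [e3, neg_neg]; exact h1
  · rw [refl_rho]
    have e3 : -(-k - 1) = k + 1 := by ring
    rw [e3, neg_neg]; exact h1'

/-- If some ring point is unmatched then all are, of the same type. -/
lemma core_of_unmatched (h : RingHyp X μ T e H) {k : ℤ} {b : E3} {n : ℕ}
    (hb : Ax X (μ • W k) b n) (h1 : rho2 b (μ • W (k + 1) - μ • W k) ≠ 0)
    (h2 : rho2 b (μ • W (k - 1) - μ • W k) ≠ 0) :
    T ^ 2 ≤ 2 * e ∧ ∃ σ : ℝ, (σ = 1 ∨ σ = -1) ∧ vec 0 0 (σ * (2 * c5) * μ) ∈ X ∧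
      ∀ (k : ℤ) (b : E3) (n : ℕ), Ax X (μ • W k) b n →
        n = 5 ∧ (b = starDir k σ ∨ b = -starDir k σ) := by
  obtain ⟨-, hT, σ, hσ, -, hz⟩ := core_un h hb h1 h2
  refine ⟨hT, σ, hσ, hz, ?_⟩
  intro j b' n' hb'
  obtain ⟨a1, -, σ', hσ', a4, -⟩ := core_un h hb'
    (fun h3 => core_matched_p h hT hσ hz hb' h3) (fun h3 => core_matched_m h hT hσ hz hb' h3)
  refine ⟨a1, ?_⟩
  have : σ' = σ := by
    by_contra hne
    have h3 : σ = -σ' := by
      rcases hσ with h4 | h4 <;> rcases hσ' with h5 | h5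
      · exact absurd (by rw [h4, h5]) hne
      · rw [h4, h5]; norm_num
      · rw [h4, h5]
      · exact absurd (by rw [h4, h5]) hne
    rw [h3] at hz
    exact core_mixed h hσ' hz hb' a4
  rw [← this]; exact a4

/-- `W k` is matched with its successor -/
def MatP (X : Set E3) (μ : ℝ) (k : ℤ) : Prop :=
  ∃ b n, Ax X (μ • W k) b n ∧ rho2 b (μ • W (k + 1) - μ • W k) = 0

/-- `W k` is matched with its predecessor -/
def MatM (X : Set E3) (μ : ℝ) (k : ℤ) : Prop :=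
  ∃ b n, Ax X (μ • W k) b n ∧ rho2 b (μ • W (k - 1) - μ • W k) = 0

lemma matP_next (h : RingHyp X μ T e H) (hμ : μ ≤ 1.52) (k : ℤ) (hk : MatP X μ k) :
    ¬ MatP X μ (k + 1) := by
  intro hk'
  obtain ⟨b, n, hb, h3⟩ := hk
  obtain ⟨b', n', hb', h3'⟩ := hk'
  have e : k + 1 - 1 = k := by ring
  refine core_chain_p h hμ (k := k + 1) hb' h3' (b' := b) (n' := n) ?_ ?_
  · rw [e]; exact hb
  · rw [e]; exact h3

lemma matM_next (h : RingHyp X μ T e H) (hμ : μ ≤ 1.52) (k : ℤ) (hk : MatM X μ k) :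
    ¬ MatM X μ (k + 1) := by
  intro hk'
  obtain ⟨b, n, hb, h3⟩ := hk
  obtain ⟨b', n', hb', h3'⟩ := hk'
  have e : k + 1 - 1 = k := by ring
  rw [e] at h3'
  exact core_chain_m h hμ (k := k) hb h3 hb' h3'

lemma matP_per (k : ℤ) : MatP X μ (k + 5) ↔ MatP X μ k := by
  have e1 : W (k + 5) = W k := W_add_five k
  have e2 : W (k + 5 + 1) = W (k + 1) := by
    have : k + 5 + 1 = (k + 1) + 5 := by ring
    rw [this]; exact W_add_five _
  unfold MatP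
  rw [e1, e2]

lemma matM_per (k : ℤ) : MatM X μ (k + 5) ↔ MatM X μ k := by
  have e1 : W (k + 5) = W k := W_add_five k
  have e2 : W (k + 5 - 1) = W (k - 1) := by
    have : k + 5 - 1 = (k - 1) + 5 := by ring
    rw [this]; exact W_add_five _
  unfold MatM
  rw [e1, e2]

/-- The conclusion of the ring argument. -/
theorem ring_core (h : RingHyp X μ T e H)
    (hm : μ ≤ 1.52 ∨ ∀ (k : ℤ) (b : E3) (n : ℕ), Ax X (μ • W k) b n →
      rho2 b (μ • W (k + 1) - μ • W k) ≠ 0 ∧ rho2 b (μ • W (k - 1) - μ • W k) ≠ 0) :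
    T ^ 2 ≤ 2 * e ∧ ∃ σ : ℝ, (σ = 1 ∨ σ = -1) ∧ vec 0 0 (σ * (2 * c5) * μ) ∈ X ∧
      ∀ (k : ℤ) (b : E3) (n : ℕ), Ax X (μ • W k) b n →
        n = 5 ∧ (b = starDir k σ ∨ b = -starDir k σ) := by
  rcases hm with hμ | hm
  · by_contra hcon
    have hPM : ∀ k : ℤ, MatP X μ k ∨ MatM X μ k := by
      intro k
      obtain ⟨b, n, hb⟩ := h.flag k
      by_contra h3
      push Not at h3
      apply hcon
      refine core_of_unmatched h hb ?_ ?_
      · intro h4; exact h3.1 ⟨b, n, hb, h4⟩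
      · intro h4; exact h3.2 ⟨b, n, hb, h4⟩
    exact parity5 (MatP X μ) (MatM X μ) hPM (matP_next h hμ) (matM_next h hμ) matP_per matM_per
  · obtain ⟨b, n, hb⟩ := h.flag 0
    obtain ⟨h1, h2⟩ := hm 0 b n hb
    exact core_of_unmatched h hb h1 h2

end

end

end Pool.Agent.Lib.MP_c5a075_co
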