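import Pool.Agent.Lib.MP_c5a075_co.FrameEx
import Pool.Agent.Lib.MP_c5a075_co.RingCore

/-! Regime A: near-minimality in the capsule gauge. -/

set_option autoImplicit false

namespace Pool.Agent.Lib.MP_c5a075_co

noncomputable section

open Real

/-- The vector `v` lies in the capsule of radius `t` around the segment `[-0.61 t a, 0.61 t a]`. -/
def InK (a v : E3) (t : ℝ) : Prop :=
  ∃ s : ℝ, |s| ≤ 0.61 * t ∧ dot (v - s • a) (v - s • a) ≤ t ^ 2

lemma dot_sub_axis {a : E3} (ha : dot a a = 1) (v : E3) (s : ℝ) :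
    dot (v - s • a) (v - s • a) = rho2 a v + (dot a v - s) ^ 2 := by
  rw [rho2]
  simp only [dot_sub_left, dot_sub_right, dot_smul_left, dot_smul_right, ha, dot_comm v a]
  ring

lemma InK.zero {a v : E3} {t : ℝ} (ht : 0 ≤ t) (h : dot v v ≤ t ^ 2) : InK a v t :=
  ⟨0, by rw [abs_zero]; positivity, by rw [zero_smul, sub_zero]; exact h⟩

lemma InK.neg {a v : E3} {t : ℝ} (h : InK a v t) : InK (-a) v t := by
  obtain ⟨s, h1, h2⟩ := h
  refine ⟨-s, by rwa [abs_neg], ?_⟩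
  rw [smul_neg, neg_smul, neg_neg]; exact h2

/-- Visibility inside the capsule. -/
lemma InK.vis {a v : E3} {t : ℝ} (ha : dot a a = 1) (ht : 0 ≤ t) (h : InK a v t) :
    dot v v ≤ (1.61 * t) ^ 2 := by
  obtain ⟨s, h1, h2⟩ := h
  have h3 : ‖v‖ ≤ ‖v - s • a‖ + ‖s • a‖ := by
    have := norm_add_le (v - s • a) (s • a)
    rwa [sub_add_cancel] at this
  have h4 : ‖v - s • a‖ ≤ t := (norm_le_iff _ ht).2 h2
  have h5 : ‖s • a‖ ≤ 0.61 * t := by
    rw [norm_le_iff _ (by positivity), dot_smul_left, dot_smul_right, ha, mul_one, ← sq, ← sq_abs]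
    exact pow_le_pow_left₀ (abs_nonneg _) h1 2
  exact (norm_le_iff v (by positivity)).1 (by linarith)

/-- Near-minimality in the capsule gauge (value `t`). -/
structure Caps (X : Set E3) (c : E3) (K t : ℝ) : Prop where
  t_pos : 0 < t
  t_le : t ≤ 200 / 161
  sep : ∃ r : ℝ, 0 < r ∧ ∀ x ∈ X, ∀ y ∈ X, x ≠ y → r ≤ dist x y
  cov : ∀ y : E3, ∃ x ∈ X, dist x y ≤ 1
  bad : ∀ x ∈ X, dist x c ≤ K → ∃ a n, Ax X x a n
  caps : ∀ x a n, Ax X x a n → dist x c ≤ K → ∀ v ∈ X,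
    InK a (v - x) ((1 - 1 / 1000000) * t) → rho2 a (v - x) = 0

namespace Caps

variable {X : Set E3} {c : E3} {K t : ℝ}

lemma pull (H : Caps X c K t) (F : Fr) : Caps (F.pull X) (F.inv c) K t where
  t_pos := H.t_pos
  t_le := H.t_le
  sep := F.sep_pull H.sep
  cov := F.cov_pull H.cov
  bad := by
    intro x hx hd
    have hd' : dist (F.map x) c ≤ K := by
      rw [← F.dist_map, F.map_inv] at hd; exact hd
    obtain ⟨a, n, ha⟩ := H.bad (F.map x) hx hd'
    refine ⟨F.co a, n, ?_⟩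
    apply F.ax_pull
    rw [F.lin_co]; exact ha
  caps := by
    intro x a n hx hd v hv hk
    have hd' : dist (F.map x) c ≤ K := by
      rw [← F.dist_map, F.map_inv] at hd; exact hd
    have h1 := H.caps (F.map x) (F.lin a) n (F.ax_push hx) hd' (F.map v) hv (by
      obtain ⟨s, h2, h3⟩ := hk
      refine ⟨s, h2, ?_⟩
      rw [F.map_sub, ← F.lin_smul, ← F.lin_sub, F.dot_lin]; exact h3)
    rw [F.map_sub, F.rho2_lin] at h1
    exact h1

lemma recenter {c' : E3} {K' : ℝ} (H : Caps X c K t) (h : dist c' c + K' ≤ K) :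
    Caps X c' K' t where
  t_pos := H.t_pos
  t_le := H.t_le
  sep := H.sep
  cov := H.cov
  bad := fun x hx hd => H.bad x hx (by
    have := dist_triangle x c' c
    linarith)
  caps := fun x a n hx hd => H.caps x a n hx (by
    have := dist_triangle x c' c
    linarith)

end Caps

/-- The exclusion property at a ring point. -/
lemma caps_zw {b u : E3} {t μ T : ℝ} (hb : dot b b = 1) (ht : 0 < t) (hμ : 0 < μ) (hμt : μ ≤ t)
    (hT : (1 + T ^ 2) * μ ^ 2 ≤ (1 + 1 / 10000) * t ^ 2)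
    (hu : dot u u ≤ 1.382 * μ ^ 2) (hk : ¬ InK b u ((1 - 1 / 1000000) * t)) :
    (1 - 1 / 5000) * (1 + T ^ 2) * μ ^ 2 ≤ rho2 b u := by
  by_contra hcon
  push Not at hcon
  apply hk
  have ht2 : 0 < t ^ 2 := by positivity
  have hμ2 : μ ^ 2 ≤ t ^ 2 := pow_le_pow_left₀ hμ.le hμt 2
  have hr0 := rho2_nonneg b u hb
  have hr : rho2 b u < (1 - 1 / 5000) * (1 + 1 / 10000) * t ^ 2 := by nlinarith only [hT, hcon]
  obtain ⟨d, hd⟩ : ∃ d, d = dot b u := ⟨_, rfl⟩
  have huu : dot u u = rho2 b u + d ^ 2 := by rw [rho2, hd]; ring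
  obtain ⟨t1, ht1⟩ : ∃ t1, t1 = (1 - 1 / 1000000) * t := ⟨_, rfl⟩
  rw [← ht1]
  have ht1' : t = t1 / (1 - 1 / 1000000) := by rw [ht1]; field_simp
  have ht1p : 0 < t1 := by rw [ht1]; positivity
  have htt : t ^ 2 ≤ (1 + 3 / 1000000) * t1 ^ 2 := by rw [ht1]; nlinarith only []
  have main : ∀ m : ℝ, 0 ≤ m → m ^ 2 = d ^ 2 →
      ∃ s : ℝ, 0 ≤ s ∧ s ≤ 0.61 * t1 ∧ rho2 b u + (m - s) ^ 2 ≤ t1 ^ 2 := by
    intro m hm hmd
    rcases le_total m (0.61 * t1) with h1 | h1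
    · refine ⟨m, hm, h1, ?_⟩
      rw [sub_self]
      nlinarith only [hr, htt]
    · refine ⟨0.61 * t1, by positivity, le_rfl, ?_⟩
      rcases le_total m (0.6182 * t1) with h2 | h2
      · have h3 : (m - 0.61 * t1) ^ 2 ≤ (0.0082 * t1) ^ 2 :=
          pow_le_pow_left₀ (by linarith) (by linarith) 2
        rw [mul_pow] at h3
        norm_num at h3
        nlinarith only [hr, htt, h3]
      · have h3 : rho2 b u + m ^ 2 ≤ 1.382 * t ^ 2 := by rw [hmd, ← huu]; linarith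
        have h4 : (m - 0.61 * t1) ^ 2 = m ^ 2 - 1.22 * (m * t1) + 0.3721 * t1 ^ 2 := by ring
        have h5 : 0.6182 * t1 * t1 ≤ m * t1 := mul_le_mul_of_nonneg_right h2 ht1p.le
        rw [h4]
        nlinarith only [htt, h3, h5]
  rcases le_total 0 d with h0 | h0
  · obtain ⟨s, h1, h2, h3⟩ := main d h0 rfl
    refine ⟨s, by rw [abs_of_nonneg h1]; exact h2, ?_⟩
    rw [dot_sub_axis hb, ← hd]; exact h3
  · obtain ⟨s, h1, h2, h3⟩ := main (-d) (by linarith) (by ring)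
    refine ⟨-s, by rw [abs_neg, abs_of_nonneg h1]; exact h2, ?_⟩
    rw [dot_sub_axis hb, ← hd]
    have : (d - -s) ^ 2 = (-d - s) ^ 2 := by ring
    rw [this]; exact h3

/-- The ring hypotheses in Regime A. Here `T = 0` and `h ≤ 0.61 t₁`, or `T μ = h - 0.61 t₁`. -/
lemma caps_ring {X : Set E3} {t μ T h : ℝ} (H : Caps X 0 (20 * t) t) (hμ : 0 < μ) (hμt : μ ≤ t)
    (hμ2 : 0.72 * t ^ 2 ≤ μ ^ 2) (h0 : 0 ≤ h) (hh : μ ^ 2 + h ^ 2 ≤ 4)
    (hx : Ax X (vec 0 0 (-h)) (vec 0 0 1) 5) (hw : μ • W 0 ∈ X) (hT0 : 0 ≤ T)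
    (hT : (1 + T ^ 2) * μ ^ 2 ≤ (1 + 1 / 10000) * t ^ 2)
    (hcase : (T = 0 ∧ h ≤ 0.61 * ((1 - 1 / 1000000) * t)) ∨
      T * μ = h - 0.61 * ((1 - 1 / 1000000) * t)) : RingHyp X μ T (1 / 5000) 0 := by
  have ht := H.t_pos
  have ht2 : 0 < t ^ 2 := by positivity
  have ring := ring_of_base hx hw hh
  have hdist : ∀ k : ℤ, dist (μ • W k) 0 ≤ 20 * t := by
    intro k
    rw [dist_le_iff _ _ (by positivity), sub_zero, dot_smul_left, dot_smul_right, dot_W]
    nlinarith only [hT]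
  have hh2 : h ≤ 2 * t := by
    rcases hcase with ⟨-, h1⟩ | h1
    · linarith
    · have h2 : (T * μ) ^ 2 ≤ (1 * t) ^ 2 := by nlinarith only [hμ2, hT]
      have h3 := le_of_sq_le_sq h2 (by positivity)
      linarith
  have hdx : dist (vec 0 0 (-h)) 0 ≤ 20 * t := by
    rw [dist_le_iff _ _ (by positivity), sub_zero]
    simp only [dot, vec_0, vec_1, vec_2]
    nlinarith only [h0, hh2]
  have ht1 := H.t_le
  refine ⟨hμ, by linarith, hT0, by norm_num, le_rfl, ring, ?_, ?_, Or.inl ⟨rfl, by linarith⟩, ?_⟩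
  · intro k; exact H.bad _ (ring k) (hdist k)
  · intro k b n hb v hv hd
    by_cases hk : InK b (v - μ • W k) ((1 - 1 / 1000000) * t)
    · left; exact H.caps _ b n hb (hdist k) v hv hk
    · right
      exact caps_zw hb.unit ht hμ hμt hT hd hk
  · intro k v hv hd hle _
    have hvv : dot v v = (1 - 2 * c5) * μ ^ 2 + 2 * μ * dot v (W k) := by
      have e : dot (v - μ • W k) (v - μ • W k) = dot v v - 2 * μ * dot v (W k) + μ ^ 2 := by
        simp only [dot_sub_left, dot_sub_right, dot_smul_left, dot_smul_right, dot_W,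
          dot_comm (W k) v]
        ring
      rw [e] at hd; linarith
    obtain ⟨t1, ht1⟩ : ∃ t1, t1 = (1 - 1 / 1000000) * t := ⟨_, rfl⟩
    rw [← ht1] at hcase
    have ht1p : 0 < t1 := by rw [ht1]; positivity
    have htt : t ^ 2 ≤ (1 + 3 / 1000000) * t1 ^ 2 := by rw [ht1]; nlinarith only []
    have hmu := mul_le_mul_of_nonneg_left hle hμ.le
    have hK : InK (vec 0 0 1) (v - vec 0 0 (-h)) t1 := by
      rcases hcase with ⟨hT0', hh1⟩ | hTμ
      · refine ⟨h, by rw [abs_of_nonneg h0]; exact hh1, ?_⟩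
        have e : v - vec 0 0 (-h) - h • vec 0 0 1 = v := by apply ext3 <;> simp
        rw [e, hvv]
        rw [hT0'] at hmu
        nlinarith only [hT, htt, hmu]
      · refine ⟨0.61 * t1, by rw [abs_of_nonneg (by positivity)], ?_⟩
        have e : dot (v - vec 0 0 (-h) - (0.61 * t1) • vec 0 0 1)
            (v - vec 0 0 (-h) - (0.61 * t1) • vec 0 0 1) =
            dot v v + 2 * (T * μ) * v 2 + (T * μ) ^ 2 := by
          rw [hTμ]
          simp only [dot, sub_0, sub_1, sub_2, smul_0, smul_1, smul_2, vec_0, vec_1, vec_2]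
          ring
        rw [e, hvv]
        nlinarith only [hμ2, hT, htt, hmu]
    have hr := H.caps _ _ _ hx hdx v hv (by rw [← ht1]; exact hK)
    have hr' := (rho2_eq_zero hx.unit).1 hr
    have e0 := congrArg (fun z : E3 => z 0) hr'
    have e1 := congrArg (fun z : E3 => z 1) hr'
    simp only [sub_0, sub_1, smul_0, smul_1, vec_0, vec_1, mul_zero, sub_zero] at e0 e1
    exact ⟨e0, e1⟩

end

end Pool.Agent.Lib.MP_c5a075_co
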