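import Pool.Agent.Lib.MP_c5a075_co.Star

/-! Transport along the symmetries of the star, and the spreading of layers. -/

set_option autoImplicit false

namespace Pool.Agent.Lib.MP_c5a075_co

noncomputable section

open Real

lemma Sym.ax_pull {F : Fr} (h : Sym F) {X : Set E3} {x b : E3} {n : ℕ} (hx : Ax X x b n) :
    Ax (F.pull X) (F.co x) (F.co b) n := by
  apply F.ax_pull
  rw [h.map, F.lin_co, F.lin_co]
  exact hx

lemma Sym.bas {F : Fr} (h : Sym F) {X : Set E3} (hX : Bas X) : Bas (F.pull X) where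
  sep := F.sep_pull hX.sep
  cov := F.cov_pull hX.cov
  bad := by
    intro x hx hd
    rw [F.mem_pull, h.map] at hx
    obtain ⟨a, n, ha⟩ := hX.bad (F.lin x) hx (by rw [F.dot_lin]; exact hd)
    have := h.ax_pull ha
    rw [F.co_lin] at this
    exact ⟨_, _, this⟩

lemma Sym.clean {F : Fr} (h : Sym F) {X : Set E3} {t : ℝ} (hX : Clean X t) :
    Clean (F.pull X) t := by
  intro x hx hd
  rw [F.mem_pull, h.map] at hx
  exact (h.Sig_iff x).1 (hX _ hx (by rw [F.dot_lin]; exact hd))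

lemma Sym.starAx {F : Fr} (h : Sym F) {X : Set E3} {a : ℝ} (hX : StarAx X a) :
    StarAx (F.pull X) a := by
  intro v hv
  apply F.ax_pull
  rw [h.map, F.lin_smul]
  exact hX _ (h.maps v hv)

/-! ### Spreading -/

lemma rot_e3 (c s : ℝ) (v : E3) :
    rot e3 c s v = vec (c * v 0 - s * v 1) (s * v 0 + c * v 1) (v 2) := by
  apply ext3 <;> simp [rot, dot] <;> ring

lemma rot_e3_V (k j : ℤ) :
    rot e3 (cos (k * (2 * π / 5))) (sin (k * (2 * π / 5))) (V j) = V (k + j) := by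
  rw [rot_e3, ← rotFr_lin, rotFr_V]

lemma rot_V0_e3 : rot (V 0) c5 s5 e3 = V (-1) := by
  have h1 := i5_mul
  have h2 := i5_sq
  apply ext3
  · rw [rot_0]
    simp only [dot, V_0, V_1, V_2, W_zero, W_neg_one, vec_0, vec_1, e3_0, e3_1, e3_2]
    linear_combination (2 * i5) * h1
  · rw [rot_1]
    simp only [dot, V_0, V_1, V_2, W_zero, W_neg_one, vec_0, vec_1, e3_0, e3_1, e3_2]
    ring
  · rw [rot_2]
    simp only [dot, V_0, V_1, V_2, W_zero, W_neg_one, vec_0, vec_1, e3_0, e3_1, e3_2]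
    linear_combination (i5 - 1) * h1

lemma rot_V0_V : rot (V 0) c5 s5 (V (-1)) = -V 2 := by
  have h1 := i5_mul
  have h2 := i5_sq
  have h3 := c5_sq
  have h4 := c5_sq_add
  have h5 := c5_eq
  have h6 : s5 ^ 2 = (5 + 5 * i5) / 8 := by rw [s5_sq', c5_eq]; ring
  apply ext3
  · rw [rot_0]
    simp only [dot, V_0, V_1, V_2, W_zero, W_neg_one, W_two, vec_0, vec_1, neg_0]
    have e : s5 * (2 * i5 * 0 * i5 - i5 * (2 * i5 * -s5)) = 2 * i5 ^ 2 * s5 ^ 2 := by ring
    rw [e, h6, h5]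
    linear_combination (65 / 8 * i5 + 25 / 2 * i5 ^ 2 - 25 / 2 * i5 ^ 3) * h2
  · rw [rot_1]
    simp only [dot, V_0, V_1, V_2, W_zero, W_neg_one, W_two, vec_0, vec_1, neg_1]
    ring_nf
    rw [h2, h5]
    ring_nf
    rw [h2]
    ring
  · rw [rot_2]
    simp only [dot, V_0, V_1, V_2, W_zero, W_neg_one, W_two, vec_0, vec_1, neg_2]
    have e : s5 * (2 * i5 * 1 * (2 * i5 * -s5) - 2 * i5 * 0 * (2 * i5 * c5)) =
      -4 * i5 ^ 2 * s5 ^ 2 := by ring
    rw [e, h6, h5]
    linear_combination (-15 / 4 * i5 + 25 / 4 * i5 ^ 2 - 25 / 4 * i5 ^ 3) * h2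

lemma trans_move {X : Set E3} {a r c s : ℝ} (ha : 0 < a) (ha2 : a ≤ 1.72)
    (hr : 0 ≤ r) (hr2 : r ≤ 2) {u v : E3} (hu : dot u u = 1) (hv : dot v v = 1)
    (huv : dot u v = i5) (h : Inv X (a • u) u c s) (hX : r • v ∈ X) :
    r • rot u c s v ∈ X := by
  have h1 : dot (r • v - a • u) (r • v - a • u) ≤ 4 := by
    have e : dot (r • v - a • u) (r • v - a • u) = r ^ 2 + a ^ 2 - 2 * i5 * r * a := by
      simp only [dot_sub_left, dot_sub_right, dot_smul_left, dot_smul_right, hu, hv,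
        dot_comm v u, huv]
      ring
    rw [e]
    have h5 : (0.447:ℝ) < i5 := by
      have h6 := i5_sq
      have h7 := i5_pos
      nlinarith
    have h8 : 2 * 0.447 * (r * a) ≤ 2 * i5 * (r * a) := by
      have : 0 ≤ r * a := by positivity
      nlinarith
    nlinarith [mul_nonneg hr (sub_nonneg.2 hr2), mul_nonneg ha.le (sub_nonneg.2 ha2),
      mul_nonneg (sub_nonneg.2 hr2) (sub_nonneg.2 ha2), mul_nonneg hr ha.le]
  have h2 := h (r • v - a • u) h1 (by rw [add_sub_cancel]; exact hX)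
  rw [rot_sub, rot_smul, rot_smul_axis u hu, add_sub_cancel] at h2
  exact h2

/-- points of the star lines are moved to the other star lines -/
theorem trans {X : Set E3} {a r : ℝ} (hS : StarAx X a) (ha : 0 < a) (ha2 : a ≤ 1.72)
    (hr : 0 ≤ r) (hr2 : r ≤ 2) {v v' : E3} (hv : v ∈ Dr) (hv' : v' ∈ Dr) (hX : r • v ∈ X) :
    r • v' ∈ X := by
  -- the general step
  have step : ∀ {u v : E3} (k : ℤ), u ∈ Dr → dot v v = 1 → dot u v = i5 → r • v ∈ X →
      r • rot u (cos (k * (2 * π / 5))) (sin (k * (2 * π / 5))) v ∈ X := by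
    intro u v k hu hv huv hX
    have h := (hS u hu).pow k
    rw [Nat.cast_ofNat] at h
    exact trans_move ha ha2 hr hr2 (Dr_unit hu) hv huv h hX
  have c1 : cos ((1:ℤ) * (2 * π / 5)) = c5 := by
    rw [Int.cast_one, one_mul, cos_two_pi_div_five]
  have s1 : sin ((1:ℤ) * (2 * π / 5)) = s5 := by
    rw [Int.cast_one, one_mul, sin_two_pi_div_five]
  have c2 : cos ((-1:ℤ) * (2 * π / 5)) = c5 := by
    rw [Int.cast_neg, Int.cast_one, neg_one_mul, Real.cos_neg, cos_two_pi_div_five]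
  have s2 : sin ((-1:ℤ) * (2 * π / 5)) = -s5 := by
    rw [Int.cast_neg, Int.cast_one, neg_one_mul, Real.sin_neg, sin_two_pi_div_five]
  have he : ∀ k : ℤ, dot e3 (V k) = i5 := fun k => by rw [e3_dot, V_2]
  have hV0 : dot (V 0) e3 = i5 := by rw [dot_e3, V_2]
  have hV1 : dot (V 0) (V (-1)) = i5 := by
    have := dot_axis_rot (V 0) (dot_V 0) c5 s5 e3
    rw [rot_V0_e3, hV0] at this
    exact this
  have hV2 : dot (V 0) (-V 2) = i5 := by
    have := dot_axis_rot (V 0) (dot_V 0) c5 s5 (V (-1))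
    rw [rot_V0_V, hV1] at this
    exact this
  -- inverse rotations
  have r1 : rot (V 0) c5 (-s5) (V (-1)) = e3 := by
    rw [← rot_V0_e3, rot_inv (V 0) (dot_V 0) c5 s5 c5_sq_add]
  have r2 : rot (V 0) c5 (-s5) (-V 2) = V (-1) := by
    rw [← rot_V0_V, rot_inv (V 0) (dot_V 0) c5 s5 c5_sq_add]
  -- moves
  have mV : ∀ j k : ℤ, r • V j ∈ X → r • V k ∈ X := by
    intro j k hj
    have := step (u := e3) (v := V j) (k - j) e3_mem (dot_V j) (he j) hj
    rwa [rot_e3_V, sub_add_cancel] at this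
  have mVn : ∀ j k : ℤ, r • -V j ∈ X → r • -V k ∈ X := by
    intro j k hj
    have := step (u := -e3) (v := -V j) (j - k) neg_e3_mem (Dr_unit (neg_V_mem j))
      (by rw [dot_neg_left, dot_neg_right, neg_neg, he]) hj
    rw [rot_neg_axis, rot_neg] at this
    have e : rot e3 (cos ((j - k : ℤ) * (2 * π / 5))) (-sin ((j - k : ℤ) * (2 * π / 5))) (V j) =
        V k := by
      have h1 := rot_e3_V (k - j) j
      have h2 : (((k - j : ℤ)) : ℝ) * (2 * π / 5) = -(((j - k : ℤ) : ℝ) * (2 * π / 5)) := by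
        push_cast; ring
      rw [h2, Real.cos_neg, Real.sin_neg, sub_add_cancel] at h1
      exact h1
    rwa [e] at this
  have m1 : r • e3 ∈ X → r • V (-1) ∈ X := by
    intro h
    have := step (u := V 0) (v := e3) 1 (V_mem 0) dot_e3_e3 hV0 h
    rwa [c1, s1, rot_V0_e3] at this
  have m1' : r • V (-1) ∈ X → r • e3 ∈ X := by
    intro h
    have := step (u := V 0) (v := V (-1)) (-1) (V_mem 0) (dot_V _) hV1 h
    rwa [c2, s2, r1] at this
  have m2 : r • V (-1) ∈ X → r • -V 2 ∈ X := by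
    intro h
    have := step (u := V 0) (v := V (-1)) 1 (V_mem 0) (dot_V _) hV1 h
    rwa [c1, s1, rot_V0_V] at this
  have m2' : r • -V 2 ∈ X → r • V (-1) ∈ X := by
    intro h
    have := step (u := V 0) (v := -V 2) (-1) (V_mem 0) (Dr_unit (neg_V_mem 2)) hV2 h
    rwa [c2, s2, r2] at this
  have m3 : r • -e3 ∈ X → r • -V (-1) ∈ X := by
    intro h
    have := step (u := -V 0) (v := -e3) (-1) (neg_V_mem 0) (Dr_unit neg_e3_mem)
      (by rw [dot_neg_left, dot_neg_right, neg_neg, hV0]) h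
    rw [c2, s2, rot_neg_axis, rot_neg, neg_neg, rot_V0_e3] at this
    exact this
  have m3' : r • -V (-1) ∈ X → r • -e3 ∈ X := by
    intro h
    have := step (u := -V 0) (v := -V (-1)) 1 (neg_V_mem 0) (Dr_unit (neg_V_mem _))
      (by rw [dot_neg_left, dot_neg_right, neg_neg, hV1]) h
    rw [c1, s1, rot_neg_axis, rot_neg, r1] at this
    exact this
  -- everything is connected with `e3`
  have toE : r • e3 ∈ X := by
    rcases hv with rfl | rfl | ⟨k, rfl | rfl⟩
    · exact hX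
    · exact m1' (m2' (mVn _ _ (m3 hX)))
    · exact m1' (mV _ _ hX)
    · exact m1' (m2' (mVn _ _ hX))
  rcases hv' with rfl | rfl | ⟨k, rfl | rfl⟩
  · exact toE
  · exact m3' (mVn _ _ (m2 (m1 toE)))
  · exact mV _ _ (m1 toE)
  · exact mVn _ _ (m2 (m1 toE))

end

end Pool.Agent.Lib.MP_c5a075_co
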