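import Pool.Agent.Lib.MP_c5a075_co.Caps
import Pool.Agent.Lib.MP_c5a075_co.Inv

/-! Regime A: the ring of a near-minimal pair, and the step from one vertex to its neighbours. -/

set_option autoImplicit false

namespace Pool.Agent.Lib.MP_c5a075_co

noncomputable section

open Real

lemma caps_pair {X : Set E3} {t μ h : ℝ} {n : ℕ} (H : Caps X 0 (20 * t) t) (hμ : 0 < μ) (h0 : 0 ≤ h)
    (hx : Ax X (vec 0 0 (-h)) (vec 0 0 1) n) (hw : μ • W 0 ∈ X)
    (hk : InK (vec 0 0 1) (μ • W 0 - vec 0 0 (-h)) t) :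
    n = 5 ∧ μ ≤ t ∧ μ ^ 2 + h ^ 2 ≤ 4 ∧ ∃ T, RingHyp X μ T (1 / 5000) 0 ∧
      ((1 - 1 / 1000000) * t) ^ 2 < (1 + T ^ 2) * μ ^ 2 := by
  have ht := H.t_pos
  have ht2 : 0 < t ^ 2 := by positivity
  have htl := H.t_le
  have hc1 := c5_gt
  have hc2 := c5_lt
  obtain ⟨v, hv⟩ : ∃ v, v = μ • W 0 - vec 0 0 (-h) := ⟨_, rfl⟩
  have v0 : v 0 = μ := by rw [hv, W_zero]; simp
  have v1 : v 1 = 0 := by rw [hv, W_zero]; simp
  have v2 : v 2 = h := by rw [hv, W_zero]; simp
  have hvv : dot v v = μ ^ 2 + h ^ 2 := by simp only [dot, v0, v1, v2]; ring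
  have hrv : rho2 (vec 0 0 1) v = μ ^ 2 := by
    rw [rho2, hvv]; simp only [dot, v0, v1, v2, vec_0, vec_1, vec_2]; ring
  have he3 : dot (vec 0 0 1) (vec 0 0 1) = 1 := by simp [dot]
  rw [← hv] at hk
  have hvis := hk.vis he3 ht.le
  have hvis4 : μ ^ 2 + h ^ 2 ≤ 4 := by
    rw [hvv] at hvis
    have : (1.61 * t) ^ 2 ≤ 2 ^ 2 := pow_le_pow_left₀ (by positivity) (by linarith) 2
    linarith
  obtain ⟨s, hs1, hs2⟩ := hk
  rw [dot_sub_axis he3, hrv] at hs2
  have hdv : dot (vec 0 0 1) v = h := by simp only [dot, v0, v1, v2, vec_0, vec_1, vec_2]; ring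
  rw [hdv] at hs2
  have hμt2 : μ ^ 2 ≤ t ^ 2 := by have := sq_nonneg (h - s); linarith
  have hμt : μ ≤ t := le_of_sq_le_sq hμt2 ht.le
  have hwx : vec 0 0 (-h) + v = μ • W 0 := by rw [hv]; abel
  have hmem : vec 0 0 (-h) + v ∈ X := by rw [hwx]; exact hw
  have hdw : dist (μ • W 0) 0 ≤ 20 * t := by
    rw [dist_le_iff _ _ (by positivity), sub_zero, dot_smul_left, dot_smul_right, dot_W]
    have e : μ * (μ * 1) = μ ^ 2 := by ring
    rw [e, mul_pow]
    norm_num
    linarith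
  obtain ⟨b, m, hb⟩ := H.bad _ hw hdw
  have hoff : rho2 (vec 0 0 1) v ≠ 0 := by rw [hrv]; positivity
  have hvle : dot v v ≤ 4 := by rw [hvv]; exact hvis4
  have hT1 : t ^ 2 ≤ (1 + 3 / 1000000) * ((1 - 1 / 1000000) * t) ^ 2 := by
    rw [mul_pow]
    norm_num
    linarith
  have hex : ∀ z ∈ X, dot (z - (vec 0 0 (-h) + v)) (z - (vec 0 0 (-h) + v)) ≤
      ((1 - 1 / 1000000) * t) ^ 2 → rho2 b (z - (vec 0 0 (-h) + v)) = 0 := by
    intro z hz hle
    rw [hwx] at hle ⊢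
    exact H.caps _ b m hb hdw z hz (InK.zero (by positivity) hle)
  have hμ72 : 0.72 * t ^ 2 ≤ μ ^ 2 := by
    by_contra hcon
    push Not at hcon
    refine chord_false hx hmem hvle hoff hb.unit ?_
    intro z hz hle
    apply hex z hz
    rw [hrv] at hle
    have : 2 * (1 - c5) * μ ^ 2 ≤ 1.382 * μ ^ 2 :=
      mul_le_mul_of_nonneg_right (by linarith) (sq_nonneg μ)
    rw [mul_pow]
    norm_num
    linarith
  have hn : n = 5 := by
    refine chord_order hx hmem hvle hoff hb.unit ?_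
    intro z hz hle
    apply hex z hz
    rw [hrv] at hle
    rw [mul_pow]
    norm_num
    linarith
  refine ⟨hn, hμt, hvis4, ?_⟩
  subst hn
  have hdx : dist (vec 0 0 (-h)) 0 ≤ 20 * t := by
    rw [dist_le_iff _ _ (by positivity), sub_zero]
    simp only [dot, vec_0, vec_1, vec_2]
    rw [hvv, mul_pow] at hvis
    have := sq_nonneg μ
    rw [mul_pow]
    norm_num at hvis ⊢
    linarith
  have hnk : ¬ InK (vec 0 0 1) v ((1 - 1 / 1000000) * t) := by
    intro hk'
    rw [hv] at hk'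
    have := H.caps _ _ _ hx hdx _ hw hk'
    rw [← hv] at this
    exact hoff this
  rcases le_total h (0.61 * ((1 - 1 / 1000000) * t)) with h1 | h1
  · refine ⟨0, caps_ring H hμ hμt hμ72 h0 hvis4 hx hw le_rfl ?_ (Or.inl ⟨rfl, h1⟩), ?_⟩
    · nlinarith only [hμt2]
    · by_contra hcon
      push Not at hcon
      apply hnk
      refine ⟨h, by rw [abs_of_nonneg h0]; exact h1, ?_⟩
      rw [dot_sub_axis he3, hrv, hdv, sub_self]
      linarith only [hcon]
  · obtain ⟨T, hT⟩ : ∃ T, T = (h - 0.61 * ((1 - 1 / 1000000) * t)) / μ := ⟨_, rfl⟩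
    have hTμ : T * μ = h - 0.61 * ((1 - 1 / 1000000) * t) := by rw [hT]; field_simp
    refine ⟨T, caps_ring H hμ hμt hμ72 h0 hvis4 hx hw ?_ ?_ (Or.inr hTμ), ?_⟩
    · rw [hT]; exact div_nonneg (by linarith only [h1]) hμ.le
    · have e : (1 + T ^ 2) * μ ^ 2 = μ ^ 2 + (T * μ) ^ 2 := by ring
      rw [e, hTμ]
      have hs3 := (abs_le.1 hs1).2
      have hs4 : |h - s| ≤ t := by
        have : |h - s| ^ 2 ≤ t ^ 2 := by rw [sq_abs]; have := sq_nonneg μ; linarith only [hs2, hT1, hμ72]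
        exact le_of_sq_le_sq this ht.le
      have h2 : h - 0.61 * ((1 - 1 / 1000000) * t) ≤ |h - s| + 0.61 / 1000000 * t := by
        have := le_abs_self (h - s)
        linarith only [hs3, this]
      have h3 : (h - 0.61 * ((1 - 1 / 1000000) * t)) ^ 2 ≤ (|h - s| + 0.61 / 1000000 * t) ^ 2 :=
        pow_le_pow_left₀ (by linarith only [h1]) h2 2
      have h4 : (|h - s| + 0.61 / 1000000 * t) ^ 2 ≤ (h - s) ^ 2 + 2 / 1000000 * t ^ 2 := by
        have h5 : |h - s| * t ≤ t * t := mul_le_mul_of_nonneg_right hs4 ht.le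
        rw [← sq_abs (h - s)]
        have e : (|h - s| + 0.61 / 1000000 * t) ^ 2 = |h - s| ^ 2
          + 1.22 / 1000000 * (|h - s| * t) + (0.61 / 1000000) ^ 2 * t ^ 2 := by ring
        have e2 : t * t = t ^ 2 := by ring
        rw [e2] at h5
        rw [e]
        norm_num
        linarith only [hT1, h5]
      linarith only [hs2, hT1, h3, h4]
    · by_contra hcon
      push Not at hcon
      apply hnk
      refine ⟨0.61 * ((1 - 1 / 1000000) * t), by rw [abs_of_nonneg (by positivity)], ?_⟩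
      rw [dot_sub_axis he3, hrv, hdv, ← hTμ]
      linarith only [hcon]

end

end Pool.Agent.Lib.MP_c5a075_co
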