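import Pool.Agent.Lib.MP_c5a075_co.HoleO

/-! Numerical lemmas of case A. -/

set_option autoImplicit false

namespace Pool.Agent.Lib.MP_c5a075_co

noncomputable section

open Real

/-- basic relations between the parameters -/
lemma par_sigma {t h x : ℝ} (ht : t ^ 2 = h ^ 2 * (1 + x ^ 2)) :
    t ^ 2 = (h * (1 + x / 2 - 5 / 2 * i5 * x)) ^ 2 + 2 * (1 - i5) *
      ((h * (1 + x / 2 - 5 / 2 * i5 * x)) * (h * (5 / 2 * i5 * x)) +
        (h * (5 / 2 * i5 * x)) ^ 2) := by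
  have hi := i5_sq
  rw [ht]
  linear_combination (h ^ 2 * x * (5 - 15 / 4 * x)) * hi

/-- visibility of the ring point from the adjacent star line -/
lemma cn1 {σ s t : ℝ} (hσ0 : 0 < σ) (hs : 0 < s)
    (ht : t ^ 2 = σ ^ 2 + 2 * (1 - i5) * (σ * s + s ^ 2)) (ht2 : t ^ 2 ≤ 7.02)
    (hσ : (1 - i5) * σ ^ 2 ≤ 2) (hp : s ≤ 1.65 * σ) :
    t ^ 2 + σ ^ 2 - 2 * σ * (i5 * (σ + 2 * s)) ≤ 4 := by
  have hi1 := i5_gt
  have hi2 := i5_lt
  have e : t ^ 2 + σ ^ 2 - 2 * σ * (i5 * (σ + 2 * s)) =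
      2 * ((1 - i5) * σ ^ 2 + s * ((1 - i5) * s - (3 * i5 - 1) * σ)) := by rw [ht]; ring
  rw [e]
  rcases le_total ((1 - i5) * s) ((3 * i5 - 1) * σ) with h | h
  · have := mul_nonneg hs.le (sub_nonneg.2 h)
    linarith
  · have h1 : 0.6178 * σ ≤ s := by
      by_contra hcon
      push Not at hcon
      nlinarith only [mul_pos (show 0 < 1 - i5 by linarith) (sub_pos.2 hcon),
        mul_pos hσ0 (show 0 < i5 - 0.44721 by linarith), h, hσ0]
    have h2 := mul_nonneg (sub_nonneg.2 h1) (sub_nonneg.2 hp)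
    have h3 : 0 < σ * s := mul_pos hσ0 hs
    have h4 : 0 < s ^ 2 := by positivity
    have h5 : 0 < σ ^ 2 := by positivity
    have h6 : 0.6178 * σ ^ 2 ≤ σ * s := by nlinarith only [mul_nonneg (sub_nonneg.2 h1) hσ0.le]
    have h7 : (1 - i5) * σ ^ 2 + s * ((1 - i5) * s - (3 * i5 - 1) * σ) ≤ 0.2849 * t ^ 2 := by
      rw [ht]
      nlinarith only [h2, h6, mul_pos (sub_pos.2 hi1) h3, mul_pos (sub_pos.2 hi2) h3,
        mul_pos (sub_pos.2 hi1) h4, mul_pos (sub_pos.2 hi2) h4, mul_pos (sub_pos.2 hi1) h5,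
        mul_pos (sub_pos.2 hi2) h5, h3, h4, h5]
    linarith

/-- visibility from the layer `1.72` -/
lemma cn2 {σ s t : ℝ} (hσ0 : 0 < σ) (ht0 : 0 < t)
    (ht : t ^ 2 = σ ^ 2 + 2 * (1 - i5) * (σ * s + s ^ 2)) (ht2 : t ^ 2 ≤ 7.02)
    (hp : 0.555 * σ ≤ s) : t ^ 2 + 1.72 ^ 2 - 2 * 1.72 * (i5 * (σ + 2 * s)) ≤ 4 := by
  have hi1 := i5_gt
  have hi2 := i5_lt
  have hs : 0 < s := by linarith
  have h1 : 0.555 * σ ^ 2 ≤ σ * s := by nlinarith only [mul_nonneg (sub_nonneg.2 hp) hσ0.le]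
  have h2 : 0.308 * σ ^ 2 ≤ s ^ 2 := by nlinarith only [hp, hσ0, hs]
  have h3 : 1.5 * t ≤ σ + 2 * s := by
    have h4 : (1.5 * t) ^ 2 ≤ (σ + 2 * s) ^ 2 := by
      have h5 : (1.5 * t) ^ 2 = 2.25 * t ^ 2 := by ring
      rw [h5, ht]
      nlinarith only [mul_pos (sub_pos.2 hi1) (show 0 < σ * s + s ^ 2 by positivity), h1, h2]
    exact le_of_sq_le_sq h4 (by positivity)
  have h4 : 2.307 * t ≤ 2 * 1.72 * (i5 * (σ + 2 * s)) := by
    nlinarith only [mul_pos (sub_pos.2 hi1) (show 0 < σ + 2 * s by positivity), h3, ht0]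
  have h5 : t ≤ 2.6496 := by
    by_contra hcon
    push Not at hcon
    nlinarith only [hcon, ht2]
  nlinarith only [h4, h5, ht0, mul_nonneg ht0.le (sub_nonneg.2 h5)]

/-- convexity -/
lemma cn3 {p m a b τ : ℝ} (h1 : p + a ^ 2 - 2 * a * m ≤ 4) (h2 : p + b ^ 2 - 2 * b * m ≤ 4)
    (ha : a ≤ τ) (hb : τ ≤ b) : p + τ ^ 2 - 2 * τ * m ≤ 4 := by
  rcases ha.eq_or_lt with rfl | ha'
  · exact h1
  rcases hb.eq_or_lt with rfl | hb'
  · exact h2
  have h3 : (b - τ) * (p + a ^ 2 - 2 * a * m) + (τ - a) * (p + b ^ 2 - 2 * b * m) ≤ (b - a) * 4 := by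
    have e1 := mul_le_mul_of_nonneg_left h1 (sub_nonneg.2 hb)
    have e2 := mul_le_mul_of_nonneg_left h2 (sub_nonneg.2 ha)
    linarith
  have h4 : (b - a) * (p + τ ^ 2 - 2 * τ * m) ≤ (b - a) * 4 := by
    have e1 : 0 < (b - a) * ((b - τ) * (τ - a)) :=
      mul_pos (by linarith) (mul_pos (by linarith) (by linarith))
    have e2 : (b - τ) * (p + a ^ 2 - 2 * a * m) + (τ - a) * (p + b ^ 2 - 2 * b * m) =
        (b - a) * (p + τ ^ 2 - 2 * τ * m) + (b - a) * ((b - τ) * (τ - a)) := by ring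
    linarith
  exact le_of_mul_le_mul_left h4 (by linarith)

/-- the conditions of `oc_all` for the layer `σ` above `τ` -/
lemma cn4 {σ s t τ h : ℝ} (hσ0 : 0 < σ) (ht0 : 0 < t)
    (ht : t ^ 2 = σ ^ 2 + 2 * (1 - i5) * (σ * s + s ^ 2))
    (hσ : (1 - i5) * σ ^ 2 ≤ 2) (hp : 0.555 * σ ≤ s) (hτ0 : 0 < τ) (hτ : τ < σ)
    (hht : h ≤ t) (hvis : t ^ 2 + τ ^ 2 - 2 * τ * h ≤ 4) :
    τ ^ 2 + σ ^ 2 - 2 * i5 * τ * σ ≤ 4 ∧
    ((σ - τ < 2 * i5 * σ ∧ σ ^ 2 + (σ - τ) ^ 2 - 2 * c5 * σ * (σ - τ) < t ^ 2) ∨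
      (σ + τ ≤ 2 ∧ 1.1757 * σ + τ < t)) := by
  have hi1 := i5_gt
  have hi2 := i5_lt
  have hc := c5_eq
  have hs : 0 < s := by linarith
  have h1 : 0.555 * σ ^ 2 ≤ σ * s := by nlinarith only [mul_nonneg (sub_nonneg.2 hp) hσ0.le]
  have h2 : 0.308 * σ ^ 2 ≤ s ^ 2 := by nlinarith only [hp, hσ0, hs]
  have ht3 : 1.95 * σ ^ 2 ≤ t ^ 2 := by
    rw [ht]
    nlinarith only [mul_pos (sub_pos.2 hi2) (show 0 < σ * s + s ^ 2 by positivity), h1, h2]
  have hσσ : 0 < σ ^ 2 := by positivity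
  constructor
  · rcases le_total τ (2 * i5 * σ) with h3 | h3
    · have h4 := mul_nonneg hτ0.le (sub_nonneg.2 h3)
      nlinarith only [h4, hσ, mul_pos (sub_pos.2 hi2) hσσ, hσσ]
    · have h4 := mul_nonneg (sub_nonneg.2 hτ.le) (sub_nonneg.2 h3)
      have h5 : τ * (τ - 2 * i5 * σ) ≤ σ * (σ - 2 * i5 * σ) :=
        mul_le_mul hτ.le (by linarith) (by linarith) hσ0.le
      linarith
  · rcases lt_or_ge (σ - τ) (2 * i5 * σ) with h3 | h3
    · left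
      refine ⟨h3, ?_⟩
      have hd : 0 < σ - τ := by linarith
      have h4 : (σ - τ) ^ 2 - 2 * c5 * σ * (σ - τ) ≤ 0.3 * σ ^ 2 := by
        have h5 : σ - τ ≤ 0.9 * σ := by nlinarith only [h3, hi2, hσ0]
        have h6 : 0 ≤ σ * (σ - τ) := by positivity
        have h7 := mul_nonneg hd.le (sub_nonneg.2 h5)
        rw [hc]
        nlinarith only [h5, h7, mul_nonneg (sub_nonneg.2 hi1.le) h6, h6, hσ0,
          mul_nonneg hσ0.le (sub_nonneg.2 h5)]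
      linarith
    · right
      have h4 : τ ≤ 0.1056 * σ := by nlinarith only [h3, hi1, hσ0]
      have h5 : 1.396 * σ ≤ t := by
        have h6 : (1.396 * σ) ^ 2 ≤ t ^ 2 := by nlinarith only [ht3, hσσ]
        exact le_of_sq_le_sq h6 ht0.le
      constructor
      · have h6 : τ * h ≤ 0.0757 * t * t := by
          have h7 : τ ≤ 0.0757 * t := by linarith
          have h8 : τ * h ≤ τ * t := mul_le_mul_of_nonneg_left hht hτ0.le
          have h9 : τ * t ≤ 0.0757 * t * t := mul_le_mul_of_nonneg_right h7 ht0.le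
          linarith only [h8, h9]
        have h7 : t ^ 2 ≤ 4.72 := by nlinarith only [h6, hvis, sq_nonneg τ]
        have h8 : σ ≤ 1.56 := by
          by_contra hcon
          push Not at hcon
          nlinarith only [hcon, h7, ht3]
        linarith
      · linarith

end

end Pool.Agent.Lib.MP_c5a075_co
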