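import Pool.Agent.Lib.MP_c5a075_co.HoleO

/-! The region in which the hole argument applies. -/

set_option autoImplicit false

namespace Pool.Agent.Lib.MP_c5a075_co

noncomputable section

open Real

/-- The numerical part of the hypotheses of the hole argument. -/
lemma hole_num {t L s : ℝ} (ht : t ^ 2 = L ^ 2 + s ^ 2 - 2 * i5 * L * s) (hs : 0 < s)
    (hLs : s < L) (ht2 : t ^ 2 ≤ 7.02) (hσ : 2 < (1 - i5) * (L - s) ^ 2) :
    ∃ c : ℝ, c ^ 2 + s ^ 2 - 2 * kap * c * s = 1 ∧ 1 ≤ c ∧ s ≤ kap * c ∧ kap * c < i5 * L ∧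
      L ^ 2 + (c - 1) ^ 2 - 2 * kap * L * (c - 1) < t ^ 2 ∧
      4 * (i5 * L + (5 * i5 - 2) * kap * c) < 3 + L ^ 2 + c ^ 2 - 2 * kap * L * c ∧
      i5 * L + (5 * i5 - 2) * kap * c ≤ 2 := by
  have hi := i5_sq
  have hi1 := i5_gt
  have hi2 := i5_lt
  have hk := kap_sq
  have hk0 := kap_pos
  have hk1 := kap_gt
  have hk2 := kap_lt
  have hL : 0 < L := hs.trans hLs
  obtain ⟨σ, hσd⟩ : ∃ σ, σ = L - s := ⟨_, rfl⟩
  have hLd : L = σ + s := by linarith only [hσd]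
  have hσ0 : 0 < σ := by linarith
  rw [← hσd] at hσ
  have hK1 : kap ^ 2 ≤ 0.6315 := by rw [hk]; linarith
  have hK2 : 0.6314 ≤ kap ^ 2 := by rw [hk]; linarith
  -- bounds
  have hσ2 : 3.6179 < σ ^ 2 := by
    by_contra hcon
    push Not at hcon
    nlinarith only [mul_nonneg (sub_nonneg.2 hi1.le) (sq_nonneg σ), hσ, hcon]
  have hσ1 : 1.902 < σ := by
    by_contra hcon
    push Not at hcon
    nlinarith only [hσ2, hcon, hσ0]
  have hss : s < 1.05 := by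
    by_contra hcon
    push Not at hcon
    have h1 : t ^ 2 = σ ^ 2 + 2 * (1 - i5) * (σ * s + s ^ 2) := by rw [ht, hLd]; ring
    have h2 : 1.902 * 1.05 ≤ σ * s := mul_le_mul hσ1.le hcon (by norm_num) hσ0.le
    have h3 : 1.05 ^ 2 ≤ s ^ 2 := pow_le_pow_left₀ (by norm_num) hcon 2
    have h4 : 3.0996 ≤ σ * s + s ^ 2 := by norm_num at h2 h3 ⊢; linarith
    nlinarith only [mul_nonneg (sub_nonneg.2 hi2.le) (show 0 ≤ σ * s + s ^ 2 by linarith only [h4]), h1, h4,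
      hσ2, ht2]
  have hs2 : s ^ 2 ≤ 1.1025 := by nlinarith only [hss, hs]
  -- the square root
  obtain ⟨x, hx⟩ : ∃ x, x = (1 - kap ^ 2) * s ^ 2 := ⟨_, rfl⟩
  have hx0 : 0 ≤ x := by rw [hx]; exact mul_nonneg (by linarith) (sq_nonneg s)
  have hx1 : x ≤ 0.4064 := by
    rw [hx]; nlinarith only [mul_nonneg (sub_nonneg.2 hK2) (sq_nonneg s), hs2]
  obtain ⟨R, hR⟩ : ∃ R, R = √(1 - x) := ⟨_, rfl⟩
  have hR2 : R ^ 2 = 1 - x := by rw [hR]; exact Real.sq_sqrt (by linarith)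
  have hR0 : 0 ≤ R := by rw [hR]; exact Real.sqrt_nonneg _
  have hRl : 1 - 0.5655 * x ≤ R := by
    have h1 : (1 - 0.5655 * x) ^ 2 ≤ R ^ 2 := by
      rw [hR2]; nlinarith only [mul_nonneg hx0 (sub_nonneg.2 hx1)]
    exact le_of_sq_le_sq h1 hR0
  have hR1 : R ≤ 1 := by
    by_contra hcon
    push Not at hcon
    nlinarith only [hcon, hR2, hx0]
  obtain ⟨c, hc⟩ : ∃ c, c = kap * s + R := ⟨_, rfl⟩
  have hcc : c ^ 2 + s ^ 2 - 2 * kap * c * s = 1 := by
    have : c ^ 2 + s ^ 2 - 2 * kap * c * s = R ^ 2 + (1 - kap ^ 2) * s ^ 2 := by rw [hc]; ring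
    rw [this, hR2, hx]; ring
  have hxs : x ≤ 0.3686 * s ^ 2 := by
    rw [hx]; nlinarith only [mul_nonneg (sub_nonneg.2 hK2) (sq_nonneg s)]
  -- lower bound for `c - 1`
  have he : kap * s - 0.2085 * s ^ 2 ≤ c - 1 := by
    rw [hc]; nlinarith only [hRl, hxs, sq_nonneg s]
  have he0 : 0.57 * s ≤ kap * s - 0.2085 * s ^ 2 := by
    nlinarith only [mul_nonneg hs.le (sub_nonneg.2 hss.le), mul_nonneg hs.le (sub_nonneg.2 hk1.le)]
  have hc1 : 1 ≤ c := by linarith only [hs, he, he0]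
  have hsc : s ≤ kap * c := by
    have h1 : (1 - kap ^ 2) * s ≤ kap * R := by
      have h2 : 0.77 ≤ R := by nlinarith only [hRl, hx1]
      have h3 : 0.79465 * 0.77 ≤ kap * R := mul_le_mul hk1.le h2 (by norm_num) hk0.le
      have h4 : (1 - kap ^ 2) * s ≤ 0.3686 * 1.05 :=
        mul_le_mul (by linarith only [hK2]) hss.le hs.le (by norm_num)
      norm_num at h3 h4
      linarith only [h3, h4]
    rw [hc]; linarith only [h1]
  have hH0 : kap * c < i5 * L := by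
    have h1 : 0 < i5 * L - kap ^ 2 * s := by
      rw [hLd]
      nlinarith only [mul_pos (sub_pos.2 hi1) hσ0, mul_pos (sub_pos.2 hi1) hs,
        mul_nonneg (sub_nonneg.2 hK1) hs.le, hσ1, hss]
    have h2 : (kap * R) ^ 2 < (i5 * L - kap ^ 2 * s) ^ 2 := by
      have h3 : (i5 * L - kap ^ 2 * s) ^ 2 - (kap * R) ^ 2 =
          i5 ^ 2 * L ^ 2 - 2 * i5 * kap ^ 2 * L * s + kap ^ 2 * s ^ 2 - kap ^ 2 := by
        rw [mul_pow kap R, hR2, hx]; ring
      have h4 : 15 * (i5 ^ 2 * L ^ 2 - 2 * i5 * kap ^ 2 * L * s + kap ^ 2 * s ^ 2 - kap ^ 2) =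
          (2 * s - (10 * i5 - 2) / 4 * σ) ^ 2 + (3 / 2 + 5 / 2 * i5) * σ ^ 2 - (5 + 10 * i5) := by
        rw [hk, hLd]
        linear_combination (15 * (σ + s) ^ 2 - 20 * (σ + s) * s - 25 / 4 * σ ^ 2) * hi
      have h5 : 5 + 10 * i5 < (3 / 2 + 5 / 2 * i5) * σ ^ 2 := by
        have h6 := mul_lt_mul_of_pos_left hσ (show 0 < 5 / 2 + 5 * i5 by linarith only [hi1])
        have h7 : (5 / 2 + 5 * i5) * ((1 - i5) * σ ^ 2) = (3 / 2 + 5 / 2 * i5) * σ ^ 2 := by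
          linear_combination (-5 * σ ^ 2) * hi
        linarith only [h6, h7]
      have h6 := sq_nonneg (2 * s - (10 * i5 - 2) / 4 * σ)
      linarith only [h3, h4, h5, h6]
    have h7 : kap * R < i5 * L - kap ^ 2 * s := lt_of_pow_lt_pow_left₀ 2 h1.le h2
    rw [hc]; linarith only [h7]
  have hL2 : L ^ 2 ≤ 8.775 := by
    have h1 : L ^ 2 * (4 / 5) = t ^ 2 - (s - i5 * L) ^ 2 := by
      rw [ht]; linear_combination L ^ 2 * hi
    nlinarith only [h1, ht2, sq_nonneg (s - i5 * L)]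
  have hL3 : L ≤ 2.963 := by
    by_contra hcon
    push Not at hcon
    nlinarith only [hcon, hL2]
  refine ⟨c, hcc, hc1, hsc, hH0, ?_, ?_, ?_⟩
  · rw [ht]
    obtain ⟨e, hed⟩ : ∃ e, e = c - 1 := ⟨_, rfl⟩
    rw [← hed] at he ⊢
    obtain ⟨e0, he0d⟩ : ∃ e0, e0 = kap * s - 0.2085 * s ^ 2 := ⟨_, rfl⟩
    rw [← he0d] at he he0
    -- monotonicity in `e`
    have h1 : e ≤ kap * L := by
      have h2 : c < kap * L := by
        by_contra hcon
        push Not at hcon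
        have g7 := mul_le_mul_of_nonneg_left hcon hk0.le
        have g8 : 0.6314 * L ≤ kap ^ 2 * L := mul_le_mul_of_nonneg_right hK2 hL.le
        have g9 : i5 * L ≤ 0.5 * L := mul_le_mul_of_nonneg_right (by linarith only [hi2]) hL.le
        linarith only [hL, hH0, g7, g8, g9]
      linarith only [hed, h2]
    have h2 : e0 ^ 2 - 2 * kap * L * e0 ≥ e ^ 2 - 2 * kap * L * e := by
      have := mul_nonneg (sub_nonneg.2 he) (show 0 ≤ 2 * kap * L - e - e0 by linarith only [he, h1])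
      linarith only [this]
    have h3 : e0 ^ 2 ≤ 0.64 * s ^ 2 := by
      have h4 : e0 ≤ 0.8 * s := by
        rw [he0d]; nlinarith only [mul_nonneg (sub_nonneg.2 hk2.le) hs.le, sq_nonneg s, hs]
      have h5 : 0 ≤ e0 := by linarith only [he0, h4]
      nlinarith only [h4, h5, hs]
    have h4 : 2 * i5 * L * s ≤ 2 * kap * L * e0 := by
      have h5 : i5 * s ≤ kap * e0 := by
        rw [he0d]
        have h6 : kap * 0.2085 * s ≤ 0.174 := by
          nlinarith only [mul_nonneg (sub_nonneg.2 hk2.le) hs.le, hss]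
        have h7 : i5 ≤ kap ^ 2 - kap * 0.2085 * s := by linarith only [hi2, hk, h6]
        have h8 := mul_le_mul_of_nonneg_left h7 hs.le
        linarith only [h8]
      have h6 := mul_le_mul_of_nonneg_left h5 (show 0 ≤ 2 * L by linarith only [hL])
      linarith only [h6]
    have h5 : 0 < s ^ 2 := by positivity
    linarith only [h2, h3, h4, h5]
  · obtain ⟨y, hy⟩ : ∃ y, y = kap * c := ⟨_, rfl⟩
    rw [← hy] at hH0
    have hy0 : 0 < y := by rw [hy]; positivity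
    have hc2 : 1.583 * y ^ 2 ≤ c ^ 2 := by
      rw [hy, mul_pow]; nlinarith only [mul_nonneg (sub_nonneg.2 hK1) (sq_nonneg c)]
    have hm : y ≤ 0.44722 * L := by
      have := mul_le_mul_of_nonneg_right hi2.le hL.le
      linarith only [hH0, this]
    have h1 : (5 * i5 - 2) * kap * c = (5 * i5 - 2) * y := by rw [hy]; ring
    have h2 : 2 * kap * L * c = 2 * L * y := by rw [hy]; ring
    rw [h1, h2]
    have h3 : (5 * i5 - 2) * y ≤ 0.2361 * y := mul_le_mul_of_nonneg_right (by linarith only [hi2]) hy0.le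
    have h4 : i5 * L ≤ 0.44722 * L := mul_le_mul_of_nonneg_right hi2.le hL.le
    have h5 : 0 < 3 + L ^ 2 + 1.583 * y ^ 2 - 2 * L * y - 4 * (0.44722 * L + 0.2361 * y) := by
      obtain ⟨d, hd⟩ : ∃ d, d = 0.44722 * L - y := ⟨_, rfl⟩
      have hd0 : 0 ≤ d := by linarith only [hm, hd]
      have hyd : y = 0.44722 * L - d := by linarith only [hd]
      rw [hyd]
      nlinarith only [sq_nonneg (L - 2.618), mul_nonneg hd0 hL.le, sq_nonneg d, hd0, hL]
    linarith only [hc2, h3, h4, h5]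
  · have h1 : (5 * i5 - 2) * kap * c ≤ 0.2361 * (0.44722 * L) := by
      have h2 : (5 * i5 - 2) * (kap * c) ≤ 0.2361 * (kap * c) :=
        mul_le_mul_of_nonneg_right (by linarith only [hi2]) (by positivity)
      have h3 : i5 * L ≤ 0.44722 * L := mul_le_mul_of_nonneg_right hi2.le hL.le
      linarith only [hH0, h2, h3]
    have h3 : i5 * L ≤ 0.44722 * L := mul_le_mul_of_nonneg_right hi2.le hL.le
    linarith only [hL3, h1, h3]

/-- The hole argument, with its region of validity. -/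
theorem holeR {X D : Set E3} {t L s : ℝ}
    (sep : ∃ r : ℝ, 0 < r ∧ ∀ x ∈ X, ∀ y ∈ X, x ≠ y → r ≤ dist x y)
    (cov : ∀ y : E3, ∃ x ∈ X, dist x y ≤ 1)
    (D1 : ∀ v ∈ D, dot v v = 1)
    (D2 : ∀ v ∈ D, v = e3 ∨ v = -e3 ∨ v 2 = i5 ∨ v 2 = -i5)
    (clean : ∀ x ∈ X, dot x x < t ^ 2 → ∃ v ∈ D, ∃ r : ℝ, 0 ≤ r ∧ x = r • v)
    (trans : ∀ v ∈ D, ∀ r : ℝ, 0 ≤ r → r ≤ 2 → r • v ∈ X → r • e3 ∈ X)
    (ring : ∀ k : ℤ, Ax X (L • e3 + s • dd k) (dd k) 5)
    (ht : t ^ 2 = L ^ 2 + s ^ 2 - 2 * i5 * L * s) (hs : 0 < s)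
    (hLs : s < L) (ht2 : t ^ 2 ≤ 7.02) (hσ : 2 < (1 - i5) * (L - s) ^ 2) : False := by
  obtain ⟨c, h1, h2, h3, h4, h5, h6, h7⟩ := hole_num ht hs hLs ht2 hσ
  exact holeO (D := D) (t := t) ⟨sep, cov, D1, D2, clean, trans, ring, ht, h1, h2, hs, h3,
    hs.trans hLs, h4, h5, h6, h7⟩

end

end Pool.Agent.Lib.MP_c5a075_co
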