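import Pool.Agent.Lib.MP_c5a075_co.HoleO
import Pool.Agent.Lib.MP_c5a075_co.Inv

/-! A star layer of points above a layer of points carries star axes. -/

set_option autoImplicit false

namespace Pool.Agent.Lib.MP_c5a075_co

noncomputable section

open Real

/-- two directions of the star are equal, opposite, or at cosine `± i5` -/
lemma Dr_pair {v v' : E3} (hv : v ∈ Dr) (hv' : v' ∈ Dr) :
    v' = v ∨ v' = -v ∨ dot v v' = i5 ∨ dot v v' = -i5 := by
  obtain ⟨F, hF, hFv⟩ := exists_sym hv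
  have h1 : F.lin (F.co v') = v' := F.lin_co v'
  have h2 := hF.comaps v' hv'
  rcases Dr_height h2 with h | h | h | h
  · left; rw [← h1, h, hFv]
  · right; left; rw [← h1, h, Fr.lin_neg, hFv]
  · right; right; left
    rw [← h1, ← hFv, F.dot_lin, e3_dot, h]
  · right; right; right
    rw [← h1, ← hFv, F.dot_lin, e3_dot, h]

/-- every direction has a neighbour -/
lemma Dr_nbr {v : E3} (hv : v ∈ Dr) : ∃ v' ∈ Dr, dot v v' = i5 := by
  obtain ⟨F, hF, hFv⟩ := exists_sym hv
  refine ⟨F.lin (V 0), hF.maps _ (V_mem 0), ?_⟩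
  rw [← hFv, F.dot_lin, e3_dot, V_2]

lemma cos_order {n : ℕ} (h : n = 5 ∨ 7 ≤ n) : c5 ≤ cos (2 * π / n) ∧ cos (2 * π / n) < 1 := by
  have hpi := Real.pi_pos
  have hn : 5 ≤ n := by rcases h with h | h <;> omega
  have hn' : (5:ℝ) ≤ n := by exact_mod_cast hn
  constructor
  · rcases h with h | h
    · rw [h]
      have := cos_two_pi_div_five
      push_cast
      rw [this]
    · have := cos_seven h
      have := c5_lt
      linarith
  · have h1 : 0 < 2 * π / n := by positivity
    have h2 : 2 * π / n ≤ 2 * π / 5 := div_le_div_of_nonneg_left (by positivity) (by norm_num) hn'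
    have h3 : cos (2 * π / n) < cos 0 :=
      Real.cos_lt_cos_of_nonneg_of_le_pi le_rfl (by linarith) h1
    rwa [Real.cos_zero] at h3

/-- a rotation fixing `e3` has axis `± e3` -/
lemma axis_of_fix {b : E3} {c s : ℝ} (hb : dot b b = 1) (hcs : c ^ 2 + s ^ 2 = 1) (hc : c < 1)
    (h : rot b c s e3 = e3) : b = e3 ∨ b = -e3 := by
  have h1 := dot_rot_sub b hb c s hcs e3
  rw [h, sub_self, dot_zero_left, dot_e3_e3, dot_e3] at h1
  have h2 : 1 - b 2 ^ 2 = 0 := by
    rcases mul_eq_zero.1 h1.symm with h3 | h3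
    · exfalso; linarith
    · exact h3
  have h3 : b 0 * b 0 + b 1 * b 1 + b 2 * b 2 = 1 := hb
  have h4 : b 0 = 0 := by nlinarith [mul_self_nonneg (b 0), mul_self_nonneg (b 1)]
  have h5 : b 1 = 0 := by nlinarith [mul_self_nonneg (b 0), mul_self_nonneg (b 1)]
  have h6 : (b 2 - 1) * (b 2 + 1) = 0 := by linarith
  rcases mul_eq_zero.1 h6 with h7 | h7
  · left; apply ext3
    · rw [h4, e3_0]
    · rw [h5, e3_1]
    · rw [e3_2]; linarith
  · right; apply ext3
    · rw [h4, neg_0, e3_0, neg_zero]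
    · rw [h5, neg_1, e3_1, neg_zero]
    · rw [neg_2, e3_2]; linarith

/-- case (i): the nearer point -/
lemma oc_i {X : Set E3} {t a r : ℝ} (hC : Clean X t) (hP : a • e3 ∈ X) (ha : 0 < a)
    (har : a < r) (hr : r ≤ 2) {b : E3} {n : ℕ} (hA : Ax X (r • e3) b n)
    (h1 : r - a < 2 * i5 * r) (h2 : r ^ 2 + (r - a) ^ 2 - 2 * c5 * r * (r - a) < t ^ 2) :
    rot b (cos (2 * π / n)) (sin (2 * π / n)) e3 = e3 := by
  obtain ⟨hc1, hc2⟩ := cos_order hA.ord
  have hcs := Real.cos_sq_add_sin_sq (2 * π / n)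
  obtain ⟨d, hd⟩ : ∃ d, d = r - a := ⟨_, rfl⟩
  rw [← hd] at h1 h2
  have hd0 : 0 < d := by linarith
  have hi := i5_sq
  have hi0 := i5_pos
  have hb := hA.unit
  obtain ⟨w, hw⟩ : ∃ w, w = rot b (cos (2 * π / n)) (sin (2 * π / n)) e3 := ⟨_, rfl⟩
  rw [← hw]
  have hww : dot w w = 1 := by rw [hw, dot_rot_rot b hb _ _ hcs, dot_e3_e3]
  have hwe : c5 ≤ w 2 := by
    have e : w 2 = cos (2 * π / n) + (1 - cos (2 * π / n)) * (b 2) ^ 2 := by
      rw [hw, rot_2, dot_e3]
      simp only [e3_0, e3_1, e3_2]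
      ring
    rw [e]
    have := mul_nonneg (sub_nonneg.2 hc2.le) (sq_nonneg (b 2))
    linarith
  -- the image point
  have hx := hA.inv (-(d • e3)) (by
    rw [dot_neg_left, dot_neg_right, dot_smul_left, dot_smul_right, dot_e3_e3]
    nlinarith only [hd0, hd, ha, hr]) (by
    have : r • e3 + -(d • e3) = a • e3 := by rw [hd]; module
    rw [this]; exact hP)
  rw [rot_neg, rot_smul, ← hw] at hx
  have hnorm : dot (r • e3 + -(d • w)) (r • e3 + -(d • w)) = r ^ 2 + d ^ 2 - 2 * r * d * w 2 := by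
    rw [← sub_eq_add_neg, dot_e3_sub, hww]
    ring
  have hlt : dot (r • e3 + -(d • w)) (r • e3 + -(d • w)) < t ^ 2 := by
    rw [hnorm]
    have : 0 < r * d := mul_pos (by linarith) hd0
    nlinarith only [mul_nonneg this.le (sub_nonneg.2 hwe), h2]
  obtain ⟨v, hv, σ, hσ, hxv⟩ := hC _ hx hlt
  -- distance to `r e3`
  have hdw : d • w = r • e3 - σ • v := by rw [← hxv]; abel
  have hdist : d ^ 2 = r ^ 2 + σ ^ 2 - 2 * r * σ * v 2 := by
    have e : dot (d • w) (d • w) = d ^ 2 := by
      rw [dot_smul_left, dot_smul_right, hww]; ring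
    rw [← e, hdw, dot_e3_sub, Dr_unit hv]
    ring
  have hne : ∀ x : ℝ, x ^ 2 = 1 / 5 → v 2 = x → False := by
    intro x hx hvx
    rw [hvx] at hdist
    have h3 : d ^ 2 < (2 * i5 * r) ^ 2 := by
      have : 0 < 2 * i5 * r := by linarith
      nlinarith only [h1, hd0, this]
    have h4 : (2 * i5 * r) ^ 2 = 4 / 5 * r ^ 2 := by rw [mul_pow, mul_pow, hi]; ring
    nlinarith only [h3, h4, hdist, sq_nonneg (σ - r * x), hx, mul_pow r x 2]
  have hcase : v = e3 ∨ v = -e3 := by
    rcases Dr_height hv with h | h | h | h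
    · exact Or.inl h
    · exact Or.inr h
    · exact (hne i5 hi h).elim
    · exact (hne (-i5) (by rw [neg_sq]; exact hi) h).elim
  -- `w` is vertical
  have hw3 : ∃ x : ℝ, d • w = x • e3 := by
    rcases hcase with h | h
    · exact ⟨r - σ, by rw [hdw, h]; module⟩
    · exact ⟨r + σ, by rw [hdw, h]; module⟩
  obtain ⟨x, hx3⟩ := hw3
  have w0 : w 0 = 0 := by
    have := congrArg (fun u : E3 => u 0) hx3
    simp only [smul_0, e3_0, mul_zero] at this
    rcases mul_eq_zero.1 this with h | h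
    · linarith
    · exact h
  have w1 : w 1 = 0 := by
    have := congrArg (fun u : E3 => u 1) hx3
    simp only [smul_1, e3_1, mul_zero] at this
    rcases mul_eq_zero.1 this with h | h
    · linarith
    · exact h
  have w2 : w 2 = 1 := by
    have h3 : w 0 * w 0 + w 1 * w 1 + w 2 * w 2 = 1 := hww
    rw [w0, w1] at h3
    have := c5_pos
    nlinarith only [h3, hwe, this]
  exact ext3 (by rw [w0, e3_0]) (by rw [w1, e3_1]) (by rw [w2, e3_2])

/-- points `u ± a w` on the star -/
lemma pair_on_star {u w : E3} {a : ℝ} (ha : 0 < a) (hw : dot w w = 1)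
    (h1 : u + a • w ∈ Sig) (h2 : u + a • (-w) ∈ Sig) :
    (w ∈ Dr ∧ ∃ l : ℝ, u = l • w) ∨
      4 * a ^ 2 * dot u w ^ 2 = (dot u u + a ^ 2) ^ 2 - 5 * (dot u u - a ^ 2) ^ 2 := by
  obtain ⟨v, hv, σ, hσ, e1⟩ := h1
  obtain ⟨v', hv', σ', hσ', e2⟩ := h2
  have hi := i5_sq
  have hu : (2:ℝ) • u = σ • v + σ' • v' := by rw [← e1, ← e2]; module
  have hwa : (2 * a) • w = σ • v - σ' • v' := by rw [← e1, ← e2]; module
  have same : ∀ x : ℝ, (2:ℝ) • u = (σ + x) • v → (2 * a) • w = (σ - x) • v →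
      (w ∈ Dr ∧ ∃ l : ℝ, u = l • w) := by
    intro x h1 h2
    have h3 : dot ((2 * a) • w) ((2 * a) • w) = (2 * a) ^ 2 := by
      rw [dot_smul_left, dot_smul_right, hw]; ring
    have h4 : dot ((σ - x) • v) ((σ - x) • v) = (σ - x) ^ 2 := by
      rw [dot_smul_left, dot_smul_right, Dr_unit hv]; ring
    rw [h2, h4] at h3
    have h5 : (σ - x - 2 * a) * (σ - x + 2 * a) = 0 := by linarith
    have h2a : (2 * a) ≠ 0 := by positivity
    rcases mul_eq_zero.1 h5 with h6 | h6
    · have hwv : w = v := by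
        have h7 : (2 * a) • w = (2 * a) • v := by rw [h2]; congr 1; linarith
        exact smul_right_injective _ h2a h7
      refine ⟨by rw [hwv]; exact hv, (σ + x) / 2, ?_⟩
      have h8 : (2:ℝ) • u = (2:ℝ) • (((σ + x) / 2) • w) := by rw [h1, hwv]; module
      exact smul_right_injective _ (two_ne_zero) h8
    · have hwv : w = -v := by
        have h7 : (2 * a) • w = (2 * a) • (-v) := by
          rw [h2, smul_neg, ← neg_smul]; congr 1; linarith
        exact smul_right_injective _ h2a h7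
      refine ⟨by rw [hwv]; exact neg_mem hv, -((σ + x) / 2), ?_⟩
      have h8 : (2:ℝ) • u = (2:ℝ) • ((-((σ + x) / 2)) • w) := by rw [h1, hwv]; module
      exact smul_right_injective _ (two_ne_zero) h8
  have diff : ∀ x : ℝ, x ^ 2 = 1 / 5 → dot v v' = x →
      4 * a ^ 2 * dot u w ^ 2 = (dot u u + a ^ 2) ^ 2 - 5 * (dot u u - a ^ 2) ^ 2 := by
    intro x hx hvx
    have hp : dot (u + a • w) (u + a • w) = σ ^ 2 := by
      rw [e1, dot_smul_left, dot_smul_right, Dr_unit hv]; ring
    have hq : dot (u + a • (-w)) (u + a • (-w)) = σ' ^ 2 := by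
      rw [e2, dot_smul_left, dot_smul_right, Dr_unit hv']; ring
    have hpq : dot (u + a • w) (u + a • (-w)) = σ * σ' * x := by
      rw [e1, e2, dot_smul_left, dot_smul_right, hvx]; ring
    simp only [dot_add_left, dot_add_right, dot_smul_left, dot_smul_right, dot_neg_left,
      dot_neg_right, hw, dot_comm w u] at hp hq hpq
    have e3 : (dot u u - a ^ 2) ^ 2 = 1 / 5 * ((dot u u + a ^ 2 + 2 * a * dot u w) *
        (dot u u + a ^ 2 - 2 * a * dot u w)) := by
      have a1 : dot u u - a ^ 2 = σ * σ' * x := by linarith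
      have a2 : dot u u + a ^ 2 + 2 * a * dot u w = σ ^ 2 := by linarith
      have a3 : dot u u + a ^ 2 - 2 * a * dot u w = σ' ^ 2 := by linarith
      rw [a1, a2, a3]
      linear_combination (σ * σ') ^ 2 * hx
    linarith
  rcases Dr_pair hv hv' with h | h | h | h
  · left
    apply same σ'
    · rw [hu, h]; module
    · rw [hwa, h]; module
  · left
    apply same (-σ')
    · rw [hu, h]; module
    · rw [hwa, h]; module
  · right; exact diff i5 hi h
  · right; exact diff (-i5) (by rw [neg_sq]; exact hi) h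

lemma star_line {w w' : E3} {l a y : ℝ} (hw : w ∈ Dr) (hw' : dot w' w' = 1) (ha : a ≠ 0)
    (hy : dot w w' = y) (hy2 : y ^ 2 = 1 / 5) (h : l • w + a • w' ∈ Sig) :
    l ^ 2 + 2 * l * a * y = 0 := by
  obtain ⟨v, hv, σ, hσ, e⟩ := h
  have hww := Dr_unit hw
  have hi := i5_sq
  have no : ∀ x : ℝ, a • w' = x • w → l ^ 2 + 2 * l * a * y = 0 := by
    intro x hx
    exfalso
    have h1 : a * y = x := by
      have h2 : dot w (a • w') = dot w (x • w) := by rw [hx]
      rw [dot_smul_right, dot_smul_right, hy, hww] at h2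
      linarith
    have h2 : a ^ 2 = x ^ 2 := by
      have h3 : dot (a • w') (a • w') = dot (x • w) (x • w) := by rw [hx]
      rw [dot_smul_left, dot_smul_right, dot_smul_left, dot_smul_right, hw', hww] at h3
      linarith
    rw [← h1, mul_pow, hy2] at h2
    have h3 : a ^ 2 = 0 := by linarith
    exact ha (pow_eq_zero_iff two_ne_zero |>.1 h3)
  have yes : ∀ x : ℝ, x ^ 2 = 1 / 5 → dot w v = x → l ^ 2 + 2 * l * a * y = 0 := by
    intro x hx hvx
    have h1 : l + a * y = σ * x := by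
      have h2 : dot w (l • w + a • w') = dot w (σ • v) := by rw [e]
      rw [dot_add_right, dot_smul_right, dot_smul_right, dot_smul_right, hy, hww, hvx] at h2
      linarith
    have h2 : l ^ 2 + 2 * l * a * y + a ^ 2 = σ ^ 2 := by
      have h3 : dot (l • w + a • w') (l • w + a • w') = dot (σ • v) (σ • v) := by rw [e]
      simp only [dot_add_left, dot_add_right, dot_smul_left, dot_smul_right, dot_comm w' w, hy,
        hww, hw', Dr_unit hv] at h3
      linarith
    have h3 : (l + a * y) ^ 2 = σ ^ 2 * x ^ 2 := by rw [h1]; ring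
    rw [hx, ← h2] at h3
    have h4 : (l + a * y) ^ 2 = l ^ 2 + 2 * l * a * y + a ^ 2 * y ^ 2 := by ring
    rw [h4, hy2] at h3
    linarith
  rcases Dr_pair hw hv with h | h | h | h
  · apply no (σ - l)
    have : a • w' = σ • v - l • w := by rw [← e]; abel
    rw [this, h]; module
  · apply no (-σ - l)
    have : a • w' = σ • v - l • w := by rw [← e]; abel
    rw [this, h]; module
  · exact yes i5 hi h
  · exact yes (-i5) (by rw [neg_sq]; exact hi) h

lemma V_sum : V 0 + V 1 + V (-1) + V 2 + V (-2) = (5 * i5) • e3 := by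
  have h := c5_sq
  apply ext3
  · simp only [add_0, V_0, W_zero, W_one, W_neg_one, W_two, W_neg_two, vec_0, smul_0, e3_0]
    linear_combination (8 * i5) * h
  · simp only [add_1, V_1, W_zero, W_one, W_neg_one, W_two, W_neg_two, vec_1, smul_1, e3_1]
    ring
  · simp only [add_2, V_2, smul_2, e3_2]; ring

/-- a vector with the same component in all six directions vanishes -/
lemma zero_of_equi {u : E3} (h : ∀ v ∈ Dr, dot u v ^ 2 = dot u e3 ^ 2) : u = 0 := by
  have hi := i5_sq
  have hi0 := i5_pos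
  obtain ⟨m, hm⟩ : ∃ m, m = dot u e3 := ⟨_, rfl⟩
  rw [← hm] at h
  have hs : ∀ k : ℤ, ∃ x : ℝ, dot u (V k) = x * m ∧ (x = 1 ∨ x = -1) := by
    intro k
    have h1 := h (V k) (V_mem k)
    have h2 : (dot u (V k) - m) * (dot u (V k) + m) = 0 := by linarith
    rcases mul_eq_zero.1 h2 with h3 | h3
    · exact ⟨1, by linarith, Or.inl rfl⟩
    · exact ⟨-1, by linarith, Or.inr rfl⟩
  obtain ⟨x0, e0, h0⟩ := hs 0
  obtain ⟨x1, e1, h1⟩ := hs 1
  obtain ⟨x2, e2, h2⟩ := hs (-1)
  obtain ⟨x3, e3', h3⟩ := hs 2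
  obtain ⟨x4, e4, h4⟩ := hs (-2)
  have hsum : (x0 + x1 + x2 + x3 + x4) * m = 5 * i5 * m := by
    have : dot u (V 0 + V 1 + V (-1) + V 2 + V (-2)) = dot u ((5 * i5) • e3) := by rw [V_sum]
    rw [dot_add_right, dot_add_right, dot_add_right, dot_add_right, dot_smul_right, e0, e1, e2,
      e3', e4, ← hm] at this
    linarith
  have hm0 : m = 0 := by
    by_contra hne
    have h5 := mul_right_cancel₀ hne hsum
    have h6 : (x0 + x1 + x2 + x3 + x4) ^ 2 = 5 := by rw [h5, mul_pow, hi]; norm_num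
    rcases h0 with rfl | rfl <;> rcases h1 with rfl | rfl <;> rcases h2 with rfl | rfl <;>
      rcases h3 with rfl | rfl <;> rcases h4 with rfl | rfl <;> norm_num at h6
  rw [hm0, mul_zero] at e0 e1
  have hu2 : u 2 = 0 := by rw [← dot_e3, ← hm, hm0]
  have hu0 : u 0 = 0 := by
    simp only [dot, V_0, V_1, V_2, W_zero, vec_0, vec_1, hu2] at e0
    have : i5 * u 0 = 0 := by linarith
    rcases mul_eq_zero.1 this with h | h
    · linarith
    · exact h
  have hu1 : u 1 = 0 := by
    simp only [dot, V_0, V_1, V_2, W_one, vec_0, vec_1, hu2, hu0] at e1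
    have : i5 * (s5 * u 1) = 0 := by linarith
    rcases mul_eq_zero.1 this with h | h
    · linarith
    · rcases mul_eq_zero.1 h with h | h
      · have := s5_pos; linarith
      · exact h
  exact ext3 (by rw [hu0, zero_0]) (by rw [hu1, zero_1]) (by rw [hu2, zero_2])

/-- case (ii): all twelve points -/
lemma oc_ii {X : Set E3} {t a r : ℝ} (hC : Clean X t) (hP : ∀ v ∈ Dr, a • v ∈ X) (ha : 0 < a)
    (hr0 : 0 < r) (hra : r + a ≤ 2) (hrt : 1.1757 * r + a < t) {b : E3} {n : ℕ}
    (hA : Ax X (r • e3) b n) : rot b (cos (2 * π / n)) (sin (2 * π / n)) e3 = e3 := by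
  obtain ⟨hc1, hc2⟩ := cos_order hA.ord
  have hcs := Real.cos_sq_add_sin_sq (2 * π / n)
  have hb := hA.unit
  have hinv := hA.inv
  generalize cos (2 * π / n) = c at *
  generalize sin (2 * π / n) = s at *
  have hc5 := c5_gt
  have ht : 0 < t := by linarith
  obtain ⟨u, hu⟩ : ∃ u, u = r • e3 - rot b c s (r • e3) := ⟨_, rfl⟩
  have hnu : ‖u‖ ≤ 1.1757 * r := by
    rw [norm_le_iff _ (by positivity)]
    have h1 := dot_rot_sub b hb c s hcs (r • e3)
    have h2 : dot u u = dot (rot b c s (r • e3) - r • e3) (rot b c s (r • e3) - r • e3) := by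
      have : u = -(rot b c s (r • e3) - r • e3) := by rw [hu]; abel
      rw [this, dot_neg_left, dot_neg_right, neg_neg]
    rw [h2, h1]
    have h3 : dot (r • e3) (r • e3) = r ^ 2 := by
      rw [dot_smul_left, dot_smul_right, dot_e3_e3]; ring
    rw [h3]
    nlinarith only [mul_nonneg (sub_nonneg.2 hc2.le) (sq_nonneg (dot b (r • e3))),
      mul_nonneg (sub_nonneg.2 hc1) (sq_nonneg r), mul_pos (sub_pos.2 hc5) (pow_pos hr0 2)]
  have hstar : ∀ v ∈ Dr, u + a • rot b c s v ∈ Sig := by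
    intro v hv
    have hvn : ∀ w : E3, dot w w = 1 → ‖a • w‖ = a := by
      intro w hw
      rw [norm_smul, Real.norm_eq_abs, abs_of_pos ha, norm_eq_sqrt, hw, Real.sqrt_one, mul_one]
    have hzn : ‖r • e3‖ = r := by
      rw [norm_smul, Real.norm_eq_abs, abs_of_pos hr0, norm_eq_sqrt, dot_e3_e3, Real.sqrt_one,
        mul_one]
    have h1 : dot (a • v - r • e3) (a • v - r • e3) ≤ 4 := by
      have h2 : ‖a • v - r • e3‖ ≤ 2 := by
        have := norm_sub_le (a • v) (r • e3)
        rw [hvn v (Dr_unit hv), hzn] at this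
        linarith
      have := (norm_le_iff _ (by norm_num : (0:ℝ) ≤ 2)).1 h2
      linarith
    have h2 := hinv (a • v - r • e3) h1 (by rw [add_sub_cancel]; exact hP v hv)
    have h3 : r • e3 + rot b c s (a • v - r • e3) = u + a • rot b c s v := by
      rw [rot_sub, rot_smul b c s a, hu]; abel
    rw [h3] at h2
    apply hC _ h2
    rw [← norm_lt_iff _ ht.le]
    have h4 := norm_add_le u (a • rot b c s v)
    rw [hvn _ (by rw [dot_rot_rot b hb c s hcs]; exact Dr_unit hv)] at h4
    linarith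
  have hstar' : ∀ v ∈ Dr, u + a • (-(rot b c s v)) ∈ Sig := by
    intro v hv
    have := hstar (-v) (neg_mem hv)
    rwa [rot_neg] at this
  have hu0 : u = 0 := by
    by_cases hex : ∃ v ∈ Dr, rot b c s v ∈ Dr ∧ ∃ l : ℝ, u = l • rot b c s v
    · obtain ⟨v, hv, hw, l, hl⟩ := hex
      obtain ⟨v', hv', hvv⟩ := Dr_nbr hv
      have h0 := i5_sq
      have hw' : dot (rot b c s v') (rot b c s v') = 1 := by
        rw [dot_rot_rot b hb c s hcs]; exact Dr_unit hv'
      have hww : dot (rot b c s v) (rot b c s v') = i5 := by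
        rw [dot_rot_rot b hb c s hcs]; exact hvv
      have h1 := star_line (l := l) (a := a) hw hw' ha.ne' hww h0
        (by rw [← hl]; exact hstar v' hv')
      have h2 := star_line (l := l) (a := a) (w' := -(rot b c s v')) (y := -i5) hw
        (by rw [dot_neg_left, dot_neg_right, neg_neg]; exact hw') ha.ne'
        (by rw [dot_neg_right, hww]) (by rw [neg_sq]; exact h0) (by rw [← hl]; exact hstar' v' hv')
      have h3 : l ^ 2 = 0 := by linarith
      have h4 : l = 0 := pow_eq_zero_iff two_ne_zero |>.1 h3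
      rw [hl, h4, zero_smul]
    · push Not at hex
      have hall : ∀ v ∈ Dr, 4 * a ^ 2 * dot u (rot b c s v) ^ 2 =
          (dot u u + a ^ 2) ^ 2 - 5 * (dot u u - a ^ 2) ^ 2 := by
        intro v hv
        rcases pair_on_star ha (by rw [dot_rot_rot b hb c s hcs]; exact Dr_unit hv) (hstar v hv)
          (hstar' v hv) with ⟨h1, l, h2⟩ | h1
        · exact absurd h2 (hex v hv h1 l)
        · exact h1
      obtain ⟨u', hu'⟩ : ∃ u', rot b c s u' = u := by
        refine ⟨rot b c (-s) u, ?_⟩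
        have := rot_inv b hb c (-s) (by rw [neg_sq]; exact hcs) u
        rwa [neg_neg] at this
      have hdot : ∀ v, dot u (rot b c s v) = dot u' v := fun v => by
        rw [← hu', dot_rot_rot b hb c s hcs]
      have h0 : u' = 0 := by
        apply zero_of_equi
        intro v hv
        have h1 := hall v hv
        have h2 := hall e3 e3_mem
        rw [hdot] at h1 h2
        have h3 : 4 * a ^ 2 * dot u' v ^ 2 = 4 * a ^ 2 * dot u' e3 ^ 2 := by rw [h1, h2]
        exact mul_left_cancel₀ (by positivity) h3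
      rw [← hu', h0, rot_zero]
  rw [hu0, rot_smul] at hu
  have h1 : r • e3 = r • rot b c s e3 := (sub_eq_zero.1 hu.symm)
  exact (smul_right_injective _ hr0.ne' h1).symm

/-- a star layer of points `r` above a layer of points `a` carries star axes -/
theorem oc {X : Set E3} {t a r : ℝ} (hB : Bas X) (hC : Clean X t) (ht : 0 < t)
    (hP : ∀ v ∈ Dr, a • v ∈ X) (hR : r • e3 ∈ X) (ha : 0 < a) (har : a < r) (hr : r ≤ 2)
    (hat : a < t) (hvis : a ^ 2 + r ^ 2 - 2 * i5 * a * r ≤ 4)
    (h : (r - a < 2 * i5 * r ∧ r ^ 2 + (r - a) ^ 2 - 2 * c5 * r * (r - a) < t ^ 2) ∨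
      (r + a ≤ 2 ∧ 1.1757 * r + a < t)) :
    Ax X (r • e3) e3 5 := by
  have hr0 : 0 < r := ha.trans har
  obtain ⟨b, n, hA⟩ := hB.bad (r • e3) hR (by
    rw [dot_smul_left, dot_smul_right, dot_e3_e3]; nlinarith only [hr, hr0])
  obtain ⟨hc1, hc2⟩ := cos_order hA.ord
  have hcs := Real.cos_sq_add_sin_sq (2 * π / n)
  have hfix : rot b (cos (2 * π / n)) (sin (2 * π / n)) e3 = e3 := by
    rcases h with h | h
    · exact oc_i hC (hP e3 e3_mem) ha har hr hA h.1 h.2
    · exact oc_ii hC hP ha hr0 h.1 h.2 hA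
  have hA' : Ax X (r • e3) e3 n := by
    rcases axis_of_fix hA.unit hcs hc2 hfix with h1 | h1
    · rw [h1] at hA; exact hA
    · have := hA.neg
      rw [h1, neg_neg] at this; exact this
  rcases hA'.ord with h5 | h7
  · rw [h5] at hA'; exact hA'
  · exfalso
    have hi := i5_sq
    have hi0 := i5_pos
    have hcos := cos_seven h7
    have h1 : dot (a • V 0 - r • e3) (a • V 0 - r • e3) ≤ 4 := by
      have e : dot (a • V 0 - r • e3) (a • V 0 - r • e3) = a ^ 2 + r ^ 2 - 2 * i5 * a * r := by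
        have e1 : a • V 0 - r • e3 = -(r • e3 - a • V 0) := by abel
        rw [e1, dot_neg_left, dot_neg_right, neg_neg, dot_e3_sub, dot_V, V_2]; ring
      rw [e]; exact hvis
    have h2 := hA'.inv _ h1 (by rw [add_sub_cancel]; exact hP _ (V_mem 0))
    have h3 : r • e3 + rot e3 (cos (2 * π / n)) (sin (2 * π / n)) (a • V 0 - r • e3) =
        a • rot e3 (cos (2 * π / n)) (sin (2 * π / n)) (V 0) := by
      rw [rot_sub, rot_smul_axis e3 dot_e3_e3, add_sub_cancel, rot_smul]
    rw [h3] at h2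
    obtain ⟨w, hw⟩ : ∃ w, w = rot e3 (cos (2 * π / n)) (sin (2 * π / n)) (V 0) := ⟨_, rfl⟩
    rw [← hw] at h2
    have hww : dot w w = 1 := by rw [hw, dot_rot_rot e3 dot_e3_e3 _ _ hcs, dot_V]
    have hnw : dot (a • w) (a • w) = a ^ 2 := by rw [dot_smul_left, dot_smul_right, hww]; ring
    obtain ⟨v, hv, σ, hσ, e⟩ := hC _ h2 (by rw [hnw]; nlinarith only [hat, ha])
    have hσa : σ = a := by
      have : dot (σ • v) (σ • v) = a ^ 2 := by rw [← e, hnw]
      rw [dot_smul_left, dot_smul_right, Dr_unit hv] at this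
      nlinarith only [this, hσ, ha]
    rw [hσa] at e
    have hwv : w = v := smul_right_injective _ ha.ne' e
    have hw2 : w 2 = i5 := by
      rw [hw, rot_e3]; simp
    have hw0 : w 0 = 2 * i5 * cos (2 * π / n) := by
      rw [hw, rot_e3]; simp only [vec_0, V_0, V_1, W_zero, vec_1]; ring
    have hi1 := i5_lt
    rcases hv with rfl | rfl | ⟨k, rfl | rfl⟩
    · rw [hwv, e3_2] at hw2; linarith
    · rw [hwv, neg_2, e3_2] at hw2; linarith
    · rw [hwv, V_0] at hw0
      have h4 : W k 0 = cos (2 * π / n) := by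
        have h5 : (2 * i5) * W k 0 = (2 * i5) * cos (2 * π / n) := by linarith
        exact mul_left_cancel₀ (by positivity) h5
      have h6 := c5_sq
      have h7 := c5_lt
      have h8 := c5_gt
      rcases W_cases k with h | h | h | h | h <;> rw [h] at h4
      · rw [W_zero, vec_0] at h4; linarith
      · rw [W_one, vec_0] at h4; linarith
      · rw [W_neg_one, vec_0] at h4; linarith
      · rw [W_two, vec_0, h6] at h4; linarith
      · rw [W_neg_two, vec_0, h6] at h4; linarith
    · rw [hwv, neg_2, V_2] at hw2; linarith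

/-- the same for all directions -/
theorem oc_all {X : Set E3} {t a r : ℝ} (hB : Bas X) (hC : Clean X t) (ht : 0 < t)
    (hP : ∀ v ∈ Dr, a • v ∈ X) (hR : ∀ v ∈ Dr, r • v ∈ X) (ha : 0 < a) (har : a < r)
    (hr : r ≤ 2) (hat : a < t) (hvis : a ^ 2 + r ^ 2 - 2 * i5 * a * r ≤ 4)
    (h : (r - a < 2 * i5 * r ∧ r ^ 2 + (r - a) ^ 2 - 2 * c5 * r * (r - a) < t ^ 2) ∨
      (r + a ≤ 2 ∧ 1.1757 * r + a < t)) :
    StarAx X r := by
  intro u hu
  obtain ⟨F, hF, hFu⟩ := exists_sym hu
  have h1 : Ax (F.pull X) (r • e3) e3 5 := by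
    apply oc (hF.bas hB) (hF.clean hC) ht (a := a) _ _ ha har hr hat hvis h
    · intro z hz
      rw [F.mem_pull, hF.map, F.lin_smul]
      exact hP _ (hF.maps z hz)
    · rw [F.mem_pull, hF.map, F.lin_smul, hFu]
      exact hR u hu
  have h2 := F.ax_push h1
  rw [hF.map, F.lin_smul, hFu] at h2
  exact h2

end

end Pool.Agent.Lib.MP_c5a075_co
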