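import Pool.Agent.Lib.MP_c5a075_co.WordsOff

/-! The words of case A: in the word region the configuration is contradictory. -/

set_option autoImplicit false

namespace Pool.Agent.Lib.MP_c5a075_co

noncomputable section

open Real

/-- Norm of the image of a point under a rotation about an axis through `L e3`. -/
lemma img_norm (a : E3) (ha : dot a a = 1) (c s : ℝ) (hcs : c ^ 2 + s ^ 2 = 1) (L : ℝ) (y : E3) :
    dot (L • e3 + rot a c s (y - L • e3)) (L • e3 + rot a c s (y - L • e3)) =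
      dot y y + 2 * L * ((L • e3 + rot a c s (y - L • e3)) 2 - y 2) := by
  have h := dot_rot_rot a ha c s hcs (y - L • e3) (y - L • e3)
  obtain ⟨r, hr⟩ : ∃ r, r = rot a c s (y - L • e3) := ⟨_, rfl⟩
  rw [← hr] at h ⊢
  simp only [dot, add_0, add_1, add_2, sub_0, sub_1, sub_2, smul_0, smul_1, smul_2, e3_0, e3_1,
    e3_2] at h ⊢
  linarith

/-- Membership of the image. -/
lemma img_mem {X : Set E3} {L s c σ : ℝ} {a : E3} (ha : dot a a = 1)
    (hinv : Inv X (L • e3 + s • a) a c σ) {y : E3} (hy : y ∈ X)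
    (hv : dot (y - (L • e3 + s • a)) (y - (L • e3 + s • a)) ≤ 4) :
    L • e3 + rot a c σ (y - L • e3) ∈ X := by
  have h := hinv _ hv (by rw [add_sub_cancel]; exact hy)
  have e : L • e3 + s • a + rot a c σ (y - (L • e3 + s • a)) =
      L • e3 + rot a c σ (y - L • e3) := by
    have e1 : y - (L • e3 + s • a) = (y - L • e3) - s • a := by abel
    rw [e1, rot_sub, rot_smul_axis _ ha]; abel
  rwa [e] at h

lemma img_scale {q : ℝ} (hq : q ≠ 0) (a : E3) (c s L : ℝ) (Y : E3) :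
    L • e3 + rot a c s ((1 / q) • Y - L • e3) =
      (1 / q) • ((L * q) • e3 + rot a c s (Y - (L * q) • e3)) := by
  have e1 : (1 / q) • Y - L • e3 = (1 / q) • (Y - (L * q) • e3) := by
    apply ext3 <;> simp <;> field_simp
  rw [e1, rot_smul, smul_add]
  congr 1
  apply ext3 <;> simp
  field_simp

lemma SigR_smul {u α : ℝ} (hα : α ≠ 0) {Z : E3} (h : α • Z ∈ SigR u) : Z ∈ SigR u := by
  obtain ⟨ρ, h | ⟨k, h⟩⟩ := h
  · refine ⟨ρ / α, Or.inl ?_⟩
    have : Z = α⁻¹ • (α • Z) := by rw [smul_smul, inv_mul_cancel₀ hα, one_smul]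
    rw [this, h, smul_smul]
    congr 1; field_simp
  · refine ⟨ρ / α, Or.inr ⟨k, ?_⟩⟩
    have : Z = α⁻¹ • (α • Z) := by rw [smul_smul, inv_mul_cancel₀ hα, one_smul]
    rw [this, h, smul_smul]
    congr 1; field_simp

/-- The unit star direction nearest to the ring point (besides the vertical one). -/
def v0 (u : ℝ) : E3 := (1 / (1 + u ^ 2)) • Vr u 0

lemma q_pos (u : ℝ) : 0 < 1 + u ^ 2 := by positivity

lemma dot_Vr (u : ℝ) (k : ℤ) : dot (Vr u k) (Vr u k) = (1 + u ^ 2) ^ 2 := by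
  have hi := i5_sq
  have hu := W_sq k
  simp only [dot, Vr, vec_0, vec_1, vec_2]
  linear_combination (4 * i5 ^ 2 * ((1 - u ^ 2) ^ 2 + (2 * u) ^ 2)) * hu +
    (5 * (1 + u ^ 2) ^ 2) * hi

lemma dot_v0 (u : ℝ) : dot (v0 u) (v0 u) = 1 := by
  have hq := q_pos u
  rw [v0, dot_smul_left, dot_smul_right, dot_Vr]
  field_simp

lemma v0_2 (u : ℝ) : v0 u 2 = i5 := by
  have hq := q_pos u
  simp only [v0, smul_2, Vr, vec_2]
  field_simp

/-- the rotated ring point -/
lemma rot_v0 (u h x σ : ℝ) (Y : E3)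
    (hY : (c5 * (1 + u ^ 2) ^ 2) • vec (h * x) 0 h +
      ((1 - c5) * dot (Vr u 0) (vec (h * x) 0 h)) • Vr u 0 +
      (σ * (1 + u ^ 2)) • cross (Vr u 0) (vec (h * x) 0 h) = h • Y) :
    rot (v0 u) c5 σ (vec (h * x) 0 h) = (1 / (1 + u ^ 2) ^ 2) • (h • Y) := by
  have hq := (q_pos u).ne'
  rw [← hY, rot, v0, cross_smul_left, dot_smul_left]
  apply ext3 <;> simp <;> field_simp

theorem words_false {X : Set E3} {u x h t : ℝ} (hu0 : 0 ≤ u) (hu1 : u < 0.33) (hx0 : 0 < x)
    (hx1 : x < 0.77) (hh : 0 < h) (ht : t ^ 2 = h ^ 2 * (1 + x ^ 2)) (ht2 : t ^ 2 ≤ 7.02)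
    (hσ : (1 - i5) * (h * (1 + x / 2 - 5 / 2 * i5 * x)) ^ 2 ≤ 2)
    (clean : ∀ z ∈ X, dot z z < t ^ 2 → z ∈ SigR u)
    (ring : ∀ k : ℤ, Ax X ((h * (1 + x / 2)) • e3 + (h * (5 / 2 * i5 * x)) • dd k) (dd k) 5)
    (hV : (h * (1 + x / 2 - 5 / 2 * i5 * x)) • v0 u ∈ X)
    (hvis : dot ((h * (1 + x / 2 - 5 / 2 * i5 * x)) • v0 u - vec (h * x) 0 h)
      ((h * (1 + x / 2 - 5 / 2 * i5 * x)) • v0 u - vec (h * x) 0 h) ≤ 4)
    (hY : 0.38 ≤ x → ∃ τ : ℝ, Ax X (τ • v0 u) (v0 u) 5 ∧
      dot (vec (h * x) 0 h - τ • v0 u) (vec (h * x) 0 h - τ • v0 u) ≤ 4) : False := by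
  have hi := i5_sq
  have hi1 := i5_gt
  have hi2 := i5_lt
  have hs5 := s5_sq_i5
  have hq := q_pos u
  have hq0 := hq.ne'
  obtain ⟨L, hL⟩ : ∃ L, L = h * (1 + x / 2) := ⟨_, rfl⟩
  obtain ⟨s, hs⟩ : ∃ s, s = h * (5 / 2 * i5 * x) := ⟨_, rfl⟩
  obtain ⟨σ, hσd⟩ : ∃ σ, σ = h * (1 + x / 2 - 5 / 2 * i5 * x) := ⟨_, rfl⟩
  have hL0 : 0 < L := by rw [hL]; positivity
  have hσL : σ = L - s := by rw [hL, hs, hσd]; ring
  rw [← hσd] at hσ hV hvis
  simp only [← hL, ← hs] at ring
  -- the ring point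
  have hw0 : L • e3 + s • dd 0 = vec (h * x) 0 h := by
    rw [hL, hs]
    apply ext3
    · simp only [add_0, smul_0, e3_0, dd_0, vec_0, W_zero]
      linear_combination (5 * h * x) * hi
    · simp only [add_1, smul_1, e3_1, dd_1, vec_1, W_zero]; ring
    · simp only [add_2, smul_2, e3_2, dd_2, vec_2]
      linear_combination (-5 / 2 * h * x) * hi
  have hw : vec (h * x) 0 h ∈ X := by rw [← hw0]; exact (ring 0).mem
  have hwn : dot (vec (h * x) 0 h) (vec (h * x) 0 h) = t ^ 2 := by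
    rw [ht]; simp only [dot, vec_0, vec_1, vec_2]; ring
  -- first word
  obtain ⟨i1, -, -, -⟩ := (ring 0).five
  obtain ⟨i2, -, -, -⟩ := (ring 1).five
  have hz1 := img_mem (dot_dd 0) i1 hV (by rw [hw0]; exact hvis)
  obtain ⟨z1, hz1d⟩ : ∃ z, z = L • e3 + rot (dd 0) c5 s5 (σ • v0 u - L • e3) := ⟨_, rfl⟩
  rw [← hz1d] at hz1
  have hz1e : z1 = (1 / (1 + u ^ 2)) • (h • Z1 x u) := by
    have e1 : σ • v0 u = (1 / (1 + u ^ 2)) • (σ • Vr u 0) := by
      rw [v0, smul_smul, smul_smul, mul_comm]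
    rw [hz1d, e1, img_scale hq0, ← z1_eq h x u, hL, hσd]
  have hz1n : dot z1 z1 = σ ^ 2 + 2 * L * (z1 2 - σ * i5) := by
    have := img_norm (dd 0) (dot_dd 0) c5 s5 c5_sq_add L (σ • v0 u)
    rw [← hz1d, dot_smul_left, dot_smul_right, dot_v0, smul_2, v0_2] at this
    rw [this]; ring
  -- second word
  have hv2 : dot (z1 - (L • e3 + s • dd 1)) (z1 - (L • e3 + s • dd 1)) ≤ 4 := by
    have e1 : z1 - (L • e3 + s • dd 1) = rot (dd 0) c5 s5 (σ • v0 u - σ • e3) := by
      rw [hz1d, ← rot_dd_a, ← rot_smul]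
      have : σ • v0 u - σ • e3 = (σ • v0 u - L • e3) - s • (-e3) := by
        rw [hσL]; apply ext3 <;> simp <;> ring
      rw [this, rot_sub _ _ _ _ (s • -e3)]; abel
    rw [e1, dot_rot_rot _ (dot_dd 0) _ _ c5_sq_add]
    have e4 : dot (σ • v0 u - σ • e3) (σ • v0 u - σ • e3) =
        σ ^ 2 * (dot (v0 u) (v0 u) - 2 * v0 u 2 + 1) := by
      simp only [dot, sub_0, sub_1, sub_2, smul_0, smul_1, smul_2, e3_0, e3_1, e3_2]; ring
    rw [e4, dot_v0, v0_2]
    linarith
  have hz2 := img_mem (dot_dd 1) i2 hz1 hv2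
  obtain ⟨z2, hz2d⟩ : ∃ z, z = L • e3 + rot (dd 1) c5 s5 (z1 - L • e3) := ⟨_, rfl⟩
  rw [← hz2d] at hz2
  have hz2e : z2 = (1 / (1 + u ^ 2)) • (h • Z2 x u) := by
    rw [hz2d, hz1e, img_scale hq0, ← z2_eq h x u, hL]
  have hz2n : dot z2 z2 = σ ^ 2 + 2 * L * (z2 2 - σ * i5) := by
    have := img_norm (dd 1) (dot_dd 1) c5 s5 c5_sq_add L z1
    rw [← hz2d, hz1n] at this
    rw [this]; ring
  -- general conclusion for the first two words
  have fin12 : ∀ (z Z : E3), z ∈ X → z = (1 / (1 + u ^ 2)) • (h • Z) →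
      dot z z = σ ^ 2 + 2 * L * (z 2 - σ * i5) → Z ∉ SigR u →
      0 < ((1 + x ^ 2) - (1 + x / 2 - 5 / 2 * i5 * x) ^ 2) * (1 + u ^ 2) +
        2 * (1 + x / 2) * (i5 * (1 + x / 2 - 5 / 2 * i5 * x) * (1 + u ^ 2) - Z 2) → False := by
    intro z Z hz he hn hoff hpos
    apply hoff
    have hlt : dot z z < t ^ 2 := by
      have e2 : z 2 = h * Z 2 / (1 + u ^ 2) := by
        rw [he]; simp only [smul_2]; ring
      have e3 : (t ^ 2 - dot z z) * (1 + u ^ 2) = h ^ 2 *
          (((1 + x ^ 2) - (1 + x / 2 - 5 / 2 * i5 * x) ^ 2) * (1 + u ^ 2) +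
          2 * (1 + x / 2) * (i5 * (1 + x / 2 - 5 / 2 * i5 * x) * (1 + u ^ 2) - Z 2)) := by
        rw [hn, ht, e2, hL, hσd]
        field_simp
        ring
      have e4 : 0 < (t ^ 2 - dot z z) * (1 + u ^ 2) := by rw [e3]; positivity
      have := (mul_pos_iff_of_pos_right hq).1 e4
      linarith only [this]
    have h1 := clean z hz hlt
    rw [he, smul_smul] at h1
    exact SigR_smul (by positivity) h1
  -- words through the rotated ring point
  have finY : ∀ (k : ℤ) (ε δ : ℝ) (Y Z : E3), 0.38 ≤ x → c5 ^ 2 + ε ^ 2 = 1 → c5 ^ 2 + δ ^ 2 = 1 →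
      (∀ τ : ℝ, Ax X (τ • v0 u) (v0 u) 5 → Inv X (τ • v0 u) (v0 u) c5 ε) →
      Inv X (L • e3 + s • dd k) (dd k) c5 δ →
      rot (v0 u) c5 ε (vec (h * x) 0 h) = (1 / (1 + u ^ 2) ^ 2) • (h • Y) →
      (L * (1 + u ^ 2) ^ 2) • e3 + rot (dd k) c5 δ (h • Y - (L * (1 + u ^ 2) ^ 2) • e3) = h • Z →
      0 < Y 0 * (W k 0 * x) + Y 1 * (W k 1 * x) + Y 2 -
        7152 / 10000 * (1 + x ^ 2) * (1 + u ^ 2) ^ 2 →
      Z ∉ SigR u → 0 < Y 2 - Z 2 → False := by
    intro k ε δ Y Z hx hε hδ hax hinv hrot hZ hvisY hoff hpos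
    obtain ⟨τ, hτ, hτv⟩ := hY hx
    have hy := hax τ hτ _ hτv (by rw [add_sub_cancel]; exact hw)
    have ey : τ • v0 u + rot (v0 u) c5 ε (vec (h * x) 0 h - τ • v0 u) =
        rot (v0 u) c5 ε (vec (h * x) 0 h) := by
      rw [rot_sub, rot_smul_axis _ (dot_v0 u)]; abel
    rw [ey] at hy
    obtain ⟨y, hyd⟩ : ∃ y, y = rot (v0 u) c5 ε (vec (h * x) 0 h) := ⟨_, rfl⟩
    rw [← hyd] at hy hrot
    have hyn : dot y y = t ^ 2 := by rw [hyd, dot_rot_rot _ (dot_v0 u) _ _ hε, hwn]
    have hwk : L • e3 + s • dd k = vec (h * x * W k 0) (h * x * W k 1) h := by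
      rw [hL, hs]
      apply ext3
      · simp only [add_0, smul_0, e3_0, dd_0, vec_0]
        linear_combination (5 * h * x * W k 0) * hi
      · simp only [add_1, smul_1, e3_1, dd_1, vec_1]
        linear_combination (5 * h * x * W k 1) * hi
      · simp only [add_2, smul_2, e3_2, dd_2, vec_2]
        linear_combination (-5 / 2 * h * x) * hi
    have hq2 : 0 < (1 + u ^ 2) ^ 2 := by positivity
    have hyv : dot (y - (L • e3 + s • dd k)) (y - (L • e3 + s • dd k)) ≤ 4 := by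
      have hWk := W_sq k
      have e1 : dot (y - (L • e3 + s • dd k)) (y - (L • e3 + s • dd k)) =
          2 * t ^ 2 - 2 * dot y (L • e3 + s • dd k) := by
        have e2 : dot (L • e3 + s • dd k) (L • e3 + s • dd k) = t ^ 2 := by
          rw [hwk, ht]; simp only [dot, vec_0, vec_1, vec_2]
          linear_combination (h ^ 2 * x ^ 2) * hWk
        rw [dot_sub_left, dot_sub_right, dot_sub_right, hyn, e2, dot_comm _ y]; ring
      have e2 : dot y (L • e3 + s • dd k) * (1 + u ^ 2) ^ 2 =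
          h ^ 2 * (Y 0 * (W k 0 * x) + Y 1 * (W k 1 * x) + Y 2) := by
        rw [hwk, hrot]; simp only [dot, smul_0, smul_1, smul_2, vec_0, vec_1, vec_2]
        field_simp
      have e3 : (7152 / 10000) * t ^ 2 * (1 + u ^ 2) ^ 2 <
          dot y (L • e3 + s • dd k) * (1 + u ^ 2) ^ 2 := by
        rw [e2, ht]
        have := mul_pos (show 0 < h ^ 2 by positivity) hvisY
        linarith only [this]
      have e4 := lt_of_mul_lt_mul_right e3 hq2.le
      rw [e1]
      linarith only [ht2, e4]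
    have hz := img_mem (dot_dd k) hinv hy hyv
    obtain ⟨z, hzd⟩ : ∃ z, z = L • e3 + rot (dd k) c5 δ (y - L • e3) := ⟨_, rfl⟩
    have hze : z = (1 / (1 + u ^ 2) ^ 2) • (h • Z) := by
      rw [hzd, hrot, img_scale hq2.ne', hZ]
    have hn := img_norm (dd k) (dot_dd k) c5 δ hδ L y
    rw [← hzd] at hz hn
    have hlt : dot z z < t ^ 2 := by
      rw [hn, hyn]
      have e2 : z 2 = h * Z 2 / (1 + u ^ 2) ^ 2 := by
        rw [hze]; simp only [smul_2]; ring
      have e3 : y 2 = h * Y 2 / (1 + u ^ 2) ^ 2 := by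
        rw [hrot]; simp only [smul_2]; ring
      have e4 : z 2 < y 2 := by
        rw [e2, e3]
        apply div_lt_div_of_pos_right _ hq2
        exact mul_lt_mul_of_pos_left (by linarith only [hpos]) hh
      have := mul_pos (mul_pos two_pos hL0) (sub_pos.2 e4)
      linarith only [this]
    have h1 := clean z hz hlt
    apply hoff
    rw [hze, smul_smul] at h1
    exact SigR_smul (by positivity) h1
  have c5s := c5_eq
  -- the covering by eight boxes
  rcases lt_or_ge x 0.38 with hx | hx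
  · rcases lt_or_ge u 0.02 with hu | hu
    · obtain ⟨a1, a2⟩ := off_z2c (x := x) (u := u) (by linarith) (by linarith) (by linarith)
        (by linarith)
      exact fin12 z2 _ hz2 hz2e hz2n a1 a2
    · rcases lt_or_ge u 0.041 with hu' | hu'
      · obtain ⟨a1, a2⟩ := off_z2d (x := x) (u := u) (by linarith) (by linarith) (by linarith)
          (by linarith)
        exact fin12 z2 _ hz2 hz2e hz2n a1 a2
      · obtain ⟨a1, a2⟩ := off_z1b (x := x) (u := u) (by linarith) (by linarith only [hx]) (by linarith)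
          (by linarith only [hu1])
        exact fin12 z1 _ hz1 hz1e hz1n a1 a2
  · rcases lt_or_ge u 0.05 with hu | hu
    · rcases lt_or_ge x 0.55 with hx' | hx'
      · obtain ⟨a1, a2, a3⟩ := off_z4a (x := x) (u := u) (by linarith) (by linarith only [hx'])
          (by linarith) (by linarith only [hu])
        refine finY 1 (-s5) s5 (Y4 x u) (Z4 x u) hx (by rw [neg_sq]; exact c5_sq_add) c5_sq_add
          (fun τ hτ => hτ.five.2.1) i2 (rot_v0 u h x (-s5) _ (y4_eq h x u)) ?_ ?_ a1 a2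
        · rw [hL]; exact z4_eq h x u
        · rw [W_one, c5s]; exact a3
      · obtain ⟨a1, a2⟩ := off_z2b (x := x) (u := u) (by linarith only [hx']) (by linarith only [hx1]) (by linarith)
          (by linarith only [hu])
        exact fin12 z2 _ hz2 hz2e hz2n a1 a2
    · rcases lt_or_ge x 0.5 with hx' | hx'
      · rcases lt_or_ge u 0.28 with hu' | hu'
        · obtain ⟨a1, a2⟩ := off_z1a (x := x) (u := u) (by linarith only [hx]) (by linarith only [hx']) (by linarith only [hu])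
            (by linarith only [hu'])
          exact fin12 z1 _ hz1 hz1e hz1n a1 a2
        · obtain ⟨a1, a2, a3⟩ := off_z5a (x := x) (u := u) (by linarith only [hx]) (by linarith only [hx'])
            (by linarith only [hu']) (by linarith only [hu1])
          obtain ⟨-, i3, -, -⟩ := (ring (-2)).five
          refine finY (-2) s5 (-s5) (Y5 x u) (Z5 x u) hx c5_sq_add
            (by rw [neg_sq]; exact c5_sq_add)
            (fun τ hτ => hτ.five.1) i3 (rot_v0 u h x s5 _ (y5_eq h x u)) ?_ ?_ a1 a2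
          · rw [hL]; exact z5_eq h x u
          · have e1 : W (-2) 0 = -(1 + 5 * i5) / 4 := by
              rw [W_neg_two, vec_0, c5_sq, c5_eq]; ring
            have e2 : W (-2) 1 = -(s5 * (5 * i5 - 1) / 2) := by
              rw [W_neg_two, vec_1, c5_eq]; ring
            rw [e1, e2]; exact a3
      · rcases lt_or_ge u 0.06 with hu' | hu'
        · rcases lt_or_ge x 0.55 with hx'' | hx''
          · obtain ⟨a1, a2, a3⟩ := off_z4a (x := x) (u := u) (by linarith only [hx']) (by linarith only [hx''])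
              (by linarith only [hu]) (by linarith only [hu'])
            refine finY 1 (-s5) s5 (Y4 x u) (Z4 x u) hx (by rw [neg_sq]; exact c5_sq_add)
              c5_sq_add (fun τ hτ => hτ.five.2.1) i2 (rot_v0 u h x (-s5) _ (y4_eq h x u)) ?_ ?_
              a1 a2
            · rw [hL]; exact z4_eq h x u
            · rw [W_one, c5s]; exact a3
          · obtain ⟨a1, a2⟩ := off_z2b (x := x) (u := u) (by linarith only [hx'']) (by linarith only [hx1])
              (by linarith only [hu]) (by linarith only [hu'])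
            exact fin12 z2 _ hz2 hz2e hz2n a1 a2
        · obtain ⟨a1, a2⟩ := off_z2a (x := x) (u := u) (by linarith only [hx']) (by linarith only [hx1]) (by linarith only [hu'])
            (by linarith only [hu1])
          exact fin12 z2 _ hz2 hz2e hz2n a1 a2

end

end Pool.Agent.Lib.MP_c5a075_co
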