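import Pool.Agent.Lib.MP_c5a075_co.CaseFr
import Pool.Agent.Lib.MP_c5a075_co.CaseN
import Pool.Agent.Lib.MP_c5a075_co.HoleR
import Pool.Agent.Lib.MP_c5a075_co.Words
import Pool.Agent.Lib.MP_c5a075_co.OC

/-! Case A is impossible. -/

set_option autoImplicit false

namespace Pool.Agent.Lib.MP_c5a075_co

noncomputable section

open Real

lemma rh_rot (k : ℤ) (y : E3) : rh ((rotFr k).lin y) = rh y := by
  unfold rh
  congr 1
  rw [rotFr_lin]
  simp only [vec_0, vec_1]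
  have := Real.cos_sq_add_sin_sq ((k:ℝ) * (2 * π / 5))
  linear_combination (y 0 ^ 2 + y 1 ^ 2) * this

lemma bst_rot (k : ℤ) (y : E3) : bst ((rotFr k).lin y) = (rotFr k).lin (bst y) := by
  rw [bst, rh_rot, rotFr_lin, rotFr_lin, bst]
  apply ext3
  · simp only [vec_0, vec_1]; ring
  · simp only [vec_0, vec_1]; ring
  · simp only [vec_2]

/-- The star directions in the ring frame. -/
lemma zFr_Vr {C S u : ℝ} (h : C ^ 2 + S ^ 2 = 1) (hC : C * (1 + u ^ 2) = 1 - u ^ 2)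
    (hS : S * (1 + u ^ 2) = 2 * u) (k : ℤ) :
    (zFr C S h).lin (Vr u k) = (1 + u ^ 2) • V k := by
  rw [zFr_lin]
  apply ext3
  · simp only [vec_0, Vr, vec_1, smul_0, V_0]
    linear_combination (2 * i5 * (1 + u ^ 2) * W k 0) * h -
      (2 * i5 * (C * W k 0 - S * W k 1)) * hC - (2 * i5 * (C * W k 1 + S * W k 0)) * hS
  · simp only [vec_0, Vr, vec_1, smul_1, V_1]
    linear_combination (2 * i5 * (1 + u ^ 2) * W k 1) * h -
      (2 * i5 * (S * W k 0 + C * W k 1)) * hC - (2 * i5 * (S * W k 1 - C * W k 0)) * hS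
  · simp only [vec_2, Vr, smul_2, V_2]; ring

lemma zFr_v0 {C S u : ℝ} (h : C ^ 2 + S ^ 2 = 1) (hC : C * (1 + u ^ 2) = 1 - u ^ 2)
    (hS : S * (1 + u ^ 2) = 2 * u) : (zFr C S h).lin (v0 u) = V 0 := by
  have hq := q_pos u
  rw [v0, Fr.lin_smul, zFr_Vr h hC hS, smul_smul]
  rw [one_div, inv_mul_cancel₀ hq.ne', one_smul]

/-- Points of the star lines in the ring frame. -/
lemma mem_SigR {C S u : ℝ} (h : C ^ 2 + S ^ 2 = 1) (hC : C * (1 + u ^ 2) = 1 - u ^ 2)
    (hS : S * (1 + u ^ 2) = 2 * u) {z : E3} (hz : (zFr C S h).lin z ∈ Sig) : z ∈ SigR u := by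
  have hq := (q_pos u).ne'
  obtain ⟨v, hv, r, -, e⟩ := hz
  rcases hv with rfl | rfl | ⟨k, rfl | rfl⟩
  · exact ⟨r, Or.inl (co_inj (zFr C S h) (by rw [e, Fr.lin_smul, zFr_e3]))⟩
  · exact ⟨-r, Or.inl (co_inj (zFr C S h) (by rw [e, Fr.lin_smul, zFr_e3]; simp))⟩
  · refine ⟨r / (1 + u ^ 2), Or.inr ⟨k, co_inj (zFr C S h) ?_⟩⟩
    rw [e, Fr.lin_smul, zFr_Vr h hC hS, smul_smul]
    congr 1; field_simp
  · refine ⟨-r / (1 + u ^ 2), Or.inr ⟨k, co_inj (zFr C S h) ?_⟩⟩
    rw [e, Fr.lin_smul, zFr_Vr h hC hS, smul_smul, smul_neg, ← neg_smul]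
    congr 1; field_simp

/-- A configuration in which all local axes are the expected ones is contradictory. -/
theorem caseA (hLoc : LocalA) {X : Set E3} {t τ : ℝ} {w : E3} (h : Cfg X t τ w) : False := by
  -- normalisation
  obtain ⟨Y, y, hc, hy1, hy2⟩ := h.normalize
  clear h
  have hi := i5_sq
  have hi1 := i5_gt
  have hi2 := i5_lt
  have hi0 := i5_pos
  have hc5 := c5_eq
  have hs5 := s5_sq_i5
  have hs5p := s5_pos
  have hs5g := s5_gt
  have hs5l := s5_lt
  have ht0 := hc.t_pos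
  have hτ0 := hc.τ_pos
  obtain ⟨ρ, hρ⟩ : ∃ ρ, ρ = √(y 0 ^ 2 + y 1 ^ 2) := ⟨_, rfl⟩
  have hρ2 : ρ ^ 2 = y 0 ^ 2 + y 1 ^ 2 := by rw [hρ]; exact Real.sq_sqrt (by positivity)
  have hρnn : 0 ≤ ρ := by rw [hρ]; exact Real.sqrt_nonneg _
  have hy0 : 0 ≤ y 0 := by
    have h1 : 0 ≤ s5 * y 1 := mul_nonneg hs5p.le hy1
    have h2 : 0 ≤ (1 - c5) * y 0 := h1.trans hy2
    exact nonneg_of_mul_nonneg_right h2 (by rw [hc5]; linarith)
  have hρ0 : 0 < ρ := by
    rcases hρnn.eq_or_lt with h1 | h1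
    · exfalso
      apply hc.off
      rw [← h1] at hρ2
      have a0 : y 0 = 0 := by nlinarith only [sq_nonneg (y 0), sq_nonneg (y 1), hρ2]
      have a1 : y 1 = 0 := by nlinarith only [sq_nonneg (y 0), sq_nonneg (y 1), hρ2]
      have : y = (y 2) • e3 := by apply ext3 <;> simp [a0, a1]
      rw [this]; exact smul_mem_Sig e3_mem _
    · exact h1
  -- tangent bound
  have hm : y 1 ≤ 0.7266 * y 0 := by
    have h1 : s5 * y 1 ≤ 0.691 * y 0 := by
      refine hy2.trans (mul_le_mul_of_nonneg_right ?_ hy0)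
      have := c5_gt; linarith
    nlinarith only [h1, mul_nonneg (sub_nonneg.2 hs5g.le) hy1, hy0]
  have hy00 : 0 < y 0 := by
    rcases hy0.eq_or_lt with h1 | h1
    · exfalso
      rw [← h1] at hm hρ2
      have : y 1 = 0 := by linarith
      rw [this] at hρ2
      nlinarith only [hρ2, hρ0]
    · exact h1
  -- the exact cosine bound
  have hcos : (1 + 5 * i5) / 4 * ρ ≤ y 0 := by
    have h1 : ((1 + 5 * i5) / 4 * ρ) ^ 2 ≤ y 0 ^ 2 := by
      have h2 : (s5 * y 1) ^ 2 ≤ ((1 - c5) * y 0) ^ 2 :=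
        pow_le_pow_left₀ (mul_nonneg hs5p.le hy1) hy2 2
      rw [mul_pow, mul_pow, hs5, hc5] at h2
      have h3 : (1 - (5 * i5 - 1) / 4) ^ 2 = 5 / 8 * (3 - 5 * i5) := by
        linear_combination (25 / 16) * hi
      rw [h3] at h2
      have h4 : (5 + 5 * i5) * y 1 ^ 2 ≤ 5 * (3 - 5 * i5) * y 0 ^ 2 := by linarith
      have h5 : ((1 + 5 * i5) / 4 * ρ) ^ 2 = (3 + 5 * i5) / 8 * (y 0 ^ 2 + y 1 ^ 2) := by
        rw [mul_pow, hρ2]; linear_combination (25 / 16 * (y 0 ^ 2 + y 1 ^ 2)) * hi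
      rw [h5]
      -- multiply h4 by a positive constant
      have h6 := mul_le_mul_of_nonneg_left h4 (show 0 ≤ (1 + i5) / 16 by linarith only [hi0])
      have h7 : (1 + i5) / 16 * ((5 + 5 * i5) * y 1 ^ 2) = (3 + 5 * i5) / 8 * y 1 ^ 2 := by
        linear_combination (5 / 16 * y 1 ^ 2) * hi
      have h8 : (1 + i5) / 16 * (5 * (3 - 5 * i5) * y 0 ^ 2) = (5 - 5 * i5) / 8 * y 0 ^ 2 := by
        linear_combination (-25 / 16 * y 0 ^ 2) * hi
      rw [h7, h8] at h6
      linarith only [h6]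
    exact le_of_sq_le_sq h1 hy0
  -- the height
  obtain ⟨hh, hhd⟩ : ∃ hh, hh = y 2 := ⟨_, rfl⟩
  have hnV : 2 * i5 * y 0 ≤ (1 - i5) * hh := by
    have h1 := hc.near (V 0) (V_mem 0)
    simp only [dot, V_0, V_1, V_2, W_zero, vec_0, vec_1] at h1
    rw [hhd]; linarith
  have hh0 : 0 < hh := by
    have h1 : 0 < 2 * i5 * y 0 := by positivity
    have h2 : 0 < (1 - i5) * hh := h1.trans_le hnV
    exact (mul_pos_iff_of_pos_left (by linarith)).1 h2
  have ht : t ^ 2 = hh ^ 2 + ρ ^ 2 := by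
    rw [← hc.norm, hρ2, hhd]; simp only [dot]; ring
  have ht2 : t ^ 2 ≤ 7.02 := by
    have := hc.t_le
    nlinarith only [this, ht0]
  obtain ⟨x, hx⟩ : ∃ x, x = ρ / hh := ⟨_, rfl⟩
  have hxh : hh * x = ρ := by rw [hx]; field_simp
  have hx0 : 0 < x := by rw [hx]; positivity
  have hρ3 : ρ ≤ 1.237 * y 0 := by
    have h1 : ρ ^ 2 ≤ (1.237 * y 0) ^ 2 := by
      rw [hρ2]; nlinarith only [hm, hy1, hy0]
    exact le_of_sq_le_sq h1 (by positivity)
  have hx1 : x < 0.77 := by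
    have h1 : y 0 ≤ 0.6181 * hh := by nlinarith only [hnV, hi1, hi2, hy00, hh0]
    have h2 : hh * x < hh * 0.77 := by rw [hxh]; linarith only [hh0, hρ3, h1]
    exact lt_of_mul_lt_mul_left h2 hh0.le
  have htx : t ^ 2 = hh ^ 2 * (1 + x ^ 2) := by rw [ht, ← hxh]; ring
  obtain ⟨u, hu⟩ : ∃ u, u = y 1 / (ρ + y 0) := ⟨_, rfl⟩
  have hρy : 0 < ρ + y 0 := by linarith
  have hu' : u * (ρ + y 0) = y 1 := by rw [hu]; field_simp
  have hu0 : 0 ≤ u := by rw [hu]; positivity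
  have hu1 : u < 0.33 := by
    by_contra hcon
    push Not at hcon
    have h1 : 0.33 * (ρ + y 0) ≤ y 1 := by
      rw [← hu']; exact mul_le_mul_of_nonneg_right hcon hρy.le
    nlinarith only [h1, hρ2, hm, hy1, hy00, hρ0]
  obtain ⟨C, hC⟩ : ∃ C, C = y 0 / ρ := ⟨_, rfl⟩
  obtain ⟨S, hS⟩ : ∃ S, S = y 1 / ρ := ⟨_, rfl⟩
  have hCρ : C * ρ = y 0 := by rw [hC]; field_simp
  have hSρ : S * ρ = y 1 := by rw [hS]; field_simp
  have hCS : C ^ 2 + S ^ 2 = 1 := by
    rw [hC, hS, div_pow, div_pow, ← add_div, ← hρ2]; field_simp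
  have hCu : C * (1 + u ^ 2) = 1 - u ^ 2 := by
    rw [hC, hu]
    have h1 : y 1 ^ 2 = ρ ^ 2 - y 0 ^ 2 := by linarith only [hρ2]
    rw [div_pow, h1]
    field_simp
    ring
  have hSu : S * (1 + u ^ 2) = 2 * u := by
    rw [hS, hu]
    have h1 : y 1 ^ 2 = ρ ^ 2 - y 0 ^ 2 := by linarith only [hρ2]
    rw [div_pow, h1]
    field_simp
    ring
  -- the ring frame
  obtain ⟨G, hG⟩ : ∃ G, G = zFr C S hCS := ⟨_, rfl⟩
  have hGm : ∀ v, G.map v = G.lin v := by intro v; rw [hG, zFr_map]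
  have hGe : G.lin e3 = e3 := by rw [hG, zFr_e3]
  have hGw : G.lin (vec ρ 0 hh) = y := by
    rw [hG, zFr_lin]
    apply ext3
    · simp only [vec_0, vec_1]; linarith only [hCρ]
    · simp only [vec_0, vec_1]; linarith only [hSρ]
    · simp only [vec_2]; exact hhd
  have hGv : G.lin (v0 u) = V 0 := by rw [hG]; exact zFr_v0 hCS hCu hSu
  have hGmem : ∀ v, v ∈ G.pull Y ↔ G.lin v ∈ Y := by intro v; rw [G.mem_pull, hGm]
  obtain ⟨L, hL⟩ : ∃ L, L = hh * (1 + x / 2) := ⟨_, rfl⟩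
  obtain ⟨s, hs⟩ : ∃ s, s = hh * (5 / 2 * i5 * x) := ⟨_, rfl⟩
  obtain ⟨σ, hσ⟩ : ∃ σ, σ = hh * (1 + x / 2 - 5 / 2 * i5 * x) := ⟨_, rfl⟩
  have hσL : σ = L - s := by rw [hL, hs, hσ]; ring
  have hs0 : 0 < s := by rw [hs]; positivity
  have hw0 : L • e3 + s • dd 0 = vec ρ 0 hh := by
    rw [hL, hs, ← hxh]
    apply ext3
    · simp only [add_0, smul_0, e3_0, dd_0, vec_0, W_zero]
      linear_combination (5 * hh * x) * hi
    · simp only [add_1, smul_1, e3_1, dd_1, vec_1, W_zero]; ring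
    · simp only [add_2, smul_2, e3_2, dd_2, vec_2]
      linear_combination (-5 / 2 * hh * x) * hi
  have hwk : ∀ k : ℤ, L • e3 + s • dd k = (rotFr k).lin (vec ρ 0 hh) := by
    intro k
    rw [← hw0, Fr.lin_add, Fr.lin_smul, Fr.lin_smul, rotFr_e3, rotFr_dd, add_zero]
  have hdd : G.lin (dd 0) = bst y := by
    have hr : rh y = ρ := by rw [rh, hρ]
    rw [hG, zFr_lin, bst, hr]
    apply ext3
    · simp only [vec_0, dd_0, dd_1, W_zero, vec_1]; rw [hC]; ring
    · simp only [vec_0, dd_0, dd_1, W_zero, vec_1]; rw [hS]; ring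
    · simp only [vec_2, dd_2]
  have hring : ∀ k : ℤ, Ax (G.pull Y) (L • e3 + s • dd k) (dd k) 5 := by
    intro k
    apply G.ax_pull
    have e1 : G.map (L • e3 + s • dd k) = (rotFr k).lin y := by
      rw [hGm, hwk, hG, zFr_rot, ← hG, hGw]
    have e2 : G.lin (dd k) = bst ((rotFr k).lin y) := by
      have : dd k = (rotFr k).lin (dd 0) := by rw [rotFr_dd, add_zero]
      rw [this, hG, zFr_rot, ← hG, hdd, bst_rot]
    rw [e1, e2]
    exact hLoc Y t τ _ (hc.ring k)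
  have hsep := G.sep_pull hc.bas.sep
  have hcov := G.cov_pull hc.bas.cov
  have hσ0 : 0 < σ := by
    rw [hσ]
    apply mul_pos hh0
    nlinarith only [hx1, hi2, hx0]
  rcases lt_or_ge 2 ((1 - i5) * (L - s) ^ 2) with hdich | hdich
  · -- the hole
    refine holeR (X := G.pull Y) (D := {v | G.lin v ∈ Dr}) (t := t) hsep hcov ?_ ?_ ?_ ?_ hring
      ?_ hs0 (by linarith only [hσL, hσ0]) ht2 hdich
    · intro v hv
      rw [← G.dot_lin]; exact Dr_unit hv
    · intro v hv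
      have h2 : (G.lin v) 2 = v 2 := by rw [hG, zFr_lin]; rfl
      rcases Dr_height hv with e | e | e | e
      · left; exact co_inj G (by rw [e, hGe])
      · right; left; exact co_inj G (by rw [e, Fr.lin_neg, hGe])
      · right; right; left; rw [← h2]; exact e
      · right; right; right; rw [← h2]; exact e
    · intro z hz hzt
      rw [hGmem] at hz
      obtain ⟨v, hv, r, hr, e⟩ := hc.clean _ hz (by rw [G.dot_lin]; exact hzt)
      refine ⟨G.co v, ?_, r, hr, co_inj G ?_⟩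
      · show G.lin (G.co v) ∈ Dr
        rw [G.lin_co]; exact hv
      · rw [e, Fr.lin_smul, G.lin_co]
    · intro v hv r hr hr2 hrv
      rw [hGmem, Fr.lin_smul] at hrv ⊢
      rw [hGe]
      exact Pool.Agent.Lib.MP_c5a075_co.trans hc.star hτ0 hc.τ_le hr hr2 hv e3_mem hrv
    · rw [htx, hL, hs]
      linear_combination (5 * hh ^ 2 * x - 15 / 4 * hh ^ 2 * x ^ 2) * hi
  · -- the words
    rw [← hσL] at hdich
    have hσ2 : σ ≤ 1.903 := by
      by_contra hcon
      push Not at hcon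
      nlinarith only [hdich, hcon, mul_pos (sub_pos.2 hi2) (show 0 < σ ^ 2 by positivity)]
    have hpar : t ^ 2 = σ ^ 2 + 2 * (1 - i5) * (σ * s + s ^ 2) := by
      rw [hσ, hs]; exact par_sigma htx
    have hp1 : s ≤ 1.65 * σ := by
      rw [hs, hσ]
      have : 5 / 2 * i5 * x ≤ 1.65 * (1 + x / 2 - 5 / 2 * i5 * x) := by
        nlinarith only [hx1, hi2, hx0]
      have := mul_le_mul_of_nonneg_left this hh0.le
      linarith only [this]
    have hn1 := cn1 hσ0 hs0 hpar ht2 hdich hp1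
    obtain ⟨m, hmd⟩ : ∃ m, m = i5 * (σ + 2 * s) := ⟨_, rfl⟩
    rw [← hmd] at hn1
    -- the scalar product with the adjacent direction
    have hmV : m ≤ dot y (V 0) := by
      have e1 : dot y (V 0) = 2 * i5 * y 0 + i5 * hh := by
        simp only [dot, V_0, V_1, V_2, W_zero, vec_0, vec_1]; rw [hhd]; ring
      have e2 : m = i5 * hh + (i5 / 2 + 1 / 2) * ρ := by
        rw [hmd, hσ, hs, ← hxh]
        linear_combination (5 / 2 * hh * x) * hi
      have e3' := mul_le_mul_of_nonneg_left hcos (show 0 ≤ 2 * i5 by linarith only [hi0])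
      have e4 : 2 * i5 * ((1 + 5 * i5) / 4 * ρ) = (i5 / 2 + 1 / 2) * ρ := by
        linear_combination (5 / 2 * ρ) * hi
      rw [e4] at e3'
      rw [e1, e2]; linarith only [e3']
    have hvis : ∀ r : ℝ, 0 ≤ r → t ^ 2 + r ^ 2 - 2 * r * m ≤ 4 →
        dot (y - r • V 0) (y - r • V 0) ≤ 4 := by
      intro r hr h1
      have e1 : dot (y - r • V 0) (y - r • V 0) = t ^ 2 + r ^ 2 - 2 * r * dot y (V 0) := by
        rw [dot_sub_left, dot_sub_right, dot_sub_right, dot_smul_left, dot_smul_left,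
          dot_smul_right, dot_smul_right, dot_V, hc.norm, dot_comm (V 0) y]; ring
      rw [e1]
      have := mul_le_mul_of_nonneg_left hmV hr
      linarith only [h1, this]
    have hvisG : ∀ r : ℝ, dot (vec ρ 0 hh - r • v0 u) (vec ρ 0 hh - r • v0 u) =
        dot (y - r • V 0) (y - r • V 0) := by
      intro r
      rw [← G.dot_lin, Fr.lin_sub, Fr.lin_smul, hGw, hGv]
    -- the star point `σ e3`
    have hσe : σ • e3 ∈ Y := by
      obtain ⟨i1, -, -, -⟩ := (hring 1).five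
      have hv : dot (L • e3 + s • dd 0 - (L • e3 + s • dd 1))
          (L • e3 + s • dd 0 - (L • e3 + s • dd 1)) ≤ 4 := by
        have e1 : L • e3 + s • dd 0 - (L • e3 + s • dd 1) = s • dd 0 - s • dd 1 := by abel
        have e2 : dot (s • dd 0 - s • dd 1) (s • dd 0 - s • dd 1) = 2 * (1 - i5) * s ^ 2 := by
          simp only [dot_sub_left, dot_sub_right, dot_smul_left, dot_smul_right, dot_dd,
            dot_comm (dd 1) (dd 0), dot_dd01]
          ring
        rw [e1, e2]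
        have e3' : s ^ 2 = 5 / 4 * (hh ^ 2 * x ^ 2) := by
          rw [hs]; linear_combination (25 / 4 * hh ^ 2 * x ^ 2) * hi
        have e4 : hh ^ 2 * x ^ 2 ≤ 0.3723 * t ^ 2 := by
          rw [htx]
          have e5 : x ^ 2 ≤ 0.3723 * (1 + x ^ 2) := by nlinarith only [hx0, hx1]
          have := mul_le_mul_of_nonneg_left e5 (sq_nonneg hh)
          linarith only [this]
        have hs2 : s ^ 2 ≤ 3.27 := by rw [e3']; linarith only [ht2, e4]
        nlinarith only [hs2, hi1, mul_nonneg (sub_nonneg.2 hi1.le) (sq_nonneg s)]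
      have h1 := img_mem (dot_dd 1) i1 (hring 0).mem hv
      have e1 : L • e3 + rot (dd 1) c5 s5 (L • e3 + s • dd 0 - L • e3) = σ • e3 := by
        rw [add_sub_cancel_left, rot_smul, rot_dd_b, hσL]
        apply ext3 <;> simp
        ring
      rw [e1, hGmem, Fr.lin_smul, hGe] at h1
      exact h1
    have hσv : ∀ v ∈ Dr, σ • v ∈ Y := fun v hv =>
      Pool.Agent.Lib.MP_c5a075_co.trans hc.star hτ0 hc.τ_le hσ0.le (by linarith only [hσ2]) e3_mem hv hσe
    refine words_false (X := G.pull Y) (u := u) (x := x) (h := hh) (t := t) hu0 hu1 hx0 hx1 hh0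
      htx ht2 (by rw [← hσ]; exact hdich) ?_ ?_ ?_ ?_ ?_
    · intro z hz hzt
      rw [hGmem] at hz
      apply mem_SigR hCS hCu hSu
      rw [← hG]
      exact hc.clean _ hz (by rw [G.dot_lin]; exact hzt)
    · rw [← hL, ← hs]; exact hring
    · rw [← hσ, hGmem, Fr.lin_smul, hGv]; exact hσv _ (V_mem 0)
    · rw [← hσ, hxh]
      have e1 : dot (σ • v0 u - vec ρ 0 hh) (σ • v0 u - vec ρ 0 hh) =
          dot (vec ρ 0 hh - σ • v0 u) (vec ρ 0 hh - σ • v0 u) := by
        simp only [dot, sub_0, sub_1, sub_2]; ring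
      rw [e1, hvisG]
      exact hvis σ hσ0.le hn1
    · intro hx3
      rw [hxh]
      have hp : 0.555 * σ ≤ s := by
        rw [hs, hσ]
        have : 0.555 * (1 + x / 2 - 5 / 2 * i5 * x) ≤ 5 / 2 * i5 * x := by
          nlinarith only [hx3, hi1, hx0]
        have := mul_le_mul_of_nonneg_left this hh0.le
        linarith only [this]
      have key : ∃ r : ℝ, 0 ≤ r ∧ Ax Y (r • V 0) (V 0) 5 ∧ t ^ 2 + r ^ 2 - 2 * r * m ≤ 4 := by
        rcases le_or_gt σ τ with hστ | hστ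
        · refine ⟨τ, hτ0.le, hc.star _ (V_mem 0), ?_⟩
          have hn2 := cn2 hσ0 ht0 hpar ht2 hp
          rw [← hmd] at hn2
          exact cn3 hn1 hn2 hστ hc.τ_le
        · have hht : hh ≤ t := by
            have : hh ^ 2 ≤ t ^ 2 := by rw [ht]; nlinarith only [hρ0]
            exact le_of_sq_le_sq this ht0.le
          have hvτ : t ^ 2 + τ ^ 2 - 2 * τ * hh ≤ 4 := by
            have h1 := hc.vis
            have e1 : dot (y - τ • e3) (y - τ • e3) = t ^ 2 + τ ^ 2 - 2 * τ * hh := by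
              rw [dot_sub_left, dot_sub_right, dot_sub_right, dot_smul_left, dot_smul_left,
                dot_smul_right, dot_smul_right, dot_e3_e3, hc.norm, dot_e3, e3_dot, hhd]
              ring
            rwa [e1] at h1
          obtain ⟨h1, h2⟩ := cn4 hσ0 ht0 hpar hdich hp hτ0 hστ hht hvτ
          have h3 : StarAx Y σ := oc_all hc.bas hc.clean ht0
            (fun v hv => (hc.star v hv).mem) hσv hτ0 hστ (by linarith only [hσ2]) hc.τ_lt
            (by linarith only [h1]) h2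
          exact ⟨σ, hσ0.le, h3 _ (V_mem 0), hn1⟩
      obtain ⟨r, hr, hax, hrv⟩ := key
      refine ⟨r, ?_, ?_⟩
      · apply G.ax_pull
        rw [hGm, Fr.lin_smul, hGv]; exact hax
      · rw [hvisG]; exact hvis r hr hrv

end

end Pool.Agent.Lib.MP_c5a075_co
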