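import Pool.Agent.Lib.MP_c5a075_co.Star

/-! The hole near the second node: in case A a covering ball cannot be filled. -/

set_option autoImplicit false

namespace Pool.Agent.Lib.MP_c5a075_co

noncomputable section

open Real

/-- The directions of the ring points seen from the second node. -/
def dd (k : ℤ) : E3 := (2 * i5) • W k - i5 • e3

@[simp] lemma dd_0 (k : ℤ) : dd k 0 = 2 * i5 * W k 0 := by simp [dd]
@[simp] lemma dd_1 (k : ℤ) : dd k 1 = 2 * i5 * W k 1 := by simp [dd]
@[simp] lemma dd_2 (k : ℤ) : dd k 2 = -i5 := by simp [dd]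

lemma dot_dd (k : ℤ) : dot (dd k) (dd k) = 1 := by
  have h := W_sq k
  have h5 := i5_sq
  simp only [dot, dd_0, dd_1, dd_2]
  linear_combination (4 * i5 ^ 2) * h + 5 * h5

/-- The cosine of the angle between a vertex and an adjacent face centre. -/
def kap : ℝ := √((1 + 2 * i5) / 3)

lemma kap_sq : kap ^ 2 = (1 + 2 * i5) / 3 := Real.sq_sqrt (by have := i5_pos; positivity)
lemma kap_pos : 0 < kap := Real.sqrt_pos.2 (by have := i5_pos; positivity)

lemma i5_gt : (0.44721:ℝ) < i5 := by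
  have h := i5_sq
  have h1 := i5_pos
  nlinarith
lemma i5_lt : i5 < (0.44722:ℝ) := by
  have h := i5_sq
  have h1 := i5_pos
  nlinarith
lemma kap_gt : (0.79465:ℝ) < kap := by
  have h := kap_sq
  have h1 := kap_pos
  have h2 := i5_gt
  nlinarith
lemma kap_lt : kap < (0.79467:ℝ) := by
  have h := kap_sq
  have h1 := kap_pos
  have h2 := i5_lt
  nlinarith

lemma s5_sq_i5 : s5 ^ 2 = (5 + 5 * i5) / 8 := by rw [s5_sq', c5_eq]; ring

/-- rotations of the ring directions -/
lemma rot_dd_a : rot (dd 0) c5 s5 (-e3) = dd 1 := by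
  have h := i5_sq
  apply ext3
  · rw [rot_0]; simp only [dot, dd_0, dd_1, dd_2, neg_0, neg_1, neg_2, e3_0, e3_1, e3_2, W_zero,
      W_one, vec_0, vec_1]
    rw [c5_eq]; linear_combination (-5 / 2 * i5) * h
  · rw [rot_1]; simp only [dot, dd_0, dd_1, dd_2, neg_0, neg_1, neg_2, e3_0, e3_1, e3_2, W_zero,
      W_one, vec_0, vec_1]
    ring_nf
  · rw [rot_2]; simp only [dot, dd_0, dd_1, dd_2, neg_0, neg_1, neg_2, e3_0, e3_1, e3_2, W_zero,
      vec_0, vec_1]
    rw [c5_eq]; linear_combination (5 / 4 * i5 - 5 / 4) * h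

lemma rot_dd_b : rot (dd 1) c5 s5 (dd 0) = -e3 := by
  have h := i5_sq
  have h2 := s5_sq_i5
  apply ext3
  · rw [rot_0]; simp only [dot, dd_0, dd_1, dd_2, neg_0, neg_1, neg_2, e3_0, e3_1, e3_2, W_zero,
      W_one, vec_0, vec_1]
    rw [c5_eq]
    linear_combination (-125 / 8 * i5 ^ 4 + 75 / 4 * i5 ^ 3 - 25 / 4 * i5 ^ 2 + 15 / 4 * i5 -
      2 * s5 ^ 2 + 5 / 4) * h + (-2 / 5) * h2
  · rw [rot_1]; simp only [dot, dd_0, dd_1, dd_2, neg_0, neg_1, neg_2, e3_0, e3_1, e3_2, W_zero,
      W_one, vec_0, vec_1]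
    rw [c5_eq]
    linear_combination (-25 / 2 * i5 ^ 3 * s5 + 25 / 2 * i5 ^ 2 * s5) * h
  · rw [rot_2]; simp only [dot, dd_0, dd_1, dd_2, neg_0, neg_1, neg_2, e3_0, e3_1, e3_2, W_zero,
      W_one, vec_0, vec_1]
    rw [c5_eq]
    linear_combination (25 / 4 * i5 ^ 3 - 25 / 4 * i5 ^ 2 + 5 / 4 * i5 - 4 * s5 ^ 2 - 5 / 2) * h +
      (-4 / 5) * h2

lemma rot_dd_c : rot (dd 0) c5 (-s5) (dd 1) = -e3 := by
  rw [← rot_dd_a]
  exact rot_inv (dd 0) (dot_dd 0) c5 s5 c5_sq_add _

lemma dot_e3_sub (α c : ℝ) (f : E3) : dot (α • e3 - c • f) (α • e3 - c • f) =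
    α ^ 2 - 2 * α * c * f 2 + c ^ 2 * dot f f := by
  simp only [dot, sub_0, sub_1, sub_2, smul_0, smul_1, smul_2, e3_0, e3_1, e3_2]; ring

lemma dot_dd_e3 (k : ℤ) : dot (dd k) e3 = -i5 := by rw [dot_e3, dd_2]

lemma dot_dd01 : dot (dd 0) (dd 1) = i5 := by
  have h := i5_sq
  simp only [dot, dd_0, dd_1, dd_2, W_zero, W_one, vec_0, vec_1]
  rw [c5_eq]
  linear_combination (5 * i5) * h

/-- The hypotheses of the hole argument. -/
structure HO (X D : Set E3) (t L s c : ℝ) : Prop where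
  sep : ∃ r : ℝ, 0 < r ∧ ∀ x ∈ X, ∀ y ∈ X, x ≠ y → r ≤ dist x y
  cov : ∀ y : E3, ∃ x ∈ X, dist x y ≤ 1
  D1 : ∀ v ∈ D, dot v v = 1
  D2 : ∀ v ∈ D, v = e3 ∨ v = -e3 ∨ v 2 = i5 ∨ v 2 = -i5
  clean : ∀ x ∈ X, dot x x < t ^ 2 → ∃ v ∈ D, ∃ r : ℝ, 0 ≤ r ∧ x = r • v
  trans : ∀ v ∈ D, ∀ r : ℝ, 0 ≤ r → r ≤ 2 → r • v ∈ X → r • e3 ∈ X
  ring : ∀ k : ℤ, Ax X (L • e3 + s • dd k) (dd k) 5
  ht : t ^ 2 = L ^ 2 + s ^ 2 - 2 * i5 * L * s
  hc : c ^ 2 + s ^ 2 - 2 * kap * c * s = 1
  hc1 : 1 ≤ c
  hs : 0 < s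
  hsc : s ≤ kap * c
  hL : 0 < L
  H0 : kap * c < i5 * L
  H1 : L ^ 2 + (c - 1) ^ 2 - 2 * kap * L * (c - 1) < t ^ 2
  H6 : 4 * (i5 * L + (5 * i5 - 2) * kap * c) < 3 + L ^ 2 + c ^ 2 - 2 * kap * L * c
  H7 : i5 * L + (5 * i5 - 2) * kap * c ≤ 2

variable {X D : Set E3} {t L s c : ℝ}

/-- No point of `X` on the axis just below the ring level. -/
lemma HO.low (H : HO X D t L s c) {r : ℝ} (hr : s < r) (hr2 : r ≤ 2 * kap * c - s)
    (hX : (L - r) • e3 ∈ X) : False := by
  have hi := i5_sq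
  have hi1 := i5_gt
  have hi2 := i5_lt
  have hk := kap_sq
  have hk1 := kap_gt
  have hk2 := kap_lt
  have hs := H.hs
  have hL := H.hL
  have hlt : r < 2 * i5 * L - s := by have := H.H0; linarith
  have hr0 : 0 < r := hs.trans hr
  -- visibility
  have hvis : r ^ 2 + s ^ 2 - 2 * i5 * r * s ≤ 4 := by
    obtain ⟨e, he⟩ : ∃ e, e = kap * c - s := ⟨_, rfl⟩
    have he0 : 0 ≤ e := by have := H.hsc; linarith
    have h1 : (s + e) ^ 2 * (1 - kap ^ 2) + kap ^ 2 * e ^ 2 = kap ^ 2 := by
      have := H.hc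
      have h2 : s + e = kap * c := by linarith
      rw [h2]
      have h3 : e ^ 2 = kap ^ 2 * c ^ 2 - 2 * kap * c * s + s ^ 2 := by rw [he]; ring
      rw [h3]
      linear_combination kap ^ 2 * this
    have h4 : r ≤ s + 2 * e := by linarith
    have h5 : r ^ 2 + s ^ 2 - 2 * i5 * r * s ≤ (s + 2 * e) ^ 2 + s ^ 2 - 2 * i5 * (s + 2 * e) * s := by
      have g0 : 2 * i5 * s ≤ s := by nlinarith only [hi2, hs]
      have g1 := mul_nonneg (sub_nonneg.2 h4) (show 0 ≤ (s + 2 * e) + r - 2 * i5 * s by linarith)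
      linarith
    have h6 : kap ^ 2 ≤ 0.6315 := by rw [hk]; linarith
    have h7 : 0.6314 ≤ kap ^ 2 := by rw [hk]; linarith
    have hP : 0 ≤ (s + e) ^ 2 := sq_nonneg _
    have hE : e ^ 2 ≤ 1 := by
      by_contra hcon
      push Not at hcon
      nlinarith only [mul_nonneg hP (show 0 ≤ 1 - kap ^ 2 by linarith),
        mul_pos (show 0 < kap ^ 2 by linarith) (sub_pos.2 hcon), h1]
    have h8 : (s + e) ^ 2 * 0.3685 ≤ 0.6315 * (1 - e ^ 2) := by
      nlinarith only [mul_nonneg hP (show 0 ≤ 1 - kap ^ 2 - 0.3685 by linarith),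
        mul_nonneg (show 0 ≤ 0.6315 - kap ^ 2 by linarith) (sub_nonneg.2 hE), h1]
    have h9 : 0 ≤ s ^ 2 + 2 * s * e := by positivity
    nlinarith only [mul_nonneg (sub_nonneg.2 hi1.le) h9, h8, h5, hE]
  -- rotate about the ring point
  obtain ⟨i1, -, -, -⟩ := (H.ring 0).five
  have hv : dot ((L - r) • e3 - (L • e3 + s • dd 0)) ((L - r) • e3 - (L • e3 + s • dd 0)) =
      r ^ 2 + s ^ 2 - 2 * i5 * r * s := by
    have e1 : (L - r) • e3 - (L • e3 + s • dd 0) = r • (-e3) - s • dd 0 := by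
      apply ext3 <;> simp <;> ring
    rw [e1]
    simp only [dot_sub_left, dot_sub_right, dot_smul_left, dot_smul_right, dot_dd,
      dot_neg_left, dot_neg_right, dot_e3_e3, dot_dd_e3, dot_comm e3 (dd 0)]
    ring
  have h1 := i1 _ (by rw [hv]; exact hvis) (by rw [add_sub_cancel]; exact hX)
  have e2 : L • e3 + s • dd 0 + rot (dd 0) c5 s5 ((L - r) • e3 - (L • e3 + s • dd 0)) =
      L • e3 + r • dd 1 := by
    have e1 : (L - r) • e3 - (L • e3 + s • dd 0) = r • (-e3) - s • dd 0 := by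
      apply ext3 <;> simp <;> ring
    rw [e1, rot_sub, rot_smul, rot_smul, rot_axis _ (dot_dd 0), rot_dd_a]
    abel
  rw [e2] at h1
  have hn : dot (L • e3 + r • dd 1) (L • e3 + r • dd 1) = L ^ 2 + r ^ 2 - 2 * i5 * L * r := by
    simp only [dot_add_left, dot_add_right, dot_smul_left, dot_smul_right, dot_dd,
      dot_e3_e3, dot_dd_e3, dot_comm e3 (dd 1)]
    ring
  obtain ⟨v, hv, ρ, hρ, e3'⟩ := H.clean _ h1 (by
    rw [hn, H.ht]
    nlinarith only [mul_pos (sub_pos.2 hr) (show 0 < 2 * i5 * L - s - r by linarith)])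
  have c0 : 2 * i5 * c5 * r = ρ * v 0 := by
    have := congrArg (fun z : E3 => z 0) e3'
    simp only [add_0, smul_0, e3_0, dd_0, W_one, vec_0] at this
    linarith
  have c1 : 2 * i5 * s5 * r = ρ * v 1 := by
    have := congrArg (fun z : E3 => z 1) e3'
    simp only [add_1, smul_1, e3_1, dd_1, W_one, vec_1] at this
    linarith
  have c2 : L - i5 * r = ρ * v 2 := by
    have := congrArg (fun z : E3 => z 2) e3'
    simp only [add_2, smul_2, e3_2, dd_2] at this
    linarith
  have hs5 := s5_pos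
  have h0 : 0 < 2 * i5 * s5 * r := by positivity
  have hu := H.D1 v hv
  have hu' : v 0 ^ 2 + v 1 ^ 2 + v 2 ^ 2 = 1 := by simp only [dot] at hu; linarith
  have hcc := c5_sq_add
  have hh : (2 * i5 * r) ^ 2 = ρ ^ 2 * (1 - v 2 ^ 2) := by
    have : ρ ^ 2 * (1 - v 2 ^ 2) = (ρ * v 0) ^ 2 + (ρ * v 1) ^ 2 := by rw [← hu']; ring
    rw [this, ← c0, ← c1]
    linear_combination (-(2 * i5 * r) ^ 2) * hcc
  have hiL : i5 ^ 2 * L = 1 / 5 * L := by rw [hi]
  have h2r : 2 * i5 * r < L := by
    have g1 := mul_lt_mul_of_pos_left hlt (show 0 < 2 * i5 by linarith)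
    have g2 : 0 < i5 * s := mul_pos (by linarith) hs
    linarith
  rcases H.D2 v hv with rfl | rfl | h3 | h3
  · rw [e3_1] at c1; linarith
  · rw [neg_1, e3_1] at c1; linarith
  · rw [h3] at c2 hh
    have h4 : ρ ^ 2 = r ^ 2 := by
      rw [hi] at hh
      have : (2 * i5 * r) ^ 2 = 4 / 5 * r ^ 2 := by rw [mul_pow, mul_pow, hi]; ring
      rw [this] at hh; linarith only [hh]
    have h5 : ρ = r := (pow_left_inj₀ hρ hr0.le two_ne_zero).1 h4
    rw [h5] at c2; linarith
  · rw [h3] at c2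
    have g1 : 0 ≤ i5 * ρ := mul_nonneg (by linarith) hρ
    linarith

/-- The dichotomy for a point of the clean ball in a rotated covering ball. -/
lemma HO.ball (H : HO X D t L s c) {f u : E3} (hf : dot f f = 1) (hf2 : f 2 = -kap)
    (hX : L • e3 + u ∈ X) (hn : dot (L • e3 + u) (L • e3 + u) < t ^ 2)
    (h1 : dot (u - c • f) (u - c • f) ≤ 1)
    (h2 : dot (u - c • f) (u - c • f) < 1 ∨ 0 < dot f (u - c • f)) : False := by
  have hi := i5_sq
  have hi1 := i5_gt
  have hi2 := i5_lt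
  have hk := kap_sq
  have hk0 := kap_pos
  have hk1 := kap_gt
  have hk2 := kap_lt
  have hs := H.hs
  have hL := H.hL
  have hc1 := H.hc1
  have hcc := H.hc
  have hsc := H.hsc
  have hH0 := H.H0
  -- the case of a point on the vertical axis
  have vert : ∀ ρ : ℝ, ρ • e3 ∈ X →
      dot ((ρ - L) • e3 - c • f) ((ρ - L) • e3 - c • f) ≤ 1 →
      (dot ((ρ - L) • e3 - c • f) ((ρ - L) • e3 - c • f) < 1 ∨
        0 < dot f ((ρ - L) • e3 - c • f)) → False := by
    intro ρ hρX g1 g2
    have hd : dot ((ρ - L) • e3 - c • f) ((ρ - L) • e3 - c • f) =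
        (L - ρ) ^ 2 + c ^ 2 - 2 * kap * c * (L - ρ) := by
      rw [dot_e3_sub, hf, hf2]; ring
    have hd2 : dot f ((ρ - L) • e3 - c • f) = kap * (L - ρ) - c := by
      simp only [dot_sub_right, dot_smul_right, hf, dot_e3, hf2]
      ring
    rw [hd] at g1 g2
    rw [hd2] at g2
    obtain ⟨r, hr⟩ : ∃ r, r = L - ρ := ⟨_, rfl⟩
    rw [← hr] at g1 g2
    have hprod : (r - s) * (r + s - 2 * kap * c) ≤ 0 := by linarith
    have hsr : s < r := by
      rcases lt_trichotomy s r with h | h | h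
      · exact h
      · exfalso
        rw [← h] at g2
        rcases g2 with g2 | g2
        · linarith
        · have g3 : kap * s ≤ kap * (kap * c) := mul_le_mul_of_nonneg_left hsc hk0.le
          have g4 : kap ^ 2 * c ≤ 0.6315 * c :=
            mul_le_mul_of_nonneg_right (by rw [hk]; linarith) (by linarith)
          linarith
      · exfalso
        have : 0 < (s - r) * (2 * kap * c - r - s) := mul_pos (by linarith) (by linarith)
        linarith
    have hr2 : r ≤ 2 * kap * c - s := by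
      by_contra hcon
      push Not at hcon
      have : 0 < (r - s) * (r + s - 2 * kap * c) := mul_pos (by linarith) (by linarith)
      linarith
    have : L - r = ρ := by linarith
    exact H.low hsr hr2 (by rw [this]; exact hρX)
  obtain ⟨v, hv, r, hr, he⟩ := H.clean _ hX hn
  have hu : u = r • v - L • e3 := by rw [← he]; abel
  rcases H.D2 v hv with hv2 | hv2 | hv2
  · rw [hv2] at hu he
    have hu' : u = (r - L) • e3 := by rw [hu]; apply ext3 <;> simp
    rw [hu'] at h1 h2
    exact vert r (by rw [← he]; exact hX) h1 h2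
  · rw [hv2] at hu he
    have hu' : u = (-r - L) • e3 := by rw [hu]; apply ext3 <;> simp
    rw [hu'] at h1 h2
    exact vert (-r) (by
      have : (-r) • e3 = r • (-e3) := by apply ext3 <;> simp
      rw [this, ← he]; exact hX) h1 h2
  · -- a point on another line
    have hvv := H.D1 v hv
    have hv22 : v 2 ^ 2 = 1 / 5 := by
      rcases hv2 with h | h
      · rw [h, hi]
      · rw [h, neg_sq, hi]
    have hfv : (f 0 * v 0 + f 1 * v 1) ^ 2 ≤ (1 - kap ^ 2) * (4 / 5) := by
      have g1 : f 0 ^ 2 + f 1 ^ 2 = 1 - kap ^ 2 := by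
        have : f 0 * f 0 + f 1 * f 1 + f 2 * f 2 = 1 := hf
        rw [hf2] at this; linarith only [this]
      have g2 : v 0 ^ 2 + v 1 ^ 2 = 4 / 5 := by
        have : v 0 * v 0 + v 1 * v 1 + v 2 * v 2 = 1 := hvv
        linarith only [hv22, this]
      rw [← g1, ← g2]
      nlinarith only [sq_nonneg (f 0 * v 1 - f 1 * v 0)]
    have hm0 : (1 - kap ^ 2) * (4 / 5) = ((6 * i5 - 2) * kap) ^ 2 := by
      rw [mul_pow, hk]
      linear_combination (4 - 24 * i5) * hi
    have hfv' : f 0 * v 0 + f 1 * v 1 ≤ (6 * i5 - 2) * kap := by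
      rw [hm0] at hfv
      exact abs_le_of_sq_le_sq' hfv (mul_nonneg (by linarith) hk0.le) |>.2
    have hq : c * dot f v + L * v 2 ≤ i5 * L + (5 * i5 - 2) * kap * c := by
      have e : dot f v = (f 0 * v 0 + f 1 * v 1) - kap * v 2 := by
        simp only [dot]; rw [hf2]; ring
      rw [e]
      have g1 : c * (f 0 * v 0 + f 1 * v 1) ≤ c * ((6 * i5 - 2) * kap) :=
        mul_le_mul_of_nonneg_left hfv' (by linarith)
      have g2 : i5 * (kap * c) ≤ i5 * L := mul_le_mul_of_nonneg_left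
        (by have : i5 * L ≤ 1 * L := mul_le_mul_of_nonneg_right (by linarith) hL.le
            linarith) (by linarith)
      rcases hv2 with h | h
      · rw [h]; linarith
      · rw [h]; linarith
    -- distance of the ball centre
    have hdist : dot (u - c • f) (u - c • f) = r ^ 2 - 2 * r * (c * dot f v + L * v 2) +
        (L ^ 2 + c ^ 2 - 2 * kap * L * c) := by
      have e : dot (r • v - L • e3 - c • f) (r • v - L • e3 - c • f) = r ^ 2 * dot v v + L ^ 2 +
          c ^ 2 * dot f f - 2 * r * L * v 2 - 2 * r * c * dot f v + 2 * L * c * f 2 := by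
        simp only [dot, sub_0, sub_1, sub_2, smul_0, smul_1, smul_2, e3_0, e3_1, e3_2]; ring
      rw [hu, e, hvv, hf, hf2]; ring
    rcases hr.eq_or_lt with h0 | h0
    · -- the origin
      rw [← h0, zero_smul] at he
      have hu' : u = (0 - L) • e3 := by
        rw [hu, ← h0]; apply ext3 <;> simp
      rw [hu'] at h1 h2
      exact vert 0 (by rw [zero_smul, ← he]; exact hX) h1 h2
    · obtain ⟨m, hm⟩ : ∃ m, m = i5 * L + (5 * i5 - 2) * kap * c := ⟨_, rfl⟩
      rw [← hm] at hq
      have h6 := H.H6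
      have h7 := H.H7
      rw [← hm] at h6 h7
      have g1 : r ^ 2 - 2 * r * m + (L ^ 2 + c ^ 2 - 2 * kap * L * c) ≤ 1 := by
        rw [hdist] at h1
        have := mul_le_mul_of_nonneg_left hq hr
        linarith
      have hr2 : r ≤ 2 := by
        by_contra hcon
        push Not at hcon
        have g2 := mul_pos (sub_pos.2 hcon) (show 0 < r + 2 - 2 * m by linarith)
        linarith
      have hmL : m < L - kap * c := by
        have hiL : i5 ^ 2 * L = 1 / 5 * L := by rw [hi]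
        have g2 := mul_pos (show 0 < 5 * i5 - 1 by linarith) (sub_pos.2 hH0)
        rw [hm]; linarith
      have g2 : dot ((r - L) • e3 - c • f) ((r - L) • e3 - c • f) < 1 := by
        have hd : dot ((r - L) • e3 - c • f) ((r - L) • e3 - c • f) =
            (L - r) ^ 2 + c ^ 2 - 2 * kap * c * (L - r) := by
          rw [dot_e3_sub, hf, hf2]; ring
        rw [hd]
        have := mul_lt_mul_of_pos_left hmL h0
        linarith
      exact vert r (H.trans v hv r hr hr2 (by rw [← he]; exact hX)) g2.le (Or.inl g2)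

/-- The hole near the second node cannot be filled. -/
theorem holeO (H : HO X D t L s c) : False := by
  have hi := i5_sq
  have hi1 := i5_gt
  have hi2 := i5_lt
  have hk := kap_sq
  have hk0 := kap_pos
  have hk1 := kap_gt
  have hk2 := kap_lt
  have hs := H.hs
  have hL := H.hL
  have hc1 := H.hc1
  have hcc := H.hc
  obtain ⟨f, hf⟩ : ∃ f : E3, f = (1 / (3 * kap)) • (-e3 + dd 0 + dd 1) := ⟨_, rfl⟩
  have hfe : dot f (-e3) = kap := by
    rw [hf]
    simp only [dot_smul_left, dot_add_left, dot_neg_left, dot_neg_right, dot_e3_e3, dot_dd_e3]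
    field_simp
    rw [hk]; ring
  have hf0 : dot f (dd 0) = kap := by
    rw [hf]
    simp only [dot_smul_left, dot_add_left, dot_neg_left, dot_comm e3 (dd 0), dot_dd_e3, dot_dd,
      dot_comm (dd 1) (dd 0), dot_dd01]
    field_simp
    rw [hk]; ring
  have hf1 : dot f (dd 1) = kap := by
    rw [hf]
    simp only [dot_smul_left, dot_add_left, dot_neg_left, dot_comm e3 (dd 1), dot_dd_e3, dot_dd,
      dot_dd01]
    field_simp
    rw [hk]; ring
  have hff : dot f f = 1 := by
    have : dot f f = (1 / (3 * kap)) * (dot f (-e3) + dot f (dd 0) + dot f (dd 1)) := by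
      conv_lhs => rw [hf]
      rw [dot_smul_left, dot_comm, ← hf, dot_add_right, dot_add_right]
    rw [this, hfe, hf0, hf1]
    field_simp
    norm_num
  have hfn : f ≠ 0 := by
    intro h; rw [h] at hff; simp [dot] at hff
  have hf2 : f 2 = -kap := by
    rw [dot_neg_right, dot_e3] at hfe; linarith
  obtain ⟨y, hy, hy1, hy2⟩ := cov_dir H.sep H.cov (L • e3 + c • f) f hfn
  obtain ⟨u, hu⟩ : ∃ u, u = y - L • e3 := ⟨_, rfl⟩
  have hyu : y = L • e3 + u := by rw [hu]; abel
  have e1 : y - (L • e3 + c • f) = u - c • f := by rw [hu]; abel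
  rw [e1] at hy1 hy2
  rw [hyu] at hy
  -- the three images
  have hsum : dot (u - L • (-e3)) (u - L • (-e3)) + dot (u - L • dd 0) (u - L • dd 0) +
      dot (u - L • dd 1) (u - L • dd 1) < 3 * t ^ 2 := by
    have g1 : dot (u - L • (-e3)) (u - L • (-e3)) + dot (u - L • dd 0) (u - L • dd 0) +
        dot (u - L • dd 1) (u - L • dd 1) = 3 * (dot u u + L ^ 2) - 6 * kap * L * dot f u := by
      have g2 : dot (-e3) u + dot (dd 0) u + dot (dd 1) u = 3 * kap * dot f u := by
        rw [hf, dot_smul_left, dot_add_left, dot_add_left]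
        field_simp
      simp only [dot_sub_left, dot_sub_right, dot_smul_left, dot_smul_right, dot_comm u,
        dot_dd]
      have : dot (-e3) (-e3) = 1 := by rw [dot_neg_left, dot_neg_right, neg_neg]; exact dot_e3_e3
      rw [this]
      linear_combination (-2 * L) * g2
    have g3 : dot (u - c • f) (u - c • f) = dot u u + c ^ 2 - 2 * c * dot f u := by
      simp only [dot_sub_left, dot_sub_right, dot_smul_left, dot_smul_right, dot_comm u,
        hff]
      ring
    rw [g1]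
    rw [g3] at hy1
    have g4 : dot f u ^ 2 ≤ dot u u := by have := dot_sq_le f u; rwa [hff, one_mul] at this
    have g5 : c - 1 ≤ dot f u := by
      by_contra hcon
      push Not at hcon
      nlinarith only [mul_pos (show 0 < c - 1 - dot f u by linarith)
        (show 0 < c + 1 - dot f u by linarith), hy1, g4]
    have g6 : c < kap * L := by
      by_contra hcon
      push Not at hcon
      have g7 := mul_le_mul_of_nonneg_left hcon hk0.le
      have g8 : 0.6314 * L ≤ kap ^ 2 * L := mul_le_mul_of_nonneg_right (by rw [hk]; linarith) hL.le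
      have g9 : i5 * L ≤ 0.5 * L := mul_le_mul_of_nonneg_right (by linarith) hL.le
      have := H.H0
      linarith
    have g7 := H.H1
    have g8 := mul_nonneg (sub_nonneg.2 g5) (sub_nonneg.2 g6.le)
    linarith
  have hone : dot (u - L • (-e3)) (u - L • (-e3)) < t ^ 2 ∨
      dot (u - L • dd 0) (u - L • dd 0) < t ^ 2 ∨ dot (u - L • dd 1) (u - L • dd 1) < t ^ 2 := by
    by_contra hcon
    push Not at hcon
    linarith [hcon.1, hcon.2.1, hcon.2.2]
  -- visibility from a ring point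
  have hvis : ∀ k : ℤ, dot f (dd k) = kap →
      dot (u - s • dd k) (u - s • dd k) ≤ 4 := by
    intro k hk'
    have g1 : dot (c • f - s • dd k) (c • f - s • dd k) = 1 := by
      simp only [dot_sub_left, dot_sub_right, dot_smul_left, dot_smul_right, hff, dot_dd,
        dot_comm (dd k) f, hk']
      linarith
    have g2 : u - s • dd k = (u - c • f) + (c • f - s • dd k) := by abel
    rw [g2]
    have g3 := dot_self_nonneg ((u - c • f) - (c • f - s • dd k))
    simp only [dot_sub_left, dot_sub_right, dot_add_left, dot_add_right] at g1 g3 hy1 ⊢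
    linarith
  -- a rotation about a ring point
  have rotate : ∀ (j : ℤ) (a : E3) (σ : ℝ), c5 ^ 2 + σ ^ 2 = 1 → dot f (dd j) = kap →
      Inv X (L • e3 + s • dd j) (dd j) c5 σ → rot (dd j) c5 σ a = -e3 → dot f a = kap →
      dot (u - L • a) (u - L • a) < t ^ 2 → False := by
    intro j a σ hσ hj hinv ha hfa hlt
    have g1 := hinv (u - s • dd j) (hvis j hj) (by
      have : L • e3 + s • dd j + (u - s • dd j) = L • e3 + u := by abel
      rw [this]; exact hy)
    have g2 : L • e3 + s • dd j + rot (dd j) c5 σ (u - s • dd j) = L • e3 + rot (dd j) c5 σ u := by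
      rw [rot_sub, rot_smul_axis _ (dot_dd j)]; abel
    rw [g2] at g1
    refine H.ball (f := rot (dd j) c5 σ f) (u := rot (dd j) c5 σ u) ?_ ?_ g1 ?_ ?_ ?_
    · rw [dot_rot_rot _ (dot_dd j) _ _ hσ]; exact hff
    · have : dot (rot (dd j) c5 σ f) (-e3) = kap := by
        rw [← ha, dot_rot_rot _ (dot_dd j) _ _ hσ]; exact hfa
      rw [dot_neg_right, dot_e3] at this; linarith
    · have : L • e3 + rot (dd j) c5 σ u = rot (dd j) c5 σ (u - L • a) := by
        rw [rot_sub, rot_smul, ha]; apply ext3 <;> simp; ring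
      rw [this, dot_rot_rot _ (dot_dd j) _ _ hσ]; exact hlt
    · rw [← rot_smul, ← rot_sub, dot_rot_rot _ (dot_dd j) _ _ hσ]; exact hy1
    · rw [← rot_smul, ← rot_sub, dot_rot_rot _ (dot_dd j) _ _ hσ,
        dot_rot_rot _ (dot_dd j) _ _ hσ]; exact hy2
  rcases hone with h | h | h
  · refine H.ball hff hf2 hy ?_ hy1 hy2
    have : L • e3 + u = u - L • (-e3) := by apply ext3 <;> simp; ring
    rw [this]; exact h
  · obtain ⟨i1, -, -, -⟩ := (H.ring 1).five
    exact rotate 1 (dd 0) s5 c5_sq_add hf1 i1 rot_dd_b hf0 h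
  · obtain ⟨-, i2, -, -⟩ := (H.ring 0).five
    exact rotate 0 (dd 1) (-s5) (by rw [neg_sq]; exact c5_sq_add) hf0 i2 rot_dd_c hf1 h

end

end Pool.Agent.Lib.MP_c5a075_co
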