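import Pool.Agent.Lib.MP_c5a075_co.Inv
import Pool.Agent.Lib.MP_c5a075_co.HoleO

/-! Case A: normalisation of the configuration, the ring, the ring frame. -/

set_option autoImplicit false

namespace Pool.Agent.Lib.MP_c5a075_co

noncomputable section

open Real

lemma Sym.lin_co' {F : Fr} (h : Sym F) (v : E3) : F.lin (F.co v) = v := F.lin_co v

lemma dot_co (F : Fr) (u v : E3) : dot (F.co u) v = dot u (F.lin v) := by
  rw [← F.dot_lin, F.lin_co]

lemma dot_co_co (F : Fr) (u v : E3) : dot (F.co u) (F.co v) = dot u v := by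
  rw [dot_co, F.lin_co]

lemma co_smul (F : Fr) (r : ℝ) (v : E3) : F.co (r • v) = r • F.co v :=
  co_inj F (by rw [F.lin_co, F.lin_smul, F.lin_co])

lemma co_sub (F : Fr) (u v : E3) : F.co (u - v) = F.co u - F.co v :=
  co_inj F (by rw [F.lin_co, F.lin_sub, F.lin_co, F.lin_co])

/-- Pulling a configuration back along a symmetry fixing `e3`. -/
lemma Cfg.pull {X : Set E3} {t τ : ℝ} {w : E3} (h : Cfg X t τ w) {F : Fr} (hF : Sym F)
    (he : F.lin e3 = e3) : Cfg (F.pull X) t τ (F.co w) := by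
  have hce : F.co e3 = e3 := co_inj F (by rw [F.lin_co, he])
  have h2 : (F.co w) 2 = w 2 := by rw [← dot_e3, dot_co, he, dot_e3]
  exact
  { bas := hF.bas h.bas
    clean := hF.clean h.clean
    t_pos := h.t_pos
    t_le := h.t_le
    τ_pos := h.τ_pos
    τ_lt := h.τ_lt
    τ_le := h.τ_le
    star := hF.starAx h.star
    mem := by rw [F.mem_pull, hF.map, F.lin_co]; exact h.mem
    norm := by rw [dot_co_co]; exact h.norm
    off := fun hm => h.off (by rw [← F.lin_co w]; exact (hF.Sig_iff _).2 hm)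
    near := fun v hv => by rw [dot_co, h2]; exact h.near _ (hF.maps v hv)
    vis := by
      have e : F.co w - τ • e3 = F.co (w - τ • e3) := by rw [co_sub, co_smul, hce]
      rw [e, dot_co_co]; exact h.vis }

lemma rotFr_mul (k : ℤ) (w : E3) :
    rot e3 (cos (k * (2 * π / 5))) (sin (k * (2 * π / 5))) w = (rotFr k).lin w := by
  rw [rot_e3, rotFr_lin]

/-- The ring of a configuration. -/
lemma Cfg.ring_mem {X : Set E3} {t τ : ℝ} {w : E3} (h : Cfg X t τ w) (k : ℤ) :
    (rotFr k).lin w ∈ X := by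
  have h1 := (h.star e3 e3_mem).pow k
  have e : (k : ℝ) * (2 * π / (5 : ℕ)) = k * (2 * π / 5) := by push_cast; ring
  rw [e] at h1
  have h2 := h1 (w - τ • e3) h.vis (by rw [add_sub_cancel]; exact h.mem)
  have e2 : τ • e3 + rot e3 (cos (k * (2 * π / 5))) (sin (k * (2 * π / 5))) (w - τ • e3) =
      (rotFr k).lin w := by
    rw [rot_sub, rot_smul_axis _ dot_e3_e3, rotFr_mul]; abel
  rwa [e2] at h2

lemma Cfg.ring {X : Set E3} {t τ : ℝ} {w : E3} (h : Cfg X t τ w) (k : ℤ) :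
    Cfg X t τ ((rotFr k).lin w) := by
  have h2 : ((rotFr k).lin w) 2 = w 2 := by rw [rotFr_lin]; rfl
  exact
  { bas := h.bas
    clean := h.clean
    t_pos := h.t_pos
    t_le := h.t_le
    τ_pos := h.τ_pos
    τ_lt := h.τ_lt
    τ_le := h.τ_le
    star := h.star
    mem := h.ring_mem k
    norm := by rw [Fr.dot_lin]; exact h.norm
    off := fun hm => h.off (((sym_rot k).Sig_iff _).1 hm)
    near := fun v hv => by
      rw [h2, dot_comm, ← dot_co, dot_comm]; exact h.near _ ((sym_rot k).comaps v hv)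
    vis := by
      have e : (rotFr k).lin w - τ • e3 = (rotFr k).lin (w - τ • e3) := by
        rw [Fr.lin_sub, Fr.lin_smul, rotFr_e3]
      rw [e, Fr.dot_lin]; exact h.vis }

/-- Normalisation of the azimuth of `w`. -/
lemma Cfg.normalize {X : Set E3} {t τ : ℝ} {w : E3} (h : Cfg X t τ w) :
    ∃ (Y : Set E3) (y : E3), Cfg Y t τ y ∧ 0 ≤ y 1 ∧ s5 * y 1 ≤ (1 - c5) * y 0 := by
  obtain ⟨k, hk⟩ : ∃ k : ℤ, ∀ j : ℤ, w 0 * W j 0 + w 1 * W j 1 ≤ w 0 * W k 0 + w 1 * W k 1 := by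
    obtain ⟨k, -, hk⟩ := Finset.exists_max_image ({0, 1, -1, 2, -2} : Finset ℤ)
      (fun j => w 0 * W j 0 + w 1 * W j 1) ⟨0, by simp⟩
    refine ⟨k, fun j => ?_⟩
    rcases W_cases j with e | e | e | e | e <;> rw [e] <;> exact hk _ (by simp)
  have h1 := h.pull (sym_rot k) (rotFr_e3 k)
  obtain ⟨y, hy⟩ : ∃ y, y = (rotFr k).co w := ⟨_, rfl⟩
  rw [← hy] at h1
  have h2 : ∀ j : ℤ, y 0 * W j 0 + y 1 * W j 1 = w 0 * W (k + j) 0 + w 1 * W (k + j) 1 := by
    intro j
    have e : dot y (W j) = dot w (W (k + j)) := by rw [hy, dot_co, rotFr_W]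
    simp only [dot, W_2] at e
    linarith
  have h3 : ∀ j : ℤ, y 0 * W j 0 + y 1 * W j 1 ≤ y 0 := by
    intro j
    have e0 := h2 0
    have e1 := h2 j
    have e2 := hk (k + j)
    rw [W_zero, vec_0, vec_1, add_zero] at e0
    linarith
  have a1 := h3 1
  have a2 := h3 (-1)
  rw [W_one, vec_0, vec_1] at a1
  rw [W_neg_one, vec_0, vec_1] at a2
  rcases le_total 0 (y 1) with h4 | h4
  · exact ⟨_, y, h1, h4, by linarith⟩
  · have h5 := h1.pull sym_refl reflFr_e3
    have e : reflFr.co y = reflFr.lin y :=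
      co_inj reflFr (by rw [Fr.lin_co, reflFr_lin, reflFr_lin]; apply ext3 <;> simp)
    rw [e] at h5
    refine ⟨_, _, h5, ?_, ?_⟩
    · rw [reflFr_lin]; simp only [vec_1]; linarith
    · rw [reflFr_lin]; simp only [vec_0, vec_1]; linarith

/-- The frame rotated about the vertical axis. -/
def zFr (C S : ℝ) (h : C ^ 2 + S ^ 2 = 1) : Fr where
  o := 0
  f1 := vec C S 0
  f2 := vec (-S) C 0
  f3 := e3
  σ := 1
  h11 := by simp only [dot, vec_0, vec_1, vec_2]; linarith
  h22 := by simp only [dot, vec_0, vec_1, vec_2]; linarith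
  h33 := dot_e3_e3
  h12 := by simp only [dot, vec_0, vec_1, vec_2]; ring
  h13 := by simp [dot]
  h23 := by simp [dot]
  hσ := Or.inl rfl
  hc := by
    apply ext3
    · simp
    · simp
    · simp only [cross_2, vec_0, vec_1, smul_2, e3_2]; linarith

lemma zFr_lin {C S : ℝ} (h : C ^ 2 + S ^ 2 = 1) (v : E3) :
    (zFr C S h).lin v = vec (C * v 0 - S * v 1) (S * v 0 + C * v 1) (v 2) := by
  apply ext3 <;> simp [Fr.lin, zFr] <;> ring

lemma zFr_map {C S : ℝ} (h : C ^ 2 + S ^ 2 = 1) (v : E3) :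
    (zFr C S h).map v = (zFr C S h).lin v := by
  rw [Fr.map]; exact zero_add _

lemma zFr_e3 {C S : ℝ} (h : C ^ 2 + S ^ 2 = 1) : (zFr C S h).lin e3 = e3 := by
  rw [zFr_lin]; apply ext3 <;> simp

lemma zFr_rot {C S : ℝ} (h : C ^ 2 + S ^ 2 = 1) (k : ℤ) (v : E3) :
    (zFr C S h).lin ((rotFr k).lin v) = (rotFr k).lin ((zFr C S h).lin v) := by
  rw [zFr_lin, zFr_lin, rotFr_lin, rotFr_lin]
  apply ext3
  · simp only [vec_0, vec_1]; ring
  · simp only [vec_0, vec_1]; ring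
  · simp only [vec_2]

lemma rotFr_dd (k j : ℤ) : (rotFr k).lin (dd j) = dd (k + j) := by
  rw [dd, Fr.lin_sub, Fr.lin_smul, Fr.lin_smul, rotFr_W, rotFr_e3]; rfl

end

end Pool.Agent.Lib.MP_c5a075_co
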