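import Pool.Agent.Lib.MP_c5a075_co.TubeX
import Pool.Agent.Lib.MP_c5a075_co.I5

/-! Regime B: the centre of the node is a point of `X`. -/

set_option autoImplicit false

namespace Pool.Agent.Lib.MP_c5a075_co

noncomputable section

open Real

lemma cb_rho {μ τ σ : ℝ} (hσ : σ = 1 ∨ σ = -1) :
    rho2 ((rotFr 0).lin (vec (2 * σ * i5) 0 i5)) (vec 0 0 τ - μ • W 0) = 4 / 5 * (τ + σ * μ / 2) ^ 2 := by
  have hs : (rotFr 0).lin (vec (2 * σ * i5) 0 i5) = vec (2 * σ * i5) 0 i5 := by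
    rw [rotFr_lin]; apply ext3 <;> simp
  have h5 := i5_sq
  have hσσ : σ ^ 2 = 1 := by rcases hσ with h | h <;> rw [h] <;> norm_num
  rw [hs, W_zero]
  simp only [rho2, dot, sub_0, sub_1, sub_2, smul_0, smul_1, smul_2, vec_0, vec_1, vec_2]
  linear_combination (-(τ ^ 2) + 4 * σ * μ * τ - 4 * σ ^ 2 * μ ^ 2) * h5 - μ ^ 2 * hσσ

/-- Points of `X` on the vertical axis, seen from `w_0`. -/
lemma cb_axis {X : Set E3} {μ σ : ℝ} (H : Tube X 0 20 μ) (hμ : μ ≤ 1.7) (hσ : σ = 1 ∨ σ = -1)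
    (star : Ax X (μ • W 0) ((rotFr 0).lin (vec (2 * σ * i5) 0 i5)) 5) {τ : ℝ} (hτ : vec 0 0 τ ∈ X) (hv : τ ^ 2 + μ ^ 2 ≤ 4) :
    τ + σ * μ / 2 = 0 ∨ 5 / 4 * ((1 - 1 / 1000000) * μ ^ 2) ≤ (τ + σ * μ / 2) ^ 2 := by
  have hμ1 := H.μ_ge
  have hμ4 : μ ^ 2 ≤ 2.89 := by nlinarith only [hμ, hμ1]
  have hd0 := dist_sW (μ := μ) (by linarith) 0
  have hd : dot (vec 0 0 τ - μ • W 0) (vec 0 0 τ - μ • W 0) = τ ^ 2 + μ ^ 2 := by
    rw [W_zero]
    simp only [dot, sub_0, sub_1, sub_2, smul_0, smul_1, smul_2, vec_0, vec_1, vec_2]; ring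
  rcases H.tube _ _ 5 star (by linarith) _ hτ (by rw [hd]; exact hv) with h | h
  · left
    rw [cb_rho hσ] at h
    have h2 : (τ + σ * μ / 2) ^ 2 = 0 := by linarith
    exact pow_eq_zero_iff (two_ne_zero) |>.1 h2
  · right
    rw [cb_rho hσ] at h
    linarith

lemma cb_num1 {μ s z : ℝ} (hμ1 : 1.0566 ≤ μ) (hs0 : 0 < s) (hs : s ≤ 2 * z)
    (hz : z ^ 2 = 1 - (μ - 1 - 0.00001) ^ 2)
    (h : 5 / 4 * ((1 - 1 / 1000000) * μ ^ 2) ≤ s ^ 2) : μ ≤ 1.525 := by
  have h1 : s ^ 2 ≤ (2 * z) ^ 2 := pow_le_pow_left₀ hs0.le hs 2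
  have h2 : (2 * z) ^ 2 = 4 * z ^ 2 := by ring
  rw [h2, hz] at h1
  by_contra hcon
  push Not at hcon
  nlinarith only [h1, h, hcon, hμ1]

/-- bounds from a large square -/
lemma cb_num2 {μ t : ℝ} (hμ0 : 0 < μ) (h : 5 / 4 * ((1 - 1 / 1000000) * μ ^ 2) ≤ t ^ 2) :
    1.1179 * μ ≤ |t| := by
  apply le_of_sq_le_sq _ (abs_nonneg _)
  rw [sq_abs]
  have : 0 ≤ μ ^ 2 := sq_nonneg μ
  have e : (1.1179 * μ) ^ 2 = 1.24970041 * μ ^ 2 := by ring
  rw [e]; linarith

lemma cb_num3 {μ s z : ℝ} (hμ1 : 1.0566 ≤ μ) (hμ : μ ≤ 1.7) (hz0 : 0 < z)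
    (hz : z ^ 2 = 1 - (μ - 1 - 0.00001) ^ 2) (hs0 : 0 < s) (hs : s ≤ 2 * z) :
    (-(μ / 2) + s) ^ 2 + μ ^ 2 ≤ 4 := by
  -- `z ≤ 1 - t²/2` with `t = μ - 1 - δ`
  have hz1 : z ≤ 1 - (μ - 1 - 0.00001) ^ 2 / 2 := by
    apply le_of_sq_le_sq _ (by nlinarith only [hμ1, hμ])
    rw [hz]
    nlinarith only [sq_nonneg ((μ - 1 - 0.00001) ^ 2)]
  have h1 : -(μ / 2) + s ≤ 2 * z - μ / 2 := by linarith
  have h2 : -0.85 ≤ -(μ / 2) + s := by linarith
  obtain ⟨t, ht⟩ : ∃ t, t = μ - 1 - 0.00001 := ⟨_, rfl⟩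
  rw [← ht] at hz hz1
  have hμt : μ = t + 1.00001 := by linarith
  have ht0 : 0.05 ≤ t := by linarith
  have ht1 : t ≤ 0.7 := by linarith
  obtain ⟨q, hq⟩ : ∃ q, q = -(μ / 2) + s := ⟨_, rfl⟩
  rw [← hq] at h1 h2 ⊢
  have h3 : q ≤ 2 * (1 - t ^ 2 / 2) - μ / 2 := by linarith
  have h4 : q ≤ 1.5 - t ^ 2 - t / 2 := by linarith
  have h5 : q ^ 2 ≤ 0.7225 ∨ q ^ 2 ≤ (1.5 - t ^ 2 - t / 2) ^ 2 := by
    rcases le_total q 0 with h | h
    · left; nlinarith only [h, h2]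
    · right; exact pow_le_pow_left₀ h h4 2
  rcases h5 with h5 | h5
  · rw [hμt]; nlinarith only [h5, ht0, ht1]
  · have h6 : (1.5 - t ^ 2 - t / 2) ^ 2 + (t + 1.00001) ^ 2 ≤ 4 := by
      have h7 : 0 ≤ t ^ 2 := sq_nonneg t
      have h8 : t ^ 2 * t ≤ t ^ 2 * 0.7 := mul_le_mul_of_nonneg_left ht1 h7
      have h9 : t ^ 2 * t ^ 2 ≤ t ^ 2 * 0.49 :=
        mul_le_mul_of_nonneg_left (by nlinarith only [ht0, ht1]) h7
      have e : (1.5 - t ^ 2 - t / 2) ^ 2 + (t + 1.00001) ^ 2 =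
        t ^ 2 * t ^ 2 + t ^ 2 * t - 1.75 * t ^ 2 + 0.50002 * t + 3.2500200001 := by ring
      rw [e]
      nlinarith only [h8, h9, sq_nonneg (t - 0.45)]
    rw [hμt]; linarith

/-- B3: the centre of the node is a point of `X`. -/
theorem centreB' {X : Set E3} {μ h σ : ℝ} (H : Tube X 0 20 μ) (hμ : μ ≤ 1.7) (h0 : 0 ≤ h)
    (hh : μ ^ 2 + h ^ 2 ≤ 4) (hx : Ax X (vec 0 0 (-h)) (vec 0 0 1) 5) (hσ : σ = 1 ∨ σ = -1)
    (star : ∀ k : ℤ, Ax X (μ • W k) ((rotFr k).lin (vec (2 * σ * i5) 0 i5)) 5) :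
    μ ≤ 1.525 ∧ vec 0 0 (-(σ * μ / 2)) ∈ X := by
  have hμ1 := H.μ_ge
  have hμ0 : 0 < μ := by linarith
  have hM : 1.116 ≤ μ ^ 2 := by nlinarith only [hμ1]
  -- the gap numbers
  obtain ⟨z, hz⟩ : ∃ z, z = √(1 - (μ - 1 - 0.00001) ^ 2) := ⟨_, rfl⟩
  have hr : (μ - 1 - 0.00001) ^ 2 ≤ 0.49 := by nlinarith only [hμ1, hμ]
  have hz2 : z ^ 2 = 1 - (μ - 1 - 0.00001) ^ 2 := by
    rw [hz, Real.sq_sqrt (by linarith)]
  have hz0 : 0 < z := by rw [hz]; exact Real.sqrt_pos.2 (by linarith)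
  have hz1 : z ≤ 1 := by
    apply le_of_sq_le_sq _ (by norm_num)
    linarith [sq_nonneg (μ - 1 - 0.00001)]
  have hgap : ∀ (t : ℝ) (m : ℕ), Ax X (vec 0 0 t) (vec 0 0 1) m → t ^ 2 ≤ 4 →
      ∃ s : ℝ, 0 < s ∧ s ≤ 2 * z ∧ vec 0 0 (t + s) ∈ X := by
    intro t m ht ht4
    obtain ⟨s, hs0, hs1, hs2⟩ := H.gap ht (by linarith [dist_vz ht4])
      (r := μ - 1 - 0.00001) (z := z) (by linarith) hz0 (by linarith)
      (by nlinarith only [hμ1, hμ])
    refine ⟨s, hs0, hs1, ?_⟩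
    have : vec 0 0 t + s • vec 0 0 1 = vec 0 0 (t + s) := by apply ext3 <;> simp
    rw [← this]; exact hs2
  have hst := star 0
  rcases hσ with hσ1 | hσ1
  · -- base below, star lines meeting below
    rw [hσ1] at hst ⊢
    have h1 := cb_axis H hμ (Or.inl rfl) hst hx.mem (by rw [neg_sq]; linarith)
    have h2 : h = μ / 2 := by
      rcases h1 with h1 | h1
      · linarith
      · exfalso
        have h3 := cb_num2 hμ0 h1
        rcases le_total 0 (-h + 1 * μ / 2) with h4 | h4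
        · rw [abs_of_nonneg h4] at h3; linarith
        · rw [abs_of_nonpos h4] at h3
          have h5 : 1.6179 * μ ≤ h := by linarith
          have h6 := pow_le_pow_left₀ (by positivity) h5 2
          nlinarith only [h6, hh, hM]
    have hO : vec 0 0 (-(1 * μ / 2)) = vec 0 0 (-h) := by rw [h2, one_mul]
    refine ⟨?_, by rw [hO]; exact hx.mem⟩
    obtain ⟨s, hs0, hs1, hs2⟩ := hgap (-h) 5 hx (by rw [neg_sq]; linarith)
    have h3 : (-h + s) ^ 2 + μ ^ 2 ≤ 4 := by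
      rw [h2]; exact cb_num3 hμ1 hμ hz0 hz2 hs0 hs1
    rcases cb_axis H hμ (Or.inl rfl) hst hs2 h3 with h4 | h4
    · exfalso; linarith
    · have h5 : -h + s + 1 * μ / 2 = s := by linarith
      rw [h5] at h4
      exact cb_num1 hμ1 hs0 hs1 hz2 h4
  · rw [hσ1] at hst ⊢
    obtain ⟨h₀, m, hh0, hh1, hx0, hmax⟩ := top_aligned H.sep h0 hx
    have hh' : μ ^ 2 + h₀ ^ 2 ≤ 4 := by
      have := pow_le_pow_left₀ hh0 hh1 2
      linarith
    have h1' : 5 / 4 * ((1 - 1 / 1000000) * μ ^ 2) ≤ (-h₀ + -1 * μ / 2) ^ 2 := by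
      rcases cb_axis H hμ (Or.inr rfl) hst hx0.mem (by rw [neg_sq]; linarith) with h1 | h1
      · exfalso; linarith
      · exact h1
    have h1 : 0.6179 * μ ≤ h₀ := by
      have h3 := cb_num2 hμ0 h1'
      rw [abs_of_nonpos (by linarith)] at h3
      linarith
    obtain ⟨s, hs0, hs1, hs2⟩ := hgap (-h₀) m hx0 (by rw [neg_sq]; linarith)
    obtain ⟨τ, hτ⟩ : ∃ τ, τ = -h₀ + s := ⟨_, rfl⟩
    rw [← hτ] at hs2
    by_cases hvis : τ ^ 2 + μ ^ 2 ≤ 4
    · rcases cb_axis H hμ (Or.inr rfl) hst hs2 hvis with h4 | h4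
      · have h5 : τ = μ / 2 := by linarith
        have h6 : -(-1 * μ / 2) = τ := by linarith
        refine ⟨?_, by rw [h6]; exact hs2⟩
        apply cb_num1 hμ1 hs0 hs1 hz2
        have h7 : s ^ 2 = (-h₀ + -1 * μ / 2) ^ 2 := by
          have : s = h₀ + μ / 2 := by linarith
          rw [this]; ring
        rw [h7]; exact h1'
      · exfalso
        have h5 := cb_num2 hμ0 h4
        rcases le_total 0 (τ + -1 * μ / 2) with h6 | h6
        · rw [abs_of_nonneg h6] at h5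
          linarith
        · rw [abs_of_nonpos h6] at h5
          have h7 : τ ≤ -(0.6179 * μ) := by linarith
          -- `y` is below the ring plane and above `x0`, so not aligned
          have hτ4 : τ ^ 2 ≤ 4 := by linarith
          obtain ⟨b, n, hb⟩ := H.bad _ hs2 (by linarith [dist_vz hτ4])
          have hbu := hb.unit
          have he3 : dot (vec 0 0 1) (vec 0 0 1) = 1 := by simp [dot]
          have hxy : vec 0 0 (-h₀) - vec 0 0 τ = (-s) • vec 0 0 1 := by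
            rw [hτ]; apply ext3 <;> simp <;> ring
          have hrho : rho2 b (vec 0 0 (-h₀) - vec 0 0 τ) = s ^ 2 * (1 - b 2 ^ 2) := by
            rw [hxy, rho2_smul, neg_sq]
            simp only [rho2, dot, vec_0, vec_1, vec_2]; ring
          have hs4 : s ^ 2 ≤ 4 := by nlinarith only [hs0, hs1, hz1]
          have ht := H.tube _ b n hb (by linarith [dist_vz hτ4]) _ hx0.mem (by
            rw [hxy, dot_smul_left, dot_smul_right, he3]; linarith)
          rw [hrho] at ht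
          rcases ht with ht | ht
          · have hs2' : s ^ 2 ≠ 0 := by positivity
            have hr0 : rho2 b (vec 0 0 1) = 0 := by
              have e : rho2 b (vec 0 0 1) = 1 - b 2 ^ 2 := by
                simp only [rho2, dot, vec_0, vec_1, vec_2]; ring
              rcases mul_eq_zero.1 ht with h | h
              · exact absurd h hs2'
              · rw [e]; exact h
            have hy' : Ax X (vec 0 0 τ) (vec 0 0 1) n := by
              rcases eq_or_neg_of_rho2 he3 hbu hr0 with h | h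
              · rw [h] at hb; exact hb
              · have := hb.neg
                rw [h, neg_neg] at this; exact this
            have := hmax τ n (by linarith) hy'
            linarith
          · have h8 : (1 - 1 / 1000000) * μ ^ 2 ≤ s ^ 2 := by
              have : s ^ 2 * (1 - b 2 ^ 2) ≤ s ^ 2 * 1 :=
                mul_le_mul_of_nonneg_left (by linarith [sq_nonneg (b 2)]) (sq_nonneg s)
              linarith
            have h9 : 0.9999 * μ ≤ s := by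
              apply le_of_sq_le_sq _ hs0.le
              nlinarith only [h8, hM]
            have h10 : 1.6178 * μ ≤ h₀ := by linarith
            have h11 := pow_le_pow_left₀ (by positivity) h10 2
            nlinarith only [h11, hh', hM]
    · exfalso
      push Not at hvis
      have hτ0 : 0 < τ := by
        by_contra hcon
        push Not at hcon
        have h2 : -h₀ ≤ τ := by linarith
        have h3 : τ ^ 2 ≤ h₀ ^ 2 := by nlinarith only [h2, hcon]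
        linarith
      have h2 : τ ≤ 2 - 0.6179 * μ := by linarith
      have h3 : τ ^ 2 ≤ (2 - 0.6179 * μ) ^ 2 := pow_le_pow_left₀ hτ0.le h2 2
      nlinarith only [h3, hvis, hμ, hμ1]

end

end Pool.Agent.Lib.MP_c5a075_co
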