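import Pool.Agent.Lib.MP_c5a075_co.RingBase

/-! Chord arguments: the two neighbours of a point on its circle cannot both lie on its axis. -/

set_option autoImplicit false

namespace Pool.Agent.Lib.MP_c5a075_co

noncomputable section

open Real

lemma rho2_pos_iff {a v : E3} (ha : dot a a = 1) : rho2 a v ≠ 0 ↔ 0 < rho2 a v :=
  ⟨fun h => lt_of_le_of_ne (rho2_nonneg a v ha) (Ne.symm h), fun h => h.ne'⟩

/-- Both chords cannot lie on one line. -/
lemma two_chords {a u b : E3} (ha : dot a a = 1) (hb : dot b b = 1) {c s : ℝ}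
    (hcs : c ^ 2 + s ^ 2 = 1) (hs : s ≠ 0) (hoff : rho2 a u ≠ 0)
    (h1 : rho2 b (rot a c s u - u) = 0) (h2 : rho2 b (rot a c (-s) u - u) = 0) : False := by
  have hcs' : c ^ 2 + (-s) ^ 2 = 1 := by rw [neg_sq]; exact hcs
  have hc : 1 - c ≠ 0 := by
    intro h
    have : c = 1 := by linarith
    rw [this] at hcs
    have : s ^ 2 = 0 := by linarith
    exact hs (pow_eq_zero_iff two_ne_zero |>.1 this)
  obtain ⟨t1, ht1⟩ : ∃ t, t = dot b (rot a c s u - u) := ⟨_, rfl⟩
  obtain ⟨t2, ht2⟩ : ∃ t, t = dot b (rot a c (-s) u - u) := ⟨_, rfl⟩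
  have e1 := (rho2_eq_zero hb).1 h1
  have e2 := (rho2_eq_zero hb).1 h2
  rw [← ht1] at e1
  rw [← ht2] at e2
  have n1 := dot_rot_sub a ha c s hcs u
  have n2 := dot_rot_sub a ha c (-s) hcs' u
  rw [e1, dot_smul_left, dot_smul_right, hb] at n1
  rw [e2, dot_smul_left, dot_smul_right, hb] at n2
  have hsq : (t1 - t2) * (t1 + t2) = 0 := by linarith
  rcases mul_eq_zero.1 hsq with h | h
  · -- equal chords
    have h3 : rot a c s u - u = rot a c (-s) u - u := by
      rw [e1, e2]; congr 1; linarith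
    have h4 : (2 * s) • cross a u = 0 := by
      have : rot a c s u - rot a c (-s) u = (2 * s) • cross a u := by
        apply ext3 <;> simp [rot] <;> ring
      rw [← this, sub_eq_zero]
      exact sub_left_injective h3
    have h5 : cross a u = 0 := (smul_eq_zero.1 h4).resolve_left (by
      intro h6; exact hs (by linarith))
    have h6 := dot_cross_cross a u
    rw [h5, ha, dot_zero_left] at h6
    exact hoff (by rw [rho2]; linarith)
  · have h3 : (rot a c s u - u) + (rot a c (-s) u - u) = 0 := by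
      rw [e1, e2, ← add_smul, h, zero_smul]
    have h4 : (2 * (1 - c)) • (dot a u • a - u) = 0 := by
      rw [← h3]
      apply ext3 <;> simp [rot] <;> ring
    have h5 := (smul_eq_zero.1 h4).resolve_left (by
      intro h6; exact hc (by linarith))
    exact hoff ((rho2_eq_zero ha).2 (sub_eq_zero.1 h5).symm)

/-- A short rotation step. -/
lemma Ax.step {X : Set E3} {x a : E3} {n : ℕ} (h : Ax X x a n) :
    ∃ c s : ℝ, c ^ 2 + s ^ 2 = 1 ∧ s ≠ 0 ∧ c5 ≤ c ∧ c < 1 ∧ (7 ≤ n → 0.61 < c) ∧
      Inv X x a c s ∧ Inv X x a c (-s) := by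
  rcases h.ord with hn | hn
  · subst hn
    obtain ⟨i1, i2, -, -⟩ := h.five
    refine ⟨c5, s5, c5_sq_add, s5_pos.ne', le_rfl, by have := c5_lt; linarith, ?_, i1, i2⟩
    intro h7; omega
  · refine ⟨cos (2 * π / n), sin (2 * π / n), Real.cos_sq_add_sin_sq _, ?_, ?_, ?_,
      fun _ => cos_seven hn, h.inv, ?_⟩
    · have hn' : (7:ℝ) ≤ n := by exact_mod_cast hn
      have hpi := Real.pi_pos
      apply ne_of_gt
      apply Real.sin_pos_of_pos_of_lt_pi
      · positivity
      · rw [div_lt_iff₀ (by linarith)]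
        have := mul_le_mul_of_nonneg_left hn' hpi.le
        linarith
    · have := cos_seven hn
      have := c5_lt
      linarith
    · have hn' : (7:ℝ) ≤ n := by exact_mod_cast hn
      have hpi := Real.pi_pos
      have hs : 0 < sin (2 * π / (n:ℝ)) := by
        apply Real.sin_pos_of_pos_of_lt_pi
        · positivity
        · rw [div_lt_iff₀ (by linarith)]
          have := mul_le_mul_of_nonneg_left hn' hpi.le
          linarith
      have hcs := Real.cos_sq_add_sin_sq (2 * π / (n:ℝ))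
      have h5 := pow_pos hs 2
      exact lt_of_pow_lt_pow_left₀ 2 zero_le_one (by linarith)
    · have := h.pow (-1)
      have e : ((-1 : ℤ) : ℝ) * (2 * π / n) = -(2 * π / n) := by push_cast; ring
      rw [e, Real.cos_neg, Real.sin_neg] at this
      exact this

/-- The chord argument. -/
lemma chord_false {X : Set E3} {x a : E3} {n : ℕ} (h : Ax X x a n) {v : E3} (hv : x + v ∈ X)
    (hvis : dot v v ≤ 4) (hoff : rho2 a v ≠ 0) {b : E3} (hb : dot b b = 1)
    (hex : ∀ z ∈ X, dot (z - (x + v)) (z - (x + v)) ≤ 2 * (1 - c5) * rho2 a v →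
      rho2 b (z - (x + v)) = 0) : False := by
  obtain ⟨c, s, hcs, hs, hc, hc1, -, i1, i2⟩ := h.step
  have hr : 0 < rho2 a v := (rho2_pos_iff h.unit).1 hoff
  have e : ∀ w : E3, x + w - (x + v) = w - v := by intro w; abel
  have hle : 2 * (1 - c) * rho2 a v ≤ 2 * (1 - c5) * rho2 a v :=
    mul_le_mul_of_nonneg_right (by linarith) hr.le
  have r1 := hex _ (i1 v hvis hv) (by
    rw [e, dot_rot_sub a h.unit c s hcs]; exact hle)
  have r2 := hex _ (i2 v hvis hv) (by
    rw [e, dot_rot_sub a h.unit c (-s) (by rw [neg_sq]; exact hcs)]; exact hle)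
  rw [e] at r1 r2
  exact two_chords h.unit hb hcs hs hoff r1 r2

/-- The chord argument for order at least seven. -/
lemma chord_order {X : Set E3} {x a : E3} {n : ℕ} (h : Ax X x a n) {v : E3} (hv : x + v ∈ X)
    (hvis : dot v v ≤ 4) (hoff : rho2 a v ≠ 0) {b : E3} (hb : dot b b = 1)
    (hex : ∀ z ∈ X, dot (z - (x + v)) (z - (x + v)) ≤ 0.78 * rho2 a v →
      rho2 b (z - (x + v)) = 0) : n = 5 := by
  rcases h.ord with hn | hn
  · exact hn
  exfalso
  obtain ⟨c, s, hcs, hs, hc, hc1, hc7, i1, i2⟩ := h.step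
  have hr : 0 < rho2 a v := (rho2_pos_iff h.unit).1 hoff
  have e : ∀ w : E3, x + w - (x + v) = w - v := by intro w; abel
  have hle : 2 * (1 - c) * rho2 a v ≤ 0.78 * rho2 a v :=
    mul_le_mul_of_nonneg_right (by have := hc7 hn; linarith) hr.le
  have r1 := hex _ (i1 v hvis hv) (by
    rw [e, dot_rot_sub a h.unit c s hcs]; exact hle)
  have r2 := hex _ (i2 v hvis hv) (by
    rw [e, dot_rot_sub a h.unit c (-s) (by rw [neg_sq]; exact hcs)]; exact hle)
  rw [e] at r1 r2
  exact two_chords h.unit hb hcs hs hoff r1 r2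

end

end Pool.Agent.Lib.MP_c5a075_co
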