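import Pool.Agent.Lib.MP_c5a075_co.CrossE

/-! Certificate `cross5a` (generated). -/

set_option autoImplicit false
set_option maxRecDepth 1000000

namespace Pool.Agent.Lib.MP_c5a075_co

/-- the groups of `cross5a` -/
def cross5a_kinds : List Kd :=
  [.gp, .gm, .ph, .v0, .v1, .k41 .xp, .k41 .xm, .k41 .ym, .k44 .g, .k44 .xp, .k44 .xm, .k44 .ym, .k12 .g, .k12 .xp, .k12 .ym, .k3 .g .xp, .k3 .g .xm, .k3 .g .yp, .l1 .xp, .l1 .xm, .l1 .yp, .l1 .ym, .l1 .d0, .l1 .d7, .m44 .xp, .m44 .xm, .m44 .yp, .m44 .ym]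

open Pool.Agent.Lib.BoxPos in
/-- subdivision tree of `cross5a` -/
def cross5a_tree : BTree :=
  (.split 1 (.split 0 (.split 2 (.leaf 1) (.split 2 (.split 1 (.leaf 1) (.leaf 1)) (.split 2 (.split 1 (.split 1 (.leaf 1) (.split 0 (.leaf 1) (.split 0 (.leaf 6) (.split 0 (.leaf 6) (.split 1 (.leaf 1) (.split 0 (.leaf 6) (.split 2 (.leaf 1) (.split 1 (.leaf 2) (.leaf 16))))))))) (.split 0 (.split 1 (.leaf 7) (.split 0 (.leaf 1) (.split 1 (.leaf 5) (.split 0 (.leaf 5) (.split 1 (.leaf 5) (.split 0 (.leaf 5) (.split 1 (.leaf 5) (.split 2 (.split 2 (.leaf 1) (.split 2 (.leaf 1) (.leaf 18))) (.leaf 25))))))))) (.split 1 (.split 0 (.split 0 (.leaf 7) (.leaf 6)) (.split 2 (.leaf 9) (.split 0 (.split 1 (.leaf 6) (.leaf 9)) (.split 1 (.leaf 16) (.split 1 (.leaf 12) (.split 2 (.split 2 (.leaf 9) (.leaf 18)) (.leaf 18))))))) (.split 1 (.split 1 (.split 0 (.leaf 7) (.split 0 (.leaf 9)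 (.split 2 (.leaf 9) (.split 0 (.leaf 9) (.split 1 (.leaf 18) (.leaf 9)))))) (.leaf 9)) (.leaf 9))))) (.split 1 (.split 1 (.leaf 2) (.split 0 (.leaf 2) (.split 0 (.leaf 2) (.split 0 (.leaf 6) (.split 1 (.leaf 2) (.leaf 16)))))) (.split 0 (.split 1 (.leaf 7) (.split 0 (.leaf 5) (.split 0 (.leaf 5) (.leaf 0)))) (.split 1 (.split 0 (.split 0 (.leaf 7) (.leaf 0)) (.leaf 0)) (.split 0 (.split 0 (.leaf 0) (.leaf 9)) (.split 1 (.split 2 (.split 0 (.leaf 18) (.split 0 (.leaf 18) (.split 1 (.split 2 (.split 0 (.leaf 18) (.split 1 (.split 2 (.leaf 18) (.leaf 0)) (.split 1 (.split 2 (.split 0 (.leaf 18) (.split 1 (.leaf 18) (.split 0 (.split 1 (.leaf 18) (.leaf 9)) (.leaf 13)))) (.split 0 (.leaf 0) (.split 1 (.split 2 (.split 2 (.split 0 (.leaf 0) (.split 1 (.leaf 0) (.split 0 (.leaf 18) (.split 1 (.leaf 18) (.split 0 (.leaf 18) (.leaf 13)))))) (.leaf 0)) (.leaf 0)) (.split 0 (.leaf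 21) (.split 2 (.split 0 (.split 1 (.split 2 (.split 0 (.leaf 21) (.leaf 13)) (.leaf 0)) (.leaf 21)) (.split 1 (.split 2 (.leaf 13) (.split 2 (.leaf 13) (.leaf 0))) (.leaf 13))) (.leaf 21)))))) (.split 2 (.leaf 9) (.leaf 21))))) (.split 1 (.leaf 0) (.split 0 (.leaf 0) (.split 1 (.leaf 0) (.leaf 21))))) (.leaf 21)))) (.split 0 (.leaf 0) (.split 0 (.leaf 0) (.split 1 (.leaf 0) (.leaf 21))))) (.split 0 (.leaf 9) (.split 0 (.leaf 9) (.leaf 21))))))))))) (.split 0 (.split 2 (.leaf 1) (.split 1 (.split 1 (.leaf 2) (.split 2 (.leaf 1) (.split 1 (.leaf 2) (.split 0 (.split 2 (.split 2 (.leaf 1) (.leaf 17)) (.leaf 17)) (.split 2 (.leaf 1) (.leaf 15)))))) (.split 2 (.leaf 1) (.split 1 (.split 2 (.split 0 (.split 2 (.leaf 1) (.split 1 (.split 1 (.leaf 12) (.split 1 (.leaf 12) (.split 0 (.leaf 12) (.leaf 8)))) (.split 2 (.split 0 (.split 0 (.split 1 (.split 1 (.leaf 12) (.split 2 (.leaf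 1) (.split 1 (.leaf 12) (.split 0 (.leaf 12) (.leaf 1))))) (.split 2 (.leaf 1) (.split 0 (.split 2 (.leaf 1) (.leaf 18)) (.leaf 1)))) (.leaf 1)) (.leaf 1)) (.split 0 (.split 0 (.split 1 (.leaf 8) (.split 0 (.leaf 18) (.split 1 (.leaf 8) (.leaf 18)))) (.leaf 8)) (.leaf 1))))) (.leaf 1)) (.split 1 (.split 0 (.leaf 17) (.leaf 12)) (.split 0 (.leaf 8) (.split 0 (.leaf 8) (.leaf 1))))) (.split 0 (.split 2 (.split 0 (.split 1 (.split 2 (.leaf 1) (.split 1 (.split 0 (.split 2 (.leaf 1) (.split 1 (.leaf 18) (.leaf 1))) (.leaf 1)) (.leaf 1))) (.leaf 1)) (.leaf 1)) (.split 1 (.split 0 (.split 1 (.split 2 (.split 2 (.split 0 (.split 0 (.split 1 (.leaf 20) (.split 1 (.split 0 (.split 2 (.split 1 (.leaf 20) (.leaf 13)) (.split 2 (.split 1 (.split 0 (.split 2 (.leaf 20) (.leaf 8)) (.leaf 8)) (.leaf 13)) (.leaf 8))) (.leaf 20)) (.leaf 13))) (.leaf 20)) (.leaf 8)) (.split 0 (.split 1 (.leaf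 8) (.split 1 (.leaf 8) (.leaf 19))) (.leaf 8))) (.leaf 8)) (.split 0 (.split 2 (.split 2 (.leaf 13) (.leaf 19)) (.leaf 19)) (.leaf 13))) (.split 1 (.leaf 8) (.leaf 13))) (.split 0 (.leaf 14) (.leaf 1)))) (.leaf 1)))))) (.leaf 1))) (.split 0 (.split 2 (.leaf 1) (.split 1 (.split 0 (.split 2 (.leaf 1) (.split 2 (.split 1 (.split 0 (.leaf 1) (.split 2 (.leaf 1) (.split 0 (.split 1 (.split 1 (.split 1 (.leaf 5) (.split 0 (.leaf 5) (.split 0 (.leaf 5) (.leaf 25)))) (.split 2 (.leaf 1) (.split 0 (.split 2 (.leaf 1) (.leaf 27)) (.leaf 25)))) (.split 2 (.leaf 1) (.leaf 25))) (.leaf 25)))) (.leaf 1)) (.split 0 (.split 1 (.split 1 (.split 1 (.leaf 5) (.split 0 (.leaf 5) (.split 2 (.split 1 (.leaf 5) (.split 0 (.leaf 5) (.split 2 (.split 0 (.split 2 (.leaf 1) (.leaf 27)) (.leaf 27)) (.leaf 27)))) (.leaf 4)))) (.split 2 (.split 0 (.leaf 1) (.split 2 (.split 0 (.leaf 1) (.split 1 (.leaf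 27) (.leaf 1))) (.split 1 (.split 0 (.split 0 (.split 2 (.leaf 1) (.leaf 24)) (.leaf 27)) (.leaf 27)) (.split 0 (.leaf 27) (.leaf 25))))) (.split 0 (.split 2 (.split 0 (.leaf 1) (.split 0 (.split 2 (.leaf 1) (.split 1 (.split 1 (.leaf 5) (.leaf 1)) (.leaf 1))) (.split 1 (.split 1 (.leaf 5) (.leaf 24)) (.leaf 24)))) (.split 0 (.split 1 (.split 1 (.leaf 5) (.split 2 (.leaf 1) (.leaf 4))) (.split 0 (.leaf 1) (.split 2 (.leaf 1) (.leaf 4)))) (.split 1 (.leaf 4) (.leaf 22)))) (.split 0 (.leaf 27) (.leaf 22))))) (.split 1 (.split 2 (.leaf 1) (.split 0 (.split 0 (.leaf 1) (.leaf 24)) (.leaf 22))) (.leaf 1))) (.split 1 (.split 1 (.split 0 (.split 2 (.split 2 (.split 0 (.split 1 (.leaf 5) (.leaf 27)) (.leaf 25)) (.leaf 0)) (.leaf 0)) (.leaf 0)) (.split 0 (.leaf 25) (.split 2 (.split 2 (.leaf 25) (.leaf 23)) (.leaf 3)))) (.split 0 (.leaf 26) (.split 1 (.split 2 (.split 1 (.split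 2 (.leaf 1) (.split 2 (.leaf 1) (.leaf 23))) (.leaf 1)) (.split 2 (.leaf 23) (.split 1 (.split 2 (.leaf 22) (.leaf 3)) (.leaf 23)))) (.leaf 1))))))) (.split 2 (.leaf 1) (.split 0 (.split 1 (.split 0 (.split 2 (.split 2 (.leaf 1) (.split 0 (.leaf 25) (.leaf 18))) (.split 0 (.split 1 (.split 0 (.split 2 (.split 2 (.split 2 (.leaf 25) (.leaf 0)) (.leaf 0)) (.leaf 0)) (.leaf 9)) (.split 2 (.split 2 (.split 1 (.split 0 (.split 2 (.leaf 25) (.split 2 (.split 0 (.leaf 23) (.split 2 (.split 0 (.leaf 25) (.split 0 (.leaf 25) (.split 2 (.leaf 25) (.split 1 (.leaf 3) (.leaf 25))))) (.split 1 (.leaf 3) (.split 0 (.leaf 23) (.split 1 (.leaf 23) (.split 1 (.leaf 23) (.leaf 1))))))) (.leaf 23))) (.split 0 (.split 1 (.leaf 9) (.split 1 (.split 0 (.split 0 (.split 2 (.leaf 25) (.split 1 (.leaf 9) (.split 2 (.split 0 (.split 2 (.split 1 (.leaf 9) (.leaf 1)) (.leaf 23)) (.leaf 9)) (.leaf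 3)))) (.leaf 9)) (.leaf 9)) (.split 2 (.leaf 1) (.split 2 (.split 1 (.split 0 (.split 2 (.leaf 1) (.split 1 (.split 2 (.leaf 1) (.leaf 23)) (.leaf 1))) (.leaf 1)) (.leaf 1)) (.split 0 (.leaf 23) (.leaf 9)))))) (.leaf 9))) (.split 1 (.split 2 (.leaf 1) (.split 1 (.split 0 (.split 2 (.leaf 1) (.leaf 23)) (.leaf 1)) (.leaf 1))) (.leaf 1))) (.split 0 (.leaf 23) (.split 2 (.split 1 (.split 0 (.leaf 23) (.leaf 9)) (.split 1 (.split 0 (.split 2 (.split 1 (.leaf 23) (.leaf 1)) (.leaf 23)) (.split 1 (.leaf 9) (.leaf 1))) (.leaf 1))) (.leaf 23)))) (.split 1 (.leaf 0) (.split 2 (.leaf 23) (.leaf 3))))) (.split 0 (.split 1 (.leaf 9) (.split 1 (.leaf 11) (.split 0 (.split 1 (.leaf 11) (.split 2 (.leaf 1) (.leaf 11))) (.leaf 11)))) (.leaf 11)))) (.leaf 11)) (.split 2 (.leaf 1) (.split 1 (.split 0 (.split 2 (.leaf 1) (.split 1 (.split 0 (.split 2 (.split 0 (.leaf 23) (.split 1 (.leaf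 23) (.leaf 1))) (.split 2 (.leaf 23) (.split 1 (.leaf 3) (.split 2 (.leaf 23) (.split 1 (.leaf 3) (.leaf 23)))))) (.split 0 (.split 2 (.leaf 1) (.split 1 (.split 2 (.leaf 23) (.split 0 (.leaf 3) (.leaf 10))) (.leaf 23))) (.leaf 10))) (.split 2 (.leaf 1) (.split 0 (.leaf 23) (.leaf 1))))) (.leaf 1)) (.leaf 1)))) (.split 1 (.split 1 (.leaf 11) (.split 0 (.leaf 10) (.leaf 1))) (.leaf 1))))) (.leaf 1))) (.leaf 1)))

open Pool.Agent.Lib.BoxPos in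
theorem cross5a_check : checkB 656 1 [8, 8, 2] [1, 1, 0] [(0, 2001, 1000), (0, 2001, 1000), (0, 764, 1000)]
    (defs5 true) (cross5a_kinds.map Kd.es) cross5a_tree = true := by decide +kernel

end Pool.Agent.Lib.MP_c5a075_co
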