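import Pool.Agent.Lib.MP_c5a075_co.CrossE

/-! Certificate `cross5b` (generated). -/

set_option autoImplicit false
set_option maxRecDepth 1000000

namespace Pool.Agent.Lib.MP_c5a075_co

/-- the groups of `cross5b` -/
def cross5b_kinds : List Kd :=
  [.gm, .ph]

open Pool.Agent.Lib.BoxPos in
/-- subdivision tree of `cross5b` -/
def cross5b_tree : BTree :=
  (.split 0 (.split 1 (.split 0 (.split 2 (.leaf 0) (.split 2 (.leaf 0) (.split 1 (.leaf 1) (.leaf 0)))) (.leaf 0)) (.leaf 0)) (.split 1 (.leaf 0) (.leaf 0)))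

open Pool.Agent.Lib.BoxPos in
theorem cross5b_check : checkB 372 1 [8, 8, 2] [1, 1, 0] [(0, 2001, 1000), (0, 2001, 1000), (0, 764, 1000)]
    defs5b (cross5b_kinds.map Kd.es) cross5b_tree = true := by decide +kernel

end Pool.Agent.Lib.MP_c5a075_co
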