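import Pool.Agent.Lib.MP_c5a075_co.CrossE

/-! Certificate `cross7a` (generated). -/

set_option autoImplicit false
set_option maxRecDepth 1000000

namespace Pool.Agent.Lib.MP_c5a075_co

/-- the groups of `cross7a` -/
def cross7a_kinds : List Kd :=
  [.gp, .gm, .ph, .v1, .k12 .xp, .k12 .xm, .k12 .yp, .k12 .ym]

open Pool.Agent.Lib.BoxPos in
/-- subdivision tree of `cross7a` -/
def cross7a_tree : BTree :=
  (.split 0 (.split 1 (.split 2 (.leaf 1) (.split 2 (.leaf 1) (.split 2 (.split 1 (.leaf 1) (.leaf 1)) (.split 1 (.split 1 (.leaf 1) (.split 1 (.leaf 1) (.split 0 (.leaf 1) (.split 1 (.leaf 2) (.split 2 (.leaf 1) (.split 1 (.leaf 2) (.split 0 (.split 0 (.leaf 2) (.leaf 6)) (.split 0 (.leaf 6) (.split 0 (.leaf 4) (.split 0 (.leaf 4) (.split 2 (.leaf 1) (.split 2 (.leaf 1) (.leaf 3))))))))))))) (.split 0 (.split 0 (.leaf 1) (.split 0 (.split 0 (.split 1 (.leaf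 1) (.leaf 4)) (.leaf 4)) (.split 1 (.leaf 4) (.split 1 (.leaf 4) (.split 1 (.leaf 4) (.split 1 (.leaf 4) (.split 1 (.leaf 4) (.split 1 (.leaf 4) (.split 0 (.leaf 4) (.split 2 (.leaf 1) (.split 2 (.split 2 (.leaf 1) (.leaf 3)) (.leaf 3)))))))))))) (.split 2 (.split 2 (.split 1 (.split 1 (.leaf 1) (.split 2 (.leaf 1) (.split 0 (.leaf 1) (.leaf 1)))) (.split 2 (.leaf 1) (.split 0 (.leaf 1) (.leaf 1)))) (.split 1 (.split 2 (.split 0 (.split 1 (.split 1 (.leaf 1) (.split 0 (.leaf 1) (.split 1 (.leaf 1) (.leaf 5)))) (.split 0 (.leaf 7) (.leaf 5))) (.split 0 (.split 1 (.leaf 6) (.leaf 5)) (.leaf 1))) (.split 0 (.split 1 (.split 1 (.leaf 1) (.split 0 (.split 0 (.leaf 1) (.split 1 (.leaf 1) (.leaf 7))) (.split 0 (.split 0 (.split 1 (.split 1 (.leaf 1) (.leaf 5)) (.leaf 5)) (.leaf 5)) (.leaf 5)))) (.split 0 (.leaf 7) (.leaf 5))) (.split 0 (.split 1 (.leaf 6) (.leaf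 5)) (.split 0 (.split 1 (.leaf 6) (.split 0 (.leaf 5) (.split 2 (.leaf 1) (.split 1 (.leaf 5) (.leaf 1))))) (.leaf 1))))) (.split 0 (.split 1 (.leaf 7) (.split 1 (.split 0 (.leaf 7) (.split 1 (.leaf 5) (.split 0 (.leaf 7) (.leaf 1)))) (.leaf 1))) (.split 1 (.split 0 (.split 1 (.split 0 (.leaf 5) (.split 0 (.leaf 5) (.split 1 (.leaf 5) (.split 0 (.leaf 5) (.leaf 1))))) (.split 0 (.split 1 (.leaf 5) (.split 0 (.leaf 5) (.split 1 (.leaf 5) (.leaf 1)))) (.split 2 (.leaf 1) (.split 1 (.split 0 (.split 1 (.leaf 5) (.leaf 1)) (.leaf 1)) (.leaf 1))))) (.split 0 (.split 2 (.leaf 1) (.split 1 (.split 0 (.split 2 (.leaf 1) (.split 1 (.split 0 (.leaf 5) (.leaf 1)) (.leaf 1))) (.leaf 1)) (.leaf 1))) (.leaf 1))) (.leaf 1))))) (.split 1 (.split 0 (.split 0 (.split 1 (.split 0 (.leaf 4) (.split 1 (.leaf 4) (.split 2 (.split 1 (.split 0 (.leaf 4) (.split 2 (.split 2 (.split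 1 (.leaf 1) (.split 0 (.leaf 1) (.split 2 (.leaf 1) (.split 1 (.leaf 1) (.split 0 (.leaf 7) (.leaf 5)))))) (.split 1 (.split 0 (.leaf 4) (.split 0 (.split 1 (.leaf 1) (.split 2 (.leaf 1) (.leaf 3))) (.leaf 6))) (.split 0 (.leaf 7) (.split 2 (.split 1 (.split 2 (.split 0 (.leaf 1) (.split 1 (.leaf 1) (.leaf 3))) (.leaf 3)) (.leaf 3)) (.leaf 3))))) (.leaf 3))) (.leaf 7)) (.leaf 3)))) (.leaf 7)) (.split 1 (.split 1 (.leaf 6) (.split 2 (.split 0 (.split 0 (.split 1 (.split 1 (.leaf 6) (.leaf 5)) (.leaf 5)) (.leaf 5)) (.leaf 5)) (.leaf 0))) (.leaf 3))) (.split 2 (.split 0 (.split 1 (.leaf 6) (.leaf 3)) (.split 0 (.split 1 (.leaf 6) (.split 2 (.split 2 (.split 0 (.leaf 3) (.split 1 (.leaf 3) (.split 2 (.split 0 (.leaf 3) (.leaf 1)) (.leaf 3)))) (.leaf 3)) (.leaf 3))) (.split 2 (.split 0 (.split 1 (.leaf 6) (.split 2 (.leaf 1) (.split 1 (.leaf 3) (.split 0 (.leaf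 3) (.leaf 1))))) (.leaf 1)) (.split 1 (.split 0 (.leaf 6) (.split 1 (.split 0 (.leaf 4) (.leaf 1)) (.split 2 (.split 2 (.leaf 1) (.leaf 3)) (.leaf 3)))) (.split 1 (.leaf 3) (.split 0 (.leaf 3) (.split 2 (.split 0 (.leaf 3) (.leaf 1)) (.leaf 3)))))))) (.leaf 3))) (.split 0 (.split 1 (.leaf 3) (.split 2 (.split 1 (.split 0 (.leaf 3) (.split 0 (.leaf 7) (.split 1 (.leaf 5) (.split 2 (.split 0 (.split 1 (.leaf 5) (.split 1 (.leaf 5) (.split 0 (.leaf 5) (.split 2 (.leaf 1) (.split 2 (.leaf 1) (.leaf 3)))))) (.split 1 (.split 0 (.leaf 5) (.split 1 (.leaf 5) (.split 2 (.leaf 1) (.split 2 (.leaf 1) (.leaf 3))))) (.split 2 (.leaf 1) (.split 0 (.split 2 (.leaf 1) (.split 1 (.leaf 3) (.leaf 1))) (.leaf 1))))) (.split 2 (.split 0 (.leaf 3) (.split 1 (.leaf 3) (.split 2 (.split 0 (.leaf 3) (.split 1 (.leaf 3) (.leaf 1))) (.leaf 3)))) (.leaf 3)))))) (.split 2 (.split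 1 (.split 0 (.leaf 4) (.split 0 (.split 1 (.split 0 (.leaf 7) (.split 1 (.leaf 5) (.split 2 (.leaf 1) (.split 2 (.split 0 (.leaf 5) (.leaf 1)) (.leaf 3))))) (.split 2 (.leaf 1) (.split 0 (.split 2 (.split 1 (.split 0 (.leaf 3) (.leaf 1)) (.leaf 1)) (.leaf 3)) (.split 2 (.leaf 1) (.split 1 (.split 0 (.leaf 3) (.leaf 1)) (.leaf 1)))))) (.split 2 (.leaf 1) (.split 0 (.split 1 (.split 2 (.leaf 1) (.split 0 (.split 1 (.leaf 3) (.leaf 1)) (.leaf 1))) (.leaf 1)) (.leaf 1))))) (.split 2 (.leaf 1) (.split 0 (.split 1 (.split 2 (.leaf 1) (.split 0 (.leaf 3) (.split 0 (.leaf 3) (.split 1 (.leaf 3) (.leaf 1))))) (.leaf 1)) (.leaf 1)))) (.split 0 (.split 1 (.leaf 3) (.split 2 (.split 0 (.leaf 3) (.split 1 (.leaf 3) (.split 2 (.split 1 (.leaf 3) (.leaf 1)) (.leaf 3)))) (.leaf 3))) (.split 1 (.split 0 (.split 2 (.split 1 (.leaf 3) (.split 0 (.leaf 3) (.split 2 (.split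 1 (.leaf 3) (.split 0 (.leaf 3) (.leaf 1))) (.leaf 3)))) (.leaf 3)) (.split 0 (.split 2 (.split 1 (.split 2 (.split 0 (.leaf 3) (.split 1 (.leaf 3) (.leaf 1))) (.leaf 3)) (.split 0 (.split 2 (.leaf 1) (.leaf 3)) (.leaf 1))) (.leaf 3)) (.split 2 (.split 1 (.split 0 (.split 2 (.leaf 1) (.leaf 3)) (.leaf 1)) (.leaf 1)) (.split 1 (.leaf 3) (.split 0 (.split 2 (.leaf 1) (.leaf 3)) (.leaf 1)))))) (.split 0 (.split 2 (.split 1 (.split 0 (.split 2 (.split 1 (.leaf 3) (.leaf 1)) (.leaf 3)) (.split 2 (.leaf 1) (.split 1 (.leaf 3) (.leaf 1)))) (.leaf 1)) (.split 1 (.leaf 3) (.split 0 (.leaf 3) (.split 1 (.split 2 (.leaf 1) (.leaf 3)) (.leaf 1))))) (.split 0 (.split 1 (.split 2 (.leaf 1) (.split 0 (.split 2 (.leaf 1) (.leaf 3)) (.leaf 1))) (.leaf 1)) (.leaf 1))))))) (.split 0 (.leaf 3) (.split 1 (.leaf 3) (.split 0 (.leaf 3) (.split 1 (.leaf 3) (.split 2 (.split 0 (.split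 2 (.split 1 (.leaf 3) (.split 0 (.split 1 (.leaf 3) (.leaf 1)) (.leaf 1))) (.leaf 3)) (.split 1 (.split 2 (.split 0 (.split 1 (.leaf 3) (.leaf 1)) (.leaf 1)) (.leaf 3)) (.leaf 1))) (.leaf 3)))))))) (.split 1 (.split 0 (.split 2 (.split 1 (.split 0 (.leaf 3) (.split 0 (.leaf 3) (.split 1 (.leaf 3) (.split 0 (.leaf 3) (.split 1 (.leaf 3) (.split 0 (.leaf 5) (.split 1 (.leaf 5) (.split 2 (.split 2 (.leaf 1) (.leaf 3)) (.leaf 3))))))))) (.split 0 (.split 1 (.leaf 3) (.split 0 (.leaf 5) (.split 1 (.leaf 5) (.split 0 (.leaf 5) (.split 2 (.split 1 (.leaf 5) (.split 2 (.leaf 1) (.leaf 3))) (.leaf 3)))))) (.split 2 (.split 1 (.split 0 (.leaf 5) (.split 2 (.split 1 (.split 0 (.leaf 5) (.leaf 1)) (.leaf 1)) (.split 1 (.leaf 3) (.split 0 (.leaf 3) (.leaf 1))))) (.split 0 (.split 2 (.split 1 (.split 0 (.leaf 5) (.leaf 1)) (.leaf 1)) (.split 1 (.split 2 (.split 0 (.leaf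 3) (.leaf 1)) (.leaf 3)) (.split 0 (.split 2 (.leaf 1) (.leaf 3)) (.leaf 1)))) (.leaf 1))) (.split 1 (.leaf 3) (.split 0 (.leaf 3) (.split 2 (.split 1 (.split 0 (.leaf 3) (.leaf 1)) (.leaf 1)) (.leaf 3))))))) (.leaf 3)) (.split 2 (.split 0 (.split 1 (.split 2 (.split 0 (.split 1 (.split 2 (.split 0 (.leaf 3) (.split 2 (.leaf 1) (.leaf 3))) (.leaf 3)) (.split 2 (.split 0 (.split 1 (.split 2 (.leaf 1) (.leaf 3)) (.leaf 1)) (.leaf 1)) (.split 1 (.leaf 3) (.split 0 (.leaf 3) (.leaf 1))))) (.split 1 (.split 2 (.leaf 1) (.split 0 (.leaf 3) (.split 2 (.leaf 1) (.leaf 3)))) (.leaf 1))) (.split 1 (.leaf 3) (.split 0 (.leaf 3) (.split 2 (.split 0 (.leaf 3) (.leaf 1)) (.leaf 3))))) (.split 2 (.leaf 1) (.split 1 (.split 0 (.split 2 (.split 1 (.leaf 3) (.leaf 1)) (.leaf 3)) (.split 2 (.leaf 1) (.split 1 (.leaf 3) (.leaf 1)))) (.leaf 1)))) (.split 1 (.split 2 (.leaf 1)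 (.split 0 (.split 1 (.split 2 (.split 0 (.leaf 3) (.leaf 1)) (.leaf 3)) (.leaf 1)) (.leaf 1))) (.leaf 1))) (.split 1 (.split 0 (.leaf 3) (.split 2 (.split 1 (.leaf 3) (.split 0 (.leaf 3) (.leaf 1))) (.leaf 3))) (.split 0 (.split 2 (.split 1 (.leaf 3) (.split 0 (.split 2 (.split 1 (.leaf 3) (.leaf 1)) (.leaf 3)) (.split 1 (.split 2 (.leaf 1) (.leaf 3)) (.leaf 1)))) (.leaf 3)) (.split 0 (.split 2 (.split 1 (.split 2 (.leaf 1) (.leaf 3)) (.leaf 1)) (.split 1 (.leaf 3) (.leaf 1))) (.leaf 1)))))) (.split 0 (.split 1 (.split 2 (.split 0 (.split 2 (.split 1 (.split 0 (.split 1 (.leaf 5) (.split 0 (.leaf 5) (.split 2 (.leaf 1) (.split 2 (.leaf 1) (.leaf 3))))) (.split 2 (.leaf 1) (.split 1 (.split 0 (.split 2 (.split 1 (.leaf 3) (.leaf 1)) (.leaf 3)) (.split 2 (.leaf 1) (.split 1 (.leaf 3) (.leaf 1)))) (.leaf 1)))) (.split 0 (.split 2 (.leaf 1) (.split 1 (.split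 0 (.split 2 (.leaf 1) (.split 1 (.leaf 3) (.leaf 1))) (.leaf 1)) (.leaf 1))) (.leaf 1))) (.split 1 (.split 2 (.split 0 (.leaf 3) (.split 1 (.leaf 3) (.split 0 (.leaf 3) (.split 2 (.leaf 1) (.leaf 3))))) (.leaf 3)) (.split 0 (.split 2 (.split 1 (.split 2 (.split 0 (.leaf 3) (.leaf 1)) (.leaf 3)) (.split 0 (.split 2 (.leaf 1) (.split 1 (.leaf 3) (.leaf 1))) (.leaf 1))) (.split 1 (.leaf 3) (.split 2 (.split 0 (.leaf 3) (.leaf 1)) (.leaf 3)))) (.split 1 (.split 2 (.leaf 1) (.split 0 (.leaf 3) (.split 2 (.leaf 1) (.leaf 3)))) (.leaf 1))))) (.split 1 (.split 2 (.leaf 1) (.split 0 (.split 2 (.split 1 (.split 0 (.split 2 (.leaf 1) (.leaf 3)) (.leaf 1)) (.leaf 1)) (.split 1 (.leaf 3) (.split 0 (.leaf 3) (.leaf 1)))) (.leaf 1))) (.leaf 1))) (.split 0 (.split 2 (.split 1 (.leaf 3) (.split 0 (.leaf 3) (.split 2 (.split 1 (.leaf 3) (.split 0 (.leaf 3) (.leaf 1))) (.leaf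 3)))) (.leaf 3)) (.split 1 (.split 2 (.split 0 (.leaf 3) (.split 1 (.leaf 3) (.split 2 (.leaf 1) (.leaf 3)))) (.leaf 3)) (.split 2 (.split 0 (.split 1 (.split 2 (.split 0 (.leaf 3) (.leaf 1)) (.leaf 3)) (.leaf 1)) (.leaf 1)) (.split 0 (.leaf 3) (.split 1 (.leaf 3) (.split 2 (.leaf 1) (.leaf 3)))))))) (.split 2 (.split 0 (.split 1 (.split 2 (.leaf 1) (.split 0 (.split 1 (.split 2 (.leaf 1) (.split 0 (.split 2 (.leaf 1) (.leaf 3)) (.leaf 1))) (.leaf 1)) (.leaf 1))) (.leaf 1)) (.leaf 1)) (.split 0 (.split 1 (.split 2 (.split 0 (.split 2 (.split 1 (.leaf 3) (.leaf 1)) (.leaf 3)) (.split 1 (.split 2 (.leaf 1) (.split 0 (.leaf 3) (.leaf 1))) (.leaf 1))) (.split 0 (.leaf 3) (.split 1 (.leaf 3) (.split 2 (.split 0 (.leaf 3) (.leaf 1)) (.leaf 3))))) (.split 2 (.leaf 1) (.split 0 (.split 1 (.split 2 (.split 0 (.leaf 3) (.leaf 1)) (.leaf 3)) (.split 2 (.leaf 1) (.split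 0 (.leaf 3) (.leaf 1)))) (.leaf 1)))) (.split 1 (.split 0 (.split 2 (.leaf 1) (.split 1 (.split 2 (.leaf 1) (.leaf 3)) (.leaf 1))) (.leaf 1)) (.leaf 1))))) (.split 1 (.split 0 (.split 2 (.leaf 1) (.split 1 (.split 0 (.split 2 (.leaf 1) (.leaf 3)) (.leaf 1)) (.leaf 1))) (.leaf 1)) (.leaf 1)))))))))))) (.split 1 (.split 2 (.leaf 1) (.split 2 (.leaf 1) (.split 1 (.split 2 (.leaf 1) (.split 0 (.split 0 (.leaf 1) (.split 2 (.leaf 1) (.split 1 (.split 2 (.split 0 (.leaf 1) (.split 1 (.split 2 (.leaf 1) (.split 1 (.split 2 (.leaf 1) (.split 0 (.leaf 1) (.leaf 3))) (.leaf 1))) (.leaf 1))) (.split 1 (.split 0 (.split 0 (.leaf 1) (.split 2 (.leaf 1) (.leaf 3))) (.split 2 (.split 1 (.leaf 3) (.split 2 (.split 1 (.leaf 3) (.leaf 1)) (.leaf 3))) (.leaf 3))) (.split 0 (.leaf 1) (.split 1 (.split 2 (.leaf 1) (.leaf 3)) (.leaf 1))))) (.leaf 1)))) (.split 1 (.split 2 (.leaf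 1) (.split 0 (.split 2 (.split 1 (.split 2 (.leaf 1) (.split 1 (.split 0 (.split 2 (.leaf 1) (.split 1 (.split 0 (.leaf 3) (.split 0 (.leaf 3) (.split 2 (.split 1 (.leaf 3) (.leaf 1)) (.leaf 3)))) (.split 0 (.leaf 3) (.leaf 1)))) (.leaf 1)) (.leaf 1))) (.leaf 1)) (.split 1 (.split 0 (.split 2 (.split 1 (.leaf 3) (.split 2 (.split 1 (.split 0 (.leaf 3) (.leaf 1)) (.leaf 1)) (.split 0 (.leaf 3) (.split 1 (.leaf 3) (.leaf 1))))) (.leaf 3)) (.split 0 (.split 1 (.split 2 (.split 1 (.split 2 (.split 0 (.leaf 3) (.split 1 (.split 2 (.leaf 1) (.leaf 3)) (.leaf 1))) (.leaf 3)) (.split 2 (.leaf 1) (.split 0 (.leaf 3) (.leaf 1)))) (.leaf 3)) (.split 2 (.leaf 1) (.split 1 (.split 0 (.leaf 3) (.split 2 (.leaf 1) (.leaf 3))) (.split 0 (.split 2 (.leaf 1) (.leaf 3)) (.leaf 1))))) (.split 1 (.split 2 (.split 0 (.split 1 (.split 2 (.leaf 1) (.split 0 (.split 1 (.leaf 3)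 (.leaf 1)) (.leaf 1))) (.leaf 1)) (.leaf 1)) (.split 0 (.split 1 (.leaf 3) (.split 2 (.leaf 1) (.leaf 3))) (.split 1 (.split 2 (.leaf 1) (.leaf 3)) (.leaf 1)))) (.leaf 1)))) (.split 1 (.split 2 (.leaf 1) (.split 0 (.split 1 (.split 0 (.leaf 3) (.split 2 (.leaf 1) (.leaf 3))) (.split 2 (.leaf 1) (.split 0 (.leaf 3) (.leaf 1)))) (.leaf 1))) (.leaf 1)))) (.leaf 1))) (.leaf 1)))) (.leaf 1)))) (.leaf 1))) (.split 1 (.split 0 (.split 2 (.leaf 1) (.split 2 (.leaf 1) (.split 0 (.split 1 (.split 1 (.leaf 1) (.split 1 (.leaf 1) (.split 2 (.leaf 1) (.split 1 (.leaf 1) (.split 2 (.leaf 1) (.split 0 (.split 1 (.leaf 1) (.split 2 (.leaf 1) (.split 1 (.leaf 1) (.split 0 (.split 2 (.leaf 1) (.leaf 2)) (.leaf 1))))) (.leaf 1))))))) (.split 2 (.leaf 1) (.split 0 (.split 2 (.leaf 1) (.split 1 (.split 2 (.split 0 (.split 2 (.leaf 1) (.split 0 (.split 2 (.leaf 1) (.split 0 (.split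 1 (.leaf 1) (.leaf 1)) (.leaf 1))) (.leaf 1))) (.leaf 1)) (.split 0 (.split 2 (.split 0 (.split 2 (.split 1 (.split 1 (.leaf 1) (.leaf 3)) (.leaf 3)) (.leaf 3)) (.split 2 (.leaf 1) (.split 0 (.leaf 3) (.leaf 1)))) (.leaf 3)) (.split 0 (.split 2 (.leaf 1) (.split 2 (.leaf 1) (.leaf 3))) (.leaf 1)))) (.split 1 (.split 0 (.split 2 (.leaf 1) (.split 1 (.split 0 (.split 2 (.leaf 1) (.leaf 3)) (.leaf 1)) (.leaf 1))) (.leaf 1)) (.leaf 1)))) (.leaf 1)))) (.leaf 1)))) (.leaf 1)) (.leaf 1)))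

open Pool.Agent.Lib.BoxPos in
theorem cross7a_check : checkB 559 1 [8, 8, 2] [1, 1, 0] [(0, 2001, 1000), (0, 2001, 1000), (0, 764, 1000)]
    (defs7 true) (cross7a_kinds.map Kd.es) cross7a_tree = true := by decide +kernel

end Pool.Agent.Lib.MP_c5a075_co
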