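import Pool.Agent.Lib.MP_c5a075_co.BoxFast

/-!
Polynomial expressions for the cross case: words in a rotation, with scaled coordinates.
Variables: `0, 1` stereographic coordinates of the axis, `2` the slope `T`; definitions:
`3` the scale `D`, `4` its square, `5, 6, 7` the scaled axis, `8` the scale `S = M ^ 2 D ^ 2`,
`9` `S3 = M ^ 3 D ^ 2`, `10` the scale of general words, `11` the square of `S`, then the words.
-/

set_option autoImplicit false

namespace Pool.Agent.Lib.MP_c5a075_co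

/-- polynomial expressions -/
abbrev BE := Pool.Agent.Lib.BoxPos.E

instance : Add BE := ⟨.add⟩
instance : Sub BE := ⟨.sub⟩
instance : Mul BE := ⟨.mul⟩
instance : Neg BE := ⟨.neg⟩

/-- natural constants -/
def kE (n : ℕ) : BE := .c n
/-- variables -/
def vE (n : ℕ) : BE := .v n

/-- `10 ^ 7 cos 72°` etc. -/
def c5E : BE := kE 3090170
def s5E : BE := kE 9510565
def ME : BE := kE 10000000
def r5E : BE := kE 22360680

/-- base definitions (`3`, ..., `11`) -/
def baseD (o : Bool) : List BE :=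
  [kE 1 + vE 0 * vE 0 + vE 1 * vE 1, vE 3 * vE 3,
    cond o (vE 0 * vE 0 + vE 1 * vE 1 - kE 1) (kE 1 - vE 0 * vE 0 - vE 1 * vE 1),
    kE 2 * vE 0, kE 2 * vE 1, ME * ME * vE 4, ME * vE 8, ME * vE 4 * vE 9, vE 8 * vE 8]

/-- the ring word with rotation `(c, s)` and chord `(v0, v1, 0)`, nine definitions from index `i` -/
def ringD (i : ℕ) (c s v0 v1 : BE) : List BE :=
  [vE 5 * v0 + vE 6 * v1,
    c * (vE 4 * v0) + (ME - c) * (vE i * vE 5) - s * (vE 3 * (vE 7 * v1)),
    c * (vE 4 * v1) + (ME - c) * (vE i * vE 6) + s * (vE 3 * (vE 7 * v0)),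
    (ME - c) * (vE i * vE 7) + s * (vE 3 * (vE 5 * v1 - vE 6 * v0)),
    vE 2 * (vE 8 + vE (i + 1)),
    vE 2 * vE (i + 2),
    vE 8 + vE 2 * vE (i + 3),
    vE 2 * (vE (i + 1) - ME * (vE 4 * v0)) + vE (i + 3),
    vE (i + 4) * vE (i + 4) + vE (i + 5) * vE (i + 5) -
      (vE (i + 6) + vE (i + 6)) * (vE (i + 6) + vE (i + 6))]

/-- the word with rotation `(c, s)` applied to the point `y`, twelve definitions from index `i` -/
def genD (i : ℕ) (c s y0 y1 y2 : BE) : List BE :=
  [y0 - vE 2 * vE 9, y1, y2 - vE 9,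
    vE 5 * vE i + vE 6 * vE (i + 1) + vE 7 * vE (i + 2),
    c * (vE 4 * vE i) + (ME - c) * (vE (i + 3) * vE 5) +
      s * (vE 3 * (vE 6 * vE (i + 2) - vE 7 * vE (i + 1))),
    c * (vE 4 * vE (i + 1)) + (ME - c) * (vE (i + 3) * vE 6) +
      s * (vE 3 * (vE 7 * vE i - vE 5 * vE (i + 2))),
    c * (vE 4 * vE (i + 2)) + (ME - c) * (vE (i + 3) * vE 7) +
      s * (vE 3 * (vE 5 * vE (i + 1) - vE 6 * vE i)),
    vE 2 * vE 10 + vE (i + 4),
    vE (i + 5),
    vE 10 + vE (i + 6),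
    vE i * vE i + vE (i + 1) * vE (i + 1) + vE (i + 2) * vE (i + 2),
    ME * ME * ((vE 2 * vE (i + 4) + vE (i + 6)) + (vE 2 * vE (i + 4) + vE (i + 6))) + vE (i + 10)]

/-- types of quadratic tests -/
inductive Off | g | xp | xm | yp | ym
/-- types of linear tests -/
inductive OffL | xp | xm | yp | ym | d0 | d7

/-- quadratic test that a ring word is off the cone and off the axis -/
def offD (i : ℕ) : Off → List BE
  | .g => [kE 100 * vE (i + 8) - vE 11]
  | .xp => [-(kE 100 * vE (i + 8)) - vE 11, kE 1000 * vE (i + 4) - vE 8]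
  | .xm => [-(kE 100 * vE (i + 8)) - vE 11, kE 1000 * -vE (i + 4) - vE 8]
  | .yp => [-(kE 100 * vE (i + 8)) - vE 11, kE 1000 * vE (i + 5) - vE 8]
  | .ym => [-(kE 100 * vE (i + 8)) - vE 11, kE 1000 * -vE (i + 5) - vE 8]

/-- four inequalities: a general word is inside the cone -/
def insD (i : ℕ) : List BE :=
  [kE 2000 * vE (i + 9) - kE 1415 * vE (i + 7) - vE 10,
    kE 2000 * vE (i + 9) + kE 1415 * vE (i + 7) - vE 10,
    kE 2000 * vE (i + 9) - kE 1415 * vE (i + 8) - vE 10,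
    kE 2000 * vE (i + 9) + kE 1415 * vE (i + 8) - vE 10]

/-- linear test that a general word is off the cone and off the axis -/
def offLD (i : ℕ) : OffL → List BE
  | .xp => insD i ++ [kE 1000 * vE (i + 7) - vE 10]
  | .xm => insD i ++ [kE 1000 * -vE (i + 7) - vE 10]
  | .yp => insD i ++ [kE 1000 * vE (i + 8) - vE 10]
  | .ym => insD i ++ [kE 1000 * -vE (i + 8) - vE 10]
  | .d0 => [kE 1000 * vE (i + 7) - kE 2000 * vE (i + 9) - vE 10,
      kE 1000 * vE (i + 7) + kE 2000 * vE (i + 9) - vE 10]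
  | .d7 => [kE 707 * vE (i + 7) - kE 707 * vE (i + 8) - kE 2000 * vE (i + 9) - vE 10,
      kE 707 * vE (i + 7) - kE 707 * vE (i + 8) + kE 2000 * vE (i + 9) - vE 10]

/-- norm test of a ring word -/
def inD (i : ℕ) : BE := -(kE 1000 * vE (i + 7)) - vE 8
/-- norm test of a general word -/
def inD' (i : ℕ) : BE := -(kE 100 * vE (i + 11)) - vE 9 * vE 9

/-- size of `λ` -/
def lamD : BE := kE 1000 * (kE 5704 * (vE 11 * (vE 2 * vE 2 + kE 1)) -
  kE 50000 * (vE 18 * vE 18)) - kE 10000 * vE 11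

/-- visibility -/
def visD (i : ℕ) : BE := kE 1000 * (kE 5704 * (vE 9 * vE 9 * (vE 2 * vE 2 + kE 1)) -
  kE 10000 * vE (i + 10)) - kE 10000 * (vE 9 * vE 9)

/-- kinds of groups -/
inductive Kd
  | gp | gm | ph | v0 | v1
  | k12 (o : Off) | k41 (o : Off) | k44 (o : Off)
  | k3 (o o' : Off)
  | l1 (o : OffL) | m44 (o : OffL)

/-- the polynomials of a group; the word `z` has index `12`, the words `12` (or `42`), `41`, `44`
have indices `21`, `30`, `39`, the general words `48` and `60` -/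
def Kd.es : Kd → List BE
  | .gp => [kE 100 * vE 20 - vE 11]
  | .gm => [-(kE 100 * vE 20) - vE 11]
  | .ph => [kE 1000 * vE 19 - vE 8]
  | .v0 => [kE 1000 * (vE 2 * (ME * vE 16) - kE 4 * (c5E * vE 18)) - vE 9]
  | .v1 => [kE 1000 * (vE 2 * (c5E * vE 16 + s5E * vE 17) - kE 4 * (c5E * vE 18)) - vE 9]
  | .k12 o => inD 21 :: offD 21 o
  | .k41 o => inD 30 :: offD 30 o
  | .k44 o => inD 39 :: offD 39 o
  | .k3 o o' => (-(kE 1000 * vE 7) - kE 460 * vE 3) :: (offD 21 o ++ offD 30 o')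
  | .l1 o => lamD :: visD 48 :: inD' 48 :: offLD 48 o
  | .m44 o => lamD :: visD 60 :: inD' 60 :: offLD 60 o

/-- the definitions for `n = 5` -/
def defs5 (o : Bool) : List BE :=
  baseD o ++ ringD 12 (kE 3090170) (kE 9510565) (c5E - ME) s5E ++
    ringD 21 (-kE 8090170) (kE 5877853) (c5E - ME) s5E ++
    ringD 30 (kE 3090170) (kE 9510565) (c5E - ME) (-s5E) ++
    ringD 39 (kE 3090170) (-kE 9510565) (c5E - ME) (-s5E) ++
    genD 48 (kE 3090170) (kE 9510565) (kE 0) (kE 0) (r5E * vE 18) ++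
    genD 60 (kE 3090170) (-kE 9510565) (c5E * vE 16 + s5E * vE 17)
      (c5E * vE 17 - s5E * vE 16) (ME * vE 18)

/-- the definitions for `n = 7` -/
def defs7 (o : Bool) : List BE :=
  baseD o ++ ringD 12 (kE 6234898) (kE 7818315) (c5E - ME) s5E ++
    ringD 21 (-kE 2225209) (kE 9749279) (c5E - ME) (-s5E)

/-- the definitions for the second charts -/
def defs5b : List BE := baseD false ++ ringD 12 (kE 3090170) (kE 9510565) (c5E - ME) s5E
/-- the definitions for the second charts -/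
def defs7b : List BE := baseD false ++ ringD 12 (kE 6234898) (kE 7818315) (c5E - ME) s5E

end Pool.Agent.Lib.MP_c5a075_co
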