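import Pool.Agent.Lib.MP_c5a075_co.CrossP
import Pool.Agent.Lib.MP_c5a075_co.Star

/-! Numerical values of the constants of the cross case. -/

set_option autoImplicit false

namespace Pool.Agent.Lib.MP_c5a075_co

noncomputable section

open Real Pool.Agent.Lib.BoxPos

lemma sqrt5_gt' : (2.23606797:ℝ) < √5 := by
  rw [show (2.23606797:ℝ) = √(2.23606797 ^ 2) from (Real.sqrt_sq (by norm_num)).symm]
  exact Real.sqrt_lt_sqrt (by norm_num) (by norm_num)

lemma c5_gt' : (0.30901699:ℝ) < c5 := by have := sqrt5_gt'; unfold c5; linarith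

lemma s5_gt' : (0.95105651:ℝ) < s5 := by
  have h1 := s5_sq'
  have h2 := c5_gt'
  have h3 := s5_pos
  nlinarith

lemma s5_lt' : s5 < (0.95105653:ℝ) := by
  have h1 := s5_sq'
  have h2 := c5_lt
  have h3 := s5_pos
  nlinarith

lemma kc5 : |c5 - 0.3090170| ≤ 1e-7 := by
  have := c5_gt'; have := c5_lt; rw [abs_le]; constructor <;> linarith
lemma ks5 : |s5 - 0.9510565| ≤ 1e-7 := by
  have := s5_gt'; have := s5_lt'; rw [abs_le]; constructor <;> linarith
lemma ks5n : |-s5 - -0.9510565| ≤ 1e-7 := by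
  have := s5_gt'; have := s5_lt'; rw [abs_le]; constructor <;> linarith
lemma kc5' : |(c5 - 1) - (0.3090170 - 1)| ≤ 1e-7 := by
  have := c5_gt'; have := c5_lt; rw [abs_le]; constructor <;> linarith
lemma kc52 : |(2 * c5 ^ 2 - 1) - -0.8090170| ≤ 1e-7 := by
  have := c5_gt'; have := c5_lt; have := c5_sq; rw [abs_le]; constructor <;> linarith
lemma ks52 : |2 * s5 * c5 - 0.5877853| ≤ 1e-7 := by
  have h1 := c5_gt'; have h2 := c5_lt; have h3 := s5_gt'; have h4 := s5_lt'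
  rw [abs_le]; constructor <;> nlinarith
lemma ki5 : |5 * i5 - 2.2360680| ≤ 1e-7 := by
  have h1 := c5_i5; have h2 := c5_gt'; have h3 := c5_lt
  rw [abs_le]; constructor <;> linarith

lemma cs52 : (2 * c5 ^ 2 - 1) ^ 2 + (2 * s5 * c5) ^ 2 = 1 := by
  have h := c5_sq_add
  have : s5 ^ 2 = 1 - c5 ^ 2 := by linarith
  have e : (2 * s5 * c5) ^ 2 = 4 * s5 ^ 2 * c5 ^ 2 := by ring
  rw [e, this]; ring

lemma cs5n : c5 ^ 2 + (-s5) ^ 2 = 1 := by rw [neg_sq]; exact c5_sq_add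

/-! ### The heptagon -/

/-- `cos (2 π / 7)` -/
def c7 : ℝ := cos (2 * π / 7)
/-- `sin (2 π / 7)` -/
def s7 : ℝ := sin (2 * π / 7)

lemma c7_root : 8 * c7 ^ 3 + 4 * c7 ^ 2 - 4 * c7 - 1 = 0 := by
  have h1 : cos (3 * (2 * π / 7)) = cos (4 * (2 * π / 7)) := by
    have : 4 * (2 * π / 7) = 2 * π - 3 * (2 * π / 7) := by ring
    rw [this, Real.cos_two_pi_sub]
  have h2 : cos (3 * (2 * π / 7)) = 4 * c7 ^ 3 - 3 * c7 := Real.cos_three_mul _
  have h3 : cos (4 * (2 * π / 7)) = 2 * (2 * c7 ^ 2 - 1) ^ 2 - 1 := by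
    have : 4 * (2 * π / 7) = 2 * (2 * (2 * π / 7)) := by ring
    rw [this, Real.cos_two_mul, Real.cos_two_mul]; rfl
  have h4 : (c7 - 1) * (8 * c7 ^ 3 + 4 * c7 ^ 2 - 4 * c7 - 1) = 0 := by
    rw [h2, h3] at h1; linear_combination -h1
  have h5 : c7 < 1 := by
    have hpi := Real.pi_pos
    have := Real.cos_lt_cos_of_nonneg_of_le_pi (x := 0) (y := 2 * π / 7) le_rfl
      (by linarith) (by positivity)
    rwa [Real.cos_zero] at this
  rcases mul_eq_zero.1 h4 with h | h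
  · linarith
  · exact h

lemma c7_gt : (0.6234898:ℝ) < c7 := by
  have h1 := cos_seven (n := 7) le_rfl
  have h2 := c7_root
  have h3 : (0.61:ℝ) < c7 := by
    have : ((7:ℕ):ℝ) = 7 := by norm_num
    rw [this] at h1; exact h1
  by_contra hcon
  push Not at hcon
  nlinarith [mul_nonneg (sub_nonneg.2 hcon) (sub_nonneg.2 h3.le), sq_nonneg (c7 - 0.61),
    sq_nonneg c7]

lemma c7_lt : c7 < (0.62348981:ℝ) := by
  have h2 := c7_root
  by_contra hcon
  push Not at hcon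
  have h3 : (0:ℝ) ≤ c7 - 0.62348981 := by linarith
  nlinarith [mul_nonneg h3 h3, mul_nonneg (mul_nonneg h3 h3) h3]

lemma s7_pos : 0 < s7 := by
  have hpi := Real.pi_pos
  exact Real.sin_pos_of_pos_of_lt_pi (by positivity) (by linarith)

lemma cs7 : c7 ^ 2 + s7 ^ 2 = 1 := Real.cos_sq_add_sin_sq _

lemma s7_gt : (0.78183147:ℝ) < s7 := by
  have h1 := cs7; have h2 := c7_lt; have h3 := c7_gt; have h4 := s7_pos
  nlinarith

lemma s7_lt : s7 < (0.78183149:ℝ) := by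
  have h1 := cs7; have h2 := c7_lt; have h3 := c7_gt; have h4 := s7_pos
  nlinarith

lemma kc7 : |c7 - 0.6234898| ≤ 1e-7 := by
  have := c7_gt; have := c7_lt; rw [abs_le]; constructor <;> linarith
lemma ks7 : |s7 - 0.7818315| ≤ 1e-7 := by
  have := s7_gt; have := s7_lt; rw [abs_le]; constructor <;> linarith

lemma kc72 : |(2 * c7 ^ 2 - 1) - -0.2225209| ≤ 1e-7 := by
  have := c7_gt; have := c7_lt; rw [abs_le]; constructor <;> nlinarith
lemma ks72 : |2 * s7 * c7 - 0.9749279| ≤ 1e-7 := by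
  have h1 := c7_gt; have h2 := c7_lt; have h3 := s7_gt; have h4 := s7_lt
  rw [abs_le]; constructor <;> nlinarith

lemma cs72 : (2 * c7 ^ 2 - 1) ^ 2 + (2 * s7 * c7) ^ 2 = 1 := by
  have h := cs7
  have : s7 ^ 2 = 1 - c7 ^ 2 := by linarith
  have e : (2 * s7 * c7) ^ 2 = 4 * s7 ^ 2 * c7 ^ 2 := by ring
  rw [e, this]; ring

end

end Pool.Agent.Lib.MP_c5a075_co
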