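import Pool.Agent.Lib.MP_c5a075_co.CrossR

/-! Perturbation of the words and of the tests. -/

set_option autoImplicit false

namespace Pool.Agent.Lib.MP_c5a075_co

noncomputable section

open Real Pool.Agent.Lib.BoxPos

lemma norm_vec_le (a b c : ℝ) : ‖vec a b c‖ ≤ |a| + |b| + |c| := by
  rw [norm_le_iff _ (by positivity)]
  simp only [dot, vec_0, vec_1, vec_2]
  have h1 := abs_nonneg a
  have h2 := abs_nonneg b
  have h3 := abs_nonneg c
  have e1 := sq_abs a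
  have e2 := sq_abs b
  have e3 := sq_abs c
  nlinarith [mul_nonneg h1 h2, mul_nonneg h1 h3, mul_nonneg h2 h3]

lemma norm_wT {T : ℝ} (h0 : 0 ≤ T) (h1 : T ≤ 1) : ‖wT T‖ ≤ 3 / 2 := by
  rw [norm_le_iff _ (by norm_num)]
  simp only [wT, dot, vec_0, vec_1, vec_2]
  nlinarith

/-- perturbation of a ring word -/
lemma rgw_close {b : E3} (hb : dot b b = 1) {c s v0 v1 c' s' v0' v1' T : ℝ}
    (h : c ^ 2 + s ^ 2 = 1) (hc : |c - c'| ≤ 1e-7) (hs : |s - s'| ≤ 1e-7)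
    (h0 : |v0 - v0'| ≤ 1e-7) (h1 : |v1 - v1'| ≤ 1e-7) (m0 : |v0'| ≤ 1 - 1e-7)
    (m1 : |v1'| ≤ 1 - 1e-7)
    (hT0 : 0 ≤ T) (hT1 : T ≤ 1) :
    ‖rgw b c s v0 v1 T - rgw b c' s' v0' v1' T‖ ≤ 1e-6 ∧
    |rgf b c s v0 v1 T - rgf b c' s' v0' v1' T| ≤ 3e-6 ∧ ‖rgw b c s v0 v1 T‖ ≤ 7 / 2 := by
  obtain ⟨v, hv⟩ : ∃ v, v = vec v0 v1 0 := ⟨_, rfl⟩
  obtain ⟨v', hv'⟩ : ∃ v', v' = vec v0' v1' 0 := ⟨_, rfl⟩
  have e1 : ‖v - v'‖ ≤ 2e-7 := by
    have : v - v' = vec (v0 - v0') (v1 - v1') 0 := by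
      rw [hv, hv']; apply ext3 <;> simp
    rw [this]
    refine (norm_vec_le _ _ _).trans ?_
    rw [abs_zero]
    linarith
  have e2 : ‖v'‖ ≤ 2 := by
    rw [hv']
    refine (norm_vec_le _ _ _).trans ?_
    rw [abs_zero]
    linarith
  have e3 : ‖v‖ ≤ 2 := by
    rw [hv]
    refine (norm_vec_le _ _ _).trans ?_
    rw [abs_zero]
    have a0 : |v0| ≤ |v0 - v0'| + |v0'| := by
      have := abs_add_le (v0 - v0') v0'
      rwa [sub_add_cancel] at this
    have a1 : |v1| ≤ |v1 - v1'| + |v1'| := by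
      have := abs_add_le (v1 - v1') v1'
      rwa [sub_add_cancel] at this
    linarith
  have e4 := rot_close hb h hc hs e1 e2
  have e5 : ‖rot b c s v - rot b c' s' v'‖ ≤ 1e-6 := by linarith
  have e6 := abs_coord_le (rot b c s v - rot b c' s' v')
  simp only [sub_0, sub_1, sub_2] at e6
  have f0 := abs_le.1 (e6.1.trans e5)
  have f2 := abs_le.1 (e6.2.2.trans e5)
  have k0 := abs_le.1 h0
  refine ⟨?_, ?_, ?_⟩
  · have : rgw b c s v0 v1 T - rgw b c' s' v0' v1' T = T • (rot b c s v - rot b c' s' v') := by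
      rw [rgw, rgw, hv, hv', smul_sub]; abel
    rw [this, norm_smul, Real.norm_eq_abs, abs_of_nonneg hT0]
    calc T * ‖rot b c s v - rot b c' s' v'‖ ≤ 1 * 1e-6 :=
          mul_le_mul hT1 e5 (norm_nonneg _) zero_le_one
      _ = 1e-6 := one_mul _
  · have : rgf b c s v0 v1 T - rgf b c' s' v0' v1' T =
        T * ((rot b c s v 0 - rot b c' s' v' 0) - (v0 - v0')) +
          (rot b c s v 2 - rot b c' s' v' 2) := by
      rw [rgf, rgf, hv, hv']; ring
    rw [this, abs_le]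
    constructor <;> nlinarith
  · rw [rgw, ← hv]
    refine (norm_add_le _ _).trans ?_
    rw [norm_smul, Real.norm_eq_abs, abs_of_nonneg hT0, norm_rot b hb c s h]
    have := norm_wT hT0 hT1
    have : T * ‖v‖ ≤ 1 * 2 := mul_le_mul hT1 e3 (norm_nonneg _) zero_le_one
    linarith

lemma dot_close {u u' : E3} {e m : ℝ} (h : ‖u - u'‖ ≤ e) (hm : ‖u‖ ≤ m) (hm' : ‖u'‖ ≤ m) :
    |dot u u - dot u' u'| ≤ 2 * e * m := by
  rw [← norm_sq, ← norm_sq]
  have h1 : |‖u‖ - ‖u'‖| ≤ ‖u - u'‖ := abs_norm_sub_norm_le _ _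
  have e1 : ‖u‖ ^ 2 - ‖u'‖ ^ 2 = (‖u‖ - ‖u'‖) * (‖u‖ + ‖u'‖) := by ring
  have h2 := norm_nonneg u
  have h3 := norm_nonneg u'
  rw [e1, abs_mul, abs_of_nonneg (by positivity : 0 ≤ ‖u‖ + ‖u'‖)]
  calc |‖u‖ - ‖u'‖| * (‖u‖ + ‖u'‖) ≤ e * (m + m) :=
        mul_le_mul (h1.trans h) (add_le_add hm hm') (by positivity) ((norm_nonneg _).trans h)
    _ = 2 * e * m := by ring

/-- perturbation of a general word -/
lemma gnw_close {b : E3} (hb : dot b b = 1) {c s c' s' T : ℝ} {y y' : E3}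
    (h : c ^ 2 + s ^ 2 = 1) (hc : |c - c'| ≤ 1e-7) (hs : |s - s'| ≤ 1e-7)
    (hy : ‖y - y'‖ ≤ 1e-5) (hy' : ‖y'‖ ≤ 10)
    (hT0 : 0 ≤ T) (hT1 : T ≤ 1) :
    ‖gnw b c s y T - gnw b c' s' y' T‖ ≤ 2e-5 ∧
    |gnf b c s y T - gnf b c' s' y' T| ≤ 1e-3 ∧
    |dot (y - wT T) (y - wT T) - dot (y' - wT T) (y' - wT T)| ≤ 3e-4 := by
  obtain ⟨u, hu⟩ : ∃ u, u = y - wT T := ⟨_, rfl⟩
  obtain ⟨u', hu'⟩ : ∃ u', u' = y' - wT T := ⟨_, rfl⟩
  have hw := norm_wT hT0 hT1
  have e0 : u - u' = y - y' := by rw [hu, hu']; abel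
  have e1 : ‖u - u'‖ ≤ 1e-5 := by rw [e0]; exact hy
  have e2 : ‖u'‖ ≤ 12 := by
    rw [hu']
    exact (norm_sub_le _ _).trans (by linarith)
  have e3 : ‖u‖ ≤ 12 := by
    have h1 : ‖u‖ ≤ ‖u - u'‖ + ‖u'‖ := by
      have := norm_add_le (u - u') u'
      rwa [sub_add_cancel] at this
    have h2 : ‖u'‖ ≤ 23 / 2 := by
      rw [hu']
      exact (norm_sub_le _ _).trans (by linarith)
    linarith
  have e4 := rot_close hb h hc hs e1 e2
  have e5 : ‖rot b c s u - rot b c' s' u'‖ ≤ 2e-5 := by linarith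
  have e6 := abs_coord_le (rot b c s u - rot b c' s' u')
  simp only [sub_0, sub_1, sub_2] at e6
  have f0 := abs_le.1 (e6.1.trans e5)
  have f2 := abs_le.1 (e6.2.2.trans e5)
  have e7 := dot_close e1 e3 e2
  have e8 : |dot u u - dot u' u'| ≤ 3e-4 := by linarith
  have k := abs_le.1 e8
  refine ⟨?_, ?_, ?_⟩
  · have : gnw b c s y T - gnw b c' s' y' T = rot b c s u - rot b c' s' u' := by
      rw [gnw, gnw, hu, hu']; abel
    rw [this]; exact e5
  · have : gnf b c s y T - gnf b c' s' y' T =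
        2 * (T * (rot b c s u 0 - rot b c' s' u' 0) +
          (rot b c s u 2 - rot b c' s' u' 2)) + (dot u u - dot u' u') := by
      rw [gnf, gnf, ← hu, ← hu']; ring
    rw [this, abs_le]
    constructor <;> nlinarith
  · rw [← hu, ← hu']; exact e8

lemma Gq_close {P P' : E3} (h : ‖P - P'‖ ≤ 1e-6) (hm : ‖P‖ ≤ 7 / 2) :
    |Gq P - Gq P'| ≤ 1e-4 := by
  have h1 := abs_coord_le (P - P')
  simp only [sub_0, sub_1, sub_2] at h1
  have h2 := abs_coord_le P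
  have a0 := abs_le.1 (h1.1.trans h)
  have a1 := abs_le.1 (h1.2.1.trans h)
  have a2 := abs_le.1 (h1.2.2.trans h)
  have b0 := abs_le.1 (h2.1.trans hm)
  have b1 := abs_le.1 (h2.2.1.trans hm)
  have b2 := abs_le.1 (h2.2.2.trans hm)
  have key : ∀ x x' : ℝ, (-1e-6 ≤ x - x' ∧ x - x' ≤ 1e-6) → (-(7 / 2) ≤ x ∧ x ≤ 7 / 2) →
      |x ^ 2 - x' ^ 2| ≤ 8e-6 := by
    intro x x' hx hx'
    have e : x ^ 2 - x' ^ 2 = (x - x') * (2 * x - (x - x')) := by ring
    rw [e, abs_mul]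
    have g1 : |x - x'| ≤ 1e-6 := abs_le.2 (by constructor <;> linarith)
    have g2 : |2 * x - (x - x')| ≤ 8 := abs_le.2 (by constructor <;> linarith)
    calc |x - x'| * |2 * x - (x - x')| ≤ 1e-6 * 8 :=
          mul_le_mul g1 g2 (abs_nonneg _) (by norm_num)
      _ = 8e-6 := by norm_num
  have k0 := abs_le.1 (key _ _ a0 b0)
  have k1 := abs_le.1 (key _ _ a1 b1)
  have k2 := abs_le.1 (key _ _ a2 b2)
  have e : Gq P - Gq P' = (P 0 ^ 2 - P' 0 ^ 2) + (P 1 ^ 2 - P' 1 ^ 2) -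
      4 * (P 2 ^ 2 - P' 2 ^ 2) := by rw [Gq, Gq]; ring
  rw [e, abs_le]
  constructor <;> linarith

lemma MM_pos : 0 < MM := by unfold MM; norm_num

lemma offK_of_pos {P : E3} (h : 0 < Gq P) : OffK P := by
  refine ⟨h.ne', ?_⟩
  rintro ⟨h0, h1⟩
  rw [Gq, h0, h1] at h
  nlinarith [sq_nonneg (P 2)]

/-- conclusion of the quadratic tests -/
lemma off_ring {ys : List ℝ} {b : E3} {D T : ℝ} (hB : BaseV ys b D T) (hD : 0 < D) {i : ℕ}
    {P P' : E3} {f' : ℝ} (hP' : RgV ys i D P' f') (h : ‖P - P'‖ ≤ 1e-6) (hm : ‖P‖ ≤ 7 / 2)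
    {o : Off} (ho : ∀ e ∈ offD i o, 0 < E.ev ys e) : OffK P := by
  obtain ⟨S, hS⟩ : ∃ S, S = MM ^ 2 * D ^ 2 := ⟨_, rfl⟩
  have hS0 : 0 < S := by have := MM_pos; rw [hS]; positivity
  have hG := abs_le.1 (Gq_close h hm)
  have h1 := abs_coord_le (P - P')
  simp only [sub_0, sub_1, sub_2] at h1
  have a0 := abs_le.1 (h1.1.trans h)
  have a1 := abs_le.1 (h1.2.1.trans h)
  have k8 := hB.h8
  have k11 := hB.h11
  obtain ⟨kX, kY, kZ, kF, kg⟩ := hP'
  rw [← hS] at k8 k11 kX kY kZ kF kg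
  have hSS : 0 < S ^ 2 := by positivity
  have neg : 0 < (-(kE 100 * vE (i + 8)) - vE 11 : BE).ev ys → Gq P < 0 := by
    intro h
    rw [ev_s, ev_n, ev_m, ev_k, ev_v, ev_v, kg, k11] at h
    have : 0 < S ^ 2 * (-(100 * Gq P') - 1) := by push_cast at h; linarith
    have := (mul_pos_iff_of_pos_left hSS).1 this
    linarith
  have lin : ∀ x : ℝ, 0 < 1000 * (S * x) - S → 1e-3 < x := by
    intro x hx
    have : 0 < S * (1000 * x - 1) := by linarith
    have := (mul_pos_iff_of_pos_left hS0).1 this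
    linarith
  cases o with
  | g =>
    have h2 := ho _ (List.mem_singleton.2 rfl)
    rw [ev_s, ev_m, ev_k, ev_v, ev_v, kg, k11] at h2
    have : 0 < S ^ 2 * (100 * Gq P' - 1) := by push_cast at h2; linarith
    have := (mul_pos_iff_of_pos_left hSS).1 this
    exact offK_of_pos (by linarith)
  | xp =>
    have h2 := neg (ho _ (by simp [offD]))
    have h3 := ho (kE 1000 * vE (i + 4) - vE 8) (by simp [offD])
    rw [ev_s, ev_m, ev_k, ev_v, ev_v, kX, k8] at h3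
    have h4 := lin (P' 0) (by push_cast at h3; linarith)
    exact ⟨h2.ne, fun h5 => by rw [h5.1] at a0; linarith⟩
  | xm =>
    have h2 := neg (ho _ (by simp [offD]))
    have h3 := ho (kE 1000 * -vE (i + 4) - vE 8) (by simp [offD])
    rw [ev_s, ev_m, ev_k, ev_n, ev_v, ev_v, kX, k8] at h3
    have h4 := lin (-P' 0) (by push_cast at h3; linarith)
    exact ⟨h2.ne, fun h5 => by rw [h5.1] at a0; linarith⟩
  | yp =>
    have h2 := neg (ho _ (by simp [offD]))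
    have h3 := ho (kE 1000 * vE (i + 5) - vE 8) (by simp [offD])
    rw [ev_s, ev_m, ev_k, ev_v, ev_v, kY, k8] at h3
    have h4 := lin (P' 1) (by push_cast at h3; linarith)
    exact ⟨h2.ne, fun h5 => by rw [h5.2] at a1; linarith⟩
  | ym =>
    have h2 := neg (ho _ (by simp [offD]))
    have h3 := ho (kE 1000 * -vE (i + 5) - vE 8) (by simp [offD])
    rw [ev_s, ev_m, ev_k, ev_n, ev_v, ev_v, kY, k8] at h3
    have h4 := lin (-P' 1) (by push_cast at h3; linarith)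
    exact ⟨h2.ne, fun h5 => by rw [h5.2] at a1; linarith⟩

/-- conclusion of the norm test -/
lemma in_ring {ys : List ℝ} {b : E3} {D T : ℝ} (hB : BaseV ys b D T) (hD : 0 < D) {i : ℕ}
    {P' : E3} {f f' : ℝ} (hP' : RgV ys i D P' f') (h : |f - f'| ≤ 3e-6)
    (ho : 0 < (inD i).ev ys) : f < 0 := by
  obtain ⟨S, hS⟩ : ∃ S, S = MM ^ 2 * D ^ 2 := ⟨_, rfl⟩
  have hS0 : 0 < S := by have := MM_pos; rw [hS]; positivity
  have k8 := hB.h8
  have kF := hP'.F
  rw [← hS] at k8 kF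
  rw [inD, ev_s, ev_n, ev_m, ev_k, ev_v, ev_v, kF, k8] at ho
  have : 0 < S * (-(1000 * f') - 1) := by push_cast at ho; linarith
  have := (mul_pos_iff_of_pos_left hS0).1 this
  have := abs_le.1 h
  linarith

lemma inside_cone {x y z : ℝ} (h1 : 0 < 2 * z - 1.415 * x) (h2 : 0 < 2 * z + 1.415 * x)
    (h3 : 0 < 2 * z - 1.415 * y) (h4 : 0 < 2 * z + 1.415 * y) : x ^ 2 + y ^ 2 - 4 * z ^ 2 < 0 := by
  have h5 : (1.415 * x) ^ 2 < (2 * z) ^ 2 := by
    have := mul_pos h1 h2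
    nlinarith only [this]
  have h6 : (1.415 * y) ^ 2 < (2 * z) ^ 2 := by
    have := mul_pos h3 h4
    nlinarith only [this]
  nlinarith only [h5, h6]

/-- conclusion of the linear tests -/
lemma off_gen {ys : List ℝ} {b : E3} {D T : ℝ} (hB : BaseV ys b D T) (hD : 0 < D) {i : ℕ}
    {P P' : E3} {f' u' : ℝ} (hP' : GnV ys i D P' f' u') (h : ‖P - P'‖ ≤ 2e-5)
    {o : OffL} (ho : ∀ e ∈ offLD i o, 0 < E.ev ys e) : OffK P := by
  obtain ⟨S, hS⟩ : ∃ S, S = MM ^ 4 * D ^ 4 := ⟨_, rfl⟩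
  have hS0 : 0 < S := by have := MM_pos; rw [hS]; positivity
  have h1 := abs_coord_le (P - P')
  simp only [sub_0, sub_1, sub_2] at h1
  have a0 := abs_le.1 (h1.1.trans h)
  have a1 := abs_le.1 (h1.2.1.trans h)
  have a2 := abs_le.1 (h1.2.2.trans h)
  have k10 := hB.h10
  obtain ⟨kX, kY, kZ, -, -⟩ := hP'
  rw [← hS] at k10 kX kY kZ
  have lin : ∀ x : ℝ, 0 < S * x - S → 1 < x := by
    intro x hx
    have : 0 < S * (x - 1) := by linarith
    have := (mul_pos_iff_of_pos_left hS0).1 this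
    linarith
  have ins : (∀ e ∈ insD i, 0 < E.ev ys e) → Gq P < 0 := by
    intro hi
    have g1 := hi (kE 2000 * vE (i + 9) - kE 1415 * vE (i + 7) - vE 10) (by simp [insD])
    have g2 := hi (kE 2000 * vE (i + 9) + kE 1415 * vE (i + 7) - vE 10) (by simp [insD])
    have g3 := hi (kE 2000 * vE (i + 9) - kE 1415 * vE (i + 8) - vE 10) (by simp [insD])
    have g4 := hi (kE 2000 * vE (i + 9) + kE 1415 * vE (i + 8) - vE 10) (by simp [insD])
    simp only [ev_s, ev_a, ev_m, ev_k, ev_v, kX, kY, kZ, k10, Nat.cast_ofNat] at g1 g2 g3 g4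
    have g1' := lin (2000 * P' 2 - 1415 * P' 0) (by linarith)
    have g2' := lin (2000 * P' 2 + 1415 * P' 0) (by linarith)
    have g3' := lin (2000 * P' 2 - 1415 * P' 1) (by linarith)
    have g4' := lin (2000 * P' 2 + 1415 * P' 1) (by linarith)
    exact inside_cone (by linarith) (by linarith) (by linarith) (by linarith)
  cases o with
  | xp =>
    have h2 := ins (fun e he => ho e (by simp only [offLD, List.mem_append]; exact Or.inl he))
    have h3 := ho (kE 1000 * vE (i + 7) - vE 10) (by simp [offLD])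
    simp only [ev_s, ev_m, ev_k, ev_v, kX, k10, Nat.cast_ofNat] at h3
    have h4 := lin (1000 * P' 0) (by linarith)
    exact ⟨h2.ne, fun h5 => by rw [h5.1] at a0; linarith⟩
  | xm =>
    have h2 := ins (fun e he => ho e (by simp only [offLD, List.mem_append]; exact Or.inl he))
    have h3 := ho (kE 1000 * -vE (i + 7) - vE 10) (by simp [offLD])
    simp only [ev_s, ev_m, ev_n, ev_k, ev_v, kX, k10, Nat.cast_ofNat] at h3
    have h4 := lin (1000 * -P' 0) (by linarith)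
    exact ⟨h2.ne, fun h5 => by rw [h5.1] at a0; linarith⟩
  | yp =>
    have h2 := ins (fun e he => ho e (by simp only [offLD, List.mem_append]; exact Or.inl he))
    have h3 := ho (kE 1000 * vE (i + 8) - vE 10) (by simp [offLD])
    simp only [ev_s, ev_m, ev_k, ev_v, kY, k10, Nat.cast_ofNat] at h3
    have h4 := lin (1000 * P' 1) (by linarith)
    exact ⟨h2.ne, fun h5 => by rw [h5.2] at a1; linarith⟩
  | ym =>
    have h2 := ins (fun e he => ho e (by simp only [offLD, List.mem_append]; exact Or.inl he))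
    have h3 := ho (kE 1000 * -vE (i + 8) - vE 10) (by simp [offLD])
    simp only [ev_s, ev_m, ev_n, ev_k, ev_v, kY, k10, Nat.cast_ofNat] at h3
    have h4 := lin (1000 * -P' 1) (by linarith)
    exact ⟨h2.ne, fun h5 => by rw [h5.2] at a1; linarith⟩
  | d0 =>
    have g1 := ho (kE 1000 * vE (i + 7) - kE 2000 * vE (i + 9) - vE 10) (by simp [offLD])
    have g2 := ho (kE 1000 * vE (i + 7) + kE 2000 * vE (i + 9) - vE 10) (by simp [offLD])
    simp only [ev_s, ev_a, ev_m, ev_k, ev_v, kX, kZ, k10, Nat.cast_ofNat] at g1 g2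
    have g1' := lin (1000 * P' 0 - 2000 * P' 2) (by linarith)
    have g2' := lin (1000 * P' 0 + 2000 * P' 2) (by linarith)
    apply offK_of_pos
    have q1 : 0 < P 0 - 2 * P 2 := by linarith
    have q2 : 0 < P 0 + 2 * P 2 := by linarith
    have := mul_pos q1 q2
    rw [Gq]
    nlinarith only [this]
  | d7 =>
    have g1 := ho (kE 707 * vE (i + 7) - kE 707 * vE (i + 8) - kE 2000 * vE (i + 9) - vE 10)
      (by simp [offLD])
    have g2 := ho (kE 707 * vE (i + 7) - kE 707 * vE (i + 8) + kE 2000 * vE (i + 9) - vE 10)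
      (by simp [offLD])
    simp only [ev_s, ev_a, ev_m, ev_k, ev_v, kX, kY, kZ, k10, Nat.cast_ofNat] at g1 g2
    have g1' := lin (707 * P' 0 - 707 * P' 1 - 2000 * P' 2) (by linarith)
    have g2' := lin (707 * P' 0 - 707 * P' 1 + 2000 * P' 2) (by linarith)
    apply offK_of_pos
    have q1 : 0 < 0.707 * (P 0 - P 1) - 2 * P 2 := by linarith
    have q2 : 0 < 0.707 * (P 0 - P 1) + 2 * P 2 := by linarith
    have := mul_pos q1 q2
    rw [Gq]
    nlinarith [sq_nonneg (P 0 + P 1), sq_nonneg (P 0 - P 1)]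

/-- conclusion of the norm test -/
lemma in_gen {ys : List ℝ} {b : E3} {D T : ℝ} (hB : BaseV ys b D T) (hD : 0 < D) {i : ℕ}
    {P' : E3} {f f' u' : ℝ} (hP' : GnV ys i D P' f' u') (h : |f - f'| ≤ 1e-3)
    (ho : 0 < (inD' i).ev ys) : f < 0 := by
  obtain ⟨S, hS⟩ : ∃ S, S = MM ^ 3 * D ^ 2 := ⟨_, rfl⟩
  have hS0 : 0 < S ^ 2 := by have := MM_pos; rw [hS]; positivity
  have k9 := hB.h9
  have kF := hP'.F
  rw [← hS] at k9 kF
  rw [inD', ev_s, ev_n, ev_m, ev_k, ev_v, ev_m, ev_v, kF, k9] at ho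
  have : 0 < S ^ 2 * (-(100 * f') - 1) := by push_cast at ho; linarith
  have := (mul_pos_iff_of_pos_left hS0).1 this
  have := abs_le.1 h
  linarith

/-- conclusion of the visibility test -/
lemma vis_gen {ys : List ℝ} {b : E3} {D T : ℝ} (hB : BaseV ys b D T) (hD : 0 < D) {i : ℕ}
    {P' : E3} {u f' u' : ℝ} (hP' : GnV ys i D P' f' u') (h : |u - u'| ≤ 3e-4)
    (ho : 0 < (visD i).ev ys) : u < 0.5704 * (T ^ 2 + 1) := by
  obtain ⟨S, hS⟩ : ∃ S, S = MM ^ 3 * D ^ 2 := ⟨_, rfl⟩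
  have hS0 : 0 < S ^ 2 := by have := MM_pos; rw [hS]; positivity
  have k9 := hB.h9
  have kU := hP'.U
  rw [← hS] at k9 kU
  simp only [visD, ev_s, ev_a, ev_m, ev_k, ev_v, kU, k9, hB.h2, Nat.cast_ofNat] at ho
  have : 0 < S ^ 2 * (1000 * (5704 * (T ^ 2 + 1) - 10000 * u') - 10000) := by
    push_cast at ho; linarith
  have := (mul_pos_iff_of_pos_left hS0).1 this
  have := abs_le.1 h
  linarith

/-- conclusion of the size test for `λ` -/
lemma lam_gen {ys : List ℝ} {b : E3} {D T : ℝ} (hB : BaseV ys b D T) (hD : 0 < D)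
    {P P' : E3} {f' : ℝ} (hP' : RgV ys 12 D P' f') (h : ‖P - P'‖ ≤ 1e-6) (hm : ‖P‖ ≤ 7 / 2)
    (ho : 0 < lamD.ev ys) : 5 * P 2 ^ 2 < 0.5704 * (T ^ 2 + 1) := by
  obtain ⟨S, hS⟩ : ∃ S, S = MM ^ 2 * D ^ 2 := ⟨_, rfl⟩
  have hS0 : 0 < S ^ 2 := by have := MM_pos; rw [hS]; positivity
  have k11 := hB.h11
  have kZ := hP'.Z
  rw [← hS] at k11 kZ
  norm_num at kZ
  simp only [lamD, ev_s, ev_a, ev_m, ev_k, ev_v, kZ, k11, hB.h2, Nat.cast_ofNat] at ho
  have : 0 < S ^ 2 * (1000 * (5704 * (T ^ 2 + 1) - 50000 * P' 2 ^ 2) - 10000) := by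
    push_cast at ho; linarith
  have h3 := (mul_pos_iff_of_pos_left hS0).1 this
  have h1 := abs_coord_le (P - P')
  simp only [sub_0, sub_1, sub_2] at h1
  have a2 := abs_le.1 (h1.2.2.trans h)
  have h2 := abs_le.1 ((abs_coord_le P).2.2.trans hm)
  have e : P 2 ^ 2 - P' 2 ^ 2 = (P 2 - P' 2) * (2 * P 2 - (P 2 - P' 2)) := by ring
  have h4 : P 2 ^ 2 - P' 2 ^ 2 ≤ 1e-4 := by
    rw [e]
    refine (le_abs_self _).trans ?_
    rw [abs_mul]
    have g1 : |P 2 - P' 2| ≤ 1e-6 := abs_le.2 (by constructor <;> linarith)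
    have g2 : |2 * P 2 - (P 2 - P' 2)| ≤ 8 := abs_le.2 (by constructor <;> linarith)
    calc |P 2 - P' 2| * |2 * P 2 - (P 2 - P' 2)| ≤ 1e-6 * 8 :=
          mul_le_mul g1 g2 (abs_nonneg _) (by norm_num)
      _ ≤ 1e-4 := by norm_num
  linarith

end

end Pool.Agent.Lib.MP_c5a075_co
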