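import Pool.Agent.Lib.MP_c5a075_co.Frame

/-! The pentagonal ring: basic definitions, symmetry, choice of multiples. -/

set_option autoImplicit false

namespace Pool.Agent.Lib.MP_c5a075_co

noncomputable section

open Real

/-! ### Choice of multiples of a rotation -/

lemma exists_mult {n : ℕ} (h : 7 ≤ n) :
    ∃ k : ℤ, 1 / 2 < cos (k * (2 * π / n)) ∧ 1 / 2 ≤ sin (k * (2 * π / n)) := by
  have hn : (7:ℝ) ≤ n := by exact_mod_cast h
  have hpi := Real.pi_pos
  obtain ⟨φ, hφ⟩ : ∃ φ, φ = 2 * π / n := ⟨_, rfl⟩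
  have hφ0 : 0 < φ := by rw [hφ]; positivity
  have hφ1 : φ ≤ 2 * π / 7 := by
    rw [hφ]; exact div_le_div_of_nonneg_left (by positivity) (by norm_num) hn
  have key : ∀ x : ℝ, π / 6 ≤ x → x < π / 3 → 1 / 2 < cos x ∧ 1 / 2 ≤ sin x := by
    intro x h1 h2
    constructor
    · have := Real.cos_lt_cos_of_nonneg_of_le_pi_div_two (x := x) (y := π / 3) (by linarith)
        (by linarith) h2
      rwa [Real.cos_pi_div_three] at this
    · have := Real.sin_le_sin_of_le_of_le_pi_div_two (x := π / 6) (y := x) (by linarith)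
        (by linarith) h1
      rwa [Real.sin_pi_div_six] at this
  rw [← hφ]
  rcases lt_or_ge (π / 6) φ with h1 | h1
  · refine ⟨1, ?_⟩
    have := key φ h1.le (by linarith)
    simpa using this
  · refine ⟨⌈(π / 6) / φ⌉, ?_⟩
    have h2 := Int.le_ceil ((π / 6) / φ)
    have h3 := Int.ceil_lt_add_one ((π / 6) / φ)
    apply key
    · rw [div_le_iff₀ hφ0] at h2; exact h2
    · have h4 : (⌈(π / 6) / φ⌉ : ℝ) * φ < ((π / 6) / φ + 1) * φ :=
        mul_lt_mul_of_pos_right h3 hφ0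
      have h5 : ((π / 6) / φ + 1) * φ = π / 6 + φ := by field_simp
      rw [h5] at h4; linarith

lemma exists_round {n : ℕ} (h : 5 ≤ n) (C S : ℝ) :
    ∃ k : ℤ, C * cos (k * (2 * π / n)) + S * sin (k * (2 * π / n)) ≤
      -(4 / 5) * √(C ^ 2 + S ^ 2) := by
  have hn : (5:ℝ) ≤ n := by exact_mod_cast h
  have hpi := Real.pi_pos
  obtain ⟨φ, hφ⟩ : ∃ φ, φ = 2 * π / n := ⟨_, rfl⟩
  have hφ0 : 0 < φ := by rw [hφ]; positivity
  have hφ1 : φ ≤ 2 * π / 5 := by
    rw [hφ]; exact div_le_div_of_nonneg_left (by positivity) (by norm_num) hn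
  rw [← hφ]
  obtain ⟨α, hα1, hα2⟩ : ∃ α, C = √(C ^ 2 + S ^ 2) * cos α ∧ S = √(C ^ 2 + S ^ 2) * sin α := by
    have hz : ‖(⟨C, S⟩ : ℂ)‖ = √(C ^ 2 + S ^ 2) := Complex.norm_eq_sqrt_sq_add_sq _
    refine ⟨Complex.arg ⟨C, S⟩, ?_, ?_⟩
    · rw [← hz]; exact (Complex.norm_mul_cos_arg ⟨C, S⟩).symm
    · rw [← hz]; exact (Complex.norm_mul_sin_arg ⟨C, S⟩).symm
  refine ⟨round ((α + π) / φ), ?_⟩
  obtain ⟨k, hk⟩ : ∃ k : ℤ, k = round ((α + π) / φ) := ⟨_, rfl⟩
  rw [← hk]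
  have h1 : |(α + π) / φ - k| ≤ 1 / 2 := by rw [hk]; exact abs_sub_round _
  have h2 : |(k * φ - α) - π| ≤ π / 5 := by
    have e : (k * φ - α) - π = -(((α + π) / φ - k) * φ) := by field_simp; ring
    rw [e, abs_neg, abs_mul, abs_of_pos hφ0]
    have := mul_le_mul h1 hφ1 hφ0.le (by norm_num)
    linarith
  have h3 : cos (k * φ - α) ≤ -(4 / 5) := by
    have e : cos (k * φ - α) = -cos ((k * φ - α) - π) := by rw [Real.cos_sub_pi]; ring
    rw [e, ← Real.cos_abs]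
    have h4 : cos (π / 5) ≤ cos |(k * φ - α) - π| :=
      Real.cos_le_cos_of_nonneg_of_le_pi (abs_nonneg _) (by linarith) h2
    rw [Real.cos_pi_div_five] at h4
    have := sqrt5_gt
    linarith
  have h5 : C * cos (k * φ) + S * sin (k * φ) = √(C ^ 2 + S ^ 2) * cos (k * φ - α) := by
    rw [Real.cos_sub]
    generalize √(C ^ 2 + S ^ 2) = R at hα1 hα2
    rw [hα1, hα2]; ring
  rw [h5]
  have := mul_le_mul_of_nonneg_left h3 (Real.sqrt_nonneg (C ^ 2 + S ^ 2))
  linarith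

lemma cos_seven {n : ℕ} (h : 7 ≤ n) : (0.61:ℝ) < cos (2 * π / n) := by
  have hn : (7:ℝ) ≤ n := by exact_mod_cast h
  have hpi := Real.pi_pos
  have h1 : 2 * π / n ≤ 2 * (π / 7) := by
    have : 2 * π / n ≤ 2 * π / 7 := div_le_div_of_nonneg_left (by positivity) (by norm_num) hn
    linarith
  have h2 : cos (2 * (π / 7)) ≤ cos (2 * π / n) :=
    Real.cos_le_cos_of_nonneg_of_le_pi (by positivity) (by linarith) h1
  have h3 : 1 - (π / 7) ^ 2 / 2 ≤ cos (π / 7) := Real.one_sub_sq_div_two_le_cos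
  have h4 : π < 3.1416 := Real.pi_lt_d4
  have h5 : (π / 7) ^ 2 ≤ 0.2015 := by nlinarith
  rw [Real.cos_two_mul] at h2
  nlinarith

/-! ### The ring -/

/-- Unit vectors of the pentagonal ring. -/
def W (k : ℤ) : E3 := vec (cos (k * (2 * π / 5))) (sin (k * (2 * π / 5))) 0

lemma W_zero : W 0 = vec 1 0 0 := by simp [W]
lemma W_one : W 1 = vec c5 s5 0 := by
  unfold W; rw [Int.cast_one, one_mul, cos_two_pi_div_five, sin_two_pi_div_five]
lemma W_neg_one : W (-1) = vec c5 (-s5) 0 := by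
  unfold W
  rw [Int.cast_neg, Int.cast_one, neg_one_mul, Real.cos_neg, Real.sin_neg, cos_two_pi_div_five,
    sin_two_pi_div_five]
lemma W_add_five (k : ℤ) : W (k + 5) = W k := by
  unfold W
  have : ((k + 5 : ℤ) : ℝ) * (2 * π / 5) = k * (2 * π / 5) + 2 * π := by push_cast; ring
  rw [this, Real.cos_add_two_pi, Real.sin_add_two_pi]

lemma dot_W (k : ℤ) : dot (W k) (W k) = 1 := by
  simp only [dot, W, vec_0, vec_1, vec_2]
  have := Real.cos_sq_add_sin_sq ((k:ℝ) * (2 * π / 5))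
  nlinarith

/-- The frame rotated by `72k` degrees. -/
def rotFr (k : ℤ) : Fr where
  o := 0
  f1 := W k
  f2 := vec (-sin (k * (2 * π / 5))) (cos (k * (2 * π / 5))) 0
  f3 := vec 0 0 1
  σ := 1
  h11 := dot_W k
  h22 := by
    simp only [dot, vec_0, vec_1, vec_2]
    have := Real.cos_sq_add_sin_sq ((k:ℝ) * (2 * π / 5))
    nlinarith
  h33 := by simp [dot]
  h12 := by simp only [dot, W, vec_0, vec_1, vec_2]; ring
  h13 := by simp [dot, W]
  h23 := by simp [dot]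
  hσ := Or.inl rfl
  hc := by
    have := Real.cos_sq_add_sin_sq ((k:ℝ) * (2 * π / 5))
    apply ext3 <;> simp [W]
    nlinarith

/-- The reflected frame. -/
def reflFr : Fr where
  o := 0
  f1 := vec 1 0 0
  f2 := vec 0 (-1) 0
  f3 := vec 0 0 1
  σ := -1
  h11 := by simp [dot]
  h22 := by simp [dot]
  h33 := by simp [dot]
  h12 := by simp [dot]
  h13 := by simp [dot]
  h23 := by simp [dot]
  hσ := Or.inr rfl
  hc := by apply ext3 <;> simp

/-- The frame with the third axis reversed (and orientation reversed). -/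
def flipFr : Fr where
  o := 0
  f1 := vec 1 0 0
  f2 := vec 0 1 0
  f3 := vec 0 0 (-1)
  σ := -1
  h11 := by simp [dot]
  h22 := by simp [dot]
  h33 := by simp [dot]
  h12 := by simp [dot]
  h13 := by simp [dot]
  h23 := by simp [dot]
  hσ := Or.inr rfl
  hc := by apply ext3 <;> simp

lemma rotFr_lin (k : ℤ) (v : E3) : (rotFr k).lin v =
    vec (cos (k * (2 * π / 5)) * v 0 - sin (k * (2 * π / 5)) * v 1)
      (sin (k * (2 * π / 5)) * v 0 + cos (k * (2 * π / 5)) * v 1) (v 2) := by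
  apply ext3 <;> simp [Fr.lin, rotFr, W] <;> ring

lemma rotFr_W (k j : ℤ) : (rotFr k).lin (W j) = W (k + j) := by
  rw [rotFr_lin]
  have e : ((k + j : ℤ) : ℝ) * (2 * π / 5) = k * (2 * π / 5) + j * (2 * π / 5) := by
    push_cast; ring
  apply ext3
  · simp only [W, vec_0, vec_1]; rw [e, Real.cos_add]
  · simp only [W, vec_0, vec_1]; rw [e, Real.sin_add]
  · simp [W]

lemma reflFr_lin (v : E3) : reflFr.lin v = vec (v 0) (-v 1) (v 2) := by
  apply ext3 <;> simp [Fr.lin, reflFr]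

lemma reflFr_W (j : ℤ) : reflFr.lin (W j) = W (-j) := by
  rw [reflFr_lin]
  have e : ((-j : ℤ) : ℝ) * (2 * π / 5) = -(j * (2 * π / 5)) := by push_cast; ring
  apply ext3
  · simp only [W, vec_0]; rw [e, Real.cos_neg]
  · simp only [W, vec_1]; rw [e, Real.sin_neg]
  · simp [W]

lemma rotFr_map (k : ℤ) (v : E3) : (rotFr k).map v = (rotFr k).lin v := by
  rw [Fr.map]; show (0:E3) + _ = _; rw [zero_add]

lemma reflFr_map (v : E3) : reflFr.map v = reflFr.lin v := by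
  rw [Fr.map]; show (0:E3) + _ = _; rw [zero_add]

/-- The local hypotheses of the ring argument: a pentagonal ring of radius `μ` in the plane
`z = 0` around the `z`-axis, with axes at its points and two exclusion properties. The second one
only concerns points visible from the point `(0,0,-H)` of the axis. -/
structure RingHyp (X : Set E3) (μ T e H : ℝ) : Prop where
  μ_pos : 0 < μ
  μ_le : μ ≤ 1.7
  T_nn : 0 ≤ T
  e_nn : 0 ≤ e
  e_le : e ≤ 1 / 5000
  ring : ∀ k : ℤ, μ • W k ∈ X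
  flag : ∀ k : ℤ, ∃ b n, Ax X (μ • W k) b n
  zw : ∀ (k : ℤ) (b : E3) (n : ℕ), Ax X (μ • W k) b n → ∀ v ∈ X,
    dot (v - μ • W k) (v - μ • W k) ≤ 1.382 * μ ^ 2 →
    rho2 b (v - μ • W k) = 0 ∨ (1 - e) * (1 + T ^ 2) * μ ^ 2 ≤ rho2 b (v - μ • W k)
  vis : (H = 0 ∧ μ ≤ 1.25) ∨ (T = 0 ∧ 0 ≤ H ∧ 0.612 * μ ^ 2 + 1.548 * μ * H + H ^ 2 ≤ 4)
  zx : ∀ (k : ℤ), ∀ v ∈ X, dot (v - μ • W k) (v - μ • W k) = 2 * (1 - c5) * μ ^ 2 →
    dot v (W k) + T * v 2 ≤ (c5 - 1 / 1000) * μ → dot v v + 2 * H * v 2 + H ^ 2 ≤ 4 →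
    v 0 = 0 ∧ v 1 = 0

lemma RingHyp.pull_rot {X : Set E3} {μ T e H : ℝ} (h : RingHyp X μ T e H) (j : ℤ) :
    RingHyp ((rotFr j).pull X) μ T e H where
  μ_pos := h.μ_pos
  μ_le := h.μ_le
  T_nn := h.T_nn
  e_nn := h.e_nn
  e_le := h.e_le
  vis := h.vis
  ring := by
    intro k
    rw [Fr.mem_pull, rotFr_map, Fr.lin_smul, rotFr_W]
    exact h.ring _
  flag := by
    intro k
    obtain ⟨b, n, hb⟩ := h.flag (j + k)
    refine ⟨(rotFr j).co b, n, ?_⟩
    apply Fr.ax_pull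
    rw [rotFr_map, Fr.lin_smul, rotFr_W, Fr.lin_co]
    exact hb
  zw := by
    intro k b n hb v hv hd
    have h1 := (rotFr j).ax_push hb
    rw [rotFr_map, Fr.lin_smul, rotFr_W] at h1
    rw [Fr.mem_pull, rotFr_map] at hv
    have e1 : (rotFr j).lin v - μ • W (j + k) = (rotFr j).lin (v - μ • W k) := by
      rw [Fr.lin_sub, Fr.lin_smul, rotFr_W]
    have h2 := h.zw (j + k) _ n h1 _ hv (by rw [e1, Fr.dot_lin]; exact hd)
    rw [e1, Fr.rho2_lin] at h2
    exact h2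
  zx := by
    intro k v hv hd hle hvis
    rw [Fr.mem_pull, rotFr_map] at hv
    have e1 : (rotFr j).lin v - μ • W (j + k) = (rotFr j).lin (v - μ • W k) := by
      rw [Fr.lin_sub, Fr.lin_smul, rotFr_W]
    have e2 : dot ((rotFr j).lin v) (W (j + k)) = dot v (W k) := by
      rw [← rotFr_W, Fr.dot_lin]
    have e3 : ((rotFr j).lin v) 2 = v 2 := by rw [rotFr_lin]; rfl
    have h2 := h.zx (j + k) _ hv (by rw [e1, Fr.dot_lin]; exact hd) (by rw [e2, e3]; exact hle)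
      (by rw [e3, Fr.dot_lin]; exact hvis)
    rw [rotFr_lin] at h2
    simp only [vec_0, vec_1] at h2
    have hcs := Real.cos_sq_add_sin_sq ((j:ℝ) * (2 * π / 5))
    obtain ⟨h3, h4⟩ := h2
    constructor
    · linear_combination (cos (j * (2 * π / 5))) * h3 + (sin (j * (2 * π / 5))) * h4 - v 0 * hcs
    · linear_combination (-(sin (j * (2 * π / 5)))) * h3 + (cos (j * (2 * π / 5))) * h4 - v 1 * hcs

lemma RingHyp.pull_refl {X : Set E3} {μ T e H : ℝ} (h : RingHyp X μ T e H) :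
    RingHyp (reflFr.pull X) μ T e H where
  μ_pos := h.μ_pos
  μ_le := h.μ_le
  T_nn := h.T_nn
  e_nn := h.e_nn
  e_le := h.e_le
  vis := h.vis
  ring := by
    intro k
    rw [Fr.mem_pull, reflFr_map, Fr.lin_smul, reflFr_W]
    exact h.ring _
  flag := by
    intro k
    obtain ⟨b, n, hb⟩ := h.flag (-k)
    refine ⟨reflFr.co b, n, ?_⟩
    apply Fr.ax_pull
    rw [reflFr_map, Fr.lin_smul, reflFr_W, Fr.lin_co]
    exact hb
  zw := by
    intro k b n hb v hv hd
    have h1 := reflFr.ax_push hb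
    rw [reflFr_map, Fr.lin_smul, reflFr_W] at h1
    rw [Fr.mem_pull, reflFr_map] at hv
    have e1 : reflFr.lin v - μ • W (-k) = reflFr.lin (v - μ • W k) := by
      rw [Fr.lin_sub, Fr.lin_smul, reflFr_W]
    have h2 := h.zw (-k) _ n h1 _ hv (by rw [e1, Fr.dot_lin]; exact hd)
    rw [e1, Fr.rho2_lin] at h2
    exact h2
  zx := by
    intro k v hv hd hle hvis
    rw [Fr.mem_pull, reflFr_map] at hv
    have e1 : reflFr.lin v - μ • W (-k) = reflFr.lin (v - μ • W k) := by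
      rw [Fr.lin_sub, Fr.lin_smul, reflFr_W]
    have e2 : dot (reflFr.lin v) (W (-k)) = dot v (W k) := by
      rw [← reflFr_W, Fr.dot_lin]
    have e3 : (reflFr.lin v) 2 = v 2 := by rw [reflFr_lin]; rfl
    have h2 := h.zx (-k) _ hv (by rw [e1, Fr.dot_lin]; exact hd) (by rw [e2, e3]; exact hle)
      (by rw [e3, Fr.dot_lin]; exact hvis)
    rw [reflFr_lin] at h2
    simp only [vec_0, vec_1] at h2
    exact ⟨h2.1, by linarith [h2.2]⟩

end

end Pool.Agent.Lib.MP_c5a075_co
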