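import Pool.Agent.Lib.MP_c5a075_co.CrossE
import Pool.Agent.Lib.MP_c5a075_co.RingBase

/-! Real values of the expressions for the cross case, and the words they stand for. -/

set_option autoImplicit false

namespace Pool.Agent.Lib.MP_c5a075_co

noncomputable section

open Real Pool.Agent.Lib.BoxPos

/-- the base point, scaled by its height -/
def wT (T : ℝ) : E3 := vec T 0 1

/-- ring word with chord `(v0, v1, 0)` -/
def rgw (b : E3) (c s v0 v1 T : ℝ) : E3 := wT T + T • rot b c s (vec v0 v1 0)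

/-- norm test of a ring word -/
def rgf (b : E3) (c s v0 v1 T : ℝ) : ℝ :=
  T * (rot b c s (vec v0 v1 0) 0 - v0) + rot b c s (vec v0 v1 0) 2

/-- word applied to a general point -/
def gnw (b : E3) (c s : ℝ) (y : E3) (T : ℝ) : E3 := wT T + rot b c s (y - wT T)

/-- norm test of a general word -/
def gnf (b : E3) (c s : ℝ) (y : E3) (T : ℝ) : ℝ :=
  2 * (T * rot b c s (y - wT T) 0 + rot b c s (y - wT T) 2) + dot (y - wT T) (y - wT T)

/-- the cone form -/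
def Gq (P : E3) : ℝ := P 0 ^ 2 + P 1 ^ 2 - 4 * P 2 ^ 2

/-- the point is off the cone and off the axis -/
def OffK (P : E3) : Prop := Gq P ≠ 0 ∧ ¬ (P 0 = 0 ∧ P 1 = 0)

/-! ### Evaluation -/

lemma ev_a (a b : BE) (xs : List ℝ) : (a + b).ev xs = a.ev xs + b.ev xs := rfl
lemma ev_s (a b : BE) (xs : List ℝ) : (a - b).ev xs = a.ev xs - b.ev xs := rfl
lemma ev_m (a b : BE) (xs : List ℝ) : (a * b).ev xs = a.ev xs * b.ev xs := rfl
lemma ev_n (a : BE) (xs : List ℝ) : (-a).ev xs = -a.ev xs := rfl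
lemma ev_k (n : ℕ) (xs : List ℝ) : (kE n).ev xs = n := rfl
lemma ev_v (n : ℕ) (xs : List ℝ) : (vE n).ev xs = get xs n := rfl

lemma Eqs_append {ys : List ℝ} : ∀ {n : ℕ} (l l' : List E), Eqs ys n (l ++ l') →
    Eqs ys n l ∧ Eqs ys (n + l.length) l'
  | n, [], l', h => ⟨trivial, by simpa using h⟩
  | n, e :: l, l', h => by
      obtain ⟨h1, h2⟩ := Eqs_append (n := n + 1) l l' h.2
      refine ⟨⟨h.1, h1⟩, ?_⟩
      have : n + (e :: l).length = n + 1 + l.length := by simp; omega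
      rw [this]; exact h2

/-- the scale -/
def MM : ℝ := 10000000

/-- values of the base definitions -/
structure BaseV (ys : List ℝ) (b : E3) (D T : ℝ) : Prop where
  h2 : get ys 2 = T
  h3 : get ys 3 = D
  h4 : get ys 4 = D ^ 2
  h5 : get ys 5 = D * b 0
  h6 : get ys 6 = D * b 1
  h7 : get ys 7 = D * b 2
  h8 : get ys 8 = MM ^ 2 * D ^ 2
  h9 : get ys 9 = MM ^ 3 * D ^ 2
  h10 : get ys 10 = MM ^ 4 * D ^ 4
  h11 : get ys 11 = (MM ^ 2 * D ^ 2) ^ 2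

lemma ev_ME (ys : List ℝ) : ME.ev ys = MM := by
  rw [ME, ev_k, MM]; norm_num

lemma baseV (o : Bool) {ys : List ℝ} {b : E3} {D T p q : ℝ} (h0 : get ys 0 = p)
    (h1 : get ys 1 = q) (h2 : get ys 2 = T) (hD : D = 1 + p ^ 2 + q ^ 2)
    (hb0 : cond o (p ^ 2 + q ^ 2 - 1) (1 - p ^ 2 - q ^ 2) = D * b 0) (hb1 : 2 * p = D * b 1)
    (hb2 : 2 * q = D * b 2) (h : Eqs ys 3 (baseD o)) : BaseV ys b D T := by
  unfold baseD at h
  simp only [Eqs, ev_a, ev_s, ev_m, ev_k, ev_v, ev_ME, Nat.reduceAdd, h0, h1] at h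
  obtain ⟨g3, g4, g5, g6, g7, g8, g9, g10, g11, -⟩ := h
  have e3 : get ys 3 = D := by rw [g3, hD]; push_cast; ring
  have e4 : get ys 4 = D ^ 2 := by rw [g4, e3]; ring
  have e8 : get ys 8 = MM ^ 2 * D ^ 2 := by rw [g8, e4]; ring
  have e9 : get ys 9 = MM ^ 3 * D ^ 2 := by rw [g9, e8]; ring
  refine ⟨h2, e3, e4, ?_, ?_, ?_, e8, e9, ?_, ?_⟩
  · rw [g5, ← hb0]
    cases o
    · simp only [cond_false, ev_s, ev_m, ev_k, ev_v, h0, h1]; push_cast; ring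
    · simp only [cond_true, ev_s, ev_a, ev_m, ev_k, ev_v, h0, h1]; push_cast; ring
  · rw [g6, ← hb1]; push_cast; ring
  · rw [g7, ← hb2]; push_cast; ring
  · rw [g10, e4, e9]; ring
  · rw [g11, e8]; ring

/-- the values of a ring word -/
structure RgV (ys : List ℝ) (i : ℕ) (D : ℝ) (P : E3) (f : ℝ) : Prop where
  X : get ys (i + 4) = MM ^ 2 * D ^ 2 * P 0
  Y : get ys (i + 5) = MM ^ 2 * D ^ 2 * P 1
  Z : get ys (i + 6) = MM ^ 2 * D ^ 2 * P 2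
  F : get ys (i + 7) = MM ^ 2 * D ^ 2 * f
  g : get ys (i + 8) = (MM ^ 2 * D ^ 2) ^ 2 * Gq P

lemma rgV {ys : List ℝ} {b : E3} {D T : ℝ} (hB : BaseV ys b D T) {i : ℕ} {c s v0 v1 : BE}
    {c' s' v0' v1' : ℝ} (hc : c.ev ys = MM * c') (hs : s.ev ys = MM * s')
    (hv0 : v0.ev ys = MM * v0') (hv1 : v1.ev ys = MM * v1') (h : Eqs ys i (ringD i c s v0 v1)) :
    RgV ys i D (rgw b c' s' v0' v1' T) (rgf b c' s' v0' v1' T) := by
  unfold ringD at h
  simp only [Eqs, ev_a, ev_s, ev_m, ev_k, ev_v, ev_ME, hc, hs, hv0, hv1, add_assoc,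
    Nat.reduceAdd] at h
  obtain ⟨g0, g1, g2, g3, g4, g5, g6, g7, g8, -⟩ := h
  rw [hB.h5, hB.h6] at g0
  rw [g0, hB.h4, hB.h5, hB.h3, hB.h7] at g1
  rw [g0, hB.h4, hB.h6, hB.h3, hB.h7] at g2
  rw [g0, hB.h7, hB.h5, hB.h6, hB.h3] at g3
  rw [g1, hB.h2, hB.h8] at g4
  rw [g2, hB.h2] at g5
  rw [g3, hB.h2, hB.h8] at g6
  rw [g1, g3, hB.h2, hB.h4] at g7
  have e4 : get ys (i + 4) = MM ^ 2 * D ^ 2 * rgw b c' s' v0' v1' T 0 := by
    rw [g4]
    simp only [rgw, wT, rot_0, dot, add_0, smul_0, vec_0, vec_1, vec_2]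
    ring
  have e5 : get ys (i + 5) = MM ^ 2 * D ^ 2 * rgw b c' s' v0' v1' T 1 := by
    rw [g5]
    simp only [rgw, wT, rot_1, dot, add_1, smul_1, vec_0, vec_1, vec_2]
    ring
  have e6 : get ys (i + 6) = MM ^ 2 * D ^ 2 * rgw b c' s' v0' v1' T 2 := by
    rw [g6]
    simp only [rgw, wT, rot_2, dot, add_2, smul_2, vec_0, vec_1, vec_2]
    ring
  refine ⟨e4, e5, e6, ?_, ?_⟩
  · rw [g7]
    simp only [rgf, rot_0, rot_2, dot, vec_0, vec_1, vec_2]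
    ring
  · rw [g8, e4, e5, e6, Gq]
    ring

/-- the values of a general word -/
structure GnV (ys : List ℝ) (i : ℕ) (D : ℝ) (P : E3) (f u : ℝ) : Prop where
  X : get ys (i + 7) = MM ^ 4 * D ^ 4 * P 0
  Y : get ys (i + 8) = MM ^ 4 * D ^ 4 * P 1
  Z : get ys (i + 9) = MM ^ 4 * D ^ 4 * P 2
  U : get ys (i + 10) = (MM ^ 3 * D ^ 2) ^ 2 * u
  F : get ys (i + 11) = (MM ^ 3 * D ^ 2) ^ 2 * f

lemma gnV {ys : List ℝ} {b : E3} {D T : ℝ} (hB : BaseV ys b D T) {i : ℕ} {c s y0 y1 y2 : BE}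
    {c' s' : ℝ} {y : E3} (hc : c.ev ys = MM * c') (hs : s.ev ys = MM * s')
    (hy0 : y0.ev ys = MM ^ 3 * D ^ 2 * y 0) (hy1 : y1.ev ys = MM ^ 3 * D ^ 2 * y 1)
    (hy2 : y2.ev ys = MM ^ 3 * D ^ 2 * y 2) (h : Eqs ys i (genD i c s y0 y1 y2)) :
    GnV ys i D (gnw b c' s' y T) (gnf b c' s' y T) (dot (y - wT T) (y - wT T)) := by
  unfold genD at h
  simp only [Eqs, ev_a, ev_s, ev_m, ev_k, ev_v, ev_ME, hc, hs, hy0, hy1, hy2, add_assoc,
    Nat.reduceAdd] at h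
  obtain ⟨u0, u1, u2, d, r0, r1, r2, g7, g8, g9, g10, g11, -⟩ := h
  have e0 : get ys i = MM ^ 3 * D ^ 2 * (y - wT T) 0 := by
    rw [u0, hB.h2, hB.h9]; simp only [sub_0, wT, vec_0]; ring
  have e1 : get ys (i + 1) = MM ^ 3 * D ^ 2 * (y - wT T) 1 := by
    rw [u1]; simp only [sub_1, wT, vec_1]; ring
  have e2 : get ys (i + 2) = MM ^ 3 * D ^ 2 * (y - wT T) 2 := by
    rw [u2, hB.h9]; simp only [sub_2, wT, vec_2]; ring
  obtain ⟨u, hu⟩ : ∃ u, y - wT T = u := ⟨_, rfl⟩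
  rw [hu] at e0 e1 e2
  have ed : get ys (i + 3) = MM ^ 3 * D ^ 3 * dot b u := by
    rw [d, e0, e1, e2, hB.h5, hB.h6, hB.h7, dot]; ring
  have f0 : get ys (i + 4) = MM ^ 4 * D ^ 4 * rot b c' s' u 0 := by
    rw [r0, e0, e1, e2, ed, hB.h3, hB.h4, hB.h5, hB.h6, hB.h7, rot_0]; ring
  have f1 : get ys (i + 5) = MM ^ 4 * D ^ 4 * rot b c' s' u 1 := by
    rw [r1, e0, e1, e2, ed, hB.h3, hB.h4, hB.h5, hB.h6, hB.h7, rot_1]; ring
  have f2 : get ys (i + 6) = MM ^ 4 * D ^ 4 * rot b c' s' u 2 := by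
    rw [r2, e0, e1, e2, ed, hB.h3, hB.h4, hB.h5, hB.h6, hB.h7, rot_2]; ring
  have eU : get ys (i + 10) = (MM ^ 3 * D ^ 2) ^ 2 * dot u u := by
    rw [g10, e0, e1, e2, dot]; ring
  rw [hu]
  refine ⟨?_, ?_, ?_, eU, ?_⟩
  · rw [g7, f0, hB.h2, hB.h10, gnw, hu]; simp only [add_0, wT, vec_0]; ring
  · rw [g8, f1, gnw, hu]; simp only [add_1, wT, vec_1]; ring
  · rw [g9, f2, hB.h10, gnw, hu]; simp only [add_2, wT, vec_2]; ring
  · rw [g11, eU, f0, f2, hB.h2, gnf, hu]; ring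

/-! ### Perturbation -/

lemma norm_proj_le {b : E3} (hb : dot b b = 1) (v : E3) : ‖v - dot b v • b‖ ≤ ‖v‖ := by
  rw [norm_eq_sqrt, norm_eq_sqrt]
  apply Real.sqrt_le_sqrt
  have e : dot (v - dot b v • b) (v - dot b v • b) = dot v v - dot b v ^ 2 := by
    simp only [dot_sub_left, dot_sub_right, dot_smul_left, dot_smul_right, hb, dot_comm v b]; ring
  rw [e]
  have := sq_nonneg (dot b v)
  linarith

lemma norm_cross_le {b : E3} (hb : dot b b = 1) (v : E3) : ‖cross b v‖ ≤ ‖v‖ := by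
  rw [norm_eq_sqrt, norm_eq_sqrt]
  apply Real.sqrt_le_sqrt
  rw [dot_cross_cross, hb]
  have := sq_nonneg (dot b v)
  linarith

lemma rot_close {b : E3} (hb : dot b b = 1) {c s c' s' e ev m : ℝ} (h : c ^ 2 + s ^ 2 = 1)
    (hc : |c - c'| ≤ e) (hs : |s - s'| ≤ e) {v v' : E3} (hv : ‖v - v'‖ ≤ ev) (hm : ‖v'‖ ≤ m) :
    ‖rot b c s v - rot b c' s' v'‖ ≤ ev + 2 * e * m := by
  have e1 : rot b c s v - rot b c' s' v' = rot b c s (v - v') +
      ((c - c') • (v' - dot b v' • b) + (s - s') • cross b v') := by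
    apply ext3
    · simp only [sub_0, add_0, smul_0, rot_0, dot, sub_1, sub_2, cross_0]; ring
    · simp only [sub_0, add_1, smul_1, rot_1, dot, sub_1, sub_2, cross_1]; ring
    · simp only [sub_0, add_2, smul_2, rot_2, dot, sub_1, sub_2, cross_2]; ring
  have he : 0 ≤ e := (abs_nonneg _).trans hc
  rw [e1]
  calc _ ≤ ‖rot b c s (v - v')‖ + (‖(c - c') • (v' - dot b v' • b)‖ + ‖(s - s') • cross b v'‖) :=
        (norm_add_le _ _).trans (add_le_add le_rfl (norm_add_le _ _))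
    _ ≤ ev + (e * m + e * m) := by
        rw [norm_rot b hb c s h, norm_smul, norm_smul, Real.norm_eq_abs, Real.norm_eq_abs]
        have h1 := (norm_proj_le hb v').trans hm
        have h2 := (norm_cross_le hb v').trans hm
        exact add_le_add hv (add_le_add
          (mul_le_mul hc h1 (norm_nonneg _) he) (mul_le_mul hs h2 (norm_nonneg _) he))
    _ = ev + 2 * e * m := by ring

lemma abs_coord_le (v : E3) : |v 0| ≤ ‖v‖ ∧ |v 1| ≤ ‖v‖ ∧ |v 2| ≤ ‖v‖ := by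
  have h : ∀ x : ℝ, x ^ 2 ≤ dot v v → |x| ≤ ‖v‖ := by
    intro x hx
    rw [norm_eq_sqrt, ← Real.sqrt_sq_eq_abs]
    exact Real.sqrt_le_sqrt hx
  refine ⟨h _ ?_, h _ ?_, h _ ?_⟩ <;> simp only [dot] <;> nlinarith [sq_nonneg (v 0),
    sq_nonneg (v 1), sq_nonneg (v 2)]

end

end Pool.Agent.Lib.MP_c5a075_co
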