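import Pool.Agent.Lib.MP_c5a075_co.CrossK
import Pool.Agent.Lib.MP_c5a075_co.CrossC5
import Pool.Agent.Lib.MP_c5a075_co.CrossC5b
import Pool.Agent.Lib.MP_c5a075_co.CrossC7
import Pool.Agent.Lib.MP_c5a075_co.CrossC7b

/-! The cross case: for every axis direction one of finitely many tests succeeds. -/

set_option autoImplicit false

namespace Pool.Agent.Lib.MP_c5a075_co

noncomputable section

open Real Pool.Agent.Lib.BoxPos

/-- the outcome of the cross tests for `n = 5` -/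
inductive Out5 (b : E3) (T : ℝ) : Prop
  | gz (h : Gq (rgw b c5 s5 (c5 - 1) s5 T) ≠ 0)
  | ph (h : 0 < rgf b c5 s5 (c5 - 1) s5 T)
  | v0 (h : 4 * c5 * rgw b c5 s5 (c5 - 1) s5 T 2 < T * rgw b c5 s5 (c5 - 1) s5 T 0)
  | v1 (h : 4 * c5 * rgw b c5 s5 (c5 - 1) s5 T 2 <
      T * (c5 * rgw b c5 s5 (c5 - 1) s5 T 0 + s5 * rgw b c5 s5 (c5 - 1) s5 T 1))
  | k12 (h : rgf b (2 * c5 ^ 2 - 1) (2 * s5 * c5) (c5 - 1) s5 T < 0)
      (h' : OffK (rgw b (2 * c5 ^ 2 - 1) (2 * s5 * c5) (c5 - 1) s5 T))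
  | k41 (h : rgf b c5 s5 (c5 - 1) (-s5) T < 0) (h' : OffK (rgw b c5 s5 (c5 - 1) (-s5) T))
  | k44 (h : rgf b c5 (-s5) (c5 - 1) (-s5) T < 0) (h' : OffK (rgw b c5 (-s5) (c5 - 1) (-s5) T))
  | k3 (h : b 2 < -0.46) (h' : OffK (rgw b (2 * c5 ^ 2 - 1) (2 * s5 * c5) (c5 - 1) s5 T))
      (h'' : OffK (rgw b c5 s5 (c5 - 1) (-s5) T))
  | l1 (h : 5 * rgw b c5 s5 (c5 - 1) s5 T 2 ^ 2 < 0.5704 * (T ^ 2 + 1))
      (hv : dot (vec 0 0 (5 * i5 * rgw b c5 s5 (c5 - 1) s5 T 2) - wT T)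
        (vec 0 0 (5 * i5 * rgw b c5 s5 (c5 - 1) s5 T 2) - wT T) < 0.5704 * (T ^ 2 + 1))
      (hf : gnf b c5 s5 (vec 0 0 (5 * i5 * rgw b c5 s5 (c5 - 1) s5 T 2)) T < 0)
      (ho : OffK (gnw b c5 s5 (vec 0 0 (5 * i5 * rgw b c5 s5 (c5 - 1) s5 T 2)) T))
  | m44 (h : 5 * rgw b c5 s5 (c5 - 1) s5 T 2 ^ 2 < 0.5704 * (T ^ 2 + 1))
      (hv : dot (rot e3 c5 (-s5) (rgw b c5 s5 (c5 - 1) s5 T) - wT T)
        (rot e3 c5 (-s5) (rgw b c5 s5 (c5 - 1) s5 T) - wT T) < 0.5704 * (T ^ 2 + 1))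
      (hf : gnf b c5 (-s5) (rot e3 c5 (-s5) (rgw b c5 s5 (c5 - 1) s5 T)) T < 0)
      (ho : OffK (gnw b c5 (-s5) (rot e3 c5 (-s5) (rgw b c5 s5 (c5 - 1) s5 T)) T))

/-- the outcome of the cross tests for `n = 7` -/
inductive Out7 (b : E3) (T : ℝ) : Prop
  | gz (h : Gq (rgw b c7 s7 (c5 - 1) s5 T) ≠ 0)
  | ph (h : 0 < rgf b c7 s7 (c5 - 1) s5 T)
  | v0 (h : 4 * c5 * rgw b c7 s7 (c5 - 1) s5 T 2 < T * rgw b c7 s7 (c5 - 1) s5 T 0)
  | v1 (h : 4 * c5 * rgw b c7 s7 (c5 - 1) s5 T 2 <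
      T * (c5 * rgw b c7 s7 (c5 - 1) s5 T 0 + s5 * rgw b c7 s7 (c5 - 1) s5 T 1))
  | k42 (h : rgf b (2 * c7 ^ 2 - 1) (2 * s7 * c7) (c5 - 1) (-s5) T < 0)
      (h' : OffK (rgw b (2 * c7 ^ 2 - 1) (2 * s7 * c7) (c5 - 1) (-s5) T))

/-- stereographic coordinates around `(-1, 0, 0)` -/
lemma stereo {b : E3} (hb : dot b b = 1) (h0 : b 0 ≤ 0) :
    ∃ p q D : ℝ, 0 < D ∧ D = 1 + p ^ 2 + q ^ 2 ∧ p ^ 2 + q ^ 2 - 1 = D * b 0 ∧ 2 * p = D * b 1 ∧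
      2 * q = D * b 2 ∧ -1 ≤ p ∧ p ≤ 1 ∧ -1 ≤ q ∧ q ≤ 1 := by
  have h1 : 0 < 1 - b 0 := by linarith
  have h2 : b 0 ^ 2 + b 1 ^ 2 + b 2 ^ 2 = 1 := by simp only [dot] at hb; linarith
  have h3 : b 1 ^ 2 ≤ (1 - b 0) ^ 2 := by nlinarith [sq_nonneg (b 2)]
  have h4 : b 2 ^ 2 ≤ (1 - b 0) ^ 2 := by nlinarith only [h0, h2]
  have h5 := abs_le_of_sq_le_sq' h3 h1.le
  have h6 := abs_le_of_sq_le_sq' h4 h1.le
  have h7 : (b 1 / (1 - b 0)) ^ 2 + (b 2 / (1 - b 0)) ^ 2 = (1 + b 0) / (1 - b 0) := by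
    field_simp
    linarith
  have h8 : 2 / (1 - b 0) = 1 + (1 + b 0) / (1 - b 0) := by field_simp; ring
  refine ⟨b 1 / (1 - b 0), b 2 / (1 - b 0), 2 / (1 - b 0), by positivity, ?_, ?_, ?_, ?_, ?_, ?_,
    ?_, ?_⟩
  · rw [h8, add_assoc, h7]
  · rw [h7]; field_simp; ring
  · field_simp
  · field_simp
  · rw [le_div_iff₀ h1]; linarith
  · rw [div_le_iff₀ h1]; linarith
  · rw [le_div_iff₀ h1]; linarith
  · rw [div_le_iff₀ h1]; linarith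

/-- stereographic coordinates around `(1, 0, 0)` -/
lemma stereo' {b : E3} (hb : dot b b = 1) (h0 : 0 ≤ b 0) :
    ∃ p q D : ℝ, 0 < D ∧ D = 1 + p ^ 2 + q ^ 2 ∧ 1 - p ^ 2 - q ^ 2 = D * b 0 ∧ 2 * p = D * b 1 ∧
      2 * q = D * b 2 ∧ -1 ≤ p ∧ p ≤ 1 ∧ -1 ≤ q ∧ q ≤ 1 := by
  obtain ⟨p, q, D, h1, h2, h3, h4, h5, h6⟩ := stereo (b := vec (-b 0) (b 1) (b 2))
    (by simp only [dot, vec_0, vec_1, vec_2] at hb ⊢; linarith) (by rw [vec_0]; linarith)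
  rw [vec_0] at h3
  exact ⟨p, q, D, h1, h2, by linarith, h4, h5, h6⟩

lemma inB3 {p q T : ℝ} (h1 : -1 ≤ p) (h2 : p ≤ 1) (h3 : -1 ≤ q) (h4 : q ≤ 1) (h5 : 0 ≤ T)
    (h6 : T < 0.764) : InB [p, q, T] [1, 1, 0] [(0, 2001, 1000), (0, 2001, 1000), (0, 764, 1000)] := by
  refine ⟨?_, ?_, ?_, ?_, ?_, ?_, trivial⟩ <;> push_cast <;> linarith

lemma get3 {ys : List ℝ} {p q T : ℝ}
    (h : ∀ i < ([p, q, T] : List ℝ).length, get ys i = get [p, q, T] i) :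
    get ys 0 = p ∧ get ys 1 = q ∧ get ys 2 = T :=
  ⟨h 0 (by simp), h 1 (by simp), h 2 (by simp)⟩

lemma ev_c5 (ys : List ℝ) : (kE 3090170).ev ys = MM * 0.3090170 := by
  rw [ev_k, MM]; norm_num
lemma ev_s5 (ys : List ℝ) : (kE 9510565).ev ys = MM * 0.9510565 := by
  rw [ev_k, MM]; norm_num
lemma ev_s5n (ys : List ℝ) : (-kE 9510565 : BE).ev ys = MM * -0.9510565 := by
  rw [ev_n, ev_k, MM]; norm_num
lemma ev_v0 (ys : List ℝ) : (c5E - ME : BE).ev ys = MM * (0.3090170 - 1) := by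
  rw [ev_s, ev_ME, c5E, ev_k, MM]; norm_num
lemma ev_v1 (ys : List ℝ) : (s5E : BE).ev ys = MM * 0.9510565 := ev_s5 ys
lemma ev_v1n (ys : List ℝ) : (-s5E : BE).ev ys = MM * -0.9510565 := ev_s5n ys
lemma ev_c52 (ys : List ℝ) : (-kE 8090170 : BE).ev ys = MM * -0.8090170 := by
  rw [ev_n, ev_k, MM]; norm_num
lemma ev_s52 (ys : List ℝ) : (kE 5877853).ev ys = MM * 0.5877853 := by
  rw [ev_k, MM]; norm_num
lemma ev_c7 (ys : List ℝ) : (kE 6234898).ev ys = MM * 0.6234898 := by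
  rw [ev_k, MM]; norm_num
lemma ev_s7 (ys : List ℝ) : (kE 7818315).ev ys = MM * 0.7818315 := by
  rw [ev_k, MM]; norm_num
lemma ev_c72 (ys : List ℝ) : (-kE 2225209 : BE).ev ys = MM * -0.2225209 := by
  rw [ev_n, ev_k, MM]; norm_num
lemma ev_s72 (ys : List ℝ) : (kE 9749279).ev ys = MM * 0.9749279 := by
  rw [ev_k, MM]; norm_num

lemma m0 : |(0.3090170 - 1 : ℝ)| ≤ 1 - 1e-7 := by rw [abs_le]; constructor <;> norm_num
lemma m1 : |(0.9510565 : ℝ)| ≤ 1 - 1e-7 := by rw [abs_le]; constructor <;> norm_num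
lemma m1n : |(-0.9510565 : ℝ)| ≤ 1 - 1e-7 := by rw [abs_le]; constructor <;> norm_num

/-- the tests `gp`, `gm`, `ph` -/
lemma gp_imp {ys : List ℝ} {b : E3} {D T : ℝ} (hB : BaseV ys b D T) (hD : 0 < D)
    {P P' : E3} {f' : ℝ} (hP' : RgV ys 12 D P' f') (h : ‖P - P'‖ ≤ 1e-6) (hm : ‖P‖ ≤ 7 / 2)
    (ho : 0 < (kE 100 * vE 20 - vE 11 : BE).ev ys) : Gq P ≠ 0 :=
  (off_ring hB hD hP' h hm (o := .g) (by
    intro e he
    rw [offD, List.mem_singleton] at he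
    rw [he]; exact ho)).1

lemma gm_imp {ys : List ℝ} {b : E3} {D T : ℝ} (hB : BaseV ys b D T) (hD : 0 < D)
    {P P' : E3} {f' : ℝ} (hP' : RgV ys 12 D P' f') (h : ‖P - P'‖ ≤ 1e-6) (hm : ‖P‖ ≤ 7 / 2)
    (ho : 0 < (-(kE 100 * vE 20) - vE 11 : BE).ev ys) : Gq P ≠ 0 := by
  obtain ⟨S, hS⟩ : ∃ S, S = MM ^ 2 * D ^ 2 := ⟨_, rfl⟩
  have hS0 : 0 < S := by have := MM_pos; rw [hS]; positivity
  have hSS : 0 < S ^ 2 := by positivity
  have hG := abs_le.1 (Gq_close h hm)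
  have k11 := hB.h11
  have kg := hP'.g
  rw [← hS] at k11 kg
  norm_num at kg
  rw [ev_s, ev_n, ev_m, ev_k, ev_v, ev_v, kg, k11] at ho
  have : 0 < S ^ 2 * (-(100 * Gq P') - 1) := by push_cast at ho; linarith
  have := (mul_pos_iff_of_pos_left hSS).1 this
  have : Gq P < 0 := by linarith
  exact this.ne

lemma ph_imp {ys : List ℝ} {b : E3} {D T : ℝ} (hB : BaseV ys b D T) (hD : 0 < D)
    {P' : E3} {f f' : ℝ} (hP' : RgV ys 12 D P' f') (h : |f - f'| ≤ 3e-6)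
    (ho : 0 < (kE 1000 * vE 19 - vE 8 : BE).ev ys) : 0 < f := by
  obtain ⟨S, hS⟩ : ∃ S, S = MM ^ 2 * D ^ 2 := ⟨_, rfl⟩
  have hS0 : 0 < S := by have := MM_pos; rw [hS]; positivity
  have k8 := hB.h8
  have kF := hP'.F
  rw [← hS] at k8 kF
  norm_num at kF
  rw [ev_s, ev_m, ev_k, ev_v, ev_v, kF, k8] at ho
  have : 0 < S * (1000 * f' - 1) := by push_cast at ho; linarith
  have := (mul_pos_iff_of_pos_left hS0).1 this
  have := abs_le.1 h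
  linarith

lemma v1_imp {ys : List ℝ} {b : E3} {D T : ℝ} (hB : BaseV ys b D T) (hD : 0 < D)
    (hT0 : 0 ≤ T) (hT1 : T ≤ 1)
    {P P' : E3} {f' : ℝ} (hP' : RgV ys 12 D P' f') (h : ‖P - P'‖ ≤ 1e-6) (hm : ‖P‖ ≤ 7 / 2)
    (ho : 0 < (kE 1000 * (vE 2 * (c5E * vE 16 + s5E * vE 17) - kE 4 * (c5E * vE 18)) -
      vE 9 : BE).ev ys) : 4 * c5 * P 2 < T * (c5 * P 0 + s5 * P 1) := by
  obtain ⟨S, hS⟩ : ∃ S, S = MM ^ 3 * D ^ 2 := ⟨_, rfl⟩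
  have hS0 : 0 < S := by have := MM_pos; rw [hS]; positivity
  have k9 := hB.h9
  obtain ⟨kX, kY, kZ, -, -⟩ := hP'
  norm_num at kX kY kZ
  simp only [ev_s, ev_a, ev_m, c5E, s5E, ev_c5, ev_s5, ev_v, kX, kY, kZ, k9, hB.h2] at ho
  simp only [ev_k, Nat.cast_ofNat] at ho
  have : 0 < S * (1000 * (T * (0.3090170 * P' 0 + 0.9510565 * P' 1) -
      4 * (0.3090170 * P' 2)) - 1) := by
    rw [hS]; linarith
  have h3 := (mul_pos_iff_of_pos_left hS0).1 this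
  have h1 := abs_coord_le (P - P')
  simp only [sub_0, sub_1, sub_2] at h1
  have a0 := abs_le.1 (h1.1.trans h)
  have a1 := abs_le.1 (h1.2.1.trans h)
  have a2 := abs_le.1 (h1.2.2.trans h)
  have h2 := abs_coord_le P
  have b0 := abs_le.1 (h2.1.trans hm)
  have b1 := abs_le.1 (h2.2.1.trans hm)
  have b2 := abs_le.1 (h2.2.2.trans hm)
  have c1 := abs_le.1 kc5
  have c2 := abs_le.1 ks5
  have e0 : |(c5 - 0.3090170) * P 0| ≤ 1e-6 := by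
    rw [abs_mul]
    calc _ ≤ 1e-7 * (7 / 2) := mul_le_mul kc5 (h2.1.trans hm) (abs_nonneg _) (by norm_num)
      _ ≤ 1e-6 := by norm_num
  have e1 : |(s5 - 0.9510565) * P 1| ≤ 1e-6 := by
    rw [abs_mul]
    calc _ ≤ 1e-7 * (7 / 2) := mul_le_mul ks5 (h2.2.1.trans hm) (abs_nonneg _) (by norm_num)
      _ ≤ 1e-6 := by norm_num
  have e2 : |(c5 - 0.3090170) * P 2| ≤ 1e-6 := by
    rw [abs_mul]
    calc _ ≤ 1e-7 * (7 / 2) := mul_le_mul kc5 (h2.2.2.trans hm) (abs_nonneg _) (by norm_num)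
      _ ≤ 1e-6 := by norm_num
  have f0 := abs_le.1 e0
  have f1 := abs_le.1 e1
  have f2 := abs_le.1 e2
  obtain ⟨A, hA⟩ : ∃ A, A = c5 * P 0 + s5 * P 1 := ⟨_, rfl⟩
  obtain ⟨A', hA'⟩ : ∃ A', A' = 0.3090170 * P' 0 + 0.9510565 * P' 1 := ⟨_, rfl⟩
  have g1 : A' - 1e-5 ≤ A := by rw [hA, hA']; linarith
  have g2 : T * A' - 1e-5 ≤ T * A := by nlinarith only [hT0, hT1, g1]
  rw [← hA'] at h3
  rw [← hA]
  linarith

lemma v0_imp {ys : List ℝ} {b : E3} {D T : ℝ} (hB : BaseV ys b D T) (hD : 0 < D)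
    (hT0 : 0 ≤ T) (hT1 : T ≤ 1)
    {P P' : E3} {f' : ℝ} (hP' : RgV ys 12 D P' f') (h : ‖P - P'‖ ≤ 1e-6) (hm : ‖P‖ ≤ 7 / 2)
    (ho : 0 < (kE 1000 * (vE 2 * (ME * vE 16) - kE 4 * (c5E * vE 18)) - vE 9 : BE).ev ys) :
    4 * c5 * P 2 < T * P 0 := by
  obtain ⟨S, hS⟩ : ∃ S, S = MM ^ 3 * D ^ 2 := ⟨_, rfl⟩
  have hS0 : 0 < S := by have := MM_pos; rw [hS]; positivity
  have k9 := hB.h9
  obtain ⟨kX, kY, kZ, -, -⟩ := hP'
  norm_num at kX kY kZ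
  simp only [ev_s, ev_m, c5E, ev_c5, ev_v, kX, kZ, k9, hB.h2, ev_ME] at ho
  simp only [ev_k, Nat.cast_ofNat] at ho
  have : 0 < S * (1000 * (T * P' 0 - 4 * (0.3090170 * P' 2)) - 1) := by
    rw [hS]; linarith
  have h3 := (mul_pos_iff_of_pos_left hS0).1 this
  have h1 := abs_coord_le (P - P')
  simp only [sub_0, sub_1, sub_2] at h1
  have a0 := abs_le.1 (h1.1.trans h)
  have a2 := abs_le.1 (h1.2.2.trans h)
  have h2 := abs_coord_le P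
  have e2 : |(c5 - 0.3090170) * P 2| ≤ 1e-6 := by
    rw [abs_mul]
    calc _ ≤ 1e-7 * (7 / 2) := mul_le_mul kc5 (h2.2.2.trans hm) (abs_nonneg _) (by norm_num)
      _ ≤ 1e-6 := by norm_num
  have f2 := abs_le.1 e2
  have g2 : T * P' 0 - 1e-5 ≤ T * P 0 := by nlinarith
  linarith

/-- the main conclusion in the first chart, `n = 5` -/
lemma cross5_1 {b : E3} (hb : dot b b = 1) (h0 : b 0 ≤ 0) {T : ℝ} (hT0 : 0 ≤ T)
    (hT : T < 0.764) : Out5 b T := by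
  obtain ⟨p, q, D, hD0, hD, e0, e1, e2, p1, p2, q1, q2⟩ := stereo hb h0
  obtain ⟨ys, hy, hE, G, hG, hpos⟩ := checkB_main cross5a_check (inB3 p1 p2 q1 q2 hT0 hT) rfl
    (show wfD 3 (defs5 true) = true by decide)
  obtain ⟨y0, y1, y2⟩ := get3 hy
  obtain ⟨hE, hM⟩ := Eqs_append _ _ hE
  obtain ⟨hE, hL⟩ := Eqs_append _ _ hE
  obtain ⟨hE, h44⟩ := Eqs_append _ _ hE
  obtain ⟨hE, h41⟩ := Eqs_append _ _ hE
  obtain ⟨hE, h12⟩ := Eqs_append _ _ hE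
  obtain ⟨hE, hz⟩ := Eqs_append _ _ hE
  have hB := baseV true y0 y1 y2 hD e0 e1 e2 hE
  have hz := rgV (i := 12) hB (ev_c5 ys) (ev_s5 ys) (ev_v0 ys) (ev_v1 ys) hz
  have h12 := rgV (i := 21) hB (ev_c52 ys) (ev_s52 ys) (ev_v0 ys) (ev_v1 ys) h12
  have h41 := rgV (i := 30) hB (ev_c5 ys) (ev_s5 ys) (ev_v0 ys) (ev_v1n ys) h41
  have h44 := rgV (i := 39) hB (ev_c5 ys) (ev_s5n ys) (ev_v0 ys) (ev_v1n ys) h44
  have hT1 : T ≤ 1 := by linarith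
  obtain ⟨z1, z2, z3⟩ := rgw_close hb c5_sq_add kc5 ks5 kc5' ks5 m0 m1 hT0 hT1
  obtain ⟨a1, a2, a3⟩ := rgw_close hb cs52 kc52 ks52 kc5' ks5 m0 m1 hT0 hT1
  obtain ⟨b1, b2, b3⟩ := rgw_close hb c5_sq_add kc5 ks5 kc5' ks5n m0 m1n hT0 hT1
  obtain ⟨d1, d2, d3⟩ := rgw_close hb cs5n kc5 ks5n kc5' ks5n m0 m1n hT0 hT1
  obtain ⟨z, ez⟩ : ∃ z, z = rgw b c5 s5 (c5 - 1) s5 T := ⟨_, rfl⟩
  obtain ⟨z', ez'⟩ : ∃ z', z' = rgw b 0.3090170 0.9510565 (0.3090170 - 1) 0.9510565 T := ⟨_, rfl⟩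
  rw [← ez, ← ez'] at z1
  rw [← ez] at z3
  rw [← ez'] at hz
  have hz2 := abs_coord_le (z - z')
  simp only [sub_0, sub_1, sub_2] at hz2
  have hz'n : ‖z'‖ ≤ 4 := by
    have h1 : ‖z'‖ ≤ ‖z' - z‖ + ‖z‖ := by
      have := norm_add_le (z' - z) z
      rwa [sub_add_cancel] at this
    rw [norm_sub_rev] at h1
    linarith only [z3, z1, h1]
  -- the point of the `L` word
  have hLv : ∀ y' : E3, y' = vec 0 0 (2.2360680 * z' 2) →
      GnV ys 48 D (gnw b 0.3090170 0.9510565 y' T) (gnf b 0.3090170 0.9510565 y' T)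
        (dot (y' - wT T) (y' - wT T)) := by
    intro y' hy'
    refine gnV (i := 48) hB (ev_c5 ys) (ev_s5 ys) ?_ ?_ ?_ hL
    · rw [hy', ev_k, vec_0]; norm_num
    · rw [hy', ev_k, vec_1]; norm_num
    · have h18 := hz.Z
      norm_num at h18
      rw [hy', ev_m, r5E, ev_k, ev_v, vec_2, h18, MM]; norm_num; ring
  have hLy : ‖vec 0 0 (5 * i5 * z 2) - vec 0 0 (2.2360680 * z' 2)‖ ≤ 1e-5 := by
    have e : vec 0 0 (5 * i5 * z 2) - vec 0 0 (2.2360680 * z' 2) =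
        vec 0 0 ((5 * i5 - 2.2360680) * z 2 + 2.2360680 * (z 2 - z' 2)) := by
      apply ext3 <;> simp; ring
    rw [e]
    refine (norm_vec_le _ _ _).trans ?_
    rw [abs_zero]
    have h1 : |(5 * i5 - 2.2360680) * z 2| ≤ 1e-6 := by
      rw [abs_mul]
      calc _ ≤ 1e-7 * (7 / 2) := mul_le_mul ki5 ((abs_coord_le z).2.2.trans z3)
            (abs_nonneg _) (by norm_num)
        _ ≤ 1e-6 := by norm_num
    have h2 : |2.2360680 * (z 2 - z' 2)| ≤ 3e-6 := by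
      rw [abs_mul, abs_of_nonneg (by norm_num : (0:ℝ) ≤ 2.2360680)]
      have := hz2.2.2.trans z1
      linarith only [this]
    have h3 := abs_add_le ((5 * i5 - 2.2360680) * z 2) (2.2360680 * (z 2 - z' 2))
    linarith only [h1, h2, h3]
  have hLn : ‖vec 0 0 (2.2360680 * z' 2)‖ ≤ 10 := by
    refine (norm_vec_le _ _ _).trans ?_
    rw [abs_zero, abs_mul, abs_of_nonneg (by norm_num : (0:ℝ) ≤ 2.2360680)]
    have := (abs_coord_le z').2.2.trans hz'n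
    linarith only [this]
  -- the point of the `M` word
  have hMv : ∀ y' : E3, y' = rot e3 0.3090170 (-0.9510565) z' →
      GnV ys 60 D (gnw b 0.3090170 (-0.9510565) y' T) (gnf b 0.3090170 (-0.9510565) y' T)
        (dot (y' - wT T) (y' - wT T)) := by
    intro y' hy'
    obtain ⟨h16, h17, h18, -, -⟩ := hz
    norm_num at h16 h17 h18
    refine gnV (i := 60) hB (ev_c5 ys) (ev_s5n ys) ?_ ?_ ?_ hM
    · rw [hy', ev_a, ev_m, ev_m, c5E, s5E, ev_c5, ev_s5, ev_v, ev_v, h16, h17, rot_0]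
      simp only [dot, e3_0, e3_1, e3_2]; ring
    · rw [hy', ev_s, ev_m, ev_m, c5E, s5E, ev_c5, ev_s5, ev_v, ev_v, h16, h17, rot_1]
      simp only [dot, e3_0, e3_1, e3_2]; ring
    · rw [hy', ev_m, ev_ME, ev_v, h18, rot_2]
      simp only [dot, e3_0, e3_1, e3_2]; ring
  have hMy : ‖rot e3 c5 (-s5) z - rot e3 0.3090170 (-0.9510565) z'‖ ≤ 1e-5 := by
    have := rot_close dot_e3_e3 cs5n kc5 ks5n z1 hz'n
    linarith only [this]
  have hMn : ‖rot e3 0.3090170 (-0.9510565) z'‖ ≤ 10 := by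
    have h1 : ‖rot e3 c5 (-s5) z‖ = ‖z‖ := norm_rot e3 dot_e3_e3 c5 (-s5) cs5n z
    have h2 : ‖rot e3 0.3090170 (-0.9510565) z'‖ ≤
        ‖rot e3 0.3090170 (-0.9510565) z' - rot e3 c5 (-s5) z‖ + ‖rot e3 c5 (-s5) z‖ := by
      have := norm_add_le (rot e3 0.3090170 (-0.9510565) z' - rot e3 c5 (-s5) z)
        (rot e3 c5 (-s5) z)
      rwa [sub_add_cancel] at this
    rw [norm_sub_rev] at h2
    linarith only [z3, hMy, h1, h2]
  obtain ⟨k, -, rfl⟩ := List.mem_map.1 hG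
  cases k with
  | gp => exact .gz (by rw [← ez]; exact gp_imp hB hD0 hz z1 z3 (hpos _ (by simp [Kd.es])))
  | gm => exact .gz (by rw [← ez]; exact gm_imp hB hD0 hz z1 z3 (hpos _ (by simp [Kd.es])))
  | ph => exact .ph (ph_imp hB hD0 hz z2 (hpos _ (by simp [Kd.es])))
  | v0 => exact .v0 (by rw [← ez]; exact v0_imp hB hD0 hT0 hT1 hz z1 z3 (hpos _ (by simp [Kd.es])))
  | v1 => exact .v1 (by rw [← ez]; exact v1_imp hB hD0 hT0 hT1 hz z1 z3 (hpos _ (by simp [Kd.es])))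
  | k12 o =>
    exact .k12 (in_ring hB hD0 h12 a2 (hpos _ (by simp [Kd.es])))
      (off_ring hB hD0 h12 a1 a3 (o := o) fun e he => hpos e (by simp [Kd.es, he]))
  | k41 o =>
    exact .k41 (in_ring hB hD0 h41 b2 (hpos _ (by simp [Kd.es])))
      (off_ring hB hD0 h41 b1 b3 (o := o) fun e he => hpos e (by simp [Kd.es, he]))
  | k44 o =>
    exact .k44 (in_ring hB hD0 h44 d2 (hpos _ (by simp [Kd.es])))
      (off_ring hB hD0 h44 d1 d3 (o := o) fun e he => hpos e (by simp [Kd.es, he]))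
  | k3 o o' =>
    refine .k3 ?_ (off_ring hB hD0 h12 a1 a3 (o := o) fun e he => hpos e (by simp [Kd.es, he]))
      (off_ring hB hD0 h41 b1 b3 (o := o') fun e he => hpos e (by simp [Kd.es, he]))
    have h1 := hpos (-(kE 1000 * vE 7) - kE 460 * vE 3) (by simp [Kd.es])
    rw [ev_s, ev_n, ev_m, ev_m, ev_k, ev_k, ev_v, ev_v, hB.h3, hB.h7] at h1
    have h2 : 0 < D * (-(1000 * b 2) - 460) := by push_cast at h1; linarith only [h1]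
    have := (mul_pos_iff_of_pos_left hD0).1 h2
    linarith only [this]
  | l1 o =>
    have hv := hLv _ rfl
    obtain ⟨l1, l2, l3⟩ := gnw_close hb c5_sq_add kc5 ks5 hLy hLn hT0 hT1
    rw [ez] at l1 l2 l3
    refine .l1 ?_ (vis_gen hB hD0 hv l3 (hpos _ (by simp [Kd.es])))
      (in_gen hB hD0 hv l2 (hpos _ (by simp [Kd.es])))
      (off_gen hB hD0 hv l1 (o := o) fun e he => hpos e (by simp [Kd.es, he]))
    rw [← ez]
    exact lam_gen hB hD0 hz z1 z3 (hpos _ (by simp [Kd.es]))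
  | m44 o =>
    have hv := hMv _ rfl
    obtain ⟨l1, l2, l3⟩ := gnw_close hb cs5n kc5 ks5n hMy hMn hT0 hT1
    rw [ez] at l1 l2 l3
    refine .m44 ?_ (vis_gen hB hD0 hv l3 (hpos _ (by simp [Kd.es])))
      (in_gen hB hD0 hv l2 (hpos _ (by simp [Kd.es])))
      (off_gen hB hD0 hv l1 (o := o) fun e he => hpos e (by simp [Kd.es, he]))
    rw [← ez]
    exact lam_gen hB hD0 hz z1 z3 (hpos _ (by simp [Kd.es]))

/-- the main conclusion in the second chart, `n = 5` -/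
lemma cross5_2 {b : E3} (hb : dot b b = 1) (h0 : 0 ≤ b 0) {T : ℝ} (hT0 : 0 ≤ T)
    (hT : T < 0.764) : Out5 b T := by
  obtain ⟨p, q, D, hD0, hD, e0, e1, e2, p1, p2, q1, q2⟩ := stereo' hb h0
  obtain ⟨ys, hy, hE, G, hG, hpos⟩ := checkB_main cross5b_check (inB3 p1 p2 q1 q2 hT0 hT) rfl
    (show wfD 3 defs5b = true by decide)
  obtain ⟨y0, y1, y2⟩ := get3 hy
  obtain ⟨hE, hz⟩ := Eqs_append _ _ hE
  have hB := baseV false y0 y1 y2 hD e0 e1 e2 hE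
  have hz := rgV (i := 12) hB (ev_c5 ys) (ev_s5 ys) (ev_v0 ys) (ev_v1 ys) hz
  obtain ⟨z1, z2, z3⟩ := rgw_close hb c5_sq_add kc5 ks5 kc5' ks5 m0 m1 hT0
    (by linarith : T ≤ 1)
  obtain ⟨k, hk, rfl⟩ := List.mem_map.1 hG
  simp only [cross5b_kinds, List.mem_cons, List.not_mem_nil, or_false] at hk
  rcases hk with rfl | rfl
  · exact .gz (gm_imp hB hD0 hz z1 z3 (hpos _ (by simp [Kd.es])))
  · exact .ph (ph_imp hB hD0 hz z2 (hpos _ (by simp [Kd.es])))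

/-- **The cross case, `n = 5`.** -/
theorem cross5 {b : E3} (hb : dot b b = 1) {T : ℝ} (hT0 : 0 ≤ T) (hT : T < 0.764) :
    Out5 b T := by
  rcases le_total (b 0) 0 with h | h
  · exact cross5_1 hb h hT0 hT
  · exact cross5_2 hb h hT0 hT

/-- the main conclusion in the first chart, `n = 7` -/
lemma cross7_1 {b : E3} (hb : dot b b = 1) (h0 : b 0 ≤ 0) {T : ℝ} (hT0 : 0 ≤ T)
    (hT : T < 0.764) : Out7 b T := by
  obtain ⟨p, q, D, hD0, hD, e0, e1, e2, p1, p2, q1, q2⟩ := stereo hb h0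
  obtain ⟨ys, hy, hE, G, hG, hpos⟩ := checkB_main cross7a_check (inB3 p1 p2 q1 q2 hT0 hT) rfl
    (show wfD 3 (defs7 true) = true by decide)
  obtain ⟨y0, y1, y2⟩ := get3 hy
  obtain ⟨hE, h42⟩ := Eqs_append _ _ hE
  obtain ⟨hE, hz⟩ := Eqs_append _ _ hE
  have hB := baseV true y0 y1 y2 hD e0 e1 e2 hE
  have hz := rgV (i := 12) hB (ev_c7 ys) (ev_s7 ys) (ev_v0 ys) (ev_v1 ys) hz
  have h42 := rgV (i := 21) hB (ev_c72 ys) (ev_s72 ys) (ev_v0 ys) (ev_v1n ys) h42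
  have hT1 : T ≤ 1 := by linarith
  obtain ⟨z1, z2, z3⟩ := rgw_close hb cs7 kc7 ks7 kc5' ks5 m0 m1 hT0 hT1
  obtain ⟨a1, a2, a3⟩ := rgw_close hb cs72 kc72 ks72 kc5' ks5n m0 m1n hT0 hT1
  obtain ⟨k, hk, rfl⟩ := List.mem_map.1 hG
  simp only [cross7a_kinds, List.mem_cons, List.not_mem_nil, or_false] at hk
  have h42' : ∀ o, k = .k12 o → Out7 b T := by
    rintro o rfl
    exact .k42 (in_ring hB hD0 h42 a2 (hpos _ (by simp [Kd.es])))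
      (off_ring hB hD0 h42 a1 a3 (o := o) fun e he => hpos e (by simp [Kd.es, he]))
  rcases hk with rfl | rfl | rfl | rfl | hk | hk | hk | hk
  · exact .gz (gp_imp hB hD0 hz z1 z3 (hpos _ (by simp [Kd.es])))
  · exact .gz (gm_imp hB hD0 hz z1 z3 (hpos _ (by simp [Kd.es])))
  · exact .ph (ph_imp hB hD0 hz z2 (hpos _ (by simp [Kd.es])))
  · exact .v1 (v1_imp hB hD0 hT0 hT1 hz z1 z3 (hpos _ (by simp [Kd.es])))
  all_goals exact h42' _ hk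

/-- the main conclusion in the second chart, `n = 7` -/
lemma cross7_2 {b : E3} (hb : dot b b = 1) (h0 : 0 ≤ b 0) {T : ℝ} (hT0 : 0 ≤ T)
    (hT : T < 0.764) : Out7 b T := by
  obtain ⟨p, q, D, hD0, hD, e0, e1, e2, p1, p2, q1, q2⟩ := stereo' hb h0
  obtain ⟨ys, hy, hE, G, hG, hpos⟩ := checkB_main cross7b_check (inB3 p1 p2 q1 q2 hT0 hT) rfl
    (show wfD 3 defs7b = true by decide)
  obtain ⟨y0, y1, y2⟩ := get3 hy
  obtain ⟨hE, hz⟩ := Eqs_append _ _ hE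
  have hB := baseV false y0 y1 y2 hD e0 e1 e2 hE
  have hz := rgV (i := 12) hB (ev_c7 ys) (ev_s7 ys) (ev_v0 ys) (ev_v1 ys) hz
  obtain ⟨z1, z2, z3⟩ := rgw_close hb cs7 kc7 ks7 kc5' ks5 m0 m1 hT0
    (by linarith : T ≤ 1)
  obtain ⟨k, hk, rfl⟩ := List.mem_map.1 hG
  simp only [cross7b_kinds, List.mem_cons, List.not_mem_nil, or_false] at hk
  subst hk
  exact .gz (gm_imp hB hD0 hz z1 z3 (hpos _ (by simp [Kd.es])))

/-- **The cross case, `n = 7`.** -/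
theorem cross7 {b : E3} (hb : dot b b = 1) {T : ℝ} (hT0 : 0 ≤ T) (hT : T < 0.764) :
    Out7 b T := by
  rcases le_total (b 0) 0 with h | h
  · exact cross7_1 hb h hT0 hT
  · exact cross7_2 hb h hT0 hT

end

end Pool.Agent.Lib.MP_c5a075_co
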