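import Pool.Agent.Lib.MP_c5a075_co.LFMain

/-! The case `b⁺` of the local statement. -/

set_option autoImplicit false

namespace Pool.Agent.Lib.MP_c5a075_co

noncomputable section

open Real

/-- product bounds -/
lemma mb {x y a b c d : ℝ} (h1 : a ≤ x) (h2 : x ≤ b) (h3 : c ≤ y) (h4 : y ≤ d) (ha : 0 ≤ a)
    (hc : 0 ≤ c) : a * c ≤ x * y ∧ x * y ≤ b * d :=
  ⟨mul_le_mul h1 h3 hc (ha.trans h1), mul_le_mul h2 h4 (hc.trans h3) ((ha.trans h1).trans h2)⟩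

lemma bp2_bd : 0.815736 ≤ bp2 ∧ bp2 ≤ 0.81574 := by
  have h := bp2_mul
  have h1 := c5_gt
  have h2 := c5_lt
  have e : bp2 * (3 * (1 - c5)) = 2 - c5 := by rw [← h]; ring
  constructor
  · by_contra hcon
    push Not at hcon
    nlinarith only [e, h1, h2, mul_pos (sub_pos.2 hcon) one_sub_c5_pos]
  · by_contra hcon
    push Not at hcon
    nlinarith only [e, h1, h2, mul_pos (sub_pos.2 hcon) one_sub_c5_pos]

lemma bp0_bd : 0.113877 ≤ bp0 ∧ bp0 ≤ 0.113882 := by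
  obtain ⟨h1, h2⟩ := bp2_bd
  have h3 := c5_gt
  have h4 := c5_lt
  have := mb h3.le h4.le (show (0.18426:ℝ) ≤ 1 - bp2 by linarith)
    (show 1 - bp2 ≤ 0.184264 by linarith) (by norm_num) (by norm_num)
  unfold bp0
  constructor <;> nlinarith only [this.1, this.2]

lemma s5_bp1 : 0.539342 ≤ s5 * bp1 ∧ s5 * bp1 ≤ 0.539348 := by
  obtain ⟨h1, h2⟩ := bp0_bd
  have h3 := c5_gt
  have h4 := c5_lt
  have := mb (show (0.690983:ℝ) ≤ 1 - c5 by linarith) (show 1 - c5 ≤ 0.6909833 by linarith) h1 h2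
    (by norm_num) (by norm_num)
  rw [bp1_mul]
  constructor <;> linarith only [this.1, this.2, h3, h4]

lemma bp1_bd : 0.567095 ≤ bp1 ∧ bp1 ≤ 0.567105 := by
  obtain ⟨h1, h2⟩ := s5_bp1
  have h3 := s5_gt
  have h4 := s5_lt
  constructor
  · by_contra hcon
    push Not at hcon
    nlinarith only [h1, h3, h4, mul_pos (sub_pos.2 hcon) s5_pos]
  · by_contra hcon
    push Not at hcon
    nlinarith only [h2, h3, h4, mul_pos (sub_pos.2 hcon) s5_pos]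

/-- The rotated vector `(1, 0, δ)`. -/
lemma rot_bp (δ : ℝ) :
    rot (vec bp0 (-bp1) bp2) c5 s5 (vec 1 0 δ) =
      vec (c5 + (1 - c5) * (bp0 + δ * bp2) * bp0 - s5 * bp1 * δ)
        (s5 * (bp2 - bp0 * δ) - (1 - c5) * (bp0 + δ * bp2) * bp1)
        (c5 * δ + (1 - c5) * (bp0 + δ * bp2) * bp2 + s5 * bp1) := by
  apply ext3
  · rw [rot_0]; simp only [dot, vec_0, vec_1, vec_2]; ring
  · rw [rot_1]; simp only [dot, vec_0, vec_1, vec_2]; ring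
  · rw [rot_2]; simp only [dot, vec_0, vec_1, vec_2]; ring

/-- The first word: numbers. -/
lemma numY : let R := rot (vec bp0 (-bp1) bp2) c5 s5 (vec 1 0 (2 * c5))
    (0.0242 ≤ R 0 ∧ R 0 ≤ 0.0244) ∧ (0.4666 ≤ R 1 ∧ R 1 ≤ 0.4668) ∧
      (1.0786 ≤ R 2 ∧ R 2 ≤ 1.0788) := by
  intro R
  obtain ⟨b1, b2⟩ := bp2_bd
  obtain ⟨b3, b4⟩ := bp0_bd
  obtain ⟨b5, b6⟩ := bp1_bd
  obtain ⟨b7, b8⟩ := s5_bp1
  have c1 := c5_gt
  have c2 := c5_lt
  have s1 := s5_gt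
  have s2 := s5_lt
  have d1 : (0.690983:ℝ) ≤ 1 - c5 := by linarith only [c2]
  have d2 : 1 - c5 ≤ (0.6909833:ℝ) := by linarith only [c1]
  have e1 : (0.618033:ℝ) ≤ 2 * c5 := by linarith only [c1]
  have e2 : 2 * c5 ≤ (0.618034:ℝ) := by linarith only [c2]
  obtain ⟨P, hPd⟩ : ∃ P, P = bp0 + 2 * c5 * bp2 := ⟨_, rfl⟩
  have q0 := mb e1 e2 b1 b2 (by norm_num) (by norm_num)
  have P1 : 0.61802 ≤ P := by rw [hPd]; linarith only [q0.1, b3]
  have P2 : P ≤ 0.61804 := by rw [hPd]; linarith only [q0.2, b4]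
  have q1 := mb d1 d2 P1 P2 (by norm_num) (by norm_num)
  have q2 := mb q1.1 q1.2 b3 b4 (by norm_num) (by norm_num)
  have q3 := mb q1.1 q1.2 b5 b6 (by norm_num) (by norm_num)
  have q4 := mb q1.1 q1.2 b1 b2 (by norm_num) (by norm_num)
  have q5 := mb b7 b8 e1 e2 (by norm_num) (by norm_num)
  have q6 := mb b3 b4 e1 e2 (by norm_num) (by norm_num)
  have q7 := mb s1.le s2.le (show (0.745352:ℝ) ≤ bp2 - bp0 * (2 * c5) by linarith only [q6.2, b1])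
    (show bp2 - bp0 * (2 * c5) ≤ 0.745362 by linarith only [q6.1, b2]) (by norm_num) (by norm_num)
  have q8 := mb c1.le c2.le e1 e2 (by norm_num) (by norm_num)
  simp only [R]
  rw [rot_bp, ← hPd]
  simp only [vec_0, vec_1, vec_2]
  refine ⟨⟨?_, ?_⟩, ⟨?_, ?_⟩, ⟨?_, ?_⟩⟩
  · linarith only [q2.1, q5.2, c1]
  · linarith only [q2.2, q5.1, c2]
  · linarith only [q3.2, q7.1]
  · linarith only [q3.1, q7.2]
  · linarith only [q4.1, q8.1, b7]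
  · linarith only [q4.2, q8.2, b8]

/-- The second word: numbers. -/
lemma numZ {δ : ℝ} (δ1 : 0.4093 ≤ δ) (δ2 : δ ≤ 0.4111) :
    let R := rot (vec bp0 (-bp1) bp2) c5 s5 (vec 1 0 δ)
    (0.122 ≤ R 0 ∧ R 0 ≤ 0.124) ∧ (0.554 ≤ R 1 ∧ R 1 ≤ 0.557) ∧
      (0.917 ≤ R 2 ∧ R 2 ≤ 0.921) := by
  intro R
  obtain ⟨b1, b2⟩ := bp2_bd
  obtain ⟨b3, b4⟩ := bp0_bd
  obtain ⟨b5, b6⟩ := bp1_bd
  obtain ⟨b7, b8⟩ := s5_bp1
  have c1 := c5_gt
  have c2 := c5_lt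
  have s1 := s5_gt
  have s2 := s5_lt
  have d1 : (0.690983:ℝ) ≤ 1 - c5 := by linarith only [c2]
  have d2 : 1 - c5 ≤ (0.6909833:ℝ) := by linarith only [c1]
  obtain ⟨Q, hQd⟩ : ∃ Q, Q = bp0 + δ * bp2 := ⟨_, rfl⟩
  have q0 := mb δ1 δ2 b1 b2 (by norm_num) (by norm_num)
  have Q1 : 0.4477 ≤ Q := by rw [hQd]; linarith only [q0.1, b3]
  have Q2 : Q ≤ 0.4493 := by rw [hQd]; linarith only [q0.2, b4]
  have t1 := mb d1 d2 Q1 Q2 (by norm_num) (by norm_num)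
  have t2 := mb t1.1 t1.2 b3 b4 (by norm_num) (by norm_num)
  have t3 := mb t1.1 t1.2 b5 b6 (by norm_num) (by norm_num)
  have t4 := mb t1.1 t1.2 b1 b2 (by norm_num) (by norm_num)
  have t5 := mb b7 b8 δ1 δ2 (by norm_num) (by norm_num)
  have t6 := mb b3 b4 δ1 δ2 (by norm_num) (by norm_num)
  have t7 := mb s1.le s2.le (show (0.7689:ℝ) ≤ bp2 - bp0 * δ by linarith only [t6.2, b1])
    (show bp2 - bp0 * δ ≤ 0.7692 by linarith only [t6.1, b2]) (by norm_num) (by norm_num)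
  have t8 := mb c1.le c2.le δ1 δ2 (by norm_num) (by norm_num)
  simp only [R]
  rw [rot_bp, ← hQd]
  simp only [vec_0, vec_1, vec_2]
  refine ⟨⟨?_, ?_⟩, ⟨?_, ?_⟩, ⟨?_, ?_⟩⟩
  · linarith only [t2.1, t5.2, c1]
  · linarith only [t2.2, t5.1, c2]
  · linarith only [t3.2, t7.1]
  · linarith only [t3.1, t7.2]
  · linarith only [t4.1, t8.1, b7]
  · linarith only [t4.2, t8.2, b8]

theorem hPlus : HPlus := by
  intro X D ρ h τ L hb hlam
  have hρ := L.ρ_pos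
  have hh := L.h_pos
  have hT := L.hT
  have ht := L.t_le
  obtain ⟨κ, hκ⟩ : ∃ κ, κ = h / ρ := ⟨_, rfl⟩
  have hhκ : h = ρ * κ := by rw [hκ]; field_simp
  have hκ1 : 1.3 ≤ κ := by
    rw [hκ, le_div_iff₀ hρ]; linarith
  have c1 := c5_gt
  have c2 := c5_lt
  -- images under the rotation
  have img : ∀ δ : ℝ, ρ ^ 2 * (1 + δ ^ 2) ≤ 4 → (h - ρ * δ) • e3 ∈ X →
      ρ • (vec 1 0 κ - rot (vec bp0 (-bp1) bp2) c5 s5 (vec 1 0 δ)) ∈ X := by
    intro δ hv hX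
    have h1 := hb.inv ((-ρ) • vec 1 0 δ) (by
      rw [dot_smul_left, dot_smul_right]
      simp only [dot, vec_0, vec_1, vec_2]
      linarith) (by
      have e : vec ρ 0 h + (-ρ) • vec 1 0 δ = (h - ρ * δ) • e3 := by
        apply ext3 <;> simp
        ring
      rw [e]; exact hX)
    have ec : cos (2 * π / ((5:ℕ):ℝ)) = c5 := by
      rw [show (2 * π / ((5:ℕ):ℝ)) = 2 * π / 5 by norm_num, cos_two_pi_div_five]
    have es : sin (2 * π / ((5:ℕ):ℝ)) = s5 := by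
      rw [show (2 * π / ((5:ℕ):ℝ)) = 2 * π / 5 by norm_num, sin_two_pi_div_five]
    rw [ec, es, rot_smul] at h1
    have e : ρ • (vec 1 0 κ - rot (vec bp0 (-bp1) bp2) c5 s5 (vec 1 0 δ)) =
        vec ρ 0 h + (-ρ) • rot (vec bp0 (-bp1) bp2) c5 s5 (vec 1 0 δ) := by
      rw [smul_sub, neg_smul]
      have : ρ • vec 1 0 κ = vec ρ 0 h := by rw [hhκ]; apply ext3 <;> simp
      rw [this]; abel
    rw [e]; exact h1
  -- points inside
  have ins : ∀ Y : E3, ρ • Y ∈ X → dot Y Y < 1 + κ ^ 2 → Y 0 ≠ 0 →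
      5 * Y 2 ^ 2 = dot Y Y ∧ ∃ v ∈ D, ∃ r : ℝ, 0 ≤ r ∧ Y = r • v ∧ r ^ 2 = dot Y Y := by
    intro Y hY hlt h0
    obtain ⟨v, hv, r, hr, e1⟩ := L.clean _ hY (by
      rw [dot_smul_left, dot_smul_right, hhκ]
      have := mul_lt_mul_of_pos_left hlt (by positivity : 0 < ρ ^ 2)
      nlinarith only [this])
    have e2 : Y = (r / ρ) • v := by
      have : ρ⁻¹ • ρ • Y = ρ⁻¹ • r • v := by rw [e1]
      rw [smul_smul, inv_mul_cancel₀ hρ.ne', one_smul, smul_smul] at this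
      rw [this]; congr 1; field_simp
    have hvv := L.unit v hv
    have e3 : (r / ρ) ^ 2 = dot Y Y := by
      rw [e2, dot_smul_left, dot_smul_right, hvv]; ring
    refine ⟨?_, v, hv, r / ρ, div_nonneg hr hρ.le, e2, e3⟩
    have e4 : Y 2 = (r / ρ) * v 2 := by rw [e2]; simp
    have e5 : Y 0 = (r / ρ) * v 0 := by rw [e2]; simp
    rw [← e3, e4]
    rcases L.height v hv with g | g | g | g
    · exfalso; apply h0; rw [e5, g]; simp
    · exfalso; apply h0; rw [e5, g]; simp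
    · rw [g]; linear_combination (5 * (r / ρ) ^ 2) * i5_sq
    · rw [g]; linear_combination (5 * (r / ρ) ^ 2) * i5_sq
  have hκρ : ρ ^ 2 * (1 + κ ^ 2) ≤ 7.012 := by
    have : ρ ^ 2 * (1 + κ ^ 2) = ρ ^ 2 + h ^ 2 := by rw [hhκ]; ring
    rw [this]; exact ht
  have hρ2 : 0 < ρ ^ 2 := by positivity
  -- the first word
  obtain ⟨Y, hYd⟩ : ∃ Y, Y = vec 1 0 κ - rot (vec bp0 (-bp1) bp2) c5 s5 (vec 1 0 (2 * c5)) :=
    ⟨_, rfl⟩
  have hYX : ρ • Y ∈ X := by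
    rw [hYd]
    apply img
    · have : (2 * c5) ^ 2 ≤ 0.4 := by nlinarith only [c1, c2]
      have h2 : 1.69 ≤ κ ^ 2 := by nlinarith only [hκ1]
      nlinarith only [hκρ, hρ2, mul_le_mul_of_nonneg_left this hρ2.le,
        mul_le_mul_of_nonneg_left h2 hρ2.le]
    · have : h - ρ * (2 * c5) = h - 2 * c5 * ρ := by ring
      rw [this]; exact hlam
  obtain ⟨⟨n1, n2⟩, ⟨n3, n4⟩, ⟨n5, n6⟩⟩ := numY
  have Y0 : 0.9756 ≤ Y 0 ∧ Y 0 ≤ 0.9758 := by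
    rw [hYd, sub_0, vec_0]
    constructor <;> linarith only [n1, n2]
  have Y1 : 0.4666 ≤ -Y 1 ∧ -Y 1 ≤ 0.4668 := by
    rw [hYd, sub_1, vec_1]
    constructor <;> linarith only [n3, n4]
  have Y2 : κ - 1.0788 ≤ Y 2 ∧ Y 2 ≤ κ - 1.0786 := by
    rw [hYd, sub_2, vec_2]
    constructor <;> linarith only [n5, n6]
  have hYY : dot Y Y = Y 0 ^ 2 + (-Y 1) ^ 2 + Y 2 ^ 2 := by simp only [dot]; ring
  have f0 : 0.9517 ≤ Y 0 ^ 2 ∧ Y 0 ^ 2 ≤ 0.9522 := by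
    constructor <;> nlinarith only [Y0.1, Y0.2]
  have f1 : 0.2177 ≤ (-Y 1) ^ 2 ∧ (-Y 1) ^ 2 ≤ 0.218 := by
    constructor <;> nlinarith only [Y1.1, Y1.2]
  have f2 : 0 < Y 2 := by linarith [Y2.1]
  have f3 : Y 2 ^ 2 ≤ (κ - 1.0786) ^ 2 := pow_le_pow_left₀ f2.le Y2.2 2
  obtain ⟨g1, v, hv, r, hr0, e1, e2⟩ := ins Y hYX (by
    rw [hYY]; nlinarith only [f0.2, f1.2, f3, hκ1]) (by intro h0; rw [h0] at Y0; linarith [Y0.1])
  -- `κ` and `r`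
  rw [hYY] at g1 e2
  have g2 : 0.5406 ≤ Y 2 := by
    by_contra hcon
    push Not at hcon
    nlinarith only [g1, f0.1, f1.1, hcon, f2]
  have g3 : Y 2 ≤ 0.541 := by
    by_contra hcon
    push Not at hcon
    nlinarith only [g1, f0.2, f1.2, hcon, f2]
  have r1 : 1.2087 ≤ r := by
    by_contra hcon
    push Not at hcon
    nlinarith only [e2, f0.1, f1.1, g2, hcon, hr0]
  have r2 : r ≤ 1.2099 := by
    by_contra hcon
    push Not at hcon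
    nlinarith only [e2, f0.2, f1.2, g3, f2, hcon, hr0]
  have k1 : 1.6192 ≤ κ := by linarith [Y2.2]
  have k2 : κ ≤ 1.6198 := by linarith [Y2.1]
  have hρ3 : ρ ^ 2 ≤ 1.94 := by
    have : 2.6217 ≤ κ ^ 2 := by nlinarith only [k1]
    nlinarith only [hκρ, this, hρ2, mul_le_mul_of_nonneg_left this hρ2.le]
  -- the point `ρ r e3`
  have hre : (ρ * r) • e3 ∈ X := by
    refine L.trans v hv e3 L.e3_mem (ρ * r) (by positivity) ?_ ?_
    · apply le_of_sq_le_sq _ (by norm_num)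
      have h1 : r ^ 2 ≤ 1.47 := by nlinarith only [r1, r2]
      have h2 := mul_le_mul hρ3 h1 (sq_nonneg r) (by norm_num)
      nlinarith only [h2]
    · have : (ρ * r) • v = ρ • Y := by rw [e1, smul_smul]
      rw [this]; exact hYX
  -- the second word
  obtain ⟨δ, hδ⟩ : ∃ δ, δ = κ - r := ⟨_, rfl⟩
  have δ1 : 0.4093 ≤ δ := by rw [hδ]; linarith only [r2, k1]
  have δ2 : δ ≤ 0.4111 := by rw [hδ]; linarith only [r1, k2]
  obtain ⟨Z, hZd⟩ : ∃ Z, Z = vec 1 0 κ - rot (vec bp0 (-bp1) bp2) c5 s5 (vec 1 0 δ) := ⟨_, rfl⟩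
  have hZX : ρ • Z ∈ X := by
    rw [hZd]
    apply img
    · have h1 : δ ^ 2 ≤ 0.17 := by nlinarith only [δ1, δ2]
      nlinarith only [hρ3, hρ2, mul_le_mul_of_nonneg_left h1 hρ2.le]
    · have : h - ρ * δ = ρ * r := by rw [hδ, hhκ]; ring
      rw [this]; exact hre
  obtain ⟨⟨m1, m2⟩, ⟨m3, m4⟩, ⟨m5, m6⟩⟩ := numZ δ1 δ2
  have Z0 : 0.876 ≤ Z 0 ∧ Z 0 ≤ 0.878 := by
    rw [hZd, sub_0, vec_0]
    constructor <;> linarith only [m1, m2]
  have Z1 : 0.554 ≤ -Z 1 ∧ -Z 1 ≤ 0.557 := by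
    rw [hZd, sub_1, vec_1]
    constructor <;> linarith only [m3, m4]
  have Z2 : 0.698 ≤ Z 2 ∧ Z 2 ≤ 0.703 := by
    rw [hZd, sub_2, vec_2]
    constructor <;> linarith only [m5, m6, k1, k2]
  have hZZ : dot Z Z = Z 0 ^ 2 + (-Z 1) ^ 2 + Z 2 ^ 2 := by simp only [dot]; ring
  obtain ⟨g4, -⟩ := ins Z hZX (by
    rw [hZZ]; nlinarith only [Z0.1, Z0.2, Z1.1, Z1.2, Z2.1, Z2.2, k1])
    (by intro h0; rw [h0] at Z0; linarith [Z0.1])
  rw [hZZ] at g4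
  nlinarith only [g4, Z0.1, Z0.2, Z1.1, Z1.2, Z2.1, Z2.2]

end

end Pool.Agent.Lib.MP_c5a075_co
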