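import Pool.Agent.Lib.MP_c5a075_co.LFCross

/-! The case `n = 7` of the local statement, from the certificate `cross7`. -/

set_option autoImplicit false

namespace Pool.Agent.Lib.MP_c5a075_co

noncomputable section

open Real

/-- facts for a word on a line of the star, not on the vertical axis -/
lemma cone_facts {X D : Set E3} {ρ h τ T : ℝ} (L : LF X D ρ h τ) (hT : h * T = ρ) {P : E3}
    (hX : h • P ∈ X) (hlt : dot (h • P) (h • P) < ρ ^ 2 + h ^ 2)
    (hz : 5 * (h • P) 2 ^ 2 = dot (h • P) (h • P)) (hP2 : 0 < P 2) :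
    Gq P = 0 ∧ T * P 0 ≤ 4 * c5 * P 2 ∧ T * (c5 * P 0 + s5 * P 1) ≤ 4 * c5 * P 2 := by
  have hh := L.h_pos
  obtain ⟨v, hv, r, hr, e⟩ := L.clean _ hX hlt
  have e2 : h * P 2 = r * v 2 := by rw [← smul_2, e, smul_2]
  have hv2 : v 2 = i5 := by
    have h1 : 5 * (r * v 2) ^ 2 = r ^ 2 := by
      rw [e] at hz
      simp only [smul_2, dot_smul_left, dot_smul_right, L.unit v hv] at hz
      linarith
    have hr0 : r ≠ 0 := by
      rintro rfl
      rw [zero_mul] at e2
      exact absurd e2 (mul_pos hh hP2).ne'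
    have h2 : v 2 ^ 2 = 1 / 5 := by
      have : r ^ 2 * (5 * v 2 ^ 2 - 1) = 0 := by linarith
      have := (mul_eq_zero.1 this).resolve_left (by positivity)
      linarith
    have h3 : 0 < v 2 := by
      by_contra hcon
      push Not at hcon
      have := mul_nonpos_of_nonneg_of_nonpos hr hcon
      have := mul_pos hh hP2
      linarith
    exact (pow_left_inj₀ h3.le i5_pos.le two_ne_zero).1 (by rw [h2, i5_sq])
  have hr5 : r = h * (5 * i5 * P 2) := by
    have h1 : h * P 2 = r * i5 := by rw [e2, hv2]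
    have h2 := i5_sq
    linear_combination (-5 * i5) * h1 + (-5 * r) * h2
  have hP0 : P 0 = 5 * i5 * P 2 * v 0 := by
    have h1 : h * P 0 = r * v 0 := by rw [← smul_0, e, smul_0]
    rw [hr5] at h1
    have h2 : h * (P 0 - 5 * i5 * P 2 * v 0) = 0 := by linarith
    have := (mul_eq_zero.1 h2).resolve_left hh.ne'
    linarith
  have hP1 : P 1 = 5 * i5 * P 2 * v 1 := by
    have h1 : h * P 1 = r * v 1 := by rw [← smul_1, e, smul_1]
    rw [hr5] at h1
    have h2 : h * (P 1 - 5 * i5 * P 2 * v 1) = 0 := by linarith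
    have := (mul_eq_zero.1 h2).resolve_left hh.ne'
    linarith
  have hlam : 0 ≤ 5 * i5 * P 2 := by have := i5_pos; positivity
  have h1m : 4 * c5 * i5 = 1 - i5 := by
    have h5 := i5_sq
    have h6 := c5_eq
    rw [h6]; linear_combination 5 * h5
  have h6 : 5 * i5 * P 2 * (4 * c5 * i5) = 4 * c5 * P 2 := by
    linear_combination (20 * c5 * P 2) * i5_sq
  refine ⟨?_, ?_, ?_⟩
  · have hu := L.unit v hv
    simp only [dot, hv2] at hu
    have h5 := i5_sq
    have h6 : v 0 ^ 2 + v 1 ^ 2 = 4 / 5 := by linarith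
    rw [Gq, hP0, hP1]
    linear_combination (25 * i5 ^ 2 * P 2 ^ 2) * h6 + (20 * P 2 ^ 2) * h5
  · have hn := L.near v hv
    rw [hv2, ← hT] at hn
    have h3 : T * v 0 ≤ 4 * c5 * i5 := by
      rw [h1m]; nlinarith only [hn, hh]
    have h5 := mul_le_mul_of_nonneg_left h3 hlam
    rw [h6] at h5
    rw [hP0]
    linarith
  · have hn := L.nearR v hv 1 (Or.inl rfl)
    rw [hv2, ← hT, one_mul] at hn
    have h3 : T * (c5 * v 0 + s5 * v 1) ≤ 4 * c5 * i5 := by
      rw [h1m]; nlinarith only [hn, hh]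
    have h5 := mul_le_mul_of_nonneg_left h3 hlam
    rw [h6] at h5
    rw [hP0, hP1]
    linarith

theorem hSeven' : HSeven := by
  intro X D ρ h τ b L hb hr
  rcases T5_frame L.ρ_pos L.h_pos L.hk54 L.hvis hb L.ring with h5 | ⟨e, k, he, hk, hX, hlt⟩
  · exact hr h5
  have hρ := L.ρ_pos
  have hh := L.h_pos
  obtain ⟨Y, E, M, hB, hY, hl⟩ := lf_norm L he hk hb hX hlt
  obtain ⟨b', hb'⟩ : ∃ b', b' = vec (k * e * b 0) (k * b 1) (k * e * b 2) := ⟨_, rfl⟩
  rw [← hb'] at hB hY hl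
  have ec : cos (2 * π / ((7:ℕ):ℝ)) = c7 := by
    rw [show (2 * π / ((7:ℕ):ℝ)) = 2 * π / 7 by norm_num]; rfl
  have es : sin (2 * π / ((7:ℕ):ℝ)) = s7 := by
    rw [show (2 * π / ((7:ℕ):ℝ)) = 2 * π / 7 by norm_num]; rfl
  have hu := hB.unit
  have hax : (wd ρ h b' c7 s7) 0 = 0 → (wd ρ h b' c7 s7) 1 = 0 → False := by
    intro g0 g1
    have h2 := onaxis_angle (ρ := ρ) (h := h) (e := 1) hρ (Or.inl rfl) hu cs7
      (Real.cos_le_one _) (wd_word ρ h b' c7 s7) g0 g1
    have := c7_gt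
    linarith
  rw [ec, es] at hY hl
  obtain ⟨T, hTd⟩ : ∃ T, T = ρ / h := ⟨_, rfl⟩
  have hT : h * T = ρ := by rw [hTd]; field_simp
  have hT0 : 0 ≤ T := by rw [hTd]; positivity
  have hT1 : T < 0.764 := by
    have h1 := L.hT
    rw [← hT] at h1
    nlinarith only [h1, hh]
  have hzw : wd ρ h b' c7 s7 = h • rgw b' c7 s7 (c5 - 1) s5 T := by
    rw [smul_rgw hT]; rfl
  obtain ⟨P, hP⟩ : ∃ P, P = rgw b' c7 s7 (c5 - 1) s5 T := ⟨_, rfl⟩
  rw [hzw] at hY hl hax
  have hz' := dot_rgw hT hu cs7 (v0 := c5 - 1) (v1 := s5) chord5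
  have hl' := hl
  rw [hz'] at hl'
  have hρh : 0 < ρ * h := mul_pos hρ hh
  have hin : rgf b' c7 s7 (c5 - 1) s5 T < 0 := by
    by_contra hcon
    push Not at hcon
    have := mul_nonneg hρh.le hcon
    linarith
  have hP2 : 0 < P 2 := by
    have h1 : dot (h • P - vec ρ 0 h) (h • P - vec ρ 0 h) = 2 * (1 - c5) * ρ ^ 2 := by
      rw [hP, smul_rgw hT, add_sub_cancel_left, dot_rot_rot b' hu c7 s7 cs7]
      have := c5_sq_add
      simp only [dot, vec_0, vec_1, vec_2]
      linear_combination (ρ ^ 2) * this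
    have h2 : (h * P 2 - h) ^ 2 ≤ 2 * (1 - c5) * ρ ^ 2 := by
      rw [← h1]
      simp only [dot, sub_0, sub_1, sub_2, smul_0, smul_1, smul_2, vec_0, vec_1, vec_2]
      nlinarith only [sq_nonneg (h * P 0 - ρ), sq_nonneg (h * P 1 - 0)]
    by_contra hcon
    push Not at hcon
    have h3 : h ^ 2 ≤ (h * P 2 - h) ^ 2 := by
      have h4 : h * P 2 ≤ 0 := mul_nonpos_of_nonneg_of_nonpos hh.le hcon
      nlinarith only [h4, hh]
    have h5 := c5_gt
    have h6 : ρ ^ 2 ≤ 0.584 * h ^ 2 := by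
      have : ρ ^ 2 = T ^ 2 * h ^ 2 := by rw [← hT]; ring
      rw [this]
      have : T ^ 2 ≤ 0.584 := by nlinarith only [hT0, hT1]
      exact mul_le_mul_of_nonneg_right this (sq_nonneg _)
    have h7 : 2 * (1 - c5) * ρ ^ 2 ≤ 2 * 0.7 * ρ ^ 2 :=
      mul_le_mul_of_nonneg_right (by linarith) (sq_nonneg _)
    have h8 : 0 < h ^ 2 := by positivity
    linarith
  rw [← hP] at hY hl hax
  obtain ⟨v, hv, r, hr0, e1⟩ := M.clean _ hY hl
  have hcone : 5 * (h • P) 2 ^ 2 = dot (h • P) (h • P) := by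
    rcases M.height v hv with h5 | h5 | h5 | h5
    · exact (hax (by rw [e1, h5]; simp) (by rw [e1, h5]; simp)).elim
    · exact (hax (by rw [e1, h5]; simp) (by rw [e1, h5]; simp)).elim
    · rw [e1]
      simp only [dot_smul_left, dot_smul_right, M.unit v hv, smul_2, h5]
      linear_combination (5 * r ^ 2) * i5_sq
    · rw [e1]
      simp only [dot_smul_left, dot_smul_right, M.unit v hv, smul_2, h5]
      linear_combination (5 * r ^ 2) * i5_sq
  obtain ⟨f1, f2, f3⟩ := cone_facts M hT hY hl hcone hP2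
  rcases cross7 hu hT0 hT1 with h1 | h1 | h1 | h1 | ⟨h1, h2⟩
  · rw [← hP] at h1; exact h1 f1
  · linarith
  · rw [← hP] at h1; linarith
  · rw [← hP] at h1; linarith
  · have hI := hB.pow 2
    have e3 : ((2:ℤ):ℝ) * (2 * π / ((7:ℕ):ℝ)) = 2 * (2 * π / 7) := by push_cast; ring
    rw [e3, Real.cos_two_mul, Real.sin_two_mul] at hI
    exact rgw_kill M hT hu cs72 hI (e := -1) (Or.inr rfl) (by rw [neg_one_mul]; exact h1)
      (by rw [neg_one_mul]; exact h2)

end

end Pool.Agent.Lib.MP_c5a075_co
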