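import Pool.Agent.Lib.MP_c5a075_co.LFRad
import Pool.Agent.Lib.MP_c5a075_co.LFSeven34
import Pool.Agent.Lib.MP_c5a075_co.LFPlus

/-! The local statement. -/

set_option autoImplicit false

namespace Pool.Agent.Lib.MP_c5a075_co

/-- **The local statement.** -/
theorem localA : LocalA := localA_of hRad hSeven' hPlus hCross

end Pool.Agent.Lib.MP_c5a075_co
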