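import Pool.Agent.Lib.MP_c5a075_co.Layer

/-! Numerical part of the exclusion of points off the star. -/

set_option autoImplicit false

namespace Pool.Agent.Lib.MP_c5a075_co

noncomputable section

open Real

/-- numerical part -/
lemma off_num {μ a q z : ℝ} (hμ : 0 < μ) (ha : a = 5 / 2 * i5 * μ) (hq : q < (4 / 3 * a) ^ 2)
    (hk : kap ^ 2 * q ≤ z ^ 2) (hzq : z ^ 2 ≤ q) :
    q - z ^ 2 ≤ 0.82 * μ ^ 2 ∧ z ≤ 1.4908 * μ ∧ a ≤ 1.1181 * μ ∧ 1.118 * μ ≤ a ∧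
      q - z ^ 2 ≤ 0.584 * z ^ 2 := by
  have h1 := i5_gt
  have h2 := i5_lt
  have h3 := kap_gt
  have h4 := i5_sq
  have ha1 : a ≤ 1.1181 * μ := by rw [ha]; nlinarith only [hμ, h2]
  have ha2 : 1.118 * μ ≤ a := by rw [ha]; nlinarith only [hμ, h1]
  have ha3 : a ^ 2 = 1.25 * μ ^ 2 := by rw [ha]; linear_combination (25 / 4 * μ ^ 2) * h4
  have hk2 : 0.6314 ≤ kap ^ 2 := by nlinarith only [h3]
  have hq0 : 0 ≤ q := by nlinarith only [hzq]
  have hq1 : q ≤ 16 / 9 * (1.25 * μ ^ 2) := by rw [← ha3]; linarith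
  have hk3 : 0.6314 * q ≤ z ^ 2 := by nlinarith only [hk, hk2]
  have hμ2 : 0 < μ ^ 2 := by positivity
  refine ⟨by linarith only [hq1, hk3, hμ2], ?_, ha1, ha2, by linarith only [hq0, hk3]⟩
  apply le_of_sq_le_sq _ (by positivity)
  rw [mul_pow]; norm_num; linarith only [hzq, hq0, hq1]

end

end Pool.Agent.Lib.MP_c5a075_co
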