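import Pool.Agent.Lib.MP_c5a075_co.SelA
import Pool.Agent.Lib.MP_c5a075_co.OffNum

/-! Regime A: points off the star are far from the centre; Stage 1 in Regime A. -/

set_option autoImplicit false

namespace Pool.Agent.Lib.MP_c5a075_co

noncomputable section

open Real

lemma offA {X : Set E3} {μ a t : ℝ} (H : Caps X 0 (40 * t) t) (hμ : 0 < μ) (hμt : μ ≤ t)
    (ha : a = 5 / 2 * i5 * μ) (hS : StarAx X a) {x : E3}
    (hx : x ∈ X) (hoff : x ∉ Sig) : (4 / 3 * a) ^ 2 ≤ dot x x := by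
  by_contra hcon
  push Not at hcon
  obtain ⟨v, hv, hvm⟩ := exists_near x
  obtain ⟨F, hF, hFv⟩ := exists_sym hv
  have ht := H.t_pos
  have htl := H.t_le
  obtain ⟨y, hy⟩ : ∃ y, y = F.co x := ⟨_, rfl⟩
  have hFy : F.lin y = x := by rw [hy, F.lin_co]
  have hyy : dot y y = dot x x := by rw [← hFy, F.dot_lin]
  have hnear : ∀ u ∈ Dr, dot y u ≤ y 2 := by
    intro u hu
    have h1 := hvm (F.lin u) (hF.maps u hu)
    rw [← hFy, F.dot_lin, ← hFv, F.dot_lin, dot_e3] at h1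
    exact h1
  obtain ⟨hk1, hk2⟩ := near_kap hnear
  have hy2 : y 2 ^ 2 ≤ dot y y := by
    have h1 := sq_nonneg (y 0)
    have h2 := sq_nonneg (y 1)
    simp only [dot]; linarith
  rw [← hyy] at hcon
  obtain ⟨n1, n2, n3, n4, n5⟩ := off_num hμ ha hcon hk1 hy2
  -- the base
  have hb : Ax (F.pull X) (a • e3) e3 5 := by
    apply Fr.ax_pull
    rw [hF.map, Fr.lin_smul, hFv]
    exact hS v hv
  have hC : Caps (F.pull X) 0 (40 * t) t := by
    refine (H.pull F).recenter ?_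
    have e : dist (0:E3) (F.inv 0) = 0 := by
      rw [← F.dist_map, Fr.map_inv, hF.map, Fr.lin_zero, dist_self]
    linarith
  have hyX : y ∈ F.pull X := by rw [Fr.mem_pull, hF.map, hFy]; exact hx
  obtain ⟨t1, ht1⟩ : ∃ t1, t1 = (1 - 1 / 1000000) * t := ⟨_, rfl⟩
  have ht1p : 0 < t1 := by rw [ht1]; positivity
  have ht1μ : 0.999999 * μ ≤ t1 := by rw [ht1]; linarith
  have ht1μ2 : 0.9999 * μ ^ 2 ≤ t1 ^ 2 := by
    have h1 := pow_le_pow_left₀ (by positivity) ht1μ 2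
    rw [mul_pow] at h1
    have h2 := sq_nonneg μ
    norm_num at h1 ⊢
    linarith only [h2, h1]
  have hr : rho2 e3 (y - a • e3) = dot y y - y 2 ^ 2 := by
    simp only [rho2, dot, sub_0, sub_1, sub_2, smul_0, smul_1, smul_2, e3_0, e3_1, e3_2]; ring
  have hd : dot e3 (y - a • e3) = y 2 - a := by
    simp only [dot, sub_0, sub_1, sub_2, smul_0, smul_1, smul_2, e3_0, e3_1, e3_2]; ring
  have hμ2' : 0 < μ ^ 2 := by positivity
  have hInK : InK e3 (y - a • e3) t1 := by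
    rcases le_total (a - y 2) (0.61 * t1) with h1 | h1
    · refine ⟨y 2 - a, ?_, ?_⟩
      · rw [abs_le]
        constructor
        · linarith only [h1]
        · linarith only [n2, n4, ht1p, ht1μ]
      · rw [dot_sub_axis dot_e3_e3, hr, hd, sub_self]
        linarith only [n1, ht1μ2, hμ2']
    · refine ⟨-(0.61 * t1), by rw [abs_neg, abs_of_nonneg (by positivity)], ?_⟩
      rw [dot_sub_axis dot_e3_e3, hr, hd]
      have h2 : y 2 ≤ 0.5082 * μ := by linarith only [n3, ht1p, ht1μ, h1]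
      have h3 : (y 2 - a - -(0.61 * t1)) ^ 2 ≤ (0.5082 * μ) ^ 2 := by
        have h4 : (y 2 - a - -(0.61 * t1)) ^ 2 = (a - y 2 - 0.61 * t1) ^ 2 := by ring
        rw [h4]
        apply pow_le_pow_left₀ (by linarith only [h1])
        linarith only [hk2, n3, ht1p, ht1μ]
      have h5 : y 2 ^ 2 ≤ (0.5082 * μ) ^ 2 := pow_le_pow_left₀ hk2 h2 2
      rw [mul_pow] at h3 h5
      norm_num at h3 h5
      linarith only [n5, ht1μ2, hμ2', h3, h5]
  have hda : dist (a • e3) 0 ≤ 40 * t := by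
    rw [dist_le_iff _ _ (by positivity), sub_zero, dot_smul_left, dot_smul_right, dot_e3_e3]
    have h1 : 0 ≤ a := by linarith
    have h2 : a ≤ 40 * t := by linarith
    have h3 := mul_le_mul h2 h2 h1 (by positivity)
    rw [mul_one, sq]
    exact h3
  have h0 := hC.caps _ _ _ hb hda y hyX (by rw [← ht1]; exact hInK)
  rw [hr] at h0
  apply hoff
  have h6 : y 0 ^ 2 + y 1 ^ 2 = 0 := by
    have : dot y y = y 0 ^ 2 + y 1 ^ 2 + y 2 ^ 2 := by simp only [dot]; ring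
    linarith only [h0, this]
  have g0 := sq_nonneg (y 0)
  have g1 := sq_nonneg (y 1)
  have h7 : y 0 = 0 := pow_eq_zero_iff (two_ne_zero) |>.1 (by linarith only [h6, g0, g1])
  have h8 : y 1 = 0 := pow_eq_zero_iff (two_ne_zero) |>.1 (by linarith only [h6, g0, g1])
  have h9 : y = y 2 • e3 := by
    apply ext3
    · rw [h7]; simp
    · rw [h8]; simp
    · simp
  rw [← hFy, hF.Sig_iff, h9]
  exact smul_mem_Sig e3_mem _

/-- Stage 1 in Regime A. -/
theorem stage1A {X : Set E3} {y0 : E3} {K : ℝ} (hR : Region X y0 K) (hK : 1000000000 ≤ K)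
    (hp : ∃ x a n, Ax X x a n ∧ dist x y0 ≤ 90000002 ∧ ∃ v ∈ X,
      dot (v - x) (v - x) ≤ 1.2422 ^ 2 ∧ rho2 a (v - x) ≠ 0) :
    ∃ (F : Fr) (a : ℝ), Bas (F.pull X) ∧ StarAx (F.pull X) a ∧ 0 < a ∧ a ≤ 1.72 ∧
      ∀ x ∈ F.pull X, x ∉ Sig → (4 / 3 * a) ^ 2 ≤ dot x x := by
  obtain ⟨x, b, w, n, t, hC, hx, hw, hoff, hk, hxy⟩ := selA hR hK hp
  have ht := hC.t_pos
  have htl := hC.t_le
  obtain ⟨F, μ, hμ0, hμt, hμ2, hFo, hS⟩ := nodeA hC hx (by rw [dist_self]; exact ht.le) hw hoff hk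
  have hi := i5_pos
  have hi2 := i5_lt
  refine ⟨F, 5 / 2 * i5 * μ, bas_of_region hR F ?_, hS, by positivity, ?_, ?_⟩
  · have := dist_triangle F.o x y0
    linarith
  · have h1 : i5 * μ ≤ 0.44722 * t := mul_le_mul hi2.le hμt hμ0.le (by norm_num)
    linarith
  · intro y hy hyoff
    refine offA ((hC.pull F).recenter ?_) hμ0 hμt rfl hS hy hyoff
    have e : dist (0:E3) (F.inv x) = dist F.o x := by
      rw [← F.dist_map, F.map_inv, Fr.map, Fr.lin_zero, add_zero]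
    linarith

end

end Pool.Agent.Lib.MP_c5a075_co
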