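import Pool.Agent.Lib.MP_c5a075_co.Tube

/-! The two regimes. -/

set_option autoImplicit false

namespace Pool.Agent.Lib.MP_c5a075_co

noncomputable section

open Real

/-- A rotated image of `v` off a given line through `v`. -/
lemma neighbor_off {X : Set E3} {x a v d : E3} {n : ℕ} (hx : Ax X x a n) (hv : v ∈ X)
    (hvis : dot (v - x) (v - x) ≤ 4) (h0 : rho2 a (v - x) ≠ 0) (hdd : dot d d = 1) :
    ∃ v' ∈ X, rho2 d (v' - v) ≠ 0 ∧
      dot (v' - v) (v' - v) ≤ 2 * (1 - c5) * rho2 a (v - x) := by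
  by_contra hcon
  push Not at hcon
  have ha := hx.unit
  have hn5 : 5 ≤ n := by rcases hx.ord with h | h <;> omega
  obtain ⟨u, hu⟩ : ∃ u, u = v - x := ⟨_, rfl⟩
  rw [← hu] at hvis h0 hcon
  have hvu : v = x + u := by rw [hu]; abel
  obtain ⟨C, hC⟩ : ∃ C, C = cos (2 * π / n) := ⟨_, rfl⟩
  obtain ⟨S, hS⟩ : ∃ S, S = sin (2 * π / n) := ⟨_, rfl⟩
  have hCS : C ^ 2 + S ^ 2 = 1 := by rw [hC, hS]; exact Real.cos_sq_add_sin_sq _
  have hpi := Real.pi_pos
  have hnR : (5:ℝ) ≤ n := by exact_mod_cast hn5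
  have hφ0 : 0 < 2 * π / n := by positivity
  have hφ1 : 2 * π / n ≤ 2 * π / 5 := div_le_div_of_nonneg_left (by positivity) (by norm_num) hnR
  have hC1 : c5 ≤ C := by
    rw [hC, ← cos_two_pi_div_five]
    exact Real.cos_le_cos_of_nonneg_of_le_pi hφ0.le (by linarith) hφ1
  have hS0 : 0 < S := by rw [hS]; exact Real.sin_pos_of_pos_of_lt_pi hφ0 (by linarith)
  have hC2 : C < 1 := by nlinarith only [hCS, hS0]
  have hρ0 : 0 < rho2 a u := lt_of_le_of_ne (rho2_nonneg a u ha) (Ne.symm h0)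
  have key : ∀ S' : ℝ, S' ^ 2 = S ^ 2 → x + rot a C S' u ∈ X →
      rho2 d (rot a C S' u - u) = 0 := by
    intro S' hS' hmem
    have hCS' : C ^ 2 + S' ^ 2 = 1 := by rw [hS']; exact hCS
    have e : x + rot a C S' u - v = rot a C S' u - u := by rw [hvu]; abel
    by_contra hne
    have h2 : dot (rot a C S' u - u) (rot a C S' u - u) = 2 * (1 - C) * rho2 a u := by
      rw [dot_rot_sub a ha C S' hCS' u, rho2]
    have h3 := hcon _ hmem (by rw [e]; exact hne)
    rw [e, h2] at h3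
    nlinarith only [hC1, hρ0, h3]
  have hm1 : x + rot a C S u ∈ X := by
    have := hx.inv u hvis (by rw [← hvu]; exact hv)
    rw [← hC, ← hS] at this; exact this
  have hm2 : x + rot a C (-S) u ∈ X := by
    have h2 := hx.pow (-1)
    have e : ((-1 : ℤ) : ℝ) * (2 * π / n) = -(2 * π / n) := by push_cast; ring
    rw [e, Real.cos_neg, Real.sin_neg, ← hC, ← hS] at h2
    exact h2 u hvis (by rw [← hvu]; exact hv)
  have k1 := (rho2_eq_zero hdd).1 (key S rfl hm1)
  have k2 := (rho2_eq_zero hdd).1 (key (-S) (by ring) hm2)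
  obtain ⟨α, hα⟩ : ∃ α, α = dot d (rot a C S u - u) := ⟨_, rfl⟩
  obtain ⟨β, hβ⟩ : ∃ β, β = dot d (rot a C (-S) u - u) := ⟨_, rfl⟩
  rw [← hα] at k1
  rw [← hβ] at k2
  have s1 : rot a C S u - rot a C (-S) u = (2 * S) • cross a u := by
    apply ext3 <;> simp [rot] <;> ring
  have s2 : (rot a C S u - u) + (rot a C (-S) u - u) = (2 * (1 - C)) • (dot a u • a - u) := by
    apply ext3 <;> simp [rot] <;> ring
  have s3 : (α - β) • d = (2 * S) • cross a u := by
    rw [← s1, sub_smul, ← k1, ← k2]; abel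
  have s4 : (α + β) • d = (2 * (1 - C)) • (dot a u • a - u) := by
    rw [← s2, add_smul, ← k1, ← k2]
  have s5 : dot ((α - β) • d) ((α + β) • d) = 0 := by
    rw [s3, s4, dot_smul_left, dot_smul_right, dot_sub_right, dot_smul_right]
    have e1 : dot (cross a u) a = 0 := by rw [dot_comm]; exact dot_cross_left a u
    have e2 : dot (cross a u) u = 0 := by rw [dot_comm]; exact dot_cross_right a u
    rw [e1, e2]; ring
  have s6 : dot ((α - β) • d) ((α - β) • d) = 4 * S ^ 2 * rho2 a u := by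
    rw [s3, dot_smul_left, dot_smul_right, dot_cross_cross, ha, rho2]; ring
  have s7 : dot ((α + β) • d) ((α + β) • d) = 4 * (1 - C) ^ 2 * rho2 a u := by
    rw [s4, dot_smul_left, dot_smul_right]
    simp only [dot_sub_left, dot_sub_right, dot_smul_left, dot_smul_right, ha, rho2,
      dot_comm u a]
    ring
  rw [dot_smul_left, dot_smul_right, hdd] at s5 s6 s7
  have s8 : 0 < (α - β) * ((α - β) * 1) := by rw [s6]; positivity
  have s9 : 0 < (α + β) * ((α + β) * 1) := by
    rw [s7]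
    have : 0 < 1 - C := by linarith
    positivity
  have s10 : (α - β) * (α + β) = 0 := by linarith
  rcases mul_eq_zero.1 s10 with h | h
  · rw [h] at s8; norm_num at s8
  · rw [h] at s9; norm_num at s9

/-- The regime split: either some off-line pair is at distance at most `1.2422`, or all visible
off-line points are at distance at least `1.0566` from the line. -/
theorem split {X : Set E3} {y0 : E3} {K D : ℝ} (hR : Region X y0 K) (hK : D + 2 ≤ K) :
    (∃ x a n, Ax X x a n ∧ dist x y0 ≤ D + 2 ∧ ∃ v ∈ X, dot (v - x) (v - x) ≤ 1.2422 ^ 2 ∧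
      rho2 a (v - x) ≠ 0) ∨
    (∀ x a n, Ax X x a n → dist x y0 ≤ D → ∀ v ∈ X, dot (v - x) (v - x) ≤ 4 →
      rho2 a (v - x) = 0 ∨ 1.0566 ^ 2 ≤ rho2 a (v - x)) := by
  by_contra hcon
  push Not at hcon
  obtain ⟨h1, x, a, n, hx, hd, v, hv, hvis, hoff, hlt⟩ := hcon
  have hvd : dist v y0 ≤ D + 2 := by
    have h2 : dist v x ≤ 2 := (dist_le_iff v x (by norm_num)).2 (by linarith)
    have := dist_triangle v x y0
    linarith
  obtain ⟨d, m, hdm⟩ := hR.bad v hv (by linarith)
  obtain ⟨v', hv', hne, hle⟩ := neighbor_off hx hv hvis hoff hdm.unit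
  apply hne
  apply h1 v d m hdm hvd v' hv'
  have := c5_gt
  have hρ0 := rho2_nonneg a (v - x) hx.unit
  have h2 : 2 * (1 - c5) * rho2 a (v - x) ≤ 1.3819665 * rho2 a (v - x) :=
    mul_le_mul_of_nonneg_right (by linarith) hρ0
  linarith

end

end Pool.Agent.Lib.MP_c5a075_co
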