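import Pool.Agent.Lib.MP_c5a075_co.StageB
import Pool.Agent.Lib.MP_c5a075_co.Split
import Pool.Agent.Lib.MP_c5a075_co.OffA

/-! Stage 1: every large region contains a node. -/

set_option autoImplicit false

namespace Pool.Agent.Lib.MP_c5a075_co

noncomputable section

open Real

/-- Stage 1: a large region contains twelve star axes around a centre. -/
theorem stage1 : ∃ K : ℝ, ∀ (X : Set E3) (y0 : E3), Region X y0 K →
    ∃ (F : Fr) (a : ℝ), Bas (F.pull X) ∧ StarAx (F.pull X) a ∧ 0 < a ∧ a ≤ 1.72 ∧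
      ∀ x ∈ F.pull X, x ∉ Sig → (4 / 3 * a) ^ 2 ≤ dot x x := by
  refine ⟨2000000000, fun X y0 hR => ?_⟩
  rcases split (D := 500000000) hR (by norm_num) with h | h
  · obtain ⟨x, a, n, hx, hd, hv⟩ := h
    have hR' : Region X x 1000000000 := by
      refine ⟨hR.sep, hR.cov, fun y hy hyd => hR.bad y hy ?_⟩
      have := dist_triangle y x y0
      linarith
    exact stage1A hR' le_rfl ⟨x, a, n, hx, by rw [dist_self]; norm_num, hv⟩
  · exact stage1B hR (by norm_num) h

end

end Pool.Agent.Lib.MP_c5a075_co
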