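import Pool.Agent.Lib.MP_c5a075_co.FinalOf
import Pool.Agent.Lib.MP_c5a075_co.Stage1
import Pool.Agent.Lib.MP_c5a075_co.LocalAll

/-!
# MP_c5a075_co: the main statement
-/

namespace Pool.Agent.Lib.MP_c5a075_co

noncomputable section

/-- The main statement. -/
theorem main_statement :
    ∃ k : ℝ, ∀ (X : Set (EuclideanSpace ℝ (Fin 3))) (r R : ℝ), 0 < r →
    (∀ x ∈ X, ∀ y ∈ X, x ≠ y → 2 * r ≤ dist x y) →
    (∀ y : EuclideanSpace ℝ (Fin 3), ∃ x ∈ X, dist x y ≤ R) →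
    ∀ y : EuclideanSpace ℝ (Fin 3), ∃ x ∈ X, dist x y ≤ k * R ∧
      ∀ A : EuclideanSpace ℝ (Fin 3) ≃ₗᵢ[ℝ] EuclideanSpace ℝ (Fin 3),
        (∀ v : EuclideanSpace ℝ (Fin 3), ‖v‖ ≤ 2 * R → (x + v ∈ X ↔ x + A v ∈ X)) →
        LinearMap.det A.toLinearIsometry.toLinearMap = 1 →
        orderOf A ∈ ({1, 2, 3, 4, 6} : Finset ℕ) :=
  reduction (no_region localA stage1)

end

end Pool.Agent.Lib.MP_c5a075_co
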