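import Pool.Agent.Lib.MP_c5a075_co.HoleO
import Pool.Agent.Lib.MP_c5a075_co.OC

/-! The choice of the layer: existence of a configuration. -/

set_option autoImplicit false

namespace Pool.Agent.Lib.MP_c5a075_co

noncomputable section

open Real

lemma sqrt5_eq_i5 : √5 = 5 * i5 := by
  have h := c5_i5
  unfold c5 at h
  linarith

/-- some direction of the pentagon is within 36 degrees -/
lemma exists_W (C S : ℝ) : ∃ k : ℤ, (1 + 5 * i5) / 4 * √(C ^ 2 + S ^ 2) ≤ C * W k 0 + S * W k 1 := by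
  have hpi := Real.pi_pos
  obtain ⟨φ, hφ⟩ : ∃ φ, φ = 2 * π / 5 := ⟨_, rfl⟩
  have hφ0 : 0 < φ := by rw [hφ]; positivity
  obtain ⟨α, hα1, hα2⟩ : ∃ α, C = √(C ^ 2 + S ^ 2) * cos α ∧ S = √(C ^ 2 + S ^ 2) * sin α := by
    have hz : ‖(⟨C, S⟩ : ℂ)‖ = √(C ^ 2 + S ^ 2) := Complex.norm_eq_sqrt_sq_add_sq _
    refine ⟨Complex.arg ⟨C, S⟩, ?_, ?_⟩
    · rw [← hz]; exact (Complex.norm_mul_cos_arg ⟨C, S⟩).symm
    · rw [← hz]; exact (Complex.norm_mul_sin_arg ⟨C, S⟩).symm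
  refine ⟨round (α / φ), ?_⟩
  obtain ⟨k, hk⟩ : ∃ k : ℤ, k = round (α / φ) := ⟨_, rfl⟩
  rw [← hk]
  have h1 : |α / φ - k| ≤ 1 / 2 := by rw [hk]; exact abs_sub_round _
  have h2 : |k * φ - α| ≤ π / 5 := by
    have e : k * φ - α = -((α / φ - k) * φ) := by field_simp; ring
    rw [e, abs_neg, abs_mul, abs_of_pos hφ0]
    have := mul_le_mul_of_nonneg_right h1 hφ0.le
    have e2 : φ = 2 * π / 5 := hφ
    linarith
  have h3 : (1 + 5 * i5) / 4 ≤ cos (k * φ - α) := by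
    rw [← Real.cos_abs]
    have h4 : cos (π / 5) ≤ cos |k * φ - α| :=
      Real.cos_le_cos_of_nonneg_of_le_pi (abs_nonneg _) (by linarith) h2
    rw [Real.cos_pi_div_five, sqrt5_eq_i5] at h4
    exact h4
  have h5 : C * W k 0 + S * W k 1 = √(C ^ 2 + S ^ 2) * cos (k * φ - α) := by
    show C * cos (k * (2 * π / 5)) + S * sin (k * (2 * π / 5)) = _
    rw [← hφ, Real.cos_sub]
    generalize √(C ^ 2 + S ^ 2) = R at hα1 hα2
    rw [hα1, hα2]; ring
  rw [h5, mul_comm]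
  exact mul_le_mul_of_nonneg_left h3 (Real.sqrt_nonneg _)

/-- the nearest direction is within 37.4 degrees -/
lemma near_kap {w : E3} (h : ∀ v ∈ Dr, dot w v ≤ w 2) : kap ^ 2 * dot w w ≤ w 2 ^ 2 ∧ 0 ≤ w 2 := by
  have hi := i5_sq
  have hi1 := i5_gt
  have hi2 := i5_lt
  have h0 : 0 ≤ w 2 := by
    have := h (-e3) neg_e3_mem
    rw [dot_neg_right, dot_e3] at this
    linarith
  refine ⟨?_, h0⟩
  obtain ⟨k, hk⟩ := exists_W (w 0) (w 1)
  obtain ⟨P, hP⟩ : ∃ P, P = √(w 0 ^ 2 + w 1 ^ 2) := ⟨_, rfl⟩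
  have hP0 : 0 ≤ P := by rw [hP]; exact Real.sqrt_nonneg _
  have hP2 : P ^ 2 = w 0 ^ 2 + w 1 ^ 2 := by rw [hP]; exact Real.sq_sqrt (by positivity)
  rw [← hP] at hk
  have h1 := h (V k) (V_mem k)
  have h2 : dot w (V k) = 2 * i5 * (w 0 * W k 0 + w 1 * W k 1) + i5 * w 2 := by
    simp only [dot, V_0, V_1, V_2]; ring
  rw [h2] at h1
  have h3 : (1 + i5) / 2 * P ≤ (1 - i5) * w 2 := by
    have h4 : 2 * i5 * ((1 + 5 * i5) / 4 * P) ≤ 2 * i5 * (w 0 * W k 0 + w 1 * W k 1) :=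
      mul_le_mul_of_nonneg_left hk (by linarith)
    have h5 : 2 * i5 * ((1 + 5 * i5) / 4 * P) = (1 + i5) / 2 * P := by
      linear_combination (5 / 2 * P) * hi
    linarith
  have h4 : ((1 + i5) / 2 * P) ^ 2 ≤ ((1 - i5) * w 2) ^ 2 :=
    pow_le_pow_left₀ (mul_nonneg (by linarith) hP0) h3 2
  have h5 : dot w w = P ^ 2 + w 2 ^ 2 := by rw [hP2]; simp only [dot]; ring
  rw [h5, kap_sq]
  -- `(1 + i5)^2 = 2 (1 - i5) (1 + 2 i5)`
  have h6 : (1 + i5) ^ 2 = 2 * (1 - i5) * (1 + 2 * i5) := by linear_combination 5 * hi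
  have h7 : ((1 + i5) / 2 * P) ^ 2 = (1 - i5) * ((1 + 2 * i5) / 2 * P ^ 2) := by
    rw [mul_pow, div_pow, h6]; ring
  have h8 : ((1 - i5) * w 2) ^ 2 = (1 - i5) * ((1 - i5) * w 2 ^ 2) := by ring
  rw [h7, h8] at h4
  have h9 := le_of_mul_le_mul_left h4 (by linarith : (0:ℝ) < 1 - i5)
  linarith

/-! ### The face direction -/

/-- `√(1 - kap ^ 2)` -/
def kaq : ℝ := √(2 * (1 - i5) / 3)

lemma kaq_sq : kaq ^ 2 = 2 * (1 - i5) / 3 :=
  Real.sq_sqrt (by have := i5_lt; linarith)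
lemma kaq_pos : 0 < kaq := Real.sqrt_pos.2 (by have := i5_lt; linarith)

/-- the centre of a face adjacent to `e3` -/
def Fc : E3 := vec (-kaq) 0 kap

lemma dot_Fc : dot Fc Fc = 1 := by
  have h1 := kaq_sq
  have h2 := kap_sq
  simp only [dot, Fc, vec_0, vec_1, vec_2]
  linear_combination h1 + h2

lemma Fc_ne : Fc ≠ 0 := by
  intro h
  have := dot_Fc
  rw [h] at this
  simp [dot] at this

/-- `(1 + i5) kaq = 2 (1 - i5) kap` -/
lemma kaq_kap : (1 + i5) * kaq = 2 * (1 - i5) * kap := by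
  have hi := i5_sq
  have h1 := kaq_sq
  have h2 := kap_sq
  have h3 := kaq_pos
  have h4 := kap_pos
  have h5 := i5_pos
  have h6 := i5_lt
  have h7 : ((1 + i5) * kaq) ^ 2 = (2 * (1 - i5) * kap) ^ 2 := by
    rw [mul_pow, mul_pow, h1, h2]
    linear_combination (10 / 3 * (1 - i5)) * hi
  exact (pow_left_inj₀ (by positivity) (mul_nonneg (by linarith) h4.le) two_ne_zero).1 h7

lemma W_0_ge (k : ℤ) : -(1 + 5 * i5) / 4 ≤ W k 0 ∧ W k 0 ≤ 1 := by
  have hi1 := i5_gt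
  have hi2 := i5_lt
  have h1 := c5_eq
  have h2 := c5_sq
  rcases W_cases k with h | h | h | h | h <;> rw [h]
  · rw [W_zero, vec_0]; constructor <;> linarith
  · rw [W_one, vec_0]; constructor <;> linarith
  · rw [W_neg_one, vec_0]; constructor <;> linarith
  · rw [W_two, vec_0, h2]; constructor <;> linarith
  · rw [W_neg_two, vec_0, h2]; constructor <;> linarith

lemma dot_Fc_V (k : ℤ) : |dot Fc (V k)| ≤ kap := by
  have hi := i5_sq
  have hi1 := i5_gt
  have hi2 := i5_lt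
  have h3 := kaq_pos
  have h4 := kap_pos
  have hqk := kaq_kap
  obtain ⟨hW1, hW2⟩ := W_0_ge k
  have e : dot Fc (V k) = i5 * kap - 2 * i5 * kaq * W k 0 := by
    simp only [dot, Fc, vec_0, vec_1, vec_2, V_0, V_1, V_2]; ring
  rw [e, abs_le]
  constructor
  · have h5 : 2 * i5 * kaq * W k 0 ≤ 2 * i5 * kaq * 1 :=
      mul_le_mul_of_nonneg_left hW2 (by positivity)
    -- kaq ≤ 0.764 kap
    have h6 : kaq ≤ kap := by
      nlinarith only [mul_nonneg (sub_nonneg.2 hi1.le) h3.le, mul_nonneg (sub_nonneg.2 hi1.le) h4.le,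
        hqk, h3, h4]
    nlinarith only [h5, h6, mul_nonneg (show 0 ≤ i5 by linarith) (sub_nonneg.2 h6),
      mul_nonneg (sub_nonneg.2 hi2.le) h4.le, h4]
  · have h5 : 2 * i5 * kaq * (-(1 + 5 * i5) / 4) ≤ 2 * i5 * kaq * W k 0 :=
      mul_le_mul_of_nonneg_left hW1 (by positivity)
    have h6 : 2 * i5 * kaq * (-(1 + 5 * i5) / 4) = -((1 + i5) * kaq) / 2 := by
      linear_combination (-5 / 2 * kaq) * hi
    rw [h6, hqk] at h5
    linarith

lemma dot_Fc_le {v : E3} (hv : v ∈ Dr) : dot Fc v ≤ kap ∧ -kap ≤ dot Fc v := by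
  have h4 := kap_pos
  have he : dot Fc e3 = kap := by rw [dot_e3]; rfl
  rcases hv with rfl | rfl | ⟨k, rfl | rfl⟩
  · rw [he]; constructor <;> linarith
  · rw [dot_neg_right, he]; constructor <;> linarith
  · have := abs_le.1 (dot_Fc_V k); exact ⟨this.2, this.1⟩
  · have := abs_le.1 (dot_Fc_V k)
    rw [dot_neg_right]; constructor <;> linarith [this.1, this.2]

/-! ### A nearest point off the star -/

lemma exists_off_Sig {X : Set E3} (hB : Bas X) : ∃ x ∈ X, x ∉ Sig ∧ dot x x ≤ 2.648 ^ 2 := by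
  have hk1 := kap_gt
  have hk2 := kap_lt
  have hk := kap_sq
  have hi2 := i5_lt
  obtain ⟨x, hx, hd⟩ := hB.cov ((1.6475:ℝ) • Fc)
  rw [dist_le_iff _ _ zero_le_one] at hd
  have e : dot (x - (1.6475:ℝ) • Fc) (x - (1.6475:ℝ) • Fc) =
      dot x x - 2 * 1.6475 * dot Fc x + 1.6475 ^ 2 := by
    simp only [dot_sub_left, dot_sub_right, dot_smul_left, dot_smul_right, dot_Fc, dot_comm x Fc]
    ring
  rw [e] at hd
  refine ⟨x, hx, ?_, ?_⟩
  · rintro ⟨v, hv, r, hr, rfl⟩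
    rw [dot_smul_left, dot_smul_right, dot_smul_right, Dr_unit hv] at hd
    have h1 := (dot_Fc_le hv).1
    have h2 : r * dot Fc v ≤ r * kap := mul_le_mul_of_nonneg_left h1 hr
    have h3 : kap ^ 2 ≤ 0.63148 := by rw [hk]; linarith
    nlinarith only [h2, hd, h3, sq_nonneg (r - 1.6475 * kap)]
  · have h1 := dot_sq_le Fc x
    rw [dot_Fc, one_mul] at h1
    have h2 := dot_self_nonneg x
    obtain ⟨n, hn⟩ : ∃ n, n = √(dot x x) := ⟨_, rfl⟩
    have hn0 : 0 ≤ n := by rw [hn]; exact Real.sqrt_nonneg _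
    have hn2 : n ^ 2 = dot x x := by rw [hn]; exact Real.sq_sqrt h2
    have h3 : dot Fc x ≤ n := by
      apply le_of_sq_le_sq _ hn0
      rw [hn2]; exact h1
    rw [← hn2] at hd ⊢
    have h4 : n ≤ 2.6475 := by nlinarith only [hd, h3, hn0]
    nlinarith only [h4, hn0]

lemma exists_first {X : Set E3} (hB : Bas X) : ∃ w ∈ X, w ∉ Sig ∧ dot w w ≤ 2.648 ^ 2 ∧
    ∀ x ∈ X, x ∉ Sig → dot w w ≤ dot x x := by
  obtain ⟨x0, hx0, hx1, hx2⟩ := exists_off_Sig hB
  have hfin : ({x | x ∈ X ∧ x ∉ Sig ∧ dot x x ≤ 2.648 ^ 2} : Set E3).Finite := by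
    refine (finite_of_sep hB.sep 0 2.648).subset ?_
    rintro x ⟨hx, -, hd⟩
    refine ⟨hx, ?_⟩
    rw [Metric.mem_closedBall, dist_le_iff _ _ (by norm_num), sub_zero]
    exact hd
  obtain ⟨w, hw, hmin⟩ := Set.exists_min_image _ (fun x => dot x x) hfin ⟨x0, hx0, hx1, hx2⟩
  refine ⟨w, hw.1, hw.2.1, hw.2.2, fun x hx hxo => ?_⟩
  rcases le_total (dot x x) (2.648 ^ 2) with h | h
  · exact hmin x ⟨hx, hxo, h⟩
  · exact hw.2.2.trans h

/-- the numerical facts on the second layer -/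
lemma layer_num {t a s : ℝ} (ht : 2 < t) (ht2 : t ≤ 2.648) (ha : 0 < a) (hs : 0 < s)
    (h1 : s ^ 2 - 2 * s * (t - 1) * kap + (t - 1) ^ 2 ≤ 1)
    (h2 : 4 < t ^ 2 + a ^ 2 - 2 * kap * t * a) (has : a < s) :
    s ≤ 1.6475 ∧ a ^ 2 + s ^ 2 - 2 * i5 * a * s ≤ 4 ∧
    ((s - a < 2 * i5 * s ∧ s ^ 2 + (s - a) ^ 2 - 2 * c5 * s * (s - a) < t ^ 2) ∨
      (s + a ≤ 2 ∧ 1.1757 * s + a < t)) := by
  have hk := kap_sq
  have hk0 := kap_pos
  have hk1 := kap_gt
  have hk2 := kap_lt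
  have hi1 := i5_gt
  have hi2 := i5_lt
  have hc1 := c5_gt
  have hK : kap ^ 2 ≤ 0.63148 := by rw [hk]; linarith
  have hK' : 0.63147 ≤ kap ^ 2 := by rw [hk]; linarith
  have hs2 : s ^ 2 ≤ 2.7137 := by
    have h3 : (t - 1 - kap * s) ^ 2 + (1 - kap ^ 2) * s ^ 2 ≤ 1 := by nlinarith only [h1]
    nlinarith only [h3, sq_nonneg (t - 1 - kap * s), mul_nonneg (sub_nonneg.2 hK) (sq_nonneg s)]
  have hs1 : s ≤ 1.6475 := by nlinarith only [hs2, hs]
  refine ⟨hs1, ?_, ?_⟩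
  · have h4 : 0 < a * s := mul_pos ha hs
    nlinarith only [mul_pos (sub_pos.2 hi1) h4, mul_pos (sub_pos.2 has) hs, mul_pos (sub_pos.2 has) ha,
      hs2, h4]
  · rcases lt_or_ge (s - a) (2 * i5 * s) with h | h
    · left
      refine ⟨h, ?_⟩
      obtain ⟨d, hd⟩ : ∃ d, d = s - a := ⟨_, rfl⟩
      rw [← hd] at h ⊢
      have hd0 : 0 < d := by linarith
      have h3 : d ≤ 0.89444 * s := by nlinarith only [h, mul_pos (sub_pos.2 hi2) hs]
      have h4 : 0 < d * s := mul_pos hd0 hs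
      nlinarith only [mul_pos (sub_pos.2 hc1) h4, mul_nonneg (sub_nonneg.2 h3) hd0.le,
        mul_nonneg (sub_nonneg.2 h3) hs.le, hs2, h4, ht]
    · right
      have h3 : a ≤ 0.10558 * s := by nlinarith only [h, mul_pos (sub_pos.2 hi1) hs]
      refine ⟨by linarith, ?_⟩
      -- tangent line for `s`
      have h4 : s ≤ 2 * kap + 0.3311 * (t - 2) := by
        have h5 : kap * (s - 2 * kap) + (1 - 2 * kap ^ 2) * (t - 2) ≤ 0 := by
          nlinarith only [h1, sq_nonneg (s - 2 * kap - kap * (t - 2)),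
            mul_nonneg (show 0 ≤ 1 - kap ^ 2 by linarith) (sq_nonneg (t - 2))]
        have h6 : kap * (s - 2 * kap) ≤ 0.26296 * (t - 2) := by
          nlinarith only [h5, mul_nonneg (sub_nonneg.2 hK) (show 0 ≤ t - 2 by linarith)]
        by_contra hcon
        push Not at hcon
        nlinarith only [h6, hcon, hk1, mul_pos (sub_pos.2 hcon) hk0,
          mul_pos (sub_pos.2 hk1) (show 0 < t - 2 by linarith)]
      -- bound for `a`
      have h7 : a ≤ 0.17395 := by linarith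
      have h8 : a < 1.3325 * (t - 2) := by
        by_contra hcon
        push Not at hcon
        have g1 : a * (2 * kap * t - a) < (t - 2) * (t + 2) := by nlinarith only [h2]
        have g2 : 3.0046 + 1.5893 * (t - 2) ≤ 2 * kap * t - a := by
          nlinarith only [mul_pos (sub_pos.2 hk1) (show 0 < t by linarith only [ht]), h7]
        have g3 : 1.3325 * (t - 2) * (3.0046 + 1.5893 * (t - 2)) ≤ a * (2 * kap * t - a) :=
          mul_le_mul hcon g2 (by linarith only [ht]) ha.le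
        nlinarith only [g1, g3, ht]
      linarith only [hs1, h7, h8]

lemma cfg_core {X : Set E3} {a t : ℝ} {w : E3} (hB : Bas X) (hC : Clean X t) (hS : StarAx X a)
    (ha : 0 < a) (ha2 : a ≤ 1.72) (ht : 0 < t) (ht2 : t ≤ 2.648) (hat : 4 / 3 * a ≤ t)
    (hm : w ∈ X) (hn : dot w w = t ^ 2) (hoffw : w ∉ Sig) (hnear : ∀ v ∈ Dr, dot w v ≤ w 2) :
    ∃ τ, Cfg X t τ w := by
  have hk := kap_sq
  have hk0 := kap_pos
  have hk1 := kap_gt
  have hk2 := kap_lt
  have hi1 := i5_gt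
  have hi2 := i5_lt
  have hwe : ∀ r : ℝ, dot (w - r • e3) (w - r • e3) = t ^ 2 + r ^ 2 - 2 * r * w 2 := by
    intro r
    rw [← hn]
    simp only [dot, sub_0, sub_1, sub_2, smul_0, smul_1, smul_2, e3_0, e3_1, e3_2]
    ring
  have hwk : kap * t ≤ w 2 := by
    obtain ⟨h1, h2⟩ := near_kap hnear
    apply le_of_sq_le_sq _ h2
    rw [mul_pow, ← hn]; exact h1
  rcases le_or_gt (dot (w - a • e3) (w - a • e3)) 4 with hv | hv
  · exact ⟨a, hB, hC, ht, ht2, ha, by linarith, ha2, hS, hm, hn, hoffw, hnear, hv⟩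
  -- now the second layer
  have hv0 := hv
  rw [hwe] at hv
  have haw : a * (kap * t) ≤ a * w 2 := mul_le_mul_of_nonneg_left hwk ha.le
  have hv2 : 4 < t ^ 2 + a ^ 2 - 2 * kap * t * a := by linarith
  have htt : 2 < t := by
    by_contra hcon
    push Not at hcon
    nlinarith only [mul_pos (sub_pos.2 hk1) (mul_pos ht ha), mul_nonneg ha.le (sub_nonneg.2 hat),
      hv2, hcon, ht, mul_nonneg (sub_nonneg.2 hcon) ht.le, mul_pos ht ha]
  obtain ⟨y, hy, hy1, hy2⟩ := cov_dir hB.sep hB.cov ((t - 1) • Fc) (-Fc) (neg_ne_zero.2 Fc_ne)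
  have hyt : dot y y < t ^ 2 := by
    obtain ⟨u, hu⟩ : ∃ u, u = y - (t - 1) • Fc := ⟨_, rfl⟩
    rw [← hu] at hy1 hy2
    have e : dot y y = dot u u + 2 * (t - 1) * dot Fc u + (t - 1) ^ 2 := by
      have : y = u + (t - 1) • Fc := by rw [hu]; abel
      rw [this]
      simp only [dot_add_left, dot_add_right, dot_smul_left, dot_smul_right, dot_Fc,
        dot_comm u Fc]
      ring
    rw [e]
    rcases hy2 with h | h
    · have h1 := dot_sq_le Fc u
      rw [dot_Fc, one_mul] at h1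
      have h2 : dot Fc u < 1 := by
        by_contra hcon
        push Not at hcon
        nlinarith only [h1, h, hcon]
      nlinarith only [h, h2, htt]
    · rw [dot_neg_left] at h
      nlinarith only [hy1, h, htt]
  obtain ⟨v, hv', s, hs0, rfl⟩ := hC y hy hyt
  have hd : s ^ 2 - 2 * s * (t - 1) * kap + (t - 1) ^ 2 ≤ 1 := by
    have e : dot (s • v - (t - 1) • Fc) (s • v - (t - 1) • Fc) =
        s ^ 2 - 2 * s * (t - 1) * dot Fc v + (t - 1) ^ 2 := by
      simp only [dot_sub_left, dot_sub_right, dot_smul_left, dot_smul_right, dot_Fc,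
        Dr_unit hv', dot_comm v Fc]
      ring
    rw [e] at hy1
    have h1 : s * (t - 1) * dot Fc v ≤ s * (t - 1) * kap :=
      mul_le_mul_of_nonneg_left (dot_Fc_le hv').1 (mul_nonneg hs0 (by linarith))
    linarith
  have hs : 0 < s := by
    rcases hs0.eq_or_lt with h | h
    · rw [← h] at hd
      nlinarith only [hd, htt]
    · exact h
  -- visibility from the new layer
  have hvs : t ^ 2 + s ^ 2 - 2 * s * w 2 ≤ 4 := by
    have h1 : s * (kap * t) ≤ s * w 2 := mul_le_mul_of_nonneg_left hwk hs.le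
    have h2 : (t - 1 - kap * s) ^ 2 + (1 - kap ^ 2) * s ^ 2 ≤ 1 := by nlinarith only [hd]
    have h3 : 0 ≤ (1 - kap ^ 2) * s ^ 2 :=
      mul_nonneg (by rw [hk]; linarith) (sq_nonneg s)
    have h4 : t - 1 - kap * s ≤ 1 := by nlinarith only [h2, h3]
    nlinarith only [hd, h1, h4]
  have has : a < s := by
    by_contra hcon
    push Not at hcon
    have h1 : (a - s) * (a + s - 2 * w 2) ≤ 0 := by
      apply mul_nonpos_of_nonneg_of_nonpos (by linarith)
      nlinarith only [hwk, hat, hcon, mul_pos (sub_pos.2 hk1) ht, ht]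
    nlinarith only [h1, hv, hvs]
  obtain ⟨hs1, hvis, hor⟩ := layer_num htt ht2 ha hs hd hv2 has
  -- all star points of the new layer
  have hall : ∀ v' ∈ Dr, s • v' ∈ X := fun v' hv'' =>
    trans hS ha ha2 hs.le (by linarith) hv' hv'' hy
  have hstar : StarAx X s := oc_all hB hC ht (fun v hv => (hS v hv).mem) hall ha has
    (by linarith) (by linarith) hvis hor
  exact ⟨s, hB, hC, ht, ht2, hs, by linarith, by linarith, hstar, hm, hn, hoffw, hnear, by
    rw [hwe]; exact hvs⟩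

/-- existence of a configuration, from the output of stage 1 -/
theorem exists_cfg {X : Set E3} {a : ℝ} (hB : Bas X) (hS : StarAx X a) (ha : 0 < a)
    (ha2 : a ≤ 1.72) (hoff : ∀ x ∈ X, x ∉ Sig → (4 / 3 * a) ^ 2 ≤ dot x x) :
    ∃ (F : Fr) (t τ : ℝ) (w : E3), Sym F ∧ Cfg (F.pull X) t τ w := by
  obtain ⟨w, hw, hwo, hwd, hmin⟩ := exists_first hB
  obtain ⟨t, ht⟩ : ∃ t, t = √(dot w w) := ⟨_, rfl⟩
  have ht2 : t ^ 2 = dot w w := by rw [ht]; exact Real.sq_sqrt (dot_self_nonneg w)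
  have hw0 : w ≠ 0 := fun h => hwo (h ▸ zero_mem_Sig)
  have ht0 : 0 < t := by rw [ht]; exact Real.sqrt_pos.2 (dot_self_pos hw0)
  have hC : Clean X t := by
    intro x hx hd
    by_contra hcon
    have := hmin x hx hcon
    linarith
  have htle : t ≤ 2.648 := by
    apply le_of_sq_le_sq _ (by norm_num)
    rw [ht2]; exact hwd
  have hat : 4 / 3 * a ≤ t := by
    apply le_of_sq_le_sq _ ht0.le
    rw [ht2]; exact hoff w hw hwo
  obtain ⟨v, hv, hvn⟩ := exists_near w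
  obtain ⟨F, hF, hFv⟩ := exists_sym hv
  have hl : F.lin (F.co w) = w := F.lin_co w
  obtain ⟨τ, hτ⟩ := cfg_core (hF.bas hB) (hF.clean hC) (hF.starAx hS) ha ha2 ht0 htle hat
    (w := F.co w) (by rw [F.mem_pull, hF.map, hl]; exact hw)
    (by rw [← F.dot_lin, hl, ht2])
    (by rw [← hF.Sig_iff, hl]; exact hwo)
    (by
      intro u hu
      have h1 : dot (F.co w) u = dot w (F.lin u) := by rw [← F.dot_lin, hl]
      have h2 : F.co w 2 = dot w v := by rw [← dot_e3 (F.co w), ← F.dot_lin, hl, hFv]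
      rw [h1, h2]
      exact hvn _ (hF.maps u hu))
  exact ⟨F, t, τ, F.co w, hF, hτ⟩

end

end Pool.Agent.Lib.MP_c5a075_co
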