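import Pool.Agent.Lib.MP_c5a075_co.Basic

/-! Reduction of the frozen statement to the nonexistence of large regions. -/

set_option autoImplicit false

namespace Pool.Agent.Lib.MP_c5a075_co

noncomputable section

open Real

/-- Coordinates of a linear map of `ℝ³`. -/
lemma apply_eq_sum (A : E3 →ₗ[ℝ] E3) (v : E3) :
    A v = v 0 • A (vec 1 0 0) + v 1 • A (vec 0 1 0) + v 2 • A (vec 0 0 1) := by
  rw [← map_smul, ← map_smul, ← map_smul, ← map_add, ← map_add]
  congr 1
  apply ext3 <;> simp

lemma det_eq (A : E3 →ₗ[ℝ] E3) :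
    LinearMap.det A = dot (cross (A (vec 1 0 0)) (A (vec 0 1 0))) (A (vec 0 0 1)) := by
  rw [← LinearMap.det_toMatrix (EuclideanSpace.basisFun (Fin 3) ℝ).toBasis, Matrix.det_fin_three]
  have e0 : (EuclideanSpace.basisFun (Fin 3) ℝ) 0 = vec 1 0 0 := by
    apply ext3 <;> simp [EuclideanSpace.basisFun_apply]
  have e1 : (EuclideanSpace.basisFun (Fin 3) ℝ) 1 = vec 0 1 0 := by
    apply ext3 <;> simp [EuclideanSpace.basisFun_apply]
  have e2 : (EuclideanSpace.basisFun (Fin 3) ℝ) 2 = vec 0 0 1 := by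
    apply ext3 <;> simp [EuclideanSpace.basisFun_apply]
  simp only [LinearMap.toMatrix_apply, OrthonormalBasis.coe_toBasis,
    OrthonormalBasis.coe_toBasis_repr_apply, EuclideanSpace.basisFun_repr, e0, e1, e2, dot, cross_0,
    cross_1, cross_2]
  ring

/-- An isometry of determinant one preserves the cross product. -/
lemma map_cross (A : E3 ≃ₗᵢ[ℝ] E3) (hdet : LinearMap.det A.toLinearIsometry.toLinearMap = 1)
    (u v : E3) : A (cross u v) = cross (A u) (A v) := by
  have hdot : ∀ u v : E3, dot (A u) (A v) = dot u v := fun u v => by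
    rw [← inner_eq_dot, ← inner_eq_dot, A.inner_map_map]
  have hd : dot (cross (A (vec 1 0 0)) (A (vec 0 1 0))) (A (vec 0 0 1)) = 1 := by
    have := det_eq A.toLinearIsometry.toLinearMap
    rw [hdet] at this; exact this.symm
  have key : ∀ w : E3, dot (cross (A u) (A v)) (A w) = dot (A (cross u v)) (A w) := by
    intro w
    rw [hdot]
    have hu := apply_eq_sum A.toLinearIsometry.toLinearMap u
    have hv := apply_eq_sum A.toLinearIsometry.toLinearMap v
    have hw := apply_eq_sum A.toLinearIsometry.toLinearMap w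
    have hu' : A u = u 0 • A (vec 1 0 0) + u 1 • A (vec 0 1 0) + u 2 • A (vec 0 0 1) := hu
    have hv' : A v = v 0 • A (vec 1 0 0) + v 1 • A (vec 0 1 0) + v 2 • A (vec 0 0 1) := hv
    have hw' : A w = w 0 • A (vec 1 0 0) + w 1 • A (vec 0 1 0) + w 2 • A (vec 0 0 1) := hw
    rw [hu', hv', hw']
    have e : ∀ p q r : E3, dot (cross (u 0 • p + u 1 • q + u 2 • r) (v 0 • p + v 1 • q + v 2 • r))
        (w 0 • p + w 1 • q + w 2 • r) = dot (cross u v) w * dot (cross p q) r := by
      intro p q r
      simp only [dot, add_0, add_1, add_2, smul_0, smul_1, smul_2, cross_0, cross_1, cross_2]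
      ring
    rw [e, hd, mul_one]
  have h0 : dot (cross (A u) (A v) - A (cross u v)) (cross (A u) (A v) - A (cross u v)) = 0 := by
    obtain ⟨w, hw⟩ := A.surjective (cross (A u) (A v) - A (cross u v))
    have := key w
    rw [hw] at this
    rw [dot_sub_left]; linarith
  exact (sub_eq_zero.1 (dot_self_eq_zero.1 h0)).symm

/-- Axis of a rotation. -/
lemma exists_axis (A : E3 ≃ₗᵢ[ℝ] E3) (hdet : LinearMap.det A.toLinearIsometry.toLinearMap = 1) :
    ∃ a : E3, dot a a = 1 ∧ A a = a := by
  have hdot : ∀ u v : E3, dot (A u) (A v) = dot u v := fun u v => by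
    rw [← inner_eq_dot, ← inner_eq_dot, A.inner_map_map]
  have hcr := map_cross A hdet
  -- it suffices to find a nonzero fixed vector
  suffices h : ∃ v : E3, v ≠ 0 ∧ A v = v by
    obtain ⟨v, hv, hAv⟩ := h
    have hpos : 0 < dot v v := dot_self_pos hv
    refine ⟨(√(dot v v))⁻¹ • v, ?_, ?_⟩
    · rw [dot_smul_left, dot_smul_right]
      have := Real.mul_self_sqrt hpos.le
      have hne : √(dot v v) ≠ 0 := (Real.sqrt_pos.2 hpos).ne'
      field_simp
      rw [sq]; exact this.symm
    · rw [map_smul, hAv]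
  have hd : LinearMap.det (A.toLinearIsometry.toLinearMap - LinearMap.id : E3 →ₗ[ℝ] E3) = 0 := by
    rw [det_eq]
    have e : ∀ v : E3, (A.toLinearIsometry.toLinearMap - LinearMap.id : E3 →ₗ[ℝ] E3) v = A v - v :=
      fun v => rfl
    rw [e, e, e]
    -- entries of the matrix
    have c1 := hcr (vec 1 0 0) (vec 0 1 0)
    have c2 := hcr (vec 0 1 0) (vec 0 0 1)
    have c3 := hcr (vec 0 0 1) (vec 1 0 0)
    have x1 : cross (vec 1 0 0) (vec 0 1 0) = vec 0 0 1 := by apply ext3 <;> simp
    have x2 : cross (vec 0 1 0) (vec 0 0 1) = vec 1 0 0 := by apply ext3 <;> simp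
    have x3 : cross (vec 0 0 1) (vec 1 0 0) = vec 0 1 0 := by apply ext3 <;> simp
    rw [x1] at c1; rw [x2] at c2; rw [x3] at c3
    have d3 := hdot (vec 0 0 1) (vec 0 0 1)
    generalize A (vec 1 0 0) = p at *
    generalize A (vec 0 1 0) = q at *
    generalize A (vec 0 0 1) = r at *
    have r0 := congrArg (fun z : E3 => z 0) c1
    have r1 := congrArg (fun z : E3 => z 1) c1
    have r2 := congrArg (fun z : E3 => z 2) c1
    have p0 := congrArg (fun z : E3 => z 0) c2
    have p1 := congrArg (fun z : E3 => z 1) c2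
    have p2 := congrArg (fun z : E3 => z 2) c2
    have q0 := congrArg (fun z : E3 => z 0) c3
    have q1 := congrArg (fun z : E3 => z 1) c3
    have q2 := congrArg (fun z : E3 => z 2) c3
    simp only [cross_0, cross_1, cross_2] at r0 r1 r2 p0 p1 p2 q0 q1 q2
    simp only [dot, vec_0, vec_1, vec_2] at d3
    simp only [dot, sub_0, sub_1, sub_2, cross_0, cross_1, cross_2, vec_0, vec_1, vec_2]
    -- det(M - 1) = det M - (sum of principal minors) + trace - 1, cofactors = entries
    linear_combination (r 0) * (-r0) + (r 1) * (-r1) + (r 2) * (-r2) + d3 + r2 + p0 + q1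
  obtain ⟨v, hv, hv0⟩ := (Submodule.ne_bot_iff _).1 (LinearMap.bot_lt_ker_of_det_eq_zero hd).ne'
  refine ⟨v, hv0, ?_⟩
  have : A v - v = 0 := hv
  exact sub_eq_zero.1 this

/-- An isometry of determinant one is a rotation about an axis. -/
lemma exists_rot (A : E3 ≃ₗᵢ[ℝ] E3) (hdet : LinearMap.det A.toLinearIsometry.toLinearMap = 1) :
    ∃ (a : E3) (φ : ℝ), dot a a = 1 ∧ ∀ v, A v = rot a (cos φ) (sin φ) v := by
  obtain ⟨a, ha, hAa⟩ := exists_axis A hdet
  have hdot : ∀ u v : E3, dot (A u) (A v) = dot u v := fun u v => by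
    rw [← inner_eq_dot, ← inner_eq_dot, A.inner_map_map]
  -- a unit vector orthogonal to a
  obtain ⟨u, hu, hau⟩ : ∃ u : E3, dot u u = 1 ∧ dot a u = 0 := by
    have : ∃ w : E3, cross a w ≠ 0 := by
      by_contra h
      push Not at h
      have h1 := h (vec 1 0 0)
      have h2 := h (vec 0 1 0)
      have h1' := ext3_iff.1 h1
      have h2' := ext3_iff.1 h2
      simp at h1' h2'
      have : dot a a = 0 := by simp [dot, h1', h2']
      linarith
    obtain ⟨w, hw⟩ := this
    have hpos : 0 < dot (cross a w) (cross a w) := dot_self_pos hw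
    refine ⟨(√(dot (cross a w) (cross a w)))⁻¹ • cross a w, ?_, ?_⟩
    · rw [dot_smul_left, dot_smul_right]
      have := Real.mul_self_sqrt hpos.le
      have hne : √(dot (cross a w) (cross a w)) ≠ 0 := (Real.sqrt_pos.2 hpos).ne'
      field_simp
      rw [sq]; exact this.symm
    · rw [dot_smul_right, dot_cross_left, mul_zero]
  have hAu : dot a (A u) = 0 := by
    have := hdot a u
    rw [hAa] at this; rw [this, hau]
  have hAuu : dot (A u) (A u) = 1 := by rw [hdot, hu]
  -- expansion in the frame a, u, cross a u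
  have hexp : ∀ v : E3, v = dot a v • a + dot u v • u + dot (cross a u) v • cross a u := by
    intro v
    have hF : dot (cross a u) (cross a u) = 1 := by rw [dot_cross_cross, ha, hu, hau]; ring
    obtain ⟨z, hz⟩ : ∃ z, z = v - (dot a v • a + dot u v • u + dot (cross a u) v • cross a u) :=
      ⟨_, rfl⟩
    have hza : dot a z = 0 := by
      rw [hz]; simp only [dot_sub_right, dot_add_right, dot_smul_right, ha, hau, dot_cross_left]
      ring
    have hzu : dot u z = 0 := by
      have e := dot_cross_right a u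
      rw [hz]; simp only [dot_sub_right, dot_add_right, dot_smul_right, hu, dot_comm u a, hau, e]
      ring
    have hzc : dot (cross a u) z = 0 := by
      have e1 := dot_cross_right a u
      have e2 := dot_cross_left a u
      rw [dot_comm] at e1 e2
      rw [hz]; simp only [dot_sub_right, dot_add_right, dot_smul_right, e1, e2, hF]
      ring
    -- z is orthogonal to a, u, cross a u, hence zero
    have hcz : cross a (cross u z) = 0 := by
      apply ext3
      · simp only [cross_0, cross_1, cross_2, zero_0]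
        have h1 : dot a z * u 0 - dot a u * z 0 = 0 := by rw [hza, hau]; ring
        simp only [dot] at h1; linarith
      · simp only [cross_0, cross_1, cross_2, zero_1]
        have h1 : dot a z * u 1 - dot a u * z 1 = 0 := by rw [hza, hau]; ring
        simp only [dot] at h1; linarith
      · simp only [cross_0, cross_1, cross_2, zero_2]
        have h1 : dot a z * u 2 - dot a u * z 2 = 0 := by rw [hza, hau]; ring
        simp only [dot] at h1; linarith
    have h1 : dot (cross a (cross u z)) (cross a (cross u z)) = 0 := by rw [hcz]; simp [dot]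
    rw [dot_cross_cross, ha, dot_cross_cross, hu, hzu] at h1
    have h2 : dot a (cross u z) = dot (cross a u) z := by
      simp only [dot, cross_0, cross_1, cross_2]; ring
    rw [h2, hzc] at h1
    have h3 : dot z z = 0 := by linarith
    have h4 := dot_self_eq_zero.1 h3
    rw [hz] at h4
    exact sub_eq_zero.1 h4
  obtain ⟨c, hc⟩ : ∃ c, c = dot u (A u) := ⟨_, rfl⟩
  obtain ⟨s, hs⟩ : ∃ s, s = dot (cross a u) (A u) := ⟨_, rfl⟩
  have hAu' : A u = c • u + s • cross a u := by
    have := hexp (A u)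
    rw [hAu, ← hc, ← hs, zero_smul, zero_add] at this
    exact this
  have hcs : c ^ 2 + s ^ 2 = 1 := by
    have hF : dot (cross a u) (cross a u) = 1 := by rw [dot_cross_cross, ha, hu, hau]; ring
    have e := dot_cross_right a u
    have e' : dot (cross a u) u = 0 := by rw [dot_comm]; exact e
    rw [hAu'] at hAuu
    simp only [dot_add_left, dot_add_right, dot_smul_left, dot_smul_right, hu, hF, e, e'] at hAuu
    linarith
  have hAc : A (cross a u) = c • cross a u - s • u := by
    rw [map_cross A hdet, hAa, hAu', cross_add_right, cross_smul_right, cross_smul_right,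
      cross_cross, ha, hau]
    apply ext3 <;> simp <;> ring
  have hcr : ∃ φ : ℝ, cos φ = c ∧ sin φ = s := by
    have hz : ‖(⟨c, s⟩ : ℂ)‖ = 1 := by
      rw [Complex.norm_eq_sqrt_sq_add_sq, hcs, Real.sqrt_one]
    refine ⟨Complex.arg ⟨c, s⟩, ?_, ?_⟩
    · rw [Complex.cos_arg (by intro h; rw [h] at hz; simp at hz), hz, div_one]
    · rw [Complex.sin_arg, hz, div_one]
  obtain ⟨φ, hφc, hφs⟩ := hcr
  refine ⟨a, φ, ha, fun v => ?_⟩
  rw [hφc, hφs]
  have hv := hexp v
  have h1 : A v = dot a v • a + dot u v • (c • u + s • cross a u) +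
      dot (cross a u) v • (c • cross a u - s • u) := by
    conv_lhs => rw [hv]
    rw [map_add, map_add, map_smul, map_smul, map_smul, hAa, hAu', hAc]
  have h2 : cross a v = dot u v • cross a u - dot (cross a u) v • u := by
    conv_lhs => rw [hv]
    rw [cross_add_right, cross_add_right, cross_smul_right, cross_smul_right, cross_smul_right,
      cross_self, cross_cross, ha, hau]
    apply ext3 <;> simp <;> ring
  rw [h1, rot, h2]
  have hv' : c • v = c • (dot a v • a + dot u v • u + dot (cross a u) v • cross a u) := by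
    rw [← hv]
  rw [hv']
  apply ext3 <;> simp <;> ring

/-- Local groups are finite: some positive power of a cluster symmetry is the identity. -/
lemma finite_order {X : Set E3} (hs : ∃ r : ℝ, 0 < r ∧ ∀ x ∈ X, ∀ y ∈ X, x ≠ y → r ≤ dist x y)
    (hc : ∀ y : E3, ∃ x ∈ X, dist x y ≤ 1) (x : E3) (A : E3 ≃ₗᵢ[ℝ] E3)
    (hA : ∀ v : E3, ‖v‖ ≤ 2 → (x + v ∈ X ↔ x + A v ∈ X)) : ∃ k : ℕ, 0 < k ∧ A ^ k = 1 := by
  let C : Set E3 := {v | ‖v‖ ≤ 2 ∧ x + v ∈ X}
  have hCfin : C.Finite := by
    have h1 := finite_of_sep hs x 2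
    refine Set.Finite.of_finite_image (f := fun v => x + v) (h1.subset ?_) ?_
    · rintro _ ⟨v, hv, rfl⟩
      refine ⟨hv.2, ?_⟩
      simp only [Metric.mem_closedBall, dist_self_add_left]
      exact hv.1
    · intro v _ w _ h
      exact add_left_cancel h
  have hmem : ∀ v, v ∈ C ↔ A v ∈ C := by
    intro v
    simp only [C, Set.mem_ofPred_eq, LinearIsometryEquiv.norm_map]
    constructor
    · rintro ⟨h1, h2⟩; exact ⟨h1, (hA v h1).1 h2⟩
    · rintro ⟨h1, h2⟩; exact ⟨h1, (hA v h1).2 h2⟩
  have : Finite C := hCfin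
  let e : Equiv.Perm C := (A.toEquiv).subtypeEquiv hmem
  obtain ⟨k, hk, hek⟩ := isOfFinOrder_iff_pow_eq_one.1 (isOfFinOrder_of_finite e)
  refine ⟨k, hk, ?_⟩
  have hpow : ∀ (j : ℕ) (v : C), ((e ^ j) v : E3) = (A ^ j) v := by
    intro j
    induction j with
    | zero => intro v; simp
    | succ j ih =>
      intro v
      rw [pow_succ, pow_succ]
      simp only [Equiv.Perm.coe_mul, Function.comp_apply, LinearIsometryEquiv.coe_mul]
      rw [ih]; rfl
  have hfix : ∀ v ∈ C, (A ^ k) v = v := by
    intro v hv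
    rw [← hpow k ⟨v, hv⟩, hek]; simp
  -- the cluster spans
  have hspan : Submodule.span ℝ C = ⊤ := by
    by_contra hne
    have hlt : Submodule.span ℝ C < ⊤ := lt_top_iff_ne_top.2 hne
    obtain ⟨n, hn, hn0⟩ : ∃ n : E3, n ∈ (Submodule.span ℝ C)ᗮ ∧ n ≠ 0 := by
      have h1 : (Submodule.span ℝ C)ᗮ ≠ ⊥ := by
        intro h
        rw [Submodule.orthogonal_eq_bot_iff] at h
        exact hne h
      exact (Submodule.ne_bot_iff _).1 h1
    -- normalise n
    have hpos : 0 < dot n n := dot_self_pos hn0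
    obtain ⟨m, hm⟩ : ∃ m : E3, m = (√(dot n n))⁻¹ • n := ⟨_, rfl⟩
    have hmm : dot m m = 1 := by
      rw [hm, dot_smul_left, dot_smul_right]
      have := Real.mul_self_sqrt hpos.le
      have hne : √(dot n n) ≠ 0 := (Real.sqrt_pos.2 hpos).ne'
      field_simp
      rw [sq]; exact this.symm
    have hmC : ∀ v ∈ C, dot v m = 0 := by
      intro v hv
      have h1 := (Submodule.mem_orthogonal _ _).1 hn v (Submodule.subset_span hv)
      rw [inner_eq_dot] at h1
      rw [hm, dot_smul_right, h1, mul_zero]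
    have hm0 : m ≠ 0 := by
      intro h; rw [h] at hmm; simp [dot] at hmm
    obtain ⟨q, hq, hq1, hq2⟩ := cov_dir hs hc (x + m) m hm0
    obtain ⟨v, hv⟩ : ∃ v, v = q - x := ⟨_, rfl⟩
    have hqv : q = x + v := by rw [hv]; abel
    have hqm : q - (x + m) = v - m := by rw [hv]; abel
    rw [hqm] at hq1 hq2
    have hexp : dot (v - m) (v - m) = dot v v - 2 * dot v m + 1 := by
      rw [dot_sub_left, dot_sub_right, dot_sub_right, hmm, dot_comm m v]; ring
    have hcs := dot_sq_le v m
    rw [hmm, mul_one] at hcs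
    rw [hexp] at hq1 hq2
    have hvC : v ∈ C := by
      refine ⟨?_, by rw [← hqv]; exact hq⟩
      rw [norm_le_iff _ (by norm_num)]
      have h1 : dot v v ≤ 2 * dot v m := by linarith
      have h2 : 0 ≤ dot v v := dot_self_nonneg v
      by_contra h
      push Not at h
      nlinarith
    have h0 := hmC v hvC
    rw [h0] at hq1 hq2
    have hv0 : 0 ≤ dot v v := dot_self_nonneg v
    rcases hq2 with h | h
    · linarith
    · rw [dot_sub_right, hmm, dot_comm m v, h0] at h; linarith
  ext1 v
  have hv : v ∈ Submodule.span ℝ C := by rw [hspan]; trivial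
  show (A ^ k) v = v
  induction hv using Submodule.span_induction with
  | mem v hv => exact hfix v hv
  | zero => simp
  | add u v _ _ h1 h2 => rw [map_add, h1, h2]
  | smul c v _ h => rw [map_smul, h]

/-- A cluster symmetry of order not in `{1,2,3,4,6}` gives an axis of order `5` or at least `7`. -/
lemma exists_ax {X : Set E3} (hs : ∃ r : ℝ, 0 < r ∧ ∀ x ∈ X, ∀ y ∈ X, x ≠ y → r ≤ dist x y)
    (hc : ∀ y : E3, ∃ x ∈ X, dist x y ≤ 1) (x : E3) (hx : x ∈ X) (A : E3 ≃ₗᵢ[ℝ] E3)
    (hA : ∀ v : E3, ‖v‖ ≤ 2 → (x + v ∈ X ↔ x + A v ∈ X))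
    (hdet : LinearMap.det A.toLinearIsometry.toLinearMap = 1)
    (hord : orderOf A ∉ ({1, 2, 3, 4, 6} : Finset ℕ)) : ∃ a n, Ax X x a n := by
  obtain ⟨k, hk, hAk⟩ := finite_order hs hc x A hA
  obtain ⟨a, φ, ha, hrot⟩ := exists_rot A hdet
  have hfin : IsOfFinOrder A := isOfFinOrder_iff_pow_eq_one.2 ⟨k, hk, hAk⟩
  have hn0 : 0 < orderOf A := orderOf_pos_iff.2 hfin
  obtain ⟨n, hn⟩ : ∃ n, n = orderOf A := ⟨_, rfl⟩
  rw [← hn] at hord hn0
  have hn5 : n = 5 ∨ 7 ≤ n := by
    simp only [Finset.mem_insert, Finset.mem_singleton, not_or] at hord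
    omega
  have hpow : ∀ (j : ℕ) (v : E3), (A ^ j) v = rot a (cos (j * φ)) (sin (j * φ)) v := by
    intro j
    induction j with
    | zero => intro v; simp [rot_id]
    | succ j ih =>
      intro v
      rw [pow_succ']
      simp only [LinearIsometryEquiv.coe_mul, Function.comp_apply]
      rw [ih, hrot, rot_rot a ha]
      have e1 : ((j + 1 : ℕ) : ℝ) * φ = φ + j * φ := by push_cast; ring
      rw [e1, Real.cos_add, Real.sin_add]
  -- a unit vector orthogonal to a
  obtain ⟨u, hu, hau⟩ : ∃ u : E3, dot u u = 1 ∧ dot a u = 0 := by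
    have : ∃ w : E3, cross a w ≠ 0 := by
      by_contra h
      push Not at h
      have h1 := h (vec 1 0 0)
      have h2 := h (vec 0 1 0)
      have h1' := ext3_iff.1 h1
      have h2' := ext3_iff.1 h2
      simp at h1' h2'
      have : dot a a = 0 := by simp [dot, h1', h2']
      linarith
    obtain ⟨w, hw⟩ := this
    have hpos : 0 < dot (cross a w) (cross a w) := dot_self_pos hw
    refine ⟨(√(dot (cross a w) (cross a w)))⁻¹ • cross a w, ?_, ?_⟩
    · rw [dot_smul_left, dot_smul_right]
      have := Real.mul_self_sqrt hpos.le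
      have hne : √(dot (cross a w) (cross a w)) ≠ 0 := (Real.sqrt_pos.2 hpos).ne'
      field_simp
      rw [sq]; exact this.symm
    · rw [dot_smul_right, dot_cross_left, mul_zero]
  have hrotu : ∀ ψ : ℝ, dot u (rot a (cos ψ) (sin ψ) u) = cos ψ := by
    intro ψ
    rw [rot, dot_add_right, dot_add_right, dot_smul_right, dot_smul_right, dot_smul_right, hu, hau,
      dot_cross_right]
    ring
  have hAn : A ^ n = 1 := by rw [hn]; exact pow_orderOf_eq_one A
  have hcosn : cos (n * φ) = 1 := by
    have h1 := hpow n u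
    rw [hAn] at h1
    have h2 := hrotu (n * φ)
    rw [← h1] at h2
    rw [← h2]; exact hu
  obtain ⟨j, hj⟩ := (Real.cos_eq_one_iff _).1 hcosn
  have hnR : (0:ℝ) < n := by exact_mod_cast hn0
  have hφ : φ = j * (2 * π) / n := by field_simp; linarith
  -- j and n are coprime
  have hcop : Int.gcd j n = 1 := by
    by_contra hne
    obtain ⟨d, hd⟩ : ∃ d, d = Int.gcd j n := ⟨_, rfl⟩
    rw [← hd] at hne
    have hd0 : 0 < d := by
      rw [hd]; exact Int.gcd_pos_of_ne_zero_right _ (by omega)
    have hd2 : 2 ≤ d := by omega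
    obtain ⟨j', hj'⟩ : (d : ℤ) ∣ j := by rw [hd]; exact Int.gcd_dvd_left _ _
    obtain ⟨n', hn'⟩ : (d : ℤ) ∣ n := by rw [hd]; exact Int.gcd_dvd_right _ _
    have hn'pos : 0 < n' := by
      by_contra h
      push Not at h
      have : (d : ℤ) * n' ≤ 0 := mul_nonpos_of_nonneg_of_nonpos (by positivity) h
      omega
    obtain ⟨m, hm⟩ : ∃ m : ℕ, (m : ℤ) = n' := ⟨n'.toNat, Int.toNat_of_nonneg hn'pos.le⟩
    have hmn : n = d * m := by
      have : (n : ℤ) = ((d * m : ℕ) : ℤ) := by push_cast; rw [hn', hm]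
      exact_mod_cast this
    have hm0 : 0 < m := by
      have : (0:ℤ) < m := by rw [hm]; exact hn'pos
      exact_mod_cast this
    have hmlt : m < n := by
      rw [hmn]; nlinarith
    have hAm : A ^ m = 1 := by
      ext1 v
      rw [hpow]
      have e : (m : ℝ) * φ = j' * (2 * π) := by
        rw [hφ]
        have e1 : (n : ℝ) = d * m := by rw [hmn]; push_cast; ring
        have e2 : (j : ℝ) = d * j' := by exact_mod_cast hj'
        rw [e1, e2]
        have hdR : (d : ℝ) ≠ 0 := by positivity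
        have hmR : (m : ℝ) ≠ 0 := by positivity
        field_simp
      rw [e, Real.cos_int_mul_two_pi]
      have : sin ((j' : ℝ) * (2 * π)) = 0 := by
        have := Real.sin_int_mul_pi (j' * 2)
        rw [← this]; congr 1; push_cast; ring
      rw [this, rot_id]; rfl
    have := orderOf_le_of_pow_eq_one hm0 hAm
    omega
  -- choose m with m j ≡ 1 mod n
  obtain ⟨m, q, hmq⟩ : ∃ m : ℕ, ∃ q : ℤ, (m : ℤ) * j = 1 + q * n := by
    have hb := Int.gcd_eq_gcd_ab j n
    rw [hcop] at hb
    refine ⟨(Int.gcdA j n % n).toNat, - (Int.gcdB j n) - (Int.gcdA j n / n) * j, ?_⟩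
    have h1 : 0 ≤ Int.gcdA j n % n := Int.emod_nonneg _ (by omega)
    rw [Int.toNat_of_nonneg h1]
    have h2 := Int.emod_add_mul_ediv (Int.gcdA j n) n
    push_cast at hb
    have h3 : Int.gcdA j n % n = Int.gcdA j n - n * (Int.gcdA j n / n) := by linarith
    rw [h3]
    linear_combination -hb
  refine ⟨a, n, hx, ha, hn5, ?_⟩
  have hang : (m : ℝ) * φ = 2 * π / n + q * (2 * π) := by
    rw [hφ]
    have e : (m : ℝ) * j = 1 + q * n := by exact_mod_cast hmq
    have : (m : ℝ) * (j * (2 * π) / n) = (m * j) * (2 * π) / n := by ring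
    rw [this, e]; field_simp
  intro v hv hxv
  have hAinv : ∀ (i : ℕ) (w : E3), dot w w ≤ 4 → x + w ∈ X → x + (A ^ i) w ∈ X := by
    intro i
    induction i with
    | zero => intro w _ h; simpa using h
    | succ i ih =>
      intro w hw h
      rw [pow_succ]
      simp only [LinearIsometryEquiv.coe_mul, Function.comp_apply]
      apply ih
      · rw [← inner_eq_dot, A.inner_map_map, inner_eq_dot]; exact hw
      · refine (hA w ?_).1 h
        rw [norm_le_iff _ (by norm_num)]; linarith
  have := hAinv m v hv hxv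
  rw [hpow, hang, Real.cos_add_int_mul_two_pi, Real.sin_add_int_mul_two_pi] at this
  exact this

/-- The reduction: if large regions do not exist, the frozen statement holds. -/
theorem reduction (h : ∃ K : ℝ, ∀ (X : Set E3) (y0 : E3), ¬ Region X y0 K) :
    ∃ k : ℝ, ∀ (X : Set (EuclideanSpace ℝ (Fin 3))) (r R : ℝ), 0 < r →
    (∀ x ∈ X, ∀ y ∈ X, x ≠ y → 2 * r ≤ dist x y) →
    (∀ y : EuclideanSpace ℝ (Fin 3), ∃ x ∈ X, dist x y ≤ R) →
    ∀ y : EuclideanSpace ℝ (Fin 3), ∃ x ∈ X, dist x y ≤ k * R ∧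
      ∀ A : EuclideanSpace ℝ (Fin 3) ≃ₗᵢ[ℝ] EuclideanSpace ℝ (Fin 3),
        (∀ v : EuclideanSpace ℝ (Fin 3), ‖v‖ ≤ 2 * R → (x + v ∈ X ↔ x + A v ∈ X)) →
        LinearMap.det A.toLinearIsometry.toLinearMap = 1 →
        orderOf A ∈ ({1, 2, 3, 4, 6} : Finset ℕ) := by
  obtain ⟨K, hK⟩ := h
  refine ⟨K, fun X r R hr hsep hcov y => ?_⟩
  by_contra hcon
  push Not at hcon
  have hR : 0 < R := by
    by_contra hR
    push Not at hR
    have hall : ∀ z : E3, z ∈ X := by
      intro z
      obtain ⟨x, hx, hd⟩ := hcov z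
      have : dist x z = 0 := le_antisymm (hd.trans hR) dist_nonneg
      rwa [dist_eq_zero.1 this] at hx
    have h1 := hsep (vec r 0 0) (hall _) (vec 0 0 0) (hall _) (by
      intro h
      have := congrArg (fun z : E3 => z 0) h
      simp at this; linarith)
    have h2 : dist (vec r 0 0) (vec 0 0 0) ≤ r := by
      rw [dist_le_iff _ _ hr.le]
      simp [dot]; nlinarith
    linarith
  refine hK {v | R • v ∈ X} (R⁻¹ • y) ⟨?_, ?_, ?_⟩
  · refine ⟨2 * r / R, by positivity, fun x hx z hz hne => ?_⟩
    have h1 := hsep (R • x) hx (R • z) hz (by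
      intro h
      exact hne (smul_right_injective _ hR.ne' h))
    rw [dist_smul₀, Real.norm_of_nonneg hR.le] at h1
    rw [div_le_iff₀ hR]; linarith
  · intro z
    obtain ⟨x, hx, hd⟩ := hcov (R • z)
    refine ⟨R⁻¹ • x, ?_, ?_⟩
    · simpa [smul_smul, mul_inv_cancel₀ hR.ne'] using hx
    · have h1 : dist (R • (R⁻¹ • x)) (R • z) ≤ R := by
        simpa [smul_smul, mul_inv_cancel₀ hR.ne'] using hd
      rw [dist_smul₀, Real.norm_of_nonneg hR.le] at h1
      nlinarith
  · intro x hx hd
    have hd' : dist (R • x) y ≤ K * R := by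
      have h1 : dist (R • x) (R • (R⁻¹ • y)) ≤ R * K := by
        rw [dist_smul₀, Real.norm_of_nonneg hR.le]
        exact mul_le_mul_of_nonneg_left hd hR.le
      have h2 : R • (R⁻¹ • y) = y := by simp [smul_smul, mul_inv_cancel₀ hR.ne']
      rw [h2] at h1; linarith
    obtain ⟨A, hA, hdet, hord⟩ := hcon (R • x) hx hd'
    refine exists_ax (X := {v | R • v ∈ X}) ?_ ?_ x hx A ?_ hdet hord
    · refine ⟨2 * r / R, by positivity, fun x hx z hz hne => ?_⟩
      have h1 := hsep (R • x) hx (R • z) hz (by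
        intro h
        exact hne (smul_right_injective _ hR.ne' h))
      rw [dist_smul₀, Real.norm_of_nonneg hR.le] at h1
      rw [div_le_iff₀ hR]; linarith
    · intro z
      obtain ⟨x, hx, hd⟩ := hcov (R • z)
      refine ⟨R⁻¹ • x, ?_, ?_⟩
      · simpa [smul_smul, mul_inv_cancel₀ hR.ne'] using hx
      · have h1 : dist (R • (R⁻¹ • x)) (R • z) ≤ R := by
          simpa [smul_smul, mul_inv_cancel₀ hR.ne'] using hd
        rw [dist_smul₀, Real.norm_of_nonneg hR.le] at h1
        nlinarith
    · intro v hv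
      simp only [Set.mem_ofPred_eq, smul_add]
      rw [← map_smul]
      apply hA
      rw [norm_smul, Real.norm_of_nonneg hR.le]
      nlinarith

end

end Pool.Agent.Lib.MP_c5a075_co
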