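import Pool.Agent.Lib.MP_c5a075_co.CaseA
import Pool.Agent.Lib.MP_c5a075_co.Layer
import Pool.Agent.Lib.MP_c5a075_co.Reduce

/-!
# MP_c5a075_co: the final assembly, from the output of stage 1 and the local statement
-/

namespace Pool.Agent.Lib.MP_c5a075_co

open scoped Real

noncomputable section

/-- Large regions do not exist, given stage 1 and the local statement. -/
theorem no_region (hLoc : LocalA)
    (hS1 : ∃ K : ℝ, ∀ (X : Set E3) (y0 : E3), Region X y0 K →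
      ∃ (F : Fr) (a : ℝ), Bas (F.pull X) ∧ StarAx (F.pull X) a ∧ 0 < a ∧ a ≤ 1.72 ∧
        ∀ x ∈ F.pull X, x ∉ Sig → (4 / 3 * a) ^ 2 ≤ dot x x) :
    ∃ K : ℝ, ∀ (X : Set E3) (y0 : E3), ¬ Region X y0 K := by
  obtain ⟨K, hK⟩ := hS1
  refine ⟨K, fun X y0 hR => ?_⟩
  obtain ⟨F, a, hB, hS, ha, ha2, hoff⟩ := hK X y0 hR
  obtain ⟨G, t, τ, w, -, hC⟩ := exists_cfg hB hS ha ha2 hoff
  exact caseA hLoc hC

end

end Pool.Agent.Lib.MP_c5a075_co
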