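import Pool.Agent.Lib.MP_c5a075_co.Basic

/-! Orthonormal frames and the transport of axes along them. -/

set_option autoImplicit false

namespace Pool.Agent.Lib.MP_c5a075_co

noncomputable section

open Real

lemma cross_cross' (a b c : E3) : cross a (cross b c) = dot a c • b - dot a b • c := by
  apply ext3 <;> simp [dot] <;> ring

/-- An orthonormal frame with orientation `σ = ±1`. -/
structure Fr where
  o : E3
  f1 : E3
  f2 : E3
  f3 : E3
  σ : ℝ
  h11 : dot f1 f1 = 1
  h22 : dot f2 f2 = 1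
  h33 : dot f3 f3 = 1
  h12 : dot f1 f2 = 0
  h13 : dot f1 f3 = 0
  h23 : dot f2 f3 = 0
  hσ : σ = 1 ∨ σ = -1
  hc : cross f1 f2 = σ • f3

namespace Fr

/-- The linear part of the frame map. -/
def lin (F : Fr) (v : E3) : E3 := v 0 • F.f1 + v 1 • F.f2 + v 2 • F.f3

/-- The frame map. -/
def map (F : Fr) (v : E3) : E3 := F.o + F.lin v

/-- Coordinates of a vector. -/
def co (F : Fr) (z : E3) : E3 := vec (dot F.f1 z) (dot F.f2 z) (dot F.f3 z)

/-- The pullback of a set along the frame map. -/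
def pull (F : Fr) (X : Set E3) : Set E3 := {v | F.map v ∈ X}

variable (F : Fr)

lemma σσ : F.σ * F.σ = 1 := by rcases F.hσ with h | h <;> rw [h] <;> norm_num

lemma lin_add (u v : E3) : F.lin (u + v) = F.lin u + F.lin v := by
  apply ext3 <;> simp [lin] <;> ring
lemma lin_sub (u v : E3) : F.lin (u - v) = F.lin u - F.lin v := by
  apply ext3 <;> simp [lin] <;> ring
lemma lin_neg (u : E3) : F.lin (-u) = -F.lin u := by
  apply ext3 <;> simp [lin] <;> ring
lemma lin_smul (k : ℝ) (v : E3) : F.lin (k • v) = k • F.lin v := by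
  apply ext3 <;> simp [lin] <;> ring
lemma lin_zero : F.lin 0 = 0 := by
  apply ext3 <;> simp [lin]

lemma dot_lin (u v : E3) : dot (F.lin u) (F.lin v) = dot u v := by
  have h11 := F.h11
  have h22 := F.h22
  have h33 := F.h33
  have h12 := F.h12
  have h13 := F.h13
  have h23 := F.h23
  simp only [lin, dot_add_left, dot_add_right, dot_smul_left, dot_smul_right, h11, h22, h33, h12,
    h13, h23, dot_comm F.f2 F.f1, dot_comm F.f3 F.f1, dot_comm F.f3 F.f2]
  simp only [dot]; ring

lemma hc23 : cross F.f2 F.f3 = F.σ • F.f1 := by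
  have h1 : cross F.f2 (cross F.f1 F.f2) = F.f1 := by
    rw [cross_cross', F.h22, dot_comm, F.h12]; simp
  rw [F.hc, cross_smul_right] at h1
  rw [← h1, smul_smul, F.σσ, one_smul]

lemma hc31 : cross F.f3 F.f1 = F.σ • F.f2 := by
  have h1 : cross F.f1 (cross F.f1 F.f2) = -F.f2 := by
    rw [cross_cross', F.h11, F.h12]; simp
  rw [F.hc, cross_smul_right] at h1
  have h2 : F.σ • cross F.f3 F.f1 = F.f2 := by
    rw [cross_comm, smul_neg, h1, neg_neg]
  rw [← h2, smul_smul, F.σσ, one_smul]

lemma cross_lin (u v : E3) : cross (F.lin u) (F.lin v) = F.σ • F.lin (cross u v) := by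
  have e : cross (F.lin u) (F.lin v) = (u 0 * v 1 - u 1 * v 0) • cross F.f1 F.f2 +
      (u 1 * v 2 - u 2 * v 1) • cross F.f2 F.f3 + (u 2 * v 0 - u 0 * v 2) • cross F.f3 F.f1 := by
    apply ext3 <;> simp [lin] <;> ring
  rw [e, F.hc, F.hc23, F.hc31]
  apply ext3 <;> simp [lin] <;> ring

lemma rot_lin (b : E3) (c s : ℝ) (v : E3) :
    rot (F.lin b) c (F.σ * s) (F.lin v) = F.lin (rot b c s v) := by
  rw [rot, F.cross_lin, F.dot_lin, smul_smul]
  have : F.σ * s * F.σ = s := by
    have := F.σσ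
    linear_combination s * this
  rw [this, rot, lin_add, lin_add, lin_smul, lin_smul, lin_smul]

lemma lin_co (z : E3) : F.lin (F.co z) = z := by
  obtain ⟨y, hy⟩ : ∃ y, y = z - F.lin (F.co z) := ⟨_, rfl⟩
  have h1 : dot F.f1 y = 0 := by
    rw [hy]
    simp only [lin, co, vec_0, vec_1, vec_2, dot_sub_right, dot_add_right, dot_smul_right, F.h11,
      F.h12, F.h13]
    ring
  have h2 : dot F.f2 y = 0 := by
    rw [hy]
    simp only [lin, co, vec_0, vec_1, vec_2, dot_sub_right, dot_add_right, dot_smul_right, F.h22,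
      dot_comm F.f2 F.f1, F.h12, F.h23]
    ring
  have h3 : dot F.f3 y = 0 := by
    rw [hy]
    simp only [lin, co, vec_0, vec_1, vec_2, dot_sub_right, dot_add_right, dot_smul_right, F.h33,
      dot_comm F.f3 F.f1, dot_comm F.f3 F.f2, F.h13, F.h23]
    ring
  have h4 : cross F.f1 (cross F.f2 y) = 0 := by
    rw [cross_cross', h1, F.h12]; simp
  have h5 : dot (cross F.f1 (cross F.f2 y)) (cross F.f1 (cross F.f2 y)) = 0 := by
    rw [h4]; simp [dot]
  rw [dot_cross_cross, F.h11, dot_cross_cross, F.h22, h2] at h5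
  have h6 : dot F.f1 (cross F.f2 y) = dot (cross F.f1 F.f2) y := by
    simp only [dot, cross_0, cross_1, cross_2]; ring
  rw [h6, F.hc, dot_smul_left, h3] at h5
  have h7 : dot y y = 0 := by linarith
  have h8 := dot_self_eq_zero.1 h7
  rw [hy] at h8
  exact (sub_eq_zero.1 h8).symm

lemma co_lin (v : E3) : F.co (F.lin v) = v := by
  apply ext3
  · simp only [co, lin, vec_0, dot_add_right, dot_smul_right, F.h11, F.h12, F.h13]; ring
  · simp only [co, lin, vec_1, dot_add_right, dot_smul_right, F.h22, dot_comm F.f2 F.f1, F.h12,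
      F.h23]; ring
  · simp only [co, lin, vec_2, dot_add_right, dot_smul_right, F.h33, dot_comm F.f3 F.f1,
      dot_comm F.f3 F.f2, F.h13, F.h23]; ring

lemma mem_pull {X : Set E3} {v : E3} : v ∈ F.pull X ↔ F.map v ∈ X := Iff.rfl

lemma map_sub (u v : E3) : F.map u - F.map v = F.lin (u - v) := by
  rw [map, map, lin_sub]; abel

lemma map_add (u v : E3) : F.map (u + v) = F.map u + F.lin v := by
  rw [map, map, lin_add]; abel

lemma dist_map (u v : E3) : dist (F.map u) (F.map v) = dist u v := by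
  rw [dist_eq_norm, dist_eq_norm, norm_eq_sqrt, norm_eq_sqrt, map_sub, dot_lin]

/-- Inverse of the frame map. -/
def inv (z : E3) : E3 := F.co (z - F.o)

lemma map_inv (z : E3) : F.map (F.inv z) = z := by
  rw [map, inv, lin_co]; abel

lemma inv_map (v : E3) : F.inv (F.map v) = v := by
  rw [map, inv, add_sub_cancel_left, co_lin]

/-- Transport of axes. -/
lemma ax_pull {X : Set E3} {x a : E3} {n : ℕ} (h : Ax X (F.map x) (F.lin a) n) :
    Ax (F.pull X) x a n where
  mem := h.mem
  unit := by have := h.unit; rwa [dot_lin] at this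
  ord := h.ord
  inv := by
    intro v hv hx
    rw [mem_pull, map_add] at hx ⊢
    have hv' : dot (F.lin v) (F.lin v) ≤ 4 := by rwa [dot_lin]
    rcases F.hσ with hs | hs
    · have h1 := h.inv (F.lin v) hv' hx
      have h2 := F.rot_lin a (cos (2 * π / n)) (sin (2 * π / n)) v
      rw [hs, one_mul] at h2
      rwa [h2] at h1
    · have h1 := h.pow (-1)
      have e : ((-1 : ℤ) : ℝ) * (2 * π / n) = -(2 * π / n) := by push_cast; ring
      rw [e, Real.cos_neg, Real.sin_neg] at h1
      have h3 := h1 (F.lin v) hv' hx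
      have h2 := F.rot_lin a (cos (2 * π / n)) (sin (2 * π / n)) v
      rw [hs, neg_one_mul] at h2
      rwa [h2] at h3

lemma ax_push {X : Set E3} {x a : E3} {n : ℕ} (h : Ax (F.pull X) x a n) :
    Ax X (F.map x) (F.lin a) n where
  mem := h.mem
  unit := by rw [dot_lin]; exact h.unit
  ord := h.ord
  inv := by
    intro w hw hx
    obtain ⟨v, rfl⟩ : ∃ v, F.lin v = w := ⟨_, F.lin_co w⟩
    rw [dot_lin] at hw
    have hx' : x + v ∈ F.pull X := by rw [mem_pull, map_add]; exact hx
    rcases F.hσ with hs | hs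
    · have h1 := h.inv v hw hx'
      have h2 := F.rot_lin a (cos (2 * π / n)) (sin (2 * π / n)) v
      rw [hs, one_mul] at h2
      rw [mem_pull, map_add] at h1
      rwa [h2]
    · have h1 := h.pow (-1)
      have e : ((-1 : ℤ) : ℝ) * (2 * π / n) = -(2 * π / n) := by push_cast; ring
      rw [e, Real.cos_neg, Real.sin_neg] at h1
      have h3 := h1 v hw hx'
      have h2 := F.rot_lin a (cos (2 * π / n)) (-sin (2 * π / n)) v
      rw [hs, neg_one_mul, neg_neg] at h2
      rw [mem_pull, map_add] at h3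
      rwa [h2]

lemma ax_push' {X : Set E3} {x a : E3} {n : ℕ} (h : Ax X x a n) :
    Ax (F.pull X) (F.inv x) (F.co a) n := by
  apply F.ax_pull
  rw [map_inv, lin_co]; exact h

lemma sep_pull {X : Set E3} (h : ∃ r : ℝ, 0 < r ∧ ∀ x ∈ X, ∀ y ∈ X, x ≠ y → r ≤ dist x y) :
    ∃ r : ℝ, 0 < r ∧ ∀ x ∈ F.pull X, ∀ y ∈ F.pull X, x ≠ y → r ≤ dist x y := by
  obtain ⟨r, hr, h⟩ := h
  refine ⟨r, hr, fun x hx y hy hne => ?_⟩
  have := h (F.map x) hx (F.map y) hy (fun e => hne (by rw [← F.inv_map x, e, F.inv_map]))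
  rwa [F.dist_map] at this

lemma cov_pull {X : Set E3} (h : ∀ y : E3, ∃ x ∈ X, dist x y ≤ 1) :
    ∀ y : E3, ∃ x ∈ F.pull X, dist x y ≤ 1 := by
  intro y
  obtain ⟨x, hx, hd⟩ := h (F.map y)
  refine ⟨F.inv x, ?_, ?_⟩
  · rw [mem_pull, map_inv]; exact hx
  · rw [← F.dist_map, map_inv]; exact hd

end Fr

/-- Squared distance of `v` to the line spanned by the unit vector `a`. -/
def rho2 (a v : E3) : ℝ := dot v v - dot a v ^ 2

lemma rho2_nonneg (a v : E3) (ha : dot a a = 1) : 0 ≤ rho2 a v := by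
  have := dot_sq_le a v
  rw [ha, one_mul] at this
  unfold rho2; linarith

lemma rho2_neg_axis (a v : E3) : rho2 (-a) v = rho2 a v := by
  unfold rho2; rw [dot_neg_left]; ring

lemma rho2_le (a v : E3) : rho2 a v ≤ dot v v := by
  unfold rho2; nlinarith [sq_nonneg (dot a v)]

/-- `v` is on the axis iff its distance to the axis vanishes. -/
lemma rho2_eq_zero {a v : E3} (ha : dot a a = 1) : rho2 a v = 0 ↔ v = dot a v • a := by
  constructor
  · intro h
    have h1 : dot (v - dot a v • a) (v - dot a v • a) = rho2 a v := by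
      simp only [dot_sub_left, dot_sub_right, dot_smul_left, dot_smul_right, ha, rho2,
        dot_comm v a]
      ring
    rw [h] at h1
    exact sub_eq_zero.1 (dot_self_eq_zero.1 h1)
  · intro h
    rw [rho2]
    have : dot v v = dot a v * dot a v := by
      conv_lhs => rw [h]
      rw [dot_smul_left, dot_smul_right, ha]; ring
    rw [this]; ring

lemma Fr.rho2_lin (F : Fr) (a v : E3) : rho2 (F.lin a) (F.lin v) = rho2 a v := by
  unfold rho2; rw [F.dot_lin, F.dot_lin]

/-- Rotations preserve the distance to their axis. -/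
lemma rho2_rot (a : E3) (ha : dot a a = 1) (c s : ℝ) (h : c ^ 2 + s ^ 2 = 1) (v : E3) :
    rho2 a (rot a c s v) = rho2 a v := by
  unfold rho2; rw [dot_axis_rot a ha, dot_rot_rot a ha c s h]

end

end Pool.Agent.Lib.MP_c5a075_co
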