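import Pool.Agent.Lib.MP_c5a075_co.Chord

/-! Existence of the frame adapted to an axis and a point off the axis. -/

set_option autoImplicit false

namespace Pool.Agent.Lib.MP_c5a075_co

noncomputable section

open Real

/-- The frame with third direction `a`, first direction towards `w`, origin at the foot. -/
lemma exists_frame_pos {x a w : E3} (ha : dot a a = 1) (hr : rho2 a (w - x) ≠ 0) :
    ∃ F : Fr, F.lin (vec 0 0 1) = a ∧ F.map (vec 0 0 (-(dot a (w - x)))) = x ∧
      F.map (√(rho2 a (w - x)) • W 0) = w := by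
  obtain ⟨v, hv⟩ : ∃ v, v = w - x := ⟨_, rfl⟩
  rw [← hv] at hr ⊢
  have hpos : 0 < rho2 a v := (rho2_pos_iff ha).1 hr
  obtain ⟨μ, hμ⟩ : ∃ μ, μ = √(rho2 a v) := ⟨_, rfl⟩
  have hμ0 : 0 < μ := by rw [hμ]; exact Real.sqrt_pos.2 hpos
  have hμ2 : μ ^ 2 = rho2 a v := by rw [hμ]; exact Real.sq_sqrt hpos.le
  obtain ⟨u, hu⟩ : ∃ u, u = v - dot a v • a := ⟨_, rfl⟩
  have huu : dot u u = μ ^ 2 := by
    rw [hμ2, hu, rho2]
    simp only [dot_sub_left, dot_sub_right, dot_smul_left, dot_smul_right, ha, dot_comm v a]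
    ring
  have hau : dot a u = 0 := by
    rw [hu, dot_sub_right, dot_smul_right, ha]; ring
  obtain ⟨f1, hf1⟩ : ∃ f1, f1 = μ⁻¹ • u := ⟨_, rfl⟩
  have h11 : dot f1 f1 = 1 := by
    rw [hf1, dot_smul_left, dot_smul_right, huu]; field_simp
  have h1a : dot f1 a = 0 := by
    rw [hf1, dot_smul_left, dot_comm, hau, mul_zero]
  have hcc : cross f1 (cross a f1) = a := by
    rw [cross_cross', h11, h1a]; simp
  have h22 : dot (cross a f1) (cross a f1) = 1 := by
    rw [dot_cross_cross, ha, h11, dot_comm, h1a]; ring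
  refine ⟨{ o := x + dot a v • a, f1 := f1, f2 := cross a f1, f3 := a, σ := 1, h11 := h11,
            h22 := h22, h33 := ha, h12 := dot_cross_right a f1, h13 := h1a,
            h23 := by rw [dot_comm]; exact dot_cross_left a f1, hσ := Or.inl rfl,
            hc := by rw [hcc, one_smul] }, ?_, ?_, ?_⟩
  · apply ext3 <;> simp [Fr.lin]
  · apply ext3 <;> simp [Fr.lin, Fr.map]
  · rw [← hμ, W_zero]
    have hv' : w = x + v := by rw [hv]; abel
    have hvu : v = dot a v • a + μ • f1 := by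
      rw [hf1, smul_smul, mul_inv_cancel₀ hμ0.ne', one_smul, hu]; abel
    have e0 := congrArg (fun z : E3 => z 0) hvu
    have e1 := congrArg (fun z : E3 => z 1) hvu
    have e2 := congrArg (fun z : E3 => z 2) hvu
    simp only [add_0, add_1, add_2, smul_0, smul_1, smul_2] at e0 e1 e2
    rw [hv']
    apply ext3 <;> simp only [Fr.map, Fr.lin, add_0, add_1, add_2, smul_0, smul_1, smul_2, vec_0,
      vec_1, vec_2]
    · linarith
    · linarith
    · linarith

/-- The frame with the base point below the ring plane. -/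
lemma exists_frame {x a w : E3} (ha : dot a a = 1) (hr : rho2 a (w - x) ≠ 0) :
    ∃ (F : Fr) (h : ℝ), 0 ≤ h ∧ (F.lin (vec 0 0 1) = a ∨ F.lin (vec 0 0 1) = -a) ∧
      F.map (vec 0 0 (-h)) = x ∧ F.map (√(rho2 a (w - x)) • W 0) = w ∧
      h ^ 2 + rho2 a (w - x) = dot (w - x) (w - x) := by
  rcases le_total 0 (dot a (w - x)) with h0 | h0
  · obtain ⟨F, h1, h2, h3⟩ := exists_frame_pos ha hr
    exact ⟨F, dot a (w - x), h0, Or.inl h1, h2, h3, by rw [rho2]; ring⟩
  · obtain ⟨F, h1, h2, h3⟩ := exists_frame_pos (a := -a) (x := x) (w := w)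
      (by rw [dot_neg_left, dot_neg_right, neg_neg]; exact ha) (by rwa [rho2_neg_axis])
    refine ⟨F, dot (-a) (w - x), by rw [dot_neg_left]; linarith, Or.inr h1, h2, ?_, ?_⟩
    · rw [rho2_neg_axis] at h3; exact h3
    · rw [rho2, dot_neg_left]; ring

/-- An axis along the frame's third direction, pulled back. -/
lemma Ax.pull_e3 {X : Set E3} {F : Fr} {x a : E3} {n : ℕ} (hx : Ax X x a n) {p : E3}
    (hp : F.map p = x) (ha : F.lin (vec 0 0 1) = a ∨ F.lin (vec 0 0 1) = -a) :
    Ax (F.pull X) p (vec 0 0 1) n := by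
  apply Fr.ax_pull
  rw [hp]
  rcases ha with h | h
  · rw [h]; exact hx
  · rw [h]; exact hx.neg

/-- Rotation by `72k` degrees about the vertical axis moves the ring. -/
lemma ring_rot (μ h : ℝ) (k : ℤ) :
    vec 0 0 (-h) + rot (vec 0 0 1) (cos (k * (2 * π / 5))) (sin (k * (2 * π / 5)))
      (μ • W 0 - vec 0 0 (-h)) = μ • W k := by
  rw [W_zero]
  apply ext3
  · simp only [add_0, rot_0, sub_0, sub_1, sub_2, smul_0, smul_1, smul_2, vec_0, vec_1, vec_2, W,
      dot]
    ring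
  · simp only [add_1, rot_1, sub_0, sub_1, sub_2, smul_0, smul_1, smul_2, vec_0, vec_1, vec_2, W,
      dot]
    ring
  · simp only [add_2, rot_2, sub_0, sub_1, sub_2, smul_0, smul_1, smul_2, vec_0, vec_1, vec_2, W,
      dot]
    ring

/-- All ring points are present. -/
lemma ring_of_base {X : Set E3} {μ h : ℝ} (hx : Ax X (vec 0 0 (-h)) (vec 0 0 1) 5)
    (hw : μ • W 0 ∈ X) (hvis : μ ^ 2 + h ^ 2 ≤ 4) (k : ℤ) : μ • W k ∈ X := by
  have h1 := hx.pow k (μ • W 0 - vec 0 0 (-h)) (by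
    rw [W_zero]
    simp only [sub_0, sub_1, sub_2, smul_0, smul_1, smul_2, vec_0, vec_1, vec_2, dot]
    linarith) (by rw [add_sub_cancel]; exact hw)
  have e : ((5:ℕ):ℝ) = 5 := by norm_num
  rw [e, ring_rot] at h1
  exact h1

end

end Pool.Agent.Lib.MP_c5a075_co
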