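import Pool.Agent.Lib.MP_c5a075_co.HighAux

/-! The high regime: no region with `μ ≥ 1.7`. -/

set_option autoImplicit false

namespace Pool.Agent.Lib.MP_c5a075_co

noncomputable section

open Real

/-- The last point of the high regime: coordinates. -/
lemma hi_z {μ N s : ℝ} {p b : E3} (hbu : dot b b = 1) (hpb : p = μ • vec 1 0 0 + N • b)
    (hs : s * b 2 = s5 * |b 2|) :
    (p + rot b c5 s (μ • vec c5 s5 0 - p)) 0 =
      μ * (1 - c5 + c5 ^ 2 + (1 - c5) * s5 * (b 0 * b 1) - (1 - c5) ^ 2 * b 0 ^ 2 -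
        s5 ^ 2 * |b 2|) ∧
    (p + rot b c5 s (μ • vec c5 s5 0 - p)) 1 =
      μ * (c5 * s5 + (1 - c5) * s5 * b 1 ^ 2 - (1 - c5) ^ 2 * (b 0 * b 1) -
        (1 - c5) * s5 * |b 2|) := by
  have hbu' : b 0 * b 0 + b 1 * b 1 + b 2 * b 2 = 1 := hbu
  have e4 : μ • vec c5 s5 0 - p = (μ • vec c5 s5 0 - μ • vec 1 0 0) - N • b := by
    rw [hpb]; abel
  have e5 : p + rot b c5 s (μ • vec c5 s5 0 - p) =
      μ • vec 1 0 0 + rot b c5 s (μ • vec c5 s5 0 - μ • vec 1 0 0) := by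
    rw [e4, rot_sub, rot_smul_axis b hbu, hpb]; abel
  rw [e5]
  constructor
  · rw [add_0, rot_0]
    simp only [dot, sub_0, sub_1, sub_2, smul_0, smul_1, smul_2, vec_0, vec_1, vec_2]
    linear_combination (-μ * s5) * hs
  · rw [add_1, rot_1]
    simp only [dot, sub_0, sub_1, sub_2, smul_0, smul_1, smul_2, vec_0, vec_1, vec_2]
    linear_combination (-μ * (1 - c5)) * hs

/-- The full tube around the vertical axis. -/
lemma hi_tube {X : Set E3} {μ h : ℝ} (H : Tube X 0 20 μ) (hμ : 1.7 ≤ μ) (hh : μ ^ 2 + h ^ 2 ≤ 4)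
    (hx : Ax X (vec 0 0 (-h)) (vec 0 0 1) 5) {z : E3} (hz : z ∈ X) (hz2 : |z 2| ≤ 4)
    (h2 : z 0 ^ 2 + z 1 ^ 2 < (1 - 1 / 1000000) * μ ^ 2) (h3 : z 0 ^ 2 + z 1 ^ 2 < 3.47) :
    z 0 ^ 2 + z 1 ^ 2 = 0 := by
  have hμq : (1.7:ℝ) ^ 2 ≤ μ ^ 2 := pow_le_pow_left₀ (by norm_num) hμ 2
  have hhq : h ^ 2 ≤ 4 := by linarith
  have hh2 : |h| ≤ 2 := abs_le_of_sq_le_sq (by linarith) (by norm_num)
  have hx0 : dist (vec 0 0 (-h)) 0 ≤ 2 := by
    rw [dist_le_iff _ _ (by norm_num), sub_zero]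
    have : dot (vec 0 0 (-h)) (vec 0 0 (-h)) = h ^ 2 := by simp [dot]; ring
    rw [this]; linarith
  have hr2 : rho2 (vec 0 0 1) (z - vec 0 0 (-h)) = z 0 ^ 2 + z 1 ^ 2 := by
    simp only [rho2, dot, sub_0, sub_1, sub_2, vec_0, vec_1, vec_2]; ring
  have hd : dot (vec 0 0 1) (z - vec 0 0 (-h)) = z 2 + h := by
    simp only [dot, sub_0, sub_1, sub_2, vec_0, vec_1, vec_2]; ring
  have hfull := H.full hx (r := 20 / 29) (z := 21 / 29) (by norm_num) (by norm_num)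
    (by norm_num) (by linarith) (by linarith) hz
    (by rw [hd]
        have := abs_add_le (z 2) h
        linarith)
    (by rw [hr2]; linarith) (by rw [hr2]; linarith)
  rwa [hr2] at hfull

lemma high_key {X : Set E3} {μ h N s : ℝ} (H : Tube X 0 20 μ) (hμ : 1.7 ≤ μ)
    (hh : μ ^ 2 + h ^ 2 ≤ 4) (hμ2 : μ ≤ 2)
    (hx : Ax X (vec 0 0 (-h)) (vec 0 0 1) 5) (hw1 : μ • vec c5 s5 0 ∈ X)
    {p b : E3} (hP2 : dot p p ≤ 4) (hbu : dot b b = 1) (hpb : p = μ • vec 1 0 0 + N • b)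
    (e8 : dot (μ • vec c5 s5 0 - p) (μ • vec c5 s5 0 - p) ≤ 3.72)
    (g1 : -0.08 < b 0) (g2 : b 0 < 0.03) (g3 : 0.5 < b 1) (g4 : b 1 < 0.68)
    (g5 : 0.82 * (1 - b 0 ^ 2 - b 1 ^ 2) < (0.786 - 0.4775 * b 0 ^ 2 + 0.657 * b 0 * b 1) ^ 2)
    (hss : s ^ 2 = s5 ^ 2) (hs : Inv X p b c5 s) (hsz : s * b 2 = s5 * |b 2|) : False := by
  have hbu' : b 0 ^ 2 + b 1 ^ 2 + b 2 ^ 2 = 1 := by
    have : b 0 * b 0 + b 1 * b 1 + b 2 * b 2 = 1 := hbu
    linarith only [this]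
  have hμq : (1.7:ℝ) ^ 2 ≤ μ ^ 2 := pow_le_pow_left₀ (by norm_num) hμ 2
  have hz1 := hs (μ • vec c5 s5 0 - p) (by linarith only [e8]) (by rwa [add_sub_cancel])
  obtain ⟨z0, z1⟩ := hi_z hbu hpb hsz
  obtain ⟨f1, f2⟩ := hi_end μ (b 0) (b 1) |b 2| hμ hμ2 (by rw [sq_abs]; exact hbu')
    (abs_nonneg _) g1 g2 g3 g4 g5
  rw [← z0] at f1
  rw [← z0, ← z1] at f2
  have u2 : dot (rot b c5 s (μ • vec c5 s5 0 - p)) (rot b c5 s (μ • vec c5 s5 0 - p)) ≤ 4 := by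
    rw [dot_rot_rot b hbu c5 s (by rw [hss]; exact c5_sq_add)]
    linarith only [e8]
  obtain ⟨r, hr⟩ : ∃ r, r = rot b c5 s (μ • vec c5 s5 0 - p) := ⟨_, rfl⟩
  rw [← hr] at u2 f1 f2 hz1
  obtain ⟨z, hz⟩ : ∃ z, z = p + r := ⟨_, rfl⟩
  rw [← hz] at f1 f2 hz1
  have hz2 : |z 2| ≤ 4 := by
    rw [hz, add_2]
    have := abs_add_le (p 2) (r 2)
    have := abs_coord2_le hP2
    have := abs_coord2_le u2
    linarith
  have := hi_tube H hμ hh hx hz1 hz2 (by linarith only [hμq, f2]) (by linarith only [f2])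
  have h0 : 0 < z 0 ^ 2 := by positivity
  linarith [sq_nonneg (z 1)]

lemma high_core {X : Set E3} {μ h : ℝ} (H : Tube X 0 20 μ) (hμ : 1.7 ≤ μ) (hh : μ ^ 2 + h ^ 2 ≤ 4)
    (hx : Ax X (vec 0 0 (-h)) (vec 0 0 1) 5) (hw : μ • vec 1 0 0 ∈ X) (hw1 : μ • vec c5 s5 0 ∈ X)
    {p : E3} (hp : p ∈ X) (hpc : dot (p - hc0) (p - hc0) ≤ 1)
    (hp2 : (1 - 1 / 1000000) * μ ^ 2 ≤ p 0 ^ 2 + p 1 ^ 2 ∨ 3.47 ≤ p 0 ^ 2 + p 1 ^ 2)
    (hd0 : dot (p - μ • vec 1 0 0) (p - μ • vec 1 0 0) ≤ 1.86)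
    (hd1 : dot (p - μ • vec c5 s5 0) (p - μ • vec c5 s5 0) ≤ 3.72) : False := by
  have hμ2 : μ ≤ 2 := le_of_sq_le_sq (by linarith [sq_nonneg h]) (by norm_num)
  have hμq : (1.7:ℝ) ^ 2 ≤ μ ^ 2 := pow_le_pow_left₀ (by norm_num) hμ 2
  -- size of `p`
  obtain ⟨hP1, hP2⟩ := size_hc0 hpc
  have hpd : dist p 0 ≤ 2 := by
    rw [dist_le_iff _ _ (by norm_num), sub_zero]; linarith
  obtain ⟨a, n, ha⟩ := H.bad p hp (by linarith)
  have t0 : rho2 a (μ • vec 1 0 0 - p) = 0 := by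
    rcases H.tube p a n ha (by linarith) _ hw (by rw [dot_sub_comm]; linarith) with h | h
    · exact h
    · exfalso
      have h1 := rho2_le a (μ • vec 1 0 0 - p)
      rw [dot_sub_comm] at h1
      linarith
  -- the axis of `p` through `w_0`
  obtain ⟨b, N, hb, hN0, hpb⟩ := axis_through ha t0
  have hN : 0 < N := by
    rcases lt_or_eq_of_le hN0 with h | h
    · exact h
    · exfalso
      rw [← h, zero_smul, add_zero] at hpb
      rw [hpb, dot_smul_left, dot_smul_right, dot_smul_right, hc0_W0] at hP1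
      have : dot (vec 1 0 0) (vec 1 0 0) = 1 := by simp [dot]
      rw [this] at hP1
      exact num_pos hμ hP1
  have hbu := hb.unit
  have hN2 : N ≤ 2 := by
    have e : dot (p - μ • vec 1 0 0) (p - μ • vec 1 0 0) = N ^ 2 := by
      rw [hpb, add_sub_cancel_left, dot_smul_left, dot_smul_right, hbu]; ring
    rw [e] at hd0
    exact le_of_sq_le_sq (by linarith) (by norm_num)
  obtain ⟨k1, e3⟩ := hi_coord hbu hpb hP1
  have hbu' : b 0 ^ 2 + b 1 ^ 2 + b 2 ^ 2 = 1 := by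
    have : b 0 * b 0 + b 1 * b 1 + b 2 * b 2 = 1 := hbu
    linarith only [this]
  -- the tube at `p` seen from `w_1`
  have e8 : dot (μ • vec c5 s5 0 - p) (μ • vec c5 s5 0 - p) ≤ 3.72 := by
    rw [dot_sub_comm]; exact hd1
  have t1 := hi_ne hμ hμ2 hbu hpb hP1 hp2
  have e7 := hi_rho (p := p) hbu hpb
  have k3 : (s5 * b 1 - (1 - c5) * b 0) ^ 2 ≤ 1 - 2 * c5 + 1 / 1000000 := by
    rcases H.tube p b n hb (by linarith) _ hw1 (by linarith) with h | h
    · exact absurd h t1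
    · rw [e7] at h
      exact hi_k3' hμ h
  obtain ⟨g1, g2, g3, g4, g5⟩ := hi_num μ (b 0) (b 1) N hμ hμ2 (by linarith [sq_nonneg (b 2)]) hN
    hN2 k1 (by rw [← e3]; exact hp2) k3
  -- the axis is fivefold
  have h5 : n = 5 := by
    apply H.five hb (by linarith only [hpd]) hw1 (by linarith only [e8]) t1
    rw [e7]
    exact hi_five hμ g2 g3
  subst h5
  rcases le_total 0 (b 2) with hz | hz
  · exact high_key H hμ hh hμ2 hx hw1 hP2 hbu hpb e8 g1 g2 g3 g4 g5 rfl hb.five.1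
      (by rw [abs_of_nonneg hz])
  · exact high_key H hμ hh hμ2 hx hw1 hP2 hbu hpb e8 g1 g2 g3 g4 g5 (by ring) hb.five.2.1
      (by rw [abs_of_nonpos hz]; ring)

/-- Numerical part of the choice of the nearer ring point. -/
lemma hi_sum {μ m q : ℝ} (hμ : 1.7 ≤ μ) (hμ2 : μ ≤ 2) (hm : m ≤ q)
    (hp2 : (1 - 1 / 1000000) * μ ^ 2 ≤ m ∨ 3.47 ≤ m) :
    2 * q - 2 * (c5 + 1 / 2) * μ * q + 2 * μ ^ 2 ≤ 3.72 := by
  have a1 := c5_gt
  have h0 : 0.80901675 * μ ≤ (c5 + 1 / 2) * μ := mul_le_mul_of_nonneg_right (by linarith) (by linarith)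
  have h1 : 0.375 ≤ (c5 + 1 / 2) * μ - 1 := by linarith
  have h2 : 2 * q - 2 * (c5 + 1 / 2) * μ * q ≤ -2 * (((c5 + 1 / 2) * μ - 1) * m) := by
    have := mul_nonneg (sub_nonneg.2 hm) (show 0 ≤ (c5 + 1 / 2) * μ - 1 by linarith)
    linarith
  rcases hp2 with h | h
  · have h3 : (0.80901675 * μ - 1) * ((1 - 1 / 1000000) * μ ^ 2) ≤ ((c5 + 1 / 2) * μ - 1) * m :=
      mul_le_mul (by linarith) h (by positivity) (by linarith)
    have h4 : 0 ≤ (μ - 1.7) * (1.618 * μ ^ 2 - 1.2494 * μ - 2.124) := by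
      apply mul_nonneg (by linarith)
      nlinarith only [hμ]
    have h5 : 0 ≤ (2 - μ) * μ ^ 2 := mul_nonneg (by linarith only [hμ2]) (sq_nonneg μ)
    nlinarith
  · have h3 : (0.80901675 * μ - 1) * 3.47 ≤ ((c5 + 1 / 2) * μ - 1) * m :=
      mul_le_mul (by linarith) h (by norm_num) (by linarith)
    have h4 : 0 ≤ (μ - 1.7) * (2 - μ) := mul_nonneg (by linarith) (by linarith)
    linarith

/-- The reflection exchanging `W 0` and `W 1`. -/
def hiFr : Fr where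
  o := 0
  f1 := vec c5 s5 0
  f2 := vec s5 (-c5) 0
  f3 := vec 0 0 1
  σ := -1
  h11 := by simp only [dot, vec_0, vec_1, vec_2]; linear_combination c5_sq_add
  h22 := by simp only [dot, vec_0, vec_1, vec_2]; linear_combination c5_sq_add
  h33 := by simp [dot]
  h12 := by simp only [dot, vec_0, vec_1, vec_2]; ring
  h13 := by simp [dot]
  h23 := by simp [dot]
  hc := by
    apply ext3
    · simp
    · simp
    · simp only [cross_2, smul_2, vec_0, vec_1, vec_2]; linear_combination -c5_sq_add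
  hσ := by right; rfl

lemma hiFr_map (v : E3) : hiFr.map v = vec (c5 * v 0 + s5 * v 1) (s5 * v 0 - c5 * v 1) (v 2) := by
  apply ext3 <;> simp [Fr.map, Fr.lin, hiFr] <;> ring

/-- The high regime is empty. -/
theorem high {X : Set E3} {μ h : ℝ} (H : Tube X 0 20 μ) (hμ : 1.7 ≤ μ) (hh : μ ^ 2 + h ^ 2 ≤ 4)
    (hx : Ax X (vec 0 0 (-h)) (vec 0 0 1) 5) (hw : μ • W 0 ∈ X) (hw1 : μ • W 1 ∈ X) : False := by
  rw [W_zero] at hw
  rw [W_one] at hw1
  have hμ2 : μ ≤ 2 := le_of_sq_le_sq (by linarith [sq_nonneg h]) (by norm_num)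
  have hne : hc0 ≠ 0 := by
    intro h0
    have := dot_hc0
    rw [h0, dot_zero_left] at this
    norm_num at this
  obtain ⟨p, hp, hpc, hdir⟩ := cov_dir H.sep H.cov hc0 hc0 hne
  obtain ⟨hP1, hP2⟩ := size_hc0 hpc
  have hpq : p 0 ^ 2 + p 1 ^ 2 ≤ dot p p := by
    have : dot p p = p 0 * p 0 + p 1 * p 1 + p 2 * p 2 := rfl
    linarith [sq_nonneg (p 2)]
  -- `p` is not on the vertical axis
  have hpos : p 0 ^ 2 + p 1 ^ 2 ≠ 0 := by
    intro h0
    have h00 : p 0 = 0 := by nlinarith only [h0]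
    have h01 : p 1 = 0 := by nlinarith only [h0]
    have h1 : dot hc0 p = 0 := by
      simp only [dot, hc0, vec_0, vec_1, vec_2]; rw [h00, h01]; ring
    rw [h1] at hP1
    have h2 : p = 0 := by
      apply dot_self_eq_zero.1
      linarith [dot_self_nonneg p]
    rw [h2, zero_sub, dot_neg_left, dot_neg_right, dot_hc0] at hdir
    rcases hdir with h3 | h3 <;> norm_num at h3
  have hp2 : (1 - 1 / 1000000) * μ ^ 2 ≤ p 0 ^ 2 + p 1 ^ 2 ∨ 3.47 ≤ p 0 ^ 2 + p 1 ^ 2 := by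
    by_contra hcon
    push Not at hcon
    have := abs_coord2_le hP2
    exact hpos (hi_tube H hμ hh hx hp (by linarith) hcon.1 hcon.2)
  have hsum : dot (p - μ • vec 1 0 0) (p - μ • vec 1 0 0) +
      dot (p - μ • vec c5 s5 0) (p - μ • vec c5 s5 0) ≤ 3.72 := by
    have e1 : dot (p - μ • vec 1 0 0) (p - μ • vec 1 0 0) +
        dot (p - μ • vec c5 s5 0) (p - μ • vec c5 s5 0) =
        2 * dot p p - 2 * (c5 + 1 / 2) * μ * (2 * dot hc0 p) + 2 * μ ^ 2 := by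
      simp only [dot, sub_0, sub_1, sub_2, smul_0, smul_1, smul_2, vec_0, vec_1, vec_2, hc0]
      have h1 := c5_sq
      have h2 := c5_sq_add
      linear_combination (2 * μ * p 0 * 2 + 8 * μ * p 1 * s5) * h1 + (μ ^ 2) * h2
    rw [e1]
    have := hi_sum hμ hμ2 hpq hp2
    have h3 : 0 ≤ 2 * (c5 + 1 / 2) * μ := by
      have := c5_pos
      positivity
    have h4 := mul_le_mul_of_nonneg_left hP1 h3
    linarith
  have n0 := dot_self_nonneg (p - μ • vec 1 0 0)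
  have n1 := dot_self_nonneg (p - μ • vec c5 s5 0)
  rcases le_total (dot (p - μ • vec 1 0 0) (p - μ • vec 1 0 0))
    (dot (p - μ • vec c5 s5 0) (p - μ • vec c5 s5 0)) with hle | hle
  · exact high_core H hμ hh hx hw hw1 hp hpc hp2 (by linarith) (by linarith)
  · -- reflect
    have hv : ∀ v ∈ X, ∃ w ∈ hiFr.pull X, hiFr.map w = v := by
      intro v hv
      exact ⟨hiFr.inv v, by rw [Fr.mem_pull, Fr.map_inv]; exact hv, Fr.map_inv _ _⟩
    obtain ⟨q, hq, hqp⟩ := hv p hp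
    have H' := H.pull hiFr
    have hinv0 : hiFr.inv 0 = 0 := by
      have : hiFr.map 0 = 0 := by
        rw [hiFr_map]; apply ext3 <;> simp
      rw [← this, Fr.inv_map, this]
    rw [hinv0] at H'
    have m0 : hiFr.map (μ • vec 1 0 0) = μ • vec c5 s5 0 := by
      rw [hiFr_map]; apply ext3 <;> simp <;> ring
    have m1 : hiFr.map (μ • vec c5 s5 0) = μ • vec 1 0 0 := by
      rw [hiFr_map]
      apply ext3
      · simp only [smul_0, smul_1, vec_0, vec_1]; linear_combination μ * c5_sq_add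
      · simp only [smul_0, smul_1, vec_0, vec_1]; ring
      · simp
    have mc : hiFr.map hc0 = hc0 := by
      rw [hiFr_map]
      have h1 := c5_sq
      have h2 := s5_sq'
      apply ext3
      · simp only [hc0, vec_0, vec_1]; linear_combination (2 * c5) * h2 + 2 * h1
      · simp only [hc0, vec_0, vec_1]; linear_combination (-2 * s5) * h1
      · simp [hc0]
    have hx' : Ax (hiFr.pull X) (vec 0 0 (-h)) (vec 0 0 1) 5 := by
      apply hiFr.ax_pull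
      have e1 : hiFr.map (vec 0 0 (-h)) = vec 0 0 (-h) := by
        rw [hiFr_map]; apply ext3 <;> simp
      have e2 : hiFr.lin (vec 0 0 1) = vec 0 0 1 := by
        apply ext3 <;> simp [Fr.lin, hiFr]
      rw [e1, e2]; exact hx
    have dm : ∀ u v : E3, dot (hiFr.map u - hiFr.map v) (hiFr.map u - hiFr.map v) =
        dot (u - v) (u - v) := by
      intro u v; rw [Fr.map_sub, Fr.dot_lin]
    have hq2 : q 0 ^ 2 + q 1 ^ 2 = p 0 ^ 2 + p 1 ^ 2 := by
      rw [← hqp, hiFr_map]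
      simp only [vec_0, vec_1]
      linear_combination (-(q 0 ^ 2 + q 1 ^ 2)) * c5_sq_add
    refine high_core H' hμ hh hx' ?_ ?_ hq ?_ ?_ ?_ ?_
    · rw [Fr.mem_pull, m0]; exact hw1
    · rw [Fr.mem_pull, m1]; exact hw
    · rw [← dm, mc, hqp]; exact hpc
    · rw [hq2]; exact hp2
    · rw [← dm, m0, hqp]; linarith
    · rw [← dm, m1, hqp]; linarith

end

end Pool.Agent.Lib.MP_c5a075_co
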