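import Pool.Agent.Lib.MP_c5a075_co.HighNum

/-! The high regime: no region with `μ ≥ 1.7`. -/

set_option autoImplicit false

namespace Pool.Agent.Lib.MP_c5a075_co

noncomputable section

open Real

/-- The unit vector bisecting `W 0` and `W 1`. -/
def hc0 : E3 := vec (c5 + 1 / 2) (2 * c5 * s5) 0

lemma dot_hc0 : dot hc0 hc0 = 1 := by
  simp only [hc0, dot, vec_0, vec_1, vec_2]
  have h1 := c5_sq
  have h2 := s5_sq'
  have e : (c5 + 1 / 2) * (c5 + 1 / 2) + 2 * c5 * s5 * (2 * c5 * s5) + 0 * 0 =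
    c5 ^ 2 + c5 + 1 / 4 + 4 * c5 ^ 2 * s5 ^ 2 := by ring
  rw [e, h2, h1]
  have : (1 - 2 * c5) / 4 + c5 + 1 / 4 + 4 * ((1 - 2 * c5) / 4) * ((3 + 2 * c5) / 4) =
    5 / 4 - c5 ^ 2 - c5 / 2 := by ring
  rw [this, h1]; ring

lemma hc0_W0 : dot hc0 (vec 1 0 0) = c5 + 1 / 2 := by
  simp only [hc0, dot, vec_0, vec_1, vec_2]; ring

lemma hc0_W1 : dot hc0 (vec c5 s5 0) = c5 + 1 / 2 := by
  simp only [hc0, dot, vec_0, vec_1, vec_2]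
  have h1 := c5_sq
  have h2 := s5_sq'
  have e : (c5 + 1 / 2) * c5 + 2 * c5 * s5 * s5 + 0 * 0 = c5 ^ 2 + c5 / 2 + 2 * c5 * s5 ^ 2 := by
    ring
  rw [e, h2]
  have : c5 ^ 2 + c5 / 2 + 2 * c5 * ((3 + 2 * c5) / 4) = 2 * c5 ^ 2 + 2 * c5 := by ring
  rw [this, h1]; ring

lemma hi_const : 0.65716 ≤ (1 - c5) * s5 ∧ (1 - c5) * s5 ≤ 0.65717 ∧ 0.29389 ≤ c5 * s5 ∧
    c5 * s5 ≤ 0.2939 := by
  have a1 := c5_gt
  have a2 := c5_lt
  have a3 := s5_gt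
  have a4 := s5_lt
  have q1 : |(c5 - 0.309017) * (s5 - 0.951057)| ≤ 0.00000025 * 0.000001 :=
    abs_mul_le' (by rw [abs_le]; constructor <;> linarith)
      (by rw [abs_le]; constructor <;> linarith)
  have q1' := abs_le.1 q1
  refine ⟨?_, ?_, ?_, ?_⟩ <;> linarith [q1'.1, q1'.2]

lemma sub_mul_le {a b c δ κ : ℝ} (h1 : |a - b| ≤ δ) (h2 : |c| ≤ κ) :
    b * c - δ * κ ≤ a * c ∧ a * c ≤ b * c + δ * κ := by
  have h := abs_le.1 (abs_mul_le' h1 h2)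
  have e : (a - b) * c = a * c - b * c := by ring
  rw [e] at h
  constructor <;> linarith [h.1, h.2]

lemma hi_EF (X Y Z : ℝ)
    (p1 : X * Y ≤ 0.0204) (p2 : -0.0544 ≤ X * Y) (p3 : X ^ 2 ≤ 0.0064) (p4 : 0 ≤ X ^ 2)
    (p5 : 0.25 ≤ Y ^ 2) (p6 : Y ^ 2 ≤ 0.4624) (p7 : 0.7288 ≤ Z) (p8 : Z ≤ 0.8661)
    (p9 : 0.9055 * Z < 0.786 - 0.4775 * X ^ 2 + 0.657 * (X * Y)) (E F : ℝ)
    (hE : E = 1 - c5 + c5 ^ 2 + (1 - c5) * s5 * (X * Y) - (1 - c5) ^ 2 * X ^ 2 - s5 ^ 2 * Z)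
    (hF : F = c5 * s5 + (1 - c5) * s5 * Y ^ 2 - (1 - c5) ^ 2 * (X * Y) - (1 - c5) * s5 * Z) :
    0 < E ∧ E ≤ 0.142 ∧ F ≤ 0.146 ∧ -0.146 ≤ F := by
  have a1 := c5_gt
  have a2 := c5_lt
  have e1 := c5_sq
  have e2 := s5_sq'
  obtain ⟨hB1, hB2, hQ1, hQ2⟩ := hi_const
  have hD : (1 - c5) ^ 2 = 5 / 4 - 5 / 2 * c5 := by
    have : (1 - c5) ^ 2 = 1 - 2 * c5 + c5 ^ 2 := by ring
    rw [this, e1]; ring
  rw [hD, e1, e2] at hE
  rw [hD] at hF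
  obtain ⟨B, hB⟩ : ∃ B, B = (1 - c5) * s5 := ⟨_, rfl⟩
  obtain ⟨Q, hQ⟩ : ∃ Q, Q = c5 * s5 := ⟨_, rfl⟩
  rw [← hB] at hE hF hB1 hB2
  rw [← hQ] at hF hQ1 hQ2
  have cB : |B - 0.657165| ≤ 0.000005 := by rw [abs_le]; constructor <;> linarith
  have cD : |(5 / 4 - 5 / 2 * c5) - 0.477475| ≤ 0.000025 := by
    rw [abs_le]; constructor <;> linarith
  have cG : |(3 + 2 * c5) / 4 - 0.904505| ≤ 0.000005 := by
    rw [abs_le]; constructor <;> linarith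
  have cXY : |X * Y| ≤ 0.0544 := by rw [abs_le]; constructor <;> linarith
  have cX : |X ^ 2| ≤ 0.0064 := by rw [abs_le]; constructor <;> linarith
  have cY : |Y ^ 2| ≤ 0.4624 := by rw [abs_le]; constructor <;> linarith
  have cZ : |Z| ≤ 0.8661 := by rw [abs_le]; constructor <;> linarith
  have r1 := sub_mul_le cB cXY
  have r2 := sub_mul_le cD cX
  have r3 := sub_mul_le cG cZ
  have r4 := sub_mul_le cB cY
  have r5 := sub_mul_le cD cXY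
  have r6 := sub_mul_le cB cZ
  rw [hE, hF]
  clear hE hF hB hQ cB cD cG cXY cX cY cZ e1 e2 hD
  refine ⟨?_, ?_, ?_, ?_⟩
  · linarith [r1.1, r2.2, r3.2]
  · linarith [r1.2, r2.1, r3.1]
  · linarith [r4.2, r5.1, r6.1]
  · linarith [r4.1, r5.2, r6.2]

/-- The end of the high regime, in terms of the coordinates of the axis. -/
lemma hi_end (μ X Y Z : ℝ) (hμ : 1.7 ≤ μ) (hμ2 : μ ≤ 2)
    (hb : X ^ 2 + Y ^ 2 + Z ^ 2 = 1) (hZ : 0 ≤ Z)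
    (h1 : -0.08 < X) (h2 : X < 0.03) (h3 : 0.5 < Y) (h4 : Y < 0.68)
    (h5 : 0.82 * (1 - X ^ 2 - Y ^ 2) < (0.786 - 0.4775 * X ^ 2 + 0.657 * X * Y) ^ 2) :
    0 < μ * (1 - c5 + c5 ^ 2 + (1 - c5) * s5 * (X * Y) - (1 - c5) ^ 2 * X ^ 2 - s5 ^ 2 * Z) ∧
    (μ * (1 - c5 + c5 ^ 2 + (1 - c5) * s5 * (X * Y) - (1 - c5) ^ 2 * X ^ 2 - s5 ^ 2 * Z)) ^ 2 +
    (μ * (c5 * s5 + (1 - c5) * s5 * Y ^ 2 - (1 - c5) ^ 2 * (X * Y) - (1 - c5) * s5 * Z)) ^ 2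
      ≤ 0.2 := by
  -- products
  have p1 : X * Y ≤ 0.0204 := by
    have := mul_nonneg (sub_nonneg.2 h2.le) (sub_nonneg.2 (show (0:ℝ) ≤ Y by linarith))
    nlinarith only [h2, h3, h4]
  have p2 : -0.0544 ≤ X * Y := by
    have := mul_nonneg (sub_nonneg.2 h1.le) (sub_nonneg.2 (show (0:ℝ) ≤ Y by linarith))
    nlinarith only [h4, this]
  have p3 : X ^ 2 ≤ 0.0064 := by
    have := mul_nonneg (sub_nonneg.2 h1.le) (show 0 ≤ 0.08 - X by linarith)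
    nlinarith only [this]
  have p4 : 0 ≤ X ^ 2 := sq_nonneg X
  have p5 : 0.25 ≤ Y ^ 2 := by
    have := pow_le_pow_left₀ (show (0:ℝ) ≤ 0.5 by norm_num) h3.le 2
    linarith
  have p6 : Y ^ 2 ≤ 0.4624 := by
    have := pow_le_pow_left₀ (show (0:ℝ) ≤ Y by linarith) h4.le 2
    linarith only [this]
  have p7 : 0.7288 ≤ Z := by
    apply le_of_sq_le_sq _ hZ
    linarith only [hb, p3, p6]
  have p8 : Z ≤ 0.8661 := by
    apply le_of_sq_le_sq _ (by norm_num)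
    linarith only [hb, p4, p5]
  have p9 : 0.9055 * Z < 0.786 - 0.4775 * X ^ 2 + 0.657 * (X * Y) := by
    have h6 : (0.9055 * Z) ^ 2 < (0.786 - 0.4775 * X ^ 2 + 0.657 * (X * Y)) ^ 2 := by
      have : (0.786 - 0.4775 * X ^ 2 + 0.657 * (X * Y)) = 0.786 - 0.4775 * X ^ 2 + 0.657 * X * Y := by
        ring
      rw [this]
      have h7 : (0.9055 * Z) ^ 2 = 0.81993025 * Z ^ 2 := by ring
      have h8 : Z ^ 2 = 1 - X ^ 2 - Y ^ 2 := by linarith only [hb]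
      rw [h7, h8]
      have : 0 ≤ 1 - X ^ 2 - Y ^ 2 := by rw [← h8]; positivity
      linarith only [h5, this]
    exact lt_of_pow_lt_pow_left₀ 2 (by linarith only [p2, p3]) h6
  obtain ⟨E, hE⟩ : ∃ E, E = 1 - c5 + c5 ^ 2 + (1 - c5) * s5 * (X * Y) - (1 - c5) ^ 2 * X ^ 2 -
    s5 ^ 2 * Z := ⟨_, rfl⟩
  obtain ⟨F, hF⟩ : ∃ F, F = c5 * s5 + (1 - c5) * s5 * Y ^ 2 - (1 - c5) ^ 2 * (X * Y) -
    (1 - c5) * s5 * Z := ⟨_, rfl⟩
  obtain ⟨hE0, hE1, hF1, hF2⟩ := hi_EF X Y Z p1 p2 p3 p4 p5 p6 p7 p8 p9 E F hE hF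
  rw [← hE, ← hF]
  clear hE hF p1 p2 p3 p4 p5 p6 p7 p8 p9 h1 h2 h3 h4 h5 hb hZ
  refine ⟨by positivity, ?_⟩
  have s1 : E ^ 2 ≤ 0.0202 := by nlinarith
  have s2 : F ^ 2 ≤ 0.0214 := by nlinarith
  have s3 : μ ^ 2 ≤ 4 := by nlinarith
  have s4 : 0 ≤ E ^ 2 := sq_nonneg E
  have s5 : 0 ≤ F ^ 2 := sq_nonneg F
  have s6 : (μ * E) ^ 2 + (μ * F) ^ 2 = μ ^ 2 * (E ^ 2 + F ^ 2) := by ring
  rw [s6]
  have s7 : 0 ≤ (4 - μ ^ 2) * (E ^ 2 + F ^ 2) := by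
    apply mul_nonneg <;> linarith
  linarith

/-- Sizes at a point `p` of the covering ball. -/
lemma size_hc0 {p : E3} (hpc : dot (p - hc0) (p - hc0) ≤ 1) :
    dot p p ≤ 2 * dot hc0 p ∧ dot p p ≤ 4 := by
  have hP1 : dot p p ≤ 2 * dot hc0 p := by
    have e := dot_sub_self p hc0
    rw [dot_hc0, dot_comm p hc0] at e
    linarith
  refine ⟨hP1, ?_⟩
  have h1 := dot_sq_le hc0 p
  rw [dot_hc0, one_mul] at h1
  have h2 : dot hc0 p ≤ 2 := by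
    by_contra hcon
    push Not at hcon
    nlinarith
  linarith

lemma num_pos {μ : ℝ} (hμ : 1.7 ≤ μ) (h : μ * (μ * 1) ≤ 2 * (μ * (c5 + 1 / 2))) : False := by
  have a2 := c5_lt
  nlinarith

lemma num_line {μ q : ℝ} (hμ : 1.7 ≤ μ) (hμ2 : μ ≤ 2) (hq : q ≤ 2 * ((c5 + 1 / 2) * μ))
    (h : (1 - 1 / 1000000) * μ ^ 2 ≤ q ∨ 3.47 ≤ q) : False := by
  have a2 := c5_lt
  have h1 : 2 * ((c5 + 1 / 2) * μ) ≤ 1.6180341 * μ := by nlinarith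
  rcases h with h | h
  · nlinarith
  · linarith

/-- Coordinates of the axis `b` through `w_0`. -/
lemma hi_coord {μ N : ℝ} {p b : E3} (hbu : dot b b = 1) (hpb : p = μ • vec 1 0 0 + N • b)
    (hP1 : dot p p ≤ 2 * dot hc0 p) :
    N ^ 2 + 2 * N * (b 0 * (μ - (c5 + 1 / 2)) - b 1 * (2 * c5 * s5)) + μ ^ 2 -
      2 * (c5 + 1 / 2) * μ ≤ 0 ∧
    p 0 ^ 2 + p 1 ^ 2 = μ ^ 2 + 2 * μ * N * b 0 + N ^ 2 * (b 0 ^ 2 + b 1 ^ 2) := by
  have p0 : p 0 = μ + N * b 0 := by rw [hpb]; simp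
  have p1 : p 1 = N * b 1 := by rw [hpb]; simp
  have p2 : p 2 = N * b 2 := by rw [hpb]; simp
  have hbu' : b 0 ^ 2 + b 1 ^ 2 + b 2 ^ 2 = 1 := by
    have := hbu
    simp only [dot] at this
    linarith
  constructor
  · have e1 : dot p p = μ ^ 2 + 2 * μ * N * b 0 + N ^ 2 := by
      have : dot p p = p 0 ^ 2 + p 1 ^ 2 + p 2 ^ 2 := by simp only [dot]; ring
      rw [this, p0, p1, p2]
      linear_combination N ^ 2 * hbu'
    have e2 : dot hc0 p = (c5 + 1 / 2) * (μ + N * b 0) + 2 * c5 * s5 * (N * b 1) := by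
      simp only [dot, hc0, vec_0, vec_1, vec_2]
      rw [p0, p1]; ring
    rw [e1, e2] at hP1
    linarith
  · rw [p0, p1]; ring

/-- Distance of `w_1` from the axis. -/
lemma hi_rho {μ N : ℝ} {p b : E3} (hbu : dot b b = 1) (hpb : p = μ • vec 1 0 0 + N • b) :
    rho2 b (μ • vec c5 s5 0 - p) =
      μ ^ 2 * ((2 - 2 * c5) - (s5 * b 1 - (1 - c5) * b 0) ^ 2) := by
  have e4 : μ • vec c5 s5 0 - p = (μ • vec c5 s5 0 - μ • vec 1 0 0) - N • b := by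
    rw [hpb]; abel
  have e5 : dot b (μ • vec c5 s5 0 - μ • vec 1 0 0) = μ * (s5 * b 1 - (1 - c5) * b 0) := by
    simp only [dot, sub_0, sub_1, sub_2, smul_0, smul_1, smul_2, vec_0, vec_1, vec_2]
    ring
  have e6 : dot (μ • vec c5 s5 0 - μ • vec 1 0 0) (μ • vec c5 s5 0 - μ • vec 1 0 0) =
      μ ^ 2 * (2 - 2 * c5) := by
    simp only [dot, sub_0, sub_1, sub_2, smul_0, smul_1, smul_2, vec_0, vec_1, vec_2]
    linear_combination μ ^ 2 * c5_sq_add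
  rw [e4, rho2_sub_axis _ _ hbu, rho2, e6, e5]; ring

lemma hi_ne {μ N : ℝ} {p b : E3} (hμ : 1.7 ≤ μ) (hμ2 : μ ≤ 2) (hbu : dot b b = 1)
    (hpb : p = μ • vec 1 0 0 + N • b) (hP1 : dot p p ≤ 2 * dot hc0 p)
    (hp2 : (1 - 1 / 1000000) * μ ^ 2 ≤ p 0 ^ 2 + p 1 ^ 2 ∨ 3.47 ≤ p 0 ^ 2 + p 1 ^ 2) :
    rho2 b (μ • vec c5 s5 0 - p) ≠ 0 := by
  intro h0
  have e4 : μ • vec c5 s5 0 - p = (μ • vec c5 s5 0 - μ • vec 1 0 0) - N • b := by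
    rw [hpb]; abel
  have e6 : dot (μ • vec c5 s5 0 - μ • vec 1 0 0) (μ • vec c5 s5 0 - μ • vec 1 0 0) =
      μ ^ 2 * (2 - 2 * c5) := by
    simp only [dot, sub_0, sub_1, sub_2, smul_0, smul_1, smul_2, vec_0, vec_1, vec_2]
    linear_combination μ ^ 2 * c5_sq_add
  rw [e4, rho2_sub_axis _ _ hbu] at h0
  have f1 := (rho2_eq_zero hbu).1 h0
  have f2 : dot hc0 (μ • vec c5 s5 0 - μ • vec 1 0 0) = 0 := by
    rw [dot_sub_right, dot_smul_right, dot_smul_right, hc0_W0, hc0_W1]; ring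
  have f3 : dot b (μ • vec c5 s5 0 - μ • vec 1 0 0) ≠ 0 := by
    intro h1
    rw [h1, zero_smul] at f1
    rw [f1, dot_zero_left] at e6
    have a2 := c5_lt
    have : 0 < μ ^ 2 * (2 - 2 * c5) := by
      apply mul_pos
      · positivity
      · linarith
    linarith
  rw [f1, dot_smul_right] at f2
  have f4 : dot hc0 b = 0 := by
    rcases mul_eq_zero.1 f2 with h | h
    · exact absurd h f3
    · exact h
  have f5 : dot hc0 p = (c5 + 1 / 2) * μ := by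
    rw [hpb, dot_add_right, dot_smul_right, dot_smul_right, f4, hc0_W0]; ring
  rw [f5] at hP1
  have hpc2 : p 0 ^ 2 + p 1 ^ 2 ≤ dot p p := by
    simp only [dot]; nlinarith only []
  exact num_line hμ hμ2 (hpc2.trans hP1) hp2

lemma hi_k3' {μ t : ℝ} (hμ : 1.7 ≤ μ) (h : (1 - 1 / 1000000) * μ ^ 2 ≤ μ ^ 2 * ((2 - 2 * c5) - t)) :
    t ≤ 1 - 2 * c5 + 1 / 1000000 := by
  have hm : 0 < μ ^ 2 := by positivity
  have h2 : (1 - 1 / 1000000) ≤ ((2 - 2 * c5) - t) := by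
    rw [mul_comm] at h
    exact le_of_mul_le_mul_left h hm
  linarith

lemma hi_five {μ x y : ℝ} (hμ : 1.7 ≤ μ) (hx : x < 0.03) (hy : 0.5 < y) :
    0.78 * (μ ^ 2 * ((2 - 2 * c5) - (s5 * y - (1 - c5) * x) ^ 2)) < (1 - 1 / 1000000) * μ ^ 2 := by
  have a1 := c5_gt
  have a2 := c5_lt
  have a3 := s5_gt
  have ht : 0.45 ≤ s5 * y - (1 - c5) * x := by
    have h1 : 0.951056 * 0.5 ≤ s5 * y := by
      apply mul_le_mul a3.le hy.le (by norm_num) (by linarith)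
    have h2 : (1 - c5) * x ≤ (1 - c5) * 0.03 := by
      apply mul_le_mul_of_nonneg_left hx.le; linarith
    linarith
  have ht2 : 0.45 ^ 2 ≤ (s5 * y - (1 - c5) * x) ^ 2 := pow_le_pow_left₀ (by norm_num) ht 2
  obtain ⟨t, htt⟩ : ∃ t, t = (s5 * y - (1 - c5) * x) ^ 2 := ⟨_, rfl⟩
  rw [← htt] at ht2 ⊢
  have hm : 0 < μ ^ 2 := by positivity
  have : 0.78 * (μ ^ 2 * ((2 - 2 * c5) - t)) = μ ^ 2 * (0.78 * ((2 - 2 * c5) - t)) := by ring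
  rw [this, mul_comm (1 - 1 / 1000000) (μ ^ 2)]
  apply mul_lt_mul_of_pos_left _ hm
  linarith

end

end Pool.Agent.Lib.MP_c5a075_co
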