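import Pool.Agent.Lib.BoxPos.Front

/-! Box certificates for the high regime (generated with `bp.py`). -/

set_option autoImplicit false

namespace Pool.Agent.Lib.MP_c5a075_co

set_option maxRecDepth 1000000

open Pool.Agent.Lib.BoxPos in
/-- certificate of `hiYlo` -/
def hiYlo_tree : Tree :=
  (.drop 3 (.split 1 (.split 2 (.leaf [0, 3, 4]) (.split 2 (.split 1 (.leaf [4, 1, 1]) (.split 3 (.split 1 (.leaf [16, 1, 2]) (.split 3 (.split 1 (.leaf [128, 1, 1]) (.split 0 (.split 1 (.leaf [128, 1, 1]) (.split 3 (.leaf [0, 1]) (.leaf [32, 1, 1]))) (.leaf [0, 1]))) (.leaf [256, 1, 1]))) (.leaf [512, 1, 1]))) (.leaf [1]))) (.drop 2 (.split 3 (.split 2 (.leaf [0, 1]) (.split 2 (.drop 0 (.split 3 (.split 0 (.split 1 (.split 3 (.leaf [1]) (.leaf [1])) (.leaf [1])) (.leaf [1])) (.leaf [1]))) (.leaf [1]))) (.leaf [8192, 1])))))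

open Pool.Agent.Lib.BoxPos in
theorem hiYlo_check : checkE 150 1 [2, 2, 2, 2] [0, 2, 2, 0] [(170, 187, 100), (99, 301, 100), (99, 301, 100), (0, 201, 100)]
    [(.sub (.mul (.c 100) (.v 2)) (.c 50)),
    (.sub (.sub (.add (.add (.mul (.c 1000000) (.pow (.v 3) 2)) (.mul (.mul (.c 2) (.v 3)) (.sub (.mul (.v 1) (.sub (.mul (.c 1000000) (.v 0)) (.c 809017))) (.mul (.c 587785) (.v 2))))) (.mul (.c 1000000) (.pow (.v 0) 2))) (.mul (.c 1618034) (.v 0))) (.c 30)),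
    (.sub (.neg (.add (.mul (.mul (.mul (.c 2000000) (.v 0)) (.v 3)) (.v 1)) (.mul (.mul (.c 1000000) (.pow (.v 3) 2)) (.add (.pow (.v 1) 2) (.pow (.v 2) 2))))) (.c 6)),
    (.sub (.pow (.sub (.mul (.c 951057) (.v 2)) (.mul (.c 690983) (.v 1))) 2) (.c 381980000000))]
    hiYlo_tree = true := by decide +kernel

theorem hiYlo (m X Y n : ℝ) (hm : (170 / 100 : ℝ) ≤ m) (hm' : m < (187 / 100 : ℝ))
    (hX : (-101 / 100 : ℝ) ≤ X) (hX' : X < (101 / 100 : ℝ))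
    (hY : (-101 / 100 : ℝ) ≤ Y) (hY' : Y < (101 / 100 : ℝ))
    (hn : (0 / 100 : ℝ) ≤ n) (hn' : n < (201 / 100 : ℝ)) :
    0 < ((100 * Y) - 50) ∨
    0 < (((((1000000 * (n ^ 2)) + ((2 * n) * ((X * ((1000000 * m) - 809017)) - (587785 * Y)))) + (1000000 * (m ^ 2))) - (1618034 * m)) - 30) ∨
    0 < ((-((((2000000 * m) * n) * X) + ((1000000 * (n ^ 2)) * ((X ^ 2) + (Y ^ 2))))) - 6) ∨
    0 < ((((951057 * Y) - (690983 * X)) ^ 2) - 381980000000) := by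
  have h := Pool.Agent.Lib.BoxPos.main hiYlo_check (xs := [m, X, Y, n])
    ⟨(by norm_num; linarith), (by norm_num; linarith), (by norm_num; linarith), (by norm_num; linarith), (by norm_num; linarith), (by norm_num; linarith), (by norm_num; linarith), (by norm_num; linarith), trivial⟩
  simp only [Pool.Agent.Lib.BoxPos.Disj, Pool.Agent.Lib.BoxPos.E.ev, Pool.Agent.Lib.BoxPos.get,
    Nat.cast_ofNat, Nat.cast_one, Nat.cast_zero] at h
  exact h


open Pool.Agent.Lib.BoxPos in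
/-- certificate of `hiXlo` -/
def hiXlo_tree : Tree :=
  (.split 1 (.split 2 (.leaf [32, 1, 1]) (.split 2 (.drop 3 (.split 1 (.leaf [0, 1, 2]) (.split 3 (.split 1 (.leaf [0, 1, 2]) (.split 3 (.leaf [2048, 1, 1]) (.leaf [8192, 1, 1]))) (.leaf [1024, 1, 1])))) (.split 1 (.leaf [0, 0, 0, 1]) (.split 2 (.split 1 (.leaf [0, 0, 0, 1]) (.split 3 (.split 1 (.leaf [0, 4971507, 8388608, 5]) (.split 1 (.split 2 (.split 3 (.drop 3 (.split 0 (.leaf [2048, 1, 50]) (.leaf [0, 1]))) (.split 0 (.split 3 (.split 1 (.leaf [0, 0, 1]) (.split 1 (.split 3 (.leaf [0, 0, 1]) (.split 2 (.leaf [0, 0, 1]) (.split 2 (.leaf [4096, 1, 3]) (.leaf [0, 0, 0, 1])))) (.leaf [1]))) (.drop 0 (.drop 2 (.split 3 (.split 0 (.split 2 (.leaf [1]) (.split 1 (.leaf [1, 2]) (.leaf [1]))) (.leaf [1])) (.leaf [1]))))) (.leaf [0, 1]))) (.leaf [0, 0, 0, 1])) (.leaf [1]))) (.split 3 (.split 2 (.drop 3 (.split 3 (.leaf [16384, 1, 1])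 (.leaf [0, 1]))) (.drop 0 (.drop 1 (.split 1 (.leaf [0, 1]) (.leaf [1]))))) (.leaf [0, 1])))) (.leaf [0, 0, 0, 1]))))) (.leaf [1]))

open Pool.Agent.Lib.BoxPos in
theorem hiXlo_check : checkE 180 1 [2, 2, 2, 2] [0, 2, 2, 0] [(170, 187, 100), (99, 301, 100), (99, 301, 100), (0, 201, 100)]
    [(.add (.mul (.c 100) (.v 1)) (.c 8)),
    (.sub (.sub (.add (.add (.mul (.c 1000000) (.pow (.v 3) 2)) (.mul (.mul (.c 2) (.v 3)) (.sub (.mul (.v 1) (.sub (.mul (.c 1000000) (.v 0)) (.c 809017))) (.mul (.c 587785) (.v 2))))) (.mul (.c 1000000) (.pow (.v 0) 2))) (.mul (.c 1618034) (.v 0))) (.c 30)),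
    (.sub (.neg (.add (.mul (.mul (.mul (.c 2000000) (.v 0)) (.v 3)) (.v 1)) (.mul (.mul (.c 1000000) (.pow (.v 3) 2)) (.add (.pow (.v 1) 2) (.pow (.v 2) 2))))) (.c 6)),
    (.sub (.pow (.sub (.mul (.c 951057) (.v 2)) (.mul (.c 690983) (.v 1))) 2) (.c 381980000000))]
    hiXlo_tree = true := by decide +kernel

theorem hiXlo (m X Y n : ℝ) (hm : (170 / 100 : ℝ) ≤ m) (hm' : m < (187 / 100 : ℝ))
    (hX : (-101 / 100 : ℝ) ≤ X) (hX' : X < (101 / 100 : ℝ))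
    (hY : (-101 / 100 : ℝ) ≤ Y) (hY' : Y < (101 / 100 : ℝ))
    (hn : (0 / 100 : ℝ) ≤ n) (hn' : n < (201 / 100 : ℝ)) :
    0 < ((100 * X) + 8) ∨
    0 < (((((1000000 * (n ^ 2)) + ((2 * n) * ((X * ((1000000 * m) - 809017)) - (587785 * Y)))) + (1000000 * (m ^ 2))) - (1618034 * m)) - 30) ∨
    0 < ((-((((2000000 * m) * n) * X) + ((1000000 * (n ^ 2)) * ((X ^ 2) + (Y ^ 2))))) - 6) ∨
    0 < ((((951057 * Y) - (690983 * X)) ^ 2) - 381980000000) := by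
  have h := Pool.Agent.Lib.BoxPos.main hiXlo_check (xs := [m, X, Y, n])
    ⟨(by norm_num; linarith), (by norm_num; linarith), (by norm_num; linarith), (by norm_num; linarith), (by norm_num; linarith), (by norm_num; linarith), (by norm_num; linarith), (by norm_num; linarith), trivial⟩
  simp only [Pool.Agent.Lib.BoxPos.Disj, Pool.Agent.Lib.BoxPos.E.ev, Pool.Agent.Lib.BoxPos.get,
    Nat.cast_ofNat, Nat.cast_one, Nat.cast_zero] at h
  exact h


open Pool.Agent.Lib.BoxPos in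
/-- certificate of `hiXhi` -/
def hiXhi_tree : Tree :=
  (.drop 2 (.split 1 (.leaf [1]) (.split 3 (.split 2 (.leaf [0, 1]) (.split 3 (.split 1 (.split 2 (.drop 0 (.drop 1 (.split 0 (.split 3 (.leaf [1]) (.leaf [1])) (.leaf [1])))) (.split 1 (.split 2 (.split 0 (.split 0 (.split 3 (.split 3 (.leaf [0, 1]) (.split 1 (.split 0 (.split 2 (.leaf [0, 1]) (.split 3 (.leaf [0, 1]) (.split 1 (.split 2 (.leaf [2048, 1]) (.drop 0 (.split 2 (.split 1 (.leaf [0, 1]) (.leaf [1])) (.leaf [0, 1])))) (.leaf [0, 1])))) (.leaf [0, 1])) (.leaf [0, 1]))) (.split 1 (.split 2 (.leaf [16384, 3]) (.split 1 (.split 2 (.split 1 (.split 1 (.leaf [1]) (.split 1 (.leaf [1]) (.split 1 (.leaf [1]) (.split 1 (.leaf [1]) (.drop 0 (.split 0 (.split 3 (.split 0 (.split 2 (.leaf [1]) (.split 2 (.leaf [1]) (.leaf [0, 1]))) (.leaf [1])) (.split 0 (.split 2 (.leaf [1]) (.split 2 (.leaf [1]) (.leaf [0, 1]))) (.leaf [1]))) (.leaf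 [1]))))))) (.drop 0 (.split 0 (.split 3 (.leaf [4194304, 1]) (.leaf [2097152, 1])) (.leaf [1])))) (.drop 0 (.split 2 (.split 1 (.leaf [0, 1]) (.split 2 (.split 1 (.leaf [0, 1]) (.split 2 (.split 1 (.leaf [0, 1]) (.split 2 (.split 1 (.leaf [0, 1]) (.drop 1 (.split 3 (.leaf [1]) (.leaf [1])))) (.leaf [0, 1]))) (.leaf [0, 1]))) (.leaf [0, 1]))) (.leaf [0, 1])))) (.drop 0 (.split 0 (.split 3 (.leaf [4194304, 1]) (.leaf [2097152, 1])) (.leaf [1]))))) (.leaf [0, 1]))) (.drop 0 (.drop 1 (.split 3 (.leaf [1]) (.leaf [1]))))) (.leaf [0, 1])) (.drop 0 (.split 2 (.split 1 (.leaf [0, 1]) (.split 0 (.split 3 (.leaf [8388608, 1]) (.leaf [1048576, 1])) (.leaf [1]))) (.leaf [0, 1])))) (.drop 0 (.split 0 (.split 3 (.leaf [1]) (.leaf [4194304, 1])) (.leaf [1]))))) (.leaf [0, 1])) (.split 1 (.split 2 (.leaf [0, 1]) (.split 1 (.split 2 (.split 0 (.split 1 (.split 3 (.split 0 (.split 2 (.leaf [0, 1]) (.split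 1 (.split 2 (.leaf [8192, 1]) (.drop 0 (.split 2 (.split 1 (.leaf [0, 1]) (.leaf [131072, 1])) (.leaf [0, 1])))) (.leaf [0, 1]))) (.leaf [0, 1])) (.leaf [0, 1])) (.leaf [0, 1])) (.leaf [0, 1])) (.drop 0 (.split 2 (.split 1 (.leaf [0, 1]) (.leaf [1048576, 1])) (.leaf [0, 1])))) (.leaf [0, 1]))) (.leaf [0, 1])))) (.drop 0 (.split 2 (.leaf [1]) (.split 1 (.split 3 (.split 2 (.leaf [1]) (.split 1 (.split 2 (.leaf [1]) (.split 2 (.leaf [1]) (.leaf [0, 1]))) (.leaf [1]))) (.leaf [1])) (.leaf [1])))))))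

open Pool.Agent.Lib.BoxPos in
theorem hiXhi_check : checkE 190 1 [2, 2, 2, 2] [0, 2, 2, 0] [(170, 187, 100), (99, 301, 100), (99, 301, 100), (0, 201, 100)]
    [(.sub (.c 3) (.mul (.c 100) (.v 1))),
    (.sub (.sub (.add (.add (.mul (.c 1000000) (.pow (.v 3) 2)) (.mul (.mul (.c 2) (.v 3)) (.sub (.mul (.v 1) (.sub (.mul (.c 1000000) (.v 0)) (.c 809017))) (.mul (.c 587785) (.v 2))))) (.mul (.c 1000000) (.pow (.v 0) 2))) (.mul (.c 1618034) (.v 0))) (.c 30)),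
    (.sub (.neg (.add (.mul (.mul (.mul (.c 2000000) (.v 0)) (.v 3)) (.v 1)) (.mul (.mul (.c 1000000) (.pow (.v 3) 2)) (.add (.pow (.v 1) 2) (.pow (.v 2) 2))))) (.c 6)),
    (.sub (.pow (.sub (.mul (.c 951057) (.v 2)) (.mul (.c 690983) (.v 1))) 2) (.c 381980000000))]
    hiXhi_tree = true := by decide +kernel

theorem hiXhi (m X Y n : ℝ) (hm : (170 / 100 : ℝ) ≤ m) (hm' : m < (187 / 100 : ℝ))
    (hX : (-101 / 100 : ℝ) ≤ X) (hX' : X < (101 / 100 : ℝ))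
    (hY : (-101 / 100 : ℝ) ≤ Y) (hY' : Y < (101 / 100 : ℝ))
    (hn : (0 / 100 : ℝ) ≤ n) (hn' : n < (201 / 100 : ℝ)) :
    0 < (3 - (100 * X)) ∨
    0 < (((((1000000 * (n ^ 2)) + ((2 * n) * ((X * ((1000000 * m) - 809017)) - (587785 * Y)))) + (1000000 * (m ^ 2))) - (1618034 * m)) - 30) ∨
    0 < ((-((((2000000 * m) * n) * X) + ((1000000 * (n ^ 2)) * ((X ^ 2) + (Y ^ 2))))) - 6) ∨
    0 < ((((951057 * Y) - (690983 * X)) ^ 2) - 381980000000) := by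
  have h := Pool.Agent.Lib.BoxPos.main hiXhi_check (xs := [m, X, Y, n])
    ⟨(by norm_num; linarith), (by norm_num; linarith), (by norm_num; linarith), (by norm_num; linarith), (by norm_num; linarith), (by norm_num; linarith), (by norm_num; linarith), (by norm_num; linarith), trivial⟩
  simp only [Pool.Agent.Lib.BoxPos.Disj, Pool.Agent.Lib.BoxPos.E.ev, Pool.Agent.Lib.BoxPos.get,
    Nat.cast_ofNat, Nat.cast_one, Nat.cast_zero] at h
  exact h


open Pool.Agent.Lib.BoxPos in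
/-- certificate of `hiYhi` -/
def hiYhi_tree : Tree :=
  (.drop 2 (.split 2 (.leaf [1]) (.split 2 (.leaf [1]) (.split 1 (.drop 1 (.split 1 (.leaf [0, 1]) (.split 2 (.split 2 (.leaf [1]) (.split 1 (.leaf [0, 1]) (.split 1 (.leaf [0, 1]) (.split 2 (.split 2 (.leaf [1]) (.leaf [0, 1])) (.leaf [0, 1]))))) (.leaf [0, 1])))) (.split 3 (.split 3 (.split 1 (.split 1 (.split 2 (.split 2 (.leaf [1]) (.split 0 (.split 0 (.split 3 (.split 3 (.leaf [0, 1]) (.split 1 (.split 0 (.split 3 (.leaf [0, 1]) (.split 1 (.split 2 (.split 2 (.leaf [1]) (.split 0 (.split 1 (.drop 1 (.split 2 (.leaf [1]) (.leaf [0, 1]))) (.leaf [0, 1])) (.leaf [0, 1]))) (.leaf [0, 1048576, 1])) (.leaf [0, 1]))) (.leaf [0, 1])) (.leaf [0, 1]))) (.split 1 (.split 1 (.split 2 (.split 2 (.leaf [1]) (.split 2 (.leaf [1]) (.drop 0 (.split 1 (.leaf [0, 1]) (.split 0 (.split 3 (.split 0 (.split 0 (.split 1 (.split 2 (.split 1 (.leaf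 [0, 1]) (.leaf [1])) (.leaf [0, 1])) (.leaf [1])) (.leaf [1])) (.leaf [1])) (.split 0 (.split 1 (.split 2 (.split 0 (.split 1 (.leaf [0, 1]) (.leaf [1])) (.leaf [1])) (.leaf [0, 1])) (.leaf [1])) (.leaf [1]))) (.leaf [1])))))) (.drop 0 (.split 2 (.split 1 (.leaf [0, 1]) (.split 2 (.split 1 (.leaf [0, 1]) (.split 2 (.split 1 (.leaf [0, 1]) (.split 2 (.split 1 (.leaf [0, 1]) (.drop 1 (.split 3 (.leaf [1]) (.leaf [1])))) (.leaf [0, 1]))) (.leaf [0, 1]))) (.leaf [0, 1]))) (.leaf [0, 1])))) (.drop 0 (.split 0 (.split 3 (.split 2 (.leaf [1]) (.leaf [2097152, 1])) (.split 2 (.leaf [1]) (.leaf [1048576, 1]))) (.leaf [1])))) (.leaf [0, 1]))) (.drop 0 (.drop 1 (.split 3 (.leaf [1]) (.leaf [1]))))) (.leaf [0, 1]))) (.drop 0 (.split 2 (.split 1 (.leaf [0, 1]) (.split 0 (.split 3 (.leaf [8388608, 1]) (.leaf [1048576, 1])) (.leaf [1]))) (.leaf [0, 1])))) (.drop 0 (.split 0 (.split 3 (.leaf [1]) (.split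 2 (.leaf [1]) (.leaf [2097152, 1]))) (.leaf [1])))) (.leaf [0, 1])) (.split 1 (.split 1 (.split 2 (.split 2 (.leaf [1]) (.split 0 (.split 1 (.split 3 (.split 0 (.split 1 (.split 2 (.split 2 (.leaf [1]) (.split 2 (.leaf [1]) (.drop 0 (.split 1 (.leaf [0, 1]) (.leaf [1]))))) (.leaf [0, 524288, 1])) (.leaf [0, 1])) (.leaf [0, 1])) (.leaf [0, 1])) (.leaf [0, 1])) (.leaf [0, 1]))) (.leaf [0, 1048576, 1])) (.leaf [0, 1])) (.leaf [0, 1]))) (.drop 0 (.split 1 (.split 3 (.split 1 (.split 2 (.leaf [1]) (.leaf [131072, 1])) (.leaf [1])) (.leaf [1])) (.leaf [1]))))))))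

open Pool.Agent.Lib.BoxPos in
theorem hiYhi_check : checkE 190 1 [2, 2, 2, 2] [0, 2, 2, 0] [(170, 187, 100), (99, 301, 100), (99, 301, 100), (0, 201, 100)]
    [(.sub (.c 68) (.mul (.c 100) (.v 2))),
    (.sub (.sub (.add (.add (.mul (.c 1000000) (.pow (.v 3) 2)) (.mul (.mul (.c 2) (.v 3)) (.sub (.mul (.v 1) (.sub (.mul (.c 1000000) (.v 0)) (.c 809017))) (.mul (.c 587785) (.v 2))))) (.mul (.c 1000000) (.pow (.v 0) 2))) (.mul (.c 1618034) (.v 0))) (.c 30)),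
    (.sub (.neg (.add (.mul (.mul (.mul (.c 2000000) (.v 0)) (.v 3)) (.v 1)) (.mul (.mul (.c 1000000) (.pow (.v 3) 2)) (.add (.pow (.v 1) 2) (.pow (.v 2) 2))))) (.c 6)),
    (.sub (.pow (.sub (.mul (.c 951057) (.v 2)) (.mul (.c 690983) (.v 1))) 2) (.c 381980000000))]
    hiYhi_tree = true := by decide +kernel

theorem hiYhi (m X Y n : ℝ) (hm : (170 / 100 : ℝ) ≤ m) (hm' : m < (187 / 100 : ℝ))
    (hX : (-101 / 100 : ℝ) ≤ X) (hX' : X < (101 / 100 : ℝ))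
    (hY : (-101 / 100 : ℝ) ≤ Y) (hY' : Y < (101 / 100 : ℝ))
    (hn : (0 / 100 : ℝ) ≤ n) (hn' : n < (201 / 100 : ℝ)) :
    0 < (68 - (100 * Y)) ∨
    0 < (((((1000000 * (n ^ 2)) + ((2 * n) * ((X * ((1000000 * m) - 809017)) - (587785 * Y)))) + (1000000 * (m ^ 2))) - (1618034 * m)) - 30) ∨
    0 < ((-((((2000000 * m) * n) * X) + ((1000000 * (n ^ 2)) * ((X ^ 2) + (Y ^ 2))))) - 6) ∨
    0 < ((((951057 * Y) - (690983 * X)) ^ 2) - 381980000000) := by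
  have h := Pool.Agent.Lib.BoxPos.main hiYhi_check (xs := [m, X, Y, n])
    ⟨(by norm_num; linarith), (by norm_num; linarith), (by norm_num; linarith), (by norm_num; linarith), (by norm_num; linarith), (by norm_num; linarith), (by norm_num; linarith), (by norm_num; linarith), trivial⟩
  simp only [Pool.Agent.Lib.BoxPos.Disj, Pool.Agent.Lib.BoxPos.E.ev, Pool.Agent.Lib.BoxPos.get,
    Nat.cast_ofNat, Nat.cast_one, Nat.cast_zero] at h
  exact h


open Pool.Agent.Lib.BoxPos in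
/-- certificate of `hiP1` -/
def hiP1_tree : Tree :=
  (.split 1 (.split 2 (.leaf [0, 2, 2]) (.split 2 (.drop 0 (.drop 2 (.split 1 (.leaf [1, 2]) (.split 3 (.split 1 (.leaf [1, 2]) (.split 3 (.split 1 (.leaf [1, 2]) (.split 0 (.split 1 (.leaf [1, 2]) (.split 3 (.leaf [1]) (.leaf [2, 2]))) (.leaf [1]))) (.leaf [2, 2]))) (.leaf [2, 2]))))) (.split 1 (.leaf [0, 0, 0, 1]) (.split 2 (.split 1 (.leaf [0, 0, 0, 1]) (.split 3 (.split 1 (.leaf [1, 1500631, 4194304, 2]) (.drop 3 (.split 2 (.split 3 (.leaf [1, 681765, 1048576]) (.leaf [1, 479318, 524288])) (.leaf [1])))) (.leaf [1, 262144, 207972]))) (.leaf [0, 0, 0, 1]))))) (.split 3 (.drop 2 (.drop 2 (.split 2 (.leaf [0, 1]) (.split 2 (.drop 0 (.split 3 (.split 0 (.split 1 (.split 3 (.leaf [1]) (.leaf [1])) (.leaf [1])) (.leaf [1])) (.leaf [1]))) (.leaf [1]))))) (.leaf [0, 2097152, 359346, 1])))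

open Pool.Agent.Lib.BoxPos in
theorem hiP1_check : checkE 195 1 [2, 4, 2, 2] [0, 2, 2, 0] [(170, 187, 100), (99, 301, 100), (99, 301, 100), (0, 201, 100)]
    [(.sub (.pow (.add (.sub (.c 786000) (.mul (.c 477500) (.pow (.v 1) 2))) (.mul (.mul (.c 657000) (.v 1)) (.v 2))) 2) (.mul (.c 820000000000) (.sub (.sub (.c 1) (.pow (.v 1) 2)) (.pow (.v 2) 2)))),
    (.sub (.sub (.add (.add (.mul (.c 1000000) (.pow (.v 3) 2)) (.mul (.mul (.c 2) (.v 3)) (.sub (.mul (.v 1) (.sub (.mul (.c 1000000) (.v 0)) (.c 809017))) (.mul (.c 587785) (.v 2))))) (.mul (.c 1000000) (.pow (.v 0) 2))) (.mul (.c 1618034) (.v 0))) (.c 30)),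
    (.sub (.neg (.add (.mul (.mul (.mul (.c 2000000) (.v 0)) (.v 3)) (.v 1)) (.mul (.mul (.c 1000000) (.pow (.v 3) 2)) (.add (.pow (.v 1) 2) (.pow (.v 2) 2))))) (.c 6)),
    (.sub (.pow (.sub (.mul (.c 951057) (.v 2)) (.mul (.c 690983) (.v 1))) 2) (.c 381980000000))]
    hiP1_tree = true := by decide +kernel

theorem hiP1 (m X Y n : ℝ) (hm : (170 / 100 : ℝ) ≤ m) (hm' : m < (187 / 100 : ℝ))
    (hX : (-101 / 100 : ℝ) ≤ X) (hX' : X < (101 / 100 : ℝ))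
    (hY : (-101 / 100 : ℝ) ≤ Y) (hY' : Y < (101 / 100 : ℝ))
    (hn : (0 / 100 : ℝ) ≤ n) (hn' : n < (201 / 100 : ℝ)) :
    0 < ((((786000 - (477500 * (X ^ 2))) + ((657000 * X) * Y)) ^ 2) - (820000000000 * ((1 - (X ^ 2)) - (Y ^ 2)))) ∨
    0 < (((((1000000 * (n ^ 2)) + ((2 * n) * ((X * ((1000000 * m) - 809017)) - (587785 * Y)))) + (1000000 * (m ^ 2))) - (1618034 * m)) - 30) ∨
    0 < ((-((((2000000 * m) * n) * X) + ((1000000 * (n ^ 2)) * ((X ^ 2) + (Y ^ 2))))) - 6) ∨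
    0 < ((((951057 * Y) - (690983 * X)) ^ 2) - 381980000000) := by
  have h := Pool.Agent.Lib.BoxPos.main hiP1_check (xs := [m, X, Y, n])
    ⟨(by norm_num; linarith), (by norm_num; linarith), (by norm_num; linarith), (by norm_num; linarith), (by norm_num; linarith), (by norm_num; linarith), (by norm_num; linarith), (by norm_num; linarith), trivial⟩
  simp only [Pool.Agent.Lib.BoxPos.Disj, Pool.Agent.Lib.BoxPos.E.ev, Pool.Agent.Lib.BoxPos.get,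
    Nat.cast_ofNat, Nat.cast_one, Nat.cast_zero] at h
  exact h


open Pool.Agent.Lib.BoxPos in
/-- certificate of `hiB` -/
def hiB_tree : Tree :=
  (.split 1 (.split 2 (.leaf [1, 8192]) (.split 2 (.drop 2 (.split 1 (.leaf [1, 8192]) (.split 3 (.leaf [1, 4096]) (.leaf [1, 2048])))) (.split 1 (.leaf [0, 0, 1]) (.split 2 (.split 1 (.leaf [0, 0, 1]) (.split 3 (.split 3 (.drop 2 (.split 3 (.leaf [1]) (.split 0 (.leaf [1, 512]) (.leaf [1])))) (.split 1 (.split 2 (.drop 2 (.split 0 (.leaf [1, 8192]) (.leaf [1]))) (.leaf [0, 0, 1])) (.leaf [1]))) (.leaf [1]))) (.leaf [0, 0, 1]))))) (.drop 1 (.split 3 (.split 2 (.leaf [1]) (.leaf [8388608, 3])) (.leaf [1]))))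

open Pool.Agent.Lib.BoxPos in
theorem hiB_check : checkE 159 1 [2, 2, 2, 2] [0, 2, 2, 0] [(186, 201, 100), (99, 301, 100), (99, 301, 100), (0, 201, 100)]
    [(.sub (.sub (.add (.add (.mul (.c 1000000) (.pow (.v 3) 2)) (.mul (.mul (.c 2) (.v 3)) (.sub (.mul (.v 1) (.sub (.mul (.c 1000000) (.v 0)) (.c 809017))) (.mul (.c 587785) (.v 2))))) (.mul (.c 1000000) (.pow (.v 0) 2))) (.mul (.c 1618034) (.v 0))) (.c 30)),
    (.add (.mul (.neg (.add (.add (.pow (.v 0) 2) (.mul (.mul (.mul (.c 2) (.v 0)) (.v 3)) (.v 1))) (.mul (.pow (.v 3) 2) (.add (.pow (.v 1) 2) (.pow (.v 2) 2))))) (.c 100)) (.c 345)),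
    (.sub (.pow (.sub (.mul (.c 951057) (.v 2)) (.mul (.c 690983) (.v 1))) 2) (.c 381980000000))]
    hiB_tree = true := by decide +kernel

theorem hiB (m X Y n : ℝ) (hm : (186 / 100 : ℝ) ≤ m) (hm' : m < (201 / 100 : ℝ))
    (hX : (-101 / 100 : ℝ) ≤ X) (hX' : X < (101 / 100 : ℝ))
    (hY : (-101 / 100 : ℝ) ≤ Y) (hY' : Y < (101 / 100 : ℝ))
    (hn : (0 / 100 : ℝ) ≤ n) (hn' : n < (201 / 100 : ℝ)) :
    0 < (((((1000000 * (n ^ 2)) + ((2 * n) * ((X * ((1000000 * m) - 809017)) - (587785 * Y)))) + (1000000 * (m ^ 2))) - (1618034 * m)) - 30) ∨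
    0 < (((-(((m ^ 2) + (((2 * m) * n) * X)) + ((n ^ 2) * ((X ^ 2) + (Y ^ 2))))) * 100) + 345) ∨
    0 < ((((951057 * Y) - (690983 * X)) ^ 2) - 381980000000) := by
  have h := Pool.Agent.Lib.BoxPos.main hiB_check (xs := [m, X, Y, n])
    ⟨(by norm_num; linarith), (by norm_num; linarith), (by norm_num; linarith), (by norm_num; linarith), (by norm_num; linarith), (by norm_num; linarith), (by norm_num; linarith), (by norm_num; linarith), trivial⟩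
  simp only [Pool.Agent.Lib.BoxPos.Disj, Pool.Agent.Lib.BoxPos.E.ev, Pool.Agent.Lib.BoxPos.get,
    Nat.cast_ofNat, Nat.cast_one, Nat.cast_zero] at h
  exact h


end Pool.Agent.Lib.MP_c5a075_co
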