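import Pool.Agent.Lib.MP_c5a075_co.TubeX
import Pool.Agent.Lib.MP_c5a075_co.HighCert

/-! The high regime: the numerical core. -/

set_option autoImplicit false

namespace Pool.Agent.Lib.MP_c5a075_co

noncomputable section

open Real

lemma hi_k1 (μ X Y n : ℝ) (hμ : 1.7 ≤ μ) (hXY : X ^ 2 + Y ^ 2 ≤ 1) (hn : 0 < n)
    (hn2 : n ≤ 2)
    (h1 : n ^ 2 + 2 * n * (X * (μ - (c5 + 1 / 2)) - Y * (2 * c5 * s5)) + μ ^ 2 -
      2 * (c5 + 1 / 2) * μ ≤ 0) :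
    1000000 * n ^ 2 + 2 * n * (X * (1000000 * μ - 809017) - 587785 * Y) +
      1000000 * μ ^ 2 - 1618034 * μ - 30 ≤ 0 := by
  have a1 := c5_gt
  have a2 := c5_lt
  have a3 := s5_gt
  have a4 := s5_lt
  obtain ⟨hX, hY⟩ := abs_le_one_of_sq hXY
  have hn' : |n| ≤ 2 := by rw [abs_of_pos hn]; exact hn2
  have hnX : |n * X| ≤ 2 * 1 := abs_mul_le' hn' hX
  have hnY : |n * Y| ≤ 2 * 1 := abs_mul_le' hn' hY
  have e1 : |(n * X) * ((c5 + 1 / 2) - 0.809017)| ≤ (2 * 1) * 0.00000025 :=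
    abs_mul_le' hnX (by rw [abs_le]; constructor <;> linarith)
  have hS : |2 * c5 * s5 - 0.587785| ≤ 0.000001 := by
    have q1 : |(c5 - 0.309017) * (s5 - 0.951057)| ≤ 0.00000025 * 0.000001 :=
      abs_mul_le' (by rw [abs_le]; constructor <;> linarith) (by rw [abs_le]; constructor <;> linarith)
    have q1' := abs_le.1 q1
    rw [abs_le]; constructor <;> linarith [q1'.1, q1'.2]
  have e2 : |(n * Y) * (2 * c5 * s5 - 0.587785)| ≤ (2 * 1) * 0.000001 := abs_mul_le' hnY hS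
  have e1' := abs_le.1 e1
  have e2' := abs_le.1 e2
  have e3 : 1000000 * n ^ 2 + 2 * n * (X * (1000000 * μ - 809017) - 587785 * Y) +
    1000000 * μ ^ 2 - 1618034 * μ - 30 = 1000000 * (n ^ 2 + 2 * n * (X * (μ - (c5 + 1 / 2)) -
    Y * (2 * c5 * s5)) + μ ^ 2 - 2 * (c5 + 1 / 2) * μ) +
    2000000 * ((n * X) * ((c5 + 1 / 2) - 0.809017)) +
    2000000 * ((n * Y) * (2 * c5 * s5 - 0.587785)) +
    1000000 * (2 * (c5 + 1 / 2) - 1.618034) * μ - 30 := by ring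
  rw [e3]
  have e4 : (2 * (c5 + 1 / 2) - 1.618034) * μ ≤ 0 := by
    apply mul_nonpos_of_nonpos_of_nonneg <;> linarith
  linarith [e1'.2, e2'.2]

lemma hi_k3 (X Y : ℝ) (hXY : X ^ 2 + Y ^ 2 ≤ 1)
    (h3 : (s5 * Y - (1 - c5) * X) ^ 2 ≤ 1 - 2 * c5 + 1 / 1000000) :
    (951057 * Y - 690983 * X) ^ 2 - 381980000000 ≤ 0 := by
  have a1 := c5_gt
  have a2 := c5_lt
  have a3 := s5_gt
  have a4 := s5_lt
  obtain ⟨hX, hY⟩ := abs_le_one_of_sq hXY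
  obtain ⟨t, ht⟩ : ∃ t, t = s5 * Y - (1 - c5) * X := ⟨_, rfl⟩
  obtain ⟨d, hd⟩ : ∃ d, d = (0.951057 * Y - 0.690983 * X) - t := ⟨_, rfl⟩
  have d1 : |Y * (0.951057 - s5)| ≤ 1 * 0.000001 :=
    abs_mul_le' hY (by rw [abs_le]; constructor <;> linarith)
  have d2 : |X * (0.690983 - (1 - c5))| ≤ 1 * 0.00000025 :=
    abs_mul_le' hX (by rw [abs_le]; constructor <;> linarith)
  have hd' : d = Y * (0.951057 - s5) - X * (0.690983 - (1 - c5)) := by rw [hd, ht]; ring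
  have d1' := abs_le.1 d1
  have d2' := abs_le.1 d2
  rw [← ht] at h3
  have ht1 : |t| ≤ 0.619 := abs_le_of_sq_le_sq (by linarith only [a1, h3]) (by norm_num)
  have hd1 : |d| ≤ 0.00000125 := by
    rw [abs_le, hd']; constructor <;> linarith [d1'.1, d1'.2, d2'.1, d2'.2]
  have e5 : |t * d| ≤ 0.619 * 0.00000125 := abs_mul_le' ht1 hd1
  have e6 : |d * d| ≤ 0.00000125 * 0.00000125 := abs_mul_le' hd1 hd1
  have e5' := abs_le.1 e5
  have e6' := abs_le.1 e6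
  have e9 : 0.951057 * Y - 0.690983 * X = t + d := by rw [hd]; ring
  have e8 : 951057 * Y - 690983 * X = 1000000 * (t + d) := by rw [← e9]; ring
  have e7 : (951057 * Y - 690983 * X) ^ 2 = 1000000000000 * (t ^ 2 + 2 * (t * d) + d * d) := by
    rw [e8]; ring
  rw [e7]
  linarith [e5'.2, e6'.2]

lemma hi_k2 (μ X Y n : ℝ) (hμ : 1.7 ≤ μ) (hm : μ < 1.8625)
    (h2 : (1 - 1 / 1000000) * μ ^ 2 ≤ μ ^ 2 + 2 * μ * n * X + n ^ 2 * (X ^ 2 + Y ^ 2) ∨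
      3.47 ≤ μ ^ 2 + 2 * μ * n * X + n ^ 2 * (X ^ 2 + Y ^ 2)) :
    -(((2000000 * μ) * n) * X + (1000000 * n ^ 2) * (X ^ 2 + Y ^ 2)) - 6 ≤ 0 := by
  have hq : μ ^ 2 ≤ 1.8625 ^ 2 := by
    apply pow_le_pow_left₀ <;> linarith
  have : (1 - 1 / 1000000) * μ ^ 2 ≤ μ ^ 2 + 2 * μ * n * X + n ^ 2 * (X ^ 2 + Y ^ 2) := by
    rcases h2 with h | h
    · exact h
    · linarith
  have e : -(((2000000 * μ) * n) * X + (1000000 * n ^ 2) * (X ^ 2 + Y ^ 2)) - 6 =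
    -1000000 * (μ ^ 2 + 2 * μ * n * X + n ^ 2 * (X ^ 2 + Y ^ 2)) + 1000000 * μ ^ 2 - 6 := by ring
  rw [e]
  linarith

lemma hi_k2' (μ X Y n : ℝ) (hm : 1.8625 ≤ μ)
    (h2 : (1 - 1 / 1000000) * μ ^ 2 ≤ μ ^ 2 + 2 * μ * n * X + n ^ 2 * (X ^ 2 + Y ^ 2) ∨
      3.47 ≤ μ ^ 2 + 2 * μ * n * X + n ^ 2 * (X ^ 2 + Y ^ 2)) :
    -((μ ^ 2 + 2 * μ * n * X) + n ^ 2 * (X ^ 2 + Y ^ 2)) * 100 + 345 ≤ 0 := by
  have hq : (1.8625:ℝ) ^ 2 ≤ μ ^ 2 := by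
    apply pow_le_pow_left₀ <;> linarith
  rcases h2 with h | h
  · linarith
  · linarith

/-- The numerical core of the high regime. -/
lemma hi_num (μ X Y n : ℝ) (hμ : 1.7 ≤ μ) (hμ2 : μ ≤ 2) (hXY : X ^ 2 + Y ^ 2 ≤ 1) (hn : 0 < n)
    (hn2 : n ≤ 2)
    (h1 : n ^ 2 + 2 * n * (X * (μ - (c5 + 1 / 2)) - Y * (2 * c5 * s5)) + μ ^ 2 -
      2 * (c5 + 1 / 2) * μ ≤ 0)
    (h2 : (1 - 1 / 1000000) * μ ^ 2 ≤ μ ^ 2 + 2 * μ * n * X + n ^ 2 * (X ^ 2 + Y ^ 2) ∨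
      3.47 ≤ μ ^ 2 + 2 * μ * n * X + n ^ 2 * (X ^ 2 + Y ^ 2))
    (h3 : (s5 * Y - (1 - c5) * X) ^ 2 ≤ 1 - 2 * c5 + 1 / 1000000) :
    -0.08 < X ∧ X < 0.03 ∧ 0.5 < Y ∧ Y < 0.68 ∧
      0.82 * (1 - X ^ 2 - Y ^ 2) < (0.786 - 0.4775 * X ^ 2 + 0.657 * X * Y) ^ 2 := by
  obtain ⟨hX, hY⟩ := abs_le_one_of_sq hXY
  have hX' := abs_le.1 hX
  have hY' := abs_le.1 hY
  have k1 := hi_k1 μ X Y n hμ hXY hn hn2 h1
  have k3 := hi_k3 X Y hXY h3
  have b3 : (-101 / 100 : ℝ) ≤ X := by linarith [hX'.1]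
  have b4 : X < (101 / 100 : ℝ) := by linarith [hX'.2]
  have b5 : (-101 / 100 : ℝ) ≤ Y := by linarith [hY'.1]
  have b6 : Y < (101 / 100 : ℝ) := by linarith [hY'.2]
  have b7 : (0 / 100 : ℝ) ≤ n := by linarith
  have b8 : n < (201 / 100 : ℝ) := by linarith
  rcases lt_or_ge μ (1.8625:ℝ) with hm | hm
  · have k2 := hi_k2 μ X Y n hμ hm h2
    have b1 : (170 / 100 : ℝ) ≤ μ := by linarith
    have b2 : μ < (187 / 100 : ℝ) := by linarith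
    refine ⟨?_, ?_, ?_, ?_, ?_⟩
    · rcases hiXlo μ X Y n b1 b2 b3 b4 b5 b6 b7 b8 with h | h | h | h
      · linarith
      · exfalso; linarith
      · exfalso; linarith
      · exfalso; linarith
    · rcases hiXhi μ X Y n b1 b2 b3 b4 b5 b6 b7 b8 with h | h | h | h
      · linarith
      · exfalso; linarith
      · exfalso; linarith
      · exfalso; linarith
    · rcases hiYlo μ X Y n b1 b2 b3 b4 b5 b6 b7 b8 with h | h | h | h
      · linarith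
      · exfalso; linarith
      · exfalso; linarith
      · exfalso; linarith
    · rcases hiYhi μ X Y n b1 b2 b3 b4 b5 b6 b7 b8 with h | h | h | h
      · linarith
      · exfalso; linarith
      · exfalso; linarith
      · exfalso; linarith
    · rcases hiP1 μ X Y n b1 b2 b3 b4 b5 b6 b7 b8 with h | h | h | h
      · linarith only [h]
      · exfalso; linarith
      · exfalso; linarith
      · exfalso; linarith
  · exfalso
    have k2 := hi_k2' μ X Y n hm h2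
    have b1 : (186 / 100 : ℝ) ≤ μ := by linarith
    have b2 : μ < (201 / 100 : ℝ) := by linarith
    rcases hiB μ X Y n b1 b2 b3 b4 b5 b6 b7 b8 with h | h | h
    · linarith
    · linarith
    · linarith

end

end Pool.Agent.Lib.MP_c5a075_co
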