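import Pool.Agent.Lib.MP_c5a075_co.LFDef
import Pool.Agent.Lib.MP_c5a075_co.CaseFr
import Pool.Agent.Lib.MP_c5a075_co.Layer

/-! From a configuration to its local frame; the mirror image of a local frame. -/

set_option autoImplicit false

namespace Pool.Agent.Lib.MP_c5a075_co

noncomputable section

open Real

lemma mirFr_lin (v : E3) : mirFr.lin v = vec (v 0) (-v 1) (v 2) := by
  apply ext3 <;> simp [Fr.lin, mirFr]

lemma mirFr_map (v : E3) : mirFr.map v = mirFr.lin v := by
  rw [Fr.map]; show (0:E3) + _ = _; rw [zero_add]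

lemma mirFr_mir (v : E3) : mirFr.lin (mirFr.lin v) = v := by
  rw [mirFr_lin, mirFr_lin]; apply ext3 <;> simp

lemma mirFr_co (v : E3) : mirFr.co v = mirFr.lin v :=
  co_inj mirFr (by rw [Fr.lin_co, mirFr_mir])

lemma mirFr_e3 : mirFr.lin e3 = e3 := by rw [mirFr_lin]; apply ext3 <;> simp

lemma mirFr_rot (k : ℤ) (v : E3) :
    mirFr.lin ((rotFr k).lin v) = (rotFr (-k)).lin (mirFr.lin v) := by
  have e : ((-k : ℤ) : ℝ) * (2 * π / 5) = -(k * (2 * π / 5)) := by push_cast; ring
  rw [mirFr_lin, mirFr_lin, rotFr_lin, rotFr_lin, e, Real.cos_neg, Real.sin_neg]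
  apply ext3
  · simp only [vec_0, vec_1]; ring
  · simp only [vec_0, vec_1]; ring
  · simp only [vec_2]

/-- The mirror image of a local frame. -/
theorem lf_mirror {X D : Set E3} {ρ h τ : ℝ} (L : LF X D ρ h τ) :
    LF (mirFr.pull X) {v | mirFr.lin v ∈ D} ρ h τ where
  ρ_pos := L.ρ_pos
  h_pos := L.h_pos
  hT := L.hT
  t_le := L.t_le
  mem := by
    rw [Fr.mem_pull, mirFr_map, mirFr_lin]
    have : vec ((vec ρ 0 h) 0) (-(vec ρ 0 h) 1) ((vec ρ 0 h) 2) = vec ρ 0 h := by
      apply ext3 <;> simp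
    rw [this]; exact L.mem
  ring := by
    intro e he
    rw [Fr.mem_pull, mirFr_map, mirFr_lin]
    simp only [vec_0, vec_1, vec_2]
    have h1 := L.ring (-e) (by rcases he with h | h <;> rw [h] <;> norm_num)
    rwa [neg_mul] at h1
  clean := by
    intro x hx hlt
    rw [Fr.mem_pull, mirFr_map] at hx
    obtain ⟨v, hv, r, hr, e⟩ := L.clean _ hx (by rwa [Fr.dot_lin])
    refine ⟨mirFr.lin v, ?_, r, hr, ?_⟩
    · show mirFr.lin (mirFr.lin v) ∈ D
      rw [mirFr_mir]; exact hv
    · rw [← mirFr_mir x, e, Fr.lin_smul]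
  unit := by
    intro v hv
    have := L.unit _ hv
    rwa [Fr.dot_lin] at this
  e3_mem := by
    show mirFr.lin e3 ∈ D
    rw [mirFr_e3]; exact L.e3_mem
  height := by
    intro v hv
    rcases L.height _ hv with h | h | h | h
    · left; rw [← mirFr_mir v, h, mirFr_e3]
    · right; left; rw [← mirFr_mir v, h, Fr.lin_neg, mirFr_e3]
    · right; right; left; rw [mirFr_lin] at h; exact h
    · right; right; right; rw [mirFr_lin] at h; exact h
  angle := by
    intro u hu v hv
    rcases L.angle _ hu _ hv with h | h | h | h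
    · left; rw [← mirFr_mir u, h, mirFr_mir]
    · right; left; rw [← mirFr_mir u, h, Fr.lin_neg, mirFr_mir]
    · right; right; left; rwa [Fr.dot_lin] at h
    · right; right; right; rwa [Fr.dot_lin] at h
  rotD := by
    intro v hv k
    show mirFr.lin ((rotFr k).lin v) ∈ D
    rw [mirFr_rot]; exact L.rotD _ hv _
  near := by
    intro v hv
    have := L.near _ hv
    rw [mirFr_lin] at this
    simpa only [vec_0, vec_2] using this
  nearR := by
    intro v hv e he
    have := L.nearR _ hv (-e) (by rcases he with h | h <;> rw [h] <;> norm_num)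
    rw [mirFr_lin] at this
    simp only [vec_0, vec_1, vec_2] at this
    linarith
  trans := by
    intro u hu v hv r hr hr2 hX
    rw [Fr.mem_pull, mirFr_map, Fr.lin_smul] at hX ⊢
    exact L.trans _ hu _ hv r hr hr2 hX
  τ_pos := L.τ_pos
  τ_lt := L.τ_lt
  τ_mem := by
    rw [Fr.mem_pull, mirFr_map, Fr.lin_smul, mirFr_e3]; exact L.τ_mem
  vis := L.vis

lemma rotFr_one_lin (v : E3) :
    (rotFr 1).lin v = vec (c5 * v 0 - s5 * v 1) (s5 * v 0 + c5 * v 1) (v 2) := by
  rw [rotFr_lin, Int.cast_one, one_mul, cos_two_pi_div_five, sin_two_pi_div_five]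

lemma rotFr_neg_one_lin (v : E3) :
    (rotFr (-1)).lin v = vec (c5 * v 0 + s5 * v 1) (-(s5 * v 0) + c5 * v 1) (v 2) := by
  rw [rotFr_lin, Int.cast_neg, Int.cast_one, neg_one_mul, Real.cos_neg, Real.sin_neg,
    cos_two_pi_div_five, sin_two_pi_div_five]
  apply ext3 <;> simp

lemma rh_sq (w : E3) : rh w ^ 2 = w 0 ^ 2 + w 1 ^ 2 := Real.sq_sqrt (by positivity)

/-- From a configuration to its local frame. -/
theorem lf_of_cfg {X : Set E3} {t τ : ℝ} {w : E3} (h : Cfg X t τ w) :
    ∃ (F : Fr) (D : Set E3) (ρ h : ℝ), F.map (vec ρ 0 h) = w ∧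
      F.lin (vec (2 * i5) 0 (-i5)) = bst w ∧ LF (F.pull X) D ρ h τ := by
  obtain ⟨hk, hw2⟩ := near_kap h.near
  obtain ⟨ρ, hρ⟩ : ∃ ρ, ρ = rh w := ⟨_, rfl⟩
  have hρ0 : 0 ≤ ρ := by rw [hρ]; exact Real.sqrt_nonneg _
  have hρ2 : ρ ^ 2 = w 0 ^ 2 + w 1 ^ 2 := by rw [hρ]; exact rh_sq w
  have hww : dot w w = ρ ^ 2 + w 2 ^ 2 := by rw [hρ2]; simp only [dot]; ring
  have ht := h.t_pos
  have hn := h.norm
  have ht2 : 0 < t ^ 2 := by positivity
  have hw2p : 0 < w 2 := by
    rcases hw2.eq_or_lt with h0 | h0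
    · exfalso
      rw [← h0, hn] at hk
      have := mul_pos (pow_pos kap_pos 2) ht2
      linarith
    · exact h0
  have hρp : 0 < ρ := by
    rcases hρ0.eq_or_lt with h0 | h0
    · exfalso
      have h1 : w 0 ^ 2 + w 1 ^ 2 = 0 := by rw [← hρ2, ← h0]; ring
      have h2 : w 0 = 0 := by nlinarith only [h1, sq_nonneg (w 0), sq_nonneg (w 1)]
      have h3 : w 1 = 0 := by nlinarith only [h1, sq_nonneg (w 0), sq_nonneg (w 1)]
      apply h.off
      refine ⟨e3, e3_mem, w 2, hw2, ?_⟩
      apply ext3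
      · rw [h2]; simp
      · rw [h3]; simp
      · simp
    · exact h0
  have hCS : (w 0 / ρ) ^ 2 + (w 1 / ρ) ^ 2 = 1 := by
    rw [div_pow, div_pow, ← add_div, ← hρ2, div_self (by positivity)]
  obtain ⟨F, hF⟩ : ∃ F, F = zFr (w 0 / ρ) (w 1 / ρ) hCS := ⟨_, rfl⟩
  have hFm : ∀ v, F.map v = F.lin v := by intro v; rw [hF]; exact zFr_map hCS v
  have hFe : F.lin e3 = e3 := by rw [hF]; exact zFr_e3 hCS
  have hF2 : ∀ v, (F.lin v) 2 = v 2 := by intro v; rw [hF, zFr_lin]; rfl
  have hFr : ∀ (k : ℤ) (v : E3), F.lin ((rotFr k).lin v) = (rotFr k).lin (F.lin v) := by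
    intro k v; rw [hF]; exact zFr_rot hCS k v
  have hFinj : ∀ u v : E3, F.lin u = F.lin v → u = v := fun u v e => by
    rw [← F.co_lin u, e, F.co_lin]
  have hFw : F.lin (vec ρ 0 (w 2)) = w := by
    rw [hF, zFr_lin]
    apply ext3
    · simp only [vec_0, vec_1]; field_simp; ring
    · simp only [vec_0, vec_1]; field_simp; ring
    · simp
  refine ⟨F, {v | F.lin v ∈ Dr}, ρ, w 2, ?_, ?_, ?_⟩
  · rw [hFm, hFw]
  · rw [hF, zFr_lin, bst, ← hρ]
    apply ext3
    · simp only [vec_0, vec_1]; ring
    · simp only [vec_0, vec_1]; ring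
    · simp
  · have hD : ∀ v, v ∈ {v | F.lin v ∈ Dr} ↔ F.lin v ∈ Dr := fun v => Iff.rfl
    have hrot : ∀ v ∈ {v | F.lin v ∈ Dr}, ∀ k : ℤ, (rotFr k).lin v ∈ {v | F.lin v ∈ Dr} := by
      intro v hv k
      rw [hD, hFr]; exact rot_maps k _ hv
    have hnear : ∀ v ∈ {v | F.lin v ∈ Dr}, ρ * v 0 + w 2 * v 2 ≤ w 2 := by
      intro v hv
      have h1 := h.near _ hv
      have h2 : dot w (F.lin v) = ρ * v 0 + w 2 * v 2 := by
        conv_lhs => rw [← hFw]
        rw [Fr.dot_lin]; simp only [dot, vec_0, vec_1, vec_2]; ring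
      rwa [h2] at h1
    exact
    { ρ_pos := hρp
      h_pos := hw2p
      hT := by
        rw [hww, kap_sq] at hk
        have h5 := i5_gt
        have h6 : (1 + 2 * i5) / 3 * (ρ ^ 2 + w 2 ^ 2) ≥ 0.631473 * (ρ ^ 2 + w 2 ^ 2) := by
          apply mul_le_mul_of_nonneg_right _ (by positivity)
          linarith
        have h7 : ρ ^ 2 ≤ (0.76394 * w 2) ^ 2 := by nlinarith only [h6, hk, sq_nonneg (w 2)]
        exact le_of_sq_le_sq h7 (by positivity)
      t_le := by
        rw [← hww, hn]
        have := h.t_le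
        nlinarith only [this, ht]
      mem := by rw [Fr.mem_pull, hFm, hFw]; exact h.mem
      ring := by
        intro e he
        rw [Fr.mem_pull, hFm]
        rcases he with rfl | rfl
        · have h1 := h.ring_mem 1
          rw [← hFw, ← hFr, rotFr_one_lin] at h1
          convert h1 using 2
          apply ext3 <;> simp <;> ring
        · have h1 := h.ring_mem (-1)
          rw [← hFw, ← hFr, rotFr_neg_one_lin] at h1
          convert h1 using 2
          apply ext3 <;> simp <;> ring
      clean := by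
        intro x hx hlt
        rw [Fr.mem_pull, hFm] at hx
        obtain ⟨v, hv, r, hr, e⟩ := h.clean _ hx (by rwa [Fr.dot_lin, ← hn, hww])
        refine ⟨F.co v, ?_, r, hr, ?_⟩
        · rw [hD, F.lin_co]; exact hv
        · apply hFinj; rw [e, Fr.lin_smul, F.lin_co]
      unit := by
        intro v hv
        have := Dr_unit hv
        rwa [Fr.dot_lin] at this
      e3_mem := by rw [hD, hFe]; exact e3_mem
      height := by
        intro v hv
        rcases Dr_height hv with h | h | h | h
        · left; apply hFinj; rw [h, hFe]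
        · right; left; apply hFinj; rw [h, Fr.lin_neg, hFe]
        · right; right; left; rwa [hF2] at h
        · right; right; right; rwa [hF2] at h
      angle := by
        intro u hu v hv
        rcases Dr_pair hv hu with h | h | h | h
        · left; exact hFinj _ _ h
        · right; left; apply hFinj; rw [h, Fr.lin_neg]
        · right; right; left; rwa [Fr.dot_lin, dot_comm] at h
        · right; right; right; rwa [Fr.dot_lin, dot_comm] at h
      rotD := hrot
      near := hnear
      nearR := by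
        intro v hv e he
        rcases he with rfl | rfl
        · have h1 := hnear _ (hrot v hv (-1))
          rw [rotFr_neg_one_lin] at h1
          simp only [vec_0, vec_2] at h1
          linarith
        · have h1 := hnear _ (hrot v hv 1)
          rw [rotFr_one_lin] at h1
          simp only [vec_0, vec_2] at h1
          linarith
      trans := by
        intro u hu v hv r hr hr2 hX
        rw [Fr.mem_pull, hFm, Fr.lin_smul] at hX ⊢
        exact trans h.star h.τ_pos h.τ_le hr hr2 hu hv hX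
      τ_pos := h.τ_pos
      τ_lt := by
        rw [← hww, hn]
        exact pow_lt_pow_left₀ h.τ_lt h.τ_pos.le (by norm_num)
      τ_mem := by
        rw [Fr.mem_pull, hFm, Fr.lin_smul, hFe]; exact (h.star e3 e3_mem).mem
      vis := by
        have h1 := h.vis
        have h2 : dot (w - τ • e3) (w - τ • e3) = ρ ^ 2 + (w 2 - τ) ^ 2 := by
          rw [hρ2]; simp only [dot, sub_0, sub_1, sub_2, smul_0, smul_1, smul_2, e3_0, e3_1, e3_2]
          ring
        rwa [h2] at h1 }

end

end Pool.Agent.Lib.MP_c5a075_co
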