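import Pool.Agent.Lib.MP_c5a075_co.LFCfg

/-!
The local statement: the assembly of `LocalA` from the radial case, the case `b⁺`, the cross
case and the case `n = 7`; the case `n ≥ 8`.
-/

set_option autoImplicit false

namespace Pool.Agent.Lib.MP_c5a075_co

noncomputable section

open Real

/-- The vector from `w` to its neighbour. -/
def uu (ρ : ℝ) : E3 := vec (ρ * (c5 - 1)) (ρ * s5) 0

/-- The normalised word for a rotation with cosine `c` and sine `s`. -/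
def wd (ρ h : ℝ) (b : E3) (c s : ℝ) : E3 := vec ρ 0 h + rot b c s (uu ρ)

/-- The remaining four statements. -/
def HRad : Prop := ∀ (X D : Set E3) (ρ h τ : ℝ) (b : E3) (n : ℕ), LF X D ρ h τ →
  Ax X (vec ρ 0 h) b n → b 1 = 0 → h * b 0 = ρ * b 2 → False
def HSeven : Prop := ∀ (X D : Set E3) (ρ h τ : ℝ) (b : E3), LF X D ρ h τ →
  Ax X (vec ρ 0 h) b 7 → ¬(b 1 = 0 ∧ h * b 0 = ρ * b 2) → False
def HPlus : Prop := ∀ (X D : Set E3) (ρ h τ : ℝ), LF X D ρ h τ →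
  Ax X (vec ρ 0 h) (vec bp0 (-bp1) bp2) 5 → (h - 2 * c5 * ρ) • e3 ∈ X → False
def HCross : Prop := ∀ (X D : Set E3) (ρ h τ : ℝ) (b : E3), LF X D ρ h τ →
  Ax X (vec ρ 0 h) b 5 → wd ρ h b c5 s5 ∈ X →
  dot (wd ρ h b c5 s5) (wd ρ h b c5 s5) < ρ ^ 2 + h ^ 2 →
  5 * (wd ρ h b c5 s5) 2 ^ 2 = dot (wd ρ h b c5 s5) (wd ρ h b c5 s5) → False

lemma dot_uu (ρ : ℝ) : dot (uu ρ) (uu ρ) = 2 * (1 - c5) * ρ ^ 2 := by
  have := dot_ring (ρ := ρ) (e := 1) (Or.inl rfl)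
  rwa [one_mul] at this

lemma wd_word (ρ h : ℝ) (b : E3) (c s : ℝ) :
    wd ρ h b c s = vec ρ 0 h + rot b c s (vec (ρ * (c5 - 1)) (1 * (ρ * s5)) 0) := by
  rw [one_mul]; rfl

/-- Bounds for a local frame. -/
lemma LF.hvis {X D : Set E3} {ρ h τ : ℝ} (L : LF X D ρ h τ) : 2 * (1 - c5) * ρ ^ 2 ≤ 4 := by
  have h1 := L.hT
  have h2 := L.t_le
  have h3 : ρ ^ 2 ≤ (0.76394 * h) ^ 2 := pow_le_pow_left₀ L.ρ_pos.le h1 2
  have h4 : ρ ^ 2 ≤ 2.6 := by nlinarith only [h2, h3]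
  have h5 := c5_gt
  have h6 : 2 * (1 - c5) ≤ 2 * 0.7 := by linarith
  have h7 := mul_le_mul h6 h4 (sq_nonneg ρ) (by norm_num)
  linarith

lemma LF.hk54 {X D : Set E3} {ρ h τ : ℝ} (L : LF X D ρ h τ) : ρ < k54 * h := by
  have h1 := L.hT
  have h2 := k54_sq_gt
  have h3 := k54_pos
  have h4 : 1 < k54 := by nlinarith only [h2, h3]
  have h5 := L.h_pos
  nlinarith only [h1, h4, h5]

/-- The case `n ≥ 8` (not radial). -/
theorem lf_eight {X D : Set E3} {ρ h τ : ℝ} (L : LF X D ρ h τ) {b : E3} {n : ℕ}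
    (hb : Ax X (vec ρ 0 h) b n) (hn : 8 ≤ n) (hr : ¬(b 1 = 0 ∧ h * b 0 = ρ * b 2)) : False := by
  rcases T5_frame L.ρ_pos L.h_pos L.hk54 L.hvis hb L.ring with h1 | ⟨e, k, he, hk, hX, hlt⟩
  · exact hr h1
  obtain ⟨u, hu⟩ : ∃ u, u = vec (ρ * (c5 - 1)) (e * (ρ * s5)) 0 := ⟨_, rfl⟩
  obtain ⟨z, hz⟩ : ∃ z, z = vec ρ 0 h + rot b (cos (2 * π / n)) (k * sin (2 * π / n)) u := ⟨_, rfl⟩
  rw [← hu, ← hz] at hX hlt
  obtain ⟨v, hv, r, hr0, e1⟩ := L.clean _ hX hlt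
  have hkk : k ^ 2 = 1 := by rcases hk with h | h <;> rw [h] <;> norm_num
  have hcs : cos (2 * π / n) ^ 2 + (k * sin (2 * π / n)) ^ 2 = 1 := by
    rw [mul_pow, hkk, one_mul]; exact Real.cos_sq_add_sin_sq _
  have hch := chord_word b (vec ρ 0 h) u hb.unit _ _ hcs
  rw [← hz] at hch
  have huu : dot u u = 2 * (1 - c5) * ρ ^ 2 := by rw [hu]; exact dot_ring he
  have hwu : vec ρ 0 h + u = vec (ρ * c5) (e * (ρ * s5)) h := by
    rw [hu]; apply ext3 <;> simp; ring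
  rw [huu, hwu] at hch
  -- the lower bound
  have hnR := L.nearR v hv e he
  have hlow : ρ ^ 2 ≤ dot (z - vec (ρ * c5) (e * (ρ * s5)) h)
      (z - vec (ρ * c5) (e * (ρ * s5)) h) := by
    have hee : e ^ 2 = 1 := by rcases he with h | h <;> rw [h] <;> norm_num
    have hc := c5_sq_add
    have hvv := L.unit v hv
    have e2 : dot (z - vec (ρ * c5) (e * (ρ * s5)) h) (z - vec (ρ * c5) (e * (ρ * s5)) h) =
        r ^ 2 * dot v v - 2 * r * (ρ * c5 * v 0 + e * (ρ * s5) * v 1 + h * v 2) +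
        (c5 ^ 2 + e ^ 2 * s5 ^ 2) * ρ ^ 2 + h ^ 2 := by
      rw [e1]
      simp only [dot, sub_0, sub_1, sub_2, smul_0, smul_1, smul_2, vec_0, vec_1, vec_2]
      ring
    rw [e2, hee, one_mul, hc, hvv]
    nlinarith only [mul_le_mul_of_nonneg_left hnR hr0, sq_nonneg (r - h)]
  rw [hch] at hlow
  have h8 := cos_ge_eight hn
  have h9 := Real.cos_le_one (2 * π / n)
  have hc1 := c5_gt
  have h10 : 2 * (1 - cos (2 * π / n)) * (2 * (1 - c5) * ρ ^ 2 - dot b u ^ 2) ≤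
      (2 * 0.293) * (2 * 0.7 * ρ ^ 2) := by
    have h11 : 2 * (1 - c5) * ρ ^ 2 ≤ 2 * 0.7 * ρ ^ 2 :=
      mul_le_mul_of_nonneg_right (by linarith) (sq_nonneg ρ)
    have h12 : 2 * (1 - c5) * ρ ^ 2 - dot b u ^ 2 ≤ 2 * 0.7 * ρ ^ 2 := by
      linarith [sq_nonneg (dot b u)]
    calc 2 * (1 - cos (2 * π / n)) * (2 * (1 - c5) * ρ ^ 2 - dot b u ^ 2)
        ≤ 2 * (1 - cos (2 * π / n)) * (2 * 0.7 * ρ ^ 2) :=
          mul_le_mul_of_nonneg_left h12 (by linarith)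
      _ ≤ (2 * 0.293) * (2 * 0.7 * ρ ^ 2) :=
          mul_le_mul_of_nonneg_right (by linarith) (by positivity)
  have h13 : 0 < ρ ^ 2 := pow_pos L.ρ_pos 2
  linarith

/-- Normalisation of a word. -/
lemma lf_norm {X D : Set E3} {ρ h τ e k : ℝ} (L : LF X D ρ h τ) (he : e = 1 ∨ e = -1)
    (hk : k = 1 ∨ k = -1) {b : E3} {n : ℕ} (hb : Ax X (vec ρ 0 h) b n) {c s : ℝ}
    (hX : vec ρ 0 h + rot b c (k * s) (vec (ρ * (c5 - 1)) (e * (ρ * s5)) 0) ∈ X)
    (hlt : dot (vec ρ 0 h + rot b c (k * s) (vec (ρ * (c5 - 1)) (e * (ρ * s5)) 0))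
      (vec ρ 0 h + rot b c (k * s) (vec (ρ * (c5 - 1)) (e * (ρ * s5)) 0)) < ρ ^ 2 + h ^ 2) :
    ∃ (Y E : Set E3), LF Y E ρ h τ ∧ Ax Y (vec ρ 0 h) (vec (k * e * b 0) (k * b 1) (k * e * b 2)) n ∧
      wd ρ h (vec (k * e * b 0) (k * b 1) (k * e * b 2)) c s ∈ Y ∧
      dot (wd ρ h (vec (k * e * b 0) (k * b 1) (k * e * b 2)) c s)
        (wd ρ h (vec (k * e * b 0) (k * b 1) (k * e * b 2)) c s) < ρ ^ 2 + h ^ 2 := by
  -- first the sign of `k`
  have key : ∀ (X D : Set E3) (b : E3), LF X D ρ h τ → Ax X (vec ρ 0 h) b n →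
      vec ρ 0 h + rot b c (k * s) (uu ρ) ∈ X →
      dot (vec ρ 0 h + rot b c (k * s) (uu ρ)) (vec ρ 0 h + rot b c (k * s) (uu ρ)) < ρ ^ 2 + h ^ 2 →
      Ax X (vec ρ 0 h) (vec (k * b 0) (k * b 1) (k * b 2)) n ∧
      wd ρ h (vec (k * b 0) (k * b 1) (k * b 2)) c s ∈ X ∧
      dot (wd ρ h (vec (k * b 0) (k * b 1) (k * b 2)) c s)
        (wd ρ h (vec (k * b 0) (k * b 1) (k * b 2)) c s) < ρ ^ 2 + h ^ 2 := by
    intro X D b L hb hX hlt
    rcases hk with rfl | rfl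
    · have e1 : vec (1 * b 0) (1 * b 1) (1 * b 2) = b := by apply ext3 <;> simp
      rw [one_mul s] at hX hlt
      rw [e1]; exact ⟨hb, hX, hlt⟩
    · have e1 : vec (-1 * b 0) (-1 * b 1) (-1 * b 2) = -b := by apply ext3 <;> simp
      rw [neg_one_mul, ← rot_neg_axis] at hX hlt
      rw [e1]; exact ⟨hb.neg, hX, hlt⟩
  rcases he with rfl | rfl
  · rw [one_mul (ρ * s5)] at hX hlt
    obtain ⟨h1, h2, h3⟩ := key X D b L hb hX hlt
    refine ⟨X, D, L, ?_⟩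
    rw [mul_one]
    exact ⟨h1, h2, h3⟩
  · -- the mirror image
    have hL := lf_mirror L
    have hmw : mirFr.lin (vec ρ 0 h) = vec ρ 0 h := by
      rw [mirFr_lin]; apply ext3 <;> simp
    obtain ⟨b', hb'⟩ : ∃ b', b' = -mirFr.lin b := ⟨_, rfl⟩
    have hb1 : mirFr.lin b' = -b := by rw [hb', Fr.lin_neg, mirFr_mir]
    have hA : Ax (mirFr.pull X) (vec ρ 0 h) b' n := by
      apply mirFr.ax_pull
      rw [mirFr_map, hmw, hb1]
      exact hb.neg
    have hrot : mirFr.lin (vec ρ 0 h + rot b' c (k * s) (uu ρ)) =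
        vec ρ 0 h + rot b c (k * s) (vec (ρ * (c5 - 1)) (-1 * (ρ * s5)) 0) := by
      have h1 := mirFr.rot_lin b' c (k * s) (uu ρ)
      have e1 : mirFr.σ = -1 := rfl
      have e2 : mirFr.lin (uu ρ) = vec (ρ * (c5 - 1)) (-1 * (ρ * s5)) 0 := by
        rw [mirFr_lin, uu]; apply ext3 <;> simp
      rw [e1, hb1, e2, neg_one_mul, ← neg_neg (rot (-b) c (-(k * s)) _)] at h1
      rw [Fr.lin_add, hmw, ← h1, neg_neg, rot_neg_axis, neg_neg]
    have hX' : vec ρ 0 h + rot b' c (k * s) (uu ρ) ∈ mirFr.pull X := by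
      rw [Fr.mem_pull, mirFr_map, hrot]; exact hX
    have hlt' : dot (vec ρ 0 h + rot b' c (k * s) (uu ρ)) (vec ρ 0 h + rot b' c (k * s) (uu ρ)) <
        ρ ^ 2 + h ^ 2 := by
      rw [← mirFr.dot_lin, hrot]; exact hlt
    obtain ⟨h1, h2, h3⟩ := key _ _ b' hL hA hX' hlt'
    have e3 : vec (k * b' 0) (k * b' 1) (k * b' 2) =
        vec (k * -1 * b 0) (k * b 1) (k * -1 * b 2) := by
      rw [hb', mirFr_lin]; apply ext3 <;> simp
    rw [e3] at h1 h2 h3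
    exact ⟨_, _, hL, h1, h2, h3⟩

/-- The main statement in a local frame. -/
theorem lf_main (h1 : HRad) (h2 : HSeven) (h3 : HPlus) (h4 : HCross) {X D : Set E3} {ρ h τ : ℝ}
    (L : LF X D ρ h τ) {b : E3} {n : ℕ} (hb : Ax X (vec ρ 0 h) b n) :
    n = 5 ∧ (b = vec (2 * i5) 0 (-i5) ∨ b = -vec (2 * i5) 0 (-i5)) := by
  by_cases hr : b 1 = 0 ∧ h * b 0 = ρ * b 2
  · exact (h1 _ _ _ _ _ _ _ L hb hr.1 hr.2).elim
  have hn : n = 5 := by
    rcases hb.ord with h5 | h5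
    · exact h5
    · exfalso
      rcases h5.eq_or_lt with h6 | h6
      · subst h6; exact h2 _ _ _ _ _ _ L hb hr
      · exact lf_eight L hb h6 hr
  subst hn
  refine ⟨rfl, ?_⟩
  rcases T5_frame L.ρ_pos L.h_pos L.hk54 L.hvis hb L.ring with h5 | ⟨e, k, he, hk, hX, hlt⟩
  · exact (hr h5).elim
  have ec : cos (2 * π / ((5:ℕ):ℝ)) = c5 := by
    rw [show (2 * π / ((5:ℕ):ℝ)) = 2 * π / 5 by norm_num, cos_two_pi_div_five]
  have es : sin (2 * π / ((5:ℕ):ℝ)) = s5 := by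
    rw [show (2 * π / ((5:ℕ):ℝ)) = 2 * π / 5 by norm_num, sin_two_pi_div_five]
  rw [ec, es] at hX hlt
  obtain ⟨Y, E, M, hB, hY, hl⟩ := lf_norm L he hk hb hX hlt
  obtain ⟨b', hb'⟩ : ∃ b', b' = vec (k * e * b 0) (k * b 1) (k * e * b 2) := ⟨_, rfl⟩
  rw [← hb'] at hB hY hl
  obtain ⟨v, hv, r, hr0, e1⟩ := M.clean _ hY hl
  have hax : (wd ρ h b' c5 s5) 0 = 0 → (wd ρ h b' c5 s5) 1 = 0 →
      b = vec (2 * i5) 0 (-i5) ∨ b = -vec (2 * i5) 0 (-i5) := by
    intro g0 g1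
    obtain ⟨g2, g3⟩ := onaxis_five (e := 1) (k := 1) L.ρ_pos
      (by have := L.hT; have := L.h_pos; linarith) (Or.inl rfl) (Or.inl rfl) hB.unit
      (by rw [one_mul, one_mul]; rfl) g0 g1 hl
    simp only [one_mul] at g3
    rcases g3 with g3 | g3
    · have f0 : k * e * b 0 = -(2 * i5) := by rw [hb'] at g3; simpa using (ext3_iff.1 g3).1
      have f1 : k * b 1 = 0 := by rw [hb'] at g3; simpa using (ext3_iff.1 g3).2.1
      have f2 : k * e * b 2 = i5 := by rw [hb'] at g3; simpa using (ext3_iff.1 g3).2.2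
      have hk0 : k ≠ 0 := by rcases hk with h | h <;> rw [h] <;> norm_num
      have f1' : b 1 = 0 := by
        rcases mul_eq_zero.1 f1 with h | h
        · exact absurd h hk0
        · exact h
      have hke : k * e = 1 ∨ k * e = -1 := by
        rcases hk with h | h <;> rcases he with h' | h' <;> rw [h, h'] <;> norm_num
      rcases hke with h | h
      · right
        rw [h] at f0 f2
        apply ext3
        · simp only [neg_0, vec_0]; linarith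
        · simp only [neg_1, vec_1]; linarith
        · simp only [neg_2, vec_2]; linarith
      · left
        rw [h] at f0 f2
        apply ext3
        · simp only [vec_0]; linarith
        · simp only [vec_1]; linarith
        · simp only [vec_2]; linarith
    · exfalso
      rw [g3] at hB
      refine h3 _ _ _ _ _ M hB ?_
      have e5 : (h - 2 * c5 * ρ) • e3 = wd ρ h b' c5 s5 := by
        apply ext3
        · rw [g0]; simp
        · rw [g1]; simp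
        · rw [g2]; simp
      rw [e5]; exact hY
  rcases M.height v hv with h5 | h5 | h5 | h5
  · exact hax (by rw [e1, h5]; simp) (by rw [e1, h5]; simp)
  · exact hax (by rw [e1, h5]; simp) (by rw [e1, h5]; simp)
  · exfalso
    refine h4 _ _ _ _ _ _ M hB hY hl ?_
    rw [e1]
    simp only [dot_smul_left, dot_smul_right, M.unit v hv, smul_2, h5]
    linear_combination (5 * r ^ 2) * i5_sq
  · exfalso
    refine h4 _ _ _ _ _ _ M hB hY hl ?_
    rw [e1]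
    simp only [dot_smul_left, dot_smul_right, M.unit v hv, smul_2, h5]
    linear_combination (5 * r ^ 2) * i5_sq

/-- `LocalA` from the four remaining statements. -/
theorem localA_of (h1 : HRad) (h2 : HSeven) (h3 : HPlus) (h4 : HCross) : LocalA := by
  intro X t τ w hC
  obtain ⟨F, D, ρ, h, hFw, hFb, L⟩ := lf_of_cfg hC
  obtain ⟨b, n, hb⟩ := hC.bas.bad w hC.mem (by
    rw [hC.norm]
    have := hC.t_le
    have := hC.t_pos
    nlinarith)
  have hb' : Ax (F.pull X) (vec ρ 0 h) (F.co b) n := by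
    apply F.ax_pull
    rw [hFw, F.lin_co]; exact hb
  obtain ⟨hn, h5⟩ := lf_main h1 h2 h3 h4 L hb'
  subst hn
  rcases h5 with h5 | h5
  · have : b = bst w := by rw [← hFb, ← h5, F.lin_co]
    rw [← this]; exact hb
  · have : b = -bst w := by rw [← hFb, ← Fr.lin_neg, ← h5, F.lin_co]
    have h6 := hb.neg
    rw [this, neg_neg] at h6; exact h6

end

end Pool.Agent.Lib.MP_c5a075_co
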