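import Pool.Agent.Lib.MP_c5a075_co.CrossT
import Pool.Agent.Lib.MP_c5a075_co.LFMain

/-! The cross case of the local statement, from the certificate `cross5`. -/

set_option autoImplicit false

namespace Pool.Agent.Lib.MP_c5a075_co

noncomputable section

open Real

lemma Gq_smul (k : ℝ) (P : E3) : Gq (k • P) = k ^ 2 * Gq P := by
  simp only [Gq, smul_0, smul_1, smul_2]; ring

/-- a point of `X` inside the clean ball is not off the cone and the axis -/
lemma lf_offK {X D : Set E3} {ρ h τ : ℝ} (L : LF X D ρ h τ) {P : E3} (hX : h • P ∈ X)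
    (hn : dot (h • P) (h • P) < ρ ^ 2 + h ^ 2) : ¬ OffK P := by
  rintro ⟨h1, h2⟩
  obtain ⟨v, hv, r, hr, e⟩ := L.clean _ hX hn
  have hh := L.h_pos
  have e0 : h * P 0 = r * v 0 := by rw [← smul_0, e, smul_0]
  have e1 : h * P 1 = r * v 1 := by rw [← smul_1, e, smul_1]
  have ax : v 0 = 0 → v 1 = 0 → False := by
    intro g0 g1
    apply h2
    rw [g0, mul_zero] at e0
    rw [g1, mul_zero] at e1
    exact ⟨(mul_eq_zero.1 e0).resolve_left hh.ne', (mul_eq_zero.1 e1).resolve_left hh.ne'⟩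
  have cone : v 2 ^ 2 = 1 / 5 → False := by
    intro g
    have g1 : Gq v = 0 := by
      have hu := L.unit v hv
      simp only [dot] at hu
      rw [Gq]
      nlinarith
    have g2 : h ^ 2 * Gq P = 0 := by rw [← Gq_smul, e, Gq_smul, g1, mul_zero]
    exact h1 ((mul_eq_zero.1 g2).resolve_left (by positivity))
  rcases L.height v hv with g | g | g | g
  · exact ax (by rw [g]; simp) (by rw [g]; simp)
  · exact ax (by rw [g]; simp) (by rw [g]; simp)
  · exact cone (by rw [g]; exact i5_sq)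
  · exact cone (by rw [g, neg_sq]; exact i5_sq)

/-- the ring word in the local frame -/
lemma smul_rgw {ρ h T : ℝ} (hT : h * T = ρ) (b : E3) (c s v0 v1 : ℝ) :
    h • rgw b c s v0 v1 T = vec ρ 0 h + rot b c s (vec (ρ * v0) (ρ * v1) 0) := by
  have e : vec (ρ * v0) (ρ * v1) 0 = ρ • vec v0 v1 0 := by apply ext3 <;> simp
  rw [rgw, wT, smul_add, smul_smul, hT, e, rot_smul]
  congr 1
  apply ext3 <;> simp [hT]

/-- the norm of a ring word -/
lemma dot_rgw {ρ h T : ℝ} (hT : h * T = ρ) {b : E3} (hb : dot b b = 1) {c s v0 v1 : ℝ}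
    (hcs : c ^ 2 + s ^ 2 = 1) (hv : v0 ^ 2 + v1 ^ 2 = -2 * v0) :
    dot (h • rgw b c s v0 v1 T) (h • rgw b c s v0 v1 T) =
      ρ ^ 2 + h ^ 2 + 2 * (ρ * h * rgf b c s v0 v1 T) := by
  obtain ⟨r, hr⟩ : ∃ r, r = rot b c s (vec v0 v1 0) := ⟨_, rfl⟩
  have h1 : dot r r = -2 * v0 := by
    rw [hr, dot_rot_rot b hb c s hcs, ← hv]; simp only [dot, vec_0, vec_1, vec_2]; ring
  rw [dot_smul_left, dot_smul_right, rgw, rgf, ← hr]
  have h2 : dot (wT T + T • r) (wT T + T • r) =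
      T ^ 2 + 1 + 2 * T * (T * r 0 + r 2) + T ^ 2 * dot r r := by
    simp only [dot, wT, add_0, add_1, add_2, smul_0, smul_1, smul_2, vec_0, vec_1, vec_2]; ring
  rw [h2, h1, ← hT]; ring

lemma chord5 : (c5 - 1) ^ 2 + s5 ^ 2 = -2 * (c5 - 1) := by
  have := c5_sq_add; linarith
lemma chord5n : (c5 - 1) ^ 2 + (-s5) ^ 2 = -2 * (c5 - 1) := by
  rw [neg_sq]; exact chord5

/-- membership of ring words -/
lemma rgw_mem {X D : Set E3} {ρ h τ T : ℝ} (L : LF X D ρ h τ) (hT : h * T = ρ) {b : E3} {c s : ℝ}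
    (hI : Inv X (vec ρ 0 h) b c s) {e : ℝ} (he : e = 1 ∨ e = -1) :
    h • rgw b c s (c5 - 1) (e * s5) T ∈ X := by
  rw [smul_rgw hT]
  have e1 : vec (ρ * (c5 - 1)) (ρ * (e * s5)) 0 = vec (ρ * (c5 - 1)) (e * (ρ * s5)) 0 := by
    apply ext3 <;> simp; ring
  rw [e1]
  apply hI
  · rw [dot_ring he]; exact L.hvis
  · have : vec ρ 0 h + vec (ρ * (c5 - 1)) (e * (ρ * s5)) 0 = vec (ρ * c5) (e * (ρ * s5)) h := by
      apply ext3 <;> simp; ring
    rw [this]; exact L.ring e he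

/-- a ring word which is inside and off the cone and the axis is impossible -/
lemma rgw_kill {X D : Set E3} {ρ h τ T : ℝ} (L : LF X D ρ h τ) (hT : h * T = ρ) {b : E3}
    (hb : dot b b = 1) {c s : ℝ} (hcs : c ^ 2 + s ^ 2 = 1)
    (hI : Inv X (vec ρ 0 h) b c s) {e : ℝ} (he : e = 1 ∨ e = -1)
    (hf : rgf b c s (c5 - 1) (e * s5) T < 0) (ho : OffK (rgw b c s (c5 - 1) (e * s5) T)) :
    False := by
  refine lf_offK L (rgw_mem L hT hI he) ?_ ho
  rw [dot_rgw hT hb hcs (by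
    rcases he with h | h <;> rw [h]
    · rw [one_mul]; exact chord5
    · rw [neg_one_mul]; exact chord5n)]
  have : 0 < ρ * h := mul_pos L.ρ_pos L.h_pos
  have := mul_neg_of_pos_of_neg this hf
  linarith

/-- a general word which is inside and off the cone and the axis is impossible -/
lemma gnw_kill {X D : Set E3} {ρ h τ T : ℝ} (L : LF X D ρ h τ) (hT : h * T = ρ) {b : E3}
    (hb : dot b b = 1) {c s : ℝ} (hcs : c ^ 2 + s ^ 2 = 1)
    (hI : Inv X (vec ρ 0 h) b c s) {y : E3} (hy : h • y ∈ X)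
    (hv : dot (y - wT T) (y - wT T) < 0.5704 * (T ^ 2 + 1))
    (hf : gnf b c s y T < 0) (ho : OffK (gnw b c s y T)) : False := by
  have hw : h • wT T = vec ρ 0 h := by rw [wT, ← hT]; apply ext3 <;> simp
  have hh := L.h_pos
  have hh2 : 0 < h ^ 2 := by positivity
  have hρ : ρ ^ 2 + h ^ 2 = h ^ 2 * (T ^ 2 + 1) := by rw [← hT]; ring
  have hX : h • gnw b c s y T ∈ X := by
    have e1 : h • gnw b c s y T = vec ρ 0 h + rot b c s (h • (y - wT T)) := by
      rw [gnw, smul_add, hw, rot_smul]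
    rw [e1]
    apply hI
    · rw [dot_smul_left, dot_smul_right]
      have h1 := L.t_le
      rw [hρ] at h1
      have h2 := mul_lt_mul_of_pos_left hv hh2
      linarith
    · rw [smul_sub, hw, add_sub_cancel]; exact hy
  refine lf_offK L hX ?_ ho
  obtain ⟨u, hu⟩ : ∃ u, u = y - wT T := ⟨_, rfl⟩
  have h1 : dot (rot b c s u) (rot b c s u) = dot u u := dot_rot_rot b hb c s hcs u u
  rw [dot_smul_left, dot_smul_right, gnw, ← hu]
  rw [gnf, ← hu] at hf
  have h2 : dot (wT T + rot b c s u) (wT T + rot b c s u) =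
      T ^ 2 + 1 + (2 * (T * rot b c s u 0 + rot b c s u 2) + dot u u) := by
    rw [← h1]
    simp only [dot, wT, add_0, add_1, add_2, vec_0, vec_1, vec_2]; ring
  rw [h2, hρ]
  nlinarith

/-- If `b` points downwards and `g w_1` is inside then `g^2 w_1` or `g w_{-1}` is inside. -/
lemma key3 {b : E3} (hb : dot b b = 1) (h2 : b 2 < -0.46) {T : ℝ}
    (h11 : rgf b c5 s5 (c5 - 1) s5 T < 0)
    (h12 : 0 ≤ rgf b (2 * c5 ^ 2 - 1) (2 * s5 * c5) (c5 - 1) s5 T)
    (h41 : 0 ≤ rgf b c5 s5 (c5 - 1) (-s5) T) : False := by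
  obtain ⟨c, hc⟩ : ∃ c, c = c5 := ⟨_, rfl⟩
  obtain ⟨s, hs⟩ : ∃ s, s = s5 := ⟨_, rfl⟩
  have hcs : s ^ 2 = 1 - c ^ 2 := by have := c5_sq_add; rw [← hc, ← hs] at this; linarith
  have hs0 : 0 < s := by rw [hs]; exact s5_pos
  have hc1 : (0.30901675:ℝ) < c := by rw [hc]; exact c5_gt
  have hc2 : c < (0.309017:ℝ) := by rw [hc]; exact c5_lt
  rw [← hc, ← hs] at h11 h12 h41
  obtain ⟨F11, e11⟩ : ∃ x, x = rgf b c s (c - 1) s T := ⟨_, rfl⟩
  obtain ⟨F12, e12⟩ : ∃ x, x = rgf b (2 * c ^ 2 - 1) (2 * s * c) (c - 1) s T := ⟨_, rfl⟩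
  obtain ⟨F41, e41⟩ : ∃ x, x = rgf b c s (c - 1) (-s) T := ⟨_, rfl⟩
  have hb' : b 0 ^ 2 + b 1 ^ 2 + b 2 ^ 2 = 1 := by simp only [dot] at hb; linarith
  -- the square of the length of the projection of the chord
  obtain ⟨N, hN⟩ : ∃ N, N = (c - 1) ^ 2 + s ^ 2 - (b 0 * (c - 1) + b 1 * s) ^ 2 := ⟨_, rfl⟩
  have hN0 : 0 ≤ N := by
    have h3 : (b 0 * (c - 1) + b 1 * s) ^ 2 + (b 0 * s - b 1 * (c - 1)) ^ 2 =
        (b 0 ^ 2 + b 1 ^ 2) * ((c - 1) ^ 2 + s ^ 2) := by ring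
    have h4 : b 0 ^ 2 + b 1 ^ 2 ≤ 1 := by linarith [sq_nonneg (b 2)]
    have h5 : (b 0 ^ 2 + b 1 ^ 2) * ((c - 1) ^ 2 + s ^ 2) ≤ 1 * ((c - 1) ^ 2 + s ^ 2) :=
      mul_le_mul_of_nonneg_right h4 (by positivity)
    have h6 := sq_nonneg (b 0 * s - b 1 * (c - 1))
    linarith
  obtain ⟨Br, hBr⟩ : ∃ Br, Br = (c - 1) ^ 2 - s ^ 2 - ((b 0 * (c - 1)) ^ 2 - (b 1 * s) ^ 2) -
      2 * (1 - c) * (1 + c) * b 2 := ⟨_, rfl⟩
  have key : N * F41 = Br * F11 + 2 * (1 - c) * b 2 * F12 := by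
    obtain ⟨p1, hp1⟩ : ∃ x, x = b 0 * (c - 1) + b 1 * s := ⟨_, rfl⟩
    obtain ⟨p4, hp4⟩ : ∃ x, x = b 0 * (c - 1) - b 1 * s := ⟨_, rfl⟩
    obtain ⟨ω, hω⟩ : ∃ x, x = T * b 0 + b 2 := ⟨_, rfl⟩
    obtain ⟨A, hA⟩ : ∃ x, x = T * (c - 1) - p1 * ω := ⟨_, rfl⟩
    obtain ⟨A', hA'⟩ : ∃ x, x = T * (c - 1) - p4 * ω := ⟨_, rfl⟩
    obtain ⟨B, hB⟩ : ∃ x, x = -(T * (b 2 * s)) + (b 0 * s - b 1 * (c - 1)) := ⟨_, rfl⟩
    obtain ⟨B', hB'⟩ : ∃ x, x = T * (b 2 * s) + (-(b 0 * s) - b 1 * (c - 1)) := ⟨_, rfl⟩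
    obtain ⟨a, ha⟩ : ∃ a, a = (c - 1) ^ 2 - s ^ 2 - p1 * p4 := ⟨_, rfl⟩
    have g11 : F11 = -(1 - c) * A + s * B := by
      rw [e11, hA, hB, hp1, hω]
      simp only [rgf, rot_0, rot_2, dot, vec_0, vec_1, vec_2]
      ring
    have g12 : F12 = -(2 * s ^ 2) * A + 2 * s * c * B := by
      have e : F12 = -(1 - (2 * c ^ 2 - 1)) * A + 2 * s * c * B := by
        rw [e12, hA, hB, hp1, hω]
        simp only [rgf, rot_0, rot_2, dot, vec_0, vec_1, vec_2]
        ring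
      rw [e, hcs]; ring
    have g41 : F41 = -(1 - c) * A' + s * B' := by
      rw [e41, hA', hB', hp4, hω]
      simp only [rgf, rot_0, rot_2, dot, vec_0, vec_1, vec_2]
      ring
    have k1 : N * A' = a * A + b 2 * (2 * s * (1 - c)) * B := by
      rw [hN, ha, hA, hA', hB, hp1, hp4, hω]
      linear_combination (-(2 * T * (c - 1) * s ^ 2)) * hb'
    have k2 : N * B' = a * B - b 2 * (2 * s * (1 - c)) * A := by
      rw [hN, ha, hA, hB', hB, hp1, hp4, hω]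
      linear_combination (2 * (c - 1) * s * (b 0 * (c - 1) + b 1 * s)) * hb'
    have k3 : Br = a - 2 * (1 - c) * (1 + c) * b 2 := by
      rw [hBr, ha, hp1, hp4]; ring
    have k4 : N * F41 = -(1 - c) * (N * A') + s * (N * B') := by rw [g41]; ring
    rw [k4, k1, k2, k3, g11, g12]
    linear_combination (2 * (1 - c) * b 2 * A) * hcs
  have hBr0 : 0 < Br := by
    have g1 : b 0 ^ 2 ≤ 1 - b 2 ^ 2 := by linarith [sq_nonneg (b 1)]
    have g0 : 0 ≤ 1 - b 2 ^ 2 := (sq_nonneg _).trans g1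
    have g2 : (b 0 * (c - 1)) ^ 2 ≤ (1 - b 2 ^ 2) * 0.478 := by
      have h3 : (c - 1) ^ 2 ≤ 0.478 := by nlinarith only [hc1, hc2]
      rw [mul_pow]
      exact mul_le_mul g1 h3 (sq_nonneg _) g0
    have g3 : (c - 1) ^ 2 - s ^ 2 = -(2 * c * (1 - c)) := by rw [hcs]; ring
    have g4 : -0.4272 ≤ -(2 * c * (1 - c)) := by nlinarith only [hc1, hc2]
    have g5 : 1.809 ≤ 2 * (1 - c) * (1 + c) := by nlinarith only [hc1, hc2]
    have g6 : 1.809 * (-b 2) ≤ 2 * (1 - c) * (1 + c) * (-b 2) :=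
      mul_le_mul_of_nonneg_right g5 (by linarith)
    have g7 := sq_nonneg (b 1 * s)
    rw [hBr, g3]
    nlinarith only [g2, g4, g6, g7, h2]
  rw [← e11] at h11
  rw [← e12] at h12
  rw [← e41] at h41
  have k1 := mul_nonneg hN0 h41
  have k2 := mul_neg_of_pos_of_neg hBr0 h11
  have k3 : 2 * (1 - c) * b 2 * F12 ≤ 0 := by
    have : 2 * (1 - c) * b 2 ≤ 0 :=
      mul_nonpos_of_nonneg_of_nonpos (by linarith) (by linarith)
    exact mul_nonpos_of_nonpos_of_nonneg this h12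
  linarith

theorem hCross : HCross := by
  intro X D ρ h τ b L hb hX hlt hz
  have hρ := L.ρ_pos
  have hh := L.h_pos
  obtain ⟨T, hTd⟩ : ∃ T, T = ρ / h := ⟨_, rfl⟩
  have hT : h * T = ρ := by rw [hTd]; field_simp
  have hT0 : 0 ≤ T := by rw [hTd]; positivity
  have hT1 : T < 0.764 := by
    have h1 := L.hT
    rw [← hT] at h1
    nlinarith only [h1, hh]
  obtain ⟨i1, i2, i3, i4⟩ := hb.five
  have hu := hb.unit
  have hzw : wd ρ h b c5 s5 = h • rgw b c5 s5 (c5 - 1) s5 T := by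
    rw [smul_rgw hT]; rfl
  rw [hzw] at hX hlt hz
  obtain ⟨P, hP⟩ : ∃ P, P = rgw b c5 s5 (c5 - 1) s5 T := ⟨_, rfl⟩
  have hρh : 0 < ρ * h := mul_pos hρ hh
  have hz' := dot_rgw hT hu c5_sq_add (v0 := c5 - 1) (v1 := s5) chord5
  rw [hz'] at hlt
  have hin : rgf b c5 s5 (c5 - 1) s5 T < 0 := by
    by_contra hcon
    push Not at hcon
    have := mul_nonneg hρh.le hcon
    linarith
  -- the height of `z` is positive
  have hP2 : 0 < P 2 := by
    have h1 : dot (h • P - vec ρ 0 h) (h • P - vec ρ 0 h) = 2 * (1 - c5) * ρ ^ 2 := by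
      rw [hP, smul_rgw hT, add_sub_cancel_left, dot_rot_rot b hu c5 s5 c5_sq_add]
      have := c5_sq_add
      simp only [dot, vec_0, vec_1, vec_2]
      linear_combination (ρ ^ 2) * this
    have h2 : (h * P 2 - h) ^ 2 ≤ 2 * (1 - c5) * ρ ^ 2 := by
      rw [← h1]
      simp only [dot, sub_0, sub_1, sub_2, smul_0, smul_1, smul_2, vec_0, vec_1, vec_2]
      nlinarith only [sq_nonneg (h * P 0 - ρ), sq_nonneg (h * P 1 - 0)]
    by_contra hcon
    push Not at hcon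
    have h3 : h ^ 2 ≤ (h * P 2 - h) ^ 2 := by
      have h4 : h * P 2 ≤ 0 := mul_nonpos_of_nonneg_of_nonpos hh.le hcon
      nlinarith only [h4, hh]
    have h5 := c5_gt
    have h6 : ρ ^ 2 ≤ 0.584 * h ^ 2 := by
      have : ρ ^ 2 = T ^ 2 * h ^ 2 := by rw [← hT]; ring
      rw [this]
      have : T ^ 2 ≤ 0.584 := by nlinarith only [hT0, hT1]
      exact mul_le_mul_of_nonneg_right this (sq_nonneg _)
    have h7 : 2 * (1 - c5) * ρ ^ 2 ≤ 2 * 0.7 * ρ ^ 2 :=
      mul_le_mul_of_nonneg_right (by linarith) (sq_nonneg _)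
    have h8 : 0 < h ^ 2 := by positivity
    linarith
  -- `z` lies on a line of the star
  obtain ⟨v, hv, r, hr, e⟩ := L.clean _ hX (by rw [hz']; exact hlt)
  rw [← hP] at e hz hX
  have e2 : h * P 2 = r * v 2 := by rw [← smul_2, e, smul_2]
  have hv2 : v 2 = i5 := by
    have h1 : 5 * (r * v 2) ^ 2 = r ^ 2 := by
      rw [e] at hz
      simp only [smul_2, dot_smul_left, dot_smul_right, L.unit v hv] at hz
      linarith
    have hr0 : r ≠ 0 := by
      rintro rfl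
      rw [zero_mul] at e2
      exact absurd e2 (mul_pos hh hP2).ne'
    have h2 : v 2 ^ 2 = 1 / 5 := by
      have : r ^ 2 * (5 * v 2 ^ 2 - 1) = 0 := by linarith
      have := (mul_eq_zero.1 this).resolve_left (by positivity)
      linarith
    have h3 : 0 < v 2 := by
      by_contra hcon
      push Not at hcon
      have := mul_nonpos_of_nonneg_of_nonpos hr hcon
      have := mul_pos hh hP2
      linarith
    exact (pow_left_inj₀ h3.le i5_pos.le two_ne_zero).1 (by rw [h2, i5_sq])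
  have hr5 : r = h * (5 * i5 * P 2) := by
    have h1 : h * P 2 = r * i5 := by rw [e2, hv2]
    have h2 := i5_sq
    linear_combination (-5 * i5) * h1 + (-5 * r) * h2
  have hP0 : P 0 = 5 * i5 * P 2 * v 0 := by
    have h1 : h * P 0 = r * v 0 := by rw [← smul_0, e, smul_0]
    rw [hr5] at h1
    have h2 : h * (P 0 - 5 * i5 * P 2 * v 0) = 0 := by linarith
    have := (mul_eq_zero.1 h2).resolve_left hh.ne'
    linarith
  have hP1 : P 1 = 5 * i5 * P 2 * v 1 := by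
    have h1 : h * P 1 = r * v 1 := by rw [← smul_1, e, smul_1]
    rw [hr5] at h1
    have h2 : h * (P 1 - 5 * i5 * P 2 * v 1) = 0 := by linarith
    have := (mul_eq_zero.1 h2).resolve_left hh.ne'
    linarith
  have hGq : Gq P = 0 := by
    have hu := L.unit v hv
    simp only [dot, hv2] at hu
    have h5 := i5_sq
    have h6 : v 0 ^ 2 + v 1 ^ 2 = 4 / 5 := by linarith
    rw [Gq, hP0, hP1]
    linear_combination (25 * i5 ^ 2 * P 2 ^ 2) * h6 + (20 * P 2 ^ 2) * h5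
  have hlam : 0 ≤ 5 * i5 * P 2 := by have := i5_pos; positivity
  have h1m : 4 * c5 * i5 = 1 - i5 := by
    have h5 := i5_sq
    have h6 := c5_eq
    rw [h6]; linear_combination 5 * h5
  have hr2 : 5 * P 2 ^ 2 < 0.5704 * (T ^ 2 + 1) → r ≤ 2 := by
    intro hl
    have h1 : r ^ 2 = h ^ 2 * (5 * P 2 ^ 2) := by
      rw [hr5]; linear_combination (25 * h ^ 2 * P 2 ^ 2) * i5_sq
    have h2 : r ^ 2 < h ^ 2 * (0.5704 * (T ^ 2 + 1)) := by
      rw [h1]; exact mul_lt_mul_of_pos_left hl (by positivity)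
    have h3 : h ^ 2 * (T ^ 2 + 1) = ρ ^ 2 + h ^ 2 := by rw [← hT]; ring
    have h4 := L.t_le
    have h5 : r ^ 2 < 2 ^ 2 := by linarith
    exact (lt_of_pow_lt_pow_left₀ 2 (by norm_num) h5).le
  rcases cross5 hu hT0 hT1 with h1 | h1 | h1 | h1 | ⟨h1, h2⟩ | ⟨h1, h2⟩ | ⟨h1, h2⟩ |
    ⟨h1, h2, h3⟩ | ⟨h1, h2, h3, h4⟩ | ⟨h1, h2, h3, h4⟩
  · rw [← hP] at h1; exact h1 hGq
  · linarith
  · rw [← hP] at h1
    have hn := L.near v hv
    rw [hv2, ← hT] at hn
    have h3 : T * v 0 ≤ 4 * c5 * i5 := by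
      rw [h1m]; nlinarith only [hn, hh]
    have h4 : T * P 0 ≤ 4 * c5 * P 2 := by
      rw [hP0]
      have h5 := mul_le_mul_of_nonneg_left h3 hlam
      have h6 : 5 * i5 * P 2 * (4 * c5 * i5) = 4 * c5 * P 2 := by
        linear_combination (20 * c5 * P 2) * i5_sq
      rw [h6] at h5
      linarith
    linarith
  · rw [← hP] at h1
    have hn := L.nearR v hv 1 (Or.inl rfl)
    rw [hv2, ← hT, one_mul] at hn
    have h3 : T * (c5 * v 0 + s5 * v 1) ≤ 4 * c5 * i5 := by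
      rw [h1m]; nlinarith only [hn, hh]
    have h4 : T * (c5 * P 0 + s5 * P 1) ≤ 4 * c5 * P 2 := by
      rw [hP0, hP1]
      have h5 := mul_le_mul_of_nonneg_left h3 hlam
      have h6 : 5 * i5 * P 2 * (4 * c5 * i5) = 4 * c5 * P 2 := by
        linear_combination (20 * c5 * P 2) * i5_sq
      rw [h6] at h5
      linarith
    linarith
  · exact rgw_kill L hT hu cs52 i3 (e := 1) (Or.inl rfl) (by rw [one_mul]; exact h1)
      (by rw [one_mul]; exact h2)
  · exact rgw_kill L hT hu c5_sq_add i1 (e := -1) (Or.inr rfl) (by rw [neg_one_mul]; exact h1)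
      (by rw [neg_one_mul]; exact h2)
  · exact rgw_kill L hT hu cs5n i2 (e := -1) (Or.inr rfl) (by rw [neg_one_mul]; exact h1)
      (by rw [neg_one_mul]; exact h2)
  · by_cases h12 : rgf b (2 * c5 ^ 2 - 1) (2 * s5 * c5) (c5 - 1) s5 T < 0
    · exact rgw_kill L hT hu cs52 i3 (e := 1) (Or.inl rfl) (by rw [one_mul]; exact h12)
        (by rw [one_mul]; exact h2)
    by_cases h41 : rgf b c5 s5 (c5 - 1) (-s5) T < 0
    · exact rgw_kill L hT hu c5_sq_add i1 (e := -1) (Or.inr rfl)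
        (by rw [neg_one_mul]; exact h41) (by rw [neg_one_mul]; exact h3)
    exact key3 hu h1 hin (not_lt.1 h12) (not_lt.1 h41)
  · rw [← hP] at h1 h2 h3 h4
    have hy : h • vec 0 0 (5 * i5 * P 2) ∈ X := by
      have e3 : h • vec 0 0 (5 * i5 * P 2) = r • Pool.Agent.Lib.MP_c5a075_co.e3 := by
        rw [hr5]; apply ext3 <;> simp
      rw [e3]
      exact L.trans v hv _ L.e3_mem r hr (hr2 h1) (by rw [← e]; exact hX)
    exact gnw_kill L hT hu c5_sq_add i1 hy h2 h3 h4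
  · rw [← hP] at h1 h2 h3 h4
    have hy : h • rot Pool.Agent.Lib.MP_c5a075_co.e3 c5 (-s5) P ∈ X := by
      have e3 : h • rot Pool.Agent.Lib.MP_c5a075_co.e3 c5 (-s5) P =
          r • (rotFr (-1)).lin v := by
        rw [← rot_smul, e, rot_smul]
        congr 1
        rw [rotFr_lin]
        have e4 : ((-1 : ℤ) : ℝ) * (2 * π / 5) = -(2 * π / 5) := by push_cast; ring
        rw [e4, Real.cos_neg, Real.sin_neg, cos_two_pi_div_five, sin_two_pi_div_five]
        apply ext3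
        · rw [rot_0]; simp [dot]
        · rw [rot_1]; simp [dot]; ring
        · rw [rot_2]; simp [dot]; ring
      rw [e3]
      exact L.trans v hv _ (L.rotD v hv (-1)) r hr (hr2 h1) (by rw [← e]; exact hX)
    exact gnw_kill L hT hu cs5n i2 hy h2 h3 h4

end

end Pool.Agent.Lib.MP_c5a075_co
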