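import Pool.Agent.Lib.MP_c5a075_co.LemmaW
import Pool.Agent.Lib.MP_c5a075_co.RingBase
import Pool.Agent.Lib.MP_c5a075_co.I5

/-! Local analysis of the nearest point off the star: the geometric form of Lemma W. -/

set_option autoImplicit false
set_option maxHeartbeats 4000000

namespace Pool.Agent.Lib.MP_c5a075_co

noncomputable section

open Real

/-- `cot 36° = tan 54°` -/
def k54 : ℝ := s5 / (1 - c5)

lemma k54_mul : (1 - c5) * k54 = s5 := by
  unfold k54; have := one_sub_c5_pos; field_simp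
lemma k54_pos : 0 < k54 := div_pos s5_pos one_sub_c5_pos
lemma k54_sq : (1 - c5) * k54 ^ 2 = 1 + c5 := by
  have h1 := k54_mul
  have h2 := one_sub_c5_pos
  have h3 : (1 - c5) * ((1 - c5) * k54 ^ 2) = s5 ^ 2 := by
    have : s5 ^ 2 = ((1 - c5) * k54) ^ 2 := by rw [h1]
    rw [this]; ring
  have h4 : s5 ^ 2 = (1 - c5) * (1 + c5) := by have := c5_sq_add; linarith
  rw [h4] at h3
  exact mul_left_cancel₀ h2.ne' h3
lemma k54_sq_gt : 3 / 2 ≤ k54 ^ 2 := by
  have h1 := k54_sq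
  have h2 := c5_gt
  have h3 := c5_lt
  by_contra h
  push Not at h
  linarith only [h1, h2, mul_pos one_sub_c5_pos (sub_pos.2 h)]

/-- The norm of a rotated ring neighbour, formula. -/
lemma norm_word (b w u : E3) (hb : dot b b = 1) (c s : ℝ) (hcs : c ^ 2 + s ^ 2 = 1)
    (huw : 2 * dot w u = -dot u u) :
    dot (w + rot b c s u) (w + rot b c s u) =
      dot w w + 2 * (1 - c) * (dot b u * dot b w - dot w u) + 2 * s * dot w (cross b u) := by
  have h1 : dot (rot b c s u) (rot b c s u) = dot u u := dot_rot_rot b hb c s hcs u u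
  have h2 : dot w (rot b c s u) = c * dot w u + (1 - c) * dot b u * dot b w +
      s * dot w (cross b u) := by
    simp only [rot, dot, add_0, add_1, add_2, smul_0, smul_1, smul_2, cross_0, cross_1, cross_2]
    ring
  rw [dot_add_left, dot_add_right, dot_add_right, dot_comm (rot b c s u) w, h1, h2]
  linarith

/-- Lemma W in the frame with `l_1` the `z`-axis and `w` in the `xz`-plane. -/
theorem lemmaW_frame {ρ h c s : ℝ} (hρ : 0 < ρ) (hh : 0 < h) (hT : ρ < k54 * h) {b : E3}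
    (hb : dot b b = 1) (hcs : c ^ 2 + s ^ 2 = 1) (hs : 0 < s) (hc : k54 * (1 - c) ≤ s)
    (hcon : ∀ e k : ℝ, (e = 1 ∨ e = -1) → (k = 1 ∨ k = -1) →
      dot (vec ρ 0 h) (vec ρ 0 h) ≤
        dot (vec ρ 0 h + rot b c (k * s) (vec (ρ * (c5 - 1)) (e * (ρ * s5)) 0))
          (vec ρ 0 h + rot b c (k * s) (vec (ρ * (c5 - 1)) (e * (ρ * s5)) 0))) :
    b 1 = 0 ∧ h * b 0 = ρ * b 2 := by
  have hk := k54_pos
  have hkm := k54_mul
  have h1c := one_sub_c5_pos
  have hc1 : c < 1 := by nlinarith only [hcs, mul_pos hs hs]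
  have hρ' : 0 < ρ * (1 - c5) := mul_pos hρ h1c
  -- the two consequences
  have key : ∀ e : ℝ, (e = 1 ∨ e = -1) →
      k54 * |b 1 + e * k54 * (b 0 - ρ / h * b 2)| ≤
        ρ / h * (b 1 ^ 2 + b 2 ^ 2) - b 0 * b 2 + e * k54 * b 1 * (ρ / h * b 0 + b 2) := by
    intro e he
    obtain ⟨A, hA⟩ : ∃ A, A = ρ / h * (b 1 ^ 2 + b 2 ^ 2) - b 0 * b 2 +
      e * k54 * b 1 * (ρ / h * b 0 + b 2) := ⟨_, rfl⟩
    obtain ⟨D, hD⟩ : ∃ D, D = b 1 + e * k54 * (b 0 - ρ / h * b 2) := ⟨_, rfl⟩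
    have hee : e ^ 2 = 1 := by rcases he with h | h <;> rw [h] <;> norm_num
    obtain ⟨w, hw⟩ : ∃ w, w = vec ρ 0 h := ⟨_, rfl⟩
    obtain ⟨u, hu⟩ : ∃ u, u = vec (ρ * (c5 - 1)) (e * (ρ * s5)) 0 := ⟨_, rfl⟩
    have huw : 2 * dot w u = -dot u u := by
      rw [hw, hu]
      simp only [dot, vec_0, vec_1, vec_2]
      have := c5_sq_add
      have e1 : e * (ρ * s5) * (e * (ρ * s5)) = e ^ 2 * (ρ ^ 2 * s5 ^ 2) := by ring
      rw [e1, hee]
      have : s5 ^ 2 = 1 - c5 ^ 2 := by linarith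
      rw [this]; ring
    have hunit : b 0 ^ 2 + b 1 ^ 2 + b 2 ^ 2 = 1 := by
      have : b 0 * b 0 + b 1 * b 1 + b 2 * b 2 = 1 := hb
      linarith
    have hAe : dot b u * dot b w - dot w u = ρ * (1 - c5) * h * A := by
      rw [hA, hw, hu]
      simp only [dot, vec_0, vec_1, vec_2]
      have e1 : ρ / h * h = ρ := by field_simp
      have e2 : ρ * (1 - c5) * h * (ρ / h * (b 1 ^ 2 + b 2 ^ 2) - b 0 * b 2 +
          e * k54 * b 1 * (ρ / h * b 0 + b 2)) =
        ρ * (1 - c5) * ((ρ / h * h) * (b 1 ^ 2 + b 2 ^ 2) - h * b 0 * b 2 +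
          e * k54 * b 1 * ((ρ / h * h) * b 0 + h * b 2)) := by ring
      rw [e2, e1]
      have e3 : ρ * (1 - c5) * (ρ * (b 1 ^ 2 + b 2 ^ 2) - h * b 0 * b 2 +
          e * k54 * b 1 * (ρ * b 0 + h * b 2)) =
        ρ * ((1 - c5) * (ρ * (1 - b 0 ^ 2) - h * b 0 * b 2) +
          e * ((1 - c5) * k54) * b 1 * (ρ * b 0 + h * b 2)) := by
        have : b 1 ^ 2 + b 2 ^ 2 = 1 - b 0 ^ 2 := by linarith only [hunit]
        rw [this]; ring
      rw [e3, hkm]; ring
    have hDe : dot w (cross b u) = ρ * (1 - c5) * h * D := by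
      rw [hD, hw, hu]
      simp only [dot, vec_0, vec_1, vec_2, cross_0, cross_1, cross_2]
      have e1 : ρ / h * h = ρ := by field_simp
      have e2 : ρ * (1 - c5) * h * (b 1 + e * k54 * (b 0 - ρ / h * b 2)) =
        ρ * ((1 - c5) * (h * b 1) + e * ((1 - c5) * k54) * (h * b 0 - (ρ / h * h) * b 2)) := by ring
      rw [e2, e1, hkm]; ring
    have hpos : 0 < ρ * (1 - c5) * h := mul_pos hρ' hh
    have h2 : ∀ k : ℝ, (k = 1 ∨ k = -1) → 0 ≤ (1 - c) * A + k * s * D := by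
      intro k hk'
      have h3 := hcon e k he hk'
      rw [← hw, ← hu] at h3
      have hcs' : c ^ 2 + (k * s) ^ 2 = 1 := by
        rcases hk' with h | h <;> rw [h] <;> linarith only [hcs]
      rw [norm_word b w u hb c (k * s) hcs' huw, hAe, hDe] at h3
      have h4 : 0 ≤ (ρ * (1 - c5) * h) * ((1 - c) * A + k * s * D) := by
        have e5 : 2 * (1 - c) * (ρ * (1 - c5) * h * A) + 2 * (k * s) * (ρ * (1 - c5) * h * D) =
          2 * ((ρ * (1 - c5) * h) * ((1 - c) * A + k * s * D)) := by ring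
        linarith
      exact nonneg_of_mul_nonneg_right h4 hpos
    have h5 := h2 1 (Or.inl rfl)
    have h6 := h2 (-1) (Or.inr rfl)
    have h7 : s * |D| ≤ (1 - c) * A := by
      rcases le_total 0 D with hD0 | hD0
      · rw [abs_of_nonneg hD0]; linarith
      · rw [abs_of_nonpos hD0]; linarith
    have hA0 : 0 ≤ A := by
      have : 0 ≤ s * |D| := mul_nonneg hs.le (abs_nonneg _)
      have h8 : 0 ≤ (1 - c) * A := by linarith
      exact nonneg_of_mul_nonneg_right h8 (by linarith)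
    have h9 : s * (k54 * |D|) ≤ s * A := by
      have e6 : s * (k54 * |D|) = k54 * (s * |D|) := by ring
      have h10 := mul_le_mul_of_nonneg_left h7 hk.le
      have h11 := mul_le_mul_of_nonneg_right hc hA0
      have e7 : k54 * ((1 - c) * A) = k54 * (1 - c) * A := by ring
      linarith
    rw [← hD, ← hA]
    exact le_of_mul_le_mul_left h9 hs
  have k1 := key 1 (Or.inl rfl)
  have k2 := key (-1) (Or.inr rfl)
  have hunit : b 0 ^ 2 + b 1 ^ 2 + b 2 ^ 2 = 1 := by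
    have : b 0 * b 0 + b 1 * b 1 + b 2 * b 2 = 1 := hb
    linarith
  have hT' : ρ / h < k54 := by rw [div_lt_iff₀ hh]; exact hT
  have := lemmaW_core k54 (ρ / h) (b 0) (b 1) (b 2) k54_sq_gt hk (by positivity) hT' hunit
    (by
      have e1 : b 1 + k54 * (b 0 - ρ / h * b 2) = b 1 + 1 * k54 * (b 0 - ρ / h * b 2) := by ring
      rw [e1]; refine k1.trans (le_of_eq ?_); ring)
    (by
      have e1 : b 1 - k54 * (b 0 - ρ / h * b 2) = b 1 + -1 * k54 * (b 0 - ρ / h * b 2) := by ring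
      rw [e1]; refine k2.trans (le_of_eq ?_); ring)
  refine ⟨this.1, ?_⟩
  rw [this.2]; field_simp


/-- Constants of the second solution `b⁺`. -/
def bp2 : ℝ := (2 - c5) / (3 * (1 - c5))
def bp0 : ℝ := 2 * c5 * (1 - bp2)
def bp1 : ℝ := (2 * c5 - (1 - c5) * bp0) / s5

lemma bp2_mul : 3 * (1 - c5) * bp2 = 2 - c5 := by
  unfold bp2; have := one_sub_c5_pos; field_simp
lemma bp1_mul : s5 * bp1 = 2 * c5 - (1 - c5) * bp0 := by
  unfold bp1; have := s5_pos; field_simp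

/-- The chord of a word. -/
lemma chord_word (b w u : E3) (hb : dot b b = 1) (c s : ℝ) (hcs : c ^ 2 + s ^ 2 = 1) :
    dot (w + rot b c s u - (w + u)) (w + rot b c s u - (w + u)) =
      2 * (1 - c) * (dot u u - dot b u ^ 2) := by
  have e : w + rot b c s u - (w + u) = rot b c s u - u := by abel
  rw [e, dot_rot_sub b hb c s hcs]

lemma dot_ring {ρ e : ℝ} (he : e = 1 ∨ e = -1) :
    dot (vec (ρ * (c5 - 1)) (e * (ρ * s5)) 0) (vec (ρ * (c5 - 1)) (e * (ρ * s5)) 0) =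
      2 * (1 - c5) * ρ ^ 2 := by
  have hee : e ^ 2 = 1 := by rcases he with h | h <;> rw [h] <;> norm_num
  simp only [dot, vec_0, vec_1, vec_2]
  have h1 := c5_sq_add
  have e1 : e * (ρ * s5) * (e * (ρ * s5)) = e ^ 2 * (ρ ^ 2 * s5 ^ 2) := by ring
  have h2 : s5 ^ 2 = 1 - c5 ^ 2 := by linarith
  rw [e1, hee, h2]; ring

/-- A word landing on `l_1` has rotation angle at least `60°`. -/
lemma onaxis_angle {ρ h c s e : ℝ} (hρ : 0 < ρ) (he : e = 1 ∨ e = -1) {b z : E3}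
    (hb : dot b b = 1) (hcs : c ^ 2 + s ^ 2 = 1) (hc : c ≤ 1)
    (hz : z = vec ρ 0 h + rot b c s (vec (ρ * (c5 - 1)) (e * (ρ * s5)) 0))
    (h0 : z 0 = 0) (h1 : z 1 = 0) : c ≤ 1 / 2 := by
  obtain ⟨u, hu⟩ : ∃ u, u = vec (ρ * (c5 - 1)) (e * (ρ * s5)) 0 := ⟨_, rfl⟩
  obtain ⟨w, hw⟩ : ∃ w, w = vec ρ 0 h := ⟨_, rfl⟩
  have huu : dot u u = 2 * (1 - c5) * ρ ^ 2 := by rw [hu]; exact dot_ring he
  have hch := chord_word b w u hb c s hcs
  have e1 : dot (z - w) (z - w) = dot u u := by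
    have : z - w = rot b c s u := by rw [hz, ← hw, ← hu]; abel
    rw [this]; exact dot_rot_rot b hb c s hcs u u
  have e2 : dot (z - (w + u)) (z - (w + u)) = dot (z - w) (z - w) := by
    have hee : e ^ 2 = 1 := by rcases he with h | h <;> rw [h] <;> norm_num
    rw [hu, hw]
    simp only [dot, sub_0, sub_1, sub_2, add_0, add_1, add_2, vec_0, vec_1, vec_2, h0, h1]
    have h1 := c5_sq_add
    have e3 : (0 - (0 + e * (ρ * s5))) * (0 - (0 + e * (ρ * s5))) = e ^ 2 * (ρ ^ 2 * s5 ^ 2) := by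
      ring
    have h2 : s5 ^ 2 = 1 - c5 ^ 2 := by linarith
    rw [e3, hee, h2]; ring
  have e4 : w + rot b c s u = z := by rw [hz, ← hw, ← hu]
  rw [e4, e2, e1] at hch
  have hupos : 0 < dot u u := by
    rw [huu]; have := one_sub_c5_pos; positivity
  by_contra hcon
  push Not at hcon
  have h3 := sq_nonneg (dot b u)
  have h4 : 0 ≤ 2 * (1 - c) * dot b u ^ 2 := by
    have : 0 ≤ 2 * (1 - c) := by linarith
    positivity
  linarith only [hch, h4, mul_pos (sub_pos.2 hcon) hupos]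

/-- Classification of the axes for which a word lands on `l_1`. -/
theorem onaxis_five {ρ h e k : ℝ} (hρ : 0 < ρ) (hh : ρ < 2 * h) (he : e = 1 ∨ e = -1)
    (hk : k = 1 ∨ k = -1) {b z : E3} (hb : dot b b = 1)
    (hz : z = vec ρ 0 h + rot b c5 (k * s5) (vec (ρ * (c5 - 1)) (e * (ρ * s5)) 0))
    (h0 : z 0 = 0) (h1 : z 1 = 0) (hlt : dot z z < ρ ^ 2 + h ^ 2) :
    z 2 = h - 2 * c5 * ρ ∧
    (b = vec (-(k * e * (2 * i5))) 0 (k * e * i5) ∨
      b = vec (k * e * bp0) (-(k * bp1)) (k * e * bp2)) := by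
  have hee : e ^ 2 = 1 := by rcases he with h | h <;> rw [h] <;> norm_num
  have hkk : k ^ 2 = 1 := by rcases hk with h | h <;> rw [h] <;> norm_num
  have hc1 := c5_gt
  have hc2 := c5_lt
  have hcc := c5_sq
  have hcs := c5_sq_add
  have hs := s5_pos
  have hss : s5 ^ 2 = (1 - c5) * (1 + c5) := by linarith
  have h1c := one_sub_c5_pos
  have hcs' : c5 ^ 2 + (k * s5) ^ 2 = 1 := by rw [mul_pow, hkk, one_mul]; exact hcs
  obtain ⟨u, hu⟩ : ∃ u, u = vec (ρ * (c5 - 1)) (e * (ρ * s5)) 0 := ⟨_, rfl⟩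
  obtain ⟨w, hw⟩ : ∃ w, w = vec ρ 0 h := ⟨_, rfl⟩
  obtain ⟨v, hv⟩ : ∃ v, v = z - w := ⟨_, rfl⟩
  have huu : dot u u = 2 * (1 - c5) * ρ ^ 2 := by rw [hu]; exact dot_ring he
  have hvr : v = rot b c5 (k * s5) u := by rw [hv, hz, ← hw, ← hu]; abel
  have hvv : dot v v = dot u u := by rw [hvr]; exact dot_rot_rot b hb c5 (k * s5) hcs' u u
  have hv0 : v 0 = -ρ := by rw [hv, hw]; simp [h0]
  have hv1 : v 1 = 0 := by rw [hv, hw]; simp [h1]
  have hv2 : v 2 = z 2 - h := by rw [hv, hw]; simp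
  -- the height
  have hz2 : z 2 = h - 2 * c5 * ρ := by
    have e1 : dot v v = ρ ^ 2 + (z 2 - h) ^ 2 := by
      simp only [dot, hv0, hv1, hv2]; ring
    rw [hvv, huu] at e1
    have e2 : (z 2 - h) ^ 2 = (2 * c5 * ρ) ^ 2 := by
      have : (2 * c5 * ρ) ^ 2 = 4 * c5 ^ 2 * ρ ^ 2 := by ring
      rw [this, hcc]; linarith
    rcases sq_eq_sq_iff_eq_or_eq_neg.1 e2 with h' | h'
    · exfalso
      have e3 : z 2 = h + 2 * c5 * ρ := by linarith
      have e4 : dot z z = z 2 ^ 2 := by simp only [dot, h0, h1]; ring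
      rw [e4, e3] at hlt
      have : 0 < c5 * ρ := by positivity
      have e5 : 4 * c5 ^ 2 * ρ ^ 2 = (1 - 2 * c5) * ρ ^ 2 := by rw [hcc]; ring
      linarith only [hlt, e5, mul_pos this (sub_pos.2 hh)]
    · linarith
  refine ⟨hz2, ?_⟩
  have hv2' : v 2 = -(2 * c5 * ρ) := by rw [hv2, hz2]; ring
  -- scalar equations
  have s1 : dot b v = dot b u := by rw [hvr]; exact dot_axis_rot b hb c5 (k * s5) u
  have s2 : dot v u = c5 * dot u u + (1 - c5) * dot b u ^ 2 := by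
    rw [hvr]
    simp only [rot, dot, add_0, add_1, add_2, smul_0, smul_1, smul_2, cross_0, cross_1, cross_2]
    ring
  have s3 : dot b (cross u v) = k * s5 * (dot u u - dot b u ^ 2) := by
    have e1 : dot b (cross u (rot b c5 (k * s5) u)) =
        k * s5 * (dot u u * dot b b - dot b u ^ 2) := by
      simp only [rot, dot, add_0, add_1, add_2, smul_0, smul_1, smul_2, cross_0, cross_1, cross_2]
      ring
    rw [hvr, e1, hb, mul_one]
  have hvu : dot v u = (1 - c5) * ρ ^ 2 := by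
    rw [hu]; simp only [dot, hv0, hv1, hv2', vec_0, vec_1, vec_2]; ring
  have hD2 : dot b u ^ 2 = (2 * c5 * ρ) ^ 2 := by
    rw [hvu, huu] at s2
    have e1 : (1 - c5) * dot b u ^ 2 = (1 - c5) * (2 * c5 * ρ) ^ 2 := by
      have e2 : (2 * c5 * ρ) ^ 2 = 4 * c5 ^ 2 * ρ ^ 2 := by ring
      have e3 : (1 - c5) * (4 * c5 ^ 2 * ρ ^ 2) = (1 - c5) * ρ ^ 2 * (1 - 2 * c5) := by
        rw [hcc]; ring
      rw [e2, e3]; linarith
    exact mul_left_cancel₀ h1c.ne' e1
  obtain ⟨σ, hσ, hD⟩ : ∃ σ : ℝ, (σ = k * e ∨ σ = -(k * e)) ∧ dot b u = σ * (2 * c5 * ρ) := by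
    rcases sq_eq_sq_iff_eq_or_eq_neg.1 hD2 with h | h <;> rcases he with he | he <;>
      rcases hk with hk | hk <;> rw [he, hk]
    · exact ⟨1, Or.inl (by norm_num), by rw [h]; ring⟩
    · exact ⟨1, Or.inr (by norm_num), by rw [h]; ring⟩
    · exact ⟨1, Or.inr (by norm_num), by rw [h]; ring⟩
    · exact ⟨1, Or.inl (by norm_num), by rw [h]; ring⟩
    · exact ⟨-1, Or.inr (by norm_num), by rw [h]; ring⟩
    · exact ⟨-1, Or.inl (by norm_num), by rw [h]; ring⟩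
    · exact ⟨-1, Or.inl (by norm_num), by rw [h]; ring⟩
    · exact ⟨-1, Or.inr (by norm_num), by rw [h]; ring⟩
  -- linear equations for b
  have E1 : b 0 + 2 * c5 * b 2 = -(σ * (2 * c5)) := by
    have e1 : dot b v = -(ρ * (b 0 + 2 * c5 * b 2)) := by
      simp only [dot, hv0, hv1, hv2']; ring
    rw [e1, hD] at s1
    have e2 : ρ * (b 0 + 2 * c5 * b 2) = ρ * (-(σ * (2 * c5))) := by linarith
    exact mul_left_cancel₀ hρ.ne' e2
  have E2 : (c5 - 1) * b 0 + e * s5 * b 1 = σ * (2 * c5) := by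
    have e1 : dot b u = ρ * ((c5 - 1) * b 0 + e * s5 * b 1) := by
      rw [hu]; simp only [dot, vec_0, vec_1, vec_2]; ring
    rw [e1] at hD
    have e2 : ρ * ((c5 - 1) * b 0 + e * s5 * b 1) = ρ * (σ * (2 * c5)) := by linarith
    exact mul_left_cancel₀ hρ.ne' e2
  have E3 : -(2 * c5 * s5 * e * b 0) + 2 * c5 * (c5 - 1) * b 1 + e * s5 * b 2 = k * s5 := by
    have e1 : dot b (cross u v) = ρ ^ 2 * (-(2 * c5 * s5 * e * b 0) + 2 * c5 * (c5 - 1) * b 1 +
        e * s5 * b 2) := by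
      rw [hu]; simp only [dot, cross_0, cross_1, cross_2, hv0, hv1, hv2', vec_0, vec_1, vec_2]
      ring
    have e2 : dot u u - dot b u ^ 2 = ρ ^ 2 := by
      rw [hD2, huu]
      have : (2 * c5 * ρ) ^ 2 = 4 * c5 ^ 2 * ρ ^ 2 := by ring
      rw [this, hcc]; ring
    rw [e1, e2] at s3
    have e3 : ρ ^ 2 * (-(2 * c5 * s5 * e * b 0) + 2 * c5 * (c5 - 1) * b 1 + e * s5 * b 2) =
      ρ ^ 2 * (k * s5) := by linarith only [s3]
    exact mul_left_cancel₀ (pow_pos hρ 2).ne' e3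
  have E4 : 3 * (1 - c5) * b 2 = k * e * (1 + c5) - (1 - 2 * c5) * σ := by
    -- e * s5 * E3
    have a1 : e * s5 * (-(2 * c5 * s5 * e * b 0) + 2 * c5 * (c5 - 1) * b 1 + e * s5 * b 2) =
        e * s5 * (k * s5) := by rw [E3]
    have a2 : -(2 * c5 * s5 ^ 2 * b 0) + 2 * c5 * (c5 - 1) * (e * s5 * b 1) + s5 ^ 2 * b 2 =
        k * e * s5 ^ 2 := by
      linear_combination a1 + (2 * c5 * s5 ^ 2 * b 0 - s5 ^ 2 * b 2) * hee
    have a3 : e * s5 * b 1 = σ * (2 * c5) + (1 - c5) * b 0 := by linarith only [E2]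
    rw [a3, hss] at a2
    have a4 : (1 - c5) * (-(2 * c5 * (1 + c5) * b 0) - 2 * c5 * (σ * (2 * c5) + (1 - c5) * b 0) +
        (1 + c5) * b 2) = (1 - c5) * (k * e * (1 + c5)) := by linarith only [a2]
    have a5 := mul_left_cancel₀ h1c.ne' a4
    have a6 : b 0 = -(σ * (2 * c5)) - 2 * c5 * b 2 := by linarith only [E1]
    rw [a6] at a5
    linear_combination a5 + (-(8:ℝ) * b 2 - 4 * σ) * hcc
  rcases hσ with hσ | hσ
  · left
    have b2 : b 2 = k * e * i5 := by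
      have h := i5_mul
      rw [hσ] at E4
      have : 3 * (1 - c5) * b 2 = 3 * (1 - c5) * (k * e * i5) := by
        linear_combination E4 - 3 * k * e * h
      exact mul_left_cancel₀ (by positivity) this
    have b0 : b 0 = -(k * e * (2 * i5)) := by
      have h := i5_mul
      rw [b2, hσ] at E1
      linear_combination E1 + 2 * k * e * h
    have b1 : b 1 = 0 := by
      rw [b0, hσ] at E2
      have h := i5_mul
      have : e * s5 * b 1 = 0 := by linear_combination E2 - 2 * k * e * h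
      have h3 : s5 * (e * b 1) = 0 := by linarith only [this]
      have h4 := (mul_eq_zero.1 h3).resolve_left hs.ne'
      rcases he with he | he <;> rw [he] at h4 <;> linarith only [h4]
    exact ext3 b0 b1 b2
  · right
    have b2 : b 2 = k * e * bp2 := by
      have h := bp2_mul
      rw [hσ] at E4
      have : 3 * (1 - c5) * b 2 = 3 * (1 - c5) * (k * e * bp2) := by
        linear_combination E4 - k * e * h
      exact mul_left_cancel₀ (by positivity) this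
    have b0 : b 0 = k * e * bp0 := by
      rw [b2, hσ] at E1
      unfold bp0
      linear_combination E1
    have b1 : b 1 = -(k * bp1) := by
      have h := bp1_mul
      rw [b0, hσ] at E2
      have : s5 * (e * b 1) = s5 * (-(k * e * bp1)) := by linear_combination E2 + k * e * h
      have h2 := mul_left_cancel₀ hs.ne' this
      linear_combination e * h2 - b 1 * hee - (k * bp1) * hee
    exact ext3 b0 b1 b2


/-! ### General azimuth -/

/-- The frame rotated about the `z`-axis. -/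
def azFr (cx sx : ℝ) (h : cx ^ 2 + sx ^ 2 = 1) : Fr where
  o := 0
  f1 := vec cx sx 0
  f2 := vec (-sx) cx 0
  f3 := vec 0 0 1
  σ := 1
  h11 := by simp only [dot, vec_0, vec_1, vec_2]; nlinarith
  h22 := by simp only [dot, vec_0, vec_1, vec_2]; nlinarith
  h33 := by simp [dot]
  h12 := by simp only [dot, vec_0, vec_1, vec_2]; ring
  h13 := by simp [dot]
  h23 := by simp [dot]
  hσ := Or.inl rfl
  hc := by
    apply ext3 <;> simp
    nlinarith

lemma azFr_lin (cx sx : ℝ) (h : cx ^ 2 + sx ^ 2 = 1) (v : E3) :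
    (azFr cx sx h).lin v = vec (cx * v 0 - sx * v 1) (sx * v 0 + cx * v 1) (v 2) := by
  apply ext3 <;> simp [azFr, Fr.lin] <;> ring

lemma azFr_map (cx sx : ℝ) (h : cx ^ 2 + sx ^ 2 = 1) (v : E3) :
    (azFr cx sx h).map v = (azFr cx sx h).lin v := by
  simp [Fr.map, azFr]

lemma azFr_rot (cx sx : ℝ) (h : cx ^ 2 + sx ^ 2 = 1) (b : E3) (c s : ℝ) (v : E3) :
    rot ((azFr cx sx h).lin b) c s ((azFr cx sx h).lin v) = (azFr cx sx h).lin (rot b c s v) := by
  have := (azFr cx sx h).rot_lin b c s v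
  have e : (azFr cx sx h).σ = 1 := rfl
  rwa [e, one_mul] at this

/-- The numerical properties of the generating rotation. -/
lemma gen_angle {n : ℕ} (hn : n = 5 ∨ 7 ≤ n) :
    0 < sin (2 * π / n) ∧ k54 * (1 - cos (2 * π / n)) ≤ sin (2 * π / n) := by
  have hpi := Real.pi_pos
  rcases hn with rfl | hn
  · have e : (2 * π / ((5:ℕ):ℝ)) = 2 * π / 5 := by norm_num
    rw [e, cos_two_pi_div_five, sin_two_pi_div_five]
    refine ⟨s5_pos, ?_⟩
    have := k54_mul
    linarith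
  · have hn' : (7:ℝ) ≤ n := by exact_mod_cast hn
    obtain ⟨x, hx⟩ : ∃ x, x = π / n := ⟨_, rfl⟩
    have hx0 : 0 < x := by rw [hx]; positivity
    have hx1 : x ≤ 0.449 := by
      rw [hx]
      have h1 : π / n ≤ π / 7 := div_le_div_of_nonneg_left hpi.le (by norm_num) hn'
      have h2 := Real.pi_lt_d4
      linarith
    have e : 2 * π / n = 2 * x := by rw [hx]; ring
    have hs : 0 < sin x := Real.sin_pos_of_pos_of_lt_pi hx0 (by have := Real.pi_gt_three; linarith)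
    have hs1 : sin x ≤ 0.449 := (Real.sin_le hx0.le).trans hx1
    have hc : 0.89 ≤ cos x := by
      have := Real.one_sub_sq_div_two_le_cos (x := x)
      nlinarith only [this, hx0, hx1]
    have hk : k54 ≤ 1.38 := by
      have h1 := k54_mul
      have h2 := c5_lt
      have h3 := s5_lt
      by_contra h
      push Not at h
      nlinarith only [h1, h2, h3, h, mul_pos one_sub_c5_pos (sub_pos.2 h)]
    rw [e, Real.sin_two_mul, Real.cos_two_mul]
    refine ⟨by positivity, ?_⟩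
    have h1 : 1 - (2 * cos x ^ 2 - 1) = 2 * sin x ^ 2 := by
      have := Real.sin_sq_add_cos_sq x; linarith
    rw [h1]
    have h2 : k54 * sin x ≤ cos x := by
      have := mul_le_mul hk hs1 hs.le (by norm_num)
      linarith
    have h3 := mul_le_mul_of_nonneg_left h2 hs.le
    linarith

lemma Ax.pm {X : Set E3} {x a : E3} {n : ℕ} (h : Ax X x a n) {k : ℝ} (hk : k = 1 ∨ k = -1) :
    Inv X x a (cos (2 * π / n)) (k * sin (2 * π / n)) := by
  rcases hk with rfl | rfl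
  · rw [one_mul]; exact h.inv
  · have := h.pow (-1)
    have e : ((-1 : ℤ) : ℝ) * (2 * π / n) = -(2 * π / n) := by push_cast; ring
    rw [e, Real.cos_neg, Real.sin_neg] at this
    rw [neg_one_mul]; exact this

/-- The word `g_w^k w_e` in the frame. -/
theorem T5_frame {X : Set E3} {ρ h : ℝ} (hρ : 0 < ρ) (hh : 0 < h) (hT : ρ < k54 * h)
    (hvis : 2 * (1 - c5) * ρ ^ 2 ≤ 4) {b : E3} {n : ℕ} (hb : Ax X (vec ρ 0 h) b n)
    (hring : ∀ e : ℝ, (e = 1 ∨ e = -1) → vec (ρ * c5) (e * (ρ * s5)) h ∈ X) :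
    (b 1 = 0 ∧ h * b 0 = ρ * b 2) ∨ ∃ e k : ℝ, (e = 1 ∨ e = -1) ∧ (k = 1 ∨ k = -1) ∧
      vec ρ 0 h + rot b (cos (2 * π / n)) (k * sin (2 * π / n))
        (vec (ρ * (c5 - 1)) (e * (ρ * s5)) 0) ∈ X ∧
      dot (vec ρ 0 h + rot b (cos (2 * π / n)) (k * sin (2 * π / n))
        (vec (ρ * (c5 - 1)) (e * (ρ * s5)) 0)) (vec ρ 0 h + rot b (cos (2 * π / n))
          (k * sin (2 * π / n)) (vec (ρ * (c5 - 1)) (e * (ρ * s5)) 0)) < ρ ^ 2 + h ^ 2 := by
  by_cases hcon : ∀ e k : ℝ, (e = 1 ∨ e = -1) → (k = 1 ∨ k = -1) →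
      dot (vec ρ 0 h) (vec ρ 0 h) ≤
        dot (vec ρ 0 h + rot b (cos (2 * π / n)) (k * sin (2 * π / n))
            (vec (ρ * (c5 - 1)) (e * (ρ * s5)) 0))
          (vec ρ 0 h + rot b (cos (2 * π / n)) (k * sin (2 * π / n))
            (vec (ρ * (c5 - 1)) (e * (ρ * s5)) 0))
  · left
    have hg := gen_angle hb.ord
    exact lemmaW_frame hρ hh hT hb.unit (Real.cos_sq_add_sin_sq _) hg.1 hg.2 hcon
  · right
    push Not at hcon
    obtain ⟨e, k, he, hk, hlt⟩ := hcon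
    refine ⟨e, k, he, hk, ?_, ?_⟩
    · apply hb.pm hk
      · rw [dot_ring he]; exact hvis
      · have : vec ρ 0 h + vec (ρ * (c5 - 1)) (e * (ρ * s5)) 0 = vec (ρ * c5) (e * (ρ * s5)) h := by
          apply ext3 <;> simp; ring
        rw [this]; exact hring e he
    · refine lt_of_lt_of_le hlt (le_of_eq ?_)
      simp only [dot, vec_0, vec_1, vec_2]; ring

/-- The position of a point with cylindrical coordinates. -/
def cyl (ρ h cx sx : ℝ) : E3 := vec (ρ * cx) (ρ * sx) h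

/-- The ring neighbours (`e = ±1`). -/
def nb (ρ h cx sx e : ℝ) : E3 := vec (ρ * (c5 * cx - e * s5 * sx)) (ρ * (c5 * sx + e * s5 * cx)) h

/-- The word `g_w^k w_e` for a rotation with cosine `c` and sine `s`. -/
def word (ρ h cx sx : ℝ) (b : E3) (c s e : ℝ) : E3 :=
  cyl ρ h cx sx + rot b c s (nb ρ h cx sx e - cyl ρ h cx sx)

/-- The axis direction `b*` (pointing away from `O'`, up to the sign) at azimuth `(cx, sx)`. -/
def bsr (cx sx : ℝ) : E3 := vec (-(2 * i5 * cx)) (-(2 * i5 * sx)) i5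

/-- The two mirror types (`e = ±1`) of the axis direction `b⁺`. -/
def bpl (cx sx e : ℝ) : E3 :=
  vec (bp0 * cx + e * bp1 * sx) (bp0 * sx - e * bp1 * cx) bp2

lemma azFr_cyl {ρ h cx sx : ℝ} (hx : cx ^ 2 + sx ^ 2 = 1) :
    (azFr cx sx hx).lin (vec ρ 0 h) = cyl ρ h cx sx := by
  rw [azFr_lin]; apply ext3 <;> simp [cyl, mul_comm]

lemma azFr_nb {ρ h cx sx e : ℝ} (hx : cx ^ 2 + sx ^ 2 = 1) :
    (azFr cx sx hx).lin (vec (ρ * c5) (e * (ρ * s5)) h) = nb ρ h cx sx e := by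
  rw [azFr_lin]; apply ext3 <;> simp [nb] <;> ring

lemma azFr_u {ρ h cx sx e : ℝ} (hx : cx ^ 2 + sx ^ 2 = 1) :
    (azFr cx sx hx).lin (vec (ρ * (c5 - 1)) (e * (ρ * s5)) 0) =
      nb ρ h cx sx e - cyl ρ h cx sx := by
  rw [azFr_lin]; apply ext3 <;> simp [nb, cyl] <;> ring

lemma azFr_word {ρ h cx sx e c s : ℝ} (hx : cx ^ 2 + sx ^ 2 = 1) (b : E3) :
    (azFr cx sx hx).lin (vec ρ 0 h + rot b c s (vec (ρ * (c5 - 1)) (e * (ρ * s5)) 0)) =
      word ρ h cx sx ((azFr cx sx hx).lin b) c s e := by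
  rw [Fr.lin_add, azFr_cyl, word, ← azFr_rot, azFr_u (h := h)]

/-- Geometric form of Lemma W. -/
theorem T5 {X : Set E3} {ρ h cx sx : ℝ} (hx : cx ^ 2 + sx ^ 2 = 1) (hρ : 0 < ρ) (hh : 0 < h)
    (hT : ρ < k54 * h) (hvis : 2 * (1 - c5) * ρ ^ 2 ≤ 4) {b : E3} {n : ℕ}
    (hb : Ax X (cyl ρ h cx sx) b n)
    (hring : ∀ e : ℝ, (e = 1 ∨ e = -1) → nb ρ h cx sx e ∈ X) :
    cross b (cyl ρ h cx sx) = 0 ∨ ∃ e k : ℝ, (e = 1 ∨ e = -1) ∧ (k = 1 ∨ k = -1) ∧
      word ρ h cx sx b (cos (2 * π / n)) (k * sin (2 * π / n)) e ∈ X ∧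
      dot (word ρ h cx sx b (cos (2 * π / n)) (k * sin (2 * π / n)) e)
        (word ρ h cx sx b (cos (2 * π / n)) (k * sin (2 * π / n)) e) < ρ ^ 2 + h ^ 2 := by
  obtain ⟨F, hF⟩ : ∃ F, F = azFr cx sx hx := ⟨_, rfl⟩
  obtain ⟨b', hb'⟩ : ∃ b', F.lin b' = b := ⟨_, F.lin_co b⟩
  have hmap : ∀ v, F.map v = F.lin v := by rw [hF]; exact azFr_map cx sx hx
  have h1 : Ax (F.pull X) (vec ρ 0 h) b' n := by
    apply F.ax_pull
    rw [hmap, hb', hF, azFr_cyl]; exact hb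
  have h2 := T5_frame hρ hh hT hvis h1 (by
    intro e he
    rw [Fr.mem_pull, hmap, hF, azFr_nb]
    exact hring e he)
  rcases h2 with ⟨h3, h4⟩ | ⟨e, k, he, hk, h3, h4⟩
  · left
    have e1 : cross b' (vec ρ 0 h) = 0 := by
      apply ext3
      · simp [h3]
      · simp; linarith
      · simp [h3]
    have e2 := F.cross_lin b' (vec ρ 0 h)
    rw [e1, F.lin_zero, smul_zero, hb', hF, azFr_cyl] at e2
    exact e2
  · right
    refine ⟨e, k, he, hk, ?_, ?_⟩
    · rw [Fr.mem_pull, hmap, hF, azFr_word, ← hF, hb'] at h3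
      exact h3
    · rw [← F.dot_lin, hF, azFr_word, ← hF, hb'] at h4
      exact h4

lemma azFr_inj {cx sx : ℝ} (hx : cx ^ 2 + sx ^ 2 = 1) {v : E3}
    (h0 : (azFr cx sx hx).lin v 0 = 0) (h1 : (azFr cx sx hx).lin v 1 = 0) : v 0 = 0 ∧ v 1 = 0 := by
  rw [azFr_lin] at h0 h1
  simp only [vec_0, vec_1] at h0 h1
  constructor
  · linear_combination cx * h0 + sx * h1 - v 0 * hx
  · linear_combination cx * h1 - sx * h0 - v 1 * hx

/-- For `n = 5`: a word on `l_1` forces `b*` or `b⁺`. -/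
theorem onaxis5 {ρ h cx sx e k : ℝ} (hx : cx ^ 2 + sx ^ 2 = 1) (hρ : 0 < ρ) (hh : ρ < 2 * h)
    (he : e = 1 ∨ e = -1) (hk : k = 1 ∨ k = -1) {b : E3} (hb : dot b b = 1)
    (h0 : word ρ h cx sx b c5 (k * s5) e 0 = 0) (h1 : word ρ h cx sx b c5 (k * s5) e 1 = 0)
    (hlt : dot (word ρ h cx sx b c5 (k * s5) e) (word ρ h cx sx b c5 (k * s5) e) <
      ρ ^ 2 + h ^ 2) :
    word ρ h cx sx b c5 (k * s5) e 2 = h - 2 * c5 * ρ ∧
      (b = (k * e) • bsr cx sx ∨ b = (k * e) • bpl cx sx e) := by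
  obtain ⟨F, hF⟩ : ∃ F, F = azFr cx sx hx := ⟨_, rfl⟩
  obtain ⟨b', hb'⟩ : ∃ b', F.lin b' = b := ⟨_, F.lin_co b⟩
  have hw : F.lin (vec ρ 0 h + rot b' c5 (k * s5) (vec (ρ * (c5 - 1)) (e * (ρ * s5)) 0)) =
      word ρ h cx sx b c5 (k * s5) e := by rw [hF, azFr_word, ← hF, hb']
  obtain ⟨z, hz⟩ : ∃ z, z = vec ρ 0 h + rot b' c5 (k * s5)
    (vec (ρ * (c5 - 1)) (e * (ρ * s5)) 0) := ⟨_, rfl⟩
  rw [← hz] at hw
  rw [← hw] at h0 h1 hlt ⊢
  rw [F.dot_lin] at hlt
  have hz01 : z 0 = 0 ∧ z 1 = 0 := by rw [hF] at h0 h1; exact azFr_inj hx h0 h1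
  have hb'' : dot b' b' = 1 := by rw [← F.dot_lin, hb']; exact hb
  have hee : e ^ 2 = 1 := by rcases he with h | h <;> rw [h] <;> norm_num
  obtain ⟨h2, h3⟩ := onaxis_five hρ hh he hk hb'' hz hz01.1 hz01.2 hlt
  refine ⟨?_, ?_⟩
  · rw [hF, azFr_lin]; exact h2
  · rcases h3 with h3 | h3
    · left
      rw [← hb', h3, hF, azFr_lin]
      apply ext3 <;> simp [bsr] <;> ring
    · right
      rw [← hb', h3, hF, azFr_lin]
      apply ext3
      · simp only [vec_0, vec_1, smul_0, bpl]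
        linear_combination (-(k * sx * bp1)) * hee
      · simp only [vec_0, vec_1, smul_1, bpl]
        linear_combination (k * cx * bp1) * hee
      · simp [bpl]

/-- For `n ≥ 7` no word lies on `l_1`. -/
theorem onaxis7 {ρ h cx sx e k : ℝ} (hx : cx ^ 2 + sx ^ 2 = 1) (hρ : 0 < ρ)
    (he : e = 1 ∨ e = -1) (hk : k = 1 ∨ k = -1) {b : E3} (hb : dot b b = 1) {n : ℕ} (hn : 7 ≤ n)
    (h0 : word ρ h cx sx b (cos (2 * π / n)) (k * sin (2 * π / n)) e 0 = 0)
    (h1 : word ρ h cx sx b (cos (2 * π / n)) (k * sin (2 * π / n)) e 1 = 0) : False := by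
  obtain ⟨F, hF⟩ : ∃ F, F = azFr cx sx hx := ⟨_, rfl⟩
  obtain ⟨b', hb'⟩ : ∃ b', F.lin b' = b := ⟨_, F.lin_co b⟩
  have hw : F.lin (vec ρ 0 h + rot b' (cos (2 * π / n)) (k * sin (2 * π / n))
      (vec (ρ * (c5 - 1)) (e * (ρ * s5)) 0)) =
      word ρ h cx sx b (cos (2 * π / n)) (k * sin (2 * π / n)) e := by
    rw [hF, azFr_word, ← hF, hb']
  rw [← hw] at h0 h1
  have hb'' : dot b' b' = 1 := by rw [← F.dot_lin, hb']; exact hb
  rw [hF] at h0 h1
  have hz01 := azFr_inj hx h0 h1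
  have hcs : cos (2 * π / n) ^ 2 + (k * sin (2 * π / n)) ^ 2 = 1 := by
    have := Real.cos_sq_add_sin_sq (2 * π / n)
    rcases hk with h | h <;> rw [h] <;> linarith only [this]
  have h2 := onaxis_angle hρ he hb'' hcs (Real.cos_le_one _) rfl hz01.1 hz01.2
  have h3 : (1:ℝ) / 2 < cos (2 * π / n) := by
    have hn' : (7:ℝ) ≤ n := by exact_mod_cast hn
    have hpi := Real.pi_pos
    have h4 : 2 * π / n < π / 3 := by
      rw [div_lt_div_iff₀ (by linarith) (by norm_num)]; nlinarith only [hpi, hn']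
    have := Real.cos_lt_cos_of_nonneg_of_le_pi_div_two (x := 2 * π / n) (y := π / 3)
      (by positivity) (by linarith) h4
    rwa [Real.cos_pi_div_three] at this
  linarith

/-- The chord of a word. -/
theorem word_chord {ρ h cx sx e c s : ℝ} (hx : cx ^ 2 + sx ^ 2 = 1) (he : e = 1 ∨ e = -1)
    {b : E3} (hb : dot b b = 1) (hcs : c ^ 2 + s ^ 2 = 1) (hc : c ≤ 1) :
    dot (word ρ h cx sx b c s e - nb ρ h cx sx e) (word ρ h cx sx b c s e - nb ρ h cx sx e) ≤
      2 * (1 - c) * (2 * (1 - c5) * ρ ^ 2) := by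
  have h1 := chord_word b (cyl ρ h cx sx) (nb ρ h cx sx e - cyl ρ h cx sx) hb c s hcs
  have h2 : dot (nb ρ h cx sx e - cyl ρ h cx sx) (nb ρ h cx sx e - cyl ρ h cx sx) =
      2 * (1 - c5) * ρ ^ 2 := by
    rw [← azFr_u (h := h) hx, Fr.dot_lin, dot_ring he]
  have e1 : cyl ρ h cx sx + (nb ρ h cx sx e - cyl ρ h cx sx) = nb ρ h cx sx e := by abel
  rw [e1, h2] at h1
  rw [word, h1]
  have h3 := sq_nonneg (dot b (nb ρ h cx sx e - cyl ρ h cx sx))
  have h4 : 0 ≤ 2 * (1 - c) := by linarith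
  linarith only [mul_nonneg h4 h3]

theorem word_side {ρ h cx sx e c s : ℝ} (hx : cx ^ 2 + sx ^ 2 = 1) (he : e = 1 ∨ e = -1)
    {b : E3} (hb : dot b b = 1) (hcs : c ^ 2 + s ^ 2 = 1) :
    dot (word ρ h cx sx b c s e - cyl ρ h cx sx) (word ρ h cx sx b c s e - cyl ρ h cx sx) =
      2 * (1 - c5) * ρ ^ 2 := by
  have e1 : word ρ h cx sx b c s e - cyl ρ h cx sx =
      rot b c s (nb ρ h cx sx e - cyl ρ h cx sx) := by rw [word]; abel
  rw [e1, dot_rot_rot b hb c s hcs, ← azFr_u (h := h) hx, Fr.dot_lin, dot_ring he]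

/-- The chord constant for `n = 7`. -/
lemma cos_seven' : 0.623 < cos (2 * π / 7) := by
  have h1 : 1 - (π / 28) ^ 2 / 2 ≤ cos (π / 28) := Real.one_sub_sq_div_two_le_cos
  have hpi := Real.pi_lt_d4
  have hpi0 := Real.pi_pos
  have h2 : 0.993705 ≤ cos (π / 28) := by nlinarith only [h1, hpi, hpi0]
  have e1 : cos (π / 14) = 2 * cos (π / 28) ^ 2 - 1 := by
    rw [← Real.cos_two_mul]; congr 1; ring
  have e2 : cos (π / 7) = 2 * cos (π / 14) ^ 2 - 1 := by
    rw [← Real.cos_two_mul]; congr 1; ring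
  have e3 : cos (2 * π / 7) = 2 * cos (π / 7) ^ 2 - 1 := by
    rw [← Real.cos_two_mul]; congr 1; ring
  have h3 : 0.974899 ≤ cos (π / 14) := by rw [e1]; nlinarith only [h2]
  have h4 : 0.900856 ≤ cos (π / 7) := by rw [e2]; nlinarith only [h3]
  rw [e3]; nlinarith only [h4]

lemma cos_ge_eight {n : ℕ} (hn : 8 ≤ n) : 0.707 ≤ cos (2 * π / n) := by
  have hn' : (8:ℝ) ≤ n := by exact_mod_cast hn
  have hpi := Real.pi_pos
  have h4 : 2 * π / n ≤ π / 4 := by
    rw [div_le_div_iff₀ (by linarith) (by norm_num)]; nlinarith only [hpi, hn']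
  have h5 := Real.cos_le_cos_of_nonneg_of_le_pi (x := 2 * π / n) (y := π / 4)
    (by positivity) (by linarith) h4
  rw [Real.cos_pi_div_four] at h5
  have h6 : (1.414:ℝ) ≤ √2 := by
    rw [show (1.414:ℝ) = √(1.414 ^ 2) from (Real.sqrt_sq (by norm_num)).symm]
    exact Real.sqrt_le_sqrt (by norm_num)
  linarith

end

end Pool.Agent.Lib.MP_c5a075_co
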