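import Pool.Agent.Lib.MP_c5a075_co.Star
import Pool.Agent.Lib.MP_c5a075_co.Loc

/-!
# MP_c5a075_co: the local frame at the nearest point off the star

`LF X D ρ h τ`: the picture seen from `w = (ρ, 0, h)`, in a frame where the vertical axis is the
nearest star direction; `D` is the set of the twelve star directions.
-/

namespace Pool.Agent.Lib.MP_c5a075_co

open scoped Real

noncomputable section

/-- The local frame data around the point `w = (ρ, 0, h)`. -/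
structure LF (X D : Set E3) (ρ h τ : ℝ) : Prop where
  ρ_pos : 0 < ρ
  h_pos : 0 < h
  hT : ρ ≤ 0.76394 * h
  t_le : ρ ^ 2 + h ^ 2 ≤ 7.012
  mem : vec ρ 0 h ∈ X
  ring : ∀ e : ℝ, (e = 1 ∨ e = -1) → vec (ρ * c5) (e * (ρ * s5)) h ∈ X
  clean : ∀ x ∈ X, dot x x < ρ ^ 2 + h ^ 2 → ∃ v ∈ D, ∃ r : ℝ, 0 ≤ r ∧ x = r • v
  unit : ∀ v ∈ D, dot v v = 1
  e3_mem : e3 ∈ D
  height : ∀ v ∈ D, v = e3 ∨ v = -e3 ∨ v 2 = i5 ∨ v 2 = -i5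
  angle : ∀ u ∈ D, ∀ v ∈ D, u = v ∨ u = -v ∨ dot u v = i5 ∨ dot u v = -i5
  rotD : ∀ v ∈ D, ∀ k : ℤ, (rotFr k).lin v ∈ D
  near : ∀ v ∈ D, ρ * v 0 + h * v 2 ≤ h
  nearR : ∀ v ∈ D, ∀ e : ℝ, (e = 1 ∨ e = -1) → ρ * c5 * v 0 + e * (ρ * s5) * v 1 + h * v 2 ≤ h
  trans : ∀ u ∈ D, ∀ v ∈ D, ∀ r : ℝ, 0 ≤ r → r ≤ 2 → r • u ∈ X → r • v ∈ X
  τ_pos : 0 < τ
  τ_lt : τ ^ 2 < ρ ^ 2 + h ^ 2
  τ_mem : τ • e3 ∈ X
  vis : ρ ^ 2 + (h - τ) ^ 2 ≤ 4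

/-- The mirror image `y ↦ -y`. -/
def mirFr : Fr where
  o := 0
  f1 := vec 1 0 0
  f2 := vec 0 (-1) 0
  f3 := vec 0 0 1
  σ := -1
  h11 := by simp [dot]
  h22 := by simp [dot]
  h33 := by simp [dot]
  h12 := by simp [dot]
  h13 := by simp [dot]
  h23 := by simp [dot]
  hσ := Or.inr rfl
  hc := by apply ext3 <;> simp

end

end Pool.Agent.Lib.MP_c5a075_co
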