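import Pool.Agent.Lib.MP_c5a075_co.LFMain

/-! The radial case of the local statement. -/

set_option autoImplicit false

namespace Pool.Agent.Lib.MP_c5a075_co

noncomputable section

open Real

theorem hRad : HRad := by
  intro X D ρ h τ b n L hb hb1 hb0
  obtain ⟨hc1, hc2⟩ := cos_order hb.ord
  obtain ⟨c, hc⟩ : ∃ c, c = cos (2 * π / n) := ⟨_, rfl⟩
  obtain ⟨s, hs⟩ : ∃ s, s = sin (2 * π / n) := ⟨_, rfl⟩
  rw [← hc] at hc1 hc2
  have hcs : c ^ 2 + s ^ 2 = 1 := by rw [hc, hs]; exact Real.cos_sq_add_sin_sq _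
  have hu := hb.unit
  have hρ := L.ρ_pos
  have hh := L.h_pos
  have hT := L.hT
  -- the height of `b`
  have hb2 : b 2 ^ 2 * (ρ ^ 2 + h ^ 2) = h ^ 2 := by
    have e1 : b 0 ^ 2 + b 2 ^ 2 = 1 := by
      have : dot b b = b 0 ^ 2 + b 1 ^ 2 + b 2 ^ 2 := by simp only [dot]; ring
      rw [this, hb1] at hu; linarith
    have e2 : (h * b 0) ^ 2 = (ρ * b 2) ^ 2 := by rw [hb0]
    have e3 : h ^ 2 * (b 0 ^ 2 + b 2 ^ 2) = h ^ 2 := by rw [e1, mul_one]
    linarith [e2, e3]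
  have hT2 : ρ ^ 2 ≤ 0.5837 * h ^ 2 := by
    have : ρ ^ 2 ≤ (0.76394 * h) ^ 2 := pow_le_pow_left₀ hρ.le hT 2
    nlinarith only [this, sq_nonneg h]
  have hρ2 : 0 < ρ ^ 2 := by positivity
  have hh2 : 0 < h ^ 2 := by positivity
  have hb2lt : b 2 ^ 2 < 1 := by
    by_contra hcon
    push Not at hcon
    have := mul_le_mul_of_nonneg_right hcon (by positivity : 0 ≤ ρ ^ 2 + h ^ 2)
    linarith
  have hb2gt : 0.63 < b 2 ^ 2 := by
    by_contra hcon
    push Not at hcon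
    have := mul_le_mul_of_nonneg_right hcon (by positivity : 0 ≤ ρ ^ 2 + h ^ 2)
    linarith
  -- the axis goes through the origin
  have hw : vec ρ 0 h = (dot b (vec ρ 0 h)) • b := by
    apply (rho2_eq_zero hu).1
    rw [rho2]
    have e1 : dot (vec ρ 0 h) (vec ρ 0 h) = ρ ^ 2 + h ^ 2 := by
      simp only [dot, vec_0, vec_1, vec_2]; ring
    have e2 : dot b (vec ρ 0 h) = b 0 * ρ + b 2 * h := by
      simp only [dot, vec_0, vec_1, vec_2]; ring
    have e3 : dot b b = b 0 ^ 2 + b 2 ^ 2 := by simp only [dot, hb1]; ring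
    rw [e3] at hu
    rw [e1, e2]
    have e4 : ρ ^ 2 + h ^ 2 - (b 0 * ρ + b 2 * h) ^ 2 =
        (h * b 0 - ρ * b 2) ^ 2 + (ρ ^ 2 + h ^ 2) * (1 - (b 0 ^ 2 + b 2 ^ 2)) := by ring
    rw [e4, hb0, hu]; ring
  -- the image of `τ e3`
  have h1 := hb.inv (τ • e3 - vec ρ 0 h) (by
    have e1 : dot (τ • e3 - vec ρ 0 h) (τ • e3 - vec ρ 0 h) = ρ ^ 2 + (h - τ) ^ 2 := by
      simp only [dot, sub_0, sub_1, sub_2, smul_0, smul_1, smul_2, vec_0, vec_1, vec_2, e3_0, e3_1,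
        e3_2]; ring
    rw [e1]; exact L.vis) (by rw [add_sub_cancel]; exact L.τ_mem)
  rw [← hc, ← hs] at h1
  have e5 : vec ρ 0 h + rot b c s (τ • e3 - vec ρ 0 h) = τ • rot b c s e3 := by
    have e6 : rot b c s (vec ρ 0 h) = vec ρ 0 h := by
      rw [hw, rot_smul_axis b hu]
    rw [rot_sub, e6, rot_smul]; abel
  rw [e5] at h1
  have hr1 : dot (rot b c s e3) (rot b c s e3) = 1 := by
    rw [dot_rot_rot b hu c s hcs, dot_e3_e3]
  obtain ⟨v, hv, r, hr0, e7⟩ := L.clean _ h1 (by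
    rw [dot_smul_left, dot_smul_right, hr1, mul_one, ← sq]
    exact L.τ_lt)
  have hrτ : r = τ := by
    have e8 : dot (τ • rot b c s e3) (τ • rot b c s e3) = dot (r • v) (r • v) := by rw [e7]
    rw [dot_smul_left, dot_smul_right, hr1, dot_smul_left, dot_smul_right, L.unit v hv, mul_one,
      mul_one, ← sq, ← sq] at e8
    exact ((sq_eq_sq₀ L.τ_pos.le hr0).1 e8).symm
  rw [hrτ] at e7
  have e9 : rot b c s e3 = v := smul_right_injective E3 L.τ_pos.ne' e7
  have e10 : v 2 = c + (1 - c) * b 2 ^ 2 := by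
    rw [← e9, rot_2, dot_e3]
    simp only [e3_0, e3_1, e3_2]; ring
  have hlow : 0.7 < v 2 := by
    rw [e10]
    have hc5 := c5_gt
    nlinarith only [hb2gt, hc1, hc2, hc5]
  have hup : v 2 < 1 := by
    rw [e10]
    nlinarith only [hb2lt, hc2]
  have h5 := i5_lt
  have h5' := i5_pos
  rcases L.height v hv with g | g | g | g
  · rw [g] at hup; simp at hup
  · rw [g] at hlow; norm_num at hlow
  · rw [g] at hlow; linarith
  · rw [g] at hlow; linarith

end

end Pool.Agent.Lib.MP_c5a075_co
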