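import Mathlib

set_option autoImplicit false
set_option maxHeartbeats 4000000

namespace Pool.Agent.Lib.MP_c5a075_co

theorem lemmaW_aux (κ T b1 b2 b3 E : ℝ) (hκ : 3 / 2 ≤ κ ^ 2) (hκ0 : 0 < κ) (hT0 : 0 ≤ T) (hT : T < κ)
    (hb : b1 ^ 2 + b2 ^ 2 + b3 ^ 2 = 1) (hE : E = b1 - T * b3) (hy : 0 ≤ b2) (hb3 : 0 ≤ b3)
    (h1 : κ * |b2 + κ * E| ≤ T * b2 ^ 2 - b3 * E + κ * b2 * (T * E + (1 + T ^ 2) * b3))
    (h2 : κ * |b2 - κ * E| ≤ T * b2 ^ 2 - b3 * E - κ * b2 * (T * E + (1 + T ^ 2) * b3)) :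
    b2 = 0 ∧ E = 0 := by
  have hy1 : b2 ≤ 1 := by nlinarith only [hb, sq_nonneg b1, sq_nonneg b3, sq_nonneg (b2 - 1)]
  have hb31 : b3 ≤ 1 := by nlinarith only [hb, sq_nonneg b1, sq_nonneg b2, sq_nonneg (b3 - 1)]
  have a1 : κ * (b2 + κ * E) ≤ T * b2 ^ 2 - b3 * E + κ * b2 * (T * E + (1 + T ^ 2) * b3) :=
    le_trans (mul_le_mul_of_nonneg_left (le_abs_self _) hκ0.le) h1
  have a2 : κ * (-(b2 + κ * E)) ≤ T * b2 ^ 2 - b3 * E + κ * b2 * (T * E + (1 + T ^ 2) * b3) :=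
    le_trans (mul_le_mul_of_nonneg_left (neg_le_abs _) hκ0.le) h1
  have a3 : κ * (b2 - κ * E) ≤ T * b2 ^ 2 - b3 * E - κ * b2 * (T * E + (1 + T ^ 2) * b3) :=
    le_trans (mul_le_mul_of_nonneg_left (le_abs_self _) hκ0.le) h2
  have a4 : κ * (-(b2 - κ * E)) ≤ T * b2 ^ 2 - b3 * E - κ * b2 * (T * E + (1 + T ^ 2) * b3) :=
    le_trans (mul_le_mul_of_nonneg_left (neg_le_abs _) hκ0.le) h2
  have s1 : κ * b2 ≤ T * b2 ^ 2 - b3 * E := by linarith
  have s2 : κ ^ 2 * E ≤ T * b2 ^ 2 - b3 * E := by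
    have e : κ * (b2 + κ * E) + κ * (-(b2 - κ * E)) = 2 * (κ ^ 2 * E) := by ring
    linarith
  have s3 : -(κ ^ 2 * E) ≤ T * b2 ^ 2 - b3 * E := by
    have e : κ * (-(b2 + κ * E)) + κ * (b2 - κ * E) = -(2 * (κ ^ 2 * E)) := by ring
    linarith
  rcases hy.eq_or_lt with hy0 | hypos
  · -- b2 = 0
    rw [← hy0] at s2 s3
    have e0 : T * (0:ℝ) ^ 2 = 0 := by ring
    rw [e0] at s2 s3
    refine ⟨hy0.symm, ?_⟩
    rcases le_total 0 E with h | h
    · have hp : 0 < κ ^ 2 + b3 := by linarith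
      have : (κ ^ 2 + b3) * E ≤ 0 := by linarith
      by_contra hne
      have : 0 < E := lt_of_le_of_ne h (Ne.symm hne)
      have := mul_pos hp this
      linarith
    · have hp : 0 < κ ^ 2 - b3 := by linarith
      by_contra hne
      have : E < 0 := lt_of_le_of_ne h hne
      have := mul_pos hp (neg_pos.2 this)
      linarith
  · exfalso
    have hy2 : b2 ^ 2 ≤ b2 := by
      have := mul_nonneg hy (sub_nonneg.2 hy1)
      linarith only [this]
    have hypos2 : 0 < b2 ^ 2 := by positivity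
    have t2 : T * b2 ^ 2 < κ * b2 ^ 2 := mul_lt_mul_of_pos_right hT hypos2
    have hky : κ * b2 ^ 2 ≤ κ * b2 := mul_le_mul_of_nonneg_left hy2 hκ0.le
    have t3 : 0 < -(b3 * E) := by linarith
    have hb3pos : 0 < b3 := by
      rcases hb3.eq_or_lt with h | h
      · rw [← h] at t3; simp at t3
      · exact h
    have hEneg : E < 0 := by
      by_contra h
      push Not at h
      have := mul_nonneg hb3 h
      linarith
    obtain ⟨e, he⟩ : ∃ e : ℝ, e = -E := ⟨_, rfl⟩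
    have hepos : 0 < e := by linarith
    have hE' : E = -e := by linarith
    subst hE'
    -- P
    rcases le_total 0 (T * (-e) + (1 + T ^ 2) * b3) with hPp | hPn
    · have h0 : 0 ≤ κ * b2 * (T * (-e) + (1 + T ^ 2) * b3) := by positivity
      have hE2 : 0 < (κ ^ 2 - b3) * e := mul_pos (by linarith) hepos
      have : κ * (b2 - κ * -e) = κ * b2 + κ ^ 2 * e := by ring
      have : (κ ^ 2 - b3) * e = κ ^ 2 * e - b3 * e := by ring
      have : b3 * -e = - (b3 * e) := by ring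
      linarith
    · have c1 : κ * b2 - T * b2 ^ 2 + κ * b2 * ((1 + T ^ 2) * b3) ≤
          e * (b3 + κ * b2 * T - κ ^ 2) := by
        have e1 : κ * (b2 - κ * -e) = κ * b2 + κ ^ 2 * e := by ring
        have e2 : κ * b2 * (T * -e + (1 + T ^ 2) * b3) =
          -(e * (κ * b2 * T)) + κ * b2 * ((1 + T ^ 2) * b3) := by ring
        have e3 : e * (b3 + κ * b2 * T - κ ^ 2) = e * b3 + e * (κ * b2 * T) - κ ^ 2 * e := by ring
        have e4 : b3 * -e = -(e * b3) := by ring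
        rw [e1, e2, e4] at a3
        rw [e3]; linarith
      have c0 : 0 < κ * b2 - T * b2 ^ 2 := by linarith
      have hT2 : 0 ≤ T ^ 2 := sq_nonneg T
      have hkb : 0 < κ * b2 := mul_pos hκ0 hypos
      have hnn : 0 < κ * b2 * ((1 + T ^ 2) * b3) := by positivity
      have c2 : 0 < e * (b3 + κ * b2 * T - κ ^ 2) := by linarith
      have c3 : 0 < b3 + κ * b2 * T - κ ^ 2 := by
        by_contra h
        push Not at h
        have := mul_nonneg hepos.le (neg_nonneg.2 h)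
        linarith only [this, c2]
      have c4 : κ * b2 * T ≤ κ ^ 2 * b2 := by
        have := mul_nonneg hkb.le (sub_nonneg.2 hT.le)
        linarith only [this]
      have c5 : κ ^ 2 * (1 - b2) < b3 := by linarith only [c3, c4]
      have c6 : b3 + κ * b2 * T - κ ^ 2 ≤ b3 := by
        have := mul_nonneg (sq_nonneg κ) (sub_nonneg.2 hy1)
        linarith only [this, c4]
      have c7 : (κ * b2 * (1 + T ^ 2)) * b3 < e * b3 := by
        have h0 : e * (b3 + κ * b2 * T - κ ^ 2) ≤ e * b3 :=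
          mul_le_mul_of_nonneg_left c6 hepos.le
        have h3 : κ * b2 * ((1 + T ^ 2) * b3) = (κ * b2 * (1 + T ^ 2)) * b3 := by ring
        rw [h3] at c1
        linarith
      have c8 : κ * b2 * (1 + T ^ 2) < e := lt_of_mul_lt_mul_right c7 hb3pos.le
      have c9 : e ^ 2 ≤ (1 + T ^ 2) * (1 - b2 ^ 2) := by
        have h4 : (1 + T ^ 2) * (1 - b2 ^ 2) - e ^ 2 = (T * b1 + b3) ^ 2 := by
          have h5 : e = T * b3 - b1 := by linarith
          have h6 : 1 - b2 ^ 2 = b1 ^ 2 + b3 ^ 2 := by linarith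
          rw [h5, h6]; ring
        have := sq_nonneg (T * b1 + b3)
        linarith
      have h0 : 0 ≤ κ * b2 * (1 + T ^ 2) := by positivity
      have c10 : (κ * b2 * (1 + T ^ 2)) ^ 2 < e ^ 2 := pow_lt_pow_left₀ c8 h0 (by norm_num)
      have hp : (0:ℝ) < 1 + T ^ 2 := by positivity
      have c11 : κ ^ 2 * b2 ^ 2 * (1 + T ^ 2) < 1 - b2 ^ 2 := by
        have h7 : (κ ^ 2 * b2 ^ 2 * (1 + T ^ 2)) * (1 + T ^ 2) < (1 - b2 ^ 2) * (1 + T ^ 2) := by
          have h8 : (κ * b2 * (1 + T ^ 2)) ^ 2 = (κ ^ 2 * b2 ^ 2 * (1 + T ^ 2)) * (1 + T ^ 2) := by ring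
          rw [h8] at c10
          linarith
        exact lt_of_mul_lt_mul_right h7 hp.le
      have c12 : κ ^ 2 * b2 ^ 2 < 1 - b2 ^ 2 := by
        have : 0 ≤ κ ^ 2 * b2 ^ 2 * T ^ 2 := by positivity
        linarith only [this, c11]
      -- b3 small
      have d1 : (1 + T ^ 2) * b3 ≤ T * e := by linarith
      have d2 : e * (κ ^ 2 - b3) ≤ T * b2 ^ 2 := by
        have : e * (κ ^ 2 - b3) = -(κ ^ 2 * -e) + b3 * -e := by ring
        linarith
      have hb1e : b1 = T * b3 - e := by linarith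
      have d3 : T * b1 ≤ -b3 := by
        rw [hb1e]; linarith only [d1]
      have hTpos : 0 < T := by
        rcases hT0.eq_or_lt with h | h
        · rw [← h] at d3; simp at d3; linarith
        · exact h
      have d4 : b3 ^ 2 ≤ (T * b1) ^ 2 := by
        have : b3 ≤ -(T * b1) := by linarith
        have h9 : b3 ^ 2 ≤ (-(T * b1)) ^ 2 := pow_le_pow_left₀ hb3 this 2
        rwa [neg_sq] at h9
      have hk : 0 ≤ κ ^ 2 - b3 := by linarith
      have d5 : (1 + T ^ 2) * b3 * (κ ^ 2 - b3) ≤ T ^ 2 * b2 ^ 2 := by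
        have h10 := mul_le_mul_of_nonneg_right d1 hk
        have h11 := mul_le_mul_of_nonneg_left d2 hT0
        have : T * e * (κ ^ 2 - b3) = T * (e * (κ ^ 2 - b3)) := by ring
        have : T * (T * b2 ^ 2) = T ^ 2 * b2 ^ 2 := by ring
        linarith
      have d6 : T ^ 2 * b2 ^ 2 ≤ T ^ 2 - b3 ^ 2 * (1 + T ^ 2) := by
        have h12 : T ^ 2 * b2 ^ 2 = T ^ 2 - (T * b1) ^ 2 - T ^ 2 * b3 ^ 2 := by
          have : b2 ^ 2 = 1 - b1 ^ 2 - b3 ^ 2 := by linarith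
          rw [this]; ring
        rw [h12]; linarith only [d4]
      have d7 : (1 + T ^ 2) * b3 * κ ^ 2 ≤ T ^ 2 := by linarith only [d5, d6]
      have hTk : T ^ 2 ≤ κ ^ 2 := pow_le_pow_left₀ hT0 hT.le 2
      have d8 : b3 * (1 + κ ^ 2) ≤ 1 := by
        have e1 : T ^ 2 * (1 + κ ^ 2) ≤ κ ^ 2 * (1 + T ^ 2) := by linarith
        have e3 : (1 + T ^ 2) * b3 * κ ^ 2 * (1 + κ ^ 2) ≤ T ^ 2 * (1 + κ ^ 2) :=
          mul_le_mul_of_nonneg_right d7 (by positivity)
        have e2 : (κ ^ 2 * (1 + T ^ 2)) * (b3 * (1 + κ ^ 2)) ≤ (κ ^ 2 * (1 + T ^ 2)) * 1 := by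
          have : (κ ^ 2 * (1 + T ^ 2)) * (b3 * (1 + κ ^ 2)) =
            (1 + T ^ 2) * b3 * κ ^ 2 * (1 + κ ^ 2) := by ring
          linarith
        exact le_of_mul_le_mul_left e2 (by positivity)
      have f1 : b3 ≤ 2 / 5 := by
        linarith only [d8, mul_nonneg hb3pos.le (sub_nonneg.2 hκ)]
      have f2 : (11:ℝ) / 15 < b2 := by
        linarith only [c5, f1, mul_nonneg (sub_nonneg.2 hκ) (sub_nonneg.2 hy1)]
      nlinarith only [c12, f2, mul_nonneg (sub_nonneg.2 hκ) (sq_nonneg b2)]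

/-- Algebraic core of Lemma W. -/
theorem lemmaW_core (κ T b1 b2 b3 : ℝ) (hκ : 3 / 2 ≤ κ ^ 2) (hκ0 : 0 < κ) (hT0 : 0 ≤ T) (hT : T < κ)
    (hb : b1 ^ 2 + b2 ^ 2 + b3 ^ 2 = 1)
    (h1 : κ * |b2 + κ * (b1 - T * b3)| ≤
      T * (b2 ^ 2 + b3 ^ 2) - b1 * b3 + κ * b2 * (T * b1 + b3))
    (h2 : κ * |b2 - κ * (b1 - T * b3)| ≤
      T * (b2 ^ 2 + b3 ^ 2) - b1 * b3 - κ * b2 * (T * b1 + b3)) :
    b2 = 0 ∧ b1 = T * b3 := by
  have key : ∀ b1 b2 b3 : ℝ, b1 ^ 2 + b2 ^ 2 + b3 ^ 2 = 1 → 0 ≤ b2 → 0 ≤ b3 →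
      κ * |b2 + κ * (b1 - T * b3)| ≤ T * (b2 ^ 2 + b3 ^ 2) - b1 * b3 + κ * b2 * (T * b1 + b3) →
      κ * |b2 - κ * (b1 - T * b3)| ≤ T * (b2 ^ 2 + b3 ^ 2) - b1 * b3 - κ * b2 * (T * b1 + b3) →
      b2 = 0 ∧ b1 = T * b3 := by
    intro b1 b2 b3 hb hy hb3 h1 h2
    have := lemmaW_aux κ T b1 b2 b3 (b1 - T * b3) hκ hκ0 hT0 hT hb rfl hy hb3
      (h1.trans (le_of_eq (by ring))) (h2.trans (le_of_eq (by ring)))
    exact ⟨this.1, by linarith [this.2]⟩
  rcases le_total 0 b2 with h2' | h2' <;> rcases le_total 0 b3 with h3' | h3'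
  · exact key b1 b2 b3 hb h2' h3' h1 h2
  · have := key (-b1) b2 (-b3) (by linarith [hb, neg_sq b1, neg_sq b3]) h2' (by linarith)
      (by
        have e : b2 + κ * (-b1 - T * -b3) = b2 - κ * (b1 - T * b3) := by ring
        rw [e]; refine h2.trans (le_of_eq ?_); ring)
      (by
        have e : b2 - κ * (-b1 - T * -b3) = b2 + κ * (b1 - T * b3) := by ring
        rw [e]; refine h1.trans (le_of_eq ?_); ring)
    refine ⟨this.1, ?_⟩
    linarith [this.2]
  · have := key b1 (-b2) b3 (by linarith [hb, neg_sq b2]) (by linarith) h3'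
      (by
        have e : -b2 + κ * (b1 - T * b3) = -(b2 - κ * (b1 - T * b3)) := by ring
        rw [e, abs_neg]; refine h2.trans (le_of_eq ?_); ring)
      (by
        have e : -b2 - κ * (b1 - T * b3) = -(b2 + κ * (b1 - T * b3)) := by ring
        rw [e, abs_neg]; refine h1.trans (le_of_eq ?_); ring)
    refine ⟨by linarith [this.1], this.2⟩
  · have := key (-b1) (-b2) (-b3) (by linarith [hb, neg_sq b1, neg_sq b2, neg_sq b3]) (by linarith)
      (by linarith)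
      (by
        have e : -b2 + κ * (-b1 - T * -b3) = -(b2 + κ * (b1 - T * b3)) := by ring
        rw [e, abs_neg]; refine h1.trans (le_of_eq ?_); ring)
      (by
        have e : -b2 - κ * (-b1 - T * -b3) = -(b2 - κ * (b1 - T * b3)) := by ring
        rw [e, abs_neg]; refine h2.trans (le_of_eq ?_); ring)
    refine ⟨by linarith [this.1], by linarith [this.2]⟩

end Pool.Agent.Lib.MP_c5a075_co
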