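import Pool.Agent.Lib.MP_c5a075_co.TubeX
import Pool.Agent.Lib.MP_c5a075_co.Inv

/-! Regime B: no matched ring points for `μ ≥ 1.5`. -/

set_option autoImplicit false

namespace Pool.Agent.Lib.MP_c5a075_co

noncomputable section

open Real

/-- Points of the vertical axis seen from a matched ring point. -/
lemma match_rho {μ τ : ℝ} {k j : ℤ} (hjk : dot (W k) (W j) = c5) {b : E3} (hb : dot b b = 1)
    (hμ : 0 < μ) (h0 : rho2 b (μ • W j - μ • W k) = 0) :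
    rho2 b (vec 0 0 τ - μ • W k) = (1 + c5) / 2 * μ ^ 2 + τ ^ 2 := by
  have hc2 := c5_lt
  have hWz : ∀ i : ℤ, dot (W i) (vec 0 0 τ) = 0 := by intro i; simp [dot, W]
  have h1 := (rho2_eq_zero hb).1 h0
  obtain ⟨N, hN⟩ : ∃ N, N = dot b (μ • W j - μ • W k) := ⟨_, rfl⟩
  rw [← hN] at h1
  have hN2 : N ^ 2 = 2 * (1 - c5) * μ ^ 2 := by
    have e1 : dot (μ • W j - μ • W k) (μ • W j - μ • W k) = 2 * (1 - c5) * μ ^ 2 := by
      simp only [dot_sub_left, dot_sub_right, dot_smul_left, dot_smul_right, dot_W,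
        dot_comm (W j) (W k), hjk]
      ring
    rw [h1, dot_smul_left, dot_smul_right, hb] at e1
    linarith
  have h2 : N * dot b (vec 0 0 τ - μ • W k) = (1 - c5) * μ ^ 2 := by
    rw [← dot_smul_left, ← h1]
    simp only [dot_sub_left, dot_sub_right, dot_smul_left, dot_smul_right, dot_W,
      dot_comm (W j) (W k), hjk, hWz]
    ring
  have h3 : N ^ 2 * dot b (vec 0 0 τ - μ • W k) ^ 2 = N ^ 2 * ((1 - c5) / 2 * μ ^ 2) := by
    have e : N ^ 2 * dot b (vec 0 0 τ - μ • W k) ^ 2 = (N * dot b (vec 0 0 τ - μ • W k)) ^ 2 := by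
      ring
    rw [e, h2, hN2]; ring
  have h4 : dot b (vec 0 0 τ - μ • W k) ^ 2 = (1 - c5) / 2 * μ ^ 2 := by
    apply mul_left_cancel₀ _ h3
    rw [hN2]
    have : 0 < 1 - c5 := by linarith
    positivity
  have h5 : dot (vec 0 0 τ - μ • W k) (vec 0 0 τ - μ • W k) = τ ^ 2 + μ ^ 2 := by
    simp only [dot_sub_left, dot_sub_right, dot_smul_left, dot_smul_right, dot_W, hWz,
      dot_comm (vec 0 0 τ) (W k)]
    have : dot (vec 0 0 τ) (vec 0 0 τ) = τ ^ 2 := by simp [dot]; ring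
    rw [this]; ring
  rw [rho2, h4, h5]; ring

lemma match_false {X : Set E3} {μ h : ℝ} (H : Tube X 0 20 μ) (hμ : 1.5 ≤ μ) (hμ' : μ ≤ 1.7)
    (h0 : 0 ≤ h) (hh : μ ^ 2 + h ^ 2 ≤ 4) (hx : Ax X (vec 0 0 (-h)) (vec 0 0 1) 5)
    {k j : ℤ} (hjk : dot (W k) (W j) = c5) {b : E3} {n : ℕ}
    (hb : Ax X (μ • W k) b n) (hr : rho2 b (μ • W j - μ • W k) = 0) : False := by
  have hμ0 : 0 < μ := by linarith
  have hc2 := c5_lt
  have hc1 := c5_gt
  have hM : 2.25 ≤ μ ^ 2 := by nlinarith only [hμ]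
  have hM2 : μ ^ 2 ≤ 2.89 := by nlinarith only [hμ, hμ']
  -- no points near the ring plane
  have hno : ∀ τ : ℝ, vec 0 0 τ ∈ X → 0.587 * μ ≤ |τ| := by
    intro τ hτ
    by_contra hcon
    push Not at hcon
    have h1 : τ ^ 2 ≤ 0.344569 * μ ^ 2 := by
      rw [← sq_abs]
      have := pow_le_pow_left₀ (abs_nonneg τ) hcon.le 2
      linarith
    have h2 := match_rho (τ := τ) hjk hb.unit hμ0 hr
    have h3 : dot (vec 0 0 τ - μ • W k) (vec 0 0 τ - μ • W k) = τ ^ 2 + μ ^ 2 := by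
      have hWz : dot (W k) (vec 0 0 τ) = 0 := by simp [dot, W]
      simp only [dot_sub_left, dot_sub_right, dot_smul_left, dot_smul_right, dot_W, hWz,
        dot_comm (vec 0 0 τ) (W k)]
      have : dot (vec 0 0 τ) (vec 0 0 τ) = τ ^ 2 := by simp [dot]; ring
      rw [this]; ring
    have hd0 := dist_sW (μ := μ) (by linarith) k
    have h4 : 0.6545 * μ ^ 2 ≤ (1 + c5) / 2 * μ ^ 2 :=
      mul_le_mul_of_nonneg_right (by linarith) (by linarith)
    have h5 : (1 + c5) / 2 * μ ^ 2 ≤ 0.65451 * μ ^ 2 :=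
      mul_le_mul_of_nonneg_right (by linarith) (by linarith)
    rcases H.tube _ b n hb (by linarith) _ hτ (by rw [h3]; linarith) with h | h
    · rw [h2] at h
      have := sq_nonneg τ
      linarith
    · rw [h2] at h
      linarith
  obtain ⟨h₀, m, hh0, hh1, hx0, hmax⟩ := top_aligned H.sep h0 hx
  have hh' : μ ^ 2 + h₀ ^ 2 ≤ 4 := by
    have := pow_le_pow_left₀ hh0 hh1 2
    linarith
  have h1 : 0.587 * μ ≤ h₀ := by
    have := hno _ hx0.mem
    rwa [abs_neg, abs_of_nonneg hh0] at this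
  obtain ⟨z, hz⟩ : ∃ z, z = √(1 - (μ - 1 - 0.00001) ^ 2) := ⟨_, rfl⟩
  have hr : (μ - 1 - 0.00001) ^ 2 ≤ 0.49 := by nlinarith only [hμ, hμ']
  have hz2 : z ^ 2 = 1 - (μ - 1 - 0.00001) ^ 2 := by
    rw [hz, Real.sq_sqrt (by linarith)]
  have hz0 : 0 < z := by rw [hz]; exact Real.sqrt_pos.2 (by linarith)
  have hz1 : z ≤ 0.8661 := by
    apply le_of_sq_le_sq _ (by norm_num)
    rw [hz2]
    nlinarith only [hμ]
  have hdx : dist (vec 0 0 (-h₀)) 0 ≤ 2 := dist_vz (by rw [neg_sq]; linarith)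
  obtain ⟨s, hs0, hs1, hs2⟩ := H.gap hx0 (by linarith)
    (r := μ - 1 - 0.00001) (z := z) (by linarith) hz0 (by linarith)
    (by nlinarith only [hμ, hμ'])
  obtain ⟨τ, hτ⟩ : ∃ τ, τ = -h₀ + s := ⟨_, rfl⟩
  have e1 : vec 0 0 (-h₀) + s • vec 0 0 1 = vec 0 0 τ := by rw [hτ]; apply ext3 <;> simp
  rw [e1] at hs2
  have h2 := hno τ hs2
  rcases le_total 0 τ with h3 | h3
  · rw [abs_of_nonneg h3] at h2
    linarith
  · rw [abs_of_nonpos h3] at h2
    have h4 : τ ^ 2 ≤ h₀ ^ 2 := by nlinarith only [h3, hτ, hs0]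
    have h5 : τ + h₀ = s := by linarith
    have h6 := next_tilted H hx0 hmax hs2 (by linarith) h3 (by linarith) (by
      rw [h5]; nlinarith only [hs0, hs1, hz1])
    rw [h5] at h6
    have h9 : 0.9999 * μ ≤ s := by
      apply le_of_sq_le_sq _ hs0.le
      nlinarith only [h6, hM]
    have h10 : 1.5 * μ ≤ h₀ := by linarith
    have h11 := pow_le_pow_left₀ (by positivity) h10 2
    nlinarith only [h11, hh', hM]

/-- B2: no matched ring points. -/
theorem matchedB' {X : Set E3} {μ h : ℝ} (H : Tube X 0 20 μ) (hμ : 1.5 ≤ μ) (hμ' : μ ≤ 1.7)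
    (h0 : 0 ≤ h) (hh : μ ^ 2 + h ^ 2 ≤ 4) (hx : Ax X (vec 0 0 (-h)) (vec 0 0 1) 5)
    {k : ℤ} {b : E3} {n : ℕ} (hb : Ax X (μ • W k) b n) :
    rho2 b (μ • W (k + 1) - μ • W k) ≠ 0 ∧ rho2 b (μ • W (k - 1) - μ • W k) ≠ 0 :=
  ⟨fun hr => match_false H hμ hμ' h0 hh hx (dot_W_succ k) hb hr,
    fun hr => match_false H hμ hμ' h0 hh hx (dot_W_pred k) hb hr⟩

end

end Pool.Agent.Lib.MP_c5a075_co
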