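import Pool.Agent.Lib.MP_c5a075_co.Basic

/-! The basic inequality of the ring argument. -/

set_option autoImplicit false

namespace Pool.Agent.Lib.MP_c5a075_co

noncomputable section

open Real

/-- two-variable core inequality -/
lemma n2 (r T : ℝ) (hr : 0 ≤ r) (hT : 0 ≤ T) (h : r ^ 2 + T ^ 2 ≤ 0.3825) :
    0.691 * (r ^ 2 + 2 * r * T) + 0.018 * r ^ 2 - 0.534 * T * r ^ 3 ≤ 0.425 := by
  have h3 : 0 ≤ T * r ^ 3 := by positivity
  rcases le_total r 0.45 with h1 | h1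
  · have : 0.709 * r ^ 2 + 1.382 * r * T ≤ 0.425 := by
      nlinarith [sq_nonneg (T - 0.4243 - (0.45 - r) * 0.5), sq_nonneg (r - 1.618 * T),
        mul_nonneg hr (sub_nonneg.2 h1), mul_nonneg hT (sub_nonneg.2 h1), sq_nonneg (r - 1.06 * T)]
    nlinarith
  · rcases le_total r 0.57 with h2 | h2
    · have h4 : T * 0.0911 ≤ T * r ^ 3 := by
        apply mul_le_mul_of_nonneg_left _ hT
        have : (0.45:ℝ) ^ 3 ≤ r ^ 3 := pow_le_pow_left₀ (by norm_num) h1 3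
        norm_num at this ⊢; linarith
      have : 0.709 * r ^ 2 + 1.382 * r * T - 0.0486 * T ≤ 0.425 := by
        nlinarith [sq_nonneg (r - 1.618 * T), sq_nonneg (T - 0.325), sq_nonneg (r - 0.526)]
      nlinarith
    · have : 0.709 * r ^ 2 + 1.382 * r * T ≤ 0.425 := by
        nlinarith [sq_nonneg (r - 1.618 * T), sq_nonneg (T - 0.24), sq_nonneg (r - 2.375 * T),
          mul_nonneg hT (sub_nonneg.2 h2)]
      nlinarith

/-- three-variable inequality -/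
lemma n3 (A B T : ℝ) (hA : 0 ≤ A) (hB : 0 ≤ B) (hT : 0 ≤ T) (h : (A + B) ^ 2 + T ^ 2 ≤ 0.3825) :
    0.32612 * A ^ 2 + A * B + 0.7001 * B ^ 2 + T * (0.61804 * A + 1.38197 * B) +
      T * (A - B) * (1.01305 * A ^ 2 + 0.53475 * B ^ 2) ≤ 0.425 := by
  have hr : 0 ≤ A + B := add_nonneg hA hB
  have h2 := n2 (A + B) T hr hT h
  have hrb : (A + B) ^ 2 ≤ 0.3825 := by nlinarith
  have key : T * (1.54706 * A ^ 2 + 0.589 * A * B + 2.137 * B ^ 2) ≤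
      0.7639 * T + 0.38 * (A + B) := by
    have h5 : 1.54706 * A ^ 2 + 0.589 * A * B + 2.137 * B ^ 2 ≤ 2.137 * (A + B) ^ 2 := by
      nlinarith only [hA, hB]
    have h6 := mul_le_mul_of_nonneg_left h5 hT
    rcases le_total (A + B) 0.5978 with h7 | h7
    · have h8 : (A + B) ^ 2 ≤ 0.5978 ^ 2 := pow_le_pow_left₀ hr h7 2
      have h9 : T * (2.137 * (A + B) ^ 2) ≤ T * 0.7639 := by
        apply mul_le_mul_of_nonneg_left _ hT
        norm_num at h8; linarith only [h8]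
      linarith only [hr, h6, h9]
    · have h8 : (0.5978:ℝ) ^ 2 ≤ (A + B) ^ 2 := pow_le_pow_left₀ (by norm_num) h7 2
      have h9 : T ^ 2 ≤ 0.0252 := by norm_num at h8; linarith only [h, h8]
      have h10 : T ≤ 0.16 := by nlinarith only [h9]
      have h11 : T * (2.137 * (A + B) ^ 2) ≤ T * 0.8175 := by
        apply mul_le_mul_of_nonneg_left _ hT
        linarith only [hrb]
      nlinarith only [h6, h7, h10, h11]
  have key2 := mul_le_mul_of_nonneg_left key hA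
  have hAB := mul_nonneg hA hB
  have hTB3 : 0 ≤ T * B ^ 3 := by positivity
  have hTB : 0 ≤ T * B := by positivity
  nlinarith only [h2, key2, hAB, hTB3]

lemma abs_mul_le (c x y : ℝ) (hc : 0 ≤ c) : c * x * y ≤ c * |x| * |y| := by
  have h1 : x * y ≤ |x| * |y| := by rw [← abs_mul]; exact le_abs_self _
  have := mul_le_mul_of_nonneg_left h1 hc
  linarith


/-- Consequence of the two constraints: bound for the sum of the absolute values. -/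
lemma absum_sq (c q x1 x2 R2 : ℝ) (hp : (-(1 - c) * x1 + q * x2) ^ 2 ≤ R2)
    (hm : (-(1 - c) * x1 - q * x2) ^ 2 ≤ R2) : ((1 - c) * |x1| + q * |x2|) ^ 2 ≤ R2 := by
  have this : ((1 - c) * |x1| + q * |x2|) ^ 2 = (1 - c) ^ 2 * x1 ^ 2 + q ^ 2 * x2 ^ 2 +
      2 * (1 - c) * q * |x1 * x2| := by
    rw [abs_mul, ← sq_abs x1, ← sq_abs x2]; ring
  rw [this]
  rcases le_total 0 (x1 * x2) with h | h
  · rw [abs_of_nonneg h]; nlinarith only [hm]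
  · rw [abs_of_nonpos h]; nlinarith only [hp]

lemma rT_bound (c r2 T e : ℝ) (hc1 : 0.309016 < c)
    (he' : e ≤ 1 / 5000) (hr : 0 ≤ r2) (h : r2 ≤ (1 - 2 * c) - T ^ 2 + e * (1 + T ^ 2)) :
    r2 + T ^ 2 ≤ 0.3825 := by
  have hT2 : T ^ 2 ≤ 1 := by
    by_contra hcon
    push Not at hcon
    nlinarith
  nlinarith

lemma x3_lower (s x3 : ℝ) (hs0 : 0 ≤ s) (hs : s ≤ 0.81) (h3 : 0 ≤ x3) (h : x3 ^ 2 = 1 - s) :
    1 - 0.7 * s ≤ x3 := by
  by_contra hcon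
  push Not at hcon
  have h6 : x3 ^ 2 < (1 - 0.7 * s) ^ 2 := pow_lt_pow_left₀ hcon h3 (by norm_num)
  rw [h] at h6
  nlinarith

lemma ident1 (c : ℝ) (hcc : c ^ 2 = (1 - 2 * c) / 4) : 1.6 * (1 + c) * (1 - c) ^ 2 = 1 := by
  have : 1.6 * (1 + c) * (1 - c) ^ 2 = 1.6 * (1 - c - c ^ 2 + c * c ^ 2) := by ring
  rw [this, hcc]
  have : 1.6 * (1 - c - (1 - 2 * c) / 4 + c * ((1 - 2 * c) / 4)) =
    1.6 * (3 / 4 - c / 4 - c ^ 2 / 2) := by ring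
  rw [this, hcc]; ring

lemma ident2 (c q : ℝ) (hcc : c ^ 2 = (1 - 2 * c) / 4) (hq : q ^ 2 = (3 + 2 * c) / 4) :
    1.6 * (1 - c) * q ^ 2 = 1 := by
  rw [hq]
  have : 1.6 * (1 - c) * ((3 + 2 * c) / 4) = 0.4 * (3 - c - 2 * c ^ 2) := by ring
  rw [this, hcc]; ring

lemma cub_est (c A B T : ℝ) (hc1 : 0.30901675 < c) (hc2 : c < 0.309017) (hA : 0 ≤ A) (hB : 0 ≤ B)
    (hT : 0 ≤ T) (hA1 : A ≤ 0.62) (hB1 : B ≤ 0.62) (hT1 : T ≤ 0.62) :
    T * (A - B) * (1.12 * (1 + c) * (1 - c) * A ^ 2 + 1.12 * (1 - c) * (1 - c) * B ^ 2) ≤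
      T * (A - B) * (1.01305 * A ^ 2 + 0.53475 * B ^ 2) + 0.00002 := by
  have k3 : |1.12 * (1 + c) * (1 - c) - 1.01305| ≤ 0.00001 := by
    rw [abs_le]; constructor <;> nlinarith
  have k4 : |1.12 * (1 - c) * (1 - c) - 0.53475| ≤ 0.00001 := by
    rw [abs_le]; constructor <;> nlinarith
  have hTA : |T * (A - B)| ≤ 1 := by
    rw [abs_mul, abs_of_nonneg hT]
    have h1 : |A - B| ≤ 0.62 := by rw [abs_le]; constructor <;> linarith
    have := mul_le_mul hT1 h1 (abs_nonneg _) (by norm_num)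
    linarith
  have h9 : T * (A - B) * ((1.12 * (1 + c) * (1 - c) - 1.01305) * A ^ 2 +
      (1.12 * (1 - c) * (1 - c) - 0.53475) * B ^ 2) ≤ 0.00002 := by
    refine (le_abs_self _).trans ?_
    rw [abs_mul]
    have h2 : |(1.12 * (1 + c) * (1 - c) - 1.01305) * A ^ 2 +
      (1.12 * (1 - c) * (1 - c) - 0.53475) * B ^ 2| ≤ 0.00001 * A ^ 2 + 0.00001 * B ^ 2 := by
      refine (abs_add_le _ _).trans ?_
      rw [abs_mul, abs_mul, abs_of_nonneg (sq_nonneg A), abs_of_nonneg (sq_nonneg B)]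
      exact add_le_add (mul_le_mul_of_nonneg_right k3 (sq_nonneg A))
        (mul_le_mul_of_nonneg_right k4 (sq_nonneg B))
    have h3 : 0.00001 * A ^ 2 + 0.00001 * B ^ 2 ≤ (0.00002:ℝ) := by nlinarith only [hA, hB, hA1, hB1]
    have := mul_le_mul hTA (h2.trans h3) (abs_nonneg _) zero_le_one
    linarith only [this]
  have : T * (A - B) * (1.12 * (1 + c) * (1 - c) * A ^ 2 + 1.12 * (1 - c) * (1 - c) * B ^ 2) =
      T * (A - B) * (1.01305 * A ^ 2 + 0.53475 * B ^ 2) +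
      T * (A - B) * ((1.12 * (1 + c) * (1 - c) - 1.01305) * A ^ 2 +
      (1.12 * (1 - c) * (1 - c) - 0.53475) * B ^ 2) := by ring
  linarith only [h9]

lemma coef_pos (c q A B T : ℝ) (hc1 : 0.30901675 < c) (hc2 : c < 0.309017)
    (hq : q ^ 2 = (3 + 2 * c) / 4) (hA : 0 ≤ A) (hB : 0 ≤ B) (hT : 0 ≤ T) (hB1 : B ≤ 0.62)
    (hT1 : T ≤ 0.62) : 0 ≤ q ^ 2 + T * (1 - c) * (A - B) := by
  have h1 : T * B ≤ 0.62 * 0.62 := mul_le_mul hT1 hB1 hB (by norm_num)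
  have h2 : 0 ≤ T * (1 - c) * A := mul_nonneg (mul_nonneg hT (by linarith)) hA
  have h3 : T * (1 - c) * B ≤ T * B := by
    have : T * (1 - c) * B = (1 - c) * (T * B) := by ring
    rw [this]
    have h4 : (1 - c) * (T * B) ≤ 1 * (T * B) :=
      mul_le_mul_of_nonneg_right (by linarith) (mul_nonneg hT hB)
    linarith
  have : T * (1 - c) * (A - B) = T * (1 - c) * A - T * (1 - c) * B := by ring
  rw [this, hq]; linarith

/-- the inequality in terms of `A`, `B` -/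
lemma n_AB (c q A B T k : ℝ) (hc1 : 0.30901675 < c) (hc2 : c < 0.309017)
    (hcc : c ^ 2 = (1 - 2 * c) / 4) (hq : q ^ 2 = (3 + 2 * c) / 4)
    (hA : 0 ≤ A) (hB : 0 ≤ B) (hT : 0 ≤ T) (h : (A + B) ^ 2 + T ^ 2 ≤ 0.3825)
    (hk : k ≤ 1.12 * ((1 + c) * A ^ 2 + (1 - c) * B ^ 2)) :
    (1 - c) ^ 2 - q ^ 2 - A ^ 2 + A * B + T * ((1 + c) * A - (1 - c) * A + 2 * (1 - c) * B) +
      k * (q ^ 2 + T * (1 - c) * (A - B)) ≤ - 1 / 500 := by
  have hA1 : A ≤ 0.62 := by nlinarith only [hB, h]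
  have hB1 : B ≤ 0.62 := by nlinarith only [hA, h]
  have hT1 : T ≤ 0.62 := by nlinarith only [h]
  have hcoef := coef_pos c q A B T hc1 hc2 hq hA hB hT hB1 hT1
  have hk2 := mul_le_mul_of_nonneg_right hk hcoef
  have hn3 := n3 A B T hA hB hT h
  have hcub := cub_est c A B T hc1 hc2 hA hB hT hA1 hB1 hT1
  have e7 : (1.12 * ((1 + c) * A ^ 2 + (1 - c) * B ^ 2)) * (q ^ 2 + T * (1 - c) * (A - B)) =
      (1.12 * (1 + c) * q ^ 2) * A ^ 2 + (1.12 * (1 - c) * q ^ 2) * B ^ 2 +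
      T * (A - B) * (1.12 * (1 + c) * (1 - c) * A ^ 2 + 1.12 * (1 - c) * (1 - c) * B ^ 2) := by ring
  rw [e7] at hk2
  have k1 : 1.12 * (1 + c) * q ^ 2 ≤ 1.32612 := by
    rw [hq]
    have : 1.12 * (1 + c) * ((3 + 2 * c) / 4) = 0.28 * (3 + 5 * c + 2 * c ^ 2) := by ring
    rw [this, hcc]; linarith only [hc2]
  have k2 : 1.12 * (1 - c) * q ^ 2 ≤ 0.7001 := by
    have := ident2 c q hcc hq
    linarith only [this]
  have k1' := mul_le_mul_of_nonneg_right k1 (sq_nonneg A)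
  have k2' := mul_le_mul_of_nonneg_right k2 (sq_nonneg B)
  have hconst : (1 - c) ^ 2 - q ^ 2 ≤ -0.42704 := by
    have : (1 - c) ^ 2 = 1 - 2 * c + c ^ 2 := by ring
    rw [this, hq, hcc]; linarith only [hc1]
  have hlin : T * ((1 + c) * A - (1 - c) * A + 2 * (1 - c) * B) ≤
      T * (0.61804 * A + 1.38197 * B) := by
    apply mul_le_mul_of_nonneg_left _ hT
    have h1 : 2 * c * A ≤ 0.61804 * A := mul_le_mul_of_nonneg_right (by linarith only [hc2]) hA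
    have h2 : 2 * (1 - c) * B ≤ 1.38197 * B := mul_le_mul_of_nonneg_right (by linarith only [hc1]) hB
    linarith only [h1, h2]
  linarith only [hk2, hn3, hcub, k1', k2', hconst, hlin]

/-- The basic inequality, `72°` version. -/
lemma n_ineq_aux (c q x1 x2 x3 T e : ℝ) (hc1 : 0.30901675 < c) (hc2 : c < 0.309017)
    (hcc : c ^ 2 = (1 - 2 * c) / 4) (hq : q ^ 2 = (3 + 2 * c) / 4) (hq0 : 0 < q)
    (h1 : x1 ^ 2 + x2 ^ 2 + x3 ^ 2 = 1) (h3 : 0 ≤ x3) (hT : 0 ≤ T)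
    (he : 0 ≤ e) (he' : e ≤ 1 / 5000)
    (hp : (-(1 - c) * x1 + q * x2) ^ 2 ≤ (1 - 2 * c) - T ^ 2 + e * (1 + T ^ 2))
    (hm : (-(1 - c) * x1 - q * x2) ^ 2 ≤ (1 - 2 * c) - T ^ 2 + e * (1 + T ^ 2)) :
    (1 - c) * ((1 - c) + (-(1 - c) * x1 + q * x2) * (x1 + T * x3)) -
      q * (q * x3 - T * (q * x1 + (1 - c) * x2)) ≤ -1 / 500 := by
  have hAB := absum_sq c q x1 x2 _ hp hm
  obtain ⟨a1, ha1⟩ : ∃ a1, a1 = |x1| := ⟨_, rfl⟩
  obtain ⟨a2, ha2⟩ : ∃ a2, a2 = |x2| := ⟨_, rfl⟩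
  have ha1n : 0 ≤ a1 := by rw [ha1]; exact abs_nonneg _
  have ha2n : 0 ≤ a2 := by rw [ha2]; exact abs_nonneg _
  have hsq1 : a1 ^ 2 = x1 ^ 2 := by rw [ha1, sq_abs]
  have hsq2 : a2 ^ 2 = x2 ^ 2 := by rw [ha2, sq_abs]
  have hx1 : x1 ≤ a1 := by rw [ha1]; exact le_abs_self _
  have hx2 : x2 ≤ a2 := by rw [ha2]; exact le_abs_self _
  have hx12 : x1 * x2 ≤ a1 * a2 := by rw [ha1, ha2, ← abs_mul]; exact le_abs_self _
  rw [← ha1, ← ha2] at hAB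
  have hpp : 0 < 1 - c := by linarith
  obtain ⟨A, hA⟩ : ∃ A, A = (1 - c) * a1 := ⟨_, rfl⟩
  obtain ⟨B, hB⟩ : ∃ B, B = q * a2 := ⟨_, rfl⟩
  have hAn : 0 ≤ A := by rw [hA]; exact mul_nonneg hpp.le ha1n
  have hBn : 0 ≤ B := by rw [hB]; exact mul_nonneg hq0.le ha2n
  rw [← hA, ← hB] at hAB
  have hrT := rT_bound c ((A + B) ^ 2) T e (by linarith) he' (sq_nonneg _) hAB
  have hX1 : x1 ^ 2 = 1.6 * (1 + c) * A ^ 2 := by
    rw [← hsq1, hA]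
    have : 1.6 * (1 + c) * ((1 - c) * a1) ^ 2 = (1.6 * (1 + c) * (1 - c) ^ 2) * a1 ^ 2 := by ring
    rw [this, ident1 c hcc, one_mul]
  have hX2 : x2 ^ 2 = 1.6 * (1 - c) * B ^ 2 := by
    rw [← hsq2, hB]
    have : 1.6 * (1 - c) * (q * a2) ^ 2 = (1.6 * (1 - c) * q ^ 2) * a2 ^ 2 := by ring
    rw [this, ident2 c q hcc hq, one_mul]
  have hs : x1 ^ 2 + x2 ^ 2 ≤ 0.81 := by
    rw [hX1, hX2]
    have h4 : A ^ 2 + B ^ 2 ≤ 0.3825 := by
      have h5 := mul_nonneg hAn hBn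
      have h6 := sq_nonneg T
      have h7 : (A + B) ^ 2 = A ^ 2 + B ^ 2 + 2 * (A * B) := by ring
      linarith
    have h5 : 1.6 * (1 + c) * A ^ 2 ≤ 2.1 * A ^ 2 :=
      mul_le_mul_of_nonneg_right (by linarith) (sq_nonneg A)
    have h6 : 1.6 * (1 - c) * B ^ 2 ≤ 2.1 * B ^ 2 :=
      mul_le_mul_of_nonneg_right (by linarith only [hc1]) (sq_nonneg B)
    linarith
  have hx3 := x3_lower (x1 ^ 2 + x2 ^ 2) x3 (add_nonneg (sq_nonneg _) (sq_nonneg _)) hs h3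
    (by linarith only [h1])
  have hx31 : x3 ≤ 1 := by
    have h4 : x3 ^ 2 ≤ 1 ^ 2 := by
      have := sq_nonneg x1
      have := sq_nonneg x2
      linarith
    exact le_of_sq_le_sq h4 zero_le_one
  have hk : 1 - x3 ≤ 1.12 * ((1 + c) * A ^ 2 + (1 - c) * B ^ 2) := by
    have : 1.12 * ((1 + c) * A ^ 2 + (1 - c) * B ^ 2) = 0.7 * (x1 ^ 2 + x2 ^ 2) := by
      rw [hX1, hX2]; ring
    rw [this]; linarith only [hx3]
  have hmain := n_AB c q A B T (1 - x3) hc1 hc2 hcc hq hAn hBn hT hrT hk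
  have hF : (1 - c) * ((1 - c) + (-(1 - c) * x1 + q * x2) * (x1 + T * x3)) -
      q * (q * x3 - T * (q * x1 + (1 - c) * x2)) =
      (1 - c) ^ 2 - (1 - c) ^ 2 * x1 ^ 2 + ((1 - c) * q) * (x1 * x2) - q ^ 2 * x3 +
      T * (x1 * (q ^ 2 - (1 - c) ^ 2 * x3) + x2 * ((1 - c) * q * (1 + x3))) := by ring
  rw [hF]
  have b1 : ((1 - c) * q) * (x1 * x2) ≤ ((1 - c) * q) * (a1 * a2) :=
    mul_le_mul_of_nonneg_left hx12 (mul_nonneg hpp.le hq0.le)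
  have hq2n : 0 ≤ q ^ 2 - (1 - c) ^ 2 * x3 := by
    have h5 : (1 - c) ^ 2 * x3 ≤ (1 - c) ^ 2 * 1 := mul_le_mul_of_nonneg_left hx31 (sq_nonneg _)
    have h6 : (1 - c) ^ 2 = 1 - 2 * c + c ^ 2 := by ring
    have h7 : (1 - c) ^ 2 * 1 ≤ q ^ 2 := by rw [h6, hq, hcc]; linarith only [hc1]
    linarith only [h5, h7]
  have b2 : x1 * (q ^ 2 - (1 - c) ^ 2 * x3) ≤ a1 * (q ^ 2 - (1 - c) ^ 2 * x3) :=
    mul_le_mul_of_nonneg_right hx1 hq2n
  have b3 : x2 * ((1 - c) * q * (1 + x3)) ≤ a2 * ((1 - c) * q * (1 + x3)) :=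
    mul_le_mul_of_nonneg_right hx2
      (mul_nonneg (mul_nonneg hpp.le hq0.le) (by linarith only [hs, hx3]))
  have b4 := mul_le_mul_of_nonneg_left (add_le_add b2 b3) hT
  have e3 : a1 * (q ^ 2 - (1 - c) ^ 2 * x3) = (1 + c) * A - (1 - c) * A * x3 := by
    have : q ^ 2 = (1 - c) * (1 + c) := by rw [hq]; linarith only [hcc]
    rw [this, hA]; ring
  have e4 : a2 * ((1 - c) * q * (1 + x3)) = (1 - c) * B * (1 + x3) := by rw [hB]; ring
  have e5 : ((1 - c) * q) * (a1 * a2) = A * B := by rw [hA, hB]; ring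
  have e6 : (1 - c) ^ 2 * x1 ^ 2 = A ^ 2 := by rw [hA, ← hsq1]; ring
  rw [e3, e4] at b4
  rw [e5] at b1
  rw [e6]
  have e8 : (1 - c) ^ 2 - q ^ 2 - A ^ 2 + A * B +
      T * ((1 + c) * A - (1 - c) * A + 2 * (1 - c) * B) +
      (1 - x3) * (q ^ 2 + T * (1 - c) * (A - B)) = (1 - c) ^ 2 - A ^ 2 + A * B - q ^ 2 * x3 +
      T * ((1 + c) * A - (1 - c) * A * x3 + (1 - c) * B * (1 + x3)) := by ring
  rw [e8] at hmain
  linarith only [hmain, b1, b4]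

/-- The basic inequality, `72°` version. -/
lemma n_ineq (x1 x2 x3 T e : ℝ) (h1 : x1 ^ 2 + x2 ^ 2 + x3 ^ 2 = 1) (h3 : 0 ≤ x3) (hT : 0 ≤ T)
    (he : 0 ≤ e) (he' : e ≤ 1 / 5000)
    (hp : (-(1 - c5) * x1 + s5 * x2) ^ 2 ≤ (1 - 2 * c5) - T ^ 2 + e * (1 + T ^ 2))
    (hm : (-(1 - c5) * x1 - s5 * x2) ^ 2 ≤ (1 - 2 * c5) - T ^ 2 + e * (1 + T ^ 2)) :
    (1 - c5) * ((1 - c5) + (-(1 - c5) * x1 + s5 * x2) * (x1 + T * x3)) -
      s5 * (s5 * x3 - T * (s5 * x1 + (1 - c5) * x2)) ≤ -1 / 500 :=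
  n_ineq_aux c5 s5 x1 x2 x3 T e c5_gt c5_lt c5_sq s5_sq' s5_pos h1 h3 hT he he' hp hm

end

end Pool.Agent.Lib.MP_c5a075_co
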