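import Pool.Agent.Lib.MP_c5a075_co.NIneq

/-! The basic inequality of the ring argument, `T = 0`, with a larger margin. -/

set_option autoImplicit false

namespace Pool.Agent.Lib.MP_c5a075_co

noncomputable section

open Real

lemma n0_poly (A B : ℝ) (hA : 0 ≤ A) (hB : 0 ≤ B) (h : (A + B) ^ 2 ≤ 0.38225) :
    (0.67246 - A ^ 2 + A * B) ^ 2 ≤ 0.9045 ^ 2 * (1 - 2.09443 * A ^ 2 - 1.10558 * B ^ 2) := by
  have h0 : 0 ≤ A * B := mul_nonneg hA hB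
  have h00 : (A + B) ^ 2 = A ^ 2 + B ^ 2 + 2 * (A * B) := by ring
  rw [h00] at h
  have h1 : A ^ 2 + B ^ 2 ≤ 0.38225 := by linarith
  have h2 : A ^ 2 * (A ^ 2 + B ^ 2) ≤ A ^ 2 * 0.38225 :=
    mul_le_mul_of_nonneg_left h1 (sq_nonneg A)
  have h3 : 0 ≤ A ^ 3 * B := by positivity
  have h5 : 0 ≤ A ^ 2 := sq_nonneg A
  have h6 : 0 ≤ B ^ 2 := sq_nonneg B
  have e1 : (0.67246 - A ^ 2 + A * B) ^ 2 = 0.67246 ^ 2 + A ^ 2 * (A ^ 2 + B ^ 2)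
      - 2 * 0.67246 * A ^ 2 + 2 * 0.67246 * (A * B) - 2 * (A ^ 3 * B) := by ring
  rw [e1]
  norm_num at h h2 ⊢
  linarith

lemma n_ineq0_aux (c q x1 x2 x3 e : ℝ) (hc1 : 0.30901675 < c) (hc2 : c < 0.309017)
    (hcc : c ^ 2 = (1 - 2 * c) / 4) (hq : q ^ 2 = (3 + 2 * c) / 4) (hq0 : 0 < q)
    (h1 : x1 ^ 2 + x2 ^ 2 + x3 ^ 2 = 1) (h3 : 0 ≤ x3) (he' : e ≤ 1 / 5000)
    (hp : (-(1 - c) * x1 + q * x2) ^ 2 ≤ (1 - 2 * c) + e)
    (hm : (-(1 - c) * x1 - q * x2) ^ 2 ≤ (1 - 2 * c) + e) :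
    (1 - c) * ((1 - c) + (-(1 - c) * x1 + q * x2) * x1) - q * (q * x3) ≤ -195 / 1000 := by
  have hAB := absum_sq c q x1 x2 _ hp hm
  obtain ⟨a1, ha1⟩ : ∃ a1, a1 = |x1| := ⟨_, rfl⟩
  obtain ⟨a2, ha2⟩ : ∃ a2, a2 = |x2| := ⟨_, rfl⟩
  have ha1n : 0 ≤ a1 := by rw [ha1]; exact abs_nonneg _
  have ha2n : 0 ≤ a2 := by rw [ha2]; exact abs_nonneg _
  have hsq1 : a1 ^ 2 = x1 ^ 2 := by rw [ha1, sq_abs]
  have hsq2 : a2 ^ 2 = x2 ^ 2 := by rw [ha2, sq_abs]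
  have hx12 : x1 * x2 ≤ a1 * a2 := by rw [ha1, ha2, ← abs_mul]; exact le_abs_self _
  rw [← ha1, ← ha2] at hAB
  have hpp : 0 < 1 - c := by linarith
  obtain ⟨A, hA⟩ : ∃ A, A = (1 - c) * a1 := ⟨_, rfl⟩
  obtain ⟨B, hB⟩ : ∃ B, B = q * a2 := ⟨_, rfl⟩
  have hAn : 0 ≤ A := by rw [hA]; exact mul_nonneg hpp.le ha1n
  have hBn : 0 ≤ B := by rw [hB]; exact mul_nonneg hq0.le ha2n
  rw [← hA, ← hB] at hAB
  have hX1 : x1 ^ 2 = 1.6 * (1 + c) * A ^ 2 := by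
    rw [← hsq1, hA]
    have : 1.6 * (1 + c) * ((1 - c) * a1) ^ 2 = (1.6 * (1 + c) * (1 - c) ^ 2) * a1 ^ 2 := by ring
    rw [this, ident1 c hcc, one_mul]
  have hX2 : x2 ^ 2 = 1.6 * (1 - c) * B ^ 2 := by
    rw [← hsq2, hB]
    have : 1.6 * (1 - c) * (q * a2) ^ 2 = (1.6 * (1 - c) * q ^ 2) * a2 ^ 2 := by ring
    rw [this, ident2 c q hcc hq, one_mul]
  have hpoly := n0_poly A B hAn hBn (by linarith)
  have hF : (1 - c) * ((1 - c) + (-(1 - c) * x1 + q * x2) * x1) - q * (q * x3) =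
      (1 - c) ^ 2 - (1 - c) ^ 2 * x1 ^ 2 + ((1 - c) * q) * (x1 * x2) - q ^ 2 * x3 := by ring
  rw [hF]
  have b1 : ((1 - c) * q) * (x1 * x2) ≤ ((1 - c) * q) * (a1 * a2) :=
    mul_le_mul_of_nonneg_left hx12 (mul_nonneg hpp.le hq0.le)
  have e5 : ((1 - c) * q) * (a1 * a2) = A * B := by rw [hA, hB]; ring
  have e6 : (1 - c) ^ 2 * x1 ^ 2 = A ^ 2 := by rw [hA, ← hsq1]; ring
  rw [e5] at b1
  rw [e6]
  have k1 : (1 - c) ^ 2 ≤ 0.47746 := by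
    have : (1 - c) ^ 2 = 1 - 2 * c + c ^ 2 := by ring
    rw [this, hcc]; linarith only [hc1]
  have k2 : 0.9045 ≤ q ^ 2 := by rw [hq]; linarith only [hc1]
  have k3 : 0.67246 - A ^ 2 + A * B ≤ 0.9045 * x3 := by
    apply le_of_sq_le_sq (b := 0.9045 * x3) _ (by positivity)
    rw [mul_pow]
    refine hpoly.trans ?_
    apply mul_le_mul_of_nonneg_left _ (by norm_num)
    have l1 : 1.6 * (1 + c) * A ^ 2 ≤ 2.09443 * A ^ 2 :=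
      mul_le_mul_of_nonneg_right (by linarith only [hc2]) (sq_nonneg A)
    have l2 : 1.6 * (1 - c) * B ^ 2 ≤ 1.10558 * B ^ 2 :=
      mul_le_mul_of_nonneg_right (by linarith only [hc1]) (sq_nonneg B)
    linarith only [h1, hX1, hX2, l1, l2]
  have k4 := mul_le_mul_of_nonneg_right k2 h3
  linarith only [b1, k1, k3, k4]

/-- The basic inequality for `T = 0`, `72°` version, with a large margin. -/
lemma n_ineq0 (x1 x2 x3 e : ℝ) (h1 : x1 ^ 2 + x2 ^ 2 + x3 ^ 2 = 1) (h3 : 0 ≤ x3)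
    (he' : e ≤ 1 / 5000)
    (hp : (-(1 - c5) * x1 + s5 * x2) ^ 2 ≤ (1 - 2 * c5) + e)
    (hm : (-(1 - c5) * x1 - s5 * x2) ^ 2 ≤ (1 - 2 * c5) + e) :
    (1 - c5) * ((1 - c5) + (-(1 - c5) * x1 + s5 * x2) * x1) - s5 * (s5 * x3) ≤ -195 / 1000 :=
  n_ineq0_aux c5 s5 x1 x2 x3 e c5_gt c5_lt c5_sq s5_sq' s5_pos h1 h3 he' hp hm

/-- The version for rotations of order at least seven. -/
lemma n_ineq7_aux (c q x1 x2 x3 c' s' : ℝ) (hc1 : 0.30901675 < c) (hc2 : c < 0.309017)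
    (hcc : c ^ 2 = (1 - 2 * c) / 4) (hq : q ^ 2 = (3 + 2 * c) / 4) (hq0 : 0 < q)
    (h1 : x1 ^ 2 + x2 ^ 2 + x3 ^ 2 = 1) (h3 : 0 ≤ x3)
    (hc' : 1 / 2 < c') (hs' : 1 / 2 ≤ s') (hcs : c' ^ 2 + s' ^ 2 = 1)
    (hp : (-(1 - c) * x1 + q * x2) ^ 2 ≤ 0.1011)
    (hm : (-(1 - c) * x1 - q * x2) ^ 2 ≤ 0.1011) :
    (1 - c') * ((1 - c) + (-(1 - c) * x1 + q * x2) * x1) - s' * (q * x3) ≤ -195 / 1000 := by
  have hAB := absum_sq c q x1 x2 _ hp hm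
  have ha1n : 0 ≤ |x1| := abs_nonneg _
  have ha2n : 0 ≤ |x2| := abs_nonneg _
  have hsq1 : |x1| ^ 2 = x1 ^ 2 := sq_abs _
  have hsq2 : |x2| ^ 2 = x2 ^ 2 := sq_abs _
  have hpp : 0 < 1 - c := by linarith
  obtain ⟨A, hA⟩ : ∃ A, A = (1 - c) * |x1| := ⟨_, rfl⟩
  obtain ⟨B, hB⟩ : ∃ B, B = q * |x2| := ⟨_, rfl⟩
  have hAn : 0 ≤ A := by rw [hA]; exact mul_nonneg hpp.le ha1n
  have hBn : 0 ≤ B := by rw [hB]; exact mul_nonneg hq0.le ha2n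
  rw [← hA, ← hB] at hAB
  have hX1 : x1 ^ 2 = 1.6 * (1 + c) * A ^ 2 := by
    rw [← hsq1, hA]
    have : 1.6 * (1 + c) * ((1 - c) * |x1|) ^ 2 = (1.6 * (1 + c) * (1 - c) ^ 2) * |x1| ^ 2 := by
      ring
    rw [this, ident1 c hcc, one_mul]
  have hX2 : x2 ^ 2 = 1.6 * (1 - c) * B ^ 2 := by
    rw [← hsq2, hB]
    have : 1.6 * (1 - c) * (q * |x2|) ^ 2 = (1.6 * (1 - c) * q ^ 2) * |x2| ^ 2 := by ring
    rw [this, ident2 c q hcc hq, one_mul]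
  have hAB2 : A ^ 2 + B ^ 2 ≤ 0.1011 := by
    have g0 := mul_nonneg hAn hBn
    have g1 : (A + B) ^ 2 = A ^ 2 + B ^ 2 + 2 * (A * B) := by ring
    rw [g1] at hAB
    linarith only [hAB, g0]
  have hx3 : 0.8878 ≤ x3 := by
    have h4 : (0.8878:ℝ) ^ 2 ≤ x3 ^ 2 := by
      have l1 : 1.6 * (1 + c) * A ^ 2 ≤ 2.0945 * A ^ 2 :=
        mul_le_mul_of_nonneg_right (by linarith only [hc2]) (sq_nonneg A)
      have l2 : 1.6 * (1 - c) * B ^ 2 ≤ 2.0945 * B ^ 2 :=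
        mul_le_mul_of_nonneg_right (by linarith only [hc1]) (sq_nonneg B)
      have l3 : x3 ^ 2 = 1 - 1.6 * (1 + c) * A ^ 2 - 1.6 * (1 - c) * B ^ 2 := by
        rw [← hX1, ← hX2]; linarith only [h1]
      rw [l3]
      have l5 : (0.8878:ℝ) ^ 2 ≤ 1 - 2.0945 * 0.1011 := by norm_num
      linarith only [hAB2, l1, l2]
    exact le_of_sq_le_sq h4 h3
  have hP : (1 - c) + (-(1 - c) * x1 + q * x2) * x1 ≤ 0.8375 := by
    obtain ⟨β, hβ⟩ : ∃ β, β = -(1 - c) * x1 + q * x2 := ⟨_, rfl⟩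
    rw [← hβ] at hp ⊢
    have h5 : 2 * 0.69 * (β * x1) ≤ 0.69 ^ 2 * x1 ^ 2 + β ^ 2 := by
      have := sq_nonneg (x1 * 0.69 - β)
      linarith only [this]
    have l1 : 1.6 * (1 + c) * A ^ 2 ≤ 2.0945 * A ^ 2 :=
      mul_le_mul_of_nonneg_right (by linarith only [hc2]) (sq_nonneg A)
    have l3 : A ^ 2 ≤ 0.1011 := by have := sq_nonneg B; linarith only [hAB2, this]
    have l4 : x1 ^ 2 ≤ 2.0945 * 0.1011 := by rw [hX1]; linarith only [l1, l3]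
    norm_num at h5 l4 ⊢
    linarith only [hc1, hp, h5, l4]
  have hq1 : 0.951 ≤ q := by
    have : (0.951:ℝ) ^ 2 ≤ q ^ 2 := by rw [hq]; norm_num; linarith only [hc1]
    exact le_of_sq_le_sq this hq0.le
  have hQ : 0.8442 ≤ q * x3 := by
    have := mul_le_mul hq1 hx3 (by norm_num) hq0.le
    norm_num at this ⊢; linarith only [this]
  have hs2q : (1 / 2 : ℝ) ^ 2 ≤ s' ^ 2 := pow_le_pow_left₀ (by norm_num) hs' 2
  have hcu : c' ≤ 0.8661 := by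
    apply le_of_sq_le_sq (b := (0.8661 : ℝ)) _ (by norm_num)
    norm_num at hs2q ⊢
    linarith only [hcs, hs2q]
  have hc1' : c' < 1 := by linarith only [hcu]
  have k1 : (1 - c') * ((1 - c) + (-(1 - c) * x1 + q * x2) * x1) ≤ (1 - c') * 0.8375 :=
    mul_le_mul_of_nonneg_left hP (by linarith only [hc1'])
  have k2 : s' * 0.8442 ≤ s' * (q * x3) := mul_le_mul_of_nonneg_left hQ (by linarith only [hs'])
  have k3 : 0.195 + (1 - c') * 0.8375 ≤ s' * 0.8442 := by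
    apply le_of_sq_le_sq (b := s' * 0.8442) _ (by positivity)
    have hs2 : s' ^ 2 = (1 - c') * (1 + c') := by linarith only [hcs]
    rw [mul_pow, hs2]
    have hx := mul_nonneg (show (0:ℝ) ≤ c' - 1 / 2 by linarith only [hc'])
      (show (0:ℝ) ≤ 0.8661 - c' by linarith only [hcu])
    have e1 : (0.195 + (1 - c') * 0.8375) ^ 2 = 0.195 ^ 2 + 2 * 0.195 * 0.8375 * (1 - c')
      + 0.8375 ^ 2 * (1 - 2 * c' + c' ^ 2) := by ring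
    have e2 : (1 - c') * (1 + c') * 0.8442 ^ 2 = 0.8442 ^ 2 * (1 - c' ^ 2) := by ring
    have e3 : (c' - 1 / 2) * (0.8661 - c') = -(c' ^ 2) + 1.3661 * c' - 0.43305 := by ring
    rw [e3] at hx
    rw [e1, e2]
    norm_num at hx ⊢
    linarith only [hc1', hx]
  linarith only [k1, k2, k3]

lemma n_ineq7 (x1 x2 x3 c' s' : ℝ)
    (h1 : x1 ^ 2 + x2 ^ 2 + x3 ^ 2 = 1) (h3 : 0 ≤ x3)
    (hc' : 1 / 2 < c') (hs' : 1 / 2 ≤ s') (hcs : c' ^ 2 + s' ^ 2 = 1)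
    (hp : (-(1 - c5) * x1 + s5 * x2) ^ 2 ≤ 0.1011)
    (hm : (-(1 - c5) * x1 - s5 * x2) ^ 2 ≤ 0.1011) :
    (1 - c') * ((1 - c5) + (-(1 - c5) * x1 + s5 * x2) * x1) - s' * (s5 * x3) ≤ -195 / 1000 :=
  n_ineq7_aux c5 s5 x1 x2 x3 c' s' c5_gt c5_lt c5_sq s5_sq' s5_pos h1 h3 hc' hs' hcs hp hm

end

end Pool.Agent.Lib.MP_c5a075_co
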