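import Pool.Agent.Lib.MP_c5a075_co.RingCore
import Pool.Agent.Lib.MP_c5a075_co.Inv
import Pool.Agent.Lib.MP_c5a075_co.FrameEx

/-! Passage between the ring frame and the frame centred at the node. -/

set_option autoImplicit false

namespace Pool.Agent.Lib.MP_c5a075_co

noncomputable section

open Real

/-- The frame with origin `(0,0,p)`. -/
def upFr (p : ℝ) : Fr where
  o := vec 0 0 p
  f1 := vec 1 0 0
  f2 := vec 0 1 0
  f3 := vec 0 0 1
  σ := 1
  h11 := by simp [dot]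
  h22 := by simp [dot]
  h33 := by simp [dot]
  h12 := by simp [dot]
  h13 := by simp [dot]
  h23 := by simp [dot]
  hσ := Or.inl rfl
  hc := by apply ext3 <;> simp

/-- The frame with origin `(0,0,p)` and the third axis reversed. -/
def dnFr (p : ℝ) : Fr where
  o := vec 0 0 p
  f1 := vec 1 0 0
  f2 := vec 0 1 0
  f3 := vec 0 0 (-1)
  σ := -1
  h11 := by simp [dot]
  h22 := by simp [dot]
  h33 := by simp [dot]
  h12 := by simp [dot]
  h13 := by simp [dot]
  h23 := by simp [dot]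
  hσ := Or.inr rfl
  hc := by apply ext3 <;> simp

lemma upFr_lin (p : ℝ) (v : E3) : (upFr p).lin v = v := by
  apply ext3 <;> simp [Fr.lin, upFr]
lemma dnFr_lin (p : ℝ) (v : E3) : (dnFr p).lin v = vec (v 0) (v 1) (-v 2) := by
  apply ext3 <;> simp [Fr.lin, dnFr]
lemma upFr_map (p : ℝ) (v : E3) : (upFr p).map v = vec (v 0) (v 1) (p + v 2) := by
  rw [Fr.map, upFr_lin]; apply ext3 <;> simp [upFr]
lemma dnFr_map (p : ℝ) (v : E3) : (dnFr p).map v = vec (v 0) (v 1) (p - v 2) := by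
  rw [Fr.map, dnFr_lin]; apply ext3 <;> simp [dnFr]; ring

lemma starDir_0 (k : ℤ) (σ : ℝ) : starDir k σ 0 = 2 * σ * i5 * W k 0 := by
  rw [starDir, rotFr_lin]; simp [W]; ring
lemma starDir_1 (k : ℤ) (σ : ℝ) : starDir k σ 1 = 2 * σ * i5 * W k 1 := by
  rw [starDir, rotFr_lin]; simp [W]; ring
lemma starDir_2 (k : ℤ) (σ : ℝ) : starDir k σ 2 = i5 := by
  rw [starDir, rotFr_lin]; simp

lemma starDir_one (k : ℤ) : starDir k 1 = V k := by
  apply ext3
  · rw [starDir_0, V_0]; ring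
  · rw [starDir_1, V_1]; ring
  · rw [starDir_2, V_2]

lemma dnFr_starDir (p : ℝ) (k : ℤ) : (dnFr p).lin (starDir k (-1)) = -V k := by
  rw [dnFr_lin]
  apply ext3
  · rw [vec_0, starDir_0, neg_0, V_0]; ring
  · rw [vec_1, starDir_1, neg_1, V_1]; ring
  · rw [vec_2, starDir_2, neg_2, V_2]

/-- the circumradius -/
lemma circ {μ a : ℝ} (ha : a = 5 / 2 * i5 * μ) : a * (2 * i5) = μ ∧ a * i5 = μ / 2 ∧
    a = 2 * c5 * μ + μ / 2 := by
  have h1 := i5_sq
  have h2 := c5_i5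
  refine ⟨?_, ?_, ?_⟩
  · rw [ha]; linear_combination (5 * μ) * h1
  · rw [ha]; linear_combination (5 / 2 * μ) * h1
  · rw [ha]; linear_combination (-μ / 2) * h2

lemma aV_0 {μ a : ℝ} (ha : a = 5 / 2 * i5 * μ) (k : ℤ) : (a • V k) 0 = μ * W k 0 := by
  rw [smul_0, V_0]; linear_combination (W k 0) * (circ ha).1
lemma aV_1 {μ a : ℝ} (ha : a = 5 / 2 * i5 * μ) (k : ℤ) : (a • V k) 1 = μ * W k 1 := by
  rw [smul_1, V_1]; linear_combination (W k 1) * (circ ha).1
lemma aV_2 {μ a : ℝ} (ha : a = 5 / 2 * i5 * μ) (k : ℤ) : (a • V k) 2 = μ / 2 := by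
  rw [smul_2, V_2]; exact (circ ha).2.1

/-- The vertices of the node in the ring frame. -/
lemma up_V {μ a : ℝ} (ha : a = 5 / 2 * i5 * μ) (k : ℤ) :
    (upFr (-(μ / 2))).map (a • V k) = μ • W k := by
  rw [upFr_map]
  apply ext3
  · rw [vec_0, aV_0 ha, smul_0]
  · rw [vec_1, aV_1 ha, smul_1]
  · rw [vec_2, aV_2 ha, smul_2, W_2]; ring

lemma dn_V {μ a : ℝ} (ha : a = 5 / 2 * i5 * μ) (k : ℤ) :
    (dnFr (μ / 2)).map (a • V k) = μ • W k := by
  rw [dnFr_map]
  apply ext3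
  · rw [vec_0, aV_0 ha, smul_0]
  · rw [vec_1, aV_1 ha, smul_1]
  · rw [vec_2, aV_2 ha, smul_2, W_2]; ring

/-- The ring frame seen from the node frame. -/
lemma up_W {μ a : ℝ} (ha : a = 5 / 2 * i5 * μ) (k : ℤ) :
    (upFr (μ / 2)).map (μ • W k) = a • V k := by
  rw [upFr_map]
  apply ext3
  · rw [vec_0, aV_0 ha, smul_0]
  · rw [vec_1, aV_1 ha, smul_1]
  · rw [vec_2, aV_2 ha, smul_2, W_2]; ring

lemma dn_W {μ a : ℝ} (ha : a = 5 / 2 * i5 * μ) (k : ℤ) :
    (dnFr (μ / 2)).map (μ • W k) = a • V k := by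
  rw [dnFr_map]
  apply ext3
  · rw [vec_0, aV_0 ha, smul_0]
  · rw [vec_1, aV_1 ha, smul_1]
  · rw [vec_2, aV_2 ha, smul_2, W_2]; ring

/-- From the conclusion of the ring argument to the node frame. -/
lemma node_of_ring {X : Set E3} {μ a σ : ℝ} (ha : a = 5 / 2 * i5 * μ) (hσ : σ = 1 ∨ σ = -1)
    (hz : vec 0 0 (σ * (2 * c5) * μ) ∈ X) (hax : ∀ k : ℤ, Ax X (μ • W k) (starDir k σ) 5) :
    ∃ G : Fr, G.o = vec 0 0 (-(σ * μ / 2)) ∧ a • e3 ∈ G.pull X ∧
      ∀ k : ℤ, Ax (G.pull X) (a • V k) (V k) 5 := by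
  rcases hσ with rfl | rfl
  · refine ⟨upFr (-(μ / 2)), ?_, ?_, ?_⟩
    · show vec 0 0 (-(μ / 2)) = _
      congr 1; ring
    · rw [Fr.mem_pull, upFr_map]
      convert hz using 1
      apply ext3
      · simp
      · simp
      · simp only [vec_2, smul_2, e3_2]; rw [(circ ha).2.2]; ring
    · intro k
      apply Fr.ax_pull
      rw [up_V ha, upFr_lin, ← starDir_one]
      exact hax k
  · refine ⟨dnFr (μ / 2), ?_, ?_, ?_⟩
    · show vec 0 0 (μ / 2) = _
      congr 1; ring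
    · rw [Fr.mem_pull, dnFr_map]
      convert hz using 1
      apply ext3
      · simp
      · simp
      · simp only [vec_2, smul_2, e3_2]; rw [(circ ha).2.2]; ring
    · intro k
      apply Fr.ax_pull
      have e : (dnFr (μ / 2)).lin (V k) = -starDir k (-1) := by
        rw [dnFr_lin]
        apply ext3
        · rw [vec_0, neg_0, starDir_0, V_0]; ring
        · rw [vec_1, neg_1, starDir_1, V_1]; ring
        · rw [vec_2, neg_2, starDir_2, V_2]
      rw [dn_V ha, e]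
      exact (hax k).neg

lemma i5_ne : i5 ≠ 0 := i5_pos.ne'

/-- Identification of the type of the ring from one known axis. -/
lemma sigma_of_known {k : ℤ} {σ : ℝ} (hσ : σ = 1 ∨ σ = -1)
    (h : vec (2 * i5 * W k 0) (2 * i5 * W k 1) (-i5) = starDir k σ ∨
      vec (2 * i5 * W k 0) (2 * i5 * W k 1) (-i5) = -starDir k σ) : σ = -1 := by
  rcases hσ with rfl | rfl
  · exfalso
    have h5 := i5_ne
    rcases h with h | h
    · have h2 := (ext3_iff.1 h).2.2
      rw [vec_2, starDir_2] at h2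
      exact h5 (by linarith)
    · have h0 := (ext3_iff.1 h).1
      have h1 := (ext3_iff.1 h).2.1
      rw [vec_0, neg_0, starDir_0] at h0
      rw [vec_1, neg_1, starDir_1] at h1
      have hW := W_sq k
      have e0 : W k 0 = 0 := by
        have : i5 * W k 0 = 0 := by linarith
        exact (mul_eq_zero.1 this).resolve_left h5
      have e1 : W k 1 = 0 := by
        have : i5 * W k 1 = 0 := by linarith
        exact (mul_eq_zero.1 this).resolve_left h5
      rw [e0, e1] at hW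
      norm_num at hW
  · rfl

/-- The axes of the ring around the apex `a e₃`, from the ring argument in the frame
`dnFr (μ / 2)` (base at the apex). -/
lemma ring_axes_of_core {X : Set E3} {μ a T e H : ℝ} (ha : a = 5 / 2 * i5 * μ)
    (hR : RingHyp ((dnFr (μ / 2)).pull X) μ T e H)
    (hm : μ ≤ 1.52 ∨ ∀ (k : ℤ) (b : E3) (n : ℕ), Ax ((dnFr (μ / 2)).pull X) (μ • W k) b n →
      rho2 b (μ • W (k + 1) - μ • W k) ≠ 0 ∧ rho2 b (μ • W (k - 1) - μ • W k) ≠ 0)
    {j : ℤ} (hj : Ax X (a • V j) (V j) 5) (k : ℤ) : Ax X (a • V k) (V k) 5 := by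
  obtain ⟨-, σ, hσ, -, hax⟩ := ring_core hR hm
  have hj' : Ax ((dnFr (μ / 2)).pull X) (μ • W j)
      (vec (2 * i5 * W j 0) (2 * i5 * W j 1) (-i5)) 5 := by
    apply Fr.ax_pull
    have e : (dnFr (μ / 2)).lin (vec (2 * i5 * W j 0) (2 * i5 * W j 1) (-i5)) = V j := by
      rw [dnFr_lin]; apply ext3 <;> simp
    rw [dn_W ha, e]; exact hj
  have hσ1 := sigma_of_known hσ (hax j _ _ hj').2
  obtain ⟨b, n, hb⟩ := hR.flag k
  obtain ⟨hn, hb2⟩ := hax k b n hb
  have hb3 : Ax ((dnFr (μ / 2)).pull X) (μ • W k) (starDir k (-1)) 5 := by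
    rw [hn] at hb
    rw [hσ1] at hb2
    rcases hb2 with h | h
    · rw [← h]; exact hb
    · have := hb.neg
      rw [h, neg_neg] at this; exact this
  have hb4 := (Fr.ax_push _ hb3).neg
  rw [dn_W ha, dnFr_starDir, neg_neg] at hb4
  exact hb4

end

end Pool.Agent.Lib.MP_c5a075_co
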