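import Pool.Agent.Lib.MP_c5a075_co.CapsPair
import Pool.Agent.Lib.MP_c5a075_co.NodeFr

/-! Regime A: the complete node. -/

set_option autoImplicit false

namespace Pool.Agent.Lib.MP_c5a075_co

noncomputable section

open Real

lemma Fr.comp_map (F G : Fr) (v : E3) : (F.comp G).map v = F.map (G.map v) := by
  rw [Fr.map, Fr.comp_lin, Fr.map, Fr.map, Fr.lin_add]
  show F.map G.o + _ = _
  rw [Fr.map]; abel

lemma Fr.comp_pull (F G : Fr) (X : Set E3) : (F.comp G).pull X = G.pull (F.pull X) := by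
  ext v
  rw [Fr.mem_pull, Fr.mem_pull, Fr.mem_pull, Fr.comp_map]

lemma ring_rot' (μ h : ℝ) (k j : ℤ) :
    vec 0 0 (-h) + rot (vec 0 0 1) (cos (k * (2 * π / 5))) (sin (k * (2 * π / 5)))
      (μ • W j - vec 0 0 (-h)) = μ • W (k + j) := by
  have e : ((k + j : ℤ) : ℝ) * (2 * π / 5) = k * (2 * π / 5) + j * (2 * π / 5) := by
    push_cast; ring
  apply ext3
  · simp only [add_0, rot_0, sub_0, sub_1, sub_2, smul_0, smul_1, smul_2, vec_0, vec_1, vec_2, W,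
      dot]
    rw [e, Real.cos_add]; ring
  · simp only [add_1, rot_1, sub_0, sub_1, sub_2, smul_0, smul_1, smul_2, vec_0, vec_1, vec_2, W,
      dot]
    rw [e, Real.sin_add]; ring
  · simp only [add_2, rot_2, sub_0, sub_1, sub_2, smul_0, smul_1, smul_2, vec_0, vec_1, vec_2, W,
      dot]
    ring

lemma ring_of_base' {X : Set E3} {μ h : ℝ} (hx : Ax X (vec 0 0 (-h)) (vec 0 0 1) 5) {j : ℤ}
    (hw : μ • W j ∈ X) (hvis : μ ^ 2 + h ^ 2 ≤ 4) (k : ℤ) : μ • W k ∈ X := by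
  have h1 := hx.pow (k - j) (μ • W j - vec 0 0 (-h)) (by
    have := W_sq j
    simp only [sub_0, sub_1, sub_2, smul_0, smul_1, smul_2, vec_0, vec_1, vec_2, dot, W_2]
    have e : (μ * W j 0 - 0) * (μ * W j 0 - 0) + (μ * W j 1 - 0) * (μ * W j 1 - 0) +
        (μ * 0 - -h) * (μ * 0 - -h) = μ ^ 2 * (W j 0 ^ 2 + W j 1 ^ 2) + h ^ 2 := by ring
    rw [e, this]; linarith) (by rw [add_sub_cancel]; exact hw)
  have e : ((5:ℕ):ℝ) = 5 := by norm_num
  rw [e, ring_rot', sub_add_cancel] at h1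
  exact h1

/-- One step: from the apex and one neighbour to all neighbours. -/
lemma stepA {X : Set E3} {μ a t : ℝ} (H : Caps X 0 (40 * t) t) (hμ : 0 < μ) (hμt : μ ≤ t)
    (hμ2 : 0.99 * t ^ 2 ≤ μ ^ 2) (ha : a = 5 / 2 * i5 * μ) (hP : Ax X (a • e3) e3 5) {j : ℤ}
    (hj : Ax X (a • V j) (V j) 5) (k : ℤ) : Ax X (a • V k) (V k) 5 := by
  have ht := H.t_pos
  have htl := H.t_le
  have hc1 := c5_gt
  have hc2 := c5_lt
  have ht2 : 0 < t ^ 2 := by positivity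
  have hμ3 : μ ≤ 1.2423 := by linarith
  have hμ4 : μ ^ 2 ≤ 1.2423 ^ 2 := pow_le_pow_left₀ hμ.le hμ3 2
  obtain ⟨h, hh⟩ : ∃ h, h = 2 * c5 * μ := ⟨_, rfl⟩
  have hh0 : 0 ≤ h := by rw [hh]; have := c5_pos; positivity
  have hh1 : h ≤ 0.618034 * μ := by rw [hh]; nlinarith only [hc1, hc2, hh, hh0]
  have hh2 : 0.618033 * μ ≤ h := by rw [hh]; nlinarith only [hμ, hc1]
  have hC : Caps ((dnFr (μ / 2)).pull X) 0 (20 * t) t := by
    refine (H.pull (dnFr (μ / 2))).recenter ?_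
    have e : dist (0:E3) ((dnFr (μ / 2)).inv 0) ≤ t := by
      rw [← (dnFr (μ / 2)).dist_map, Fr.map_inv, dnFr_map,
        dist_le_iff _ _ ht.le]
      simp only [dot, sub_0, sub_1, sub_2, vec_0, vec_1, vec_2, zero_0, zero_1, zero_2]
      nlinarith only [hμ, hμt]
    linarith
  have hx : Ax ((dnFr (μ / 2)).pull X) (vec 0 0 (-h)) (vec 0 0 1) 5 := by
    refine Ax.pull_e3 hP ?_ (Or.inr ?_)
    · rw [dnFr_map]
      apply ext3
      · simp
      · simp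
      · simp only [vec_2, smul_2, e3_2]; rw [(circ ha).2.2, hh]; ring
    · rw [dnFr_lin]; apply ext3 <;> simp
  have hwj : μ • W j ∈ (dnFr (μ / 2)).pull X := by
    rw [Fr.mem_pull, dn_W ha]; exact hj.mem
  have hvis : μ ^ 2 + h ^ 2 ≤ 4 := by
    have : h ^ 2 ≤ (0.618034 * μ) ^ 2 := pow_le_pow_left₀ hh0 hh1 2
    rw [mul_pow] at this
    norm_num at this hμ4
    linarith
  have hw := ring_of_base' hx hwj hvis 0
  obtain ⟨T, hT⟩ : ∃ T, T = (h - 0.61 * ((1 - 1 / 1000000) * t)) / μ := ⟨_, rfl⟩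
  have hTμ : T * μ = h - 0.61 * ((1 - 1 / 1000000) * t) := by rw [hT]; field_simp
  have htμ : t ≤ 1.0051 * μ := by
    apply le_of_sq_le_sq _ (by positivity)
    rw [mul_pow]; norm_num; linarith only [hμ2, ht2]
  have hT0 : 0 ≤ T := by
    rw [hT]; exact div_nonneg (by linarith only [hh1, hh2, htμ]) hμ.le
  have hT1 : T * μ ≤ 0.00804 * μ := by rw [hTμ]; linarith only [hμt, hh0, hh1]
  have hR := caps_ring hC hμ hμt (by linarith only [hμ2, ht2]) hh0 hvis hx hw hT0 (by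
    have e : (1 + T ^ 2) * μ ^ 2 = μ ^ 2 + (T * μ) ^ 2 := by ring
    have h2 : (T * μ) ^ 2 ≤ (0.00804 * μ) ^ 2 := pow_le_pow_left₀ (by positivity) hT1 2
    have h3 : μ ^ 2 ≤ t ^ 2 := pow_le_pow_left₀ hμ.le hμt 2
    rw [e]
    rw [mul_pow] at h2
    norm_num at h2
    linarith only [ht2, h3, h2]) (Or.inr hTμ)
  exact ring_axes_of_core ha hR (Or.inl (by linarith only [hμ3])) hj k

/-! ### Adjacency in the star -/

lemma dot_V01 : dot (V 0) (V 1) = i5 := by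
  have h := i5_sq
  have h2 := c5_i5
  simp only [dot, V_0, V_1, V_2, W_zero, W_one, vec_0, vec_1]
  linear_combination (4 * c5 + 1) * h + (1 / 5 : ℝ) * h2

lemma dot_V02 : dot (V 0) (V 2) = -i5 := by
  have h := i5_sq
  have h2 := c5_eq
  have h3 := c5_sq
  simp only [dot, V_0, V_1, V_2, W_zero, W_two, vec_0, vec_1]
  rw [h3, h2]
  linear_combination (-5 * i5 ) * h

lemma dot_V_V (k i j : ℤ) : dot (V (k + i)) (V (k + j)) = dot (V i) (V j) := by
  rw [← rotFr_V, ← rotFr_V, Fr.dot_lin]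

lemma dot_V_succ (k : ℤ) : dot (V k) (V (k + 1)) = i5 := by
  have := dot_V_V k 0 1
  rwa [add_zero, dot_V01] at this

lemma dot_V_two (k : ℤ) : dot (V k) (-V (k + 2)) = i5 := by
  have := dot_V_V k 0 2
  rw [add_zero, dot_V02] at this
  rw [dot_neg_right, this, neg_neg]

lemma dot_V_e3 (k : ℤ) : dot (V k) e3 = i5 := by rw [dot_e3, V_2]

lemma Dr_i5 {v : E3} (hv : v ∈ Dr) (h : v 2 = i5) : ∃ k : ℤ, v = V k := by
  have h1 := i5_pos
  have h2 := i5_sq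
  rcases hv with rfl | rfl | ⟨k, rfl | rfl⟩
  · exfalso
    rw [e3_2] at h
    rw [← h] at h2
    norm_num at h2
  · exfalso
    rw [neg_2, e3_2] at h
    linarith
  · exact ⟨k, rfl⟩
  · exfalso
    rw [neg_2, V_2] at h
    linarith

/-- The general step. -/
lemma stepA' {X : Set E3} {μ a t : ℝ} (H : Caps X 0 (40 * t) t) (hμ : 0 < μ) (hμt : μ ≤ t)
    (hμ2 : 0.99 * t ^ 2 ≤ μ ^ 2) (ha : a = 5 / 2 * i5 * μ) {u u' u'' : E3} (hu : u ∈ Dr)
    (hu' : u' ∈ Dr) (hu'' : u'' ∈ Dr) (h1 : dot u u' = i5) (h2 : dot u u'' = i5)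
    (hP : Ax X (a • u) u 5) (hj : Ax X (a • u') u' 5) : Ax X (a • u'') u'' 5 := by
  obtain ⟨F, hF, hFu⟩ := exists_sym hu
  have key : ∀ v ∈ Dr, dot u v = i5 → ∃ k : ℤ, v = F.lin (V k) := by
    intro v hv hd
    have h3 : (F.co v) 2 = i5 := by
      rw [← hFu, ← F.lin_co v, F.dot_lin, e3_dot] at hd; exact hd
    obtain ⟨k, hk⟩ := Dr_i5 (hF.comaps v hv) h3
    exact ⟨k, by rw [← hk, F.lin_co]⟩
  obtain ⟨j, hj'⟩ := key u' hu' h1
  obtain ⟨k, hk'⟩ := key u'' hu'' h2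
  have hC : Caps (F.pull X) 0 (40 * t) t := by
    refine (H.pull F).recenter ?_
    have e : dist (0:E3) (F.inv 0) = 0 := by
      rw [← F.dist_map, Fr.map_inv, hF.map, Fr.lin_zero, dist_self]
    linarith
  have hP' : Ax (F.pull X) (a • e3) e3 5 := by
    apply Fr.ax_pull
    rw [hF.map, Fr.lin_smul, hFu]; exact hP
  have hj'' : Ax (F.pull X) (a • V j) (V j) 5 := by
    apply Fr.ax_pull
    rw [hF.map, Fr.lin_smul, ← hj']; exact hj
  have := Fr.ax_push _ (stepA hC hμ hμt hμ2 ha hP' hj'' k)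
  rw [hF.map, Fr.lin_smul, ← hk'] at this
  exact this

/-- From five neighbouring vertices to all twelve. -/
lemma starA {X : Set E3} {μ a t : ℝ} (H : Caps X 0 (40 * t) t) (hμ : 0 < μ) (hμt : μ ≤ t)
    (hμ2 : 0.99 * t ^ 2 ≤ μ ^ 2) (ha : a = 5 / 2 * i5 * μ)
    (hV : ∀ k : ℤ, Ax X (a • V k) (V k) 5) : StarAx X a := by
  have hup : Ax X (a • e3) e3 5 :=
    stepA' H hμ hμt hμ2 ha (V_mem 0) (V_mem (0 + 1)) e3_mem (dot_V_succ 0) (dot_V_e3 0) (hV 0)
      (hV (0 + 1))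
  have hlow : ∀ k : ℤ, Ax X (a • (-V k)) (-V k) 5 := by
    intro k
    have h1 := dot_V_two (k - 2)
    rw [sub_add_cancel] at h1
    exact stepA' H hμ hμt hμ2 ha (V_mem (k - 2)) (V_mem (k - 2 + 1)) (neg_V_mem k)
      (dot_V_succ (k - 2)) h1 (hV (k - 2)) (hV (k - 2 + 1))
  have hdn : Ax X (a • (-e3)) (-e3) 5 := by
    refine stepA' H hμ hμt hμ2 ha (neg_V_mem 0) (neg_V_mem (0 + 1)) neg_e3_mem ?_ ?_ (hlow 0)
      (hlow (0 + 1))
    · rw [dot_neg_left, dot_neg_right, neg_neg]; exact dot_V_succ 0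
    · rw [dot_neg_left, dot_neg_right, neg_neg]; exact dot_V_e3 0
  rintro v (rfl | rfl | ⟨k, rfl | rfl⟩)
  · exact hup
  · exact hdn
  · exact hV k
  · exact hlow k

/-- Regime A gives a node. -/
theorem nodeA {X : Set E3} {c : E3} {t : ℝ} (H : Caps X c (100 * t) t) {x a w : E3} {n : ℕ}
    (hx : Ax X x a n) (hd : dist x c ≤ t) (hw : w ∈ X) (hoff : rho2 a (w - x) ≠ 0)
    (hk : InK a (w - x) t) :
    ∃ (F : Fr) (μ : ℝ), 0 < μ ∧ μ ≤ t ∧ 0.99 * t ^ 2 ≤ μ ^ 2 ∧ dist F.o c ≤ 10 * t ∧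
      StarAx (F.pull X) (5 / 2 * i5 * μ) := by
  have ht := H.t_pos
  have htl := H.t_le
  obtain ⟨F, h, h0, hF, hFx, hFw, hhd⟩ := exists_frame hx.unit hoff
  obtain ⟨μ, hμ⟩ : ∃ μ, μ = √(rho2 a (w - x)) := ⟨_, rfl⟩
  have hpos : 0 < rho2 a (w - x) := (rho2_pos_iff hx.unit).1 hoff
  have hμ0 : 0 < μ := by rw [hμ]; exact Real.sqrt_pos.2 hpos
  rw [← hμ] at hFw
  have hvis := hk.vis hx.unit ht.le
  have hh4 : h ^ 2 ≤ (2 * t) ^ 2 := by
    have : (1.61 * t) ^ 2 ≤ (2 * t) ^ 2 := pow_le_pow_left₀ (by positivity) (by linarith) 2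
    linarith
  have hFo : dist F.o c ≤ 3 * t := by
    have e1 : F.o = F.map 0 := by rw [Fr.map, Fr.lin_zero, add_zero]
    have e2 : dist F.o x ≤ 2 * t := by
      rw [e1, ← hFx, F.dist_map, dist_le_iff _ _ (by positivity)]
      simp only [dot, sub_0, sub_1, sub_2, vec_0, vec_1, vec_2, zero_0, zero_1, zero_2]
      nlinarith only [hh4]
    have := dist_triangle F.o x c
    linarith
  have hC : Caps (F.pull X) 0 (90 * t) t := by
    refine (H.pull F).recenter ?_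
    have e : dist (0:E3) (F.inv c) = dist F.o c := by
      rw [← F.dist_map, F.map_inv, Fr.map, Fr.lin_zero, add_zero]
    linarith
  have hx' := hx.pull_e3 hFx hF
  have hw' : μ • W 0 ∈ F.pull X := by rw [Fr.mem_pull, hFw]; exact hw
  have hk' : InK (vec 0 0 1) (μ • W 0 - vec 0 0 (-h)) t := by
    have e : F.lin (μ • W 0 - vec 0 0 (-h)) = w - x := by rw [← F.map_sub, hFw, hFx]
    have key : ∀ a' : E3, F.lin (vec 0 0 1) = a' → InK a' (w - x) t →
        InK (vec 0 0 1) (μ • W 0 - vec 0 0 (-h)) t := by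
      rintro a' ha' ⟨s, h1, h2⟩
      refine ⟨s, h1, ?_⟩
      rw [← F.dot_lin, F.lin_sub, F.lin_smul, ha', e]; exact h2
    rcases hF with h1 | h1
    · exact key a h1 hk
    · exact key (-a) h1 hk.neg
  obtain ⟨hn, hμt, hvis4, T, hR, hTt⟩ := caps_pair
    (hC.recenter (c' := 0) (K' := 20 * t) (by rw [dist_self]; linarith)) hμ0 h0 hx' hw' hk'
  obtain ⟨hT2, σ, hσ, hz, hax⟩ := ring_core hR (Or.inl (by linarith))
  have hμ2 : 0.99 * t ^ 2 ≤ μ ^ 2 := by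
    have h1 : T ^ 2 * μ ^ 2 ≤ 2 * (1 / 5000) * μ ^ 2 :=
      mul_le_mul_of_nonneg_right hT2 (sq_nonneg μ)
    have ht2 : 0 < t ^ 2 := by positivity
    nlinarith only [hTt, hT2]
  have hax' : ∀ k : ℤ, Ax (F.pull X) (μ • W k) (starDir k σ) 5 := by
    intro k
    obtain ⟨b, m, hb⟩ := hR.flag k
    obtain ⟨hm, hb2⟩ := hax k b m hb
    rw [hm] at hb
    rcases hb2 with h1 | h1
    · rw [← h1]; exact hb
    · have := hb.neg
      rw [h1, neg_neg] at this; exact this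
  obtain ⟨G, hGo, -, hGV⟩ := node_of_ring (a := 5 / 2 * i5 * μ) rfl hσ hz hax'
  have hσ2 : σ ^ 2 = 1 := by rcases hσ with h | h <;> rw [h] <;> norm_num
  have hGd : dist G.o 0 ≤ t := by
    rw [hGo, dist_le_iff _ _ ht.le]
    simp only [dot, sub_0, sub_1, sub_2, vec_0, vec_1, vec_2, zero_0, zero_1, zero_2]
    have h1 : μ ^ 2 ≤ t ^ 2 := pow_le_pow_left₀ hμ0.le hμt 2
    nlinarith only [hσ2, h1]
  have hC2 : Caps (G.pull (F.pull X)) 0 (40 * t) t := by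
    refine (hC.pull G).recenter ?_
    have e : dist (0:E3) (G.inv 0) = dist G.o 0 := by
      rw [← G.dist_map, G.map_inv, Fr.map, Fr.lin_zero, add_zero]
    linarith
  refine ⟨F.comp G, μ, hμ0, hμt, hμ2, ?_, ?_⟩
  · show dist (F.map G.o) c ≤ 10 * t
    have e1 : F.o = F.map 0 := by rw [Fr.map, Fr.lin_zero, add_zero]
    have e2 : dist (F.map G.o) F.o ≤ t := by rw [e1, F.dist_map]; exact hGd
    have := dist_triangle (F.map G.o) F.o c
    linarith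
  · rw [Fr.comp_pull]
    exact starA hC2 hμ0 hμt hμ2 rfl hGV

end

end Pool.Agent.Lib.MP_c5a075_co
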