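import Pool.Agent.Lib.MP_c5a075_co.PoleB1

/-! Regime B: the axis at the pole. -/

set_option autoImplicit false

namespace Pool.Agent.Lib.MP_c5a075_co

noncomputable section

open Real

lemma pole_ii_num {g : ℝ} (hg0 : 0 < g) (hg : g ^ 2 * (2 * (1 - c5)) = 1) :
    0.0005 ≤ 3 * (1 - c5) ^ 2 - (2 * c5 * (1 - c5) + s5 ^ 2 * g) ^ 2 ∧
      3 * (1 - c5) ^ 2 - (2 * c5 * (1 - c5) + s5 ^ 2 * g) ^ 2 ≤ 0.01 := by
  have a1 := c5_gt
  have a2 := c5_lt
  have e1 := c5_sq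
  have e2 := s5_sq'
  have h1 : (1 - c5) ^ 2 = 5 / 4 - 5 / 2 * c5 := by
    have : (1 - c5) ^ 2 = 1 - 2 * c5 + c5 ^ 2 := by ring
    rw [this, e1]; ring
  have h2 : 2 * c5 * (1 - c5) = 3 * c5 - 1 / 2 := by
    have : 2 * c5 * (1 - c5) = 2 * c5 - 2 * c5 ^ 2 := by ring
    rw [this, e1]; ring
  have hg1 : 0.85065 ≤ g := by
    apply le_of_sq_le_sq _ hg0.le
    by_contra hcon
    push Not at hcon
    have : g ^ 2 * (2 * (1 - c5)) ≤ 0.85065 ^ 2 * (2 * (1 - c5)) :=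
      mul_le_mul_of_nonneg_right hcon.le (by linarith)
    norm_num at this
    linarith
  have hg2 : g ≤ 0.850652 := by
    apply le_of_sq_le_sq _ (by norm_num)
    by_contra hcon
    push Not at hcon
    have : 0.850652 ^ 2 * (2 * (1 - c5)) ≤ g ^ 2 * (2 * (1 - c5)) :=
      mul_le_mul_of_nonneg_right hcon.le (by linarith)
    norm_num at this
    linarith
  rw [h1, h2, e2]
  obtain ⟨q, hq⟩ : ∃ q, q = (3 + 2 * c5) / 4 * g := ⟨_, rfl⟩
  have hq1 : 0.904508 * 0.85065 ≤ q := by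
    rw [hq]; exact mul_le_mul (by linarith) hg1 (by norm_num) (by linarith)
  have hq2 : q ≤ 0.904509 * 0.850652 := by
    rw [hq]; exact mul_le_mul (by linarith) hg2 hg0.le (by norm_num)
  rw [← hq]
  have h3 : 1.19646 ≤ 3 * c5 - 1 / 2 + q := by norm_num at hq1; linarith
  have h4 : 3 * c5 - 1 / 2 + q ≤ 1.19648 := by norm_num at hq2; linarith only [a2, hq2]
  have h5 : 1.19646 ^ 2 ≤ (3 * c5 - 1 / 2 + q) ^ 2 := pow_le_pow_left₀ (by norm_num) h3 2
  have h6 : (3 * c5 - 1 / 2 + q) ^ 2 ≤ 1.19648 ^ 2 := pow_le_pow_left₀ (by linarith only [h3]) h4 2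
  norm_num at h5 h6 ⊢
  constructor <;> linarith

lemma pole_ii {X : Set E3} {μ a : ℝ} (H : Tube X 0 20 μ) (hμ : μ ≤ 1.525)
    (ha : a = 5 / 2 * i5 * μ) (hV : ∀ k : ℤ, Ax X (a • V k) (V k) 5) {b : E3} {n : ℕ}
    (hb : Ax X (a • e3) b n) (hb0 : 0 ≤ b 0) (h0 : rho2 b (a • V 0 - a • e3) = 0) : False := by
  obtain ⟨ha0, ha2, ha3, hμl, hμu⟩ := pole_bounds H.μ_ge hμ ha
  have hμ0 : 0 < μ := by have := H.μ_ge; linarith
  have hμ2 : 0 < μ ^ 2 := by positivity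
  have hc1 := c5_gt
  have hc2 := c5_lt
  have e1 := c5_sq
  have hbu := hb.unit
  have hdP := dist_aV ha0 ha3 dot_e3_e3
  have hu0' : a • V 0 - a • e3 = vec μ 0 (-(2 * c5 * μ)) := by
    rw [pole_u ha, W_zero]; simp only [vec_0, vec_1, mul_one, mul_zero]
  have hu1' : a • V 1 - a • e3 = vec (μ * c5) (μ * s5) (-(2 * c5 * μ)) := by
    rw [pole_u ha, W_one]; simp only [vec_0, vec_1]
  -- coordinates of `b`
  have h1 := (rho2_eq_zero hbu).1 h0
  obtain ⟨k, hk⟩ : ∃ k, k = dot b (a • V 0 - a • e3) := ⟨_, rfl⟩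
  rw [← hk, hu0'] at h1
  have c0 := (ext3_iff.1 h1).1
  have c1 := (ext3_iff.1 h1).2.1
  have c2 := (ext3_iff.1 h1).2.2
  simp only [vec_0, vec_1, vec_2, smul_0, smul_1, smul_2] at c0 c1 c2
  have hk0 : k ≠ 0 := by
    intro h; rw [h, zero_mul] at c0; linarith
  have hb1 : b 1 = 0 := by
    rcases mul_eq_zero.1 c1.symm with h | h
    · exact absurd h hk0
    · exact h
  have hb2 : b 2 = -(2 * c5 * b 0) := by
    have : k * (b 2 + 2 * c5 * b 0) = 0 := by linear_combination -c2 - 2 * c5 * c0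
    rcases mul_eq_zero.1 this with h | h
    · exact absurd h hk0
    · linarith only [h]
  obtain ⟨g, hg⟩ : ∃ g, g = b 0 := ⟨_, rfl⟩
  rw [← hg] at hb0 hb2
  have hbb : b 0 * b 0 + b 1 * b 1 + b 2 * b 2 = 1 := hbu
  have hgg : g ^ 2 * (2 * (1 - c5)) = 1 := by
    rw [hb1, hb2, ← hg] at hbb
    linear_combination hbb - (4 * g ^ 2) * e1
  have hg0 : 0 < g := by
    rcases lt_or_eq_of_le hb0 with h | h
    · exact h
    · exfalso; rw [← h] at hgg; norm_num at hgg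
  -- order five
  have d1 : dot b (a • V 1 - a • e3) = μ * (g * (1 - c5)) := by
    rw [hu1']
    simp only [dot, vec_0, vec_1, vec_2]
    rw [hb1, hb2, ← hg]
    linear_combination (4 * μ * g) * e1
  have hr1 : rho2 b (a • V 1 - a • e3) = 3 / 2 * (1 - c5) * μ ^ 2 := by
    rw [rho2, u_sq ha, d1]
    linear_combination (-(1 / 2) * μ ^ 2 * (1 - c5)) * hgg
  have hvis : dot (a • V 1 - a • e3) (a • V 1 - a • e3) ≤ 4 := by
    rw [u_sq ha]
    have : 2 * (1 - c5) * μ ^ 2 ≤ 1.382 * μ ^ 2 :=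
      mul_le_mul_of_nonneg_right (by linarith) (by linarith)
    linarith
  have h5 : n = 5 := by
    have h2 : 3 / 2 * (1 - c5) * μ ^ 2 ≤ 1.04 * μ ^ 2 :=
      mul_le_mul_of_nonneg_right (by linarith) (by linarith)
    have h3 : 1 * μ ^ 2 ≤ 3 / 2 * (1 - c5) * μ ^ 2 :=
      mul_le_mul_of_nonneg_right (by linarith only [hc2]) (by linarith only [hμ2])
    apply H.five hb (by linarith only [hdP]) (hV 1).mem hvis
    · rw [hr1]; linarith only [hμ2, h3]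
    · rw [hr1]; linarith only [hμ2, h2]
  subst h5
  have hss : c5 ^ 2 + (-s5) ^ 2 = 1 := by rw [neg_sq]; exact c5_sq_add
  have hz := hb.five.2.1 (a • V 1 - a • e3) hvis (by rw [add_sub_cancel]; exact (hV 1).mem)
  obtain ⟨r, hr⟩ : ∃ r, r = rot b c5 (-s5) (a • V 1 - a • e3) := ⟨_, rfl⟩
  rw [← hr] at hz
  obtain ⟨y, hy⟩ : ∃ y, y = r - (a • V 1 - a • e3) := ⟨_, rfl⟩
  have hyz : a • e3 + r - a • V 1 = y := by rw [hy]; abel
  have hyy : dot y y = 3 * (1 - c5) ^ 2 * μ ^ 2 := by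
    rw [hy, hr, dot_rot_sub b hbu _ _ hss]
    have : dot (a • V 1 - a • e3) (a • V 1 - a • e3) - dot b (a • V 1 - a • e3) ^ 2 =
        rho2 b (a • V 1 - a • e3) := rfl
    rw [this, hr1]; ring
  have hVy : dot (V 1) y = -(μ * (2 * c5 * (1 - c5) + s5 ^ 2 * g)) := by
    have h4 : 4 * c5 + 1 = 5 * i5 := by have := i5_val'; linarith only [this]
    have h6 := i5_sq
    have h7 := c5_sq_add
    have y0 : y 0 = c5 * (μ * c5) + (1 - c5) * (μ * (g * (1 - c5))) * g +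
        (-s5) * (2 * c5 * g * (μ * s5)) - μ * c5 := by
      rw [hy, hr, sub_0, rot_0, d1, hu1']
      simp only [vec_0, vec_1, vec_2]
      rw [hb1, hb2, ← hg]; ring
    have y1 : y 1 = c5 * (μ * s5) +
        (-s5) * (-(2 * c5 * g) * (μ * c5) + g * (2 * c5 * μ)) - μ * s5 := by
      rw [hy, hr, sub_1, rot_1, d1, hu1']
      simp only [vec_0, vec_1, vec_2]
      rw [hb1, hb2, ← hg]; ring
    have y2 : y 2 = -(c5 * (2 * c5 * μ)) + (1 - c5) * (μ * (g * (1 - c5))) * (-(2 * c5 * g)) +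
        (-s5) * (g * (μ * s5)) + 2 * c5 * μ := by
      rw [hy, hr, sub_2, rot_2, d1, hu1']
      simp only [vec_0, vec_1, vec_2]
      rw [hb1, hb2, ← hg]; ring
    have hV1 : V 1 = vec (2 * i5 * c5) (2 * i5 * s5) i5 := by
      apply ext3
      · rw [V_0, W_one]; rfl
      · rw [V_1, W_one]; rfl
      · rw [V_2]; rfl
    have hs : s5 ^ 2 = 1 - c5 ^ 2 := by linarith only [h7]
    have e9 : dot (V 1) y = μ * (2 * i5 * c5 * (c5 * c5 + (1 - c5) * (g * (1 - c5)) * g -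
        2 * c5 * g * s5 ^ 2 - c5) + 2 * i5 * (c5 * s5 ^ 2 - s5 ^ 2 * (2 * c5 * g * (1 - c5)) -
        s5 ^ 2) + i5 * (-(2 * c5 ^ 2) - 2 * c5 * (1 - c5) ^ 2 * g ^ 2 - s5 ^ 2 * g + 2 * c5)) := by
      rw [hV1]
      simp only [dot, vec_0, vec_1, vec_2]
      rw [y0, y1, y2]; ring
    have e10 : (2 * i5 * c5 * (c5 * c5 + (1 - c5) * (g * (1 - c5)) * g -
        2 * c5 * g * s5 ^ 2 - c5) + 2 * i5 * (c5 * s5 ^ 2 - s5 ^ 2 * (2 * c5 * g * (1 - c5)) -
        s5 ^ 2) + i5 * (-(2 * c5 ^ 2) - 2 * c5 * (1 - c5) ^ 2 * g ^ 2 - s5 ^ 2 * g + 2 * c5)) =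
        -(s5 ^ 2 * g * (i5 * (4 * c5 + 1))) - i5 * (1 - c5) * (2 * c5 ^ 2 + 2 * s5 ^ 2 - 2 * c5) := by
      ring
    rw [e9, e10, h4]
    have e11 : i5 * (5 * i5) = 1 := by linear_combination 5 * h6
    have e12 : i5 * (1 - c5) * (2 * c5 ^ 2 + 2 * s5 ^ 2 - 2 * c5) = 2 * c5 * (1 - c5) := by
      have e13 : (2 * c5 ^ 2 + 2 * s5 ^ 2 - 2 * c5) = 2 * (1 - c5) := by linarith only [hs]
      rw [e13]
      have e14 := i5_mul
      linear_combination (2 * (1 - c5)) * e14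
    rw [e11, e12]; ring
  have hrho : rho2 (V 1) y = μ ^ 2 * (3 * (1 - c5) ^ 2 - (2 * c5 * (1 - c5) + s5 ^ 2 * g) ^ 2) := by
    rw [rho2, hyy, hVy]; ring
  obtain ⟨n1, n2⟩ := pole_ii_num hg0 hgg
  have m1 := mul_le_mul_of_nonneg_left n1 hμ2.le
  have m2 := mul_le_mul_of_nonneg_left n2 hμ2.le
  have hd := dist_aV ha0 ha3 (dot_V 1)
  have hyy4 : dot y y ≤ 4 := by
    rw [hyy]
    have : (1 - c5) ^ 2 ≤ 0.48 := by nlinarith only [hc1, hc2]
    nlinarith only [this, hμu, hμ2]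
  rcases H.tube _ _ 5 (hV 1) (by linarith only [hd]) _ hz (by rw [hyz]; exact hyy4) with h | h
  · rw [hyz, hrho] at h
    linarith only [hμ2, m1, h]
  · rw [hyz, hrho] at h
    linarith only [hμ2, m2, h]

/-- B6: the pole carries the star axis. -/
theorem poleB {X : Set E3} {μ a : ℝ} (H : Tube X 0 20 μ) (hμ : μ ≤ 1.525)
    (ha : a = 5 / 2 * i5 * μ) (hP : a • e3 ∈ X) (hV : ∀ k : ℤ, Ax X (a • V k) (V k) 5) :
    Ax X (a • e3) e3 5 := by
  obtain ⟨ha0, ha2, ha3, hμl, hμu⟩ := pole_bounds H.μ_ge hμ ha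
  have hdP := dist_aV ha0 ha3 dot_e3_e3
  obtain ⟨b, n, hb⟩ := H.bad _ hP (by linarith)
  -- no vertex is matched
  have hne : ∀ k : ℤ, rho2 b (a • V k - a • e3) ≠ 0 := by
    intro k h0
    have H' : Tube ((rotFr k).pull X) 0 20 μ := by
      apply H.frame (rotFr k)
      rw [(sym_rot k).o, dist_self]; norm_num
    have hV' : ∀ j : ℤ, Ax ((rotFr k).pull X) (a • V j) (V j) 5 := by
      intro j
      apply Fr.ax_pull
      rw [(sym_rot k).map, Fr.lin_smul, rotFr_V]; exact hV _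
    have hb' : Ax ((rotFr k).pull X) (a • e3) ((rotFr k).co b) n := by
      apply Fr.ax_pull
      rw [(sym_rot k).map, Fr.lin_smul, rotFr_e3, Fr.lin_co]; exact hb
    have h0' : rho2 ((rotFr k).co b) (a • V 0 - a • e3) = 0 := by
      rw [← Fr.rho2_lin (rotFr k), Fr.lin_co, Fr.lin_sub, Fr.lin_smul, Fr.lin_smul, rotFr_V,
        rotFr_e3, add_zero]
      exact h0
    rcases le_total 0 (((rotFr k).co b) 0) with h | h
    · exact pole_ii H' hμ ha hV' hb' h h0'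
    · refine pole_ii H' hμ ha hV' hb'.neg ?_ (by rw [rho2_neg_axis]; exact h0')
      rw [neg_0]; linarith
  rcases le_total 0 (b 2) with h | h
  · obtain ⟨h5, h6⟩ := pole_i H hμ ha hV hb h hne
    rw [h5, h6] at hb; exact hb
  · obtain ⟨h5, h6⟩ := pole_i H hμ ha hV hb.neg (by rw [neg_2]; linarith) (by
      intro k; rw [rho2_neg_axis]; exact hne k)
    have := hb.neg
    rw [h5, h6] at this; exact this

end

end Pool.Agent.Lib.MP_c5a075_co
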