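import Pool.Agent.Lib.MP_c5a075_co.RegB0

/-! Regime B: the ring hypotheses for every pair at distance `μ`. -/

set_option autoImplicit false

namespace Pool.Agent.Lib.MP_c5a075_co

noncomputable section

open Real

/-- The frame of a pair at distance exactly `μ`. -/
lemma frameB {X : Set E3} {μ : ℝ} {c : E3} (H : Tube X c 60 μ) {x a w : E3} {n : ℕ}
    (hx : Ax X x a n) (hd : dist x c ≤ 14) (hw : w ∈ X) (hvis : dot (w - x) (w - x) ≤ 4)
    (hr : rho2 a (w - x) = μ ^ 2) :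
    ∃ (F : Fr) (h : ℝ), 0 ≤ h ∧ μ ^ 2 + h ^ 2 ≤ 4 ∧ h ^ 2 = dot a (w - x) ^ 2 ∧
      dist F.o x ≤ 2 ∧ Tube (F.pull X) 0 20 μ ∧
      Ax (F.pull X) (vec 0 0 (-h)) (vec 0 0 1) 5 ∧ μ • W 0 ∈ F.pull X := by
  have hμ1 := H.μ_ge
  have hμ0 : 0 < μ := by linarith
  have hμ2 : 0 < μ ^ 2 := by positivity
  have hn : n = 5 := by
    apply H.five hx (by linarith) hw hvis
    · rw [hr]; exact hμ2.ne'
    · rw [hr]; linarith
  subst hn
  have hne : rho2 a (w - x) ≠ 0 := by rw [hr]; exact hμ2.ne'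
  obtain ⟨F, μ', h, a1, a2, a3, a4, a5, a6, a7, a8⟩ := pair_frame x a w hx.unit hne
  have hμμ : μ' = μ := by
    rw [hr] at a2
    exact (pow_left_inj₀ a1.le hμ0.le (two_ne_zero)).1 a2
  rw [hμμ] at a7
  have hsum : μ ^ 2 + h ^ 2 ≤ 4 := by rw [← hr, a4, rho2]; linarith
  have hox : dist F.o x ≤ 2 := by
    rw [a8, dist_add_smul x a hx.unit]
    apply abs_le_of_sq_le_sq _ (by norm_num)
    rw [← a4]; linarith
  refine ⟨F, h, a3, hsum, a4, hox, ?_, ?_, ?_⟩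
  · apply H.frame F
    have := dist_triangle F.o x c
    linarith
  · apply F.ax_pull
    rw [a5]
    rcases a6 with h | h
    · rw [h]; exact hx
    · rw [h]; exact hx.neg
  · rw [Fr.mem_pull, W_zero, a7]; exact hw

/-- The replacement pair: distance exactly `μ`, base height `μ / 2`. -/
lemma repl_pair {μ : ℝ} (hμ : 0 < μ) {k : ℤ} {b : E3} (hb : dot b b = 1)
    (h0 : rho2 b (μ • W k - vec 0 0 (μ / 2)) = 0) :
    dot (μ • W (k + 1) - vec 0 0 (μ / 2)) (μ • W (k + 1) - vec 0 0 (μ / 2)) = 5 / 4 * μ ^ 2 ∧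
    dot b (μ • W (k + 1) - vec 0 0 (μ / 2)) ^ 2 = μ ^ 2 / 4 := by
  have hyy : dot (vec 0 0 (μ / 2)) (vec 0 0 (μ / 2)) = μ ^ 2 / 4 := by simp [dot]; ring
  have hWy : ∀ j : ℤ, dot (μ • W j) (vec 0 0 (μ / 2)) = 0 := by
    intro j; simp [dot, W]
  have hd : ∀ j : ℤ, dot (μ • W j - vec 0 0 (μ / 2)) (μ • W j - vec 0 0 (μ / 2)) =
      5 / 4 * μ ^ 2 := by
    intro j
    rw [dot_sub_self, hWy, hyy, dot_smul_left, dot_smul_right, dot_W]; ring
  refine ⟨hd _, ?_⟩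
  have h1 := (rho2_eq_zero hb).1 h0
  obtain ⟨N, hN⟩ : ∃ N, N = dot b (μ • W k - vec 0 0 (μ / 2)) := ⟨_, rfl⟩
  rw [← hN] at h1
  have hN2 : N ^ 2 = 5 / 4 * μ ^ 2 := by
    have := hd k
    rw [h1, dot_smul_left, dot_smul_right, hb] at this
    linarith
  have h2 : N * dot b (μ • W (k + 1) - vec 0 0 (μ / 2)) = (c5 + 1 / 4) * μ ^ 2 := by
    rw [← dot_smul_left, ← h1]
    simp only [dot_sub_left]
    rw [dot_sub_right, dot_sub_right, hWy, hyy, dot_comm (vec 0 0 (μ / 2)) (μ • W (k + 1)), hWy,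
      dot_smul_left, dot_smul_right, dot_W_succ]
    ring
  have h3 : N ^ 2 * dot b (μ • W (k + 1) - vec 0 0 (μ / 2)) ^ 2 = N ^ 2 * (μ ^ 2 / 4) := by
    have h4 : N ^ 2 * dot b (μ • W (k + 1) - vec 0 0 (μ / 2)) ^ 2 =
      (N * dot b (μ • W (k + 1) - vec 0 0 (μ / 2))) ^ 2 := by ring
    rw [h4, h2, hN2]
    have := c5_sq
    linear_combination μ ^ 4 * this
  exact mul_left_cancel₀ (by rw [hN2]; positivity) h3

/-- B1: the ring hypotheses hold in some frame. -/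
theorem ringB {X : Set E3} {μ : ℝ} {c : E3} (H : Tube X c 60 μ) (hμ : μ ≤ 1.7) {x a w : E3}
    {n : ℕ} (hx : Ax X x a n) (hd : dist x c ≤ 10) (hw : w ∈ X)
    (hvis : dot (w - x) (w - x) ≤ 4) (hr : rho2 a (w - x) = μ ^ 2) :
    ∃ (F : Fr) (h H' : ℝ), 0 ≤ h ∧ μ ^ 2 + h ^ 2 ≤ 4 ∧ dist F.o c ≤ 20 ∧
      Tube (F.pull X) 0 20 μ ∧
      Ax (F.pull X) (vec 0 0 (-h)) (vec 0 0 1) 5 ∧ RingHyp (F.pull X) μ 0 (1 / 5000) H' := by
  have hμ1 := H.μ_ge
  have hμ0 : 0 < μ := by linarith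
  obtain ⟨F, h, h0, hsum, -, hox, hT, hax, hwF⟩ := frameB H hx (by linarith) hw hvis hr
  rcases ringB0 hT hμ h0 hsum hax hwF with ⟨H', h1⟩ | ⟨-, k, b, hb, hk⟩
  · refine ⟨F, h, H', h0, hsum, ?_, hT, hax, h1⟩
    have := dist_triangle F.o x c
    linarith
  · obtain ⟨p1, p2⟩ := repl_pair hμ0 hb.unit hk
    have hring := ring_of hax (by rw [← W_zero]; exact hwF) hsum
    have hy := F.ax_push hb
    have hw' : F.map (μ • W (k + 1)) ∈ X := hring (k + 1)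
    have e1 : F.map (μ • W (k + 1)) - F.map (vec 0 0 (μ / 2)) =
        F.lin (μ • W (k + 1) - vec 0 0 (μ / 2)) := F.map_sub _ _
    have hμ4 : μ ^ 2 ≤ 2.89 := by nlinarith only [hμ, hμ1]
    have hyo : dist (F.map (vec 0 0 (μ / 2))) F.o ≤ 2 := by
      have e2 : F.map 0 = F.o := by rw [Fr.map, Fr.lin_zero, add_zero]
      rw [← e2, F.dist_map]
      exact dist_vz (by linarith)
    have hyc : dist (F.map (vec 0 0 (μ / 2))) c ≤ 14 := by
      have h3 := dist_triangle (F.map (vec 0 0 (μ / 2))) F.o c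
      have h4 := dist_triangle F.o x c
      linarith
    obtain ⟨F', h', h0', hsum', hh', hox', hT', hax', hwF'⟩ := frameB H hy hyc hw'
      (by rw [e1, F.dot_lin, p1]; linarith)
      (by rw [e1, F.rho2_lin, rho2, p1, p2]; ring)
    rw [e1, F.dot_lin, p2] at hh'
    have hh2 : h' = μ / 2 := by
      apply (pow_left_inj₀ h0' (by positivity) (two_ne_zero)).1
      rw [hh']; ring
    rcases ringB0 hT' hμ h0' hsum' hax' hwF' with ⟨H', h1⟩ | ⟨h1, -⟩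
    · refine ⟨F', h', H', h0', hsum', ?_, hT', hax', h1⟩
      have := dist_triangle F'.o (F.map (vec 0 0 (μ / 2))) c
      linarith
    · exfalso
      rw [hh2] at h1
      linarith

end

end Pool.Agent.Lib.MP_c5a075_co
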