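import Pool.Agent.Lib.MP_c5a075_co.High
import Pool.Agent.Lib.MP_c5a075_co.RegB1
import Pool.Agent.Lib.MP_c5a075_co.MatchC
import Pool.Agent.Lib.MP_c5a075_co.CentreC
import Pool.Agent.Lib.MP_c5a075_co.AxisO
import Pool.Agent.Lib.MP_c5a075_co.PoleB
import Pool.Agent.Lib.MP_c5a075_co.NodeA

/-! Regime B: the node. -/

set_option autoImplicit false

namespace Pool.Agent.Lib.MP_c5a075_co

noncomputable section

open Real

/-! ### The node frame -/

/-- Translation frame. -/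
def shFr (o : E3) : Fr where
  o := o
  f1 := vec 1 0 0
  f2 := vec 0 1 0
  f3 := vec 0 0 1
  σ := 1
  h11 := by simp [dot]
  h22 := by simp [dot]
  h33 := by simp [dot]
  h12 := by simp [dot]
  h13 := by simp [dot]
  h23 := by simp [dot]
  hσ := Or.inl rfl
  hc := by apply ext3 <;> simp

lemma shFr_lin (o v : E3) : (shFr o).lin v = v := by
  apply ext3 <;> simp [Fr.lin, shFr]

lemma shFr_map (o v : E3) : (shFr o).map v = o + v := by
  rw [Fr.map, shFr_lin]; rfl

/-! ### Identities -/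

lemma i5_val : 5 / 2 * i5 = 2 * c5 + 1 / 2 := by
  have h1 := i5_sq
  have h2 := c5_sq
  have h3 := i5_pos
  have h4 := c5_pos
  apply (pow_left_inj₀ (n := 2) (by positivity) (by positivity) (two_ne_zero)).1
  have e1 : (5 / 2 * i5) ^ 2 = 25 / 4 * i5 ^ 2 := by ring
  have e2 : (2 * c5 + 1 / 2) ^ 2 = 4 * c5 ^ 2 + 2 * c5 + 1 / 4 := by ring
  rw [e1, e2, h1, h2]; ring

lemma a_V {μ a : ℝ} (ha : a = 5 / 2 * i5 * μ) (k : ℤ) :
    a • V k = vec 0 0 (μ / 2) + μ • W k := by
  have h1 := i5_sq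
  rw [ha]
  apply ext3
  · simp only [smul_0, V_0, add_0, vec_0]; linear_combination (5 * μ * (W k 0)) * h1
  · simp only [smul_1, V_1, add_1, vec_1]; linear_combination (5 * μ * (W k 1)) * h1
  · simp only [smul_2, V_2, add_2, vec_2, W_2]; linear_combination (5 / 2 * μ) * h1

lemma a_e3 {μ a : ℝ} (ha : a = 5 / 2 * i5 * μ) :
    a • e3 = vec 0 0 (μ / 2) + vec 0 0 (2 * c5 * μ) := by
  rw [ha, i5_val]
  apply ext3
  · simp
  · simp
  · simp only [smul_2, e3_2, add_2, vec_2]; ring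

/-- The ring of a pair, in its frame, from any of its points. -/
lemma ring_of_any {X : Set E3} {μ h : ℝ} (hx : Ax X (vec 0 0 (-h)) (vec 0 0 1) 5) {j : ℤ}
    (hw : μ • W j ∈ X) (hvis : μ ^ 2 + h ^ 2 ≤ 4) (k : ℤ) : μ • W k ∈ X := by
  have hx' : Ax ((rotFr j).pull X) (vec 0 0 (-h)) (vec 0 0 1) 5 := by
    apply Fr.ax_pull
    have e1 : (rotFr j).map (vec 0 0 (-h)) = vec 0 0 (-h) := by
      rw [rotFr_map, rotFr_lin]; apply ext3 <;> simp
    have e2 : (rotFr j).lin (vec 0 0 1) = vec 0 0 1 := rotFr_e3 j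
    rw [e1, e2]; exact hx
  have hw' : μ • vec 1 0 0 ∈ (rotFr j).pull X := by
    rw [Fr.mem_pull, rotFr_map, ← W_zero, Fr.lin_smul, rotFr_W, add_zero]; exact hw
  have h1 := ring_of hx' hw' hvis (k - j)
  rw [Fr.mem_pull, rotFr_map, Fr.lin_smul, rotFr_W] at h1
  have e : j + (k - j) = k := by ring
  rwa [e] at h1

/-! ### B5 -/

theorem stepO {X : Set E3} {μ a : ℝ} (H : Tube X 0 40 μ) (hμ : μ ≤ 1.525)
    (ha : a = 5 / 2 * i5 * μ) (h0 : Ax X 0 e3 5) {j : ℤ} (hj : a • V j ∈ X) :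
    a • e3 ∈ X ∧ ∀ k : ℤ, Ax X (a • V k) (V k) 5 := by
  have hμ1 := H.μ_ge
  have hμ0 : 0 < μ := by linarith
  have hμ4 : μ ^ 2 ≤ 2.89 := by nlinarith only [hμ, hμ1]
  have hsum : μ ^ 2 + (μ / 2) ^ 2 ≤ 4 := by nlinarith only [hμ, hμ1]
  obtain ⟨F, hF⟩ : ∃ F, F = shFr (vec 0 0 (μ / 2)) := ⟨_, rfl⟩
  have hFmap : ∀ v, F.map v = vec 0 0 (μ / 2) + v := by intro v; rw [hF]; exact shFr_map _ _
  have hFlin : ∀ v, F.lin v = v := by intro v; rw [hF]; exact shFr_lin _ _
  have hFo : F.o = vec 0 0 (μ / 2) := by rw [hF]; rfl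
  have hT : Tube (F.pull X) 0 20 μ := by
    apply H.frame F
    rw [hFo]
    have := dist_vz (t := μ / 2) (by linarith [sq_nonneg μ])
    linarith
  have hx : Ax (F.pull X) (vec 0 0 (-(μ / 2))) (vec 0 0 1) 5 := by
    apply F.ax_pull
    rw [hFmap, hFlin]
    have : vec 0 0 (μ / 2) + vec 0 0 (-(μ / 2)) = 0 := by apply ext3 <;> simp
    rw [this]; exact h0
  have hwj : μ • W j ∈ F.pull X := by rw [Fr.mem_pull, hFmap, ← a_V ha]; exact hj
  have hring := ring_of_any hx hwj hsum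
  obtain ⟨H', hR⟩ : ∃ H', RingHyp (F.pull X) μ 0 (1 / 5000) H' := by
    rcases ringB0 hT (by linarith) (by positivity) hsum hx (hring 0) with h | ⟨h, -⟩
    · exact h
    · exfalso; linarith
  obtain ⟨-, σ, hσ, hap, hst⟩ := ring_core hR (by
    rcases le_total μ 1.52 with h | h
    · exact Or.inl h
    · right
      intro k b n hb
      exact matchedB' hT (by linarith) (by linarith) (by positivity) hsum hx hb)
  have hσ1 : σ = 1 := by
    rcases hσ with h | h
    · exact h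
    · exfalso
      obtain ⟨b, n, hb⟩ := hT.bad _ (hring 0) (by have := dist_sW (μ := μ) (by linarith) 0; linarith)
      obtain ⟨-, hbs⟩ := hst 0 b n hb
      have hr : rho2 b (vec 0 0 (-(μ / 2)) - μ • W 0) = 4 / 5 * μ ^ 2 := by
        have hs : starDir 0 σ = vec (-2 * i5) 0 i5 := by
          rw [starDir, h, rotFr_lin]; apply ext3 <;> simp
        have hr1 : rho2 (starDir 0 σ) (vec 0 0 (-(μ / 2)) - μ • W 0) = 4 / 5 * μ ^ 2 := by
          rw [hs, W_zero]
          have := i5_sq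
          simp only [rho2, dot, sub_0, sub_1, sub_2, smul_0, smul_1, smul_2, vec_0, vec_1, vec_2]
          linear_combination (-9 / 4 * μ ^ 2) * this
        rcases hbs with h1 | h1
        · rw [h1, hr1]
        · rw [h1, rho2_neg_axis, hr1]
      have hd : dot (vec 0 0 (-(μ / 2)) - μ • W 0) (vec 0 0 (-(μ / 2)) - μ • W 0) ≤ 4 := by
        rw [W_zero]
        simp only [dot, sub_0, sub_1, sub_2, smul_0, smul_1, smul_2, vec_0, vec_1, vec_2]
        linarith
      have hd0 := dist_sW (μ := μ) (by linarith) 0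
      rcases hT.tube _ b n hb (by linarith) _ hx.mem hd with h1 | h1
      · rw [hr] at h1
        have : 0 < μ ^ 2 := by positivity
        linarith
      · rw [hr] at h1
        have : 0 < μ ^ 2 := by positivity
        linarith
  rw [hσ1] at hap hst
  refine ⟨?_, ?_⟩
  · rw [Fr.mem_pull, hFmap, one_mul, ← a_e3 ha] at hap
    exact hap
  · intro k
    obtain ⟨b, n, hb⟩ := hT.bad _ (hring k) (by have := dist_sW (μ := μ) (by linarith) k; linarith)
    obtain ⟨hn, hbs⟩ := hst k b n hb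
    subst hn
    rw [starDir_one] at hbs
    have hb' : Ax (F.pull X) (μ • W k) (V k) 5 := by
      rcases hbs with h1 | h1
      · rw [← h1]; exact hb
      · have := hb.neg
        rw [h1, neg_neg] at this; exact this
    have := F.ax_push hb'
    rw [hFmap, hFlin, ← a_V ha] at this
    exact this

/-! ### B7 -/

/-- The node frame over the frame of the ring. -/
def ndFr (t σ : ℝ) (hσ : σ = 1 ∨ σ = -1) : Fr where
  o := vec 0 0 t
  f1 := vec 1 0 0
  f2 := vec 0 1 0
  f3 := vec 0 0 σ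
  σ := σ
  h11 := by simp [dot]
  h22 := by simp [dot]
  h33 := by rcases hσ with h | h <;> rw [h] <;> simp [dot]
  h12 := by simp [dot]
  h13 := by simp [dot]
  h23 := by simp [dot]
  hσ := hσ
  hc := by rcases hσ with h | h <;> rw [h] <;> apply ext3 <;> simp

lemma ndFr_lin (t σ : ℝ) (hσ : σ = 1 ∨ σ = -1) (v : E3) :
    (ndFr t σ hσ).lin v = vec (v 0) (v 1) (σ * v 2) := by
  apply ext3 <;> simp [Fr.lin, ndFr]; ring

lemma ndFr_map (t σ : ℝ) (hσ : σ = 1 ∨ σ = -1) (v : E3) :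
    (ndFr t σ hσ).map v = vec (v 0) (v 1) (t + σ * v 2) := by
  rw [Fr.map, ndFr_lin]
  apply ext3 <;> simp [ndFr]

lemma V_of_height {v : E3} (hv : v ∈ Dr) (h : v 2 = i5) : ∃ k : ℤ, v = V k := by
  have h5 := i5_pos
  have h6 := i5_sq
  rcases hv with rfl | rfl | ⟨k, rfl | rfl⟩
  · exfalso
    simp only [e3_2] at h
    rw [← h] at h6; norm_num at h6
  · exfalso
    simp only [neg_2, e3_2] at h
    linarith
  · exact ⟨k, rfl⟩
  · exfalso
    simp only [neg_2, V_2] at h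
    linarith

/-- The twelve axes, given the axis at the centre. -/
lemma starB {X : Set E3} {μ a : ℝ} (H : Tube X 0 40 μ) (hμ : μ ≤ 1.525)
    (ha : a = 5 / 2 * i5 * μ) (h0 : Ax X 0 e3 5) {j : ℤ} (hj : a • V j ∈ X) : StarAx X a := by
  have hμ1 := H.μ_ge
  have hμ0 : 0 < μ := by linarith
  have ha0 : 0 < a := by rw [ha]; have := i5_pos; positivity
  have ha2 : a ≤ 1.72 := by
    rw [ha, i5_val]
    have := c5_lt
    nlinarith
  have H20 : Tube X 0 20 μ := H.mono (by norm_num)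
  obtain ⟨hP, hV⟩ := stepO H hμ ha h0 hj
  have hN := poleB H20 hμ ha hP hV
  -- the central inversion
  have hnm : ∀ v, negFr.map v = -v := by intro v; rw [sym_neg.map, negFr_lin]
  have H' : Tube (negFr.pull X) 0 40 μ := by
    apply H.frame negFr
    rw [sym_neg.o, dist_self]; norm_num
  have h0' : Ax (negFr.pull X) 0 e3 5 := by
    apply Fr.ax_pull
    rw [hnm, negFr_lin, neg_zero]; exact h0.neg
  have hdot : dot (V 0) (V (-1)) = i5 := by
    have h1 : dot (V 0) e3 = i5 := by rw [dot_e3, V_2]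
    have := dot_axis_rot (V 0) (dot_V 0) c5 s5 e3
    rw [rot_V0_e3, h1] at this
    exact this
  have hlow : a • V 2 ∈ negFr.pull X := by
    rw [Fr.mem_pull, hnm, ← smul_neg, ← rot_V0_V]
    exact trans_move ha0 ha2 ha0.le (by linarith) (dot_V 0) (dot_V (-1)) hdot (hV 0).five.1
      (hV (-1)).mem
  obtain ⟨hP', hV'⟩ := stepO H' hμ ha h0' hlow
  have hN' := poleB (H'.mono (by norm_num)) hμ ha hP' hV'
  intro v hv
  rcases hv with rfl | rfl | ⟨k, rfl | rfl⟩
  · exact hN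
  · have := negFr.ax_push hN'
    rw [hnm, negFr_lin, ← smul_neg] at this
    exact this
  · exact hV k
  · have := negFr.ax_push (hV' k)
    rw [hnm, negFr_lin, ← smul_neg] at this
    exact this

theorem nodeB {X : Set E3} {μ : ℝ} {c : E3} (H : Tube X c 100 μ) {x a w : E3} {n : ℕ}
    (hx : Ax X x a n) (hd : dist x c ≤ 1) (hw : w ∈ X) (hvis : dot (w - x) (w - x) ≤ 4)
    (hr : rho2 a (w - x) = μ ^ 2) :
    μ ≤ 1.525 ∧ ∃ F : Fr, dist F.o c ≤ 30 ∧ StarAx (F.pull X) (5 / 2 * i5 * μ) := by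
  have H60 : Tube X c 60 μ := H.mono (by norm_num)
  have hμ1 := H.μ_ge
  have hμ0 : 0 < μ := by linarith
  have hμ17 : μ ≤ 1.7 := by
    by_contra hcon
    push Not at hcon
    obtain ⟨F, h, h0, hsum, -, -, hT, hax, hwF⟩ := frameB H60 hx (by linarith) hw hvis hr
    have hring := ring_of hax (by rw [← W_zero]; exact hwF) hsum
    exact high hT hcon.le hsum hax (hring 0) (hring 1)
  obtain ⟨F, h, H', h0, hsum, hFo, hT, hax, hR⟩ := ringB H60 hμ17 hx (by linarith) hw hvis hr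
  obtain ⟨-, σ, hσ, hap, hst⟩ := ring_core hR (by
    rcases le_total μ 1.52 with h1 | h1
    · exact Or.inl h1
    · right
      intro k b n hb
      exact matchedB' hT (by linarith) hμ17 h0 hsum hax hb)
  have hstar : ∀ k : ℤ, Ax (F.pull X) (μ • W k) (starDir k σ) 5 := by
    intro k
    obtain ⟨b, n, hb⟩ := hR.flag k
    obtain ⟨hn, hbs⟩ := hst k b n hb
    subst hn
    rcases hbs with h1 | h1
    · rw [← h1]; exact hb
    · have := hb.neg
      rw [h1, neg_neg] at this; exact this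
  obtain ⟨hμ', hO⟩ := centreB' hT hμ17 h0 hsum hax hσ hstar
  refine ⟨hμ', ?_⟩
  obtain ⟨A, hA⟩ : ∃ A, A = 5 / 2 * i5 * μ := ⟨_, rfl⟩
  rw [← hA]
  have hσσ : σ * σ = 1 := by rcases hσ with h1 | h1 <;> rw [h1] <;> norm_num
  obtain ⟨G, hG⟩ : ∃ G, G = ndFr (-(σ * μ / 2)) σ hσ := ⟨_, rfl⟩
  have hGl : ∀ v, G.lin v = vec (v 0) (v 1) (σ * v 2) := by intro v; rw [hG]; exact ndFr_lin _ _ _ _
  have hGm : ∀ v, G.map v = vec (v 0) (v 1) (-(σ * μ / 2) + σ * v 2) := by
    intro v; rw [hG]; exact ndFr_map _ _ _ _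
  have hGo : G.o = vec 0 0 (-(σ * μ / 2)) := by rw [hG]; rfl
  have hGV : ∀ k : ℤ, Ax (G.pull (F.pull X)) (A • V k) (V k) 5 := by
    intro k
    apply Fr.ax_pull
    have e1 : G.map (A • V k) = μ • W k := by
      rw [hGm, a_V hA]
      apply ext3
      · simp
      · simp
      · simp only [vec_2, add_2, smul_2, W_2]; ring
    have e2 : starDir k σ = σ • G.lin (V k) := by
      have e3' : vec (2 * σ * i5) 0 i5 = (2 * σ * i5) • W 0 + i5 • e3 := by
        rw [W_zero]; apply ext3 <;> simp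
      rw [starDir, e3', Fr.lin_add, Fr.lin_smul, Fr.lin_smul, rotFr_W, rotFr_e3, add_zero, hGl]
      apply ext3
      · simp only [add_0, smul_0, e3_0, vec_0, V_0]; ring
      · simp only [add_1, smul_1, e3_1, vec_1, V_1]; ring
      · simp only [add_2, smul_2, e3_2, vec_2, V_2, W_2]; linear_combination (-i5) * hσσ
    rw [e1]
    have h1 := hstar k
    rcases hσ with h2 | h2
    · rw [h2, one_smul] at e2; rw [← e2, ← h2]; exact h1
    · rw [h2] at e2
      rw [h2] at h1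
      have h3 := h1.neg
      rw [e2] at h3
      rw [neg_smul, one_smul, neg_neg] at h3
      exact h3
  have hGe : A • e3 ∈ G.pull (F.pull X) := by
    rw [Fr.mem_pull, hGm]
    have : vec ((A • e3) 0) ((A • e3) 1) (-(σ * μ / 2) + σ * (A • e3) 2) =
        vec 0 0 (σ * (2 * c5) * μ) := by
      rw [a_e3 hA]
      apply ext3
      · simp
      · simp
      · simp only [vec_2, add_2]; ring
    rw [this]; exact hap
  have hG0 : (0 : E3) ∈ G.pull (F.pull X) := by
    rw [Fr.mem_pull, hGm]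
    have : vec ((0 : E3) 0) ((0 : E3) 1) (-(σ * μ / 2) + σ * (0 : E3) 2) =
        vec 0 0 (-(σ * μ / 2)) := by apply ext3 <;> simp
    rw [this]; exact hO
  have hGd : dist (F.comp G).o c ≤ 22 := by
    have e1 : (F.comp G).o = F.map (vec 0 0 (-(σ * μ / 2))) := by
      show F.map G.o = _
      rw [hGo]
    have e2 : F.map 0 = F.o := by rw [Fr.map, Fr.lin_zero, add_zero]
    have e3' : dist (F.map (vec 0 0 (-(σ * μ / 2)))) F.o ≤ 2 := by
      rw [← e2, F.dist_map]
      apply dist_vz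
      have : (-(σ * μ / 2)) ^ 2 = σ * σ * (μ ^ 2 / 4) := by ring
      rw [this, hσσ]
      nlinarith only [hμ17, hμ1]
    rw [e1]
    have := dist_triangle (F.map (vec 0 0 (-(σ * μ / 2)))) F.o c
    linarith
  rw [← Fr.comp_pull] at hGV hGe hG0
  obtain ⟨F2, hF2⟩ : ∃ F2, F2 = F.comp G := ⟨_, rfl⟩
  rw [← hF2] at hGV hGe hG0 hGd
  have hT2 : Tube (F2.pull X) 0 40 μ := H.frame F2 (by linarith)
  obtain ⟨u, hu, hu5⟩ := axisO (hT2.mono (by norm_num)) hμ17 hA hG0 hGe (fun k => (hGV k).mem)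
  have huD : u ∈ Dr := by
    rcases hu with h1 | ⟨k, h1⟩
    · rw [h1]; exact e3_mem
    · rw [h1]; exact V_mem k
  -- a neighbour of `u` among the known points
  obtain ⟨v, hvD, hvu, hvX⟩ : ∃ v ∈ Dr, dot v u = i5 ∧ A • v ∈ F2.pull X := by
    rcases hu with h1 | ⟨k, h1⟩
    · exact ⟨V 0, V_mem 0, by rw [h1, dot_e3, V_2], (hGV 0).mem⟩
    · exact ⟨e3, e3_mem, by rw [h1, e3_dot, V_2], hGe⟩
  obtain ⟨S, hS, hSe⟩ := exists_sym huD
  obtain ⟨j, hj⟩ : ∃ j : ℤ, S.co v = V j := by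
    apply V_of_height (hS.comaps v hvD)
    have : dot (S.lin (S.co v)) (S.lin e3) = dot (S.co v) e3 := S.dot_lin _ _
    rw [S.lin_co, hSe, hvu, dot_e3] at this
    exact this.symm
  have hSj : A • V j ∈ S.pull (F2.pull X) := by
    rw [Fr.mem_pull, hS.map, S.lin_smul, ← hj, S.lin_co]; exact hvX
  have hS0 : Ax (S.pull (F2.pull X)) 0 e3 5 := by
    apply Fr.ax_pull
    rw [hS.map, Fr.lin_zero, hSe]; exact hu5
  have hT3 : Tube (S.pull (F2.pull X)) 0 40 μ := by
    apply hT2.frame S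
    rw [hS.o, dist_self]; norm_num
  have hfin := starB hT3 hμ' hA hS0 hSj
  rw [← Fr.comp_pull] at hfin
  refine ⟨F2.comp S, ?_, hfin⟩
  have e1 : (F2.comp S).o = F2.o := by
    show F2.map S.o = _
    rw [hS.o, Fr.map, Fr.lin_zero, add_zero]
  rw [e1]; linarith

end

end Pool.Agent.Lib.MP_c5a075_co
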