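import Pool.Agent.Lib.MP_c5a075_co.Tube
import Pool.Agent.Lib.MP_c5a075_co.OffNum

/-! Regime B: points off the star are far from the centre. -/

set_option autoImplicit false

namespace Pool.Agent.Lib.MP_c5a075_co

noncomputable section

open Real

lemma offB {X : Set E3} {μ a : ℝ} (H : Tube X 0 20 μ) (hμ1 : μ ≤ 1.525)
    (ha : a = 5 / 2 * i5 * μ) (hS : StarAx X a) {x : E3}
    (hx : x ∈ X) (hoff : x ∉ Sig) : (4 / 3 * a) ^ 2 ≤ dot x x := by
  by_contra hcon
  push Not at hcon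
  have hμ0 := H.μ_ge
  have hμ : 0 < μ := by linarith
  obtain ⟨v, hv, hvm⟩ := exists_near x
  obtain ⟨F, hF, hFv⟩ := exists_sym hv
  obtain ⟨y, hy⟩ : ∃ y, y = F.co x := ⟨_, rfl⟩
  have hFy : F.lin y = x := by rw [hy, F.lin_co]
  have hyy : dot y y = dot x x := by rw [← hFy, F.dot_lin]
  have hnear : ∀ u ∈ Dr, dot y u ≤ y 2 := by
    intro u hu
    have h1 := hvm (F.lin u) (hF.maps u hu)
    rw [← hFy, F.dot_lin, ← hFv, F.dot_lin, dot_e3] at h1
    exact h1
  obtain ⟨hk1, hk2⟩ := near_kap hnear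
  have hy2 : y 2 ^ 2 ≤ dot y y := by
    have h1 := sq_nonneg (y 0)
    have h2 := sq_nonneg (y 1)
    simp only [dot]; linarith
  rw [← hyy] at hcon
  obtain ⟨n1, n2, n3, n4, n5⟩ := off_num hμ ha hcon hk1 hy2
  -- the base
  have hb : Ax (F.pull X) (a • e3) e3 5 := by
    apply Fr.ax_pull
    rw [hF.map, Fr.lin_smul, hFv]
    exact hS v hv
  have hC : Tube (F.pull X) 0 20 μ := by
    refine (H.pull F).recenter ?_
    have e : dist (0:E3) (F.inv 0) = 0 := by
      rw [← F.dist_map, Fr.map_inv, hF.map, Fr.lin_zero, dist_self]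
    linarith
  have hyX : y ∈ F.pull X := by rw [Fr.mem_pull, hF.map, hFy]; exact hx
  have hr : rho2 e3 (y - a • e3) = dot y y - y 2 ^ 2 := by
    simp only [rho2, dot, sub_0, sub_1, sub_2, smul_0, smul_1, smul_2, e3_0, e3_1, e3_2]; ring
  have hd : dot (y - a • e3) (y - a • e3) = dot y y - 2 * a * y 2 + a ^ 2 := by
    simp only [dot, sub_0, sub_1, sub_2, smul_0, smul_1, smul_2, e3_0, e3_1, e3_2]; ring
  have hμ2' : 0 < μ ^ 2 := by positivity
  have hμ3 : μ ^ 2 ≤ 1.525 ^ 2 := pow_le_pow_left₀ hμ.le hμ1 2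
  have ha2 : a ^ 2 ≤ (1.1181 * μ) ^ 2 := pow_le_pow_left₀ (by linarith) n3 2
  have hvis : dot (y - a • e3) (y - a • e3) ≤ 4 := by
    rw [hd]
    have h1 : y 2 * (1.584 * y 2 - 2 * a) ≤ y 2 * (0.1256 * μ) :=
      mul_le_mul_of_nonneg_left (by linarith only [n2, n3, n4]) hk2
    have h2 : y 2 * (0.1256 * μ) ≤ 1.4908 * μ * (0.1256 * μ) :=
      mul_le_mul_of_nonneg_right n2 (by positivity)
    rw [mul_pow] at ha2
    norm_num at ha2 hμ3 h1 h2 ⊢
    linarith
  have hda : dist (a • e3) 0 ≤ 20 := by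
    rw [dist_le_iff _ _ (by norm_num), sub_zero, dot_smul_left, dot_smul_right, dot_e3_e3]
    rw [mul_pow] at ha2
    norm_num at ha2 hμ3 ⊢
    linarith only [ha2, hμ3]
  have h0 : rho2 e3 (y - a • e3) = 0 := by
    rcases hC.tube _ _ _ hb hda y hyX hvis with h | h
    · exact h
    · rw [hr] at h
      linarith only [n1, hμ2', h]
  rw [hr] at h0
  apply hoff
  have h6 : y 0 ^ 2 + y 1 ^ 2 = 0 := by
    have : dot y y = y 0 ^ 2 + y 1 ^ 2 + y 2 ^ 2 := by simp only [dot]; ring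
    linarith only [h0, this]
  have g0 := sq_nonneg (y 0)
  have g1 := sq_nonneg (y 1)
  have h7 : y 0 = 0 := pow_eq_zero_iff (two_ne_zero) |>.1 (by linarith only [h6, g0, g1])
  have h8 : y 1 = 0 := pow_eq_zero_iff (two_ne_zero) |>.1 (by linarith only [h6, g0, g1])
  have h9 : y = y 2 • e3 := by
    apply ext3
    · rw [h7]; simp
    · rw [h8]; simp
    · simp
  rw [← hFy, hF.Sig_iff, h9]
  exact smul_mem_Sig e3_mem _

end

end Pool.Agent.Lib.MP_c5a075_co
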