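import Pool.Agent.Lib.MP_c5a075_co.TubeX
import Pool.Agent.Lib.MP_c5a075_co.Star

/-! Regime B: the axis at the pole. -/

set_option autoImplicit false

namespace Pool.Agent.Lib.MP_c5a075_co

noncomputable section

open Real

lemma i5_val' : 5 / 2 * i5 = 2 * c5 + 1 / 2 := by
  have h1 := i5_sq
  have h2 := c5_sq
  have h3 := i5_pos
  have h4 := c5_pos
  apply (pow_left_inj₀ (n := 2) (by positivity) (by positivity) (two_ne_zero)).1
  have e1 : (5 / 2 * i5) ^ 2 = 25 / 4 * i5 ^ 2 := by ring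
  have e2 : (2 * c5 + 1 / 2) ^ 2 = 4 * c5 ^ 2 + 2 * c5 + 1 / 4 := by ring
  rw [e1, e2, h1, h2]; ring

/-- The vectors from the pole to the ring. -/
lemma pole_u {μ a : ℝ} (ha : a = 5 / 2 * i5 * μ) (k : ℤ) :
    a • V k - a • e3 = vec (μ * W k 0) (μ * W k 1) (-(2 * c5 * μ)) := by
  have h1 := i5_sq
  have h2 := i5_val'
  apply ext3
  · simp only [sub_0, smul_0, V_0, e3_0, vec_0, ha]; linear_combination (5 * μ * (W k 0)) * h1
  · simp only [sub_1, smul_1, V_1, e3_1, vec_1, ha]; linear_combination (5 * μ * (W k 1)) * h1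
  · simp only [sub_2, smul_2, V_2, e3_2, vec_2, ha]
    linear_combination (5 / 2 * μ) * h1 - μ * h2

lemma pole_sum (p q r : ℝ) :
    (p - 2 * c5 * r) ^ 2 + (c5 * p + s5 * q - 2 * c5 * r) ^ 2 +
      (c5 * p - s5 * q - 2 * c5 * r) ^ 2 + ((2 * c5 ^ 2 - 1) * p + 2 * s5 * c5 * q - 2 * c5 * r) ^ 2 +
      ((2 * c5 ^ 2 - 1) * p - 2 * s5 * c5 * q - 2 * c5 * r) ^ 2 =
    5 / 2 * (p ^ 2 + q ^ 2) + 5 * (1 - 2 * c5) * r ^ 2 := by
  have h1 := c5_sq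
  have h2 := s5_sq'
  have e : 2 * c5 ^ 2 - 1 = -(1 / 2 + c5) := by rw [h1]; ring
  rw [e]
  have e2 : (p - 2 * c5 * r) ^ 2 + (c5 * p + s5 * q - 2 * c5 * r) ^ 2 +
      (c5 * p - s5 * q - 2 * c5 * r) ^ 2 + (-(1 / 2 + c5) * p + 2 * s5 * c5 * q - 2 * c5 * r) ^ 2 +
      (-(1 / 2 + c5) * p - 2 * s5 * c5 * q - 2 * c5 * r) ^ 2 =
      p ^ 2 * (3 / 2 + 2 * c5 + 4 * c5 ^ 2) + q ^ 2 * (2 * s5 ^ 2 + 8 * s5 ^ 2 * c5 ^ 2) +
      20 * c5 ^ 2 * r ^ 2 := by ring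
  rw [e2, h2, h1]
  linear_combination (-2 * q ^ 2) * h1

lemma abs_c5 : |c5| ≤ 0.31 := by
  have a1 := c5_gt; have a2 := c5_lt
  rw [abs_le]; constructor <;> linarith only [a1, a2]
lemma abs_one_sub_c5 : |1 - c5| ≤ 0.7 := by
  have a1 := c5_gt; have a2 := c5_lt
  rw [abs_le]; constructor <;> linarith only [a1, a2]
lemma abs_e_s5 {e : ℝ} (he : e = 1 ∨ e = -1) : |e * s5| ≤ 0.952 := by
  have a3 := s5_gt; have a4 := s5_lt
  rcases he with h | h <;> rw [h, abs_le] <;> constructor <;> linarith only [a3, a4]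

/-- Near-vertical axis: closeness of the rotated point. -/
lemma pole_near {b0 b1 b2 e : ℝ} (h0 : |b0| ≤ 0.0032) (h1 : |b1| ≤ 0.0032)
    (h2 : b2 ≤ 1) (h3 : 0.99999 ≤ b2) (he : e = 1 ∨ e = -1) :
    ((1 - c5) * (b0 - 2 * c5 * b2) * b0 - 2 * c5 * (e * s5) * b1) ^ 2 +
    ((1 - c5) * (b0 - 2 * c5 * b2) * b1 + e * s5 * (b2 + 2 * c5 * b0) - e * s5) ^ 2 +
    (-2 * c5 ^ 2 + (1 - c5) * (b0 - 2 * c5 * b2) * b2 - e * s5 * b1 + 2 * c5) ^ 2 ≤ 0.0002 := by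
  have g1 := abs_c5
  have g2 := abs_one_sub_c5
  obtain ⟨m, hm⟩ : ∃ m, m = (1 - c5) * (b0 - 2 * c5 * b2) := ⟨_, rfl⟩
  have hb1 : |b2 - 1| ≤ 0.00001 := by
    rw [abs_le]; constructor <;> linarith only [h2, h3]
  have hb2 : |b2| ≤ 1 := by rw [abs_le]; constructor <;> linarith only [h2, h3]
  have hb3 : |b2 + 1| ≤ 2 := by rw [abs_le]; constructor <;> linarith only [h2, h3]
  have q1' := abs_le.1 (abs_mul_le' g1 hb1)
  have h0' := abs_le.1 h0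
  have a1 := c5_gt
  have a2 := c5_lt
  have hm1 : |b0 - 2 * c5 * b2| ≤ 0.622 := by
    rw [abs_le]; constructor <;> linarith only [q1', h0', a1, a2]
  have hm2 : |m| ≤ 0.7 * 0.622 := by rw [hm]; exact abs_mul_le' g2 hm1
  have hes : |e * s5| ≤ 0.952 := abs_e_s5 he
  have k3 : |(e * s5) * b1| ≤ 0.952 * 0.0032 := abs_mul_le' hes h1
  have e3 : (-2 * c5 ^ 2 + (1 - c5) * (b0 - 2 * c5 * b2) * b2 - e * s5 * b1 + 2 * c5) =
      (1 - c5) * (b0 * b2) - 2 * ((c5 * (1 - c5)) * ((b2 - 1) * (b2 + 1))) - (e * s5) * b1 := by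
    ring
  rw [e3, ← hm]
  have r1 := abs_le.1 (abs_mul_le' hm2 h0)
  have r2 := abs_le.1 (abs_mul_le' hm2 h1)
  have r3 := abs_le.1 k3
  have r4 := abs_le.1 (abs_mul_le' g1 k3)
  have r5 := abs_le.1 (abs_mul_le' hes hb1)
  have r7 := abs_le.1 (abs_mul_le' hes (abs_mul_le' g1 h0))
  have r8 := abs_le.1 (abs_mul_le' g2 (abs_mul_le' h0 hb2))
  have r10 := abs_le.1 (abs_mul_le' (abs_mul_le' g1 g2) (abs_mul_le' hb1 hb3))
  have s1 : |m * b0 - 2 * c5 * (e * s5) * b1| ≤ 0.0035 := by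
    rw [abs_le]; constructor <;> linarith only [r1, r4]
  have s2 : |m * b1 + e * s5 * (b2 + 2 * c5 * b0) - e * s5| ≤ 0.0035 := by
    rw [abs_le]; constructor <;> linarith only [r2, r5, r7]
  have s3 : |(1 - c5) * (b0 * b2) - 2 * ((c5 * (1 - c5)) * ((b2 - 1) * (b2 + 1))) - (e * s5) * b1| ≤
      0.0055 := by
    rw [abs_le]; constructor <;> linarith only [r8, r10, r3]
  have t1 := sq_le_sq' (abs_le.1 s1).1 (abs_le.1 s1).2
  have t2 := sq_le_sq' (abs_le.1 s2).1 (abs_le.1 s2).2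
  have t3 := sq_le_sq' (abs_le.1 s3).1 (abs_le.1 s3).2
  norm_num at t1 t2 t3 ⊢
  linarith only [t1, t2, t3]

end

end Pool.Agent.Lib.MP_c5a075_co
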