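import Pool.Agent.Lib.MP_c5a075_co.PoleB0

/-! Regime B: the axis at the pole. -/

set_option autoImplicit false

namespace Pool.Agent.Lib.MP_c5a075_co

noncomputable section

open Real

lemma i5_lt_half : i5 < 0.5 := by
  have := i5_sq
  have := i5_pos
  nlinarith

lemma pole_far {μ a t : ℝ} (hμ0 : 0 < μ) (ha2 : a ^ 2 = 5 / 4 * μ ^ 2)
    (h : 2 * (a * (1 - i5)) + t = 0) (ht2 : t ^ 2 ≤ 0.0002 * μ ^ 2) : False := by
  have h8 : t ^ 2 = 4 * a ^ 2 * (1 - i5) ^ 2 := by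
    have : t = -(2 * (a * (1 - i5))) := by linarith
    rw [this]; ring
  have h9 := i5_lt_half
  have h10 : 0.25 ≤ (1 - i5) ^ 2 := by nlinarith only [h9]
  rw [h8, ha2] at ht2
  have h11 : 0 < μ ^ 2 := by positivity
  have h12 := mul_le_mul_of_nonneg_left h10 h11.le
  linarith

lemma pole_bounds {μ a : ℝ} (h1 : 1.0566 ≤ μ) (hμ : μ ≤ 1.525) (ha : a = 5 / 2 * i5 * μ) :
    0 < a ∧ a ^ 2 = 5 / 4 * μ ^ 2 ∧ a ≤ 1.72 ∧ 1.116 * 1 ≤ μ ^ 2 ∧ μ ^ 2 ≤ 2.3257 := by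
  have h5 := i5_pos
  have h6 := i5_sq
  have h7 := c5_lt
  refine ⟨by rw [ha]; positivity, ?_, ?_, ?_, ?_⟩
  · rw [ha]; linear_combination (25 / 4 * μ ^ 2) * h6
  · rw [ha, i5_val']; nlinarith only [h7, h1, hμ]
  · nlinarith only [h1]
  · nlinarith only [h1, hμ]

lemma dist_aV {a : ℝ} (ha0 : 0 < a) (ha : a ≤ 1.72) {v : E3} (hv : dot v v = 1) :
    dist (a • v) 0 ≤ 2 := by
  rw [dist_le_iff _ _ (by norm_num), sub_zero, dot_smul_left, dot_smul_right, hv]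
  nlinarith

lemma u_sq {μ a : ℝ} (ha : a = 5 / 2 * i5 * μ) (k : ℤ) :
    dot (a • V k - a • e3) (a • V k - a • e3) = 2 * (1 - c5) * μ ^ 2 := by
  rw [pole_u ha]
  have h1 := W_sq k
  have h2 := c5_sq
  simp only [dot, vec_0, vec_1, vec_2]
  linear_combination μ ^ 2 * h1 + (4 * μ ^ 2) * h2

lemma pole_turn {X : Set E3} {μ a : ℝ} (H : Tube X 0 20 μ) (hμ : μ ≤ 1.525)
    (ha : a = 5 / 2 * i5 * μ) {b : E3} (hb : Ax X (a • e3) b 5)
    (h0 : |b 0| ≤ 0.0032) (h1 : |b 1| ≤ 0.0032) (h2 : b 2 ≤ 1) (h3 : 0.99999 ≤ b 2) {e : ℝ}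
    (he : e = 1 ∨ e = -1) {j : ℤ} (hj : W j = vec c5 (e * s5) 0) (hVj : Ax X (a • V j) (V j) 5)
    (hV0 : a • V 0 ∈ X) : b 0 * (1 - c5) = e * s5 * b 1 := by
  obtain ⟨ha0, ha2, ha3, hμl, hμu⟩ := pole_bounds H.μ_ge hμ ha
  have hμ0 : 0 < μ := by have := H.μ_ge; linarith
  have hc1 := c5_gt
  have hu0 := u_sq ha 0
  have huj := u_sq ha j
  have hvis : dot (a • V 0 - a • e3) (a • V 0 - a • e3) ≤ 4 := by
    rw [hu0]
    have : 2 * (1 - c5) * μ ^ 2 ≤ 1.382 * μ ^ 2 := mul_le_mul_of_nonneg_right (by linarith) (by linarith)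
    linarith
  have hinv : Inv X (a • e3) b c5 (e * s5) := by
    rcases he with h | h
    · rw [h, one_mul]; exact hb.five.1
    · rw [h, neg_one_mul]; exact hb.five.2.1
  have hes : c5 ^ 2 + (e * s5) ^ 2 = 1 := by
    have : e ^ 2 = 1 := by rcases he with h | h <;> rw [h] <;> norm_num
    rw [mul_pow, this, one_mul]; exact c5_sq_add
  have hz := hinv (a • V 0 - a • e3) hvis (by rw [add_sub_cancel]; exact hV0)
  obtain ⟨r, hr⟩ : ∃ r, r = rot b c5 (e * s5) (a • V 0 - a • e3) := ⟨_, rfl⟩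
  rw [← hr] at hz
  have hrr : dot r r = 2 * (1 - c5) * μ ^ 2 := by
    rw [hr, dot_rot_rot b hb.unit _ _ hes, hu0]
  obtain ⟨u, hu⟩ : ∃ u, u = a • V j - a • e3 := ⟨_, rfl⟩
  rw [← hu] at huj
  obtain ⟨y, hy⟩ : ∃ y, y = r - u := ⟨_, rfl⟩
  have hyz : a • e3 + r - a • V j = y := by rw [hy, hu]; abel
  have hu' : u = vec (μ * c5) (μ * (e * s5)) (-(2 * c5 * μ)) := by
    rw [hu, pole_u ha, hj]; simp only [vec_0, vec_1]
  have hu0' : a • V 0 - a • e3 = vec μ 0 (-(2 * c5 * μ)) := by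
    rw [pole_u ha, W_zero]; simp only [vec_0, vec_1, mul_one, mul_zero]
  have y0 : y 0 = μ * ((1 - c5) * (b 0 - 2 * c5 * b 2) * b 0 - 2 * c5 * (e * s5) * b 1) := by
    rw [hy, hr, hu', hu0', sub_0, rot_0]
    simp only [dot, vec_0, vec_1, vec_2]; ring
  have y1 : y 1 = μ * ((1 - c5) * (b 0 - 2 * c5 * b 2) * b 1 + e * s5 * (b 2 + 2 * c5 * b 0) -
      e * s5) := by
    rw [hy, hr, hu', hu0', sub_1, rot_1]
    simp only [dot, vec_0, vec_1, vec_2]; ring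
  have y2 : y 2 = μ * (-2 * c5 ^ 2 + (1 - c5) * (b 0 - 2 * c5 * b 2) * b 2 - e * s5 * b 1 +
      2 * c5) := by
    rw [hy, hr, hu', hu0', sub_2, rot_2]
    simp only [dot, vec_0, vec_1, vec_2]; ring
  have hyy : dot y y ≤ 0.0002 * μ ^ 2 := by
    have h4 := pole_near h0 h1 h2 h3 he
    have h5 : dot y y = μ ^ 2 * (((1 - c5) * (b 0 - 2 * c5 * b 2) * b 0 -
      2 * c5 * (e * s5) * b 1) ^ 2 +
      ((1 - c5) * (b 0 - 2 * c5 * b 2) * b 1 + e * s5 * (b 2 + 2 * c5 * b 0) - e * s5) ^ 2 +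
      (-2 * c5 ^ 2 + (1 - c5) * (b 0 - 2 * c5 * b 2) * b 2 - e * s5 * b 1 + 2 * c5) ^ 2) := by
      simp only [dot]; rw [y0, y1, y2]; ring
    rw [h5, mul_comm]
    exact mul_le_mul_of_nonneg_right h4 (sq_nonneg μ)
  have hd := dist_aV ha0 ha3 (dot_V j)
  have ht := H.tube _ _ 5 hVj (by linarith only [hd]) _ hz (by rw [hyz]; linarith only [hμu, hyy])
  rw [hyz] at ht
  have hr0 : rho2 (V j) y = 0 := by
    rcases ht with h | h
    · exact h
    · exfalso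
      have := rho2_le (V j) y
      linarith only [hμl, hyy, h, this]
  have h6 := (rho2_eq_zero (dot_V j)).1 hr0
  obtain ⟨t, htt⟩ : ∃ t, t = dot (V j) y := ⟨_, rfl⟩
  rw [← htt] at h6
  have ht2 : t ^ 2 ≤ 0.0002 * μ ^ 2 := by
    have : dot y y = t ^ 2 := by
      rw [h6, dot_smul_left, dot_smul_right, dot_V]; ring
    rw [← this]; exact hyy
  have huV : dot u (V j) = a * (1 - i5) := by
    rw [hu, dot_sub_left, dot_smul_left, dot_smul_left, dot_V, e3_dot, V_2]; ring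
  have hru : r = u + t • V j := by rw [← h6, hy]; abel
  have h7 : t * (2 * (a * (1 - i5)) + t) = 0 := by
    have e1 : dot r r = dot u u + 2 * t * dot u (V j) + t ^ 2 := by
      rw [hru]
      simp only [dot_add_left, dot_add_right, dot_smul_left, dot_smul_right, dot_V,
        dot_comm (V j) u]
      ring
    rw [hrr, huj, huV] at e1
    linarith only [e1]
  have ht0 : t = 0 := by
    rcases mul_eq_zero.1 h7 with h | h
    · exact h
    · exfalso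
      exact pole_far hμ0 ha2 h ht2
  rw [ht0, zero_smul, add_zero] at hru
  have h11 : dot b r = dot b (a • V 0 - a • e3) := by rw [hr]; exact dot_axis_rot b hb.unit _ _ _
  rw [hru, hu', hu0'] at h11
  simp only [dot, vec_0, vec_1, vec_2] at h11
  have h12 : μ * (b 0 * (1 - c5) - e * s5 * b 1) = 0 := by linarith only [h11]
  rcases mul_eq_zero.1 h12 with h | h
  · exact absurd h hμ0.ne'
  · linarith only [h]

/-- All vertices unmatched from the pole. -/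
lemma pole_i {X : Set E3} {μ a : ℝ} (H : Tube X 0 20 μ) (hμ : μ ≤ 1.525)
    (ha : a = 5 / 2 * i5 * μ) (hV : ∀ k : ℤ, Ax X (a • V k) (V k) 5) {b : E3} {n : ℕ}
    (hb : Ax X (a • e3) b n) (hb2 : 0 ≤ b 2)
    (hne : ∀ k : ℤ, rho2 b (a • V k - a • e3) ≠ 0) : n = 5 ∧ b = e3 := by
  obtain ⟨ha0, ha2, ha3, hμl, hμu⟩ := pole_bounds H.μ_ge hμ ha
  have hμ0 : 0 < μ := by have := H.μ_ge; linarith
  have hμ2 : 0 < μ ^ 2 := by positivity
  have hc1 := c5_gt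
  have hc2 := c5_lt
  have hvis : ∀ k : ℤ, dot (a • V k - a • e3) (a • V k - a • e3) ≤ 4 := by
    intro k
    rw [u_sq ha k]
    have : 2 * (1 - c5) * μ ^ 2 ≤ 1.382 * μ ^ 2 :=
      mul_le_mul_of_nonneg_right (by linarith) (by linarith)
    linarith
  have hdP := dist_aV ha0 ha3 dot_e3_e3
  have hbb : b 0 * b 0 + b 1 * b 1 + b 2 * b 2 = 1 := hb.unit
  have hsq : ∀ k : ℤ, (b 0 * W k 0 + b 1 * W k 1 - 2 * c5 * b 2) ^ 2 ≤
      1 - 2 * c5 + 1 / 1000000 := by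
    intro k
    rcases H.tube _ b n hb (by linarith) _ (hV k).mem (hvis k) with h | h
    · exact absurd h (hne k)
    · rw [rho2, u_sq ha k] at h
      have e1 : dot b (a • V k - a • e3) = μ * (b 0 * W k 0 + b 1 * W k 1 - 2 * c5 * b 2) := by
        rw [pole_u ha]; simp only [dot, vec_0, vec_1, vec_2]; ring
      rw [e1, mul_pow] at h
      have h2 : μ ^ 2 * (b 0 * W k 0 + b 1 * W k 1 - 2 * c5 * b 2) ^ 2 ≤
          μ ^ 2 * (1 - 2 * c5 + 1 / 1000000) := by linarith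
      exact le_of_mul_le_mul_left h2 hμ2
  have s0 := hsq 0
  have s1 := hsq 1
  have s1' := hsq (-1)
  have s2 := hsq 2
  have s2' := hsq (-2)
  rw [W_zero] at s0
  rw [W_one] at s1
  rw [W_neg_one] at s1'
  rw [W_two] at s2
  rw [W_neg_two] at s2'
  simp only [vec_0, vec_1] at s0 s1 s1' s2 s2'
  have hsum := pole_sum (b 0) (b 1) (b 2)
  have e0 : (b 0 * 1 + b 1 * 0 - 2 * c5 * b 2) ^ 2 = (b 0 - 2 * c5 * b 2) ^ 2 := by ring
  have e1 : (b 0 * c5 + b 1 * s5 - 2 * c5 * b 2) ^ 2 = (c5 * b 0 + s5 * b 1 - 2 * c5 * b 2) ^ 2 := by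
    ring
  have e1' : (b 0 * c5 + b 1 * -s5 - 2 * c5 * b 2) ^ 2 =
    (c5 * b 0 - s5 * b 1 - 2 * c5 * b 2) ^ 2 := by ring
  have e2 : (b 0 * (2 * c5 ^ 2 - 1) + b 1 * (2 * s5 * c5) - 2 * c5 * b 2) ^ 2 =
    ((2 * c5 ^ 2 - 1) * b 0 + 2 * s5 * c5 * b 1 - 2 * c5 * b 2) ^ 2 := by ring
  have e2' : (b 0 * (2 * c5 ^ 2 - 1) + b 1 * -(2 * s5 * c5) - 2 * c5 * b 2) ^ 2 =
    ((2 * c5 ^ 2 - 1) * b 0 - 2 * s5 * c5 * b 1 - 2 * c5 * b 2) ^ 2 := by ring
  rw [e0] at s0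
  rw [e1] at s1
  rw [e1'] at s1'
  rw [e2] at s2
  rw [e2'] at s2'
  obtain ⟨p, hp⟩ : ∃ p, p = b 0 ^ 2 + b 1 ^ 2 := ⟨_, rfl⟩
  have hpr : b 2 ^ 2 = 1 - p := by rw [hp]; linarith only [hbb]
  rw [← hp, hpr] at hsum
  have hp0 : 0 ≤ p := by rw [hp]; positivity
  have hcp : 0.59 * p ≤ (5 / 2 - 5 * (1 - 2 * c5)) * p :=
    mul_le_mul_of_nonneg_right (by linarith only [hc1]) hp0
  have hp1 : p ≤ 0.00001 := by linarith
  have hr0 : (b 0 - 2 * c5 * b 2) ^ 2 ≥ 1 - 2 * c5 - 4 / 1000000 := by linarith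
  have h5 : n = 5 := by
    apply H.five hb (by linarith only [hdP]) (hV 0).mem (hvis 0) (hne 0)
    have e3' : dot b (a • V 0 - a • e3) = μ * (b 0 - 2 * c5 * b 2) := by
      rw [pole_u ha, W_zero]; simp only [dot, vec_0, vec_1, vec_2]; ring
    rw [rho2, u_sq ha, e3', mul_pow]
    have := mul_le_mul_of_nonneg_left hr0 hμ2.le
    linarith only [hμ2, this]
  refine ⟨h5, ?_⟩
  subst h5
  have hb0 : |b 0| ≤ 0.0032 := by
    apply abs_le_of_sq_le_sq _ (by norm_num)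
    have := sq_nonneg (b 1)
    norm_num; linarith only [hp, hp1, this]
  have hb1 : |b 1| ≤ 0.0032 := by
    apply abs_le_of_sq_le_sq _ (by norm_num)
    have := sq_nonneg (b 0)
    norm_num; linarith only [hp, hp1, this]
  have hb3 : b 2 ≤ 1 := by
    apply le_of_sq_le_sq _ (by norm_num)
    rw [hpr]; linarith only [hp0]
  have hb4 : 0.99999 ≤ b 2 := by
    apply le_of_sq_le_sq _ hb2
    rw [hpr]; norm_num; linarith only [hp1]
  have t1 := pole_turn H hμ ha hb hb0 hb1 hb3 hb4 (Or.inl rfl) (j := 1)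
    (by rw [W_one, one_mul]) (hV 1) (hV 0).mem
  have t2 := pole_turn H hμ ha hb hb0 hb1 hb3 hb4 (Or.inr rfl) (j := -1)
    (by rw [W_neg_one, neg_one_mul]) (hV (-1)) (hV 0).mem
  have hb0z : b 0 = 0 := by
    have : b 0 * (1 - c5) = 0 := by linarith only [t1, t2]
    rcases mul_eq_zero.1 this with h | h
    · exact h
    · exfalso; linarith only [hc2, h]
  have hb1z : b 1 = 0 := by
    rw [hb0z, zero_mul, one_mul] at t1
    rcases mul_eq_zero.1 t1.symm with h | h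
    · exact absurd h s5_pos.ne'
    · exact h
  have hb2z : b 2 = 1 := by
    have : (b 2 - 1) * (b 2 + 1) = 0 := by
      rw [hb0z, hb1z] at hbb; linarith only [hbb]
    rcases mul_eq_zero.1 this with h | h
    · linarith only [h]
    · exfalso; linarith only [hb4, h]
  apply ext3
  · rw [hb0z]; rfl
  · rw [hb1z]; rfl
  · rw [hb2z]; rfl

end

end Pool.Agent.Lib.MP_c5a075_co
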