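import Pool.Agent.Lib.MP_c5a075_co.TubeX

/-! Selection of the near-minimal pair in regime B. -/

set_option autoImplicit false

namespace Pool.Agent.Lib.MP_c5a075_co

noncomputable section

open Real

/-- The frame adapted to an axis and a point off it. -/
lemma pair_frame (x a v : E3) (ha : dot a a = 1) (hv : rho2 a (v - x) ≠ 0) :
    ∃ (F : Fr) (μ h : ℝ), 0 < μ ∧ μ ^ 2 = rho2 a (v - x) ∧ 0 ≤ h ∧ h ^ 2 = dot a (v - x) ^ 2 ∧
      F.map (vec 0 0 (-h)) = x ∧ (F.lin (vec 0 0 1) = a ∨ F.lin (vec 0 0 1) = -a) ∧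
      F.map (μ • vec 1 0 0) = v ∧ F.o = x + dot a (v - x) • a := by
  obtain ⟨u, hu⟩ : ∃ u, u = v - x := ⟨_, rfl⟩
  rw [← hu] at hv ⊢
  have hpos : 0 < rho2 a u := lt_of_le_of_ne (rho2_nonneg a u ha) (Ne.symm hv)
  obtain ⟨μ, hμ⟩ : ∃ μ, μ = √(rho2 a u) := ⟨_, rfl⟩
  have hμ0 : 0 < μ := by rw [hμ]; exact Real.sqrt_pos.2 hpos
  have hμ2 : μ ^ 2 = rho2 a u := by rw [hμ, Real.sq_sqrt hpos.le]
  obtain ⟨d, hd⟩ : ∃ d, d = dot a u := ⟨_, rfl⟩
  obtain ⟨p, hp⟩ : ∃ p : E3, p = u - d • a := ⟨_, rfl⟩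
  have hpp : dot p p = μ ^ 2 := by
    rw [hp, hμ2, rho2, ← hd]
    simp only [dot_sub_left, dot_sub_right, dot_smul_left, dot_smul_right, ha, dot_comm u a,
      ← hd]
    ring
  have hap : dot a p = 0 := by
    rw [hp, dot_sub_right, dot_smul_right, ha, ← hd]; ring
  have hpa : dot p a = 0 := by rw [dot_comm]; exact hap
  -- the frame for a sign
  have key : ∀ s : ℝ, s * s = 1 → ∃ F : Fr, F.o = x + d • a ∧ F.f1 = (1 / μ) • p ∧
      F.f3 = s • a := by
    intro s hs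
    have h11 : dot ((1 / μ) • p) ((1 / μ) • p) = 1 := by
      rw [dot_smul_left, dot_smul_right, hpp]; field_simp
    have h33 : dot (s • a) (s • a) = 1 := by
      rw [dot_smul_left, dot_smul_right, ha]; linarith
    have h13 : dot ((1 / μ) • p) (s • a) = 0 := by
      rw [dot_smul_left, dot_smul_right, hpa]; ring
    have h31 : dot (s • a) ((1 / μ) • p) = 0 := by rw [dot_comm]; exact h13
    refine ⟨⟨x + d • a, (1 / μ) • p, cross (s • a) ((1 / μ) • p), s • a, 1, h11, ?_, h33, ?_, h13,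
      ?_, Or.inl rfl, ?_⟩, rfl, rfl, rfl⟩
    · rw [dot_cross_cross, h11, h33, h31]; ring
    · rw [dot_cross_right]
    · rw [dot_comm]; exact dot_cross_left _ _
    · rw [cross_cross', h11, h13]; simp
  rcases le_total 0 d with h0 | h0
  · obtain ⟨F, ho, h1, h3⟩ := key 1 (by norm_num)
    refine ⟨F, μ, d, hμ0, hμ2, h0, by rw [hd], ?_, Or.inl ?_, ?_, by rw [ho, hd]⟩
    · simp only [Fr.map, Fr.lin, vec_0, vec_1, vec_2, ho, h3]
      apply ext3 <;> simp
    · simp only [Fr.lin, vec_0, vec_1, vec_2, h3]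
      apply ext3 <;> simp
    · have : F.map (μ • vec 1 0 0) = x + d • a + p := by
        simp only [Fr.map, Fr.lin, smul_0, smul_1, smul_2, vec_0, vec_1, vec_2, ho, h1]
        rw [smul_smul]
        have : μ * 1 * (1 / μ) = 1 := by field_simp
        rw [this]
        apply ext3 <;> simp
      rw [this, hp, hu]; abel
  · obtain ⟨F, ho, h1, h3⟩ := key (-1) (by norm_num)
    refine ⟨F, μ, -d, hμ0, hμ2, by linarith, by rw [hd, neg_sq], ?_, Or.inr ?_, ?_, by rw [ho, hd]⟩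
    · simp only [Fr.map, Fr.lin, vec_0, vec_1, vec_2, ho, h3]
      apply ext3 <;> simp
    · simp only [Fr.lin, vec_0, vec_1, vec_2, h3]
      apply ext3 <;> simp
    · have : F.map (μ • vec 1 0 0) = x + d • a + p := by
        simp only [Fr.map, Fr.lin, smul_0, smul_1, smul_2, vec_0, vec_1, vec_2, ho, h1]
        rw [smul_smul]
        have : μ * 1 * (1 / μ) = 1 := by field_simp
        rw [this]
        apply ext3 <;> simp
      rw [this, hp, hu]; abel

/-- The ring of a pair, in its frame. -/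
lemma ring_of {X : Set E3} {μ h : ℝ} (hx : Ax X (vec 0 0 (-h)) (vec 0 0 1) 5)
    (hw : μ • vec 1 0 0 ∈ X) (hvis : μ ^ 2 + h ^ 2 ≤ 4) (k : ℤ) : μ • W k ∈ X := by
  have h1 := hx.pow k
  have h2 := h1 (vec μ 0 h) (by
    simp only [dot, vec_0, vec_1, vec_2]; linarith) (by
    have : vec 0 0 (-h) + vec μ 0 h = μ • vec 1 0 0 := by apply ext3 <;> simp
    rw [this]; exact hw)
  have e : vec 0 0 (-h) + rot (vec 0 0 1) (cos (k * (2 * π / (5:ℕ)))) (sin (k * (2 * π / (5:ℕ))))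
      (vec μ 0 h) = μ • W k := by
    push_cast
    apply ext3
    · simp [rot, W, dot]; ring
    · simp [rot, W, dot]; ring
    · simp [rot, W, dot]; ring
  rw [e] at h2
  exact h2

/-- A visible point off the axis exists. -/
lemma exists_off {X : Set E3} (hs : ∃ r : ℝ, 0 < r ∧ ∀ x ∈ X, ∀ y ∈ X, x ≠ y → r ≤ dist x y)
    (hc : ∀ y : E3, ∃ x ∈ X, dist x y ≤ 1) (x a : E3) (ha : dot a a = 1) :
    ∃ v ∈ X, dot (v - x) (v - x) ≤ 4 ∧ rho2 a (v - x) ≠ 0 := by
  obtain ⟨e, he, hae⟩ := exists_perp a ha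
  have hne : e ≠ 0 := by
    intro h; rw [h, dot_zero_left] at he; norm_num at he
  obtain ⟨v, hv, h1, h2⟩ := cov_dir hs hc (x + e) e hne
  obtain ⟨q, hq⟩ : ∃ q, q = v - (x + e) := ⟨_, rfl⟩
  rw [← hq] at h1 h2
  have hvx : v - x = e + q := by rw [hq]; abel
  refine ⟨v, hv, ?_, ?_⟩
  · rw [hvx]
    have e1 : dot (e + q) (e + q) = dot e e + 2 * dot e q + dot q q := by
      rw [dot_add_left, dot_add_right, dot_add_right, dot_comm q e]; ring
    have h3 := dot_sq_le e q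
    rw [he, one_mul] at h3
    have h4 : dot e q ≤ 1 := by
      by_contra hcon
      push Not at hcon
      nlinarith only [h1, h3, hcon]
    rw [e1, he]; linarith
  · intro h0
    rw [hvx] at h0
    have h3 := (rho2_eq_zero ha).1 h0
    have h4 : dot e (e + q) = 0 := by
      rw [h3, dot_smul_right, dot_comm e a, hae, mul_zero]
    rw [dot_add_right, he] at h4
    have h5 := dot_sq_le e q
    rw [he, one_mul] at h5
    have h6 : dot e q = -1 := by linarith
    rw [h6] at h5 h2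
    rcases h2 with h | h
    · linarith
    · linarith

/-- The near-minimal pair of regime B. -/
theorem selB {X : Set E3} {y0 : E3} {K : ℝ} (hR : Region X y0 K) (hK : 1000000000 ≤ K)
    (hB : ∀ x a n, Ax X x a n → dist x y0 ≤ 500000000 → ∀ v ∈ X, dot (v - x) (v - x) ≤ 4 →
      rho2 a (v - x) = 0 ∨ 1.0566 ^ 2 ≤ rho2 a (v - x)) :
    ∃ (μ : ℝ) (x a v : E3) (n : ℕ), Tube X x 100 μ ∧ dist x y0 ≤ 400000001 ∧ Ax X x a n ∧ v ∈ X ∧
      dot (v - x) (v - x) ≤ 4 ∧ rho2 a (v - x) = μ ^ 2 := by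
  let S : Set (E3 × E3 × ℕ × E3) := {p | Ax X p.1 p.2.1 p.2.2.1 ∧ dist p.1 y0 ≤ 500000000 ∧
    p.2.2.2 ∈ X ∧ dot (p.2.2.2 - p.1) (p.2.2.2 - p.1) ≤ 4 ∧ rho2 p.2.1 (p.2.2.2 - p.1) ≠ 0}
  -- the starting pair
  obtain ⟨x0, hx0, hd0⟩ := hR.cov y0
  obtain ⟨a0, n0, ha0⟩ := hR.bad x0 hx0 (by linarith)
  obtain ⟨v0, hv0, hv1, hv2⟩ := exists_off hR.sep hR.cov x0 a0 ha0.unit
  have hp0 : ((x0, a0, n0, v0) : E3 × E3 × ℕ × E3) ∈ S := ⟨ha0, by linarith, hv0, hv1, hv2⟩
  obtain ⟨⟨x, a, n, v⟩, ⟨hx, hxd, hv, hvis, hoff⟩, hdist, hle, hmin⟩ := near_min S (fun p => p.1)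
    (fun p => rho2 p.2.1 (p.2.2.2 - p.1)) (1 / 1000000) 100 (1.0566 ^ 2) (by norm_num)
    (by norm_num) (by norm_num) (by norm_num) (by
      rintro ⟨x, a, n, v⟩ ⟨h1, h2, h3, h4, h5⟩
      rcases hB x a n h1 h2 v h3 h4 with h | h
      · exact absurd h h5
      · exact h) _ hp0
  simp only at hx hxd hv hvis hoff hdist hle hmin
  have hx0y : dist x y0 ≤ 400000001 := by
    have h1 := dist_triangle x x0 y0
    have h2 := rho2_le a0 (v0 - x0)
    have h3 : 100 * rho2 a0 (v0 - x0) / (1 / 1000000) ≤ 400000000 := by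
      rw [div_le_iff₀ (by norm_num)]; linarith
    linarith
  have hau := hx.unit
  have hlow : 1.0566 ^ 2 ≤ rho2 a (v - x) := by
    rcases hB x a n hx hxd v hv hvis with h | h
    · exact absurd h hoff
    · exact h
  obtain ⟨μ, hμ⟩ : ∃ μ, μ = √(rho2 a (v - x)) := ⟨_, rfl⟩
  have hμ0 : 0 ≤ μ := by rw [hμ]; exact Real.sqrt_nonneg _
  have hμ2 : μ ^ 2 = rho2 a (v - x) := by rw [hμ, Real.sq_sqrt (by linarith)]
  have hμ1 : 1.0566 ≤ μ := le_of_sq_le_sq (by rw [hμ2]; exact hlow) hμ0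
  refine ⟨μ, x, a, v, n, ⟨hμ1, hR.sep, hR.cov, ?_, ?_⟩, hx0y, hx, hv, hvis, hμ2.symm⟩
  · intro x' hx' hd'
    apply hR.bad x' hx'
    have := dist_triangle x' x y0
    linarith
  · intro x' a' n' hx' hd' v' hv' hvis'
    by_cases hoff' : rho2 a' (v' - x') = 0
    · exact Or.inl hoff'
    · right
      have h3 := hmin (x', a', n', v') ⟨hx', by
          have := dist_triangle x' x y0
          simp only
          linarith, hv', hvis', hoff'⟩ (by
        simp only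
        linarith)
      simp only at h3
      rw [hμ2]; linarith

end

end Pool.Agent.Lib.MP_c5a075_co
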