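import Pool.Agent.Lib.MP_c5a075_co.VisB
import Pool.Agent.Lib.MP_c5a075_co.SelB
import Pool.Agent.Lib.MP_c5a075_co.RingCore
import Pool.Agent.Lib.MP_c5a075_co.Inv

/-! Regime B: ring hypotheses. -/

set_option autoImplicit false

namespace Pool.Agent.Lib.MP_c5a075_co

noncomputable section

open Real

/-- B0: the ring hypotheses, or the exceptional star axis. -/
theorem ringB0 {X : Set E3} {μ h : ℝ} (H : Tube X 0 20 μ) (hμ : μ ≤ 1.7) (h0 : 0 ≤ h)
    (hh : μ ^ 2 + h ^ 2 ≤ 4) (hx : Ax X (vec 0 0 (-h)) (vec 0 0 1) 5) (hw : μ • W 0 ∈ X) :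
    (∃ H', RingHyp X μ 0 (1 / 5000) H') ∨
    (0.6 * μ < h ∧ ∃ (k : ℤ) (b : E3), Ax X (vec 0 0 (μ / 2)) b 5 ∧
      rho2 b (μ • W k - vec 0 0 (μ / 2)) = 0) := by
  have hμ1 := H.μ_ge
  have hμ0 : 0 < μ := by linarith
  have hring := ring_of hx (by rw [← W_zero]; exact hw) hh
  have hμ4 : μ ^ 2 ≤ 2.89 := by nlinarith only [hμ, hμ1]
  rcases visB H hμ h0 hh hx hring with ⟨H', hH0, hH1, hH2⟩ | h2
  · left
    refine ⟨H', hμ0, hμ, le_rfl, by norm_num, le_rfl, hring, ?_, ?_, Or.inr ⟨rfl, hH0, hH1⟩, ?_⟩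
    · intro k
      have := dist_sW (μ := μ) (by linarith) k
      exact H.bad _ (hring k) (by linarith)
    · intro k b n hb v hv hd
      have := dist_sW (μ := μ) (by linarith) k
      rcases H.tube _ b n hb (by linarith) v hv (by linarith) with h | h
      · exact Or.inl h
      · right
        have := sq_nonneg μ
        linarith
    · intro k v hv hd hle hvis
      apply hH2 v hv _ hvis
      have e1 : dot (v - μ • W k) (v - μ • W k) = dot v v - 2 * μ * dot v (W k) + μ ^ 2 := by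
        rw [dot_sub_self, dot_smul_right, dot_smul_left, dot_smul_right, dot_W]; ring
      rw [e1] at hd
      rw [zero_mul, add_zero] at hle
      have h3 := mul_le_mul_of_nonneg_left hle hμ0.le
      linarith
  · exact Or.inr h2

end

end Pool.Agent.Lib.MP_c5a075_co
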