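import Pool.Agent.Lib.MP_c5a075_co.NIneq

/-! Algebra of the unmatched case. -/

set_option autoImplicit false

namespace Pool.Agent.Lib.MP_c5a075_co

noncomputable section

open Real

lemma alg5 (c q x1 x2 x3 : ℝ) (hc1 : 0.30901675 < c) (hc2 : c < 0.309017)
    (hcc : c ^ 2 = (1 - 2 * c) / 4) (hq : q ^ 2 = (3 + 2 * c) / 4) (hq0 : 0 < q)
    (h1 : x1 ^ 2 + x2 ^ 2 + x3 ^ 2 = 1) (h3 : 0 ≤ x3)
    (E1p : 1 + (c * (-(1 - c)) + (1 - c) * (-(1 - c) * x1 + q * x2) * x1 - q * (q * x3)) = 0)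
    (E2p : c * q + (1 - c) * (-(1 - c) * x1 + q * x2) * x2 - q * ((1 - c) * x3) = 0)
    (E1m : 1 + (c * (-(1 - c)) + (1 - c) * (-(1 - c) * x1 - q * x2) * x1 - q * (q * x3)) = 0)
    (E2m : -(c * q) + (1 - c) * (-(1 - c) * x1 - q * x2) * x2 + q * ((1 - c) * x3) = 0) :
    x2 = 0 ∧ (1 - c) * x3 = c ∧ x1 ^ 2 = 4 * x3 ^ 2 := by
  have hp : 0 < 1 - c := by linarith
  have hx12 : x1 * x2 = 0 := by
    have h : (1 - c) * q * (x1 * x2) = 0 := by linear_combination (E1p - E1m) / 2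
    have hne : (1 - c) * q ≠ 0 := (mul_pos hp hq0).ne'
    exact (mul_eq_zero.1 h).resolve_left hne
  have hy : c + (1 - c) * x2 ^ 2 = (1 - c) * x3 := by
    have h : q * (c + (1 - c) * x2 ^ 2 - (1 - c) * x3) = 0 := by
      linear_combination (E2p - E2m) / 2
    have := (mul_eq_zero.1 h).resolve_left hq0.ne'
    linarith
  rcases mul_eq_zero.1 hx12 with hx | hx
  · exfalso
    rw [hx] at E1p h1
    have e1 : q ^ 2 * x3 = 1 - c * (1 - c) := by linear_combination -E1p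
    have e2 : x2 ^ 2 = 1 - x3 ^ 2 := by linear_combination h1
    rw [e2] at hy
    rw [hq] at e1
    have h5 : x3 < 0.87 := by nlinarith
    have h6 : 0.869 < x3 := by nlinarith
    nlinarith
  · refine ⟨hx, ?_, ?_⟩
    · rw [hx] at hy; linarith
    · rw [hx] at hy h1
      have h5 : (1 - c) * x3 = c := by linarith
      have h6 : (1 - c) ^ 2 * x3 ^ 2 = c ^ 2 := by rw [← mul_pow, h5]
      have h7 : (1 - c) ^ 2 = 5 * c ^ 2 := by
        have e : (1 - c) ^ 2 = 1 - 2 * c + c ^ 2 := by ring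
        rw [e]; linarith
      rw [h7] at h6
      have h8 : 0 < c ^ 2 := by positivity
      have h9 : 5 * x3 ^ 2 = 1 := by nlinarith
      linarith

lemma alg7 (c q c' s' x1 x2 x3 : ℝ) (hc1 : 0.30901675 < c) (hc2 : c < 0.309017)
    (hcc : c ^ 2 = (1 - 2 * c) / 4) (hq : q ^ 2 = (3 + 2 * c) / 4) (hq0 : 0 < q)
    (hc' : 1 / 2 < c') (hs' : 0 < s') (hcs : c' ^ 2 + s' ^ 2 = 1)
    (h1 : x1 ^ 2 + x2 ^ 2 + x3 ^ 2 = 1)
    (E1p : 1 + (c' * (-(1 - c)) + (1 - c') * (-(1 - c) * x1 + q * x2) * x1 - s' * (q * x3)) = 0)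
    (E2p : c' * q + (1 - c') * (-(1 - c) * x1 + q * x2) * x2 - s' * ((1 - c) * x3) = 0)
    (E1m : 1 + (c' * (-(1 - c)) + (1 - c') * (-(1 - c) * x1 - q * x2) * x1 - s' * (q * x3)) = 0)
    (E2m : -(c' * q) + (1 - c') * (-(1 - c) * x1 - q * x2) * x2 + s' * ((1 - c) * x3) = 0) :
    False := by
  have hp : 0 < 1 - c := by linarith
  have hc'1 : c' < 1 := by
    by_contra hcon
    push Not at hcon
    nlinarith [pow_pos hs' 2]
  have hqp : q ^ 2 = (1 - c) * (1 + c) := by rw [hq]; linarith [hcc]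
  have hx12 : x1 * x2 = 0 := by
    have h : (1 - c') * q * (x1 * x2) = 0 := by linear_combination (E1p - E1m) / 2
    have hne : (1 - c') * q ≠ 0 := (mul_pos (by linarith) hq0).ne'
    exact (mul_eq_zero.1 h).resolve_left hne
  have hy : c' * q + (1 - c') * q * x2 ^ 2 = s' * ((1 - c) * x3) := by
    linear_combination (E2p - E2m) / 2
  rcases mul_eq_zero.1 hx12 with hx | hx
  · rw [hx] at E1p
    have e1 : 1 - c' * (1 - c) = s' * (q * x3) := by linear_combination E1p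
    have e2 : q ^ 2 * c' + (1 - c') * q ^ 2 * x2 ^ 2 = (1 - c) * (1 - c' * (1 - c)) := by
      rw [e1]; linear_combination q * hy
    have e3 : 0 ≤ (1 - c') * q ^ 2 * x2 ^ 2 :=
      mul_nonneg (mul_nonneg (by linarith) (sq_nonneg q)) (sq_nonneg x2)
    rw [hqp] at e2 e3
    have e4 : (1 - c) * (1 + c) * c' ≤ (1 - c) * (1 - c' * (1 - c)) := by linarith
    have e5 : (1 + c) * c' ≤ 1 - c' * (1 - c) := by
      have : (1 - c) * ((1 + c) * c') ≤ (1 - c) * (1 - c' * (1 - c)) := by linarith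
      exact le_of_mul_le_mul_left this hp
    linarith
  · rw [hx] at hy E1p
    have e1 : s' * x3 * (1 - c) = c' * q := by linear_combination -hy
    have e2 : x1 ^ 2 = 1 - x3 ^ 2 := by rw [hx] at h1; linear_combination h1
    have e3 : s' ^ 2 * x3 ^ 2 * (1 - c) ^ 2 = c' ^ 2 * q ^ 2 := by
      have : s' ^ 2 * x3 ^ 2 * (1 - c) ^ 2 = (s' * x3 * (1 - c)) ^ 2 := by ring
      rw [this, e1]; ring
    have e4 : s' ^ 2 = (1 - c') * (1 + c') := by linear_combination hcs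
    -- the key identity
    have e5 : (1 - c) * (1 - c' * (1 - c) - (1 - c') * (1 - c) * (1 - x3 ^ 2)) - c' * q ^ 2 = 0 := by
      have : (1 - c) * (1 - c' * (1 - c) - (1 - c') * (1 - c) * x1 ^ 2) -
          (s' * x3 * (1 - c)) * q = 0 := by linear_combination (1 - c) * E1p
      rw [e1, e2] at this; linarith
    have e6 : (1 - c) * (c - c') = 0 := by
      rw [e4] at e3
      rw [hqp] at e3 e5
      linear_combination (1 + c') * e5 - e3
    have := (mul_eq_zero.1 e6).resolve_left hp.ne'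
    linarith

/-- passing from `72°` to smaller angles -/
lemma F_small (p q P Q c' s' : ℝ) (hp : 0.69 < p) (hq1 : q < 0.952) (hq0 : 0 < q) (hP : 0 ≤ P)
    (hF : p * P - q * Q ≤ -1 / 500) (hc' : 1 / 2 < c') (hs' : 1 / 2 ≤ s')
    (hcs : c' ^ 2 + s' ^ 2 = 1) : (1 - c') * P - s' * Q ≤ -1 / 1000 := by
  have h1 : 1 - c' ≤ 0.58 * s' := by
    by_contra hcon
    push Not at hcon
    have h2 : (0.58 * s') ^ 2 < (1 - c') ^ 2 := pow_lt_pow_left₀ hcon (by positivity) (by norm_num)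
    nlinarith
  have h2 : (1 - c') * q ≤ s' * p := by
    have h3 : (1 - c') * q ≤ (0.58 * s') * 0.952 :=
      mul_le_mul h1 hq1.le hq0.le (by positivity)
    nlinarith
  have h3 : q * ((1 - c') * P - s' * Q) ≤ s' * (-1 / 500) := by
    have h4 : ((1 - c') * q) * P ≤ (s' * p) * P := mul_le_mul_of_nonneg_right h2 hP
    have h5 := mul_le_mul_of_nonneg_left hF (by linarith : (0:ℝ) ≤ s')
    linarith
  by_contra hcon
  push Not at hcon
  have h4 : q * (-1 / 1000) < q * ((1 - c') * P - s' * Q) := mul_lt_mul_of_pos_left hcon hq0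
  nlinarith

lemma P_nonneg (c x1 x2 x3 T e R : ℝ) (hc1 : 0.30901675 < c) (hc2 : c < 0.309017)
    (h1 : x1 ^ 2 + x2 ^ 2 + x3 ^ 2 = 1)
    (he' : e ≤ 1 / 5000)
    (hp : R ^ 2 ≤ (1 - 2 * c) - T ^ 2 + e * (1 + T ^ 2)) :
    0 ≤ (1 - c) + R * (x1 + T * x3) := by
  have h2 : (x1 + T * x3) ^ 2 ≤ 1 + T ^ 2 := by
    nlinarith [sq_nonneg (T * x1 - x3), sq_nonneg x2, mul_nonneg (sq_nonneg T) (sq_nonneg x2)]
  have hT2 : T ^ 2 ≤ 0.3825 := by
    have := rT_bound c (R ^ 2) T e (by linarith) he' (sq_nonneg _) hp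
    have := sq_nonneg R
    linarith
  have hR2 : R ^ 2 ≤ 0.3825 - T ^ 2 := by
    have := rT_bound c (R ^ 2) T e (by linarith) he' (sq_nonneg _) hp
    linarith
  have h3 : (R * (x1 + T * x3)) ^ 2 ≤ 0.3825 := by
    have h4 : (R * (x1 + T * x3)) ^ 2 = R ^ 2 * (x1 + T * x3) ^ 2 := by ring
    rw [h4]
    have h5 : R ^ 2 * (x1 + T * x3) ^ 2 ≤ (0.3825 - T ^ 2) * (1 + T ^ 2) :=
      mul_le_mul hR2 h2 (sq_nonneg _) (by linarith)
    nlinarith [sq_nonneg T]
  have h4 : -0.62 ≤ R * (x1 + T * x3) := by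
    by_contra hcon
    push Not at hcon
    nlinarith
  linarith

end

end Pool.Agent.Lib.MP_c5a075_co
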