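import Pool.Agent.Lib.MP_c5a075_co.RingU

/-! Ring argument: matched and mixed cases, and the conclusion. -/

set_option autoImplicit false

namespace Pool.Agent.Lib.MP_c5a075_co

noncomputable section

open Real

lemma pq2 : 2 * (1 - c5) * s5 ^ 2 = 1.25 := by
  have := ident2 c5 s5 c5_sq s5_sq'
  linarith

lemma vis1 {μ : ℝ} (h0 : 0 < μ) (h : μ ≤ 1.52) : 2 * (1 - c5) * (1.25 * μ ^ 2) ≤ 4 := by
  have h5 : μ ^ 2 ≤ 1.52 ^ 2 := pow_le_pow_left₀ h0.le h 2
  have hc1 := c5_gt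
  nlinarith

lemma num1 (c : ℝ) (hc1 : 0.30901675 < c) (hc2 : c < 0.309017) :
    (0.973:ℝ) ^ 2 ≤ c ^ 2 * (1 - c) ^ 2 + (3 + 2 * c) / 4 := by
  have h1 : (0.3 * 0.69:ℝ) ≤ c * (1 - c) := by nlinarith
  have h2 := pow_le_pow_left₀ (by norm_num) h1 2
  rw [mul_pow] at h2
  norm_num at h2 ⊢
  linarith

lemma num2 (c : ℝ) (hc1 : 0.30901675 < c) (hc2 : c < 0.309017) :
    c ^ 2 * (1 - c) ^ 2 + (3 + 2 * c) / 4 ≤ (0.976:ℝ) ^ 2 := by
  have h1 : c * (1 - c) ≤ 0.2142 := by nlinarith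
  have h0 : 0 ≤ c * (1 - c) := mul_nonneg (by linarith) (by linarith)
  have h2 := pow_le_pow_left₀ h0 h1 2
  rw [mul_pow] at h2
  norm_num at h2 ⊢
  linarith

lemma num3 (c : ℝ) (hc1 : 0.30901675 < c) (hc2 : c < 0.309017) (hcc : c ^ 2 = (1 - 2 * c) / 4) :
    0.115 ≤ c * (c + (1 - c) * c ^ 2) ∧ c * (c + (1 - c) * c ^ 2) ≤ 0.1162 := by
  have h : c * (c + (1 - c) * c ^ 2) = 3 / 8 * c := by
    linear_combination (-c ^ 2 + 1.5 * c) * hcc
  rw [h]
  constructor <;> linarith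

lemma one_sub_le {c s : ℝ} (h : 1 / 2 < c) (hs : 0 < s) (hcs : c ^ 2 + s ^ 2 = 1) :
    1 - c ≤ 0.58 * s := by
  by_contra hcon
  push Not at hcon
  have h2 := pow_lt_pow_left₀ hcon (by positivity) (two_ne_zero)
  nlinarith only [h, hs, hcs, hcon]

lemma num5 {c' s' s5' x μ a : ℝ} (hμ : 0 < μ) (hB : s' * 0.4999 ≤ s' * s5' * x)
    (hlt : (1 - c') * 0.6546 < s' * 0.4999) (hA : (1 - c') * a * μ ≤ (1 - c') * 0.6546 * μ) :
    (1 - c') * a * μ + -(s' * s5' * x) * μ < 0 := by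
  have h1 := mul_le_mul_of_nonneg_right hB hμ.le
  have h2 := mul_lt_mul_of_pos_right hlt hμ
  linarith

lemma num4 (e T μ : ℝ) (he' : e ≤ 1 / 5000) :
    (1 - 1 / 5000) * μ ^ 2 ≤ (1 - e) * (1 + T ^ 2) * μ ^ 2 := by
  have h1 := sq_nonneg T
  have h2 : (1 - 1 / 5000) * 1 ≤ (1 - e) * (1 + T ^ 2) :=
    mul_le_mul (by linarith) (by linarith) (by norm_num) (by linarith)
  have := mul_le_mul_of_nonneg_right h2 (sq_nonneg μ)
  linarith

/-- a matched point and an axis point at height `±2 c5 μ` exclude each other -/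
lemma ring_matched_false {X : Set E3} {μ T e H : ℝ} (h : RingHyp X μ T e H) {b : E3} {n : ℕ}
    (hb : Ax X (μ • W 0) b n) (h1 : rho2 b (μ • W 1 - μ • W 0) = 0) (hT : T ^ 2 ≤ 2 * e)
    {σ : ℝ} (hσ : σ = 1 ∨ σ = -1) (hz : vec 0 0 (σ * (2 * c5) * μ) ∈ X) : False := by
  have hμ := h.μ_pos
  have hc1 := c5_gt
  have hc2 := c5_lt
  have hcc := c5_sq
  have hq := s5_sq'
  have hq0 := s5_pos
  have hσ2 : σ ^ 2 = 1 := by rcases hσ with h | h <;> rw [h] <;> norm_num
  obtain ⟨u, hu⟩ : ∃ u, u = μ • W 1 - μ • W 0 := ⟨_, rfl⟩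
  rw [← hu] at h1
  have hu2 : dot u u = 2 * (1 - c5) * μ ^ 2 := by rw [hu, dot_u]
  have hu0 : u 0 = -(1 - c5) * μ := by rw [hu, W_zero, W_one]; simp; ring
  have hu1 : u 1 = s5 * μ := by rw [hu, W_zero, W_one]; simp; ring
  have hu2' : u 2 = 0 := by rw [hu, W_zero, W_one]; simp
  obtain ⟨β, hβ⟩ : ∃ β, β = dot b u := ⟨_, rfl⟩
  have hub : u = β • b := by rw [hβ]; exact (rho2_eq_zero hb.unit).1 h1
  have hβ2 : β ^ 2 = 2 * (1 - c5) * μ ^ 2 := by
    rw [← hu2, hub, dot_smul_left, dot_smul_right, hb.unit]; ring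
  have hL : 0 < 2 * (1 - c5) * μ ^ 2 := by
    have := one_sub_c5_pos; positivity
  have hβ0 : β ≠ 0 := by
    intro h0; rw [h0, zero_pow two_ne_zero] at hβ2; linarith
  have hbu : b = β⁻¹ • u := by rw [hub, smul_smul, inv_mul_cancel₀ hβ0, one_smul]
  -- the vector from w to z
  obtain ⟨ζ, hζ⟩ : ∃ ζ, ζ = σ * (2 * c5) * μ := ⟨_, rfl⟩
  rw [← hζ] at hz
  have hζ2 : ζ ^ 2 = (1 - 2 * c5) * μ ^ 2 := by
    rw [hζ]; linear_combination (4 * c5 ^ 2 * μ ^ 2) * hσ2 + 4 * μ ^ 2 * hcc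
  obtain ⟨v, hv⟩ : ∃ v, v = vec 0 0 ζ - μ • W 0 := ⟨_, rfl⟩
  have hv0 : v 0 = -μ := by rw [hv, W_zero]; simp
  have hv1 : v 1 = 0 := by rw [hv, W_zero]; simp
  have hv2 : v 2 = ζ := by rw [hv, W_zero]; simp
  have hvv : dot v v = 2 * (1 - c5) * μ ^ 2 := by
    simp only [dot, hv0, hv1, hv2]; linear_combination hζ2
  have huv : dot u v = (1 - c5) * μ ^ 2 := by
    simp only [dot, hv0, hv1, hv2, hu0, hu1, hu2']; ring
  have hbv : dot b v = β⁻¹ * ((1 - c5) * μ ^ 2) := by rw [hbu, dot_smul_left, huv]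
  -- coordinates of the rotated point
  have key : ∀ c' s' : ℝ, c' ^ 2 + s' ^ 2 = 1 → Inv X (μ • W 0) b c' s' →
      s' * ζ * β ≤ 0 →
      (1 - c') * (1 - (1 - c5) / 2) * μ + s' * s5 * ζ * μ * β⁻¹ < 0 → False := by
    intro c' s' hcs hi hsign hneg
    have hvle : dot v v ≤ 4 := by rw [hvv]; exact vis0 hμ h.μ_le
    have hm := hi v hvle (by rw [hv, add_sub_cancel]; exact hz)
    have hinv : β⁻¹ * β⁻¹ * ((1 - c5) * μ ^ 2) = 1 / 2 := by
      have : β⁻¹ * β⁻¹ * β ^ 2 = 1 := by field_simp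
      rw [hβ2] at this; linarith only [this]
    have z0 : (μ • W 0 + rot b c' s' v) 0 =
        (1 - c') * (1 - (1 - c5) / 2) * μ + s' * s5 * ζ * μ * β⁻¹ := by
      rw [add_0, rot_0, hbv, hbu]
      simp only [smul_0, smul_1, smul_2, hv0, hv1, hv2, hu0, hu1, hu2', W_zero, vec_0]
      linear_combination (-(1 - c') * (1 - c5) * μ) * hinv
    have hd : dot (μ • W 0 + rot b c' s' v - μ • W 0) (μ • W 0 + rot b c' s' v - μ • W 0) =
        2 * (1 - c5) * μ ^ 2 := by
      rw [add_sub_cancel_left, dot_rot_rot b hb.unit c' s' hcs, hvv]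
    have hz2 : (μ • W 0 + rot b c' s' v) 2 ≤ 2 * μ := by
      have h5 : (μ • W 0 + rot b c' s' v) 2 = (rot b c' s' v) 2 := by
        rw [add_2]; simp [W_zero]
      have h6 : dot (rot b c' s' v) (rot b c' s' v) = 2 * (1 - c5) * μ ^ 2 := by
        rw [dot_rot_rot b hb.unit c' s' hcs, hvv]
      rw [h5]
      by_contra hcon
      push Not at hcon
      have h7 : (rot b c' s' v) 2 ^ 2 ≤ dot (rot b c' s' v) (rot b c' s' v) := by
        simp only [dot]
        have a0 := sq_nonneg ((rot b c' s' v) 0)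
        have a1 := sq_nonneg ((rot b c' s' v) 1)
        linarith only [a0, a1]
      have h8 : (2 * μ) ^ 2 < (rot b c' s' v) 2 ^ 2 :=
        pow_lt_pow_left₀ hcon (by positivity) (by norm_num)
      rw [h6] at h7
      have h9 : 2 * (1 - c5) * μ ^ 2 ≤ 1.4 * μ ^ 2 :=
        mul_le_mul_of_nonneg_right (by linarith) (sq_nonneg μ)
      have h10 := pow_pos hμ 2
      linarith only [h7, h8, h9, h10]
    have hT1 : T ≤ 0.02 := by
      have h8 := h.e_le
      have : T ^ 2 ≤ 0.02 ^ 2 := by norm_num; linarith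
      exact le_of_sq_le_sq this (by norm_num)
    have hTz : T * (μ • W 0 + rot b c' s' v) 2 ≤ 0.02 * (2 * μ) := by
      rcases le_total 0 ((μ • W 0 + rot b c' s' v) 2) with h0 | h0
      · exact mul_le_mul hT1 hz2 h0 (by norm_num)
      · have := mul_nonpos_of_nonneg_of_nonpos h.T_nn h0
        have : 0 ≤ 0.02 * (2 * μ) := by positivity
        linarith
    have h9 : 0.3 * μ ≤ (c5 - 1 / 1000) * μ := mul_le_mul_of_nonneg_right (by linarith only [hc1]) hμ.le
    have hz0 : (μ • W 0 + rot b c' s' v) 0 < 0 := by rw [z0]; exact hneg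
    have hzz : (μ • W 0 + rot b c' s' v) 0 + T * (μ • W 0 + rot b c' s' v) 2 ≤
        (c5 - 1 / 1000) * μ := by linarith only [hμ, hTz, h9, hz0]
    have r := h.zx 0 _ hm hd (by
      have dW : dot (μ • W 0 + rot b c' s' v) (W 0) = (μ • W 0 + rot b c' s' v) 0 := by
        rw [W_zero]; simp [dot]
      rw [dW]; exact hzz) (h.vis_of (by linarith only [hT1]) hd hzz (fun _ => by
        have : 0 ≤ 0.1141 * μ := by positivity
        linarith only [hz0, this]))
    rw [z0] at r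
    exact absurd r.1 hneg.ne
  -- sizes
  have hζβ : (ζ * β⁻¹) ^ 2 = (1 - 2 * c5) / (2 * (1 - c5)) := by
    rw [mul_pow, inv_pow, hζ2, hβ2]
    have := one_sub_c5_pos
    field_simp
  have hζβ2 : (0.5257:ℝ) ^ 2 < (ζ * β⁻¹) ^ 2 := by
    rw [hζβ, lt_div_iff₀ (by linarith)]; norm_num; linarith
  have habs : 0.5257 < |ζ * β⁻¹| := by
    rw [← sq_abs (ζ * β⁻¹)] at hζβ2
    exact lt_of_pow_lt_pow_left₀ 2 (abs_nonneg _) hζβ2
  have hβinv : ∀ s : ℝ, s * (ζ * β⁻¹) ≤ 0 → s * ζ * β ≤ 0 := by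
    intro s hs
    have e : s * ζ * β = (s * (ζ * β⁻¹)) * β ^ 2 := by field_simp
    rw [e]; exact mul_nonpos_of_nonpos_of_nonneg hs (sq_nonneg _)
  -- choose the sign of the rotation
  have fin : ∀ c' s' : ℝ, 0 < s' → c' ^ 2 + s' ^ 2 = 1 → Inv X (μ • W 0) b c' s' →
      Inv X (μ • W 0) b c' (-s') → (1 - c') * 0.6546 < s' * 0.4999 → False := by
    intro c' s' hs0 hcs i1 i2 hlt
    have hc'1 : 0 ≤ 1 - c' := by
      have h5 : c' ^ 2 ≤ 1 ^ 2 := by
        have := sq_nonneg s'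
        linarith
      have := le_of_sq_le_sq h5 zero_le_one
      linarith
    have hA : (1 - c') * (1 - (1 - c5) / 2) * μ ≤ (1 - c') * 0.6546 * μ := by
      apply mul_le_mul_of_nonneg_right _ hμ.le
      exact mul_le_mul_of_nonneg_left (by linarith) hc'1
    have hB : s' * 0.4999 ≤ s' * s5 * |ζ * β⁻¹| := by
      have h5 : 0.4999 ≤ s5 * |ζ * β⁻¹| := by
        have := mul_le_mul s5_gt.le habs.le (by norm_num) hq0.le
        norm_num at this ⊢; linarith only [this]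
      have := mul_le_mul_of_nonneg_left h5 hs0.le
      linarith only [this]
    rcases le_total 0 (ζ * β⁻¹) with h0 | h0
    · rw [abs_of_nonneg h0] at hB
      refine key c' (-s') (by rw [neg_sq]; exact hcs) i2 (hβinv _ ?_) ?_
      · exact mul_nonpos_of_nonpos_of_nonneg (by linarith) h0
      · have e : -s' * s5 * ζ * μ * β⁻¹ = -(s' * s5 * (ζ * β⁻¹)) * μ := by ring
        rw [e]; exact num5 hμ hB hlt hA
    · rw [abs_of_nonpos h0] at hB
      refine key c' s' hcs i1 (hβinv _ ?_) ?_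
      · exact mul_nonpos_of_nonneg_of_nonpos hs0.le h0
      · have e : s' * s5 * ζ * μ * β⁻¹ = -(s' * s5 * -(ζ * β⁻¹)) * μ := by ring
        rw [e]; exact num5 hμ hB hlt hA
  rcases hb.ord with hn | hn
  · subst hn
    obtain ⟨i1, i2, -, -⟩ := hb.five
    refine fin c5 s5 hq0 c5_sq_add i1 i2 ?_
    have := s5_gt
    linarith
  · obtain ⟨k, hk1, hk2⟩ := exists_mult hn
    have i1 := hb.pow k
    have i2 := hb.pow (-k)
    have e1 : ((-k : ℤ) : ℝ) * (2 * π / n) = -(k * (2 * π / n)) := by push_cast; ring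
    rw [e1, Real.cos_neg, Real.sin_neg] at i2
    have hcs := Real.cos_sq_add_sin_sq ((k:ℝ) * (2 * π / n))
    refine fin _ _ (by linarith only [hk2]) hcs i1 i2 ?_
    have h7 := one_sub_le hk1 (by linarith only [hk2]) hcs
    linarith only [hk2, h7]

/-- two unmatched points of different type exclude each other -/
lemma ring_mixed_false {X : Set E3} {μ T e H : ℝ} (h : RingHyp X μ T e H) {b : E3} {n : ℕ}
    (hb : Ax X (μ • W 0) b n) {σ : ℝ} (hσ : σ = 1 ∨ σ = -1)
    (hbe : b = vec (2 * σ * i5) 0 i5 ∨ b = -vec (2 * σ * i5) 0 i5)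
    (hz : vec 0 0 (-σ * (2 * c5) * μ) ∈ X) : False := by
  have hμ := h.μ_pos
  have hc1 := c5_gt
  have hc2 := c5_lt
  have hcc := c5_sq
  have hσ2 : σ ^ 2 = 1 := by rcases hσ with h | h <;> rw [h] <;> norm_num
  have hd : dot (vec 0 0 (-σ * (2 * c5) * μ) - μ • W 0) (vec 0 0 (-σ * (2 * c5) * μ) - μ • W 0) =
      2 * (1 - c5) * μ ^ 2 := by
    rw [W_zero]; simp only [dot, sub_0, sub_1, sub_2, smul_0, smul_1, smul_2, vec_0, vec_1, vec_2]
    linear_combination (4 * c5 ^ 2 * μ ^ 2) * hσ2 + 4 * μ ^ 2 * hcc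
  have hr : rho2 b (vec 0 0 (-σ * (2 * c5) * μ) - μ • W 0) = (1 - 3.2 * c5) * μ ^ 2 := by
    have h5 : dot b (vec 0 0 (-σ * (2 * c5) * μ) - μ • W 0) ^ 2 = 0.8 * (1 + c5) ^ 2 * μ ^ 2 := by
      rcases hbe with hbe | hbe
      · rw [hbe, W_zero]
        simp only [dot, sub_0, sub_1, sub_2, smul_0, smul_1, smul_2, vec_0, vec_1, vec_2]
        have := i5_sq
        linear_combination (4 * (1 + c5) ^ 2 * μ ^ 2 * i5 ^ 2) * hσ2 +
          (4 * (1 + c5) ^ 2 * μ ^ 2) * this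
      · rw [hbe, W_zero]
        simp only [dot, sub_0, sub_1, sub_2, smul_0, smul_1, smul_2, vec_0, vec_1, vec_2, neg_0,
          neg_1, neg_2]
        have := i5_sq
        linear_combination (4 * (1 + c5) ^ 2 * μ ^ 2 * i5 ^ 2) * hσ2 +
          (4 * (1 + c5) ^ 2 * μ ^ 2) * this
    rw [rho2, hd, h5]
    linear_combination (-0.8 * μ ^ 2) * hcc
  have hμ2 : 0 < μ ^ 2 := by positivity
  have hr1 : (1 - 3.2 * c5) * μ ^ 2 ≤ 0.5 * μ ^ 2 := mul_le_mul_of_nonneg_right (by linarith) hμ2.le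
  have hr2 : 0 < (1 - 3.2 * c5) * μ ^ 2 := mul_pos (by linarith) hμ2
  have hd1 : 2 * (1 - c5) * μ ^ 2 ≤ 1.382 * μ ^ 2 :=
    mul_le_mul_of_nonneg_right (by linarith) hμ2.le
  rcases h.zw 0 b n hb _ hz (by rw [hd]; exact hd1) with h5 | h5
  · rw [hr] at h5
    linarith
  · rw [hr] at h5
    have h8 := num4 e T μ h.e_le
    norm_num at h8
    linarith

/-- a directed chain `w_{-1} → w_0 → w_1` of matched points is impossible -/
lemma ring_chain_false {X : Set E3} {μ T e H : ℝ} (h : RingHyp X μ T e H) (hμ1 : μ ≤ 1.52)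
    {b : E3} {n : ℕ} (hb : Ax X (μ • W 0) b n) (h1 : rho2 b (μ • W 1 - μ • W 0) = 0)
    {b' : E3} {n' : ℕ} (hb' : Ax X (μ • W (-1)) b' n')
    (h1' : rho2 b' (μ • W 0 - μ • W (-1)) = 0) : False := by
  have hμ := h.μ_pos
  have hμ2 : 0 < μ ^ 2 := by positivity
  have hc1 := c5_gt
  have hc2 := c5_lt
  have hcc := c5_sq
  have hq := s5_sq'
  have hq0 := s5_pos
  obtain ⟨L, hL⟩ : ∃ L, L = 2 * (1 - c5) * μ ^ 2 := ⟨_, rfl⟩
  have hL0 : 0 < L := by rw [hL]; have := one_sub_c5_pos; positivity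
  have hL1 : L ≤ 1.382 * μ ^ 2 := by
    rw [hL]; exact mul_le_mul_of_nonneg_right (by linarith) hμ2.le
  have hL2 : 1.38 * μ ^ 2 ≤ L := by
    rw [hL]; exact mul_le_mul_of_nonneg_right (by linarith) hμ2.le
  obtain ⟨u, hu⟩ : ∃ u, u = μ • W 1 - μ • W 0 := ⟨_, rfl⟩
  obtain ⟨m, hm⟩ : ∃ m, m = μ • W (-1) - μ • W 0 := ⟨_, rfl⟩
  rw [← hu] at h1
  have huu : dot u u = L := by rw [hu, dot_u, hL]
  have hmm : dot m m = L := by rw [hm, dot_u', hL]
  have hum : dot u m = -(c5 * L) := by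
    rw [hu, hm, W_zero, W_one, W_neg_one, hL]
    simp only [dot, sub_0, sub_1, sub_2, smul_0, smul_1, smul_2, vec_0, vec_1, vec_2]
    linear_combination (-μ ^ 2) * hq - μ ^ 2 * hcc
  obtain ⟨β, hβ⟩ : ∃ β, β = dot b u := ⟨_, rfl⟩
  have hub : u = β • b := by rw [hβ]; exact (rho2_eq_zero hb.unit).1 h1
  have hβ2 : β ^ 2 = L := by
    rw [← huu, hub, dot_smul_left, dot_smul_right, hb.unit]; ring
  have hβ0 : β ≠ 0 := by
    intro h0; rw [h0, zero_pow two_ne_zero] at hβ2; linarith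
  have hbu : b = β⁻¹ • u := by rw [hub, smul_smul, inv_mul_cancel₀ hβ0, one_smul]
  have hm' : μ • W 0 - μ • W (-1) = -m := by rw [hm]; abel
  rw [hm'] at h1'
  obtain ⟨β', hβ'⟩ : ∃ β', β' = -dot b' (-m) := ⟨_, rfl⟩
  have hmb : m = β' • b' := by
    have := (rho2_eq_zero hb'.unit).1 h1'
    rw [hβ', neg_smul, ← this, neg_neg]
  have hβ'2 : β' ^ 2 = L := by
    rw [← hmm, hmb, dot_smul_left, dot_smul_right, hb'.unit]; ring
  have hβ'0 : β' ≠ 0 := by
    intro h0; rw [h0, zero_pow two_ne_zero] at hβ'2; linarith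
  have hbm : b' = β'⁻¹ • m := by rw [hmb, smul_smul, inv_mul_cancel₀ hβ'0, one_smul]
  have hββ : β⁻¹ * β⁻¹ * L = 1 := by rw [← hβ2]; field_simp
  have hβ'β' : β'⁻¹ * β'⁻¹ * L = 1 := by rw [← hβ'2]; field_simp
  have hb_m : dot b m = -(β⁻¹ * c5 * L) := by rw [hbu, dot_smul_left, hum]; ring
  have hb_m2 : dot b m ^ 2 = c5 ^ 2 * L := by
    rw [hb_m]; linear_combination (c5 ^ 2 * L) * hββ
  have hperp : L - c5 ^ 2 * L = 1.25 * μ ^ 2 := by
    have h5 : L - c5 ^ 2 * L = (2 * (1 - c5) * s5 ^ 2) * μ ^ 2 := by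
      rw [hL]; linear_combination (-2 * (1 - c5) * μ ^ 2) * c5_sq_add
    rw [h5, pq2]
  have hmle : dot m m ≤ 4 := by
    rw [hmm, hL]; exact vis0 hμ (by linarith)
  rcases hb.ord with hn | hn
  · -- order five
    subst hn
    obtain ⟨i1, -, -, -⟩ := hb.five
    obtain ⟨r, hr⟩ : ∃ r, r = rot b c5 s5 m := ⟨_, rfl⟩
    have hy := i1 m hmle (by rw [hm, add_sub_cancel]; exact h.ring (-1))
    rw [← hr] at hy
    have hrr : dot r r = L := by rw [hr, dot_rot_rot b hb.unit _ _ c5_sq_add, hmm]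
    have hrm : dot (r - m) (r - m) = 2 * (1 - c5) * (1.25 * μ ^ 2) := by
      rw [hr, dot_rot_sub b hb.unit _ _ c5_sq_add, hmm, hb_m2, hperp]
    have hmr : dot m r = L * (c5 + (1 - c5) * c5 ^ 2) := by
      have h5 : dot (r - m) (r - m) = dot r r + dot m m - 2 * dot m r := by
        rw [dot_sub_left, dot_sub_right, dot_sub_right, dot_comm r m]; ring
      rw [hrm, hrr, hmm] at h5
      rw [← hperp] at h5
      linarith only [h5]
    have hur : dot u r = -(c5 * L) := by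
      have h5 := dot_axis_rot b hb.unit c5 s5 m
      rw [← hr] at h5
      rw [hub, dot_smul_left, h5, hb_m]
      field_simp
    -- the point on the other side
    have hrmle : dot (r - m) (r - m) ≤ 4 := by
      rw [hrm]; exact vis1 hμ hμ1
    have hyx : μ • W (-1) + (r - m) ∈ X := by
      have : μ • W (-1) + (r - m) = μ • W 0 + r := by rw [hm]; abel
      rw [this]; exact hy
    obtain ⟨D, hD⟩ : ∃ D, D = dot u (cross b' r) := ⟨_, rfl⟩
    obtain ⟨C, hC⟩ : ∃ C, C = -(c5 * L) + c5 * L * (c5 + (1 - c5) * c5 ^ 2) := ⟨_, rfl⟩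
    have huR : ∀ c' s' : ℝ, dot u (rot b' c' s' r) =
        -(c5 * L * (c5 + (1 - c5) * c5 ^ 2)) + (C * c' + D * s') := by
      intro c' s'
      have h5 : dot b' r = β'⁻¹ * (L * (c5 + (1 - c5) * c5 ^ 2)) := by
        rw [hbm, dot_smul_left, hmr]
      have h6 : dot u b' = -(β'⁻¹ * (c5 * L)) := by rw [hbm, dot_smul_right, hum]; ring
      rw [rot, dot_add_right, dot_add_right, dot_smul_right, dot_smul_right, dot_smul_right, hur,
        h5, h6, ← hD, hC]
      linear_combination (-(1 - c') * (c5 * L * (c5 + (1 - c5) * c5 ^ 2))) * hβ'β'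
    have hD2 : D ^ 2 = s5 ^ 6 * L ^ 2 := by
      have e1 : cross b' r = (β'⁻¹ * ((1 - c5) * dot b m)) • cross m b +
          (β'⁻¹ * s5) • (L • b - dot m b • m) := by
        have e2 : cross m r = ((1 - c5) * dot b m) • cross m b + s5 • (L • b - dot m b • m) := by
          rw [hr, rot, cross_add_right, cross_add_right, cross_smul_right, cross_smul_right,
            cross_smul_right, cross_self, cross_cross', hmm]
          simp
        rw [hbm, cross_smul_left, e2, smul_add, smul_smul, smul_smul]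
      have e3 : dot u (cross m b) = 0 := by
        rw [hub, dot_smul_left, dot_cross_right, mul_zero]
      have e4 : D = (β'⁻¹ * s5) * (β * L * (1 - c5 ^ 2)) := by
        rw [hD, e1, dot_add_right, dot_smul_right, dot_smul_right, dot_sub_right, dot_smul_right,
          dot_smul_right, e3, hum, dot_comm m b, hb_m]
        have : dot u b = β := by rw [hub, dot_smul_left, hb.unit]; ring
        rw [this]
        have h8 : β⁻¹ * L = β := by rw [← hβ2]; field_simp
        linear_combination (-(β'⁻¹ * s5 * c5 ^ 2 * L)) * h8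
      have e5 : (1 - c5 ^ 2) = s5 ^ 2 := by linarith only [hcc, hq]
      rw [e4, e5]
      have : ((β'⁻¹ * s5) * (β * L * s5 ^ 2)) ^ 2 =
          (β'⁻¹ * β'⁻¹ * L) * (β ^ 2) * (s5 ^ 6 * L) := by ring
      rw [this, hβ'β', hβ2]; ring
    have hCval : C = -(c5 * (1 - c5) * s5 ^ 2 * L) := by
      rw [hC]; linear_combination (c5 * (1 - c5) * L) * c5_sq_add
    have hCD : (0.973 * 0.904 * L) ^ 2 ≤ C ^ 2 + D ^ 2 := by
      rw [hD2, hCval]
      have h6 : (-(c5 * (1 - c5) * s5 ^ 2 * L)) ^ 2 + s5 ^ 6 * L ^ 2 =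
          (s5 ^ 2) ^ 2 * (c5 ^ 2 * (1 - c5) ^ 2 + s5 ^ 2) * L ^ 2 := by ring
      rw [h6, hq]
      have h7 : (0.904:ℝ) ≤ (3 + 2 * c5) / 4 := by linarith only [hc1]
      have h8 : (0.904:ℝ) ^ 2 ≤ ((3 + 2 * c5) / 4) ^ 2 := pow_le_pow_left₀ (by norm_num) h7 2
      have h9 := num1 c5 hc1 hc2
      have h10 := mul_le_mul h8 h9 (by norm_num) (sq_nonneg _)
      have h11 := mul_le_mul_of_nonneg_right h10 (sq_nonneg L)
      linarith only [h11]
    have hCDu : C ^ 2 + D ^ 2 ≤ (0.976 * 0.9046 * L) ^ 2 := by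
      rw [hD2, hCval]
      have h6 : (-(c5 * (1 - c5) * s5 ^ 2 * L)) ^ 2 + s5 ^ 6 * L ^ 2 =
          (s5 ^ 2) ^ 2 * (c5 ^ 2 * (1 - c5) ^ 2 + s5 ^ 2) * L ^ 2 := by ring
      rw [h6, hq]
      have h7 : (3 + 2 * c5) / 4 ≤ (0.9046:ℝ) := by linarith only [hc2]
      have h8 : ((3 + 2 * c5) / 4) ^ 2 ≤ (0.9046:ℝ) ^ 2 :=
        pow_le_pow_left₀ (by linarith only [hc1]) h7 2
      have h9 := num2 c5 hc1 hc2
      have h10 := mul_le_mul h8 h9 (by positivity) (by norm_num)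
      have h11 := mul_le_mul_of_nonneg_right h10 (sq_nonneg L)
      linarith only [h11]
    obtain ⟨k, hk⟩ := exists_round (by rcases hb'.ord with h | h <;> omega : 5 ≤ n') C D
    have hs1 : 0.973 * 0.904 * L ≤ √(C ^ 2 + D ^ 2) := Real.le_sqrt_of_sq_le hCD
    have hcs := Real.cos_sq_add_sin_sq ((k:ℝ) * (2 * π / n'))
    obtain ⟨c', hc'⟩ : ∃ c', c' = cos (k * (2 * π / n')) := ⟨_, rfl⟩
    obtain ⟨s', hs'⟩ : ∃ s', s' = sin (k * (2 * π / n')) := ⟨_, rfl⟩
    have hinv := hb'.pow k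
    rw [← hc', ← hs'] at hk hcs hinv
    have hz := hinv (r - m) hrmle hyx
    have hzz : μ • W (-1) + rot b' c' s' (r - m) = μ • W 0 + rot b' c' s' r := by
      have h5 : rot b' c' s' m = m := by
        rw [hmb, rot_smul, rot_axis b' hb'.unit]
      rw [rot_sub, h5, hm]; abel
    rw [hzz] at hz
    have hlow : -(0.976 * 0.9046 * L) ≤ C * c' + D * s' := by
      have h5 : (C * c' + D * s') ^ 2 ≤ C ^ 2 + D ^ 2 := by
        have h6 : (C * c' + D * s') ^ 2 =
          (C ^ 2 + D ^ 2) * (c' ^ 2 + s' ^ 2) - (C * s' - D * c') ^ 2 := by ring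
        have h7 := sq_nonneg (C * s' - D * c')
        rw [h6, hcs, mul_one]; linarith only [h7]
      have h6 : |C * c' + D * s'| ≤ 0.976 * 0.9046 * L :=
        abs_le_of_sq_le_sq (h5.trans hCDu) (by positivity)
      exact (abs_le.1 h6).1
    have hRR : dot (rot b' c' s' r) (rot b' c' s' r) = L := by
      rw [dot_rot_rot b' hb'.unit _ _ hcs, hrr]
    have hU := huR c' s'
    obtain ⟨hX1, hX2⟩ := num3 c5 hc1 hc2 hcc
    have hX1L := mul_le_mul_of_nonneg_right hX1 hL0.le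
    have hX2L := mul_le_mul_of_nonneg_right hX2 hL0.le
    have hU1 : dot u (rot b' c' s' r) ≤ -(0.81 * L) := by rw [hU]; linarith only [hs1, hk, hX1L, hX2L]
    have hU2 : -(0.9995 * L) ≤ dot u (rot b' c' s' r) := by rw [hU]; linarith only [hlow, hX1L, hX2L]
    have hrho : rho2 b (rot b' c' s' r) = L - (β⁻¹ * β⁻¹) * dot u (rot b' c' s' r) ^ 2 := by
      rw [rho2, hRR, hbu, dot_smul_left]; ring
    have hββ0 : 0 < β⁻¹ * β⁻¹ := by
      have : β⁻¹ ≠ 0 := inv_ne_zero hβ0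
      exact mul_self_pos.2 this
    have hsq1 : dot u (rot b' c' s' r) ^ 2 ≤ (0.9995 * L) ^ 2 := by
      apply sq_le_sq'
      · exact hU2
      · linarith only [hX1L, hX2L, hU1]
    have hsq2 : (0.81 * L) ^ 2 ≤ dot u (rot b' c' s' r) ^ 2 := by
      have : (0.81 * L) ^ 2 ≤ (-dot u (rot b' c' s' r)) ^ 2 :=
        pow_le_pow_left₀ (by positivity) (by linarith only [hU1]) 2
      rwa [neg_sq] at this
    have hzw := h.zw 0 b 5 hb _ hz (by rw [add_sub_cancel_left, hRR]; linarith only [hL1])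
    rw [add_sub_cancel_left, hrho] at hzw
    rcases hzw with h5 | h5
    · have h6 := mul_le_mul_of_nonneg_left hsq1 hββ0.le
      have h7 : β⁻¹ * β⁻¹ * (0.9995 * L) ^ 2 = 0.9995 ^ 2 * L := by
        linear_combination (0.9995 ^ 2 * L) * hββ
      rw [h7] at h6
      norm_num at h6
      linarith only [hL0, h5, h6]
    · have h6 := mul_le_mul_of_nonneg_left hsq2 hββ0.le
      have h7 : β⁻¹ * β⁻¹ * (0.81 * L) ^ 2 = 0.81 ^ 2 * L := by
        linear_combination (0.81 ^ 2 * L) * hββ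
      rw [h7] at h6
      have h8 := num4 e T μ h.e_le
      norm_num at h6 h8
      linarith only [hL0, hL1, h5, h6, h8]
  · -- order at least seven
    have hcs := Real.cos_sq_add_sin_sq (2 * π / (n:ℝ))
    have hc61 := cos_seven hn
    obtain ⟨c', hc'⟩ : ∃ c', c' = cos (2 * π / n) := ⟨_, rfl⟩
    obtain ⟨s', hs'⟩ : ∃ s', s' = sin (2 * π / n) := ⟨_, rfl⟩
    have hinv := hb.inv
    have hs0 : 0 < s' := by
      rw [hs']
      have hn' : (7:ℝ) ≤ n := by exact_mod_cast hn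
      have hpi := Real.pi_pos
      apply Real.sin_pos_of_pos_of_lt_pi
      · positivity
      · rw [div_lt_iff₀ (by linarith only [hn'])]
        have := mul_le_mul_of_nonneg_left hn' hpi.le
        linarith only [hpi, this]
    rw [← hc'] at hcs hc61 hinv
    rw [← hs'] at hcs hinv
    have hc1' : c' < 1 := by
      have h5 := pow_pos hs0 2
      exact lt_of_pow_lt_pow_left₀ 2 zero_le_one (by linarith only [hcs, h5])
    have hy := hinv m hmle (by rw [hm, add_sub_cancel]; exact h.ring (-1))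
    obtain ⟨r, hr⟩ : ∃ r, r = rot b c' s' m := ⟨_, rfl⟩
    rw [← hr] at hy
    have hrr : dot r r = L := by rw [hr, dot_rot_rot b hb.unit _ _ hcs, hmm]
    have hrm : dot (r - m) (r - m) = 2 * (1 - c') * (1.25 * μ ^ 2) := by
      rw [hr, dot_rot_sub b hb.unit _ _ hcs, hmm, hb_m2, hperp]
    have hyx : μ • W 0 + r - μ • W (-1) = r - m := by rw [hm]; abel
    have hle : dot (r - m) (r - m) ≤ 0.975 * μ ^ 2 := by
      have h5 : (1 - c') * μ ^ 2 ≤ 0.39 * μ ^ 2 :=
        mul_le_mul_of_nonneg_right (by linarith only [hc61]) hμ2.le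
      rw [hrm]; linarith only [h5]
    have hzw := h.zw (-1) b' n' hb' _ hy (by rw [hyx]; linarith only [hL1, hL2, hle])
    rw [hyx] at hzw
    rcases hzw with h5 | h5
    · have h6 := (rho2_eq_zero hb'.unit).1 h5
      obtain ⟨t, ht⟩ : ∃ t, r - m = t • m := by
        refine ⟨dot b' (r - m) * β'⁻¹, ?_⟩
        rw [mul_smul, ← hbm]; exact h6
      have h7 : r = (1 + t) • m := by
        rw [add_smul, one_smul, ← ht]; abel
      have h8 : (1 + t) ^ 2 * L = L := by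
        rw [h7, dot_smul_left, dot_smul_right, hmm] at hrr; linarith only [hrr]
      have h9 : t * (t + 2) = 0 := by
        have : L * (t * (t + 2)) = 0 := by linarith only [h8]
        exact (mul_eq_zero.1 this).resolve_left hL0.ne'
      have h10 : dot (r - m) (r - m) = t ^ 2 * L := by
        rw [ht, dot_smul_left, dot_smul_right, hmm]; ring
      rcases mul_eq_zero.1 h9 with h11 | h11
      · rw [h11] at h10
        rw [hrm] at h10
        have : 0 < 2 * (1 - c') * (1.25 * μ ^ 2) := by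
          have : 0 < 1 - c' := by linarith only [hc1']
          positivity
        linarith only [h10, this]
      · have h12 : t = -2 := by linarith only [h11]
        rw [h12] at h10
        norm_num at h10
        linarith only [hL0, hL2, hle, h10]
    · have h6 := rho2_le b' (r - m)
      have h8 := num4 e T μ h.e_le
      norm_num at h8
      linarith only [hL0, hL1, hle, h5, h6, h8]

end

end Pool.Agent.Lib.MP_c5a075_co
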