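import Pool.Agent.Lib.MP_c5a075_co.Chord
import Pool.Agent.Lib.MP_c5a075_co.NIneq0
import Pool.Agent.Lib.MP_c5a075_co.RingAlg
import Pool.Agent.Lib.MP_c5a075_co.I5

/-! Ring argument: the unmatched case. -/

set_option autoImplicit false

namespace Pool.Agent.Lib.MP_c5a075_co

noncomputable section

open Real

lemma vis0 {μ : ℝ} (h0 : 0 < μ) (h : μ ≤ 1.7) : 2 * (1 - c5) * μ ^ 2 ≤ 4 := by
  have h5 : μ ^ 2 ≤ 1.7 ^ 2 := pow_le_pow_left₀ h0.le h 2
  have hc1 := c5_gt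
  nlinarith

lemma T2_le {e T k : ℝ} (h8 : e ≤ 1 / 5000) (h : k ≤ k - T ^ 2 + e * (1 + T ^ 2)) :
    T ^ 2 ≤ 2 * e := by
  have h1 := mul_le_mul_of_nonneg_right h8 (sq_nonneg T)
  have h2 := sq_nonneg T
  linarith

lemma dot_u (μ : ℝ) : dot (μ • W 1 - μ • W 0) (μ • W 1 - μ • W 0) = 2 * (1 - c5) * μ ^ 2 := by
  rw [W_zero, W_one]
  simp only [dot, sub_0, sub_1, sub_2, smul_0, smul_1, smul_2, vec_0, vec_1, vec_2]
  have := s5_sq'
  have := c5_sq
  linear_combination μ ^ 2 * s5_sq' + μ ^ 2 * c5_sq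

lemma dot_u' (μ : ℝ) : dot (μ • W (-1) - μ • W 0) (μ • W (-1) - μ • W 0) = 2 * (1 - c5) * μ ^ 2 := by
  rw [W_zero, W_neg_one]
  simp only [dot, sub_0, sub_1, sub_2, smul_0, smul_1, smul_2, vec_0, vec_1, vec_2]
  linear_combination μ ^ 2 * s5_sq' + μ ^ 2 * c5_sq

/-- Visibility of the image points. -/
lemma RingHyp.vis_of {X : Set E3} {μ T e H : ℝ} (h : RingHyp X μ T e H) (hT : T ≤ 0.62) {z : E3}
    (hd : dot (z - μ • W 0) (z - μ • W 0) = 2 * (1 - c5) * μ ^ 2)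
    (h1 : z 0 + T * z 2 ≤ (c5 - 1 / 1000) * μ) (h2 : T = 0 → z 0 ≤ 0.1141 * μ) :
    dot z z + 2 * H * z 2 + H ^ 2 ≤ 4 := by
  have hμ := h.μ_pos
  have hc1 := c5_gt
  have hc2 := c5_lt
  have hμ2 : 0 < μ ^ 2 := by positivity
  have hd' : dot (z - μ • W 0) (z - μ • W 0) = dot z z - 2 * μ * z 0 + μ ^ 2 := by
    rw [W_zero]
    simp only [dot, sub_0, sub_1, sub_2, smul_0, smul_1, smul_2, vec_0, vec_1, vec_2]; ring
  have hzz : dot z z = (1 - 2 * c5) * μ ^ 2 + 2 * μ * z 0 := by linarith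
  have hz02 : z 0 ^ 2 + z 2 ^ 2 ≤ dot z z := by
    simp only [dot]; have := sq_nonneg (z 1); linarith
  have hL : 2 * (1 - c5) * μ ^ 2 ≤ 1.382 * μ ^ 2 :=
    mul_le_mul_of_nonneg_right (by linarith) hμ2.le
  have hL' : (1 - 2 * c5) * μ ^ 2 ≤ 0.382 * μ ^ 2 :=
    mul_le_mul_of_nonneg_right (by linarith) hμ2.le
  rcases h.vis with ⟨hH, hμ1⟩ | ⟨hT0, hH, hv⟩
  · rw [hH]
    have h3 : z 2 ^ 2 ≤ (1.18 * μ) ^ 2 := by
      have h4 : (z 0 - μ) ^ 2 + z 2 ^ 2 ≤ dot (z - μ • W 0) (z - μ • W 0) := by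
        rw [hd']; nlinarith only [hz02]
      have := sq_nonneg (z 0 - μ)
      rw [hd] at h4
      rw [mul_pow]; norm_num
      linarith
    have h4 : -(1.18 * μ) ≤ z 2 := (abs_le.1 (abs_le_of_sq_le_sq h3 (by positivity))).1
    have h5 : T * (1.18 * μ) ≤ 0.62 * (1.18 * μ) := mul_le_mul_of_nonneg_right hT (by positivity)
    have h6 : z 0 ≤ 1.05 * μ := by
      have h7 : -(T * (1.18 * μ)) ≤ T * z 2 := by
        have := mul_le_mul_of_nonneg_left h4 h.T_nn
        linarith only [this]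
      have h8 : (c5 - 1 / 1000) * μ ≤ 0.3084 * μ := mul_le_mul_of_nonneg_right (by linarith only [hc2]) hμ.le
      linarith
    have h7 : 2 * μ * z 0 ≤ 2.1 * μ ^ 2 := by
      have := mul_le_mul_of_nonneg_left h6 hμ.le
      linarith only [this]
    have h8 : μ ^ 2 ≤ 1.25 ^ 2 := pow_le_pow_left₀ hμ.le hμ1 2
    rw [hzz]
    norm_num at h8 ⊢
    linarith only [hL', h7, h8]
  · have h3 := h2 hT0
    have h4 : 2 * μ * z 0 ≤ 0.2282 * μ ^ 2 := by
      have := mul_le_mul_of_nonneg_left h3 hμ.le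
      linarith only [this]
    have h5 : z 2 ^ 2 ≤ (0.774 * μ) ^ 2 := by
      have h6 : (0.8859 * μ) ^ 2 ≤ (μ - z 0) ^ 2 := pow_le_pow_left₀ (by positivity) (by linarith) 2
      have h7 : z 2 ^ 2 ≤ (1 - 2 * c5) * μ ^ 2 + μ ^ 2 - (μ - z 0) ^ 2 := by
        have : (μ - z 0) ^ 2 = μ ^ 2 - 2 * μ * z 0 + z 0 ^ 2 := by ring
        rw [this]; linarith only [hzz, hz02]
      rw [mul_pow] at h6 ⊢
      norm_num at h6 ⊢
      linarith only [hμ2, hL', h7, h6]
    have h6 : z 2 ≤ 0.774 * μ := (abs_le.1 (abs_le_of_sq_le_sq h5 (by positivity))).2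
    have h7 := mul_le_mul_of_nonneg_left h6 hH
    rw [hzz]
    linarith

/-- The chord bound for axes of order at least seven. -/
lemma RingHyp.chord7 {X : Set E3} {μ T e H : ℝ} (h : RingHyp X μ T e H) {b : E3} {n : ℕ}
    (hn : 7 ≤ n) (hb : Ax X (μ • W 0) b n) {j : ℤ} {v : E3} (hv : v = μ • W j - μ • W 0)
    (hvv : dot v v ≤ 4) (h1 : rho2 b v ≠ 0) : 1.281 * μ ^ 2 ≤ rho2 b v := by
  by_contra hcon
  push Not at hcon
  obtain ⟨b1, n1, hb1⟩ := h.flag j
  have hμ2 : 0 < μ ^ 2 := pow_pos h.μ_pos 2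
  have hw : μ • W 0 + v = μ • W j := by rw [hv]; abel
  have hmem : μ • W 0 + v ∈ X := by rw [hw]; exact h.ring j
  have := chord_order hb hmem hvv h1 hb1.unit (by
    intro z hz hle
    rw [hw] at hle ⊢
    rcases h.zw j b1 n1 hb1 z hz (by linarith) with h5 | h5
    · exact h5
    · exfalso
      have h6 := rho2_le b1 (z - μ • W j)
      have h7 : (1 - 1 / 5000) * μ ^ 2 ≤ (1 - e) * (1 + T ^ 2) * μ ^ 2 := by
        have h1 := sq_nonneg T
        have h2 : (1 - 1 / 5000) * 1 ≤ (1 - e) * (1 + T ^ 2) :=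
          mul_le_mul (by linarith [h.e_le]) (by linarith) (by norm_num) (by linarith [h.e_le])
        have := mul_le_mul_of_nonneg_right h2 (sq_nonneg μ)
        linarith
      norm_num at h7
      linarith)
  omega

/-- The unmatched case: the axis of a ring point meets the `z`-axis at the icosahedral angle. -/
lemma ring_unmatched {X : Set E3} {μ T e H : ℝ} (h : RingHyp X μ T e H) {b : E3} {n : ℕ}
    (hb : Ax X (μ • W 0) b n) (h1 : rho2 b (μ • W 1 - μ • W 0) ≠ 0)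
    (h2 : rho2 b (μ • W (-1) - μ • W 0) ≠ 0) :
    n = 5 ∧ T ^ 2 ≤ 2 * e ∧ ∃ σ : ℝ, (σ = 1 ∨ σ = -1) ∧ (b = vec (2 * σ * i5) 0 i5 ∨
      b = -vec (2 * σ * i5) 0 i5) ∧ vec 0 0 (σ * (2 * c5) * μ) ∈ X := by
  -- choose the sign of b
  have main : ∀ b : E3, 0 ≤ b 2 → Ax X (μ • W 0) b n → rho2 b (μ • W 1 - μ • W 0) ≠ 0 →
      rho2 b (μ • W (-1) - μ • W 0) ≠ 0 → n = 5 ∧ T ^ 2 ≤ 2 * e ∧ ∃ σ : ℝ, (σ = 1 ∨ σ = -1) ∧
      b = vec (2 * σ * i5) 0 i5 ∧ vec 0 0 (σ * (2 * c5) * μ) ∈ X := by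
    clear hb h1 h2
    intro b hb2 hb h1 h2
    have hμ := h.μ_pos
    have hμ2 : 0 < μ ^ 2 := by positivity
    have hc1 := c5_gt
    have hc2 := c5_lt
    have hcc := c5_sq
    have hq := s5_sq'
    have hq0 := s5_pos
    have hunit : b 0 ^ 2 + b 1 ^ 2 + b 2 ^ 2 = 1 := by
      have := hb.unit
      simp only [dot] at this; linarith
    -- constraints
    have hle1 : dot (μ • W 1 - μ • W 0) (μ • W 1 - μ • W 0) ≤ 1.382 * μ ^ 2 := by
      rw [dot_u]; exact mul_le_mul_of_nonneg_right (by linarith) hμ2.le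
    have hle2 : dot (μ • W (-1) - μ • W 0) (μ • W (-1) - μ • W 0) ≤ 1.382 * μ ^ 2 := by
      rw [dot_u']; exact mul_le_mul_of_nonneg_right (by linarith) hμ2.le
    have g1 := (h.zw 0 b n hb _ (h.ring 1) hle1).resolve_left h1
    have g2 := (h.zw 0 b n hb _ (h.ring (-1)) hle2).resolve_left h2
    have d1 : dot b (μ • W 1 - μ • W 0) = μ * (-(1 - c5) * b 0 + s5 * b 1) := by
      rw [W_zero, W_one]
      simp only [dot, sub_0, sub_1, sub_2, smul_0, smul_1, smul_2, vec_0, vec_1, vec_2]; ring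
    have d2 : dot b (μ • W (-1) - μ • W 0) = μ * (-(1 - c5) * b 0 - s5 * b 1) := by
      rw [W_zero, W_neg_one]
      simp only [dot, sub_0, sub_1, sub_2, smul_0, smul_1, smul_2, vec_0, vec_1, vec_2]; ring
    rw [rho2, dot_u, d1] at g1
    rw [rho2, dot_u', d2] at g2
    have hp : (-(1 - c5) * b 0 + s5 * b 1) ^ 2 ≤ (1 - 2 * c5) - T ^ 2 + e * (1 + T ^ 2) := by
      have : μ ^ 2 * (-(1 - c5) * b 0 + s5 * b 1) ^ 2 ≤
          μ ^ 2 * ((1 - 2 * c5) - T ^ 2 + e * (1 + T ^ 2)) := by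
        rw [mul_pow] at g1; linarith
      exact le_of_mul_le_mul_left this hμ2
    have hm : (-(1 - c5) * b 0 - s5 * b 1) ^ 2 ≤ (1 - 2 * c5) - T ^ 2 + e * (1 + T ^ 2) := by
      have : μ ^ 2 * (-(1 - c5) * b 0 - s5 * b 1) ^ 2 ≤
          μ ^ 2 * ((1 - 2 * c5) - T ^ 2 + e * (1 + T ^ 2)) := by
        rw [mul_pow] at g2; linarith
      exact le_of_mul_le_mul_left this hμ2
    have F1 := n_ineq (b 0) (b 1) (b 2) T e hunit hb2 h.T_nn h.e_nn h.e_le hp hm
    have F2 := n_ineq (b 0) (-(b 1)) (b 2) T e (by rw [neg_sq]; exact hunit) hb2 h.T_nn h.e_nn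
      h.e_le (by convert hm using 2; ring) (by convert hp using 2; ring)
    have P1 := P_nonneg c5 (b 0) (b 1) (b 2) T e _ hc1 hc2 hunit h.e_le hp
    have P2 := P_nonneg c5 (b 0) (b 1) (b 2) T e (-(1 - c5) * b 0 - s5 * b 1) hc1 hc2 hunit
      h.e_le hm
    have hT62 : T ≤ 0.62 := by
      have h5 := rT_bound c5 _ T e (by linarith only [hc1]) h.e_le (sq_nonneg _) hp
      have h6 := sq_nonneg (-(1 - c5) * b 0 + s5 * b 1)
      have h7 : T ^ 2 ≤ 0.62 ^ 2 := by norm_num; linarith only [h5, h6]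
      exact le_of_sq_le_sq h7 (by norm_num)
    -- general membership statement
    have hmem : ∀ c' s' : ℝ, c' ^ 2 + s' ^ 2 = 1 → Inv X (μ • W 0) b c' s' →
        Inv X (μ • W 0) b c' (-s') →
        (1 - c') * ((1 - c5) + (-(1 - c5) * b 0 + s5 * b 1) * (b 0 + T * b 2)) -
          s' * (s5 * b 2 - T * (s5 * b 0 + (1 - c5) * b 1)) ≤ -1 / 1000 →
        (1 - c') * ((1 - c5) + (-(1 - c5) * b 0 - s5 * b 1) * (b 0 + T * b 2)) -
          s' * (s5 * b 2 - T * (s5 * b 0 - (1 - c5) * b 1)) ≤ -1 / 1000 →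
        (T = 0 → (1 - c') * ((1 - c5) + (-(1 - c5) * b 0 + s5 * b 1) * b 0) -
          s' * (s5 * b 2) ≤ -195 / 1000 ∧
          (1 - c') * ((1 - c5) + (-(1 - c5) * b 0 - s5 * b 1) * b 0) -
          s' * (s5 * b 2) ≤ -195 / 1000) →
        (1 + (c' * (-(1 - c5)) + (1 - c') * (-(1 - c5) * b 0 + s5 * b 1) * b 0 -
          s' * (s5 * b 2)) = 0 ∧
        c' * s5 + (1 - c') * (-(1 - c5) * b 0 + s5 * b 1) * b 1 - s' * ((1 - c5) * b 2) = 0 ∧
        1 + (c' * (-(1 - c5)) + (1 - c') * (-(1 - c5) * b 0 - s5 * b 1) * b 0 -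
          s' * (s5 * b 2)) = 0 ∧
        -(c' * s5) + (1 - c') * (-(1 - c5) * b 0 - s5 * b 1) * b 1 + s' * ((1 - c5) * b 2) = 0) ∧
        μ • W 0 + rot b c' s' (μ • W 1 - μ • W 0) ∈ X := by
      intro c' s' hcs i1 i2 f1 f2 f3
      have h4 : 2 * (1 - c5) * μ ^ 2 ≤ 4 := vis0 hμ h.μ_le
      have m1 := i1 (μ • W 1 - μ • W 0) (by rw [dot_u]; exact h4)
        (by rw [add_sub_cancel]; exact h.ring 1)
      have m2 := i2 (μ • W (-1) - μ • W 0) (by rw [dot_u']; exact h4)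
        (by rw [add_sub_cancel]; exact h.ring (-1))
      have hcs' : c' ^ 2 + (-s') ^ 2 = 1 := by rw [neg_sq]; exact hcs
      -- coordinates
      have w0 : (μ • W 0) 0 = μ := by rw [W_zero]; simp
      have w1 : (μ • W 0) 1 = 0 := by rw [W_zero]; simp
      have w2 : (μ • W 0) 2 = 0 := by rw [W_zero]; simp
      have u0 : (μ • W 1 - μ • W 0) 0 = μ * (-(1 - c5)) := by
        rw [W_zero, W_one]; simp; ring
      have u1 : (μ • W 1 - μ • W 0) 1 = μ * s5 := by rw [W_zero, W_one]; simp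
      have u2 : (μ • W 1 - μ • W 0) 2 = 0 := by rw [W_zero, W_one]; simp
      have v0 : (μ • W (-1) - μ • W 0) 0 = μ * (-(1 - c5)) := by
        rw [W_zero, W_neg_one]; simp; ring
      have v1 : (μ • W (-1) - μ • W 0) 1 = -(μ * s5) := by rw [W_zero, W_neg_one]; simp
      have v2 : (μ • W (-1) - μ • W 0) 2 = 0 := by rw [W_zero, W_neg_one]; simp
      have z10 : (μ • W 0 + rot b c' s' (μ • W 1 - μ • W 0)) 0 = μ * (1 + (c' * (-(1 - c5)) +
          (1 - c') * (-(1 - c5) * b 0 + s5 * b 1) * b 0 - s' * (s5 * b 2))) := by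
        rw [add_0, rot_0, d1, u0, u1, u2, w0]; ring
      have z11 : (μ • W 0 + rot b c' s' (μ • W 1 - μ • W 0)) 1 = μ * (c' * s5 +
          (1 - c') * (-(1 - c5) * b 0 + s5 * b 1) * b 1 - s' * ((1 - c5) * b 2)) := by
        rw [add_1, rot_1, d1, u0, u1, u2, w1]; ring
      have z12 : (μ • W 0 + rot b c' s' (μ • W 1 - μ • W 0)) 2 = μ * (
          (1 - c') * (-(1 - c5) * b 0 + s5 * b 1) * b 2 + s' * (s5 * b 0 + (1 - c5) * b 1)) := by
        rw [add_2, rot_2, d1, u0, u1, u2, w2]; ring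
      have z20 : (μ • W 0 + rot b c' (-s') (μ • W (-1) - μ • W 0)) 0 = μ * (1 + (c' * (-(1 - c5)) +
          (1 - c') * (-(1 - c5) * b 0 - s5 * b 1) * b 0 - s' * (s5 * b 2))) := by
        rw [add_0, rot_0, d2, v0, v1, v2, w0]; ring
      have z21 : (μ • W 0 + rot b c' (-s') (μ • W (-1) - μ • W 0)) 1 = μ * (-(c' * s5) +
          (1 - c') * (-(1 - c5) * b 0 - s5 * b 1) * b 1 + s' * ((1 - c5) * b 2)) := by
        rw [add_1, rot_1, d2, v0, v1, v2, w1]; ring
      have z22 : (μ • W 0 + rot b c' (-s') (μ • W (-1) - μ • W 0)) 2 = μ * (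
          (1 - c') * (-(1 - c5) * b 0 - s5 * b 1) * b 2 + s' * (s5 * b 0 - (1 - c5) * b 1)) := by
        rw [add_2, rot_2, d2, v0, v1, v2, w2]; ring
      have dW : ∀ v : E3, dot v (W 0) = v 0 := by intro v; rw [W_zero]; simp [dot]
      have g1 := mul_le_mul_of_nonneg_left f1 hμ.le
      have g2 := mul_le_mul_of_nonneg_left f2 hμ.le
      have q1 : dot (μ • W 0 + rot b c' s' (μ • W 1 - μ • W 0) - μ • W 0)
          (μ • W 0 + rot b c' s' (μ • W 1 - μ • W 0) - μ • W 0) = 2 * (1 - c5) * μ ^ 2 := by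
        rw [add_sub_cancel_left, dot_rot_rot b hb.unit c' s' hcs, dot_u]
      have q2 : dot (μ • W 0 + rot b c' (-s') (μ • W (-1) - μ • W 0) - μ • W 0)
          (μ • W 0 + rot b c' (-s') (μ • W (-1) - μ • W 0) - μ • W 0) = 2 * (1 - c5) * μ ^ 2 := by
        rw [add_sub_cancel_left, dot_rot_rot b hb.unit c' (-s') hcs', dot_u']
      have p1 : (μ • W 0 + rot b c' s' (μ • W 1 - μ • W 0)) 0 +
          T * (μ • W 0 + rot b c' s' (μ • W 1 - μ • W 0)) 2 ≤ (c5 - 1 / 1000) * μ := by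
        rw [z10, z12]; linarith only [g1]
      have p2 : (μ • W 0 + rot b c' (-s') (μ • W (-1) - μ • W 0)) 0 +
          T * (μ • W 0 + rot b c' (-s') (μ • W (-1) - μ • W 0)) 2 ≤ (c5 - 1 / 1000) * μ := by
        rw [z20, z22]; linarith only [g2]
      have r1 := h.zx 0 _ m1 q1 (by rw [dW]; exact p1) (h.vis_of hT62 q1 p1 (by
        intro hT0
        have g3 := mul_le_mul_of_nonneg_left (f3 hT0).1 hμ.le
        have g4 : (c5 - 195 / 1000) * μ ≤ 0.1141 * μ := mul_le_mul_of_nonneg_right (by linarith only [hc2]) hμ.le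
        rw [z10]; linarith only [g3, g4]))
      have r2 := h.zx 0 _ m2 q2 (by rw [dW]; exact p2) (h.vis_of hT62 q2 p2 (by
        intro hT0
        have g3 := mul_le_mul_of_nonneg_left (f3 hT0).2 hμ.le
        have g4 : (c5 - 195 / 1000) * μ ≤ 0.1141 * μ := mul_le_mul_of_nonneg_right (by linarith only [hc2]) hμ.le
        rw [z20]; linarith only [g3, g4]))
      rw [z10, z11] at r1
      rw [z20, z21] at r2
      exact ⟨⟨(mul_eq_zero.1 r1.1).resolve_left hμ.ne', (mul_eq_zero.1 r1.2).resolve_left hμ.ne',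
        (mul_eq_zero.1 r2.1).resolve_left hμ.ne', (mul_eq_zero.1 r2.2).resolve_left hμ.ne'⟩, m1⟩
    have F2' : (1 - c5) * ((1 - c5) + (-(1 - c5) * b 0 - s5 * b 1) * (b 0 + T * b 2)) -
        s5 * (s5 * b 2 - T * (s5 * b 0 - (1 - c5) * b 1)) ≤ -1 / 500 := by
      refine le_trans (le_of_eq ?_) F2; ring
    rcases hb.ord with hn | hn
    · subst hn
      obtain ⟨i1, i2, -, -⟩ := hb.five
      have f3 : T = 0 → (1 - c5) * ((1 - c5) + (-(1 - c5) * b 0 + s5 * b 1) * b 0) -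
          s5 * (s5 * b 2) ≤ -195 / 1000 ∧
          (1 - c5) * ((1 - c5) + (-(1 - c5) * b 0 - s5 * b 1) * b 0) -
          s5 * (s5 * b 2) ≤ -195 / 1000 := by
        intro hT0
        have hp' := hp
        have hm' := hm
        rw [hT0] at hp' hm'
        norm_num at hp' hm'
        constructor
        · exact n_ineq0 (b 0) (b 1) (b 2) e hunit hb2 h.e_le (by linarith only [hp']) (by linarith only [hm'])
        · have := n_ineq0 (b 0) (-(b 1)) (b 2) e (by rw [neg_sq]; exact hunit) hb2 h.e_le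
            (by
              have e9 : (-(1 - c5) * b 0 + s5 * -b 1) ^ 2 = (-(1 - c5) * b 0 - s5 * b 1) ^ 2 := by
                ring
              rw [e9]; linarith only [hm'])
            (by
              have e9 : (-(1 - c5) * b 0 - s5 * -b 1) ^ 2 = (-(1 - c5) * b 0 + s5 * b 1) ^ 2 := by
                ring
              rw [e9]; linarith only [hp'])
          linarith only [this]
      obtain ⟨⟨E1, E2, E3, E4⟩, hz⟩ := hmem c5 s5 c5_sq_add i1 i2 (by linarith only [F1]) (by linarith only [F2']) f3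
      obtain ⟨a1, a2, a3⟩ := alg5 c5 s5 (b 0) (b 1) (b 2) hc1 hc2 hcc hq hq0 hunit hb2 E1 E2 E3 E4
      have hb2' : b 2 = i5 := by
        have h5 := i5_mul
        have h6 : (1 - c5) * b 2 = (1 - c5) * i5 := by rw [a2, h5]
        exact mul_left_cancel₀ one_sub_c5_pos.ne' h6
      have hT : T ^ 2 ≤ 2 * e := by
        rw [a1] at hp
        have h6 : (-(1 - c5) * b 0 + s5 * 0) ^ 2 = (1 - c5) ^ 2 * (4 * b 2 ^ 2) := by
          rw [← a3]; ring
        have h7 : (1 - c5) ^ 2 * (4 * b 2 ^ 2) = 4 * c5 ^ 2 := by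
          have : ((1 - c5) * b 2) ^ 2 = c5 ^ 2 := by rw [a2]
          linear_combination 4 * this
        rw [h6, h7, hcc] at hp
        exact T2_le (k := 1 - 2 * c5) h.e_le (by linarith only [hp])
      refine ⟨rfl, hT, ?_⟩
      have hb0 : b 0 = 2 * i5 ∨ b 0 = -(2 * i5) := by
        rw [hb2'] at a3
        have : b 0 ^ 2 = (2 * i5) ^ 2 := by rw [a3]; ring
        exact sq_eq_sq_iff_eq_or_eq_neg.1 this
      -- the point on the axis
      have hzc : ∀ σ : ℝ, b 0 = 2 * σ * i5 → μ • W 0 + rot b c5 s5 (μ • W 1 - μ • W 0) =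
          vec 0 0 (σ * (2 * c5) * μ) := by
        intro σ hσ
        apply ext3
        · rw [add_0, rot_0, d1, W_zero, W_one]
          simp only [sub_0, sub_1, sub_2, smul_0, smul_1, smul_2, vec_0, vec_1, vec_2]
          linear_combination μ * E1
        · rw [add_1, rot_1, d1, W_zero, W_one]
          simp only [sub_0, sub_1, sub_2, smul_0, smul_1, smul_2, vec_0, vec_1, vec_2]
          linear_combination μ * E2
        · rw [add_2, rot_2, d1, W_zero, W_one]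
          simp only [sub_0, sub_1, sub_2, smul_0, smul_1, smul_2, vec_0, vec_1, vec_2]
          rw [a1, hσ, hb2']
          have h5 := i5_mul
          linear_combination 2 * σ * μ * (-((1 - c5) * i5 + c5) * h5 + (1 + c5) * h5 +
            i5 * (hq + hcc))
      rcases hb0 with hb0 | hb0
      · refine ⟨1, Or.inl rfl, ?_, ?_⟩
        · apply ext3
          · simp only [vec_0]; rw [hb0]; ring
          · simp only [vec_1]; exact a1
          · simp only [vec_2]; exact hb2'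
        · rw [← hzc 1 (by rw [hb0]; ring)]; exact hz
      · refine ⟨-1, Or.inr rfl, ?_, ?_⟩
        · apply ext3
          · simp only [vec_0]; rw [hb0]; ring
          · simp only [vec_1]; exact a1
          · simp only [vec_2]; exact hb2'
        · rw [← hzc (-1) (by rw [hb0]; ring)]; exact hz
    · exfalso
      obtain ⟨k, hk1, hk2⟩ := exists_mult hn
      have i1 := hb.pow k
      have i2 := hb.pow (-k)
      have e1 : ((-k : ℤ) : ℝ) * (2 * π / n) = -(k * (2 * π / n)) := by push_cast; ring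
      rw [e1, Real.cos_neg, Real.sin_neg] at i2
      have hcs := Real.cos_sq_add_sin_sq ((k:ℝ) * (2 * π / n))
      have f1 := F_small (1 - c5) s5 _ _ _ _ (by linarith only [hc2]) (by linarith [s5_lt]) hq0 P1 F1 hk1 hk2 hcs
      have f2 := F_small (1 - c5) s5 _ _ _ _ (by linarith only [hc2]) (by linarith [s5_lt]) hq0 P2 F2' hk1 hk2 hcs
      have h4 : 2 * (1 - c5) * μ ^ 2 ≤ 4 := vis0 hμ h.μ_le
      have k1 := h.chord7 hn hb (j := 1) rfl (by rw [dot_u]; exact h4) h1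
      have k2 := h.chord7 hn hb (j := -1) rfl (by rw [dot_u']; exact h4) h2
      rw [rho2, dot_u, d1] at k1
      rw [rho2, dot_u', d2] at k2
      have hp' : (-(1 - c5) * b 0 + s5 * b 1) ^ 2 ≤ 0.1011 := by
        have : μ ^ 2 * (-(1 - c5) * b 0 + s5 * b 1) ^ 2 ≤ μ ^ 2 * 0.1011 := by
          have h5 : 2 * (1 - c5) * μ ^ 2 ≤ 1.382 * μ ^ 2 :=
            mul_le_mul_of_nonneg_right (by linarith only [hc1]) hμ2.le
          rw [mul_pow] at k1; linarith only [hμ2, k1, h5]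
        exact le_of_mul_le_mul_left this hμ2
      have hm' : (-(1 - c5) * b 0 - s5 * b 1) ^ 2 ≤ 0.1011 := by
        have : μ ^ 2 * (-(1 - c5) * b 0 - s5 * b 1) ^ 2 ≤ μ ^ 2 * 0.1011 := by
          have h5 : 2 * (1 - c5) * μ ^ 2 ≤ 1.382 * μ ^ 2 :=
            mul_le_mul_of_nonneg_right (by linarith only [hc1]) hμ2.le
          rw [mul_pow] at k2; linarith only [hμ2, k2, h5]
        exact le_of_mul_le_mul_left this hμ2
      have f3 := n_ineq7 (b 0) (b 1) (b 2) _ _ hunit hb2 hk1 hk2 hcs hp' hm'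
      have f4 := n_ineq7 (b 0) (-(b 1)) (b 2) _ _ (by rw [neg_sq]; exact hunit) hb2 hk1 hk2 hcs
        (by
          have e9 : (-(1 - c5) * b 0 + s5 * -b 1) ^ 2 = (-(1 - c5) * b 0 - s5 * b 1) ^ 2 := by
            ring
          rw [e9]; linarith only [hm'])
        (by
          have e9 : (-(1 - c5) * b 0 - s5 * -b 1) ^ 2 = (-(1 - c5) * b 0 + s5 * b 1) ^ 2 := by
            ring
          rw [e9]; linarith only [hp'])
      obtain ⟨⟨E1, E2, E3, E4⟩, -⟩ := hmem _ _ hcs i1 i2 f1 f2 (fun _ => ⟨f3, by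
        refine le_trans (le_of_eq ?_) f4; ring⟩)
      exact alg7 c5 s5 _ _ (b 0) (b 1) (b 2) hc1 hc2 hcc hq hq0 hk1 (by linarith only [hk2]) hcs hunit E1 E2 E3 E4
  rcases le_total 0 (b 2) with h3 | h3
  · obtain ⟨a1, a2, σ, a3, a4, a5⟩ := main b h3 hb h1 h2
    exact ⟨a1, a2, σ, a3, Or.inl a4, a5⟩
  · obtain ⟨a1, a2, σ, a3, a4, a5⟩ := main (-b) (by simpa using h3) hb.neg
      (by rwa [rho2_neg_axis]) (by rwa [rho2_neg_axis])
    exact ⟨a1, a2, σ, a3, Or.inr (by rw [← a4, neg_neg]), a5⟩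

end

end Pool.Agent.Lib.MP_c5a075_co
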