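import Pool.Agent.Lib.MP_c5a075_co.NodeA

/-! Selection of the near-minimal pair in Regime A. -/

set_option autoImplicit false

namespace Pool.Agent.Lib.MP_c5a075_co

noncomputable section

open Real

lemma bas_of_region {X : Set E3} {y0 : E3} {K : ℝ} (hR : Region X y0 K) (F : Fr)
    (hd : dist F.o y0 + 10 ≤ K) : Bas (F.pull X) where
  sep := F.sep_pull hR.sep
  cov := F.cov_pull hR.cov
  bad := by
    intro x hx hxx
    have e1 : F.o = F.map 0 := by rw [Fr.map, Fr.lin_zero, add_zero]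
    have e2 : dist (F.map x) F.o ≤ 10 := by
      rw [e1, F.dist_map, dist_le_iff _ _ (by norm_num), sub_zero]
      linarith
    obtain ⟨a, n, ha⟩ := hR.bad (F.map x) hx (by
      have := dist_triangle (F.map x) F.o y0
      linarith)
    exact ⟨F.co a, n, F.ax_pull (by rw [F.lin_co]; exact ha)⟩

/-- The near-minimal pair of Regime A. -/
theorem selA {X : Set E3} {y0 : E3} {K : ℝ} (hR : Region X y0 K) (hK : 1000000000 ≤ K)
    (hp : ∃ x a n, Ax X x a n ∧ dist x y0 ≤ 90000002 ∧ ∃ v ∈ X,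
      dot (v - x) (v - x) ≤ 1.2422 ^ 2 ∧ rho2 a (v - x) ≠ 0) :
    ∃ (x a w : E3) (n : ℕ) (t : ℝ), Caps X x (100 * t) t ∧ Ax X x a n ∧ w ∈ X ∧
      rho2 a (w - x) ≠ 0 ∧ InK a (w - x) t ∧ dist x y0 ≤ 300000000 := by
  obtain ⟨x0, a0, n0, hx0, hd0, v0, hv0, hv1, hv2⟩ := hp
  obtain ⟨r, hr, hsep⟩ := hR.sep
  let S : Set (E3 × E3 × ℕ × E3 × ℝ) := {p | Ax X p.1 p.2.1 p.2.2.1 ∧ dist p.1 y0 ≤ 500000000 ∧
    p.2.2.2.1 ∈ X ∧ rho2 p.2.1 (p.2.2.2.1 - p.1) ≠ 0 ∧ 0 ≤ p.2.2.2.2 ∧
    InK p.2.1 (p.2.2.2.1 - p.1) p.2.2.2.2}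
  have hp0 : ((x0, a0, n0, v0, 1.2422) : E3 × E3 × ℕ × E3 × ℝ) ∈ S :=
    ⟨hx0, by show dist x0 y0 ≤ _; linarith, hv0, hv2, by norm_num,
      InK.zero (by norm_num) hv1⟩
  obtain ⟨⟨x, a, n, w, t⟩, ⟨hx, hxd, hw, hoff, ht0, hk⟩, hdist, hle, hmin⟩ :=
    near_min S (fun p => p.1) (fun p => p.2.2.2.2) (1 / 1000000) 103 (r / 2) (by norm_num)
    (by norm_num) (by norm_num) (by positivity) (by
      rintro ⟨x, a, n, v, t⟩ ⟨h1, h2, h3, h4, h5, h6⟩
      show r / 2 ≤ t
      have hne : v ≠ x := by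
        rintro rfl
        apply h4
        show rho2 a (v - v) = 0
        rw [sub_self, rho2, dot_zero_left, dot_zero_right]; ring
      have h7 := hsep v h3 x h1.mem hne
      have h8 : dist v x ≤ 1.61 * t :=
        (dist_le_iff v x (by positivity)).2 (h6.vis h1.unit h5)
      have h9 : 0 ≤ t := h5
      linarith) _ hp0
  simp only at hx hxd hw hoff ht0 hk hdist hle hmin
  have hxy : dist x y0 ≤ 300000000 := by
    have h1 := dist_triangle x x0 y0
    have h2 : 103 * 1.2422 / (1 / 1000000) ≤ (128000000 : ℝ) := by norm_num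
    linarith
  have htpos : 0 < t := by
    rcases eq_or_lt_of_le ht0 with h | h
    · exfalso
      have hne : w ≠ x := by
        rintro rfl
        apply hoff
        rw [sub_self, rho2, dot_zero_left, dot_zero_right]; ring
      have h7 := hsep w hw x hx.mem hne
      have h8 : dist w x ≤ 1.61 * t :=
        (dist_le_iff w x (by positivity)).2 (hk.vis hx.unit ht0)
      rw [← h] at h8
      linarith
    · exact h
  refine ⟨x, a, w, n, t, ⟨htpos, by norm_num; linarith, hR.sep, hR.cov, ?_, ?_⟩, hx, hw, hoff, hk,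
    hxy⟩
  · intro x' hx' hd'
    apply hR.bad x' hx'
    have := dist_triangle x' x y0
    linarith
  · intro x' a' n' hx' hd' v' hv' hk'
    by_contra hoff'
    have h1 := hmin (x', a', n', v', (1 - 1 / 1000000) * t) ⟨hx', by
      show dist x' y0 ≤ _
      have := dist_triangle x' x y0
      linarith, hv', hoff', by show 0 ≤ (1 - 1 / 1000000) * t; positivity, hk'⟩ (by
        show dist x' x ≤ 103 * t
        linarith)
    simp only at h1
    linarith

end

end Pool.Agent.Lib.MP_c5a075_co
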