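import Pool.Agent.Lib.MP_c5a075_co.NodeB
import Pool.Agent.Lib.MP_c5a075_co.OffB
import Pool.Agent.Lib.MP_c5a075_co.SelA

/-! Stage 1 in regime B. -/

set_option autoImplicit false

namespace Pool.Agent.Lib.MP_c5a075_co

noncomputable section

open Real

/-- Stage 1 in regime B. -/
theorem stage1B {X : Set E3} {y0 : E3} {K : ℝ} (hR : Region X y0 K) (hK : 1000000000 ≤ K)
    (hB : ∀ x a n, Ax X x a n → dist x y0 ≤ 500000000 → ∀ v ∈ X, dot (v - x) (v - x) ≤ 4 →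
      rho2 a (v - x) = 0 ∨ 1.0566 ^ 2 ≤ rho2 a (v - x)) :
    ∃ (F : Fr) (a : ℝ), Bas (F.pull X) ∧ StarAx (F.pull X) a ∧ 0 < a ∧ a ≤ 1.72 ∧
      ∀ x ∈ F.pull X, x ∉ Sig → (4 / 3 * a) ^ 2 ≤ dot x x := by
  obtain ⟨μ, x, b, v, n, hT, hxy, hx, hv, hvis, hr⟩ := selB hR hK hB
  obtain ⟨hμ, F, hFo, hS⟩ := nodeB hT hx (by rw [dist_self]; norm_num) hv hvis hr
  obtain ⟨a, ha⟩ : ∃ a, a = 5 / 2 * i5 * μ := ⟨_, rfl⟩
  rw [← ha] at hS
  obtain ⟨ha0, -, ha3, -, -⟩ := pole_bounds hT.μ_ge hμ ha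
  have hT' : Tube (F.pull X) 0 20 μ := hT.frame F (by linarith)
  refine ⟨F, a, ?_, hS, ha0, ha3, fun y hy hoff => offB hT' hμ ha hS hy hoff⟩
  apply bas_of_region hR
  have := dist_triangle F.o x y0
  linarith

end

end Pool.Agent.Lib.MP_c5a075_co
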