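import Pool.Agent.Lib.MP_c5a075_co.RingBase

/-! Regime B: all visible points off an axis are far from it.  Chains of points on an axis,
full tubes around an axis. -/

set_option autoImplicit false

namespace Pool.Agent.Lib.MP_c5a075_co

noncomputable section

open Real

/-- Near-minimality of the pure distance `μ` to the axis over visible pairs. -/
structure Tube (X : Set E3) (c : E3) (K μ : ℝ) : Prop where
  μ_ge : 1.0566 ≤ μ
  sep : ∃ r : ℝ, 0 < r ∧ ∀ x ∈ X, ∀ y ∈ X, x ≠ y → r ≤ dist x y
  cov : ∀ y : E3, ∃ x ∈ X, dist x y ≤ 1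
  bad : ∀ x ∈ X, dist x c ≤ K → ∃ a n, Ax X x a n
  tube : ∀ x a n, Ax X x a n → dist x c ≤ K → ∀ v ∈ X, dot (v - x) (v - x) ≤ 4 →
    rho2 a (v - x) = 0 ∨ (1 - 1 / 1000000) * μ ^ 2 ≤ rho2 a (v - x)

/-- A unit vector orthogonal to a given one. -/
lemma exists_perp (a : E3) (ha : dot a a = 1) : ∃ e : E3, dot e e = 1 ∧ dot a e = 0 := by
  have : ∃ w : E3, cross a w ≠ 0 := by
    by_contra h
    push Not at h
    have h1 := h (vec 1 0 0)
    have h2 := h (vec 0 1 0)
    have h1' := ext3_iff.1 h1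
    have h2' := ext3_iff.1 h2
    simp at h1' h2'
    have : dot a a = 0 := by simp [dot, h1', h2']
    linarith
  obtain ⟨w, hw⟩ := this
  have hpos : 0 < dot (cross a w) (cross a w) := dot_self_pos hw
  refine ⟨(√(dot (cross a w) (cross a w)))⁻¹ • cross a w, ?_, ?_⟩
  · rw [dot_smul_left, dot_smul_right]
    have := Real.mul_self_sqrt hpos.le
    have hne : √(dot (cross a w) (cross a w)) ≠ 0 := (Real.sqrt_pos.2 hpos).ne'
    field_simp
    rw [sq]; exact this.symm
  · rw [dot_smul_right, dot_cross_left, mul_zero]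

/-- Two unit vectors, one on the axis of the other. -/
lemma eq_or_neg_of_rho2 {a b : E3} (ha : dot a a = 1) (hb : dot b b = 1) (h : rho2 b a = 0) :
    b = a ∨ b = -a := by
  have h1 := (rho2_eq_zero hb).1 h
  have h2 : dot b a ^ 2 = 1 := by
    have h3 : dot a a = dot b a ^ 2 * dot b b := by
      conv_lhs => rw [h1]
      rw [dot_smul_left, dot_smul_right]; ring
    rw [ha, hb] at h3; linarith
  have h3 : dot b a = 1 ∨ dot b a = -1 := by
    have : (dot b a - 1) * (dot b a + 1) = 0 := by ring_nf; linarith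
    rcases mul_eq_zero.1 this with h | h
    · left; linarith
    · right; linarith
  rcases h3 with h3 | h3
  · left; rw [h3, one_smul] at h1; exact h1.symm
  · right; rw [h3] at h1
    rw [h1]; simp

lemma rho2_smul (a v : E3) (k : ℝ) : rho2 a (k • v) = k ^ 2 * rho2 a v := by
  unfold rho2; rw [dot_smul_left, dot_smul_right, dot_smul_right]; ring

lemma rho2_neg (a v : E3) : rho2 a (-v) = rho2 a v := by
  unfold rho2; rw [dot_neg_left, dot_neg_right, dot_neg_right]; ring

/-- Translation along the axis. -/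
lemma rho2_sub_axis (a v : E3) (ha : dot a a = 1) (t : ℝ) : rho2 a (v - t • a) = rho2 a v := by
  unfold rho2
  simp only [dot_sub_left, dot_sub_right, dot_smul_left, dot_smul_right, ha, dot_comm v a]
  ring

lemma dist_add_smul (x a : E3) (ha : dot a a = 1) (t : ℝ) : dist (x + t • a) x = |t| := by
  rw [dist_eq_norm, add_sub_cancel_left, norm_eq_sqrt, dot_smul_left, dot_smul_right, ha, mul_one,
    ← sq, Real.sqrt_sq_eq_abs]

namespace Tube

variable {X : Set E3} {c : E3} {K μ : ℝ}

lemma pull (H : Tube X c K μ) (F : Fr) : Tube (F.pull X) (F.inv c) K μ where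
  μ_ge := H.μ_ge
  sep := F.sep_pull H.sep
  cov := F.cov_pull H.cov
  bad := by
    intro x hx hd
    have hd' : dist (F.map x) c ≤ K := by
      rw [← F.dist_map, F.map_inv] at hd; exact hd
    obtain ⟨a, n, ha⟩ := H.bad (F.map x) hx hd'
    refine ⟨F.co a, n, ?_⟩
    apply F.ax_pull
    rw [F.lin_co]; exact ha
  tube := by
    intro x a n hx hd v hv hvis
    have hd' : dist (F.map x) c ≤ K := by
      rw [← F.dist_map, F.map_inv] at hd; exact hd
    have h1 := H.tube (F.map x) (F.lin a) n (F.ax_push hx) hd' (F.map v) hv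
      (by rw [F.map_sub, F.dot_lin]; exact hvis)
    rw [F.map_sub, F.rho2_lin] at h1
    exact h1

lemma mono {K' : ℝ} (H : Tube X c K μ) (h : K' ≤ K) : Tube X c K' μ where
  μ_ge := H.μ_ge
  sep := H.sep
  cov := H.cov
  bad := fun x hx hd => H.bad x hx (hd.trans h)
  tube := fun x a n hx hd => H.tube x a n hx (hd.trans h)

lemma recenter {c' : E3} {K' : ℝ} (H : Tube X c K μ) (h : dist c' c + K' ≤ K) :
    Tube X c' K' μ where
  μ_ge := H.μ_ge
  sep := H.sep
  cov := H.cov
  bad := fun x hx hd => H.bad x hx (by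
    have := dist_triangle x c' c
    linarith)
  tube := fun x a n hx hd => H.tube x a n hx (by
    have := dist_triangle x c' c
    linarith)

/-- Every axis carries a further point of `X` at distance at most `2 z`. -/
lemma gap (H : Tube X c K μ) {x a : E3} {n : ℕ} (hx : Ax X x a n) (hd : dist x c ≤ K)
    {r z : ℝ} (hr : 0 ≤ r) (hz : 0 < z) (hrz : r ^ 2 + z ^ 2 = 1)
    (hrμ : (1 + r) ^ 2 < (1 - 1 / 1000000) * μ ^ 2) :
    ∃ s : ℝ, 0 < s ∧ s ≤ 2 * z ∧ x + s • a ∈ X := by
  have ha := hx.unit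
  obtain ⟨e, he, hae⟩ := exists_perp a ha
  obtain ⟨m, hm⟩ : ∃ m : E3, m = r • e + z • a := ⟨_, rfl⟩
  have hmm : dot m m = 1 := by
    rw [hm]
    simp only [dot_add_left, dot_add_right, dot_smul_left, dot_smul_right, he, ha, hae,
      dot_comm e a]
    linarith
  have hm0 : m ≠ 0 := by
    intro h; rw [h] at hmm; simp [dot] at hmm
  obtain ⟨q, hq, hq1, hq2⟩ := cov_dir H.sep H.cov (x + m) m hm0
  obtain ⟨w, hw⟩ : ∃ w, w = q - x := ⟨_, rfl⟩
  have hqm : q - (x + m) = w - m := by rw [hw]; abel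
  rw [hqm] at hq1 hq2
  have hexp : dot (w - m) (w - m) = dot w w - 2 * dot w m + 1 := by
    rw [dot_sub_left, dot_sub_right, dot_sub_right, hmm, dot_comm m w]; ring
  have hcs := dot_sq_le w m
  rw [hmm, mul_one] at hcs
  rw [hexp] at hq1 hq2
  have hw4 : dot w w ≤ 4 := by
    have h1 : dot w w ≤ 2 * dot w m := by linarith
    have h2 : 0 ≤ dot w w := dot_self_nonneg w
    by_contra h
    push Not at h
    nlinarith only [hcs, h1, h]
  have hwm : dot w m = r * dot w e + z * dot a w := by
    rw [hm, dot_add_right, dot_smul_right, dot_smul_right, dot_comm w a]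
  have hβ : dot w e ≤ 1 + r := by
    have h1 := dot_sq_le (w - m) e
    rw [he, mul_one] at h1
    have h2 : dot (w - m) e = dot w e - r := by
      rw [dot_sub_left, hm, dot_add_left, dot_smul_left, dot_smul_left, he, hae]; ring
    rw [h2, hexp] at h1
    nlinarith only [hq1, h1]
  have hρ : rho2 a w < (1 - 1 / 1000000) * μ ^ 2 := by
    have h1 : rho2 a w ≤ 2 * r * dot w e + z ^ 2 := by
      unfold rho2
      nlinarith [sq_nonneg (dot a w - z)]
    nlinarith only [hr, hrz, hrμ, hβ, h1]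
  have h0 : rho2 a w = 0 := by
    rcases H.tube x a n hx hd q hq (by rw [← hw]; exact hw4) with h | h
    · rw [hw]; exact h
    · rw [← hw] at h; linarith
  have hwa := (rho2_eq_zero ha).1 h0
  obtain ⟨s, hs⟩ : ∃ s, s = dot a w := ⟨_, rfl⟩
  rw [← hs] at hwa hwm
  have hwe : dot w e = 0 := by rw [hwa, dot_smul_left, hae, mul_zero]
  have hww : dot w w = s ^ 2 := by rw [hwa, dot_smul_left, dot_smul_right, ha]; ring
  rw [hwm, hwe, hww] at hq1 hq2
  have hs0 : s ≠ 0 := by
    intro h
    rw [h] at hwa hq2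
    rcases hq2 with h' | h'
    · norm_num at h'
    · rw [hwa, zero_smul, dot_sub_right, hmm, dot_zero_right] at h'
      linarith
  have hs1 : s ^ 2 ≤ 2 * z * s := by nlinarith only [hq1]
  have hspos : 0 < s := by
    by_contra h
    push Not at h
    have h2 : 0 < s ^ 2 := by positivity
    nlinarith only [hz, hs1, h, h2]
  refine ⟨s, hspos, ?_, ?_⟩
  · nlinarith only [hs1, hspos]
  · have : x + s • a = q := by rw [← hwa, hw]; abel
    rw [this]; exact hq

/-- A close point on the axis has the same axis. -/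
lemma aligned (H : Tube X c K μ) {x a b : E3} {m : ℕ} {s : ℝ} (ha : dot a a = 1)
    (hx : x ∈ X) (hy : Ax X (x + s • a) b m) (hd : dist (x + s • a) c ≤ K)
    (hs0 : s ≠ 0) (hs : s ^ 2 < (1 - 1 / 1000000) * μ ^ 2) (hs4 : s ^ 2 ≤ 4) : b = a ∨ b = -a := by
  apply eq_or_neg_of_rho2 ha hy.unit
  have e : x - (x + s • a) = (-s) • a := by rw [neg_smul]; abel
  have h1 := H.tube _ b m hy hd x hx (by
    rw [e, dot_smul_left, dot_smul_right, ha]; nlinarith)
  rw [e, rho2_smul] at h1
  have h2 : rho2 b a ≤ 1 := by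
    have := rho2_le b a
    rw [ha] at this; exact this
  have h3 := rho2_nonneg b a hy.unit
  rcases h1 with h1 | h1
  · have : (-s) ^ 2 ≠ 0 := by
      rw [neg_sq]; positivity
    rcases mul_eq_zero.1 h1 with h | h
    · exact absurd h this
    · exact h
  · rw [neg_sq] at h1
    nlinarith only [hs, h2, h1]

/-- The chain of points with the same axis: there is one near every height. -/
lemma chain (H : Tube X c K μ) {x a : E3} {n : ℕ} (hx : Ax X x a n)
    {r z : ℝ} (hr : 0 ≤ r) (hz : 0 < z) (hrz : r ^ 2 + z ^ 2 = 1)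
    (hrμ : (1 + r) ^ 2 < (1 - 1 / 1000000) * μ ^ 2)
    (hzμ : (2 * z) ^ 2 < (1 - 1 / 1000000) * μ ^ 2)
    (τ : ℝ) (hd : dist x c + 2 * |τ| ≤ K) :
    ∃ (t : ℝ) (m : ℕ), Ax X (x + t • a) a m ∧ |t - τ| ≤ z ∧ |t - τ| ≤ |τ| := by
  have ha := hx.unit
  let A : Set ℝ := {t | |t - τ| ≤ |τ| ∧ ∃ m, Ax X (x + t • a) a m}
  have hinj : Function.Injective (fun t : ℝ => x + t • a) := by
    intro t t' h
    have h1 : t • a = t' • a := add_left_cancel h
    have h2 : dot (t • a) a = dot (t' • a) a := by rw [h1]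
    rw [dot_smul_left, dot_smul_left, ha, mul_one, mul_one] at h2
    exact h2
  have hdist : ∀ t, |t - τ| ≤ |τ| → dist (x + t • a) x ≤ 2 * |τ| := by
    intro t ht
    rw [dist_add_smul x a ha]
    have h1 : |t| ≤ |t - τ| + |τ| := by
      have := abs_add_le (t - τ) τ
      rwa [sub_add_cancel] at this
    linarith
  have hAfin : A.Finite := by
    have h1 := finite_of_sep H.sep x (2 * |τ|)
    refine Set.Finite.of_finite_image (f := fun t : ℝ => x + t • a) (h1.subset ?_)
      hinj.injOn
    rintro _ ⟨t, ⟨ht1, m, hm⟩, rfl⟩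
    exact ⟨hm.mem, hdist t ht1⟩
  have hA0 : (0:ℝ) ∈ A := by
    refine ⟨?_, n, ?_⟩
    · rw [zero_sub, abs_neg]
    · rw [zero_smul, add_zero]; exact hx
  obtain ⟨t, ⟨ht1, m, hm⟩, hmin⟩ := Set.exists_min_image A (fun t => |t - τ|) hAfin ⟨0, hA0⟩
  refine ⟨t, m, hm, ?_, ht1⟩
  by_contra hcon
  push Not at hcon
  have hdc : ∀ t, |t - τ| ≤ |τ| → dist (x + t • a) c ≤ K := by
    intro t ht
    have h1 := hdist t ht
    have h2 := dist_triangle (x + t • a) x c
    linarith
  rcases lt_or_ge t τ with hlt | hge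
  · obtain ⟨s, hs0, hs1, hs2⟩ := H.gap hm (hdc t ht1) hr hz hrz hrμ
    have habs : |t - τ| = τ - t := by rw [abs_of_neg (by linarith)]; ring
    rw [habs] at hcon ht1
    have e : x + t • a + s • a = x + (t + s) • a := by rw [add_smul]; abel
    rw [e] at hs2
    have hnew : |t + s - τ| < τ - t := by rw [abs_lt]; constructor <;> linarith
    have hd' := hdc (t + s) (by linarith)
    obtain ⟨b, m', hb⟩ := H.bad _ hs2 hd'
    have e' : x + (t + s) • a = (x + t • a) + s • a := by rw [add_smul]; abel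
    have hb' : Ax X ((x + t • a) + s • a) b m' := by rw [← e']; exact hb
    have hal := H.aligned ha hm.mem hb' (by rw [← e']; exact hd') hs0.ne' (by nlinarith only [hzμ, hs0, hs1])
      (by
        have : z ≤ 1 := by nlinarith only [hrz]
        nlinarith only [hs0, hs1, this])
    have hax : Ax X (x + (t + s) • a) a m' := by
      rcases hal with h | h
      · rw [h] at hb; exact hb
      · have := hb.neg
        rw [h, neg_neg] at this; exact this
    have := hmin (t + s) ⟨by linarith, m', hax⟩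
    rw [habs] at this
    linarith
  · obtain ⟨s, hs0, hs1, hs2⟩ := H.gap hm.neg (hdc t ht1) hr hz hrz hrμ
    have habs : |t - τ| = t - τ := abs_of_nonneg (by linarith)
    rw [habs] at hcon ht1
    have e : x + t • a + s • (-a) = x + (t - s) • a := by
      rw [sub_smul, smul_neg]; abel
    rw [e] at hs2
    have hnew : |t - s - τ| < t - τ := by rw [abs_lt]; constructor <;> linarith
    have hd' := hdc (t - s) (by linarith)
    obtain ⟨b, m', hb⟩ := H.bad _ hs2 hd'
    have e' : x + (t - s) • a = (x + t • a) + (-s) • a := by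
      rw [sub_smul, neg_smul]; abel
    have hb' : Ax X ((x + t • a) + (-s) • a) b m' := by rw [← e']; exact hb
    have hal := H.aligned ha hm.mem hb' (by rw [← e']; exact hd') (neg_ne_zero.2 hs0.ne')
      (by rw [neg_sq]; nlinarith only [hzμ, hs0, hs1])
      (by
        have : z ≤ 1 := by nlinarith only [hrz]
        rw [neg_sq]; nlinarith only [hs0, hs1, this])
    have hax : Ax X (x + (t - s) • a) a m' := by
      rcases hal with h | h
      · rw [h] at hb; exact hb
      · have := hb.neg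
        rw [h, neg_neg] at this; exact this
    have := hmin (t - s) ⟨by linarith, m', hax⟩
    rw [habs] at this
    linarith

/-- The full tube around an axis. -/
lemma full (H : Tube X c K μ) {x a : E3} {n : ℕ} (hx : Ax X x a n)
    {r z : ℝ} (hr : 0 ≤ r) (hz : 0 < z) (hrz : r ^ 2 + z ^ 2 = 1)
    (hrμ : (1 + r) ^ 2 < (1 - 1 / 1000000) * μ ^ 2)
    (hzμ : (2 * z) ^ 2 < (1 - 1 / 1000000) * μ ^ 2) {v : E3} (hv : v ∈ X)
    (hd : dist x c + 2 * |dot a (v - x)| ≤ K)
    (h1 : rho2 a (v - x) < (1 - 1 / 1000000) * μ ^ 2) (h2 : rho2 a (v - x) + z ^ 2 ≤ 4) :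
    rho2 a (v - x) = 0 := by
  have ha := hx.unit
  obtain ⟨t, m, hm, ht, ht'⟩ := H.chain hx hr hz hrz hrμ hzμ (dot a (v - x)) hd
  have e : v - (x + t • a) = (v - x) - t • a := by abel
  have h3 : dot (v - (x + t • a)) (v - (x + t • a)) =
      rho2 a (v - x) + (dot a (v - x) - t) ^ 2 := by
    rw [e, rho2]
    simp only [dot_sub_left (v - x), dot_sub_right, dot_sub_right (v - x), dot_smul_left,
      dot_smul_right, ha, dot_comm (v - x) a, dot_sub_left]
    ring
  have h4 : (dot a (v - x) - t) ^ 2 ≤ z ^ 2 := by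
    have := abs_le.1 ht
    nlinarith [this.1, this.2]
  have h5 : dist (x + t • a) c ≤ K := by
    have h6 := dist_triangle (x + t • a) x c
    rw [dist_add_smul x a ha] at h6
    have h7 : |t| ≤ |t - dot a (v - x)| + |dot a (v - x)| := by
      have := abs_add_le (t - dot a (v - x)) (dot a (v - x))
      rwa [sub_add_cancel] at this
    linarith
  have h6 := H.tube _ a m hm h5 v hv (by rw [h3]; linarith)
  rw [e, rho2_sub_axis a _ ha] at h6
  rcases h6 with h | h
  · exact h
  · linarith

/-- Axes of order at least seven have no close points in the tube range. -/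
lemma five (H : Tube X c K μ) {x a : E3} {n : ℕ} (hx : Ax X x a n) (hd : dist x c + 2 ≤ K)
    {v : E3} (hv : v ∈ X) (hvis : dot (v - x) (v - x) ≤ 4) (h0 : rho2 a (v - x) ≠ 0)
    (h1 : 0.78 * rho2 a (v - x) < (1 - 1 / 1000000) * μ ^ 2) : n = 5 := by
  rcases hx.ord with h | h7
  · exact h
  exfalso
  have ha := hx.unit
  have hdx : dist x c ≤ K := by linarith
  have hdv : dist v c ≤ K := by
    have h2 : dist v x ≤ 2 := (dist_le_iff v x (by norm_num)).2 (by linarith)
    have := dist_triangle v x c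
    linarith
  obtain ⟨d, m, hdm⟩ := H.bad v hv hdv
  have hdd := hdm.unit
  obtain ⟨u, hu⟩ : ∃ u, u = v - x := ⟨_, rfl⟩
  rw [← hu] at hvis h0 h1
  have hvu : v = x + u := by rw [hu]; abel
  obtain ⟨C, hC⟩ : ∃ C, C = cos (2 * π / n) := ⟨_, rfl⟩
  obtain ⟨S, hS⟩ : ∃ S, S = sin (2 * π / n) := ⟨_, rfl⟩
  have hCS : C ^ 2 + S ^ 2 = 1 := by rw [hC, hS]; exact Real.cos_sq_add_sin_sq _
  have hC1 : 0.61 < C := by rw [hC]; exact cos_seven h7
  have hpi := Real.pi_pos
  have hnR : (7:ℝ) ≤ n := by exact_mod_cast h7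
  have hφ0 : 0 < 2 * π / n := by positivity
  have hφ1 : 2 * π / n < π := by
    rw [div_lt_iff₀ (by linarith)]; nlinarith only [hpi, hnR]
  have hS0 : 0 < S := by rw [hS]; exact Real.sin_pos_of_pos_of_lt_pi hφ0 hφ1
  have hC2 : C < 1 := by nlinarith only [hCS, hS0]
  have hρ0 : 0 < rho2 a u := lt_of_le_of_ne (rho2_nonneg a u ha) (Ne.symm h0)
  have hρ4 : rho2 a u ≤ 4 := (rho2_le a u).trans hvis
  have key : ∀ S' : ℝ, S' ^ 2 = S ^ 2 → x + rot a C S' u ∈ X →
      rho2 d (rot a C S' u - u) = 0 := by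
    intro S' hS' hmem
    have hCS' : C ^ 2 + S' ^ 2 = 1 := by rw [hS']; exact hCS
    have e : x + rot a C S' u - v = rot a C S' u - u := by rw [hvu]; abel
    have h2 : dot (rot a C S' u - u) (rot a C S' u - u) = 2 * (1 - C) * rho2 a u := by
      rw [dot_rot_sub a ha C S' hCS' u, rho2]
    have h3 : dot (rot a C S' u - u) (rot a C S' u - u) ≤ 0.78 * rho2 a u := by
      rw [h2]; nlinarith only [hC1, hρ0]
    have h4 := H.tube v d m hdm hdv _ hmem (by rw [e]; linarith)
    rw [e] at h4
    rcases h4 with h4 | h4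
    · exact h4
    · have := rho2_le d (rot a C S' u - u)
      linarith
  have hm1 : x + rot a C S u ∈ X := by
    have := hx.inv u hvis (by rw [← hvu]; exact hv)
    rw [← hC, ← hS] at this; exact this
  have hm2 : x + rot a C (-S) u ∈ X := by
    have h2 := hx.pow (-1)
    have e : ((-1 : ℤ) : ℝ) * (2 * π / n) = -(2 * π / n) := by push_cast; ring
    rw [e, Real.cos_neg, Real.sin_neg, ← hC, ← hS] at h2
    exact h2 u hvis (by rw [← hvu]; exact hv)
  have k1 := (rho2_eq_zero hdd).1 (key S rfl hm1)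
  have k2 := (rho2_eq_zero hdd).1 (key (-S) (by ring) hm2)
  obtain ⟨α, hα⟩ : ∃ α, α = dot d (rot a C S u - u) := ⟨_, rfl⟩
  obtain ⟨β, hβ⟩ : ∃ β, β = dot d (rot a C (-S) u - u) := ⟨_, rfl⟩
  rw [← hα] at k1
  rw [← hβ] at k2
  have s1 : rot a C S u - rot a C (-S) u = (2 * S) • cross a u := by
    apply ext3 <;> simp [rot] <;> ring
  have s2 : (rot a C S u - u) + (rot a C (-S) u - u) = (2 * (1 - C)) • (dot a u • a - u) := by
    apply ext3 <;> simp [rot] <;> ring
  have s3 : (α - β) • d = (2 * S) • cross a u := by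
    rw [← s1, sub_smul, ← k1, ← k2]; abel
  have s4 : (α + β) • d = (2 * (1 - C)) • (dot a u • a - u) := by
    rw [← s2, add_smul, ← k1, ← k2]
  have s5 : dot ((α - β) • d) ((α + β) • d) = 0 := by
    rw [s3, s4, dot_smul_left, dot_smul_right, dot_sub_right, dot_smul_right]
    have e1 : dot (cross a u) a = 0 := by rw [dot_comm]; exact dot_cross_left a u
    have e2 : dot (cross a u) u = 0 := by rw [dot_comm]; exact dot_cross_right a u
    rw [e1, e2]; ring
  have s6 : dot ((α - β) • d) ((α - β) • d) = 4 * S ^ 2 * rho2 a u := by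
    rw [s3, dot_smul_left, dot_smul_right, dot_cross_cross, ha, rho2]; ring
  have s7 : dot ((α + β) • d) ((α + β) • d) = 4 * (1 - C) ^ 2 * rho2 a u := by
    rw [s4, dot_smul_left, dot_smul_right]
    simp only [dot_sub_left, dot_sub_right, dot_smul_left, dot_smul_right, ha, rho2,
      dot_comm u a]
    ring
  rw [dot_smul_left, dot_smul_right, hdd] at s5 s6 s7
  have s8 : 0 < (α - β) * ((α - β) * 1) := by rw [s6]; positivity
  have s9 : 0 < (α + β) * ((α + β) * 1) := by
    rw [s7]
    have : 0 < 1 - C := by linarith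
    positivity
  have s10 : (α - β) * (α + β) = 0 := by linarith
  rcases mul_eq_zero.1 s10 with h | h
  · rw [h] at s8; norm_num at s8
  · rw [h] at s9; norm_num at s9

end Tube

end

end Pool.Agent.Lib.MP_c5a075_co
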