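import Pool.Agent.Lib.MP_c5a075_co.Tube

/-! Small general lemmas on tubes, used by several files. -/

set_option autoImplicit false

namespace Pool.Agent.Lib.MP_c5a075_co

noncomputable section

open Real

lemma abs_mul_le' {p q P Q : ℝ} (hp : |p| ≤ P) (hq : |q| ≤ Q) : |p * q| ≤ P * Q := by
  rw [abs_mul]
  exact mul_le_mul hp hq (abs_nonneg _) ((abs_nonneg _).trans hp)

lemma abs_le_one_of_sq {X Y : ℝ} (h : X ^ 2 + Y ^ 2 ≤ 1) : |X| ≤ 1 ∧ |Y| ≤ 1 := by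
  constructor
  · apply abs_le_of_sq_le_sq _ (by norm_num)
    linarith [sq_nonneg Y]
  · apply abs_le_of_sq_le_sq _ (by norm_num)
    linarith [sq_nonneg X]

lemma dot_sub_self (a b : E3) : dot (a - b) (a - b) = dot a a - 2 * dot a b + dot b b := by
  rw [dot_sub_left, dot_sub_right, dot_sub_right, dot_comm b a]; ring

lemma dot_sub_comm (a b : E3) : dot (a - b) (a - b) = dot (b - a) (b - a) := by
  rw [dot_sub_self, dot_sub_self, dot_comm a b]; ring

/-- The axis of the point `p` goes through `w`. -/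
lemma axis_through {X : Set E3} {p w a : E3} {n : ℕ} (ha : Ax X p a n)
    (t0 : rho2 a (w - p) = 0) : ∃ (b : E3) (N : ℝ), Ax X p b n ∧ 0 ≤ N ∧ p = w + N • b := by
  have e := (rho2_eq_zero ha.unit).1 t0
  rcases le_total 0 (dot a (w - p)) with hk | hk
  · refine ⟨-a, _, ha.neg, hk, ?_⟩
    rw [smul_neg, ← e]; abel
  · refine ⟨a, -dot a (w - p), ha, by linarith, ?_⟩
    rw [neg_smul, ← e]; abel

lemma abs_coord2_le {r : E3} (h : dot r r ≤ 4) : |r 2| ≤ 2 := by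
  apply abs_le_of_sq_le_sq _ (by norm_num)
  have : dot r r = r 0 * r 0 + r 1 * r 1 + r 2 * r 2 := rfl
  nlinarith [sq_nonneg (r 0), sq_nonneg (r 1)]

/-- The highest point below the ring plane with a vertical axis. -/
lemma top_aligned {X : Set E3} (hs : ∃ r : ℝ, 0 < r ∧ ∀ x ∈ X, ∀ y ∈ X, x ≠ y → r ≤ dist x y)
    {h : ℝ} {n : ℕ} (h0 : 0 ≤ h) (hx : Ax X (vec 0 0 (-h)) (vec 0 0 1) n) :
    ∃ (h₀ : ℝ) (m : ℕ), 0 ≤ h₀ ∧ h₀ ≤ h ∧ Ax X (vec 0 0 (-h₀)) (vec 0 0 1) m ∧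
      ∀ (t : ℝ) (m' : ℕ), -h₀ < t → Ax X (vec 0 0 t) (vec 0 0 1) m' → 0 < t := by
  let A : Set ℝ := {t | -h ≤ t ∧ t ≤ 0 ∧ ∃ m, Ax X (vec 0 0 t) (vec 0 0 1) m}
  have hinj : Function.Injective (fun t : ℝ => vec 0 0 t) := by
    intro t t' ht
    have := ext3_iff.1 ht
    simpa using this.2.2
  have hAfin : A.Finite := by
    have h1 := finite_of_sep hs 0 h
    refine Set.Finite.of_finite_image (f := fun t : ℝ => vec 0 0 t) (h1.subset ?_) hinj.injOn
    rintro _ ⟨t, ⟨ht1, ht2, m, hm⟩, rfl⟩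
    refine ⟨hm.mem, ?_⟩
    show dist (vec 0 0 t) 0 ≤ h
    rw [dist_le_iff _ _ h0, sub_zero]
    have : dot (vec 0 0 t) (vec 0 0 t) = t ^ 2 := by simp [dot]; ring
    rw [this]; nlinarith
  have hA0 : -h ∈ A := ⟨le_rfl, by linarith, n, hx⟩
  obtain ⟨t, ⟨ht1, ht2, m, hm⟩, hmax⟩ := Set.exists_max_image A id hAfin ⟨-h, hA0⟩
  refine ⟨-t, m, by linarith, by linarith, by rwa [neg_neg], ?_⟩
  intro t' m' ht' hm'
  rw [neg_neg] at ht'
  by_contra hcon
  push Not at hcon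
  have := hmax t' ⟨by linarith, hcon, m', hm'⟩
  simp only [id] at this
  linarith

lemma dist_vz {t : ℝ} (ht : t ^ 2 ≤ 4) : dist (vec 0 0 t) 0 ≤ 2 := by
  rw [dist_le_iff _ _ (by norm_num), sub_zero]
  have : dot (vec 0 0 t) (vec 0 0 t) = t ^ 2 := by simp [dot]; ring
  rw [this]; linarith

lemma dist_sW {μ : ℝ} (h0 : μ ^ 2 ≤ 4) (k : ℤ) : dist (μ • W k) 0 ≤ 2 := by
  rw [dist_le_iff _ _ (by norm_num), sub_zero, dot_smul_left, dot_smul_right, dot_W]
  linarith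

lemma dist_zero_sq (u : E3) : dist u 0 ^ 2 = dot u u := by rw [dist_sq, sub_zero]

/-- A tube in a frame. -/
lemma Tube.frame {X : Set E3} {c : E3} {K K' μ : ℝ} (H : Tube X c K μ) (F : Fr)
    (hd : dist F.o c + K' ≤ K) : Tube (F.pull X) 0 K' μ := by
  have h1 := H.pull F
  apply h1.recenter
  have h2 : dist (0 : E3) (F.inv c) = dist F.o c := by
    rw [← F.dist_map, F.map_inv]
    have : F.map 0 = F.o := by rw [Fr.map, Fr.lin_zero, add_zero]
    rw [this]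
  rw [h2]; exact hd

lemma dot_W_succ (k : ℤ) : dot (W k) (W (k + 1)) = c5 := by
  have e : ((k + 1 : ℤ) : ℝ) * (2 * π / 5) = k * (2 * π / 5) + 2 * π / 5 := by push_cast; ring
  have e2 : dot (W k) (W (k + 1)) =
      cos ((k + 1 : ℤ) * (2 * π / 5) - k * (2 * π / 5)) := by
    rw [Real.cos_sub]; simp only [dot, W, vec_0, vec_1, vec_2]; ring
  rw [e2, e, add_sub_cancel_left, cos_two_pi_div_five]

lemma dot_W_pred (k : ℤ) : dot (W k) (W (k - 1)) = c5 := by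
  have := dot_W_succ (k - 1)
  rw [sub_add_cancel, dot_comm] at this
  exact this

/-- A point above the top aligned point and not above the ring plane is far from it. -/
lemma next_tilted {X : Set E3} {μ h₀ τ : ℝ} {m : ℕ} (H : Tube X 0 20 μ)
    (hx0 : Ax X (vec 0 0 (-h₀)) (vec 0 0 1) m)
    (hmax : ∀ (t : ℝ) (m' : ℕ), -h₀ < t → Ax X (vec 0 0 t) (vec 0 0 1) m' → 0 < t)
    (hτX : vec 0 0 τ ∈ X) (h1 : -h₀ < τ) (h2 : τ ≤ 0) (hτ4 : τ ^ 2 ≤ 4)
    (hs4 : (τ + h₀) ^ 2 ≤ 4) : (1 - 1 / 1000000) * μ ^ 2 ≤ (τ + h₀) ^ 2 := by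
  obtain ⟨b, n, hb⟩ := H.bad _ hτX (by linarith [dist_vz hτ4])
  have hbu := hb.unit
  have he3 : dot (vec 0 0 1) (vec 0 0 1) = 1 := by simp [dot]
  have hxy : vec 0 0 (-h₀) - vec 0 0 τ = (-(τ + h₀)) • vec 0 0 1 := by
    apply ext3 <;> simp; ring
  have hrho : rho2 b (vec 0 0 (-h₀) - vec 0 0 τ) = (τ + h₀) ^ 2 * (1 - b 2 ^ 2) := by
    rw [hxy, rho2_smul, neg_sq]
    simp only [rho2, dot, vec_0, vec_1, vec_2]; ring
  have ht := H.tube _ b n hb (by linarith [dist_vz hτ4]) _ hx0.mem (by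
    rw [hxy, dot_smul_left, dot_smul_right, he3]; linarith)
  rw [hrho] at ht
  rcases ht with ht | ht
  · exfalso
    have hs2' : (τ + h₀) ^ 2 ≠ 0 := by
      have : 0 < τ + h₀ := by linarith
      positivity
    have hr0 : rho2 b (vec 0 0 1) = 0 := by
      have e : rho2 b (vec 0 0 1) = 1 - b 2 ^ 2 := by
        simp only [rho2, dot, vec_0, vec_1, vec_2]; ring
      rcases mul_eq_zero.1 ht with h | h
      · exact absurd h hs2'
      · rw [e]; exact h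
    have hy' : Ax X (vec 0 0 τ) (vec 0 0 1) n := by
      rcases eq_or_neg_of_rho2 he3 hbu hr0 with h | h
      · rw [h] at hb; exact hb
      · have := hb.neg
        rw [h, neg_neg] at this; exact this
    have := hmax τ n h1 hy'
    linarith
  · have : (τ + h₀) ^ 2 * (1 - b 2 ^ 2) ≤ (τ + h₀) ^ 2 * 1 :=
      mul_le_mul_of_nonneg_left (by linarith [sq_nonneg (b 2)]) (sq_nonneg _)
    linarith

end

end Pool.Agent.Lib.MP_c5a075_co
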