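import Mathlib

/-! Vector algebra in `ℝ³`: cross product and rotations about an axis. -/

set_option autoImplicit false

namespace Pool.Agent.Lib.MP_c5a075_co

/-- Euclidean three-space. -/
abbrev E3 := EuclideanSpace ℝ (Fin 3)

noncomputable section

/-- The vector with given coordinates. -/
def vec (a b c : ℝ) : E3 := !₂[a, b, c]

@[simp] lemma vec_0 (a b c : ℝ) : vec a b c 0 = a := rfl
@[simp] lemma vec_1 (a b c : ℝ) : vec a b c 1 = b := rfl
@[simp] lemma vec_2 (a b c : ℝ) : vec a b c 2 = c := rfl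

lemma ext3 {u v : E3} (h0 : u 0 = v 0) (h1 : u 1 = v 1) (h2 : u 2 = v 2) : u = v := by
  ext i; fin_cases i
  · exact h0
  · exact h1
  · exact h2

lemma ext3_iff {u v : E3} : u = v ↔ u 0 = v 0 ∧ u 1 = v 1 ∧ u 2 = v 2 :=
  ⟨fun h => by rw [h]; exact ⟨rfl, rfl, rfl⟩, fun h => ext3 h.1 h.2.1 h.2.2⟩

lemma vec_eta (u : E3) : vec (u 0) (u 1) (u 2) = u := ext3 rfl rfl rfl

/-- Dot product. -/
def dot (u v : E3) : ℝ := u 0 * v 0 + u 1 * v 1 + u 2 * v 2

/-- Cross product. -/
def cross (u v : E3) : E3 :=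
  vec (u 1 * v 2 - u 2 * v 1) (u 2 * v 0 - u 0 * v 2) (u 0 * v 1 - u 1 * v 0)

@[simp] lemma cross_0 (u v : E3) : cross u v 0 = u 1 * v 2 - u 2 * v 1 := rfl
@[simp] lemma cross_1 (u v : E3) : cross u v 1 = u 2 * v 0 - u 0 * v 2 := rfl
@[simp] lemma cross_2 (u v : E3) : cross u v 2 = u 0 * v 1 - u 1 * v 0 := rfl

@[simp] lemma add_0 (u v : E3) : (u + v) 0 = u 0 + v 0 := rfl
@[simp] lemma add_1 (u v : E3) : (u + v) 1 = u 1 + v 1 := rfl
@[simp] lemma add_2 (u v : E3) : (u + v) 2 = u 2 + v 2 := rfl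
@[simp] lemma sub_0 (u v : E3) : (u - v) 0 = u 0 - v 0 := rfl
@[simp] lemma sub_1 (u v : E3) : (u - v) 1 = u 1 - v 1 := rfl
@[simp] lemma sub_2 (u v : E3) : (u - v) 2 = u 2 - v 2 := rfl
@[simp] lemma neg_0 (u : E3) : (-u) 0 = -(u 0) := rfl
@[simp] lemma neg_1 (u : E3) : (-u) 1 = -(u 1) := rfl
@[simp] lemma neg_2 (u : E3) : (-u) 2 = -(u 2) := rfl
@[simp] lemma smul_0 (k : ℝ) (u : E3) : (k • u) 0 = k * u 0 := rfl
@[simp] lemma smul_1 (k : ℝ) (u : E3) : (k • u) 1 = k * u 1 := rfl
@[simp] lemma smul_2 (k : ℝ) (u : E3) : (k • u) 2 = k * u 2 := rfl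
@[simp] lemma zero_0 : (0 : E3) 0 = 0 := rfl
@[simp] lemma zero_1 : (0 : E3) 1 = 0 := rfl
@[simp] lemma zero_2 : (0 : E3) 2 = 0 := rfl

lemma inner_eq_dot (u v : E3) : inner ℝ u v = dot u v := by
  rw [PiLp.inner_apply, Fin.sum_univ_three]
  simp only [dot, RCLike.inner_apply, conj_trivial]
  ring

lemma norm_sq (u : E3) : ‖u‖ ^ 2 = dot u u := by
  rw [← inner_eq_dot, real_inner_self_eq_norm_sq]

lemma norm_eq_sqrt (u : E3) : ‖u‖ = Real.sqrt (dot u u) := by
  rw [← norm_sq, Real.sqrt_sq (norm_nonneg _)]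

lemma norm_le_iff (u : E3) {k : ℝ} (hk : 0 ≤ k) : ‖u‖ ≤ k ↔ dot u u ≤ k ^ 2 := by
  rw [← norm_sq]
  exact ⟨fun h => pow_le_pow_left₀ (norm_nonneg _) h 2, fun h => le_of_sq_le_sq h hk⟩

lemma norm_lt_iff (u : E3) {k : ℝ} (hk : 0 ≤ k) : ‖u‖ < k ↔ dot u u < k ^ 2 := by
  rw [← norm_sq]
  exact ⟨fun h => pow_lt_pow_left₀ h (norm_nonneg _) (by norm_num), fun h => lt_of_pow_lt_pow_left₀ 2 hk h⟩

lemma dist_sq (u v : E3) : dist u v ^ 2 = dot (u - v) (u - v) := by
  rw [dist_eq_norm, norm_sq]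

lemma dist_le_iff (u v : E3) {k : ℝ} (hk : 0 ≤ k) : dist u v ≤ k ↔ dot (u - v) (u - v) ≤ k ^ 2 := by
  rw [dist_eq_norm, norm_le_iff _ hk]

lemma dist_lt_iff (u v : E3) {k : ℝ} (hk : 0 ≤ k) : dist u v < k ↔ dot (u - v) (u - v) < k ^ 2 := by
  rw [dist_eq_norm, norm_lt_iff _ hk]

lemma dot_self_nonneg (u : E3) : 0 ≤ dot u u := by rw [← norm_sq]; positivity

lemma dot_self_eq_zero {u : E3} : dot u u = 0 ↔ u = 0 := by
  rw [← norm_sq]; simp

lemma dot_self_pos {u : E3} (h : u ≠ 0) : 0 < dot u u :=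
  lt_of_le_of_ne (dot_self_nonneg u) (fun e => h (dot_self_eq_zero.1 e.symm))

lemma dot_comm (u v : E3) : dot u v = dot v u := by simp only [dot]; ring
lemma dot_add_left (u v w : E3) : dot (u + v) w = dot u w + dot v w := by
  simp only [dot, add_0, add_1, add_2]; ring
lemma dot_add_right (u v w : E3) : dot u (v + w) = dot u v + dot u w := by
  simp only [dot, add_0, add_1, add_2]; ring
lemma dot_sub_left (u v w : E3) : dot (u - v) w = dot u w - dot v w := by
  simp only [dot, sub_0, sub_1, sub_2]; ring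
lemma dot_sub_right (u v w : E3) : dot u (v - w) = dot u v - dot u w := by
  simp only [dot, sub_0, sub_1, sub_2]; ring
lemma dot_smul_left (k : ℝ) (u v : E3) : dot (k • u) v = k * dot u v := by
  simp only [dot, smul_0, smul_1, smul_2]; ring
lemma dot_smul_right (k : ℝ) (u v : E3) : dot u (k • v) = k * dot u v := by
  simp only [dot, smul_0, smul_1, smul_2]; ring
lemma dot_neg_left (u v : E3) : dot (-u) v = -dot u v := by
  simp only [dot, neg_0, neg_1, neg_2]; ring
lemma dot_neg_right (u v : E3) : dot u (-v) = -dot u v := by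
  simp only [dot, neg_0, neg_1, neg_2]; ring
lemma dot_zero_left (u : E3) : dot 0 u = 0 := by simp [dot]
lemma dot_zero_right (u : E3) : dot u 0 = 0 := by simp [dot]

lemma dot_sq_le (u v : E3) : dot u v ^ 2 ≤ dot u u * dot v v := by
  have : dot u u * dot v v - dot u v ^ 2 = dot (cross u v) (cross u v) := by
    simp only [dot, cross_0, cross_1, cross_2]; ring
  have := dot_self_nonneg (cross u v)
  linarith

/-- Lagrange's identity. -/
lemma dot_cross_cross (u v : E3) : dot (cross u v) (cross u v) = dot u u * dot v v - dot u v ^ 2 := by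
  simp only [dot, cross_0, cross_1, cross_2]; ring

lemma dot_cross_left (u v : E3) : dot u (cross u v) = 0 := by
  simp only [dot, cross_0, cross_1, cross_2]; ring
lemma dot_cross_right (u v : E3) : dot v (cross u v) = 0 := by
  simp only [dot, cross_0, cross_1, cross_2]; ring
lemma cross_self (u : E3) : cross u u = 0 := by
  apply ext3 <;> simp [mul_comm]
lemma cross_cross (a v : E3) : cross a (cross a v) = dot a v • a - dot a a • v := by
  apply ext3 <;> simp [dot] <;> ring
lemma cross_add_right (a u v : E3) : cross a (u + v) = cross a u + cross a v := by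
  apply ext3 <;> simp <;> ring
lemma cross_sub_right (a u v : E3) : cross a (u - v) = cross a u - cross a v := by
  apply ext3 <;> simp <;> ring
lemma cross_smul_right (a : E3) (k : ℝ) (v : E3) : cross a (k • v) = k • cross a v := by
  apply ext3 <;> simp <;> ring
lemma cross_smul_left (a : E3) (k : ℝ) (v : E3) : cross (k • a) v = k • cross a v := by
  apply ext3 <;> simp <;> ring
lemma cross_comm (u v : E3) : cross u v = - cross v u := by
  apply ext3 <;> simp <;> ring

/-- The rotation about the unit vector `a` by the angle with cosine `c` and sine `s`. -/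
def rot (a : E3) (c s : ℝ) (v : E3) : E3 := c • v + ((1 - c) * dot a v) • a + s • cross a v

lemma rot_0 (a : E3) (c s : ℝ) (v : E3) :
    rot a c s v 0 = c * v 0 + (1 - c) * dot a v * a 0 + s * (a 1 * v 2 - a 2 * v 1) := by
  simp [rot]
lemma rot_1 (a : E3) (c s : ℝ) (v : E3) :
    rot a c s v 1 = c * v 1 + (1 - c) * dot a v * a 1 + s * (a 2 * v 0 - a 0 * v 2) := by
  simp [rot]
lemma rot_2 (a : E3) (c s : ℝ) (v : E3) :
    rot a c s v 2 = c * v 2 + (1 - c) * dot a v * a 2 + s * (a 0 * v 1 - a 1 * v 0) := by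
  simp [rot]

lemma rot_add (a : E3) (c s : ℝ) (u v : E3) : rot a c s (u + v) = rot a c s u + rot a c s v := by
  apply ext3 <;> simp [rot, dot] <;> ring
lemma rot_sub (a : E3) (c s : ℝ) (u v : E3) : rot a c s (u - v) = rot a c s u - rot a c s v := by
  apply ext3 <;> simp [rot, dot] <;> ring
lemma rot_neg (a : E3) (c s : ℝ) (u : E3) : rot a c s (-u) = - rot a c s u := by
  apply ext3 <;> simp [rot, dot] <;> ring
lemma rot_smul (a : E3) (c s : ℝ) (k : ℝ) (v : E3) : rot a c s (k • v) = k • rot a c s v := by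
  apply ext3 <;> simp [rot, dot] <;> ring
lemma rot_zero (a : E3) (c s : ℝ) : rot a c s 0 = 0 := by
  apply ext3 <;> simp [rot, dot]
lemma rot_id (a v : E3) : rot a 1 0 v = v := by
  apply ext3 <;> simp [rot]
lemma rot_neg_axis (a : E3) (c s : ℝ) (v : E3) : rot (-a) c s v = rot a c (-s) v := by
  apply ext3 <;> simp [rot, dot] <;> ring

lemma dot_axis_rot (a : E3) (ha : dot a a = 1) (c s : ℝ) (v : E3) :
    dot a (rot a c s v) = dot a v := by
  have h := dot_cross_left a v
  rw [rot, dot_add_right, dot_add_right, dot_smul_right, dot_smul_right, dot_smul_right, h, ha]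
  ring

lemma rot_axis (a : E3) (ha : dot a a = 1) (c s : ℝ) : rot a c s a = a := by
  rw [rot, ha, cross_self]
  apply ext3 <;> simp

lemma rot_smul_axis (a : E3) (ha : dot a a = 1) (c s k : ℝ) : rot a c s (k • a) = k • a := by
  rw [rot_smul, rot_axis a ha]

lemma cross_rot (a : E3) (ha : dot a a = 1) (c s : ℝ) (v : E3) :
    cross a (rot a c s v) = c • cross a v + s • (dot a v • a - v) := by
  rw [rot, cross_add_right, cross_add_right, cross_smul_right, cross_smul_right, cross_smul_right,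
    cross_self, cross_cross, ha]
  apply ext3 <;> simp

/-- Composition of rotations about the same axis. -/
lemma rot_rot (a : E3) (ha : dot a a = 1) (c s c' s' : ℝ) (v : E3) :
    rot a c s (rot a c' s' v) = rot a (c * c' - s * s') (s * c' + c * s') v := by
  have h1 := dot_axis_rot a ha c' s' v
  have h2 := cross_rot a ha c' s' v
  rw [rot, h1, h2]
  apply ext3 <;> simp [rot] <;> ring

lemma dot_rot_rot (a : E3) (ha : dot a a = 1) (c s : ℝ) (h : c ^ 2 + s ^ 2 = 1) (u v : E3) :
    dot (rot a c s u) (rot a c s v) = dot u v := by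
  have e : dot (rot a c s u) (rot a c s v) =
      (c ^ 2 + s ^ 2 * dot a a) * dot u v + dot a u * dot a v *
        (2 * c * (1 - c) + (1 - c) ^ 2 * dot a a - s ^ 2) := by
    simp only [rot, dot, add_0, add_1, add_2, smul_0, smul_1, smul_2, cross_0, cross_1, cross_2]
    ring
  rw [e, ha]
  have : s ^ 2 = 1 - c ^ 2 := by linarith
  rw [this]; ring

lemma norm_rot (a : E3) (ha : dot a a = 1) (c s : ℝ) (h : c ^ 2 + s ^ 2 = 1) (v : E3) :
    ‖rot a c s v‖ = ‖v‖ := by
  rw [norm_eq_sqrt, norm_eq_sqrt, dot_rot_rot a ha c s h]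

lemma rot_inv (a : E3) (ha : dot a a = 1) (c s : ℝ) (h : c ^ 2 + s ^ 2 = 1) (v : E3) :
    rot a c (-s) (rot a c s v) = v := by
  rw [rot_rot a ha]
  have h1 : c * c - -s * s = 1 := by nlinarith
  have h2 : -s * c + c * s = 0 := by ring
  rw [h1, h2, rot_id]

/-- Squared displacement of a rotation. -/
lemma dot_rot_sub (a : E3) (ha : dot a a = 1) (c s : ℝ) (h : c ^ 2 + s ^ 2 = 1) (v : E3) :
    dot (rot a c s v - v) (rot a c s v - v) = 2 * (1 - c) * (dot v v - dot a v ^ 2) := by
  have h1 : dot (rot a c s v) v = c * dot v v + (1 - c) * dot a v ^ 2 := by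
    simp only [rot, dot, add_0, add_1, add_2, smul_0, smul_1, smul_2, cross_0, cross_1, cross_2]
    ring
  have h2 : dot v (rot a c s v) = c * dot v v + (1 - c) * dot a v ^ 2 := by rw [dot_comm]; exact h1
  rw [dot_sub_left, dot_sub_right, dot_sub_right, dot_rot_rot a ha c s h, h1, h2]
  ring

/-- Conjugation of rotations. -/
lemma rot_conj (a b : E3) (ha : dot a a = 1) (c s c' s' : ℝ) (h : c ^ 2 + s ^ 2 = 1) (v : E3) :
    rot (rot a c s b) c' s' (rot a c s v) = rot a c s (rot b c' s' v) := by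
  have hc : cross (rot a c s b) (rot a c s v) = rot a c s (cross b v) := by
    have hs : s ^ 2 = 1 - c ^ 2 := by linarith
    have a1 : a 2 ^ 2 = 1 - a 0 ^ 2 - a 1 ^ 2 := by
      have : a 0 * a 0 + a 1 * a 1 + a 2 * a 2 = 1 := ha
      linarith
    -- the rotation preserves the cross product
    have key : ∀ w : E3, dot (cross (rot a c s b) (rot a c s v)) (rot a c s w) =
        dot (rot a c s (cross b v)) (rot a c s w) := by
      intro w
      rw [dot_rot_rot a ha c s h]
      have e : dot (cross (rot a c s b) (rot a c s v)) (rot a c s w) =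
          (dot (cross b v) w) * ((c ^ 2 + s ^ 2 * dot a a) * (c + (1 - c) * dot a a)) := by
        simp only [rot, dot, add_0, add_1, add_2, smul_0, smul_1, smul_2, cross_0, cross_1, cross_2]
        ring
      rw [e, ha, mul_one, h]; ring
    have hz : ∀ z : E3, ∃ w : E3, rot a c s w = z := fun z => by
      refine ⟨rot a c (-s) z, ?_⟩
      have := rot_inv a ha c (-s) (by rw [neg_sq]; exact h) z
      rwa [neg_neg] at this
    obtain ⟨w, hw⟩ := hz (cross (rot a c s b) (rot a c s v) - rot a c s (cross b v))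
    have := key w
    rw [hw] at this
    have h0 : dot (cross (rot a c s b) (rot a c s v) - rot a c s (cross b v))
        (cross (rot a c s b) (rot a c s v) - rot a c s (cross b v)) = 0 := by
      rw [dot_sub_left]; linarith
    exact sub_eq_zero.1 (dot_self_eq_zero.1 h0)
  rw [rot, hc, dot_rot_rot a ha c s h, ← rot_smul, ← rot_smul, ← rot_smul, ← rot_add, ← rot_add]
  rfl

end

end Pool.Agent.Lib.MP_c5a075_co
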