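import Pool.Agent.Lib.MP_c5a075_co.TubeX

/-! Visibility around the centre of a ring in regime B. -/

set_option autoImplicit false

namespace Pool.Agent.Lib.MP_c5a075_co

noncomputable section

open Real

/-- Case 2a/2b: no ring point on the line. -/
lemma vb_ab {μ s1 : ℝ} {b : E3} (hμ : 0 < μ) (hb : dot b b = 1) (hβ : 0.27 ≤ 1 - b 2 ^ 2)
    (hk : ∀ k : ℤ, (dot b (μ • W k - vec 0 0 s1)) ^ 2 ≤ s1 ^ 2 + 1 / 1000000 * μ ^ 2) :
    0.7999 * μ ≤ |s1| := by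
  obtain ⟨R, hR⟩ : ∃ R, R = √(b 0 ^ 2 + b 1 ^ 2) := ⟨_, rfl⟩
  have hbb : b 0 * b 0 + b 1 * b 1 + b 2 * b 2 = 1 := hb
  have hR0 : 0 ≤ R := by rw [hR]; exact Real.sqrt_nonneg _
  have hR2 : R ^ 2 = 1 - b 2 ^ 2 := by
    rw [hR, Real.sq_sqrt (by positivity)]; linarith
  have hdot : ∀ k : ℤ, dot b (μ • W k - vec 0 0 s1) =
      μ * (b 0 * cos (k * (2 * π / 5)) + b 1 * sin (k * (2 * π / 5))) - s1 * b 2 := by
    intro k
    simp only [dot, sub_0, sub_1, sub_2, smul_0, smul_1, smul_2, vec_0, vec_1, vec_2, W]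
    ring
  have key : (0.8 * μ * R + |s1 * b 2|) ^ 2 ≤ s1 ^ 2 + 1 / 1000000 * μ ^ 2 := by
    rcases le_total 0 (s1 * b 2) with h | h
    · obtain ⟨k, hk1⟩ := exists_round (n := 5) le_rfl (b 0) (b 1)
      push_cast at hk1
      rw [← hR] at hk1
      have h1 := hk k
      rw [hdot] at h1
      obtain ⟨c, hc⟩ : ∃ c, c = b 0 * cos (k * (2 * π / 5)) + b 1 * sin (k * (2 * π / 5)) :=
        ⟨_, rfl⟩
      rw [← hc] at h1 hk1
      have h2 : μ * c ≤ μ * (-(4 / 5) * R) := mul_le_mul_of_nonneg_left hk1 hμ.le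
      rw [abs_of_nonneg h]
      have h3 : 0 ≤ μ * R := by positivity
      have h4 : 0.8 * μ * R + s1 * b 2 ≤ -(μ * c - s1 * b 2) := by linarith
      have h5 : (0.8 * μ * R + s1 * b 2) ^ 2 ≤ (-(μ * c - s1 * b 2)) ^ 2 :=
        pow_le_pow_left₀ (by linarith) h4 2
      rw [neg_sq] at h5
      linarith
    · obtain ⟨k, hk1⟩ := exists_round (n := 5) le_rfl (-b 0) (-b 1)
      push_cast at hk1
      rw [neg_sq, neg_sq, ← hR] at hk1
      have h1 := hk k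
      rw [hdot] at h1
      have hk2 : 4 / 5 * R ≤ b 0 * cos (k * (2 * π / 5)) + b 1 * sin (k * (2 * π / 5)) := by
        linarith
      obtain ⟨c, hc⟩ : ∃ c, c = b 0 * cos (k * (2 * π / 5)) + b 1 * sin (k * (2 * π / 5)) :=
        ⟨_, rfl⟩
      rw [← hc] at h1 hk2
      have h2 : μ * (4 / 5 * R) ≤ μ * c := mul_le_mul_of_nonneg_left hk2 hμ.le
      rw [abs_of_nonpos h]
      have h3 : 0 ≤ μ * R := by positivity
      have h4 : 0.8 * μ * R + -(s1 * b 2) ≤ μ * c - s1 * b 2 := by linarith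
      have h5 : (0.8 * μ * R + -(s1 * b 2)) ^ 2 ≤ (μ * c - s1 * b 2) ^ 2 :=
        pow_le_pow_left₀ (by linarith) h4 2
      linarith
  have h1 : 0 ≤ 0.8 * μ * R * |s1 * b 2| := by positivity
  have h2 : (0.8 * μ * R + |s1 * b 2|) ^ 2 = 0.64 * μ ^ 2 * R ^ 2 + 2 * (0.8 * μ * R * |s1 * b 2|) +
      (s1 * b 2) ^ 2 := by
    rw [← sq_abs (s1 * b 2)]; ring
  have h3 : 0.64 * μ ^ 2 * R ^ 2 ≤ s1 ^ 2 * R ^ 2 + 1 / 1000000 * μ ^ 2 := by
    have : s1 ^ 2 * R ^ 2 = s1 ^ 2 - (s1 * b 2) ^ 2 := by rw [hR2]; ring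
    rw [this]; linarith
  have h4 : (0.7999 * μ) ^ 2 ≤ s1 ^ 2 := by
    by_contra hcon
    push Not at hcon
    have h5 : 0.27 ≤ R ^ 2 := by rw [hR2]; exact hβ
    have h6 : 0 < μ ^ 2 := by positivity
    have h7 : s1 ^ 2 * R ^ 2 ≤ (0.7999 * μ) ^ 2 * R ^ 2 :=
      mul_le_mul_of_nonneg_right hcon.le (by positivity)
    have h8 : μ ^ 2 * 0.27 ≤ μ ^ 2 * R ^ 2 := mul_le_mul_of_nonneg_left h5 h6.le
    have h9 : (0.7999 * μ) ^ 2 * R ^ 2 = 0.63984001 * (μ ^ 2 * R ^ 2) := by ring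
    rw [h9] at h7
    linarith only [h3, h6, h7, h8]
  rw [← sq_abs s1] at h4
  exact le_of_sq_le_sq h4 (abs_nonneg _)

/-- Distance of `w_1` from the line through `y` and `w_0`. -/
lemma vb_rho {μ s1 N : ℝ} {b : E3} (hbu : dot b b = 1)
    (hy : vec 0 0 s1 = μ • vec 1 0 0 + N • b) :
    N ^ 2 = μ ^ 2 + s1 ^ 2 ∧
    N ^ 2 * rho2 b (μ • vec c5 s5 0 - vec 0 0 s1) =
      (1 - c5) * μ ^ 2 * ((1 + c5) * μ ^ 2 + 2 * s1 ^ 2) := by
  have h0 := (ext3_iff.1 hy).1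
  have h1 := (ext3_iff.1 hy).2.1
  have h2 := (ext3_iff.1 hy).2.2
  simp only [add_0, add_1, add_2, smul_0, smul_1, smul_2, vec_0, vec_1, vec_2] at h0 h1 h2
  have hbb : b 0 * b 0 + b 1 * b 1 + b 2 * b 2 = 1 := hbu
  have e0 : N * b 0 = -μ := by linarith
  have e1 : N * b 1 = 0 := by linarith
  have e2 : N * b 2 = s1 := by linarith
  have hN : N ^ 2 = μ ^ 2 + s1 ^ 2 := by
    have : N ^ 2 = (N * b 0) ^ 2 + (N * b 1) ^ 2 + (N * b 2) ^ 2 := by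
      linear_combination (-N ^ 2) * hbb
    rw [this, e0, e1, e2]; ring
  refine ⟨hN, ?_⟩
  have h3 : dot (μ • vec c5 s5 0 - vec 0 0 s1) (μ • vec c5 s5 0 - vec 0 0 s1) =
      μ ^ 2 + s1 ^ 2 := by
    simp only [dot, sub_0, sub_1, sub_2, smul_0, smul_1, smul_2, vec_0, vec_1, vec_2]
    linear_combination μ ^ 2 * c5_sq_add
  have h4 : N * dot b (μ • vec c5 s5 0 - vec 0 0 s1) = -(μ ^ 2 * c5 + s1 ^ 2) := by
    simp only [dot, sub_0, sub_1, sub_2, smul_0, smul_1, smul_2, vec_0, vec_1, vec_2]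
    linear_combination (μ * c5) * e0 + (μ * s5) * e1 - s1 * e2
  have h5 : N ^ 2 * rho2 b (μ • vec c5 s5 0 - vec 0 0 s1) = N ^ 2 * (μ ^ 2 + s1 ^ 2) -
      (N * dot b (μ • vec c5 s5 0 - vec 0 0 s1)) ^ 2 := by
    rw [rho2, h3]; ring
  rw [h5, h4, hN]; ring

lemma vb_c_num {M S R : ℝ} (hM : 1.116 ≤ M) (hS : 0 ≤ S) (h4 : M + S ≤ 4)
    (hR : (M + S) * R = (1 - c5) * M * ((1 + c5) * M + 2 * S)) :
    R ≠ 0 ∧ 0.78 * R < (1 - 1 / 1000000) * M ∧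
      ((1 - 1 / 1000000) * M ≤ R → 0.24999 * M ≤ S) := by
  have a1 := c5_gt
  have a2 := c5_lt
  have e1 := c5_sq
  have hMS : 0 < M + S := by linarith
  have hM0 : 0 < M := by linarith
  have e2 : (1 - c5) * (1 + c5) = (3 + 2 * c5) / 4 := by
    have : (1 - c5) * (1 + c5) = 1 - c5 ^ 2 := by ring
    rw [this, e1]; ring
  have hR' : (M + S) * R = M * (((3 + 2 * c5) / 4) * M + 2 * (1 - c5) * S) := by
    rw [hR, ← e2]; ring
  have hpos : 0 < (3 + 2 * c5) / 4 * M + 2 * (1 - c5) * S := by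
    have : 0 < (3 + 2 * c5) / 4 * M := by apply mul_pos <;> linarith
    have : 0 ≤ 2 * (1 - c5) * S := by apply mul_nonneg <;> linarith
    linarith
  refine ⟨?_, ?_, ?_⟩
  · intro h
    rw [h, mul_zero] at hR'
    have := mul_pos hM0 hpos
    linarith
  · have h1 : (M + S) * (0.78 * R) < (M + S) * ((1 - 1 / 1000000) * M) := by
      have : (M + S) * (0.78 * R) = M * (0.78 * (((3 + 2 * c5) / 4) * M + 2 * (1 - c5) * S)) := by
        rw [show (M + S) * (0.78 * R) = 0.78 * ((M + S) * R) by ring, hR']; ring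
      rw [this, show (M + S) * ((1 - 1 / 1000000) * M) = M * ((1 - 1 / 1000000) * (M + S)) by ring]
      apply mul_lt_mul_of_pos_left _ hM0
      have h2 : (3 + 2 * c5) / 4 * M ≤ 0.904509 * M := mul_le_mul_of_nonneg_right (by linarith) hM0.le
      have h3 : 2 * (1 - c5) * S ≤ 1.381967 * S := mul_le_mul_of_nonneg_right (by linarith) hS
      linarith
    exact lt_of_mul_lt_mul_left h1 hMS.le
  · intro h
    have h1 : (M + S) * ((1 - 1 / 1000000) * M) ≤ (M + S) * R := mul_le_mul_of_nonneg_left h hMS.le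
    rw [hR', show (M + S) * ((1 - 1 / 1000000) * M) = M * ((1 - 1 / 1000000) * (M + S)) by ring] at h1
    have h2 := le_of_mul_le_mul_left h1 hM0
    have h3 : (3 + 2 * c5) / 4 * M = M - (1 - 2 * c5) / 4 * M := by ring
    have h4 : 2 * (1 - c5) * S = S + (1 - 2 * c5) * S := by ring
    rw [h3, h4] at h2
    by_contra hcon
    push Not at hcon
    have h5 : (1 - 2 * c5) * S ≤ (1 - 2 * c5) * (0.24999 * M) :=
      mul_le_mul_of_nonneg_left hcon.le (by linarith only [a2])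
    have h6 : 0.38 * M ≤ (1 - 2 * c5) * M := mul_le_mul_of_nonneg_right (by linarith only [a2]) hM0.le
    linarith only [hpos, h2, hcon, h5, h6]

/-- Coordinates of the image of `w_1` under the rotation about the line through `w_0`. -/
lemma vb_v {μ s1 N : ℝ} {b : E3} (hbu : dot b b = 1) (hN : 0 < N)
    (hy : vec 0 0 s1 = μ • vec 1 0 0 + N • b) (v : E3)
    (hv : v = vec 0 0 s1 + rot b c5 s5 (μ • vec c5 s5 0 - vec 0 0 s1)) (C S : ℝ)
    (hC : C = b 2) (hS : S = - b 0) :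
    v 0 = μ * (1 - c5 + c5 ^ 2 - (1 - c5) ^ 2 * S ^ 2 - s5 ^ 2 * C) ∧
    v 1 = μ * (s5 * (c5 - (1 - c5) * C)) ∧
    v 2 = μ * (S * ((1 - c5) ^ 2 * C - s5 ^ 2)) ∧ C ^ 2 + S ^ 2 = 1 ∧ N * S = μ ∧ N * C = s1 := by
  have h0 := (ext3_iff.1 hy).1
  have h1 := (ext3_iff.1 hy).2.1
  have h2 := (ext3_iff.1 hy).2.2
  simp only [add_0, add_1, add_2, smul_0, smul_1, smul_2, vec_0, vec_1, vec_2] at h0 h1 h2
  have hbb : b 0 * b 0 + b 1 * b 1 + b 2 * b 2 = 1 := hbu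
  have e0 : N * b 0 = -μ := by linarith
  have e1 : b 1 = 0 := by
    have : N * b 1 = 0 := by linarith
    rcases mul_eq_zero.1 this with h | h
    · exact absurd h hN.ne'
    · exact h
  have e2 : N * b 2 = s1 := by linarith
  have e3 : μ • vec c5 s5 0 - vec 0 0 s1 = (μ • vec c5 s5 0 - μ • vec 1 0 0) - N • b := by
    rw [hy]; abel
  have e4 : v = μ • vec 1 0 0 + rot b c5 s5 (μ • vec c5 s5 0 - μ • vec 1 0 0) := by
    rw [hv, e3, rot_sub, rot_smul_axis b hbu, hy]; abel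
  have hb0 : b 0 = -S := by rw [hS]; ring
  refine ⟨?_, ?_, ?_, ?_, ?_, ?_⟩
  · rw [e4, add_0, rot_0]
    simp only [dot, sub_0, sub_1, sub_2, smul_0, smul_1, smul_2, vec_0, vec_1, vec_2]
    rw [e1, hb0, ← hC]; ring
  · rw [e4, add_1, rot_1]
    simp only [dot, sub_0, sub_1, sub_2, smul_0, smul_1, smul_2, vec_0, vec_1, vec_2]
    rw [e1, hb0, ← hC]; ring
  · rw [e4, add_2, rot_2]
    simp only [dot, sub_0, sub_1, sub_2, smul_0, smul_1, smul_2, vec_0, vec_1, vec_2]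
    rw [e1, hb0, ← hC]; ring
  · rw [hC, hS]; rw [e1] at hbb; linarith
  · rw [hS]; linarith
  · rw [hC]; exact e2

/-- Numerical bounds for the image. -/
lemma vb_v_num {C S : ℝ} (hCS : C ^ 2 + S ^ 2 = 1) (hC0 : 0 < C) (hS0 : 0 < S)
    (h1 : 0.24999 * S ^ 2 ≤ C ^ 2) (h2 : 0.279 ≤ S ^ 2) :
    (1 - c5 + c5 ^ 2 - (1 - c5) ^ 2 * S ^ 2 - s5 ^ 2 * C) ^ 2 +
      (s5 * (c5 - (1 - c5) * C)) ^ 2 ≤ 0.09 ∧
    (S * ((1 - c5) ^ 2 * C - s5 ^ 2)) ^ 2 ≤ 0.4 ∧ S * ((1 - c5) ^ 2 * C - s5 ^ 2) ≤ 0 := by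
  have a1 := c5_gt
  have a2 := c5_lt
  have e1 := c5_sq
  have e2 := s5_sq'
  have hC1 : 0.4472 ≤ C := by
    apply le_of_sq_le_sq _ hC0.le
    linarith
  have hC2 : C ≤ 0.8492 := by
    apply le_of_sq_le_sq _ (by norm_num)
    linarith
  have hD : (1 - c5) ^ 2 = 5 / 4 - 5 / 2 * c5 := by
    have : (1 - c5) ^ 2 = 1 - 2 * c5 + c5 ^ 2 := by ring
    rw [this, e1]; ring
  have hS : S ^ 2 = 1 - C ^ 2 := by linarith only [hCS]
  obtain ⟨D, hD'⟩ : ∃ D, D = 5 / 4 - 5 / 2 * c5 := ⟨_, rfl⟩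
  obtain ⟨G, hG'⟩ : ∃ G, G = (3 + 2 * c5) / 4 := ⟨_, rfl⟩
  have hD1 : 0.47745 ≤ D := by rw [hD']; linarith only [a2]
  have hD2 : D ≤ 0.47746 := by rw [hD']; linarith only [a1]
  have hG1 : 0.9045 ≤ G := by rw [hG']; linarith
  have hG2 : G ≤ 0.90451 := by rw [hG']; linarith only [hD', hD1]
  have hf : 1 - c5 + c5 ^ 2 - (1 - c5) ^ 2 * S ^ 2 - s5 ^ 2 * C = c5 + D * C ^ 2 - G * C := by
    rw [hD, hS, e1, e2, hD', hG']; ring
  have hg : (s5 * (c5 - (1 - c5) * C)) ^ 2 = G * (c5 - (1 - c5) * C) ^ 2 := by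
    rw [hG', ← e2]; ring
  have hC3 : 0 ≤ (C - 0.4472) * (0.8492 - C) := mul_nonneg (by linarith only [hC1]) (by linarith only [hC2])
  rw [hf, hg, hD, e2, ← hD', ← hG']
  have hCq : C ^ 2 ≤ 1.2964 * C - 0.37976 := by nlinarith only [hC3]
  have hCq2 : 0.8944 * C - 0.19999 ≤ C ^ 2 := by nlinarith only [sq_nonneg (C - 0.4472)]
  have f1 : c5 + D * C ^ 2 - G * C ≤ 0.01 := by
    have h3 : D * C ^ 2 ≤ 0.47746 * C ^ 2 := mul_le_mul_of_nonneg_right hD2 (sq_nonneg C)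
    have h4 : 0.9045 * C ≤ G * C := mul_le_mul_of_nonneg_right hG1 hC0.le
    linarith only [hD', hD1, hCq, hCq2, h3, h4]
  have f2 : -0.12 ≤ c5 + D * C ^ 2 - G * C := by
    have h3 : 0.47745 * C ^ 2 ≤ D * C ^ 2 := mul_le_mul_of_nonneg_right hD1 (sq_nonneg C)
    have h4 : G * C ≤ 0.90451 * C := mul_le_mul_of_nonneg_right hG2 hC0.le
    nlinarith only [sq_nonneg (C - 0.947), h3, h4, a1]
  have g1 : c5 - (1 - c5) * C ≤ 0.001 := by
    have h3 : 0.690983 * C ≤ (1 - c5) * C := mul_le_mul_of_nonneg_right (by linarith only [a2]) hC0.le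
    linarith only [hG', hG2, hCq, hCq2, h3]
  have g2 : -0.2779 ≤ c5 - (1 - c5) * C := by
    have h3 : (1 - c5) * C ≤ 0.690984 * C := mul_le_mul_of_nonneg_right (by linarith only [a1]) hC0.le
    linarith only [hC2, hG', hG1, h3]
  have k1 : 0.38 ≤ G - D * C := by
    have h3 : D * C ≤ 0.47746 * C := mul_le_mul_of_nonneg_right hD2 hC0.le
    linarith only [hC2, hG1, h3]
  have k2 : G - D * C ≤ 0.692 := by
    have h3 : 0.47745 * C ≤ D * C := mul_le_mul_of_nonneg_right hD1 hC0.le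
    linarith only [hG2, hCq, hCq2, h3]
  refine ⟨?_, ?_, ?_⟩
  · obtain ⟨f, hf⟩ : ∃ f, f = c5 + D * C ^ 2 - G * C := ⟨_, rfl⟩
    obtain ⟨g, hg⟩ : ∃ g, g = c5 - (1 - c5) * C := ⟨_, rfl⟩
    rw [← hf] at f1 f2 ⊢
    rw [← hg] at g1 g2 ⊢
    have s1 : f ^ 2 ≤ 0.0144 := by nlinarith only [f1, f2]
    have s2 : g ^ 2 ≤ 0.07723 := by nlinarith only [g1, g2]
    have s3 : G * g ^ 2 ≤ 0.90451 * g ^ 2 := mul_le_mul_of_nonneg_right hG2 (sq_nonneg g)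
    linarith only [s1, s2, s3]
  · have s1 : (S * (D * C - G)) ^ 2 = S ^ 2 * (G - D * C) ^ 2 := by ring
    rw [s1, hS]
    have s2 : (G - D * C) ^ 2 ≤ 0.48 := by nlinarith only [k1, k2]
    have s3 : 1 - C ^ 2 ≤ 0.801 := by linarith only [hCq, hCq2]
    have s4 : 0 ≤ 1 - C ^ 2 := by rw [← hS]; positivity
    have := mul_le_mul s3 s2 (sq_nonneg _) (by norm_num)
    linarith only [this]
  · have : S * (D * C - G) = -(S * (G - D * C)) := by ring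
    rw [this]
    have : 0 ≤ S * (G - D * C) := mul_nonneg hS0.le (by linarith only [k1])
    linarith only [this]

/-- Case 2c, with `y` above the ring plane: the line of `y` is a star axis. -/
lemma vb_c {X : Set E3} {μ h₀ s1 : ℝ} {m n : ℕ} {a : E3} (H : Tube X 0 20 μ)
    (h0 : 0 ≤ h₀) (hh : μ ^ 2 + h₀ ^ 2 ≤ 4) (hx : Ax X (vec 0 0 (-h₀)) (vec 0 0 1) m)
    (hw1 : μ • vec c5 s5 0 ∈ X) (hy : Ax X (vec 0 0 s1) a n)
    (hs1 : 0 < s1) (hvis : s1 ^ 2 + μ ^ 2 ≤ 4)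
    (hon : rho2 a (μ • vec 1 0 0 - vec 0 0 s1) = 0) : s1 = μ / 2 ∧ n = 5 := by
  have hμ1 := H.μ_ge
  have hμ0 : 0 < μ := by linarith
  have hM : 1.116 ≤ μ ^ 2 := by
    have := pow_le_pow_left₀ (show (0:ℝ) ≤ 1.0566 by norm_num) hμ1 2
    linarith
  obtain ⟨b, N, hb, hN0, hyb⟩ := axis_through hy hon
  have hbu := hb.unit
  obtain ⟨hN2, hR⟩ := vb_rho hbu hyb
  have hN : 0 < N := by
    rcases lt_or_eq_of_le hN0 with h | h
    · exact h
    · rw [← h] at hN2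
      have := sq_nonneg s1
      linarith
  have hs12 : 0 < s1 ^ 2 := by positivity
  have hyd : dist (vec 0 0 s1) 0 ≤ 2 := by
    rw [dist_le_iff _ _ (by norm_num), sub_zero]
    have : dot (vec 0 0 s1) (vec 0 0 s1) = s1 ^ 2 := by simp [dot]; ring
    rw [this]; linarith
  have hd1 : dot (μ • vec c5 s5 0 - vec 0 0 s1) (μ • vec c5 s5 0 - vec 0 0 s1) =
      μ ^ 2 + s1 ^ 2 := by
    simp only [dot, sub_0, sub_1, sub_2, smul_0, smul_1, smul_2, vec_0, vec_1, vec_2]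
    linear_combination μ ^ 2 * c5_sq_add
  rw [hN2] at hR
  obtain ⟨r1, r2, r3⟩ := vb_c_num hM hs12.le (by linarith) hR
  have hS1 : 0.24999 * μ ^ 2 ≤ s1 ^ 2 := by
    rcases H.tube _ b n hb (by linarith) _ hw1 (by linarith) with h | h
    · exact absurd h r1
    · exact r3 h
  have h5 : n = 5 := H.five hb (by linarith) hw1 (by linarith) r1 r2
  refine ⟨?_, h5⟩
  subst h5
  obtain ⟨v, hv⟩ : ∃ v, v = vec 0 0 s1 + rot b c5 s5 (μ • vec c5 s5 0 - vec 0 0 s1) := ⟨_, rfl⟩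
  have hvX : v ∈ X := by
    rw [hv]
    exact hb.five.1 _ (by linarith) (by rwa [add_sub_cancel])
  obtain ⟨C, hC⟩ : ∃ C, C = b 2 := ⟨_, rfl⟩
  obtain ⟨S, hS⟩ : ∃ S, S = -b 0 := ⟨_, rfl⟩
  obtain ⟨v0, v1, v2, hCS, hNS, hNC⟩ := vb_v hbu hN hyb v hv C S hC hS
  have hS0 : 0 < S := by
    by_contra hcon
    push Not at hcon
    have := mul_nonneg hN.le (neg_nonneg.2 hcon)
    linarith
  have hC0 : 0 < C := by
    by_contra hcon
    push Not at hcon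
    have := mul_nonneg hN.le (neg_nonneg.2 hcon)
    linarith
  have hN4 : N ^ 2 ≤ 4 := by linarith
  have hN0' : 0 < N ^ 2 := by positivity
  have q1 : 0.24999 * S ^ 2 ≤ C ^ 2 := by
    have : N ^ 2 * (0.24999 * S ^ 2) ≤ N ^ 2 * C ^ 2 := by
      have e1 : N ^ 2 * (0.24999 * S ^ 2) = 0.24999 * (N * S) ^ 2 := by ring
      have e2 : N ^ 2 * C ^ 2 = (N * C) ^ 2 := by ring
      rw [e1, e2, hNS, hNC]; exact hS1
    exact le_of_mul_le_mul_left this hN0'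
  have q2 : 0.279 ≤ S ^ 2 := by
    have e1 : N ^ 2 * S ^ 2 = μ ^ 2 := by rw [← hNS]; ring
    have : N ^ 2 * S ^ 2 ≤ 4 * S ^ 2 := mul_le_mul_of_nonneg_right hN4 (sq_nonneg S)
    linarith
  obtain ⟨g1, g2, g3⟩ := vb_v_num hCS hC0 hS0 q1 q2
  have w1 : v 0 ^ 2 + v 1 ^ 2 ≤ 0.09 * μ ^ 2 := by
    rw [v0, v1, mul_pow, mul_pow, ← mul_add, mul_comm]
    exact mul_le_mul_of_nonneg_right g1 (sq_nonneg μ)
  have w2 : v 2 ^ 2 ≤ 0.4 * μ ^ 2 := by
    rw [v2, mul_pow, mul_comm]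
    exact mul_le_mul_of_nonneg_right g2 (sq_nonneg μ)
  have w3 : v 2 ≤ 0 := by
    rw [v2]
    have := mul_nonneg hμ0.le (neg_nonneg.2 g3)
    linarith only [this]
  have hhq : h₀ ^ 2 ≤ 4 := by linarith only [hh, hM]
  have hxd : dist (vec 0 0 (-h₀)) 0 ≤ 2 := by
    rw [dist_le_iff _ _ (by norm_num), sub_zero]
    have : dot (vec 0 0 (-h₀)) (vec 0 0 (-h₀)) = h₀ ^ 2 := by simp [dot]; ring
    rw [this]; linarith only [hhq]
  have hdv : dot (v - vec 0 0 (-h₀)) (v - vec 0 0 (-h₀)) =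
      v 0 ^ 2 + v 1 ^ 2 + v 2 ^ 2 + 2 * h₀ * v 2 + h₀ ^ 2 := by
    simp only [dot, sub_0, sub_1, sub_2, vec_0, vec_1, vec_2]; ring
  have hrv : rho2 (vec 0 0 1) (v - vec 0 0 (-h₀)) = v 0 ^ 2 + v 1 ^ 2 := by
    simp only [rho2, dot, sub_0, sub_1, sub_2, vec_0, vec_1, vec_2]; ring
  have h6 : h₀ * v 2 ≤ 0 := mul_nonpos_of_nonneg_of_nonpos h0 w3
  have h7 := H.tube _ _ m hx (by linarith only [hxd]) v hvX (by rw [hdv]; linarith only [hh, w1, w2, hhq, h6])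
  rw [hrv] at h7
  have h8 : v 0 ^ 2 + v 1 ^ 2 = 0 := by
    rcases h7 with h | h
    · exact h
    · exfalso; linarith only [hM, w1, h]
  have h9 : v 1 = 0 := by
    have : v 1 ^ 2 = 0 := by linarith [sq_nonneg (v 0), sq_nonneg (v 1)]
    exact pow_eq_zero_iff (two_ne_zero) |>.1 this
  rw [v1] at h9
  have h10 : c5 - (1 - c5) * C = 0 := by
    rcases mul_eq_zero.1 h9 with h | h
    · exact absurd h hμ0.ne'
    · rcases mul_eq_zero.1 h with h' | h'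
      · exact absurd h' s5_pos.ne'
      · exact h'
  have h11 : 5 * C ^ 2 = 1 := by
    have e1 : (1 - c5) ^ 2 * (5 * C ^ 2) = (1 - c5) ^ 2 * 1 := by
      have e2 : (1 - c5) * C = c5 := by linarith only [h10]
      have e3 : (1 - c5) ^ 2 * (5 * C ^ 2) = 5 * ((1 - c5) * C) ^ 2 := by ring
      rw [e3, e2]
      have := c5_sq
      linear_combination 4 * this
    have e4 : (1 - c5) ^ 2 ≠ 0 := by
      have := c5_lt
      have : 0 < 1 - c5 := by linarith only [this]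
      positivity
    exact mul_left_cancel₀ e4 e1
  have h12 : (2 * s1) ^ 2 = μ ^ 2 := by
    have e1 : S ^ 2 = 4 * C ^ 2 := by linarith only [hCS, h11]
    rw [← hNS, ← hNC]
    linear_combination (-N ^ 2) * e1
  have h13 : (2 * s1 - μ) * (2 * s1 + μ) = 0 := by linear_combination h12
  rcases mul_eq_zero.1 h13 with h | h <;> linarith

/-- Visibility from one of two chain points around the ring plane (case 1). -/
lemma vb_one {μ z h₀ s1 q v2 : ℝ} (hμ : μ ≤ 1.7) (h0 : 0 ≤ h₀) (hs : 0 < s1)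
    (hz : z ^ 2 = 1 - (μ - 1 - 0.00001) ^ 2) (hD : h₀ + s1 ≤ 2 * z)
    (hq : q ≤ 0.998 * μ ^ 2)
    (h1 : 4 < q + 2 * h₀ * v2 + h₀ ^ 2) (h2 : 4 < q - 2 * s1 * v2 + s1 ^ 2) : False := by
  have h3 : 0 < s1 * (q + 2 * h₀ * v2 + h₀ ^ 2 - 4) := mul_pos hs (by linarith)
  have h4 : 0 ≤ h₀ * (q - 2 * s1 * v2 + s1 ^ 2 - 4) := mul_nonneg h0 (by linarith)
  have h5 : 0 < (s1 + h₀) * (q + h₀ * s1 - 4) := by
    have : (s1 + h₀) * (q + h₀ * s1 - 4) = s1 * (q + 2 * h₀ * v2 + h₀ ^ 2 - 4) +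
        h₀ * (q - 2 * s1 * v2 + s1 ^ 2 - 4) := by ring
    linarith
  have h6 : 0 < q + h₀ * s1 - 4 := by
    by_contra hcon
    push Not at hcon
    have := mul_nonneg (show 0 ≤ s1 + h₀ by linarith) (neg_nonneg.2 hcon)
    linarith
  have h7 : (h₀ + s1) ^ 2 ≤ (2 * z) ^ 2 := pow_le_pow_left₀ (by linarith) hD 2
  have h8 : 4 * (h₀ * s1) ≤ (h₀ + s1) ^ 2 := by linarith [sq_nonneg (h₀ - s1)]
  have h9 : h₀ * s1 ≤ z ^ 2 := by linarith
  rw [hz] at h9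
  linarith [sq_nonneg μ]

/-- Numerical part of case 2i. -/
lemma vb_2i {μ z h₀ s1 : ℝ} (hμ : μ ≤ 1.7) (hμ0 : 1.0566 ≤ μ) (h0 : 0 ≤ h₀) (hs : 0 < s1)
    (hz : z ^ 2 = 1 - (μ - 1 - 0.00001) ^ 2) (hz0 : 0 < z) (hD : h₀ + s1 ≤ 2 * z)
    (hv : 4 < s1 ^ 2 + μ ^ 2) : 0.612 * μ ^ 2 + 1.548 * μ * h₀ + h₀ ^ 2 ≤ 4 := by
  obtain ⟨t, ht⟩ : ∃ t, t = μ - 1 - 0.00001 := ⟨_, rfl⟩
  rw [← ht] at hz
  have hμt : μ = t + 1.00001 := by linarith
  have ht0 : 0.05 ≤ t := by linarith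
  have ht1 : t ≤ 0.7 := by linarith
  have ht2 : t ^ 2 ≤ 0.49 := by nlinarith only [ht0, ht1]
  have hz1 : 1 - 0.6 * t ^ 2 ≤ z := by
    apply le_of_sq_le_sq _ hz0.le
    rw [hz]
    nlinarith only [ht2, sq_nonneg t]
  have h5 : h₀ ≤ 0.5 := by
    by_contra hcon
    push Not at hcon
    have h1 : s1 ≤ 2 * z - 0.5 := by linarith
    have h2 : s1 ^ 2 ≤ (2 * z - 0.5) ^ 2 := pow_le_pow_left₀ hs.le h1 2
    have h3 : (2 * z - 0.5) ^ 2 = 4 * z ^ 2 - 2 * z + 0.25 := by ring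
    rw [h3, hz] at h2
    rw [hμt] at hv
    nlinarith only [h2, hv, hz1, sq_nonneg (t - 0.55), ht0, ht1]
  have h6 : μ * h₀ ≤ 1.7 * 0.5 := mul_le_mul hμ h5 h0 (by norm_num)
  have h7 : μ ^ 2 ≤ 2.89 := by nlinarith only [hμ, hμ0]
  have h8 : h₀ ^ 2 ≤ 0.25 := by nlinarith only [h5, h0]
  linarith

/-- Numerical part of case 2a/2b. -/
lemma vb_2ab {μ h₀ s1 D : ℝ} (hμ0 : 1.0566 ≤ μ) (h0 : 0 ≤ h₀)
    (hD : D ≤ 2) (hDs : h₀ + s1 = D) (hD1 : (1 - 1 / 1000000) * μ ^ 2 ≤ D ^ 2) (hD0 : 0 < D)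
    (hs1 : 0.7999 * μ ≤ |s1|) (hh : μ ^ 2 + h₀ ^ 2 ≤ 4) :
    0.612 * μ ^ 2 + 1.548 * μ * h₀ + h₀ ^ 2 ≤ 4 := by
  rcases le_total 0 s1 with h | h
  · rw [abs_of_nonneg h] at hs1
    have h1 : h₀ ≤ 2 - 0.7999 * μ := by linarith
    have h2 : 1.548 * μ * h₀ ≤ 1.548 * μ * (2 - 0.7999 * μ) :=
      mul_le_mul_of_nonneg_left h1 (by linarith)
    have h3 : h₀ ^ 2 ≤ (2 - 0.7999 * μ) ^ 2 := pow_le_pow_left₀ h0 h1 2
    have h4 : μ ≤ 2 := le_of_sq_le_sq (by linarith [sq_nonneg h₀]) (by norm_num)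
    nlinarith only [h2, h3, h4, hμ0]
  · exfalso
    rw [abs_of_nonpos h] at hs1
    have h1 : 0.9999 * μ ≤ D := by
      apply le_of_sq_le_sq _ hD0.le
      nlinarith only [hD1, hμ0]
    have h2 : 1.79 * μ ≤ h₀ := by linarith
    have h3 : (1.79 * μ) ^ 2 ≤ h₀ ^ 2 := pow_le_pow_left₀ (by linarith) h2 2
    nlinarith only [h3, hh, hμ0]

/-- Numerical part of case 2c below the ring plane. -/
lemma vb_2c {μ h₀ s1 D : ℝ} (hμ0 : 1.0566 ≤ μ)
    (hDs : h₀ + s1 = D) (hD1 : (1 - 1 / 1000000) * (μ ^ 2 + s1 ^ 2) ≤ D ^ 2) (hD0 : 0 < D)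
    (hs1 : 0.24999 * μ ^ 2 ≤ s1 ^ 2) (hh : μ ^ 2 + h₀ ^ 2 ≤ 4) : 0 < s1 := by
  by_contra h
  push Not at h
  have h1 : 0.4998 * μ ≤ -s1 := by
    apply le_of_sq_le_sq _ (by linarith)
    nlinarith only [hs1, hμ0]
  have h2 : 1.117 * μ ≤ D := by
    apply le_of_sq_le_sq _ hD0.le
    nlinarith only [hs1, hD1, hμ0]
  have h3 : 1.6168 * μ ≤ h₀ := by linarith
  have h4 : (1.6168 * μ) ^ 2 ≤ h₀ ^ 2 := pow_le_pow_left₀ (by linarith) h3 2
  nlinarith only [h4, hh, hμ0]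

/-- Case 2c in the frame of the ring point. -/
lemma vb_c' {X : Set E3} {μ h₀ s1 D : ℝ} {m n : ℕ} {a : E3} (H : Tube X 0 20 μ)
    (h0 : 0 ≤ h₀) (hh : μ ^ 2 + h₀ ^ 2 ≤ 4) (hx : Ax X (vec 0 0 (-h₀)) (vec 0 0 1) m)
    (hw1 : μ • vec c5 s5 0 ∈ X) (hy : Ax X (vec 0 0 s1) a n)
    (hvis : s1 ^ 2 + μ ^ 2 ≤ 4) (hDs : h₀ + s1 = D) (hD0 : 0 < D)
    (htilt : (1 - 1 / 1000000) * μ ^ 2 ≤ D ^ 2 * (1 - a 2 ^ 2))
    (hon : rho2 a (μ • vec 1 0 0 - vec 0 0 s1) = 0) : s1 = μ / 2 ∧ n = 5 ∧ 0.6 * μ < h₀ := by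
  have hμ1 := H.μ_ge
  have hμ0 : 0 < μ := by linarith
  have hM : 1.116 ≤ μ ^ 2 := by
    have := pow_le_pow_left₀ (show (0:ℝ) ≤ 1.0566 by norm_num) hμ1 2
    linarith
  have hD1 : (1 - 1 / 1000000) * (μ ^ 2 + s1 ^ 2) ≤ D ^ 2 := by
    have e := (rho2_eq_zero hy.unit).1 hon
    obtain ⟨k, hk⟩ : ∃ k, k = dot a (μ • vec 1 0 0 - vec 0 0 s1) := ⟨_, rfl⟩
    rw [← hk] at e
    have e0 := (ext3_iff.1 e).1
    have e1 := (ext3_iff.1 e).2.1
    have e2 := (ext3_iff.1 e).2.2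
    simp only [sub_0, sub_1, sub_2, smul_0, smul_1, smul_2, vec_0, vec_1, vec_2] at e0 e1 e2
    have hbb : a 0 * a 0 + a 1 * a 1 + a 2 * a 2 = 1 := hy.unit
    have hk2 : k ^ 2 = μ ^ 2 + s1 ^ 2 := by
      have : k ^ 2 = (k * a 0) ^ 2 + (k * a 1) ^ 2 + (k * a 2) ^ 2 := by
        linear_combination (-k ^ 2) * hbb
      rw [this, ← e0, ← e1, ← e2]; ring
    have hk3 : k ^ 2 * (1 - a 2 ^ 2) = μ ^ 2 := by
      have : k ^ 2 * (1 - a 2 ^ 2) = k ^ 2 - (k * a 2) ^ 2 := by ring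
      rw [this, ← e2, hk2]; ring
    have h1 : k ^ 2 * ((1 - 1 / 1000000) * μ ^ 2) ≤ k ^ 2 * (D ^ 2 * (1 - a 2 ^ 2)) :=
      mul_le_mul_of_nonneg_left htilt (sq_nonneg k)
    have h2 : k ^ 2 * (D ^ 2 * (1 - a 2 ^ 2)) = μ ^ 2 * D ^ 2 := by rw [← hk3]; ring
    have h3 : k ^ 2 * ((1 - 1 / 1000000) * μ ^ 2) = μ ^ 2 * ((1 - 1 / 1000000) * (μ ^ 2 + s1 ^ 2)) := by
      rw [hk2]; ring
    rw [h2, h3] at h1
    exact le_of_mul_le_mul_left h1 (by positivity)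
  -- the line of `y` is not too steep
  have hS1 : 0.24999 * μ ^ 2 ≤ s1 ^ 2 := by
    obtain ⟨b, N, hb, hN0, hyb⟩ := axis_through hy hon
    obtain ⟨hN2, hR⟩ := vb_rho hb.unit hyb
    have hyd : dist (vec 0 0 s1) 0 ≤ 2 := by
      rw [dist_le_iff _ _ (by norm_num), sub_zero]
      have : dot (vec 0 0 s1) (vec 0 0 s1) = s1 ^ 2 := by simp [dot]; ring
      rw [this]; linarith [sq_nonneg μ]
    have hd1 : dot (μ • vec c5 s5 0 - vec 0 0 s1) (μ • vec c5 s5 0 - vec 0 0 s1) =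
        μ ^ 2 + s1 ^ 2 := by
      simp only [dot, sub_0, sub_1, sub_2, smul_0, smul_1, smul_2, vec_0, vec_1, vec_2]
      linear_combination μ ^ 2 * c5_sq_add
    rw [hN2] at hR
    obtain ⟨r1, r2, r3⟩ := vb_c_num hM (sq_nonneg s1) (by linarith) hR
    rcases H.tube _ b n hb (by linarith) _ hw1 (by linarith) with h | h
    · exact absurd h r1
    · exact r3 h
  have hs := vb_2c hμ1 hDs hD1 hD0 hS1 hh
  obtain ⟨h1, h2⟩ := vb_c H h0 hh hx hw1 hy hs hvis hon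
  refine ⟨h1, h2, ?_⟩
  rw [h1] at hD1 hDs
  have h3 : 1.117 * μ ≤ D := by
    apply le_of_sq_le_sq _ hD0.le
    nlinarith only [hD1, hM]
  linarith

/-- Visibility around the centre of the ring. -/
theorem visB {X : Set E3} {μ h : ℝ} (H : Tube X 0 20 μ) (hμ : μ ≤ 1.7) (h0 : 0 ≤ h)
    (hh : μ ^ 2 + h ^ 2 ≤ 4) (hx : Ax X (vec 0 0 (-h)) (vec 0 0 1) 5)
    (ring : ∀ k : ℤ, μ • W k ∈ X) :
    (∃ H' : ℝ, 0 ≤ H' ∧ 0.612 * μ ^ 2 + 1.548 * μ * H' + H' ^ 2 ≤ 4 ∧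
      ∀ v ∈ X, dot v v ≤ 0.998 * μ ^ 2 → dot v v + 2 * H' * v 2 + H' ^ 2 ≤ 4 →
        v 0 = 0 ∧ v 1 = 0) ∨
    (0.6 * μ < h ∧ ∃ (k : ℤ) (b : E3), Ax X (vec 0 0 (μ / 2)) b 5 ∧
      rho2 b (μ • W k - vec 0 0 (μ / 2)) = 0) := by
  have hμ1 := H.μ_ge
  have hμ0 : 0 < μ := by linarith
  have hM : 1.116 ≤ μ ^ 2 := by
    have := pow_le_pow_left₀ (show (0:ℝ) ≤ 1.0566 by norm_num) hμ1 2
    linarith
  obtain ⟨h₀, m, hh0, hh1, hx0, hmax⟩ := top_aligned H.sep h0 hx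
  have hh' : μ ^ 2 + h₀ ^ 2 ≤ 4 := by
    have := pow_le_pow_left₀ hh0 hh1 2
    linarith
  -- squares
  have hvv : ∀ v : E3, dot v v = v 0 ^ 2 + v 1 ^ 2 + v 2 ^ 2 := by
    intro v; simp only [dot]; ring
  have hdz : ∀ t : ℝ, t ^ 2 ≤ 4 → dist (vec 0 0 t) 0 ≤ 2 := by
    intro t ht
    rw [dist_le_iff _ _ (by norm_num), sub_zero]
    have : dot (vec 0 0 t) (vec 0 0 t) = t ^ 2 := by simp [dot]; ring
    rw [this]; linarith
  -- a point near the origin visible from an aligned point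
  have hsee : ∀ (t : ℝ) (m' : ℕ), Ax X (vec 0 0 t) (vec 0 0 1) m' → t ^ 2 ≤ 4 → ∀ v ∈ X,
      dot v v ≤ 0.998 * μ ^ 2 → dot v v - 2 * t * v 2 + t ^ 2 ≤ 4 → v 0 = 0 ∧ v 1 = 0 := by
    intro t m' ht ht2 v hv hv1 hv2
    have hd := hdz t ht2
    have hdv : dot (v - vec 0 0 t) (v - vec 0 0 t) = dot v v - 2 * t * v 2 + t ^ 2 := by
      simp only [dot, sub_0, sub_1, sub_2, vec_0, vec_1, vec_2]; ring
    have hrv : rho2 (vec 0 0 1) (v - vec 0 0 t) = v 0 ^ 2 + v 1 ^ 2 := by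
      simp only [rho2, dot, sub_0, sub_1, sub_2, vec_0, vec_1, vec_2]; ring
    have h7 := H.tube _ _ m' ht (by linarith) v hv (by rw [hdv]; exact hv2)
    rw [hrv] at h7
    have h8 : v 0 ^ 2 + v 1 ^ 2 = 0 := by
      rcases h7 with h | h
      · exact h
      · exfalso
        rw [hvv] at hv1
        linarith [sq_nonneg (v 2)]
    constructor
    · have : v 0 ^ 2 = 0 := by linarith [sq_nonneg (v 0), sq_nonneg (v 1)]
      exact pow_eq_zero_iff (two_ne_zero) |>.1 this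
    · have : v 1 ^ 2 = 0 := by linarith [sq_nonneg (v 0), sq_nonneg (v 1)]
      exact pow_eq_zero_iff (two_ne_zero) |>.1 this
  by_cases hF : 0.612 * μ ^ 2 + 1.548 * μ * h₀ + h₀ ^ 2 ≤ 4
  · left
    refine ⟨h₀, hh0, hF, fun v hv hv1 hv2 => ?_⟩
    exact hsee (-h₀) m hx0 (by rw [neg_sq]; linarith) v hv hv1 (by linarith)
  -- the next chain point
  obtain ⟨z, hz⟩ : ∃ z, z = √(1 - (μ - 1 - 0.00001) ^ 2) := ⟨_, rfl⟩
  have hr : (μ - 1 - 0.00001) ^ 2 ≤ 0.49 := by nlinarith only [hμ1, hμ]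
  have hz2 : z ^ 2 = 1 - (μ - 1 - 0.00001) ^ 2 := by
    rw [hz, Real.sq_sqrt (by linarith)]
  have hz0 : 0 < z := by rw [hz]; exact Real.sqrt_pos.2 (by linarith)
  have hz1 : z ≤ 1 := by
    apply le_of_sq_le_sq _ (by norm_num)
    linarith [sq_nonneg (μ - 1 - 0.00001)]
  obtain ⟨D, hD0, hD1, hyX⟩ := H.gap hx0 (by linarith [hdz (-h₀) (by rw [neg_sq]; linarith)])
    (r := μ - 1 - 0.00001) (z := z) (by linarith) hz0 (by linarith)
    (by nlinarith only [hμ1, hμ])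
  obtain ⟨s1, hs1⟩ : ∃ s1, s1 = D - h₀ := ⟨_, rfl⟩
  have hyv : vec 0 0 (-h₀) + D • vec 0 0 1 = vec 0 0 s1 := by
    rw [hs1]; apply ext3 <;> simp <;> ring
  rw [hyv] at hyX
  have hh2 : h₀ ≤ 2 := by
    apply le_of_sq_le_sq _ (by norm_num)
    linarith
  have hs12 : s1 ^ 2 ≤ 4 := by
    have : -2 ≤ s1 := by linarith
    have : s1 ≤ 2 := by linarith
    nlinarith only [this, ‹-2 ≤ s1›]
  have hyd := hdz s1 hs12
  obtain ⟨a, n, hy⟩ := H.bad _ hyX (by linarith)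
  have hau := hy.unit
  have hxy : vec 0 0 (-h₀) - vec 0 0 s1 = (-D) • vec 0 0 1 := by
    rw [hs1]; apply ext3 <;> simp <;> ring
  have he3 : dot (vec 0 0 1) (vec 0 0 1) = 1 := by simp [dot]
  have hrho : rho2 a (vec 0 0 (-h₀) - vec 0 0 s1) = D ^ 2 * (1 - a 2 ^ 2) := by
    rw [hxy, rho2_smul, neg_sq]
    simp only [rho2, dot, vec_0, vec_1, vec_2]; ring
  have hD4 : D ^ 2 ≤ 4 := by nlinarith only [hD0, hD1, hz1]
  have htube := H.tube _ a n hy (by linarith) _ hx0.mem (by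
    rw [hxy, dot_smul_left, dot_smul_right, he3]; linarith)
  rw [hrho] at htube
  rcases htube with htilt | htilt
  · -- `y` is aligned
    have hr0 : rho2 a (vec 0 0 1) = 0 := by
      have : D ^ 2 ≠ 0 := by positivity
      rcases mul_eq_zero.1 htilt with h | h
      · exact absurd h this
      · have e : rho2 a (vec 0 0 1) = 1 - a 2 ^ 2 := by
          simp only [rho2, dot, vec_0, vec_1, vec_2]; ring
        rw [e]; exact h
    have hy' : Ax X (vec 0 0 s1) (vec 0 0 1) n := by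
      rcases eq_or_neg_of_rho2 he3 hau hr0 with h | h
      · rw [h] at hy; exact hy
      · have := hy.neg
        rw [h, neg_neg] at this; exact this
    have hs0 : 0 < s1 := hmax s1 n (by linarith) hy'
    left
    refine ⟨0, le_rfl, by nlinarith only [hμ, hμ1], fun v hv hv1 _ => ?_⟩
    by_cases hA : dot v v - 2 * (-h₀) * v 2 + (-h₀) ^ 2 ≤ 4
    · exact hsee (-h₀) m hx0 (by rw [neg_sq]; linarith) v hv hv1 hA
    by_cases hB : dot v v - 2 * s1 * v 2 + s1 ^ 2 ≤ 4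
    · exact hsee s1 n hy' hs12 v hv hv1 hB
    · exfalso
      push Not at hA hB
      exact vb_one hμ hh0 hs0 hz2 (by linarith) hv1 (by linarith) hB
  -- `y` is tilted
  by_cases hvis : s1 ^ 2 + μ ^ 2 ≤ 4
  · by_cases hon : ∃ k : ℤ, rho2 a (μ • W k - vec 0 0 s1) = 0
    · obtain ⟨k, hk⟩ := hon
      right
      have H' := H.pull (rotFr k)
      have hmap : ∀ t : ℝ, (rotFr k).map (vec 0 0 t) = vec 0 0 t := by
        intro t; rw [rotFr_map, rotFr_lin]; apply ext3 <;> simp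
      have hlin : (rotFr k).lin (vec 0 0 1) = vec 0 0 1 := by
        rw [rotFr_lin]; apply ext3 <;> simp
      have hinv0 : (rotFr k).inv 0 = 0 := by
        have : (rotFr k).map 0 = 0 := by
          rw [rotFr_map, Fr.lin_zero]
        rw [← this, Fr.inv_map, this]
      rw [hinv0] at H'
      have hx' : Ax ((rotFr k).pull X) (vec 0 0 (-h₀)) (vec 0 0 1) m := by
        apply Fr.ax_pull
        rw [hmap, hlin]; exact hx0
      have hy' : Ax ((rotFr k).pull X) (vec 0 0 s1) ((rotFr k).co a) n := by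
        apply Fr.ax_pull
        rw [hmap, Fr.lin_co]; exact hy
      have hw1' : μ • vec c5 s5 0 ∈ (rotFr k).pull X := by
        rw [Fr.mem_pull, rotFr_map, ← W_one, Fr.lin_smul, rotFr_W]; exact ring _
      have hon' : rho2 ((rotFr k).co a) (μ • vec 1 0 0 - vec 0 0 s1) = 0 := by
        have e1 : (rotFr k).lin (μ • vec 1 0 0 - vec 0 0 s1) = μ • W k - vec 0 0 s1 := by
          rw [Fr.lin_sub, Fr.lin_smul, ← W_zero, rotFr_W, add_zero, ← rotFr_map k (vec 0 0 s1), hmap]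
        rw [← Fr.rho2_lin, Fr.lin_co, e1]; exact hk
      have ha2 : ((rotFr k).co a) 2 = a 2 := by
        simp [Fr.co, rotFr, dot]
      obtain ⟨g1, g2, g3⟩ := vb_c' H' hh0 hh' hx' hw1' hy' hvis (by linarith) hD0
        (by rw [ha2]; exact htilt) hon'
      subst g2
      refine ⟨by linarith, k, a, ?_, ?_⟩
      · rw [← g1]; exact hy
      · rw [← g1]; exact hk
    · exfalso
      apply hF
      push Not at hon
      have hbb : a 0 * a 0 + a 1 * a 1 + a 2 * a 2 = 1 := hau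
      have hβ : 0.27 ≤ 1 - a 2 ^ 2 := by
        have h1 : 0 ≤ 1 - a 2 ^ 2 := by linarith [sq_nonneg (a 0), sq_nonneg (a 1)]
        have h2 : D ^ 2 * (1 - a 2 ^ 2) ≤ 4 * (1 - a 2 ^ 2) := mul_le_mul_of_nonneg_right hD4 h1
        linarith
      have hk : ∀ k : ℤ, (dot a (μ • W k - vec 0 0 s1)) ^ 2 ≤ s1 ^ 2 + 1 / 1000000 * μ ^ 2 := by
        intro k
        have hd1 : dot (μ • W k - vec 0 0 s1) (μ • W k - vec 0 0 s1) = μ ^ 2 + s1 ^ 2 := by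
          have hW := dot_W k
          have hW2 : (W k) 2 = 0 := rfl
          simp only [dot, sub_0, sub_1, sub_2, smul_0, smul_1, smul_2, vec_0, vec_1, vec_2,
            hW2] at hW ⊢
          linear_combination μ ^ 2 * hW
        rcases H.tube _ a n hy (by linarith) _ (ring k) (by rw [hd1]; linarith) with h | h
        · exact absurd h (hon k)
        · rw [rho2, hd1] at h
          linarith
      have h3 := vb_ab hμ0 hau hβ hk
      have hD1' : (1 - 1 / 1000000) * μ ^ 2 ≤ D ^ 2 := by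
        have h1 : D ^ 2 * (1 - a 2 ^ 2) ≤ D ^ 2 * 1 :=
          mul_le_mul_of_nonneg_left (by linarith [sq_nonneg (a 2)]) (sq_nonneg D)
        linarith
      exact vb_2ab hμ1 hh0 (by linarith) (by linarith) hD1' hD0 h3 hh'
  · exfalso
    apply hF
    push Not at hvis
    have hs0 : 0 < s1 := by
      by_contra hcon
      push Not at hcon
      have h1 : -h₀ ≤ s1 := by linarith
      have h2 : s1 ^ 2 ≤ h₀ ^ 2 := by nlinarith only [h1, hcon]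
      linarith
    exact vb_2i hμ hμ1 hh0 hs0 hz2 hz0 (by linarith) hvis

end

end Pool.Agent.Lib.MP_c5a075_co
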