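import Pool.Agent.Lib.BoxPos.Dnf

/-! Certificates for the words of case A (ring frame, `w = h (x, 0, 1)`, `u = tan (psi / 2)`). -/

namespace Pool.Agent.Lib.MP_c5a075_co

set_option maxRecDepth 1000000

open Pool.Agent.Lib.BoxPos in
/-- certificate of `wc_z1a` -/
def wc_z1a_tree : GTree :=
  (.leaf 0)

open Pool.Agent.Lib.BoxPos in
theorem wc_z1a_check : checkGE 117 1 [2, 4, 1, 1] [0, 0, 0, 0] [(0, 500, 1000), (41, 280, 1000), (44721, 44722, 100000), (951056, 951057, 1000000)]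
    [[(.add (.mul (.v 0) (.add (.mul (.v 0) (.add (.mul (.v 1) (.add (.mul (.v 1) (.sub (.mul (.v 2) (.c 15)) (.c 5))) (.add (.mul (.v 2) (.mul (.v 3) (.neg (.c 20)))) (.mul (.v 3) (.c 4))))) (.sub (.mul (.v 2) (.c 25)) (.c 11)))) (.add (.mul (.v 1) (.add (.mul (.v 1) (.sub (.mul (.v 2) (.c 35)) (.c 15))) (.add (.mul (.v 2) (.mul (.v 3) (.neg (.c 40)))) (.mul (.v 3) (.c 16))))) (.sub (.mul (.v 2) (.c 65)) (.c 29))))) (.add (.mul (.v 1) (.add (.mul (.v 1) (.sub (.mul (.v 2) (.c 10)) (.c 10))) (.mul (.v 3) (.c 16)))) (.sub (.mul (.v 2) (.c 30)) (.c 14)))),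
      (.add (.mul (.v 0) (.add (.mul (.v 1) (.add (.mul (.v 1) (.add (.mul (.v 2) (.neg (.c 25))) (.c 25))) (.add (.mul (.v 2) (.mul (.v 3) (.c 40))) (.mul (.v 3) (.neg (.c 8)))))) (.sub (.mul (.v 2) (.neg (.c 5))) (.c 3)))) (.add (.mul (.v 1) (.add (.mul (.v 1) (.add (.mul (.v 2) (.neg (.c 50))) (.c 10))) (.mul (.v 3) (.neg (.c 16))))) (.add (.mul (.v 2) (.c 10)) (.c 14)))),
      (.add (.mul (.v 0) (.add (.mul (.v 1) (.add (.mul (.v 1) (.add (.mul (.v 1) (.add (.mul (.v 1) (.mul (.v 2) (.mul (.v 3) (.neg (.c 10))))) (.add (.mul (.v 2) (.neg (.c 55))) (.c 35)))) (.add (.mul (.v 2) (.mul (.v 3) (.c 20))) (.mul (.v 3) (.neg (.c 4)))))) (.sub (.mul (.v 2) (.c 25)) (.c 13)))) (.add (.mul (.v 2) (.mul (.v 3) (.c 30))) (.mul (.v 3) (.neg (.c 4)))))) (.add (.mul (.v 1) (.add (.mul (.v 1) (.add (.mul (.v 1) (.add (.mul (.v 1) (.mul (.v 2) (.mul (.v 3) (.neg (.c 20))))) (.add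 (.mul (.v 2) (.neg (.c 60))) (.c 20)))) (.mul (.v 3) (.neg (.c 8))))) (.add (.mul (.v 2) (.c 20)) (.c 4)))) (.add (.mul (.v 2) (.mul (.v 3) (.c 20))) (.mul (.v 3) (.neg (.c 8)))))),
      (.add (.mul (.v 0) (.add (.mul (.v 1) (.add (.mul (.v 1) (.add (.mul (.v 1) (.add (.mul (.v 1) (.add (.mul (.v 2) (.mul (.v 3) (.neg (.c 40)))) (.mul (.v 3) (.c 10)))) (.sub (.mul (.v 2) (.c 35)) (.c 15)))) (.add (.mul (.v 2) (.mul (.v 3) (.c 120))) (.mul (.v 3) (.neg (.c 48)))))) (.sub (.mul (.v 2) (.neg (.c 5))) (.c 7)))) (.mul (.v 3) (.c 6)))) (.add (.mul (.v 1) (.add (.mul (.v 1) (.add (.mul (.v 1) (.add (.mul (.v 1) (.add (.mul (.v 2) (.mul (.v 3) (.neg (.c 30)))) (.mul (.v 3) (.c 10)))) (.sub (.mul (.v 2) (.c 20)) (.c 20)))) (.add (.mul (.v 2) (.mul (.v 3) (.c 60))) (.mul (.v 3) (.neg (.c 36)))))) (.sub (.mul (.v 2) (.c 20)) (.c 4)))) (.add (.mul (.v 2) (.mul (.v 3) (.c 10)))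 (.mul (.v 3) (.c 2))))),
      (.add (.mul (.v 0) (.add (.mul (.v 1) (.add (.mul (.v 1) (.add (.mul (.v 1) (.add (.mul (.v 1) (.sub (.mul (.v 2) (.neg (.c 25))) (.c 5))) (.add (.mul (.v 2) (.mul (.v 3) (.c 380))) (.mul (.v 3) (.neg (.c 140)))))) (.add (.mul (.v 2) (.neg (.c 40))) (.c 40)))) (.add (.mul (.v 2) (.mul (.v 3) (.c 60))) (.mul (.v 3) (.neg (.c 12)))))) (.add (.mul (.v 2) (.neg (.c 95))) (.c 61)))) (.add (.mul (.v 1) (.add (.mul (.v 1) (.add (.mul (.v 1) (.add (.mul (.v 1) (.c 40)) (.add (.mul (.v 2) (.mul (.v 3) (.c 160))) (.mul (.v 3) (.neg (.c 160)))))) (.add (.mul (.v 2) (.neg (.c 80))) (.c 80)))) (.mul (.v 3) (.neg (.c 64))))) (.add (.mul (.v 2) (.neg (.c 80))) (.c 72)))),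
      (.add (.mul (.v 0) (.add (.mul (.v 1) (.add (.mul (.v 1) (.add (.mul (.v 1) (.add (.mul (.v 1) (.add (.mul (.v 2) (.mul (.v 3) (.c 15))) (.mul (.v 3) (.neg (.c 15))))) (.sub (.mul (.v 2) (.c 35)) (.c 25)))) (.add (.mul (.v 2) (.mul (.v 3) (.neg (.c 80)))) (.mul (.v 3) (.c 40))))) (.add (.mul (.v 2) (.neg (.c 45))) (.c 7)))) (.add (.mul (.v 2) (.mul (.v 3) (.neg (.c 15)))) (.mul (.v 3) (.c 7))))) (.add (.mul (.v 1) (.add (.mul (.v 1) (.add (.mul (.v 1) (.add (.mul (.v 1) (.add (.mul (.v 2) (.mul (.v 3) (.c 30))) (.mul (.v 3) (.neg (.c 10))))) (.sub (.mul (.v 2) (.c 20)) (.c 20)))) (.add (.mul (.v 2) (.mul (.v 3) (.neg (.c 60)))) (.mul (.v 3) (.c 20))))) (.add (.mul (.v 2) (.neg (.c 20))) (.c 4)))) (.add (.mul (.v 2) (.mul (.v 3) (.neg (.c 10)))) (.mul (.v 3) (.c 14))))),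
      (.add (.mul (.v 0) (.add (.mul (.v 1) (.sub (.mul (.v 1) (.add (.mul (.v 1) (.add (.mul (.v 1) (.add (.mul (.v 2) (.mul (.v 3) (.c 5))) (.mul (.v 3) (.neg (.c 5))))) (.add (.mul (.v 2) (.neg (.c 40))) (.c 10)))) (.add (.mul (.v 2) (.mul (.v 3) (.neg (.c 30)))) (.mul (.v 3) (.c 14))))) (.c 6))) (.add (.mul (.v 2) (.mul (.v 3) (.c 5))) (.mul (.v 3) (.neg (.c 5)))))) (.add (.mul (.v 1) (.add (.mul (.v 1) (.add (.mul (.v 1) (.add (.mul (.v 1) (.mul (.v 2) (.mul (.v 3) (.c 10)))) (.add (.mul (.v 2) (.neg (.c 30))) (.c 10)))) (.add (.mul (.v 2) (.mul (.v 3) (.neg (.c 20)))) (.mul (.v 3) (.c 8))))) (.sub (.mul (.v 2) (.neg (.c 10))) (.c 2)))) (.mul (.v 2) (.mul (.v 3) (.c 10)))))]]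
    wc_z1a_tree = true := by decide +kernel

theorem wc_z1a (x u i s : ℝ) (hx : (0 / 1000 : ℝ) ≤ x) (hx' : x < (500 / 1000 : ℝ))
    (hu : (41 / 1000 : ℝ) ≤ u) (hu' : u < (280 / 1000 : ℝ))
    (hi : (44721 / 100000 : ℝ) ≤ i) (hi' : i < (44722 / 100000 : ℝ))
    (hs : (951056 / 1000000 : ℝ) ≤ s) (hs' : s < (951057 / 1000000 : ℝ)) :
    0 < ((x * ((x * ((u * ((u * ((i * 15) - 5)) + ((i * (s * (-20))) + (s * 4)))) + ((i * 25) - 11))) + ((u * ((u * ((i * 35) - 15)) + ((i * (s * (-40))) + (s * 16)))) + ((i * 65) - 29)))) + ((u * ((u * ((i * 10) - 10)) + (s * 16))) + ((i * 30) - 14))) ∧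
      0 < ((x * ((u * ((u * ((i * (-25)) + 25)) + ((i * (s * 40)) + (s * (-8))))) + ((i * (-5)) - 3))) + ((u * ((u * ((i * (-50)) + 10)) + (s * (-16)))) + ((i * 10) + 14))) ∧
      0 < ((x * ((u * ((u * ((u * ((u * (i * (s * (-10)))) + ((i * (-55)) + 35))) + ((i * (s * 20)) + (s * (-4))))) + ((i * 25) - 13))) + ((i * (s * 30)) + (s * (-4))))) + ((u * ((u * ((u * ((u * (i * (s * (-20)))) + ((i * (-60)) + 20))) + (s * (-8)))) + ((i * 20) + 4))) + ((i * (s * 20)) + (s * (-8))))) ∧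
      0 < ((x * ((u * ((u * ((u * ((u * ((i * (s * (-40))) + (s * 10))) + ((i * 35) - 15))) + ((i * (s * 120)) + (s * (-48))))) + ((i * (-5)) - 7))) + (s * 6))) + ((u * ((u * ((u * ((u * ((i * (s * (-30))) + (s * 10))) + ((i * 20) - 20))) + ((i * (s * 60)) + (s * (-36))))) + ((i * 20) - 4))) + ((i * (s * 10)) + (s * 2)))) ∧
      0 < ((x * ((u * ((u * ((u * ((u * ((i * (-25)) - 5)) + ((i * (s * 380)) + (s * (-140))))) + ((i * (-40)) + 40))) + ((i * (s * 60)) + (s * (-12))))) + ((i * (-95)) + 61))) + ((u * ((u * ((u * ((u * 40) + ((i * (s * 160)) + (s * (-160))))) + ((i * (-80)) + 80))) + (s * (-64)))) + ((i * (-80)) + 72))) ∧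
      0 < ((x * ((u * ((u * ((u * ((u * ((i * (s * 15)) + (s * (-15)))) + ((i * 35) - 25))) + ((i * (s * (-80))) + (s * 40)))) + ((i * (-45)) + 7))) + ((i * (s * (-15))) + (s * 7)))) + ((u * ((u * ((u * ((u * ((i * (s * 30)) + (s * (-10)))) + ((i * 20) - 20))) + ((i * (s * (-60))) + (s * 20)))) + ((i * (-20)) + 4))) + ((i * (s * (-10))) + (s * 14)))) ∧
      0 < ((x * ((u * ((u * ((u * ((u * ((i * (s * 5)) + (s * (-5)))) + ((i * (-40)) + 10))) + ((i * (s * (-30))) + (s * 14)))) - 6)) + ((i * (s * 5)) + (s * (-5))))) + ((u * ((u * ((u * ((u * (i * (s * 10))) + ((i * (-30)) + 10))) + ((i * (s * (-20))) + (s * 8)))) + ((i * (-10)) - 2))) + (i * (s * 10)))) := by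
  have h := Pool.Agent.Lib.BoxPos.mainG wc_z1a_check (xs := [x, u, i, s])
    ⟨(by norm_num; linarith), (by norm_num; linarith), (by norm_num; linarith), (by norm_num; linarith), (by norm_num; linarith), (by norm_num; linarith), (by norm_num; linarith), (by norm_num; linarith), trivial⟩
  simp only [Pool.Agent.Lib.BoxPos.DisjG, Pool.Agent.Lib.BoxPos.ConjE, Pool.Agent.Lib.BoxPos.E.ev, Pool.Agent.Lib.BoxPos.get,
    Nat.cast_ofNat, Nat.cast_one, Nat.cast_zero] at h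
  exact h


open Pool.Agent.Lib.BoxPos in
/-- certificate of `wc_z1b` -/
def wc_z1b_tree : GTree :=
  (.leaf 0)

open Pool.Agent.Lib.BoxPos in
theorem wc_z1b_check : checkGE 117 1 [2, 4, 1, 1] [0, 0, 0, 0] [(0, 380, 1000), (41, 330, 1000), (44721, 44722, 100000), (951056, 951057, 1000000)]
    [[(.add (.mul (.v 0) (.add (.mul (.v 0) (.add (.mul (.v 1) (.add (.mul (.v 1) (.sub (.mul (.v 2) (.c 15)) (.c 5))) (.add (.mul (.v 2) (.mul (.v 3) (.neg (.c 20)))) (.mul (.v 3) (.c 4))))) (.sub (.mul (.v 2) (.c 25)) (.c 11)))) (.add (.mul (.v 1) (.add (.mul (.v 1) (.sub (.mul (.v 2) (.c 35)) (.c 15))) (.add (.mul (.v 2) (.mul (.v 3) (.neg (.c 40)))) (.mul (.v 3) (.c 16))))) (.sub (.mul (.v 2) (.c 65)) (.c 29))))) (.add (.mul (.v 1) (.add (.mul (.v 1) (.sub (.mul (.v 2) (.c 10)) (.c 10))) (.mul (.v 3) (.c 16)))) (.sub (.mul (.v 2) (.c 30)) (.c 14)))),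
      (.add (.mul (.v 0) (.add (.mul (.v 1) (.add (.mul (.v 1) (.add (.mul (.v 2) (.neg (.c 25))) (.c 25))) (.add (.mul (.v 2) (.mul (.v 3) (.c 40))) (.mul (.v 3) (.neg (.c 8)))))) (.sub (.mul (.v 2) (.neg (.c 5))) (.c 3)))) (.add (.mul (.v 1) (.add (.mul (.v 1) (.add (.mul (.v 2) (.neg (.c 50))) (.c 10))) (.mul (.v 3) (.neg (.c 16))))) (.add (.mul (.v 2) (.c 10)) (.c 14)))),
      (.add (.mul (.v 0) (.add (.mul (.v 1) (.add (.mul (.v 1) (.add (.mul (.v 1) (.add (.mul (.v 1) (.mul (.v 2) (.mul (.v 3) (.neg (.c 10))))) (.add (.mul (.v 2) (.neg (.c 55))) (.c 35)))) (.add (.mul (.v 2) (.mul (.v 3) (.c 20))) (.mul (.v 3) (.neg (.c 4)))))) (.sub (.mul (.v 2) (.c 25)) (.c 13)))) (.add (.mul (.v 2) (.mul (.v 3) (.c 30))) (.mul (.v 3) (.neg (.c 4)))))) (.add (.mul (.v 1) (.add (.mul (.v 1) (.add (.mul (.v 1) (.add (.mul (.v 1) (.mul (.v 2) (.mul (.v 3) (.neg (.c 20))))) (.add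 (.mul (.v 2) (.neg (.c 60))) (.c 20)))) (.mul (.v 3) (.neg (.c 8))))) (.add (.mul (.v 2) (.c 20)) (.c 4)))) (.add (.mul (.v 2) (.mul (.v 3) (.c 20))) (.mul (.v 3) (.neg (.c 8)))))),
      (.add (.mul (.v 0) (.add (.mul (.v 1) (.add (.mul (.v 1) (.add (.mul (.v 1) (.add (.mul (.v 1) (.add (.mul (.v 2) (.mul (.v 3) (.neg (.c 40)))) (.mul (.v 3) (.c 10)))) (.sub (.mul (.v 2) (.c 35)) (.c 15)))) (.add (.mul (.v 2) (.mul (.v 3) (.c 120))) (.mul (.v 3) (.neg (.c 48)))))) (.sub (.mul (.v 2) (.neg (.c 5))) (.c 7)))) (.mul (.v 3) (.c 6)))) (.add (.mul (.v 1) (.add (.mul (.v 1) (.add (.mul (.v 1) (.add (.mul (.v 1) (.add (.mul (.v 2) (.mul (.v 3) (.neg (.c 30)))) (.mul (.v 3) (.c 10)))) (.sub (.mul (.v 2) (.c 20)) (.c 20)))) (.add (.mul (.v 2) (.mul (.v 3) (.c 60))) (.mul (.v 3) (.neg (.c 36)))))) (.sub (.mul (.v 2) (.c 20)) (.c 4)))) (.add (.mul (.v 2) (.mul (.v 3) (.c 10)))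 (.mul (.v 3) (.c 2))))),
      (.add (.mul (.v 0) (.add (.mul (.v 1) (.add (.mul (.v 1) (.add (.mul (.v 1) (.add (.mul (.v 1) (.sub (.mul (.v 2) (.neg (.c 25))) (.c 5))) (.add (.mul (.v 2) (.mul (.v 3) (.c 380))) (.mul (.v 3) (.neg (.c 140)))))) (.add (.mul (.v 2) (.neg (.c 40))) (.c 40)))) (.add (.mul (.v 2) (.mul (.v 3) (.c 60))) (.mul (.v 3) (.neg (.c 12)))))) (.add (.mul (.v 2) (.neg (.c 95))) (.c 61)))) (.add (.mul (.v 1) (.add (.mul (.v 1) (.add (.mul (.v 1) (.add (.mul (.v 1) (.c 40)) (.add (.mul (.v 2) (.mul (.v 3) (.c 160))) (.mul (.v 3) (.neg (.c 160)))))) (.add (.mul (.v 2) (.neg (.c 80))) (.c 80)))) (.mul (.v 3) (.neg (.c 64))))) (.add (.mul (.v 2) (.neg (.c 80))) (.c 72)))),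
      (.add (.mul (.v 0) (.add (.mul (.v 1) (.add (.mul (.v 1) (.add (.mul (.v 1) (.add (.mul (.v 1) (.add (.mul (.v 2) (.mul (.v 3) (.c 15))) (.mul (.v 3) (.neg (.c 15))))) (.sub (.mul (.v 2) (.c 35)) (.c 25)))) (.add (.mul (.v 2) (.mul (.v 3) (.neg (.c 80)))) (.mul (.v 3) (.c 40))))) (.add (.mul (.v 2) (.neg (.c 45))) (.c 7)))) (.add (.mul (.v 2) (.mul (.v 3) (.neg (.c 15)))) (.mul (.v 3) (.c 7))))) (.add (.mul (.v 1) (.add (.mul (.v 1) (.add (.mul (.v 1) (.add (.mul (.v 1) (.add (.mul (.v 2) (.mul (.v 3) (.c 30))) (.mul (.v 3) (.neg (.c 10))))) (.sub (.mul (.v 2) (.c 20)) (.c 20)))) (.add (.mul (.v 2) (.mul (.v 3) (.neg (.c 60)))) (.mul (.v 3) (.c 20))))) (.add (.mul (.v 2) (.neg (.c 20))) (.c 4)))) (.add (.mul (.v 2) (.mul (.v 3) (.neg (.c 10)))) (.mul (.v 3) (.c 14))))),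
      (.add (.mul (.v 0) (.add (.mul (.v 1) (.sub (.mul (.v 1) (.add (.mul (.v 1) (.add (.mul (.v 1) (.add (.mul (.v 2) (.mul (.v 3) (.c 5))) (.mul (.v 3) (.neg (.c 5))))) (.add (.mul (.v 2) (.neg (.c 40))) (.c 10)))) (.add (.mul (.v 2) (.mul (.v 3) (.neg (.c 30)))) (.mul (.v 3) (.c 14))))) (.c 6))) (.add (.mul (.v 2) (.mul (.v 3) (.c 5))) (.mul (.v 3) (.neg (.c 5)))))) (.add (.mul (.v 1) (.add (.mul (.v 1) (.add (.mul (.v 1) (.add (.mul (.v 1) (.mul (.v 2) (.mul (.v 3) (.c 10)))) (.add (.mul (.v 2) (.neg (.c 30))) (.c 10)))) (.add (.mul (.v 2) (.mul (.v 3) (.neg (.c 20)))) (.mul (.v 3) (.c 8))))) (.sub (.mul (.v 2) (.neg (.c 10))) (.c 2)))) (.mul (.v 2) (.mul (.v 3) (.c 10)))))]]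
    wc_z1b_tree = true := by decide +kernel

theorem wc_z1b (x u i s : ℝ) (hx : (0 / 1000 : ℝ) ≤ x) (hx' : x < (380 / 1000 : ℝ))
    (hu : (41 / 1000 : ℝ) ≤ u) (hu' : u < (330 / 1000 : ℝ))
    (hi : (44721 / 100000 : ℝ) ≤ i) (hi' : i < (44722 / 100000 : ℝ))
    (hs : (951056 / 1000000 : ℝ) ≤ s) (hs' : s < (951057 / 1000000 : ℝ)) :
    0 < ((x * ((x * ((u * ((u * ((i * 15) - 5)) + ((i * (s * (-20))) + (s * 4)))) + ((i * 25) - 11))) + ((u * ((u * ((i * 35) - 15)) + ((i * (s * (-40))) + (s * 16)))) + ((i * 65) - 29)))) + ((u * ((u * ((i * 10) - 10)) + (s * 16))) + ((i * 30) - 14))) ∧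
      0 < ((x * ((u * ((u * ((i * (-25)) + 25)) + ((i * (s * 40)) + (s * (-8))))) + ((i * (-5)) - 3))) + ((u * ((u * ((i * (-50)) + 10)) + (s * (-16)))) + ((i * 10) + 14))) ∧
      0 < ((x * ((u * ((u * ((u * ((u * (i * (s * (-10)))) + ((i * (-55)) + 35))) + ((i * (s * 20)) + (s * (-4))))) + ((i * 25) - 13))) + ((i * (s * 30)) + (s * (-4))))) + ((u * ((u * ((u * ((u * (i * (s * (-20)))) + ((i * (-60)) + 20))) + (s * (-8)))) + ((i * 20) + 4))) + ((i * (s * 20)) + (s * (-8))))) ∧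
      0 < ((x * ((u * ((u * ((u * ((u * ((i * (s * (-40))) + (s * 10))) + ((i * 35) - 15))) + ((i * (s * 120)) + (s * (-48))))) + ((i * (-5)) - 7))) + (s * 6))) + ((u * ((u * ((u * ((u * ((i * (s * (-30))) + (s * 10))) + ((i * 20) - 20))) + ((i * (s * 60)) + (s * (-36))))) + ((i * 20) - 4))) + ((i * (s * 10)) + (s * 2)))) ∧
      0 < ((x * ((u * ((u * ((u * ((u * ((i * (-25)) - 5)) + ((i * (s * 380)) + (s * (-140))))) + ((i * (-40)) + 40))) + ((i * (s * 60)) + (s * (-12))))) + ((i * (-95)) + 61))) + ((u * ((u * ((u * ((u * 40) + ((i * (s * 160)) + (s * (-160))))) + ((i * (-80)) + 80))) + (s * (-64)))) + ((i * (-80)) + 72))) ∧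
      0 < ((x * ((u * ((u * ((u * ((u * ((i * (s * 15)) + (s * (-15)))) + ((i * 35) - 25))) + ((i * (s * (-80))) + (s * 40)))) + ((i * (-45)) + 7))) + ((i * (s * (-15))) + (s * 7)))) + ((u * ((u * ((u * ((u * ((i * (s * 30)) + (s * (-10)))) + ((i * 20) - 20))) + ((i * (s * (-60))) + (s * 20)))) + ((i * (-20)) + 4))) + ((i * (s * (-10))) + (s * 14)))) ∧
      0 < ((x * ((u * ((u * ((u * ((u * ((i * (s * 5)) + (s * (-5)))) + ((i * (-40)) + 10))) + ((i * (s * (-30))) + (s * 14)))) - 6)) + ((i * (s * 5)) + (s * (-5))))) + ((u * ((u * ((u * ((u * (i * (s * 10))) + ((i * (-30)) + 10))) + ((i * (s * (-20))) + (s * 8)))) + ((i * (-10)) - 2))) + (i * (s * 10)))) := by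
  have h := Pool.Agent.Lib.BoxPos.mainG wc_z1b_check (xs := [x, u, i, s])
    ⟨(by norm_num; linarith), (by norm_num; linarith), (by norm_num; linarith), (by norm_num; linarith), (by norm_num; linarith), (by norm_num; linarith), (by norm_num; linarith), (by norm_num; linarith), trivial⟩
  simp only [Pool.Agent.Lib.BoxPos.DisjG, Pool.Agent.Lib.BoxPos.ConjE, Pool.Agent.Lib.BoxPos.E.ev, Pool.Agent.Lib.BoxPos.get,
    Nat.cast_ofNat, Nat.cast_one, Nat.cast_zero] at h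
  exact h


open Pool.Agent.Lib.BoxPos in
/-- certificate of `wc_z5a` -/
def wc_z5a_tree : GTree :=
  (.leaf 0)

open Pool.Agent.Lib.BoxPos in
theorem wc_z5a_check : checkGE 144 1 [2, 6, 1, 1] [0, 0, 0, 0] [(380, 500, 1000), (280, 330, 1000), (44721, 44722, 100000), (951056, 951057, 1000000)]
    [[(.add (.mul (.v 0) (.add (.mul (.v 0) (.add (.mul (.v 1) (.add (.mul (.v 1) (.add (.mul (.v 1) (.add (.mul (.v 1) (.sub (.mul (.v 2) (.neg (.c 1250))) (.c 1519))) (.add (.mul (.v 2) (.mul (.v 3) (.neg (.c 7500)))) (.mul (.v 3) (.c 2500))))) (.sub (.mul (.v 2) (.c 2500)) (.c 3038)))) (.add (.mul (.v 2) (.mul (.v 3) (.c 7500))) (.mul (.v 3) (.neg (.c 2500)))))) (.sub (.mul (.v 2) (.neg (.c 1250))) (.c 1519)))) (.add (.mul (.v 1) (.add (.mul (.v 1) (.mul (.v 1) (.add (.mul (.v 1) (.sub (.mul (.v 2) (.c 1250)) (.c 1250))) (.mul (.v 2) (.mul (.v 3) (.c 10000)))))) (.mul (.v 2)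 (.mul (.v 3) (.c 10000))))) (.add (.mul (.v 2) (.neg (.c 1250))) (.c 1250))))) (.add (.mul (.v 1) (.mul (.v 1) (.add (.mul (.v 1) (.mul (.v 1) (.sub (.mul (.v 2) (.c 1250)) (.c 894)))) (.sub (.mul (.v 2) (.c 2500)) (.c 1788))))) (.sub (.mul (.v 2) (.c 1250)) (.c 894)))),
      (.add (.mul (.v 0) (.add (.mul (.v 1) (.add (.mul (.v 1) (.add (.mul (.v 1) (.mul (.v 1) (.sub (.mul (.v 2) (.c 5)) (.c 5)))) (.sub (.mul (.v 2) (.c 20)) (.c 16)))) (.add (.mul (.v 2) (.mul (.v 3) (.c 40))) (.mul (.v 3) (.neg (.c 8)))))) (.add (.mul (.v 2) (.neg (.c 5))) (.c 1)))) (.add (.mul (.v 1) (.mul (.v 1) (.add (.mul (.v 1) (.mul (.v 1) (.sub (.mul (.v 2) (.c 10)) (.c 10)))) (.sub (.mul (.v 2) (.c 20)) (.c 12))))) (.sub (.mul (.v 2) (.c 10)) (.c 2)))),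
      (.add (.mul (.v 0) (.add (.mul (.v 1) (.add (.mul (.v 1) (.add (.mul (.v 1) (.add (.mul (.v 1) (.add (.mul (.v 2) (.neg (.c 10))) (.c 5))) (.add (.mul (.v 2) (.mul (.v 3) (.c 20))) (.mul (.v 3) (.neg (.c 20)))))) (.sub (.mul (.v 2) (.c 40)) (.c 6)))) (.add (.mul (.v 2) (.mul (.v 3) (.neg (.c 60)))) (.mul (.v 3) (.c 12))))) (.add (.mul (.v 2) (.neg (.c 10))) (.c 1)))) (.add (.mul (.v 1) (.add (.mul (.v 1) (.add (.mul (.v 1) (.add (.mul (.v 1) (.add (.mul (.v 2) (.c 5)) (.c 5))) (.add (.mul (.v 2) (.mul (.v 3) (.neg (.c 20)))) (.mul (.v 3) (.c 20))))) (.c 8))) (.add (.mul (.v 2) (.mul (.v 3) (.neg (.c 20)))) (.mul (.v 3) (.c 20))))) (.add (.mul (.v 2) (.neg (.c 5))) (.c 3)))),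
      (.add (.mul (.v 0) (.add (.mul (.v 1) (.add (.mul (.v 1) (.add (.mul (.v 1) (.add (.mul (.v 1) (.add (.mul (.v 1) (.add (.mul (.v 1) (.add (.mul (.v 2) (.mul (.v 3) (.neg (.c 5)))) (.mul (.v 3) (.c 15)))) (.add (.mul (.v 2) (.neg (.c 50))) (.c 20)))) (.add (.mul (.v 2) (.mul (.v 3) (.c 55))) (.mul (.v 3) (.neg (.c 53)))))) (.sub (.mul (.v 2) (.c 100)) (.c 32)))) (.add (.mul (.v 2) (.mul (.v 3) (.neg (.c 115)))) (.mul (.v 3) (.c 25))))) (.add (.mul (.v 2) (.neg (.c 10))) (.c 12)))) (.add (.mul (.v 2) (.mul (.v 3) (.neg (.c 15)))) (.mul (.v 3) (.neg (.c 3)))))) (.add (.mul (.v 1) (.add (.mul (.v 1) (.add (.mul (.v 1) (.add (.mul (.v 1) (.add (.mul (.v 1) (.mul (.v 1) (.add (.mul (.v 2) (.mul (.v 3) (.neg (.c 10)))) (.mul (.v 3) (.c 10))))) (.add (.mul (.v 2) (.mul (.v 3) (.neg (.c 70)))) (.mul (.v 3) (.c 54))))) (.c 16))) (.add (.mul (.v 2) (.mul (.v 3) (.neg (.c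 30)))) (.mul (.v 3) (.c 30))))) (.c 16))) (.add (.mul (.v 2) (.mul (.v 3) (.c 30))) (.mul (.v 3) (.neg (.c 14)))))),
      (.add (.mul (.v 0) (.add (.mul (.v 1) (.add (.mul (.v 1) (.add (.mul (.v 1) (.add (.mul (.v 1) (.add (.mul (.v 1) (.add (.mul (.v 1) (.add (.mul (.v 2) (.neg (.c 25))) (.c 45))) (.mul (.v 2) (.mul (.v 3) (.c 200))))) (.add (.mul (.v 2) (.neg (.c 45))) (.c 25)))) (.add (.mul (.v 2) (.mul (.v 3) (.c 80))) (.mul (.v 3) (.c 64))))) (.add (.mul (.v 2) (.neg (.c 335))) (.c 171)))) (.add (.mul (.v 2) (.mul (.v 3) (.neg (.c 120)))) (.mul (.v 3) (.c 64))))) (.sub (.mul (.v 2) (.c 5)) (.c 1)))) (.add (.mul (.v 1) (.add (.mul (.v 1) (.add (.mul (.v 1) (.add (.mul (.v 1) (.add (.mul (.v 1) (.mul (.v 1) (.add (.mul (.v 2) (.neg (.c 50))) (.c 90)))) (.add (.mul (.v 2) (.neg (.c 190))) (.c 230)))) (.add (.mul (.v 2) (.mul (.v 3) (.c 160))) (.mul (.v 3) (.neg (.c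 32)))))) (.add (.mul (.v 2) (.neg (.c 150))) (.c 142)))) (.add (.mul (.v 2) (.mul (.v 3) (.c 160))) (.mul (.v 3) (.neg (.c 32)))))) (.add (.mul (.v 2) (.neg (.c 10))) (.c 2)))),
      (.add (.mul (.v 0) (.add (.mul (.v 1) (.add (.mul (.v 1) (.add (.mul (.v 1) (.add (.mul (.v 1) (.add (.mul (.v 1) (.add (.mul (.v 1) (.mul (.v 3) (.c 10))) (.sub (.mul (.v 2) (.c 75)) (.c 15)))) (.add (.mul (.v 2) (.mul (.v 3) (.c 80))) (.mul (.v 3) (.neg (.c 70)))))) (.add (.mul (.v 2) (.neg (.c 50))) (.c 42)))) (.add (.mul (.v 2) (.mul (.v 3) (.neg (.c 80)))) (.mul (.v 3) (.c 6))))) (.sub (.mul (.v 2) (.c 35)) (.c 7)))) (.mul (.v 3) (.neg (.c 10))))) (.mul (.v 1) (.add (.mul (.v 1) (.mul (.v 1) (.sub (.mul (.v 2) (.c 80)) (.c 16)))) (.sub (.mul (.v 2) (.c 80)) (.c 16))))),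
      (.add (.mul (.v 0) (.add (.mul (.v 1) (.add (.mul (.v 1) (.add (.mul (.v 1) (.add (.mul (.v 1) (.add (.mul (.v 1) (.add (.mul (.v 1) (.add (.mul (.v 2) (.mul (.v 3) (.c 35))) (.mul (.v 3) (.neg (.c 5))))) (.mul (.v 2) (.neg (.c 50))))) (.add (.mul (.v 2) (.mul (.v 3) (.neg (.c 185)))) (.mul (.v 3) (.c 71))))) (.sub (.mul (.v 2) (.c 20)) (.c 8)))) (.add (.mul (.v 2) (.mul (.v 3) (.c 85))) (.mul (.v 3) (.neg (.c 51)))))) (.add (.mul (.v 2) (.neg (.c 10))) (.c 8)))) (.add (.mul (.v 2) (.mul (.v 3) (.neg (.c 15)))) (.v 3)))) (.add (.mul (.v 1) (.add (.mul (.v 1) (.add (.mul (.v 1) (.add (.mul (.v 1) (.add (.mul (.v 1) (.mul (.v 1) (.mul (.v 2) (.mul (.v 3) (.c 20))))) (.add (.mul (.v 2) (.mul (.v 3) (.c 100))) (.mul (.v 3) (.neg (.c 8)))))) (.add (.mul (.v 2) (.neg (.c 40))) (.c 24)))) (.mul (.v 2) (.mul (.v 3) (.c 60))))) (.add (.mul (.v 2) (.neg (.c 40))) (.c 24))))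 (.add (.mul (.v 2) (.mul (.v 3) (.neg (.c 20)))) (.mul (.v 3) (.c 8))))),
      (.add (.mul (.v 0) (.add (.mul (.v 1) (.add (.mul (.v 1) (.add (.mul (.v 1) (.add (.mul (.v 1) (.add (.mul (.v 1) (.add (.mul (.v 1) (.add (.mul (.v 2) (.mul (.v 3) (.c 15))) (.mul (.v 3) (.neg (.c 5))))) (.add (.mul (.v 2) (.c 25)) (.c 5)))) (.add (.mul (.v 2) (.mul (.v 3) (.neg (.c 95)))) (.mul (.v 3) (.c 29))))) (.add (.mul (.v 2) (.neg (.c 10))) (.c 14)))) (.add (.mul (.v 2) (.mul (.v 3) (.c 45))) (.mul (.v 3) (.neg (.c 31)))))) (.add (.mul (.v 2) (.c 5)) (.c 1)))) (.add (.mul (.v 2) (.mul (.v 3) (.neg (.c 5)))) (.mul (.v 3) (.neg (.c 1)))))) (.add (.mul (.v 1) (.add (.mul (.v 1) (.add (.mul (.v 1) (.add (.mul (.v 1) (.add (.mul (.v 1) (.mul (.v 1) (.add (.mul (.v 2) (.mul (.v 3) (.c 5))) (.mul (.v 3) (.neg (.c 5)))))) (.add (.mul (.v 2) (.mul (.v 3) (.c 35))) (.mul (.v 3) (.neg (.c 27))))))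 (.c 8))) (.add (.mul (.v 2) (.mul (.v 3) (.c 15))) (.mul (.v 3) (.neg (.c 15)))))) (.c 8))) (.add (.mul (.v 2) (.mul (.v 3) (.neg (.c 15)))) (.mul (.v 3) (.c 7)))))]]
    wc_z5a_tree = true := by decide +kernel

theorem wc_z5a (x u i s : ℝ) (hx : (380 / 1000 : ℝ) ≤ x) (hx' : x < (500 / 1000 : ℝ))
    (hu : (280 / 1000 : ℝ) ≤ u) (hu' : u < (330 / 1000 : ℝ))
    (hi : (44721 / 100000 : ℝ) ≤ i) (hi' : i < (44722 / 100000 : ℝ))
    (hs : (951056 / 1000000 : ℝ) ≤ s) (hs' : s < (951057 / 1000000 : ℝ)) :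
    0 < ((x * ((x * ((u * ((u * ((u * ((u * ((i * (-1250)) - 1519)) + ((i * (s * (-7500))) + (s * 2500)))) + ((i * 2500) - 3038))) + ((i * (s * 7500)) + (s * (-2500))))) + ((i * (-1250)) - 1519))) + ((u * ((u * (u * ((u * ((i * 1250) - 1250)) + (i * (s * 10000))))) + (i * (s * 10000)))) + ((i * (-1250)) + 1250)))) + ((u * (u * ((u * (u * ((i * 1250) - 894))) + ((i * 2500) - 1788)))) + ((i * 1250) - 894))) ∧
      0 < ((x * ((u * ((u * ((u * (u * ((i * 5) - 5))) + ((i * 20) - 16))) + ((i * (s * 40)) + (s * (-8))))) + ((i * (-5)) + 1))) + ((u * (u * ((u * (u * ((i * 10) - 10))) + ((i * 20) - 12)))) + ((i * 10) - 2))) ∧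
      0 < ((x * ((u * ((u * ((u * ((u * ((i * (-10)) + 5)) + ((i * (s * 20)) + (s * (-20))))) + ((i * 40) - 6))) + ((i * (s * (-60))) + (s * 12)))) + ((i * (-10)) + 1))) + ((u * ((u * ((u * ((u * ((i * 5) + 5)) + ((i * (s * (-20))) + (s * 20)))) + 8)) + ((i * (s * (-20))) + (s * 20)))) + ((i * (-5)) + 3))) ∧
      0 < ((x * ((u * ((u * ((u * ((u * ((u * ((u * ((i * (s * (-5))) + (s * 15))) + ((i * (-50)) + 20))) + ((i * (s * 55)) + (s * (-53))))) + ((i * 100) - 32))) + ((i * (s * (-115))) + (s * 25)))) + ((i * (-10)) + 12))) + ((i * (s * (-15))) + (s * (-3))))) + ((u * ((u * ((u * ((u * ((u * (u * ((i * (s * (-10))) + (s * 10)))) + ((i * (s * (-70))) + (s * 54)))) + 16)) + ((i * (s * (-30))) + (s * 30)))) + 16)) + ((i * (s * 30)) + (s * (-14))))) ∧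
      0 < ((x * ((u * ((u * ((u * ((u * ((u * ((u * ((i * (-25)) + 45)) + (i * (s * 200)))) + ((i * (-45)) + 25))) + ((i * (s * 80)) + (s * 64)))) + ((i * (-335)) + 171))) + ((i * (s * (-120))) + (s * 64)))) + ((i * 5) - 1))) + ((u * ((u * ((u * ((u * ((u * (u * ((i * (-50)) + 90))) + ((i * (-190)) + 230))) + ((i * (s * 160)) + (s * (-32))))) + ((i * (-150)) + 142))) + ((i * (s * 160)) + (s * (-32))))) + ((i * (-10)) + 2))) ∧
      0 < ((x * ((u * ((u * ((u * ((u * ((u * ((u * (s * 10)) + ((i * 75) - 15))) + ((i * (s * 80)) + (s * (-70))))) + ((i * (-50)) + 42))) + ((i * (s * (-80))) + (s * 6)))) + ((i * 35) - 7))) + (s * (-10)))) + (u * ((u * (u * ((i * 80) - 16))) + ((i * 80) - 16)))) ∧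
      0 < ((x * ((u * ((u * ((u * ((u * ((u * ((u * ((i * (s * 35)) + (s * (-5)))) + (i * (-50)))) + ((i * (s * (-185))) + (s * 71)))) + ((i * 20) - 8))) + ((i * (s * 85)) + (s * (-51))))) + ((i * (-10)) + 8))) + ((i * (s * (-15))) + s))) + ((u * ((u * ((u * ((u * ((u * (u * (i * (s * 20)))) + ((i * (s * 100)) + (s * (-8))))) + ((i * (-40)) + 24))) + (i * (s * 60)))) + ((i * (-40)) + 24))) + ((i * (s * (-20))) + (s * 8)))) ∧
      0 < ((x * ((u * ((u * ((u * ((u * ((u * ((u * ((i * (s * 15)) + (s * (-5)))) + ((i * 25) + 5))) + ((i * (s * (-95))) + (s * 29)))) + ((i * (-10)) + 14))) + ((i * (s * 45)) + (s * (-31))))) + ((i * 5) + 1))) + ((i * (s * (-5))) + (s * (-1))))) + ((u * ((u * ((u * ((u * ((u * (u * ((i * (s * 5)) + (s * (-5))))) + ((i * (s * 35)) + (s * (-27))))) + 8)) + ((i * (s * 15)) + (s * (-15))))) + 8)) + ((i * (s * (-15))) + (s * 7)))) := by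
  have h := Pool.Agent.Lib.BoxPos.mainG wc_z5a_check (xs := [x, u, i, s])
    ⟨(by norm_num; linarith), (by norm_num; linarith), (by norm_num; linarith), (by norm_num; linarith), (by norm_num; linarith), (by norm_num; linarith), (by norm_num; linarith), (by norm_num; linarith), trivial⟩
  simp only [Pool.Agent.Lib.BoxPos.DisjG, Pool.Agent.Lib.BoxPos.ConjE, Pool.Agent.Lib.BoxPos.E.ev, Pool.Agent.Lib.BoxPos.get,
    Nat.cast_ofNat, Nat.cast_one, Nat.cast_zero] at h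
  exact h


open Pool.Agent.Lib.BoxPos in
/-- certificate of `wc_z2a` -/
def wc_z2a_tree : GTree :=
  (.leaf 0)

open Pool.Agent.Lib.BoxPos in
theorem wc_z2a_check : checkGE 116 1 [2, 4, 1, 1] [0, 0, 0, 0] [(500, 770, 1000), (60, 330, 1000), (44721, 44722, 100000), (951056, 951057, 1000000)]
    [[(.add (.mul (.v 0) (.add (.mul (.v 0) (.add (.mul (.v 1) (.mul (.v 1) (.sub (.mul (.v 2) (.c 15)) (.c 5)))) (.sub (.mul (.v 2) (.c 5)) (.c 3)))) (.add (.mul (.v 1) (.mul (.v 1) (.sub (.mul (.v 2) (.c 35)) (.c 15)))) (.sub (.mul (.v 2) (.c 15)) (.c 7))))) (.add (.mul (.v 1) (.mul (.v 1) (.sub (.mul (.v 2) (.c 10)) (.c 10)))) (.sub (.mul (.v 2) (.c 10)) (.c 2)))),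
      (.add (.mul (.v 0) (.add (.mul (.v 1) (.add (.mul (.v 1) (.mul (.v 2) (.mul (.v 3) (.c 5)))) (.add (.mul (.v 2) (.neg (.c 15))) (.c 5)))) (.add (.mul (.v 2) (.mul (.v 3) (.c 15))) (.mul (.v 3) (.neg (.c 2)))))) (.add (.mul (.v 1) (.add (.mul (.v 1) (.mul (.v 2) (.mul (.v 3) (.c 10)))) (.add (.mul (.v 2) (.neg (.c 5))) (.c 5)))) (.add (.mul (.v 2) (.mul (.v 3) (.c 10))) (.mul (.v 3) (.neg (.c 4)))))),
      (.add (.mul (.v 0) (.add (.mul (.v 1) (.add (.mul (.v 1) (.add (.mul (.v 1) (.add (.mul (.v 1) (.mul (.v 2) (.mul (.v 3) (.neg (.c 10))))) (.sub (.mul (.v 2) (.c 25)) (.c 5)))) (.add (.mul (.v 2) (.mul (.v 3) (.neg (.c 60)))) (.mul (.v 3) (.c 44))))) (.add (.mul (.v 2) (.neg (.c 55))) (.c 27)))) (.add (.mul (.v 2) (.mul (.v 3) (.c 30))) (.mul (.v 3) (.neg (.c 4)))))) (.add (.mul (.v 1) (.add (.mul (.v 1) (.add (.mul (.v 1) (.mul (.v 1) (.mul (.v 2) (.mul (.v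 3) (.neg (.c 20)))))) (.add (.mul (.v 2) (.mul (.v 3) (.neg (.c 80)))) (.mul (.v 3) (.c 8))))) (.add (.mul (.v 2) (.neg (.c 40))) (.c 24)))) (.add (.mul (.v 2) (.mul (.v 3) (.c 20))) (.mul (.v 3) (.neg (.c 8)))))),
      (.add (.mul (.v 0) (.add (.mul (.v 1) (.add (.mul (.v 1) (.add (.mul (.v 1) (.add (.mul (.v 1) (.mul (.v 2) (.mul (.v 3) (.neg (.c 10))))) (.add (.mul (.v 2) (.neg (.c 25))) (.c 5)))) (.add (.mul (.v 2) (.mul (.v 3) (.neg (.c 60)))) (.mul (.v 3) (.c 44))))) (.sub (.mul (.v 2) (.c 55)) (.c 27)))) (.add (.mul (.v 2) (.mul (.v 3) (.c 30))) (.mul (.v 3) (.neg (.c 4)))))) (.add (.mul (.v 1) (.add (.mul (.v 1) (.add (.mul (.v 1) (.mul (.v 1) (.mul (.v 2) (.mul (.v 3) (.neg (.c 20)))))) (.add (.mul (.v 2) (.mul (.v 3) (.neg (.c 80)))) (.mul (.v 3) (.c 8))))) (.sub (.mul (.v 2) (.c 40)) (.c 24)))) (.add (.mul (.v 2) (.mul (.v 3) (.c 20))) (.mul (.v 3) (.neg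 (.c 8)))))),
      (.add (.mul (.v 0) (.add (.mul (.v 1) (.add (.mul (.v 1) (.add (.mul (.v 1) (.add (.mul (.v 1) (.add (.mul (.v 2) (.mul (.v 3) (.c 5))) (.mul (.v 3) (.neg (.c 5))))) (.add (.mul (.v 2) (.c 25)) (.c 5)))) (.add (.mul (.v 2) (.mul (.v 3) (.c 140))) (.mul (.v 3) (.neg (.c 52)))))) (.add (.mul (.v 2) (.neg (.c 15))) (.c 13)))) (.add (.mul (.v 2) (.mul (.v 3) (.neg (.c 25)))) (.mul (.v 3) (.c 17))))) (.add (.mul (.v 1) (.add (.mul (.v 1) (.add (.mul (.v 1) (.mul (.v 1) (.add (.mul (.v 2) (.mul (.v 3) (.c 10))) (.mul (.v 3) (.neg (.c 10)))))) (.add (.mul (.v 2) (.mul (.v 3) (.c 60))) (.mul (.v 3) (.neg (.c 44)))))) (.c 16))) (.add (.mul (.v 2) (.mul (.v 3) (.neg (.c 30)))) (.mul (.v 3) (.c 14))))),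
      (.add (.mul (.v 0) (.add (.mul (.v 1) (.mul (.v 1) (.add (.mul (.v 1) (.mul (.v 1) (.add (.mul (.v 2) (.neg (.c 25))) (.c 10)))) (.sub (.mul (.v 2) (.c 10)) (.c 10))))) (.add (.mul (.v 2) (.neg (.c 5))) (.c 4)))) (.add (.mul (.v 1) (.mul (.v 1) (.add (.mul (.v 1) (.mul (.v 1) (.c 20))) (.add (.mul (.v 2) (.c 20)) (.c 20))))) (.add (.mul (.v 2) (.neg (.c 20))) (.c 8)))),
      (.add (.mul (.v 0) (.add (.mul (.v 1) (.add (.mul (.v 1) (.add (.mul (.v 1) (.add (.mul (.v 1) (.add (.mul (.v 2) (.neg (.c 125))) (.c 35))) (.add (.mul (.v 2) (.mul (.v 3) (.c 100))) (.mul (.v 3) (.neg (.c 20)))))) (.c 40))) (.add (.mul (.v 2) (.mul (.v 3) (.neg (.c 220)))) (.mul (.v 3) (.c 108))))) (.add (.mul (.v 2) (.c 45)) (.c 21)))) (.add (.mul (.v 1) (.add (.mul (.v 1) (.add (.mul (.v 1) (.mul (.v 1) (.add (.mul (.v 2) (.neg (.c 50))) (.c 70)))) (.add (.mul (.v 2) (.neg (.c 100))) (.c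 60)))) (.add (.mul (.v 2) (.mul (.v 3) (.neg (.c 160)))) (.mul (.v 3) (.c 96))))) (.add (.mul (.v 2) (.neg (.c 50))) (.c 22))))]]
    wc_z2a_tree = true := by decide +kernel

theorem wc_z2a (x u i s : ℝ) (hx : (500 / 1000 : ℝ) ≤ x) (hx' : x < (770 / 1000 : ℝ))
    (hu : (60 / 1000 : ℝ) ≤ u) (hu' : u < (330 / 1000 : ℝ))
    (hi : (44721 / 100000 : ℝ) ≤ i) (hi' : i < (44722 / 100000 : ℝ))
    (hs : (951056 / 1000000 : ℝ) ≤ s) (hs' : s < (951057 / 1000000 : ℝ)) :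
    0 < ((x * ((x * ((u * (u * ((i * 15) - 5))) + ((i * 5) - 3))) + ((u * (u * ((i * 35) - 15))) + ((i * 15) - 7)))) + ((u * (u * ((i * 10) - 10))) + ((i * 10) - 2))) ∧
      0 < ((x * ((u * ((u * (i * (s * 5))) + ((i * (-15)) + 5))) + ((i * (s * 15)) + (s * (-2))))) + ((u * ((u * (i * (s * 10))) + ((i * (-5)) + 5))) + ((i * (s * 10)) + (s * (-4))))) ∧
      0 < ((x * ((u * ((u * ((u * ((u * (i * (s * (-10)))) + ((i * 25) - 5))) + ((i * (s * (-60))) + (s * 44)))) + ((i * (-55)) + 27))) + ((i * (s * 30)) + (s * (-4))))) + ((u * ((u * ((u * (u * (i * (s * (-20))))) + ((i * (s * (-80))) + (s * 8)))) + ((i * (-40)) + 24))) + ((i * (s * 20)) + (s * (-8))))) ∧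
      0 < ((x * ((u * ((u * ((u * ((u * (i * (s * (-10)))) + ((i * (-25)) + 5))) + ((i * (s * (-60))) + (s * 44)))) + ((i * 55) - 27))) + ((i * (s * 30)) + (s * (-4))))) + ((u * ((u * ((u * (u * (i * (s * (-20))))) + ((i * (s * (-80))) + (s * 8)))) + ((i * 40) - 24))) + ((i * (s * 20)) + (s * (-8))))) ∧
      0 < ((x * ((u * ((u * ((u * ((u * ((i * (s * 5)) + (s * (-5)))) + ((i * 25) + 5))) + ((i * (s * 140)) + (s * (-52))))) + ((i * (-15)) + 13))) + ((i * (s * (-25))) + (s * 17)))) + ((u * ((u * ((u * (u * ((i * (s * 10)) + (s * (-10))))) + ((i * (s * 60)) + (s * (-44))))) + 16)) + ((i * (s * (-30))) + (s * 14)))) ∧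
      0 < ((x * ((u * (u * ((u * (u * ((i * (-25)) + 10))) + ((i * 10) - 10)))) + ((i * (-5)) + 4))) + ((u * (u * ((u * (u * 20)) + ((i * 20) + 20)))) + ((i * (-20)) + 8))) ∧
      0 < ((x * ((u * ((u * ((u * ((u * ((i * (-125)) + 35)) + ((i * (s * 100)) + (s * (-20))))) + 40)) + ((i * (s * (-220))) + (s * 108)))) + ((i * 45) + 21))) + ((u * ((u * ((u * (u * ((i * (-50)) + 70))) + ((i * (-100)) + 60))) + ((i * (s * (-160))) + (s * 96)))) + ((i * (-50)) + 22))) := by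
  have h := Pool.Agent.Lib.BoxPos.mainG wc_z2a_check (xs := [x, u, i, s])
    ⟨(by norm_num; linarith), (by norm_num; linarith), (by norm_num; linarith), (by norm_num; linarith), (by norm_num; linarith), (by norm_num; linarith), (by norm_num; linarith), (by norm_num; linarith), trivial⟩
  simp only [Pool.Agent.Lib.BoxPos.DisjG, Pool.Agent.Lib.BoxPos.ConjE, Pool.Agent.Lib.BoxPos.E.ev, Pool.Agent.Lib.BoxPos.get,
    Nat.cast_ofNat, Nat.cast_one, Nat.cast_zero] at h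
  exact h


open Pool.Agent.Lib.BoxPos in
/-- certificate of `wc_z2b` -/
def wc_z2b_tree : GTree :=
  (.leaf 0)

open Pool.Agent.Lib.BoxPos in
theorem wc_z2b_check : checkGE 116 1 [2, 4, 1, 1] [0, 0, 0, 0] [(540, 770, 1000), (0, 330, 1000), (44721, 44722, 100000), (951056, 951057, 1000000)]
    [[(.add (.mul (.v 0) (.add (.mul (.v 0) (.add (.mul (.v 1) (.mul (.v 1) (.sub (.mul (.v 2) (.c 15)) (.c 5)))) (.sub (.mul (.v 2) (.c 5)) (.c 3)))) (.add (.mul (.v 1) (.mul (.v 1) (.sub (.mul (.v 2) (.c 35)) (.c 15)))) (.sub (.mul (.v 2) (.c 15)) (.c 7))))) (.add (.mul (.v 1) (.mul (.v 1) (.sub (.mul (.v 2) (.c 10)) (.c 10)))) (.sub (.mul (.v 2) (.c 10)) (.c 2)))),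
      (.add (.mul (.v 0) (.add (.mul (.v 1) (.add (.mul (.v 1) (.mul (.v 2) (.mul (.v 3) (.c 5)))) (.add (.mul (.v 2) (.neg (.c 15))) (.c 5)))) (.add (.mul (.v 2) (.mul (.v 3) (.c 15))) (.mul (.v 3) (.neg (.c 2)))))) (.add (.mul (.v 1) (.add (.mul (.v 1) (.mul (.v 2) (.mul (.v 3) (.c 10)))) (.add (.mul (.v 2) (.neg (.c 5))) (.c 5)))) (.add (.mul (.v 2) (.mul (.v 3) (.c 10))) (.mul (.v 3) (.neg (.c 4)))))),
      (.add (.mul (.v 0) (.add (.mul (.v 1) (.add (.mul (.v 1) (.add (.mul (.v 1) (.add (.mul (.v 1) (.mul (.v 2) (.mul (.v 3) (.neg (.c 10))))) (.sub (.mul (.v 2) (.c 25)) (.c 5)))) (.add (.mul (.v 2) (.mul (.v 3) (.neg (.c 60)))) (.mul (.v 3) (.c 44))))) (.add (.mul (.v 2) (.neg (.c 55))) (.c 27)))) (.add (.mul (.v 2) (.mul (.v 3) (.c 30))) (.mul (.v 3) (.neg (.c 4)))))) (.add (.mul (.v 1) (.add (.mul (.v 1) (.add (.mul (.v 1) (.mul (.v 1) (.mul (.v 2) (.mul (.v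 3) (.neg (.c 20)))))) (.add (.mul (.v 2) (.mul (.v 3) (.neg (.c 80)))) (.mul (.v 3) (.c 8))))) (.add (.mul (.v 2) (.neg (.c 40))) (.c 24)))) (.add (.mul (.v 2) (.mul (.v 3) (.c 20))) (.mul (.v 3) (.neg (.c 8)))))),
      (.add (.mul (.v 0) (.add (.mul (.v 1) (.add (.mul (.v 1) (.add (.mul (.v 1) (.add (.mul (.v 1) (.mul (.v 2) (.mul (.v 3) (.neg (.c 10))))) (.add (.mul (.v 2) (.neg (.c 25))) (.c 5)))) (.add (.mul (.v 2) (.mul (.v 3) (.neg (.c 60)))) (.mul (.v 3) (.c 44))))) (.sub (.mul (.v 2) (.c 55)) (.c 27)))) (.add (.mul (.v 2) (.mul (.v 3) (.c 30))) (.mul (.v 3) (.neg (.c 4)))))) (.add (.mul (.v 1) (.add (.mul (.v 1) (.add (.mul (.v 1) (.mul (.v 1) (.mul (.v 2) (.mul (.v 3) (.neg (.c 20)))))) (.add (.mul (.v 2) (.mul (.v 3) (.neg (.c 80)))) (.mul (.v 3) (.c 8))))) (.sub (.mul (.v 2) (.c 40)) (.c 24)))) (.add (.mul (.v 2) (.mul (.v 3) (.c 20))) (.mul (.v 3) (.neg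 (.c 8)))))),
      (.add (.mul (.v 0) (.add (.mul (.v 1) (.add (.mul (.v 1) (.add (.mul (.v 1) (.add (.mul (.v 1) (.add (.mul (.v 2) (.mul (.v 3) (.c 5))) (.mul (.v 3) (.neg (.c 5))))) (.add (.mul (.v 2) (.c 25)) (.c 5)))) (.add (.mul (.v 2) (.mul (.v 3) (.c 140))) (.mul (.v 3) (.neg (.c 52)))))) (.add (.mul (.v 2) (.neg (.c 15))) (.c 13)))) (.add (.mul (.v 2) (.mul (.v 3) (.neg (.c 25)))) (.mul (.v 3) (.c 17))))) (.add (.mul (.v 1) (.add (.mul (.v 1) (.add (.mul (.v 1) (.mul (.v 1) (.add (.mul (.v 2) (.mul (.v 3) (.c 10))) (.mul (.v 3) (.neg (.c 10)))))) (.add (.mul (.v 2) (.mul (.v 3) (.c 60))) (.mul (.v 3) (.neg (.c 44)))))) (.c 16))) (.add (.mul (.v 2) (.mul (.v 3) (.neg (.c 30)))) (.mul (.v 3) (.c 14))))),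
      (.add (.mul (.v 0) (.add (.mul (.v 1) (.mul (.v 1) (.add (.mul (.v 1) (.mul (.v 1) (.add (.mul (.v 2) (.neg (.c 25))) (.c 10)))) (.sub (.mul (.v 2) (.c 10)) (.c 10))))) (.add (.mul (.v 2) (.neg (.c 5))) (.c 4)))) (.add (.mul (.v 1) (.mul (.v 1) (.add (.mul (.v 1) (.mul (.v 1) (.c 20))) (.add (.mul (.v 2) (.c 20)) (.c 20))))) (.add (.mul (.v 2) (.neg (.c 20))) (.c 8)))),
      (.add (.mul (.v 0) (.add (.mul (.v 1) (.add (.mul (.v 1) (.add (.mul (.v 1) (.add (.mul (.v 1) (.add (.mul (.v 2) (.neg (.c 125))) (.c 35))) (.add (.mul (.v 2) (.mul (.v 3) (.c 100))) (.mul (.v 3) (.neg (.c 20)))))) (.c 40))) (.add (.mul (.v 2) (.mul (.v 3) (.neg (.c 220)))) (.mul (.v 3) (.c 108))))) (.add (.mul (.v 2) (.c 45)) (.c 21)))) (.add (.mul (.v 1) (.add (.mul (.v 1) (.add (.mul (.v 1) (.mul (.v 1) (.add (.mul (.v 2) (.neg (.c 50))) (.c 70)))) (.add (.mul (.v 2) (.neg (.c 100))) (.c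 60)))) (.add (.mul (.v 2) (.mul (.v 3) (.neg (.c 160)))) (.mul (.v 3) (.c 96))))) (.add (.mul (.v 2) (.neg (.c 50))) (.c 22))))]]
    wc_z2b_tree = true := by decide +kernel

theorem wc_z2b (x u i s : ℝ) (hx : (540 / 1000 : ℝ) ≤ x) (hx' : x < (770 / 1000 : ℝ))
    (hu : (0 / 1000 : ℝ) ≤ u) (hu' : u < (330 / 1000 : ℝ))
    (hi : (44721 / 100000 : ℝ) ≤ i) (hi' : i < (44722 / 100000 : ℝ))
    (hs : (951056 / 1000000 : ℝ) ≤ s) (hs' : s < (951057 / 1000000 : ℝ)) :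
    0 < ((x * ((x * ((u * (u * ((i * 15) - 5))) + ((i * 5) - 3))) + ((u * (u * ((i * 35) - 15))) + ((i * 15) - 7)))) + ((u * (u * ((i * 10) - 10))) + ((i * 10) - 2))) ∧
      0 < ((x * ((u * ((u * (i * (s * 5))) + ((i * (-15)) + 5))) + ((i * (s * 15)) + (s * (-2))))) + ((u * ((u * (i * (s * 10))) + ((i * (-5)) + 5))) + ((i * (s * 10)) + (s * (-4))))) ∧
      0 < ((x * ((u * ((u * ((u * ((u * (i * (s * (-10)))) + ((i * 25) - 5))) + ((i * (s * (-60))) + (s * 44)))) + ((i * (-55)) + 27))) + ((i * (s * 30)) + (s * (-4))))) + ((u * ((u * ((u * (u * (i * (s * (-20))))) + ((i * (s * (-80))) + (s * 8)))) + ((i * (-40)) + 24))) + ((i * (s * 20)) + (s * (-8))))) ∧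
      0 < ((x * ((u * ((u * ((u * ((u * (i * (s * (-10)))) + ((i * (-25)) + 5))) + ((i * (s * (-60))) + (s * 44)))) + ((i * 55) - 27))) + ((i * (s * 30)) + (s * (-4))))) + ((u * ((u * ((u * (u * (i * (s * (-20))))) + ((i * (s * (-80))) + (s * 8)))) + ((i * 40) - 24))) + ((i * (s * 20)) + (s * (-8))))) ∧
      0 < ((x * ((u * ((u * ((u * ((u * ((i * (s * 5)) + (s * (-5)))) + ((i * 25) + 5))) + ((i * (s * 140)) + (s * (-52))))) + ((i * (-15)) + 13))) + ((i * (s * (-25))) + (s * 17)))) + ((u * ((u * ((u * (u * ((i * (s * 10)) + (s * (-10))))) + ((i * (s * 60)) + (s * (-44))))) + 16)) + ((i * (s * (-30))) + (s * 14)))) ∧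
      0 < ((x * ((u * (u * ((u * (u * ((i * (-25)) + 10))) + ((i * 10) - 10)))) + ((i * (-5)) + 4))) + ((u * (u * ((u * (u * 20)) + ((i * 20) + 20)))) + ((i * (-20)) + 8))) ∧
      0 < ((x * ((u * ((u * ((u * ((u * ((i * (-125)) + 35)) + ((i * (s * 100)) + (s * (-20))))) + 40)) + ((i * (s * (-220))) + (s * 108)))) + ((i * 45) + 21))) + ((u * ((u * ((u * (u * ((i * (-50)) + 70))) + ((i * (-100)) + 60))) + ((i * (s * (-160))) + (s * 96)))) + ((i * (-50)) + 22))) := by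
  have h := Pool.Agent.Lib.BoxPos.mainG wc_z2b_check (xs := [x, u, i, s])
    ⟨(by norm_num; linarith), (by norm_num; linarith), (by norm_num; linarith), (by norm_num; linarith), (by norm_num; linarith), (by norm_num; linarith), (by norm_num; linarith), (by norm_num; linarith), trivial⟩
  simp only [Pool.Agent.Lib.BoxPos.DisjG, Pool.Agent.Lib.BoxPos.ConjE, Pool.Agent.Lib.BoxPos.E.ev, Pool.Agent.Lib.BoxPos.get,
    Nat.cast_ofNat, Nat.cast_one, Nat.cast_zero] at h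
  exact h


open Pool.Agent.Lib.BoxPos in
/-- certificate of `wc_z4a` -/
def wc_z4a_tree : GTree :=
  (.leaf 0)

open Pool.Agent.Lib.BoxPos in
theorem wc_z4a_check : checkGE 145 1 [2, 6, 1, 1] [0, 0, 0, 0] [(380, 580, 1000), (0, 60, 1000), (44721, 44722, 100000), (951056, 951057, 1000000)]
    [[(.add (.mul (.v 0) (.add (.mul (.v 0) (.add (.mul (.v 1) (.add (.mul (.v 1) (.add (.mul (.v 1) (.add (.mul (.v 1) (.sub (.mul (.v 2) (.c 625)) (.c 2413))) (.add (.mul (.v 2) (.mul (.v 3) (.neg (.c 5000)))) (.mul (.v 3) (.c 5000))))) (.add (.mul (.v 2) (.neg (.c 13750))) (.c 174)))) (.add (.mul (.v 2) (.mul (.v 3) (.c 5000))) (.mul (.v 3) (.neg (.c 5000)))))) (.sub (.mul (.v 2) (.c 625)) (.c 2413)))) (.add (.mul (.v 1) (.add (.mul (.v 1) (.mul (.v 1) (.add (.mul (.v 1) (.sub (.mul (.v 2) (.neg (.c 3750))) (.c 1250))) (.mul (.v 2) (.mul (.v 3) (.neg (.c 10000))))))) (.mul (.v 2)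 (.mul (.v 3) (.neg (.c 10000)))))) (.add (.mul (.v 2) (.c 3750)) (.c 1250))))) (.add (.mul (.v 1) (.mul (.v 1) (.add (.mul (.v 1) (.mul (.v 1) (.sub (.mul (.v 2) (.c 2500)) (.c 1788)))) (.sub (.mul (.v 2) (.c 5000)) (.c 3576))))) (.sub (.mul (.v 2) (.c 2500)) (.c 1788)))),
      (.add (.mul (.v 0) (.add (.mul (.v 1) (.add (.mul (.v 1) (.add (.mul (.v 1) (.add (.mul (.v 1) (.sub (.mul (.v 2) (.c 15)) (.c 5))) (.add (.mul (.v 2) (.mul (.v 3) (.neg (.c 20)))) (.mul (.v 3) (.c 4))))) (.add (.mul (.v 2) (.neg (.c 20))) (.c 4)))) (.add (.mul (.v 2) (.mul (.v 3) (.neg (.c 20)))) (.mul (.v 3) (.c 4))))) (.add (.mul (.v 2) (.c 5)) (.c 1)))) (.add (.mul (.v 1) (.add (.mul (.v 1) (.add (.mul (.v 1) (.add (.mul (.v 1) (.sub (.mul (.v 2) (.c 5)) (.c 5))) (.mul (.v 3) (.c 8)))) (.sub (.mul (.v 2) (.c 20)) (.c 12)))) (.mul (.v 3) (.c 8)))) (.sub (.mul (.v 2) (.c 15)) (.c 7)))),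
      (.add (.mul (.v 0) (.add (.mul (.v 1) (.mul (.v 1) (.add (.mul (.v 1) (.add (.mul (.v 1) (.add (.mul (.v 2) (.mul (.v 3) (.neg (.c 15)))) (.mul (.v 3) (.c 5)))) (.mul (.v 2) (.c 40)))) (.add (.mul (.v 2) (.mul (.v 3) (.neg (.c 50)))) (.mul (.v 3) (.c 22)))))) (.add (.mul (.v 2) (.mul (.v 3) (.c 5))) (.mul (.v 3) (.neg (.c 7)))))) (.add (.mul (.v 1) (.add (.mul (.v 1) (.add (.mul (.v 1) (.add (.mul (.v 1) (.add (.mul (.v 2) (.mul (.v 3) (.neg (.c 30)))) (.mul (.v 3) (.c 10)))) (.mul (.v 2) (.neg (.c 20))))) (.add (.mul (.v 2) (.mul (.v 3) (.neg (.c 40)))) (.mul (.v 3) (.c 24))))) (.mul (.v 2) (.neg (.c 20))))) (.add (.mul (.v 2) (.mul (.v 3) (.neg (.c 10)))) (.mul (.v 3) (.c 14))))),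
      (.add (.mul (.v 0) (.add (.mul (.v 1) (.sub (.mul (.v 1) (.add (.mul (.v 1) (.add (.mul (.v 1) (.add (.mul (.v 1) (.add (.mul (.v 1) (.add (.mul (.v 2) (.mul (.v 3) (.c 15))) (.mul (.v 3) (.neg (.c 5))))) (.sub (.mul (.v 2) (.neg (.c 40))) (.c 10)))) (.add (.mul (.v 2) (.mul (.v 3) (.c 115))) (.mul (.v 3) (.neg (.c 65)))))) (.sub (.mul (.v 2) (.c 40)) (.c 28)))) (.add (.mul (.v 2) (.mul (.v 3) (.neg (.c 215)))) (.mul (.v 3) (.c 61))))) (.c 2))) (.add (.mul (.v 2) (.mul (.v 3) (.c 5))) (.mul (.v 3) (.neg (.c 7)))))) (.add (.mul (.v 1) (.add (.mul (.v 1) (.add (.mul (.v 1) (.sub (.mul (.v 1) (.add (.mul (.v 1) (.add (.mul (.v 1) (.add (.mul (.v 2) (.mul (.v 3) (.c 30))) (.mul (.v 3) (.neg (.c 10))))) (.sub (.mul (.v 2) (.c 20)) (.c 20)))) (.add (.mul (.v 2) (.mul (.v 3) (.neg (.c 30)))) (.mul (.v 3) (.c 10))))) (.c 16))) (.add (.mul (.v 2) (.mul (.v 3) (.neg (.c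 70)))) (.mul (.v 3) (.c 34))))) (.add (.mul (.v 2) (.neg (.c 20))) (.c 4)))) (.add (.mul (.v 2) (.mul (.v 3) (.neg (.c 10)))) (.mul (.v 3) (.c 14))))),
      (.add (.mul (.v 0) (.add (.mul (.v 1) (.add (.mul (.v 1) (.add (.mul (.v 1) (.add (.mul (.v 1) (.add (.mul (.v 1) (.add (.mul (.v 1) (.mul (.v 2) (.mul (.v 3) (.neg (.c 10))))) (.sub (.mul (.v 2) (.neg (.c 5))) (.c 15)))) (.add (.mul (.v 2) (.mul (.v 3) (.neg (.c 30)))) (.mul (.v 3) (.c 36))))) (.add (.mul (.v 2) (.neg (.c 130))) (.c 42)))) (.add (.mul (.v 2) (.mul (.v 3) (.c 130))) (.mul (.v 3) (.neg (.c 56)))))) (.sub (.mul (.v 2) (.c 35)) (.c 7)))) (.add (.mul (.v 2) (.mul (.v 3) (.neg (.c 10)))) (.mul (.v 3) (.c 4))))) (.add (.mul (.v 1) (.add (.mul (.v 1) (.add (.mul (.v 1) (.add (.mul (.v 1) (.add (.mul (.v 1) (.add (.mul (.v 1) (.mul (.v 2) (.mul (.v 3) (.neg (.c 20))))) (.add (.mul (.v 2) (.neg (.c 60)))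 (.c 20)))) (.add (.mul (.v 2) (.mul (.v 3) (.neg (.c 20)))) (.mul (.v 3) (.neg (.c 8)))))) (.add (.mul (.v 2) (.neg (.c 40))) (.c 24)))) (.add (.mul (.v 2) (.mul (.v 3) (.c 20))) (.mul (.v 3) (.neg (.c 16)))))) (.add (.mul (.v 2) (.c 20)) (.c 4)))) (.add (.mul (.v 2) (.mul (.v 3) (.c 20))) (.mul (.v 3) (.neg (.c 8)))))),
      (.add (.mul (.v 0) (.add (.mul (.v 1) (.add (.mul (.v 1) (.add (.mul (.v 1) (.add (.mul (.v 1) (.add (.mul (.v 1) (.add (.mul (.v 1) (.mul (.v 2) (.mul (.v 3) (.c 10)))) (.sub (.mul (.v 2) (.neg (.c 5))) (.c 15)))) (.add (.mul (.v 2) (.mul (.v 3) (.c 10))) (.mul (.v 3) (.neg (.c 32)))))) (.add (.mul (.v 2) (.neg (.c 130))) (.c 58)))) (.add (.mul (.v 2) (.mul (.v 3) (.neg (.c 10)))) (.mul (.v 3) (.neg (.c 32)))))) (.sub (.mul (.v 2) (.c 35)) (.c 23)))) (.mul (.v 2) (.mul (.v 3) (.neg (.c 10)))))) (.add (.mul (.v 1) (.add (.mul (.v 1) (.add (.mul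 (.v 1) (.add (.mul (.v 1) (.add (.mul (.v 1) (.add (.mul (.v 1) (.mul (.v 2) (.mul (.v 3) (.c 20)))) (.add (.mul (.v 2) (.neg (.c 60))) (.c 20)))) (.add (.mul (.v 2) (.mul (.v 3) (.neg (.c 20)))) (.mul (.v 3) (.c 16))))) (.add (.mul (.v 2) (.neg (.c 80))) (.c 16)))) (.add (.mul (.v 2) (.mul (.v 3) (.neg (.c 20)))) (.mul (.v 3) (.c 16))))) (.sub (.mul (.v 2) (.neg (.c 20))) (.c 4)))) (.mul (.v 2) (.mul (.v 3) (.c 20))))),
      (.add (.mul (.v 0) (.add (.mul (.v 1) (.add (.mul (.v 1) (.add (.mul (.v 1) (.add (.mul (.v 1) (.add (.mul (.v 1) (.add (.mul (.v 1) (.add (.mul (.v 2) (.mul (.v 3) (.neg (.c 15)))) (.mul (.v 3) (.c 5)))) (.sub (.mul (.v 2) (.neg (.c 40))) (.c 10)))) (.add (.mul (.v 2) (.mul (.v 3) (.neg (.c 115)))) (.mul (.v 3) (.c 57))))) (.sub (.mul (.v 2) (.c 80)) (.c 52)))) (.add (.mul (.v 2) (.mul (.v 3) (.c 55))) (.mul (.v 3) (.neg (.c 45)))))) (.add (.mul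 (.v 2) (.neg (.c 40))) (.c 22)))) (.add (.mul (.v 2) (.mul (.v 3) (.neg (.c 5)))) (.mul (.v 3) (.neg (.c 1)))))) (.add (.mul (.v 1) (.add (.mul (.v 1) (.add (.mul (.v 1) (.add (.mul (.v 1) (.add (.mul (.v 1) (.add (.mul (.v 1) (.add (.mul (.v 2) (.mul (.v 3) (.neg (.c 30)))) (.mul (.v 3) (.c 10)))) (.sub (.mul (.v 2) (.c 20)) (.c 20)))) (.add (.mul (.v 2) (.mul (.v 3) (.c 30))) (.mul (.v 3) (.neg (.c 26)))))) (.sub (.mul (.v 2) (.c 40)) (.c 24)))) (.add (.mul (.v 2) (.mul (.v 3) (.c 70))) (.mul (.v 3) (.neg (.c 34)))))) (.sub (.mul (.v 2) (.c 20)) (.c 4)))) (.add (.mul (.v 2) (.mul (.v 3) (.c 10))) (.mul (.v 3) (.c 2))))),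
      (.add (.mul (.v 0) (.add (.mul (.v 1) (.add (.mul (.v 1) (.add (.mul (.v 1) (.add (.mul (.v 1) (.add (.mul (.v 1) (.mul (.v 1) (.add (.mul (.v 2) (.mul (.v 3) (.neg (.c 5)))) (.mul (.v 3) (.c 5))))) (.add (.mul (.v 2) (.mul (.v 3) (.neg (.c 95)))) (.mul (.v 3) (.c 27))))) (.sub (.mul (.v 2) (.c 20)) (.c 4)))) (.add (.mul (.v 2) (.mul (.v 3) (.c 65))) (.mul (.v 3) (.neg (.c 41)))))) (.add (.mul (.v 2) (.neg (.c 20))) (.c 4)))) (.add (.mul (.v 2) (.mul (.v 3) (.neg (.c 5)))) (.v 3)))) (.add (.mul (.v 1) (.sub (.mul (.v 1) (.add (.mul (.v 1) (.sub (.mul (.v 1) (.add (.mul (.v 1) (.mul (.v 1) (.add (.mul (.v 2) (.mul (.v 3) (.neg (.c 10)))) (.mul (.v 3) (.c 10))))) (.add (.mul (.v 2) (.mul (.v 3) (.c 30))) (.mul (.v 3) (.neg (.c 6)))))) (.c 8))) (.add (.mul (.v 2) (.mul (.v 3) (.c 50))) (.mul (.v 3) (.neg (.c 18)))))) (.c 8))) (.add (.mul (.v 2) (.mul (.v 3) (.c 10)))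 (.mul (.v 3) (.neg (.c 2))))))]]
    wc_z4a_tree = true := by decide +kernel

theorem wc_z4a (x u i s : ℝ) (hx : (380 / 1000 : ℝ) ≤ x) (hx' : x < (580 / 1000 : ℝ))
    (hu : (0 / 1000 : ℝ) ≤ u) (hu' : u < (60 / 1000 : ℝ))
    (hi : (44721 / 100000 : ℝ) ≤ i) (hi' : i < (44722 / 100000 : ℝ))
    (hs : (951056 / 1000000 : ℝ) ≤ s) (hs' : s < (951057 / 1000000 : ℝ)) :
    0 < ((x * ((x * ((u * ((u * ((u * ((u * ((i * 625) - 2413)) + ((i * (s * (-5000))) + (s * 5000)))) + ((i * (-13750)) + 174))) + ((i * (s * 5000)) + (s * (-5000))))) + ((i * 625) - 2413))) + ((u * ((u * (u * ((u * ((i * (-3750)) - 1250)) + (i * (s * (-10000)))))) + (i * (s * (-10000))))) + ((i * 3750) + 1250)))) + ((u * (u * ((u * (u * ((i * 2500) - 1788))) + ((i * 5000) - 3576)))) + ((i * 2500) - 1788))) ∧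
      0 < ((x * ((u * ((u * ((u * ((u * ((i * 15) - 5)) + ((i * (s * (-20))) + (s * 4)))) + ((i * (-20)) + 4))) + ((i * (s * (-20))) + (s * 4)))) + ((i * 5) + 1))) + ((u * ((u * ((u * ((u * ((i * 5) - 5)) + (s * 8))) + ((i * 20) - 12))) + (s * 8))) + ((i * 15) - 7))) ∧
      0 < ((x * ((u * (u * ((u * ((u * ((i * (s * (-15))) + (s * 5))) + (i * 40))) + ((i * (s * (-50))) + (s * 22))))) + ((i * (s * 5)) + (s * (-7))))) + ((u * ((u * ((u * ((u * ((i * (s * (-30))) + (s * 10))) + (i * (-20)))) + ((i * (s * (-40))) + (s * 24)))) + (i * (-20)))) + ((i * (s * (-10))) + (s * 14)))) ∧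
      0 < ((x * ((u * ((u * ((u * ((u * ((u * ((u * ((i * (s * 15)) + (s * (-5)))) + ((i * (-40)) - 10))) + ((i * (s * 115)) + (s * (-65))))) + ((i * 40) - 28))) + ((i * (s * (-215))) + (s * 61)))) - 2)) + ((i * (s * 5)) + (s * (-7))))) + ((u * ((u * ((u * ((u * ((u * ((u * ((i * (s * 30)) + (s * (-10)))) + ((i * 20) - 20))) + ((i * (s * (-30))) + (s * 10)))) - 16)) + ((i * (s * (-70))) + (s * 34)))) + ((i * (-20)) + 4))) + ((i * (s * (-10))) + (s * 14)))) ∧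
      0 < ((x * ((u * ((u * ((u * ((u * ((u * ((u * (i * (s * (-10)))) + ((i * (-5)) - 15))) + ((i * (s * (-30))) + (s * 36)))) + ((i * (-130)) + 42))) + ((i * (s * 130)) + (s * (-56))))) + ((i * 35) - 7))) + ((i * (s * (-10))) + (s * 4)))) + ((u * ((u * ((u * ((u * ((u * ((u * (i * (s * (-20)))) + ((i * (-60)) + 20))) + ((i * (s * (-20))) + (s * (-8))))) + ((i * (-40)) + 24))) + ((i * (s * 20)) + (s * (-16))))) + ((i * 20) + 4))) + ((i * (s * 20)) + (s * (-8))))) ∧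
      0 < ((x * ((u * ((u * ((u * ((u * ((u * ((u * (i * (s * 10))) + ((i * (-5)) - 15))) + ((i * (s * 10)) + (s * (-32))))) + ((i * (-130)) + 58))) + ((i * (s * (-10))) + (s * (-32))))) + ((i * 35) - 23))) + (i * (s * (-10))))) + ((u * ((u * ((u * ((u * ((u * ((u * (i * (s * 20))) + ((i * (-60)) + 20))) + ((i * (s * (-20))) + (s * 16)))) + ((i * (-80)) + 16))) + ((i * (s * (-20))) + (s * 16)))) + ((i * (-20)) - 4))) + (i * (s * 20)))) ∧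
      0 < ((x * ((u * ((u * ((u * ((u * ((u * ((u * ((i * (s * (-15))) + (s * 5))) + ((i * (-40)) - 10))) + ((i * (s * (-115))) + (s * 57)))) + ((i * 80) - 52))) + ((i * (s * 55)) + (s * (-45))))) + ((i * (-40)) + 22))) + ((i * (s * (-5))) + (s * (-1))))) + ((u * ((u * ((u * ((u * ((u * ((u * ((i * (s * (-30))) + (s * 10))) + ((i * 20) - 20))) + ((i * (s * 30)) + (s * (-26))))) + ((i * 40) - 24))) + ((i * (s * 70)) + (s * (-34))))) + ((i * 20) - 4))) + ((i * (s * 10)) + (s * 2)))) ∧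
      0 < ((x * ((u * ((u * ((u * ((u * ((u * (u * ((i * (s * (-5))) + (s * 5)))) + ((i * (s * (-95))) + (s * 27)))) + ((i * 20) - 4))) + ((i * (s * 65)) + (s * (-41))))) + ((i * (-20)) + 4))) + ((i * (s * (-5))) + s))) + ((u * ((u * ((u * ((u * ((u * (u * ((i * (s * (-10))) + (s * 10)))) + ((i * (s * 30)) + (s * (-6))))) - 8)) + ((i * (s * 50)) + (s * (-18))))) - 8)) + ((i * (s * 10)) + (s * (-2))))) := by
  have h := Pool.Agent.Lib.BoxPos.mainG wc_z4a_check (xs := [x, u, i, s])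
    ⟨(by norm_num; linarith), (by norm_num; linarith), (by norm_num; linarith), (by norm_num; linarith), (by norm_num; linarith), (by norm_num; linarith), (by norm_num; linarith), (by norm_num; linarith), trivial⟩
  simp only [Pool.Agent.Lib.BoxPos.DisjG, Pool.Agent.Lib.BoxPos.ConjE, Pool.Agent.Lib.BoxPos.E.ev, Pool.Agent.Lib.BoxPos.get,
    Nat.cast_ofNat, Nat.cast_one, Nat.cast_zero] at h
  exact h


open Pool.Agent.Lib.BoxPos in
/-- certificate of `wc_z2c` -/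
def wc_z2c_tree : GTree :=
  (.leaf 0)

open Pool.Agent.Lib.BoxPos in
theorem wc_z2c_check : checkGE 115 1 [2, 4, 1, 1] [0, 0, 0, 0] [(0, 380, 1000), (0, 20, 1000), (44721, 44722, 100000), (951056, 951057, 1000000)]
    [[(.add (.mul (.v 0) (.add (.mul (.v 0) (.add (.mul (.v 1) (.mul (.v 1) (.sub (.mul (.v 2) (.c 15)) (.c 5)))) (.sub (.mul (.v 2) (.c 5)) (.c 3)))) (.add (.mul (.v 1) (.mul (.v 1) (.sub (.mul (.v 2) (.c 35)) (.c 15)))) (.sub (.mul (.v 2) (.c 15)) (.c 7))))) (.add (.mul (.v 1) (.mul (.v 1) (.sub (.mul (.v 2) (.c 10)) (.c 10)))) (.sub (.mul (.v 2) (.c 10)) (.c 2)))),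
      (.add (.mul (.v 0) (.add (.mul (.v 1) (.add (.mul (.v 1) (.mul (.v 2) (.mul (.v 3) (.c 5)))) (.add (.mul (.v 2) (.neg (.c 15))) (.c 5)))) (.add (.mul (.v 2) (.mul (.v 3) (.c 15))) (.mul (.v 3) (.neg (.c 2)))))) (.add (.mul (.v 1) (.add (.mul (.v 1) (.mul (.v 2) (.mul (.v 3) (.c 10)))) (.add (.mul (.v 2) (.neg (.c 5))) (.c 5)))) (.add (.mul (.v 2) (.mul (.v 3) (.c 10))) (.mul (.v 3) (.neg (.c 4)))))),
      (.add (.mul (.v 0) (.add (.mul (.v 1) (.add (.mul (.v 1) (.add (.mul (.v 1) (.add (.mul (.v 1) (.mul (.v 2) (.mul (.v 3) (.neg (.c 10))))) (.sub (.mul (.v 2) (.c 25)) (.c 5)))) (.add (.mul (.v 2) (.mul (.v 3) (.neg (.c 60)))) (.mul (.v 3) (.c 44))))) (.add (.mul (.v 2) (.neg (.c 55))) (.c 27)))) (.add (.mul (.v 2) (.mul (.v 3) (.c 30))) (.mul (.v 3) (.neg (.c 4)))))) (.add (.mul (.v 1) (.add (.mul (.v 1) (.add (.mul (.v 1) (.mul (.v 1) (.mul (.v 2) (.mul (.v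 3) (.neg (.c 20)))))) (.add (.mul (.v 2) (.mul (.v 3) (.neg (.c 80)))) (.mul (.v 3) (.c 8))))) (.add (.mul (.v 2) (.neg (.c 40))) (.c 24)))) (.add (.mul (.v 2) (.mul (.v 3) (.c 20))) (.mul (.v 3) (.neg (.c 8)))))),
      (.add (.mul (.v 0) (.add (.mul (.v 1) (.add (.mul (.v 1) (.add (.mul (.v 1) (.add (.mul (.v 1) (.mul (.v 2) (.mul (.v 3) (.neg (.c 10))))) (.add (.mul (.v 2) (.neg (.c 25))) (.c 5)))) (.add (.mul (.v 2) (.mul (.v 3) (.neg (.c 60)))) (.mul (.v 3) (.c 44))))) (.sub (.mul (.v 2) (.c 55)) (.c 27)))) (.add (.mul (.v 2) (.mul (.v 3) (.c 30))) (.mul (.v 3) (.neg (.c 4)))))) (.add (.mul (.v 1) (.add (.mul (.v 1) (.add (.mul (.v 1) (.mul (.v 1) (.mul (.v 2) (.mul (.v 3) (.neg (.c 20)))))) (.add (.mul (.v 2) (.mul (.v 3) (.neg (.c 80)))) (.mul (.v 3) (.c 8))))) (.sub (.mul (.v 2) (.c 40)) (.c 24)))) (.add (.mul (.v 2) (.mul (.v 3) (.c 20))) (.mul (.v 3) (.neg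 (.c 8)))))),
      (.add (.mul (.v 0) (.add (.mul (.v 1) (.add (.mul (.v 1) (.add (.mul (.v 1) (.add (.mul (.v 1) (.add (.mul (.v 2) (.mul (.v 3) (.c 5))) (.mul (.v 3) (.neg (.c 5))))) (.add (.mul (.v 2) (.c 25)) (.c 5)))) (.add (.mul (.v 2) (.mul (.v 3) (.c 140))) (.mul (.v 3) (.neg (.c 52)))))) (.add (.mul (.v 2) (.neg (.c 15))) (.c 13)))) (.add (.mul (.v 2) (.mul (.v 3) (.neg (.c 25)))) (.mul (.v 3) (.c 17))))) (.add (.mul (.v 1) (.add (.mul (.v 1) (.add (.mul (.v 1) (.mul (.v 1) (.add (.mul (.v 2) (.mul (.v 3) (.c 10))) (.mul (.v 3) (.neg (.c 10)))))) (.add (.mul (.v 2) (.mul (.v 3) (.c 60))) (.mul (.v 3) (.neg (.c 44)))))) (.c 16))) (.add (.mul (.v 2) (.mul (.v 3) (.neg (.c 30)))) (.mul (.v 3) (.c 14))))),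
      (.add (.mul (.v 0) (.add (.mul (.v 1) (.mul (.v 1) (.add (.mul (.v 1) (.mul (.v 1) (.sub (.mul (.v 2) (.c 25)) (.c 10)))) (.add (.mul (.v 2) (.neg (.c 10))) (.c 10))))) (.sub (.mul (.v 2) (.c 5)) (.c 4)))) (.add (.mul (.v 1) (.mul (.v 1) (.add (.mul (.v 1) (.mul (.v 1) (.neg (.c 20)))) (.sub (.mul (.v 2) (.neg (.c 20))) (.c 20))))) (.sub (.mul (.v 2) (.c 20)) (.c 8)))),
      (.add (.mul (.v 0) (.add (.mul (.v 1) (.add (.mul (.v 1) (.add (.mul (.v 1) (.add (.mul (.v 1) (.add (.mul (.v 2) (.mul (.v 3) (.c 5))) (.mul (.v 3) (.neg (.c 5))))) (.sub (.mul (.v 2) (.neg (.c 25))) (.c 5)))) (.add (.mul (.v 2) (.mul (.v 3) (.c 140))) (.mul (.v 3) (.neg (.c 52)))))) (.sub (.mul (.v 2) (.c 15)) (.c 13)))) (.add (.mul (.v 2) (.mul (.v 3) (.neg (.c 25)))) (.mul (.v 3) (.c 17))))) (.add (.mul (.v 1) (.sub (.mul (.v 1) (.add (.mul (.v 1) (.mul (.v 1) (.add (.mul (.v 2) (.mul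 (.v 3) (.c 10))) (.mul (.v 3) (.neg (.c 10)))))) (.add (.mul (.v 2) (.mul (.v 3) (.c 60))) (.mul (.v 3) (.neg (.c 44)))))) (.c 16))) (.add (.mul (.v 2) (.mul (.v 3) (.neg (.c 30)))) (.mul (.v 3) (.c 14)))))]]
    wc_z2c_tree = true := by decide +kernel

theorem wc_z2c (x u i s : ℝ) (hx : (0 / 1000 : ℝ) ≤ x) (hx' : x < (380 / 1000 : ℝ))
    (hu : (0 / 1000 : ℝ) ≤ u) (hu' : u < (20 / 1000 : ℝ))
    (hi : (44721 / 100000 : ℝ) ≤ i) (hi' : i < (44722 / 100000 : ℝ))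
    (hs : (951056 / 1000000 : ℝ) ≤ s) (hs' : s < (951057 / 1000000 : ℝ)) :
    0 < ((x * ((x * ((u * (u * ((i * 15) - 5))) + ((i * 5) - 3))) + ((u * (u * ((i * 35) - 15))) + ((i * 15) - 7)))) + ((u * (u * ((i * 10) - 10))) + ((i * 10) - 2))) ∧
      0 < ((x * ((u * ((u * (i * (s * 5))) + ((i * (-15)) + 5))) + ((i * (s * 15)) + (s * (-2))))) + ((u * ((u * (i * (s * 10))) + ((i * (-5)) + 5))) + ((i * (s * 10)) + (s * (-4))))) ∧
      0 < ((x * ((u * ((u * ((u * ((u * (i * (s * (-10)))) + ((i * 25) - 5))) + ((i * (s * (-60))) + (s * 44)))) + ((i * (-55)) + 27))) + ((i * (s * 30)) + (s * (-4))))) + ((u * ((u * ((u * (u * (i * (s * (-20))))) + ((i * (s * (-80))) + (s * 8)))) + ((i * (-40)) + 24))) + ((i * (s * 20)) + (s * (-8))))) ∧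
      0 < ((x * ((u * ((u * ((u * ((u * (i * (s * (-10)))) + ((i * (-25)) + 5))) + ((i * (s * (-60))) + (s * 44)))) + ((i * 55) - 27))) + ((i * (s * 30)) + (s * (-4))))) + ((u * ((u * ((u * (u * (i * (s * (-20))))) + ((i * (s * (-80))) + (s * 8)))) + ((i * 40) - 24))) + ((i * (s * 20)) + (s * (-8))))) ∧
      0 < ((x * ((u * ((u * ((u * ((u * ((i * (s * 5)) + (s * (-5)))) + ((i * 25) + 5))) + ((i * (s * 140)) + (s * (-52))))) + ((i * (-15)) + 13))) + ((i * (s * (-25))) + (s * 17)))) + ((u * ((u * ((u * (u * ((i * (s * 10)) + (s * (-10))))) + ((i * (s * 60)) + (s * (-44))))) + 16)) + ((i * (s * (-30))) + (s * 14)))) ∧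
      0 < ((x * ((u * (u * ((u * (u * ((i * 25) - 10))) + ((i * (-10)) + 10)))) + ((i * 5) - 4))) + ((u * (u * ((u * (u * (-20))) + ((i * (-20)) - 20)))) + ((i * 20) - 8))) ∧
      0 < ((x * ((u * ((u * ((u * ((u * ((i * (s * 5)) + (s * (-5)))) + ((i * (-25)) - 5))) + ((i * (s * 140)) + (s * (-52))))) + ((i * 15) - 13))) + ((i * (s * (-25))) + (s * 17)))) + ((u * ((u * ((u * (u * ((i * (s * 10)) + (s * (-10))))) + ((i * (s * 60)) + (s * (-44))))) - 16)) + ((i * (s * (-30))) + (s * 14)))) := by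
  have h := Pool.Agent.Lib.BoxPos.mainG wc_z2c_check (xs := [x, u, i, s])
    ⟨(by norm_num; linarith), (by norm_num; linarith), (by norm_num; linarith), (by norm_num; linarith), (by norm_num; linarith), (by norm_num; linarith), (by norm_num; linarith), (by norm_num; linarith), trivial⟩
  simp only [Pool.Agent.Lib.BoxPos.DisjG, Pool.Agent.Lib.BoxPos.ConjE, Pool.Agent.Lib.BoxPos.E.ev, Pool.Agent.Lib.BoxPos.get,
    Nat.cast_ofNat, Nat.cast_one, Nat.cast_zero] at h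
  exact h


open Pool.Agent.Lib.BoxPos in
/-- certificate of `wc_z2d` -/
def wc_z2d_tree : GTree :=
  (.leaf 0)

open Pool.Agent.Lib.BoxPos in
theorem wc_z2d_check : checkGE 116 1 [2, 4, 1, 1] [0, 0, 0, 0] [(0, 380, 1000), (20, 41, 1000), (44721, 44722, 100000), (951056, 951057, 1000000)]
    [[(.add (.mul (.v 0) (.add (.mul (.v 0) (.add (.mul (.v 1) (.mul (.v 1) (.sub (.mul (.v 2) (.c 15)) (.c 5)))) (.sub (.mul (.v 2) (.c 5)) (.c 3)))) (.add (.mul (.v 1) (.mul (.v 1) (.sub (.mul (.v 2) (.c 35)) (.c 15)))) (.sub (.mul (.v 2) (.c 15)) (.c 7))))) (.add (.mul (.v 1) (.mul (.v 1) (.sub (.mul (.v 2) (.c 10)) (.c 10)))) (.sub (.mul (.v 2) (.c 10)) (.c 2)))),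
      (.add (.mul (.v 0) (.add (.mul (.v 1) (.add (.mul (.v 1) (.mul (.v 2) (.mul (.v 3) (.c 5)))) (.add (.mul (.v 2) (.neg (.c 15))) (.c 5)))) (.add (.mul (.v 2) (.mul (.v 3) (.c 15))) (.mul (.v 3) (.neg (.c 2)))))) (.add (.mul (.v 1) (.add (.mul (.v 1) (.mul (.v 2) (.mul (.v 3) (.c 10)))) (.add (.mul (.v 2) (.neg (.c 5))) (.c 5)))) (.add (.mul (.v 2) (.mul (.v 3) (.c 10))) (.mul (.v 3) (.neg (.c 4)))))),
      (.add (.mul (.v 0) (.add (.mul (.v 1) (.add (.mul (.v 1) (.add (.mul (.v 1) (.add (.mul (.v 1) (.mul (.v 2) (.mul (.v 3) (.neg (.c 10))))) (.sub (.mul (.v 2) (.c 25)) (.c 5)))) (.add (.mul (.v 2) (.mul (.v 3) (.neg (.c 60)))) (.mul (.v 3) (.c 44))))) (.add (.mul (.v 2) (.neg (.c 55))) (.c 27)))) (.add (.mul (.v 2) (.mul (.v 3) (.c 30))) (.mul (.v 3) (.neg (.c 4)))))) (.add (.mul (.v 1) (.add (.mul (.v 1) (.add (.mul (.v 1) (.mul (.v 1) (.mul (.v 2) (.mul (.v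 3) (.neg (.c 20)))))) (.add (.mul (.v 2) (.mul (.v 3) (.neg (.c 80)))) (.mul (.v 3) (.c 8))))) (.add (.mul (.v 2) (.neg (.c 40))) (.c 24)))) (.add (.mul (.v 2) (.mul (.v 3) (.c 20))) (.mul (.v 3) (.neg (.c 8)))))),
      (.add (.mul (.v 0) (.add (.mul (.v 1) (.add (.mul (.v 1) (.add (.mul (.v 1) (.add (.mul (.v 1) (.mul (.v 2) (.mul (.v 3) (.neg (.c 10))))) (.add (.mul (.v 2) (.neg (.c 25))) (.c 5)))) (.add (.mul (.v 2) (.mul (.v 3) (.neg (.c 60)))) (.mul (.v 3) (.c 44))))) (.sub (.mul (.v 2) (.c 55)) (.c 27)))) (.add (.mul (.v 2) (.mul (.v 3) (.c 30))) (.mul (.v 3) (.neg (.c 4)))))) (.add (.mul (.v 1) (.add (.mul (.v 1) (.add (.mul (.v 1) (.mul (.v 1) (.mul (.v 2) (.mul (.v 3) (.neg (.c 20)))))) (.add (.mul (.v 2) (.mul (.v 3) (.neg (.c 80)))) (.mul (.v 3) (.c 8))))) (.sub (.mul (.v 2) (.c 40)) (.c 24)))) (.add (.mul (.v 2) (.mul (.v 3) (.c 20))) (.mul (.v 3) (.neg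 (.c 8)))))),
      (.add (.mul (.v 0) (.add (.mul (.v 1) (.add (.mul (.v 1) (.add (.mul (.v 1) (.add (.mul (.v 1) (.add (.mul (.v 2) (.mul (.v 3) (.c 5))) (.mul (.v 3) (.neg (.c 5))))) (.add (.mul (.v 2) (.c 25)) (.c 5)))) (.add (.mul (.v 2) (.mul (.v 3) (.c 140))) (.mul (.v 3) (.neg (.c 52)))))) (.add (.mul (.v 2) (.neg (.c 15))) (.c 13)))) (.add (.mul (.v 2) (.mul (.v 3) (.neg (.c 25)))) (.mul (.v 3) (.c 17))))) (.add (.mul (.v 1) (.add (.mul (.v 1) (.add (.mul (.v 1) (.mul (.v 1) (.add (.mul (.v 2) (.mul (.v 3) (.c 10))) (.mul (.v 3) (.neg (.c 10)))))) (.add (.mul (.v 2) (.mul (.v 3) (.c 60))) (.mul (.v 3) (.neg (.c 44)))))) (.c 16))) (.add (.mul (.v 2) (.mul (.v 3) (.neg (.c 30)))) (.mul (.v 3) (.c 14))))),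
      (.add (.mul (.v 0) (.mul (.v 1) (.add (.mul (.v 1) (.mul (.v 1) (.c 5))) (.sub (.mul (.v 2) (.c 20)) (.c 7))))) (.mul (.v 1) (.sub (.mul (.v 2) (.c 20)) (.c 4)))),
      (.add (.mul (.v 0) (.add (.mul (.v 1) (.add (.mul (.v 1) (.add (.mul (.v 1) (.add (.mul (.v 1) (.add (.mul (.v 2) (.neg (.c 125))) (.c 35))) (.add (.mul (.v 2) (.mul (.v 3) (.c 100))) (.mul (.v 3) (.neg (.c 20)))))) (.c 40))) (.add (.mul (.v 2) (.mul (.v 3) (.neg (.c 220)))) (.mul (.v 3) (.c 108))))) (.add (.mul (.v 2) (.c 45)) (.c 21)))) (.add (.mul (.v 1) (.add (.mul (.v 1) (.add (.mul (.v 1) (.mul (.v 1) (.add (.mul (.v 2) (.neg (.c 50))) (.c 70)))) (.add (.mul (.v 2) (.neg (.c 100))) (.c 60)))) (.add (.mul (.v 2) (.mul (.v 3) (.neg (.c 160)))) (.mul (.v 3) (.c 96))))) (.add (.mul (.v 2) (.neg (.c 50))) (.c 22))))]]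
    wc_z2d_tree = true := by decide +kernel

theorem wc_z2d (x u i s : ℝ) (hx : (0 / 1000 : ℝ) ≤ x) (hx' : x < (380 / 1000 : ℝ))
    (hu : (20 / 1000 : ℝ) ≤ u) (hu' : u < (41 / 1000 : ℝ))
    (hi : (44721 / 100000 : ℝ) ≤ i) (hi' : i < (44722 / 100000 : ℝ))
    (hs : (951056 / 1000000 : ℝ) ≤ s) (hs' : s < (951057 / 1000000 : ℝ)) :
    0 < ((x * ((x * ((u * (u * ((i * 15) - 5))) + ((i * 5) - 3))) + ((u * (u * ((i * 35) - 15))) + ((i * 15) - 7)))) + ((u * (u * ((i * 10) - 10))) + ((i * 10) - 2))) ∧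
      0 < ((x * ((u * ((u * (i * (s * 5))) + ((i * (-15)) + 5))) + ((i * (s * 15)) + (s * (-2))))) + ((u * ((u * (i * (s * 10))) + ((i * (-5)) + 5))) + ((i * (s * 10)) + (s * (-4))))) ∧
      0 < ((x * ((u * ((u * ((u * ((u * (i * (s * (-10)))) + ((i * 25) - 5))) + ((i * (s * (-60))) + (s * 44)))) + ((i * (-55)) + 27))) + ((i * (s * 30)) + (s * (-4))))) + ((u * ((u * ((u * (u * (i * (s * (-20))))) + ((i * (s * (-80))) + (s * 8)))) + ((i * (-40)) + 24))) + ((i * (s * 20)) + (s * (-8))))) ∧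
      0 < ((x * ((u * ((u * ((u * ((u * (i * (s * (-10)))) + ((i * (-25)) + 5))) + ((i * (s * (-60))) + (s * 44)))) + ((i * 55) - 27))) + ((i * (s * 30)) + (s * (-4))))) + ((u * ((u * ((u * (u * (i * (s * (-20))))) + ((i * (s * (-80))) + (s * 8)))) + ((i * 40) - 24))) + ((i * (s * 20)) + (s * (-8))))) ∧
      0 < ((x * ((u * ((u * ((u * ((u * ((i * (s * 5)) + (s * (-5)))) + ((i * 25) + 5))) + ((i * (s * 140)) + (s * (-52))))) + ((i * (-15)) + 13))) + ((i * (s * (-25))) + (s * 17)))) + ((u * ((u * ((u * (u * ((i * (s * 10)) + (s * (-10))))) + ((i * (s * 60)) + (s * (-44))))) + 16)) + ((i * (s * (-30))) + (s * 14)))) ∧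
      0 < ((x * (u * ((u * (u * 5)) + ((i * 20) - 7)))) + (u * ((i * 20) - 4))) ∧
      0 < ((x * ((u * ((u * ((u * ((u * ((i * (-125)) + 35)) + ((i * (s * 100)) + (s * (-20))))) + 40)) + ((i * (s * (-220))) + (s * 108)))) + ((i * 45) + 21))) + ((u * ((u * ((u * (u * ((i * (-50)) + 70))) + ((i * (-100)) + 60))) + ((i * (s * (-160))) + (s * 96)))) + ((i * (-50)) + 22))) := by
  have h := Pool.Agent.Lib.BoxPos.mainG wc_z2d_check (xs := [x, u, i, s])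
    ⟨(by norm_num; linarith), (by norm_num; linarith), (by norm_num; linarith), (by norm_num; linarith), (by norm_num; linarith), (by norm_num; linarith), (by norm_num; linarith), (by norm_num; linarith), trivial⟩
  simp only [Pool.Agent.Lib.BoxPos.DisjG, Pool.Agent.Lib.BoxPos.ConjE, Pool.Agent.Lib.BoxPos.E.ev, Pool.Agent.Lib.BoxPos.get,
    Nat.cast_ofNat, Nat.cast_one, Nat.cast_zero] at h
  exact h


end Pool.Agent.Lib.MP_c5a075_co
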