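import Pool.Agent.Lib.MP_c5a075_co.HoleO
import Pool.Agent.Lib.MP_c5a075_co.WordsCert

/-! The words of case A in the ring frame: explicit coordinates, and the fact that one of them is
off the star lines (generated file). -/

set_option autoImplicit false

namespace Pool.Agent.Lib.MP_c5a075_co

noncomputable section

open Real

/-- The star directions in the ring frame, scaled by `1 + u ^ 2`. -/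
def Vr (u : ℝ) (k : ℤ) : E3 :=
  vec (2 * i5 * (W k 0 * (1 - u ^ 2) + W k 1 * (2 * u)))
    (2 * i5 * (W k 1 * (1 - u ^ 2) - W k 0 * (2 * u))) (i5 * (1 + u ^ 2))

/-- The star lines in the ring frame. -/
def SigR (u : ℝ) : Set E3 := {z | ∃ ρ : ℝ, z = ρ • e3 ∨ ∃ k : ℤ, z = ρ • Vr u k}

/-- functional vanishing on a star line -/
def nf (a b u : ℝ) (Z : E3) : ℝ :=
  -(b * (1 - u ^ 2) - a * (2 * u)) * Z 0 + (a * (1 - u ^ 2) + b * (2 * u)) * Z 1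

/-- functional vanishing on a star line -/
def mf (a b u : ℝ) (Z : E3) : ℝ :=
  (a * (1 - u ^ 2) + b * (2 * u)) * Z 0 + (b * (1 - u ^ 2) - a * (2 * u)) * Z 1 -
    2 * (1 + u ^ 2) * Z 2

lemma offR {u : ℝ} {Z : E3} (h : Z ∈ SigR u) :
    (Z 0 = 0 ∧ Z 1 = 0) ∨ (nf 1 0 u Z = 0 ∧ mf 1 0 u Z = 0) ∨
    (nf ((5 * i5 - 1) / 4) s5 u Z = 0 ∧ mf ((5 * i5 - 1) / 4) s5 u Z = 0) ∨
    (nf ((5 * i5 - 1) / 4) (-s5) u Z = 0 ∧ mf ((5 * i5 - 1) / 4) (-s5) u Z = 0) ∨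
    (nf (-(1 + 5 * i5) / 4) (s5 * (5 * i5 - 1) / 2) u Z = 0 ∧
      mf (-(1 + 5 * i5) / 4) (s5 * (5 * i5 - 1) / 2) u Z = 0) ∨
    (nf (-(1 + 5 * i5) / 4) (-(s5 * (5 * i5 - 1) / 2)) u Z = 0 ∧
      mf (-(1 + 5 * i5) / 4) (-(s5 * (5 * i5 - 1) / 2)) u Z = 0) := by
  obtain ⟨ρ, h | ⟨k, h⟩⟩ := h
  · left; rw [h]; constructor <;> simp
  · have gen : ∀ a b : ℝ, W k 0 = a → W k 1 = b → nf a b u Z = 0 ∧ mf a b u Z = 0 := by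
      intro a b ha hb
      have hu := W_sq k
      rw [ha, hb] at hu
      constructor
      · simp only [nf, h, Vr, smul_0, smul_1, vec_0, vec_1, ha, hb]; ring
      · simp only [mf, h, Vr, smul_0, smul_1, smul_2, vec_0, vec_1, vec_2, ha, hb]
        linear_combination (2 * ρ * i5 * ((1 - u ^ 2) ^ 2 + (2 * u) ^ 2)) * hu
    right
    have e1 := c5_eq
    have e2 : 2 * c5 ^ 2 - 1 = -(1 + 5 * i5) / 4 := by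
      rw [c5_sq, c5_eq]; ring
    have e3' : 2 * s5 * c5 = s5 * (5 * i5 - 1) / 2 := by rw [c5_eq]; ring
    rcases W_cases k with hk | hk | hk | hk | hk
    · left; exact gen 1 0 (by rw [hk, W_zero]; rfl) (by rw [hk, W_zero]; rfl)
    · right; left
      exact gen _ _ (by rw [hk, W_one, ← e1]; rfl) (by rw [hk, W_one]; rfl)
    · right; right; left
      exact gen _ _ (by rw [hk, W_neg_one, ← e1]; rfl) (by rw [hk, W_neg_one]; rfl)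
    · right; right; right; left
      exact gen _ _ (by rw [hk, W_two, ← e2]; rfl) (by rw [hk, W_two, ← e3']; rfl)
    · right; right; right; right
      exact gen _ _ (by rw [hk, W_neg_two, ← e2]; rfl) (by rw [hk, W_neg_two, ← e3']; rfl)

/-- word -/
def Z1 (x u : ℝ) : E3 :=
  vec ((-5/4)*x*u^2*i5 + (5/4)*x*u^2 + 2*x*u*i5*s5 + (-2/5)*x*u*s5 + (-1/4)*x*i5 + (-3/20)*x + (-5/2)*u^2*i5 + (1/2)*u^2 + (-4/5)*u*s5 + (1/2)*i5 + (7/10))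
    (x*u^2*i5*s5 + 3*x*u*i5 + (-1)*x*u + 3*x*i5*s5 + (-2/5)*x*s5 + 2*u^2*i5*s5 + u*i5 + (-1)*u + 2*i5*s5 + (-4/5)*s5)
    (4*x*u*i5*s5 + (-4/5)*x*u*s5 + (-2)*x*i5 + (6/5)*x + u^2 + (-8/5)*u*s5 + (-2)*i5 + (7/5))

/-- word -/
def Z2 (x u : ℝ) : E3 :=
  vec ((-1/4)*x*u^2*i5 + (1/4)*x*u^2 + (-2)*x*u*i5*s5 + 2*x*u*s5 + (-5/4)*x*i5 + (17/20)*x + (-1/2)*u^2*i5 + (1/2)*u^2 + (-4)*u*i5*s5 + (-3/2)*i5 + (7/10))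
    (x*u^2*i5*s5 + (-3)*x*u*i5 + x*u + 3*x*i5*s5 + (-2/5)*x*s5 + 2*u^2*i5*s5 + (-1)*u*i5 + u + 2*i5*s5 + (-4/5)*s5)
    ((-3)*x*u^2*i5 + x*u^2 + x*i5 + (1/5)*x + (-1)*u^2*i5 + 2*u^2 + (-1)*i5 + (2/5))

/-- word -/
def Y4 (x u : ℝ) : E3 :=
  vec ((1/4)*x*u^4*i5 + (3/4)*x*u^4 + (9/2)*x*u^2*i5 + (-5/2)*x*u^2 + (1/4)*x*i5 + (3/4)*x + (1/2)*u^4*i5 + (-1/2)*u^4 + 4*u^3*i5*s5 + 4*u*i5*s5 + (-1/2)*i5 + (1/2))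
    ((-1)*x*u^4*i5*s5 + (-2)*x*u^3*i5 + 2*x*u^3 + (-2)*x*u^2*i5*s5 + 2*x*u*i5 + (-2)*x*u + (-1)*x*i5*s5 + (-2)*u^4*i5*s5 + u^3*i5 + (-1)*u^3 + u*i5 + (-1)*u + 2*i5*s5)
    ((1/2)*x*u^4*i5 + (-1/2)*x*u^4 + (-4)*x*u^3*i5*s5 + (-4)*x*u*i5*s5 + (-1/2)*x*i5 + (1/2)*x + u^4*i5 + 2*u^2*i5 + i5)

/-- word -/
def Y5 (x u : ℝ) : E3 :=
  vec ((1/4)*x*u^4*i5 + (3/4)*x*u^4 + (9/2)*x*u^2*i5 + (-5/2)*x*u^2 + (1/4)*x*i5 + (3/4)*x + (1/2)*u^4*i5 + (-1/2)*u^4 + (-4)*u^3*i5*s5 + (-4)*u*i5*s5 + (-1/2)*i5 + (1/2))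
    (x*u^4*i5*s5 + (-2)*x*u^3*i5 + 2*x*u^3 + 2*x*u^2*i5*s5 + 2*x*u*i5 + (-2)*x*u + x*i5*s5 + 2*u^4*i5*s5 + u^3*i5 + (-1)*u^3 + u*i5 + (-1)*u + (-2)*i5*s5)
    ((1/2)*x*u^4*i5 + (-1/2)*x*u^4 + 4*x*u^3*i5*s5 + 4*x*u*i5*s5 + (-1/2)*x*i5 + (1/2)*x + u^4*i5 + 2*u^2*i5 + i5)

/-- word -/
def Z4 (x u : ℝ) : E3 :=
  vec ((-1/2)*x*u^4 + 4*x*u^3*i5*s5 + (-12/5)*x*u^3*s5 + (-7/5)*x*u^2 + (-8)*x*u*i5*s5 + (8/5)*x*u*s5 + (-1/10)*x + (-1)*u^4 + (-2)*u^3*i5*s5 + (6/5)*u^3*s5 + (-4/5)*u^2 + (-2)*u*i5*s5 + (6/5)*u*s5 + (1/5))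
    ((-3/2)*x*u^4*i5*s5 + (1/2)*x*u^4*s5 + 4*x*u^3*i5 + (-5)*x*u^2*i5*s5 + (11/5)*x*u^2*s5 + (1/2)*x*i5*s5 + (-7/10)*x*s5 + (-3)*u^4*i5*s5 + u^4*s5 + (-2)*u^3*i5 + (-4)*u^2*i5*s5 + (12/5)*u^2*s5 + (-2)*u*i5 + (-1)*i5*s5 + (7/5)*s5)
    ((-5/2)*x*u^4*i5 + (1/2)*x*u^4 + (-4/5)*x*u^3*s5 + 4*x*u^2*i5 + (-4/5)*x*u^2 + (-4/5)*x*u*s5 + (-3/2)*x*i5 + (3/10)*x + u^4 + (-8/5)*u^3*s5 + (-2)*u^2*i5 + (12/5)*u^2 + (-8/5)*u*s5 + (-2)*i5 + (7/5))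

/-- word -/
def Z5 (x u : ℝ) : E3 :=
  vec (x*u^4*i5 + (-1/2)*x*u^4 + (-2)*x*u^3*i5*s5 + 2*x*u^3*s5 + (-4)*x*u^2*i5 + (3/5)*x*u^2 + 6*x*u*i5*s5 + (-6/5)*x*u*s5 + x*i5 + (-1/10)*x + (-1/2)*u^4*i5 + (-1/2)*u^4 + 2*u^3*i5*s5 + (-2)*u^3*s5 + (-4/5)*u^2 + 2*u*i5*s5 + (-2)*u*s5 + (1/2)*i5 + (-3/10))
    ((-1/2)*x*u^4*i5*s5 + (3/2)*x*u^4*s5 + (-3)*x*u^3*i5 + x*u^3 + x*u^2*i5*s5 + (1/5)*x*u^2*s5 + (-1)*x*u*i5 + (-1)*x*u + (3/2)*x*i5*s5 + (3/10)*x*s5 + (-1)*u^4*i5*s5 + u^4*s5 + (-1)*u^3*i5 + (-1)*u^3 + (-4)*u^2*i5*s5 + (12/5)*u^2*s5 + (-1)*u*i5 + (-1)*u + (-3)*i5*s5 + (7/5)*s5)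
    ((-1/2)*x*u^4*i5 + (1/2)*x*u^4 + 4*x*u^3*i5*s5 + (-4)*x*u^2*i5 + (16/5)*x*u^2 + (-4)*x*u*i5*s5 + (8/5)*x*u*s5 + (1/2)*x*i5 + (3/10)*x + (-1)*u^4*i5 + 2*u^4 + (-2)*u^2*i5 + (12/5)*u^2 + (-1)*i5 + (2/5))

lemma z1_eq (h x u : ℝ) : ((h * (1 + x / 2)) * (1 + u ^ 2)) • e3 + rot (dd 0) c5 s5 ((h * (1 + x / 2 - 5 / 2 * i5 * x)) • Vr u 0 - ((h * (1 + x / 2)) * (1 + u ^ 2)) • e3) =
    h • Z1 x u := by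
  have hi := i5_sq
  have hs5 := s5_sq_i5
  apply ext3
  · rw [add_0, rot_0]
    simp only [dot, dd_0, dd_1, dd_2, sub_0, sub_1, sub_2, smul_0, smul_1, smul_2, e3_0, e3_1, e3_2, Vr, Z1, Z2, Y4, Y5, Z4, Z5, vec_0, vec_1, vec_2, W_zero, W_one, W_neg_two]
    rw [c5_eq]
    linear_combination h * ((-125/4)*x*u^2*i5^3 + (75/2)*x*u^2*i5^2 + (-15/2)*x*u^2*i5 + (25/4)*x*u^2 + 10*x*u*i5*s5 + (-2)*x*u*s5 + (75/4)*x*i5^3 + (-45/2)*x*i5^2 + (-3/4)*x + (25/2)*u^2*i5^2 + (-15)*u^2*i5 + (5/2)*u^2 + (-4)*u*s5 + (-15/2)*i5^2 + 5*i5 + (7/2)) * hi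
  · rw [add_1, rot_1]
    simp only [dot, dd_0, dd_1, dd_2, sub_0, sub_1, sub_2, smul_0, smul_1, smul_2, e3_0, e3_1, e3_2, Vr, Z1, Z2, Y4, Y5, Z4, Z5, vec_0, vec_1, vec_2, W_zero, W_one, W_neg_two]
    rw [c5_eq]
    linear_combination h * ((25/2)*x*u*i5 + (-5)*x*u + 10*x*i5*s5 + (-2)*x*s5 + (-5)*u + (-4)*s5) * hi
  · rw [add_2, rot_2]
    simp only [dot, dd_0, dd_1, dd_2, sub_0, sub_1, sub_2, smul_0, smul_1, smul_2, e3_0, e3_1, e3_2, Vr, Z1, Z2, Y4, Y5, Z4, Z5, vec_0, vec_1, vec_2, W_zero, W_one, W_neg_two]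
    rw [c5_eq]
    linear_combination h * ((125/8)*x*u^2*i5^3 + (-75/4)*x*u^2*i5^2 + (15/4)*x*u^2*i5 + (-25/8)*x*u^2 + 20*x*u*i5*s5 + (-4)*x*u*s5 + (-75/8)*x*i5^3 + (45/4)*x*i5^2 + (-25/4)*x*i5 + (23/8)*x + (-25/4)*u^2*i5^2 + (15/2)*u^2*i5 + (-5/4)*u^2 + (-8)*u*s5 + (15/4)*i5^2 + (-5/2)*i5 + (3/4)) * hi

lemma z2_eq (h x u : ℝ) : ((h * (1 + x / 2)) * (1 + u ^ 2)) • e3 + rot (dd 1) c5 s5 (h • Z1 x u - ((h * (1 + x / 2)) * (1 + u ^ 2)) • e3) =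
    h • Z2 x u := by
  have hi := i5_sq
  have hs5 := s5_sq_i5
  apply ext3
  · rw [add_0, rot_0]
    simp only [dot, dd_0, dd_1, dd_2, sub_0, sub_1, sub_2, smul_0, smul_1, smul_2, e3_0, e3_1, e3_2, Vr, Z1, Z2, Y4, Y5, Z4, Z5, vec_0, vec_1, vec_2, W_zero, W_one, W_neg_two]
    rw [c5_eq]
    linear_combination h * ((625/64)*x*u^2*i5^4 + (-25/4)*x*u^2*i5^3*s5^2 + (-375/16)*x*u^2*i5^3 + (15/2)*x*u^2*i5^2*s5^2 + (1175/64)*x*u^2*i5^2 + (-5/2)*x*u^2*i5*s5^2 + (-15/2)*x*u^2*i5 + (5/2)*x*u^2*s5^2 + (5/4)*x*u^2 + (-125/8)*x*u*i5^4*s5 + (75/4)*x*u*i5^3*s5 + (-25/8)*x*u*i5^2*s5 + 8*x*u*s5^3 + (9/2)*x*u*s5 + (125/64)*x*i5^4 + (-75/4)*x*i5^3*s5^2 + (-125/16)*x*i5^3 + 25*x*i5^2*s5^2 + (595/64)*x*i5^2 + (-21/2)*x*i5*s5^2 + (-5)*x*i5 + (9/2)*x*s5^2 + (5/4)*x + (625/32)*u^2*i5^4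 + (-25/2)*u^2*i5^3*s5^2 + (-125/4)*u^2*i5^3 + 15*u^2*i5^2*s5^2 + (575/32)*u^2*i5^2 + (-5)*u^2*i5*s5^2 + (-35/4)*u^2*i5 + 5*u^2*s5^2 + (-1)*u*s5 + (-125/32)*i5^4 + (-25/2)*i5^3*s5^2 + (-25/4)*i5^3 + 20*i5^2*s5^2 + (445/32)*i5^2 + (-11)*i5*s5^2 + (-25/4)*i5 + 3*s5^2 + (5/2)) * hi + h * ((-3/2)*x*u^2*i5 + (1/2)*x*u^2 + (-8/5)*x*u*i5*s5 + (8/5)*x*u*s5 + (-11/10)*x*i5 + (9/10)*x + (-1)*u^2*i5 + u^2 + (-16/5)*u*i5*s5 + (-11/5)*i5 + (3/5)) * hs5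
  · rw [add_1, rot_1]
    simp only [dot, dd_0, dd_1, dd_2, sub_0, sub_1, sub_2, smul_0, smul_1, smul_2, e3_0, e3_1, e3_2, Vr, Z1, Z2, Y4, Y5, Z4, Z5, vec_0, vec_1, vec_2, W_zero, W_one, W_neg_two]
    rw [c5_eq]
    linear_combination h * ((125/16)*x*u^2*i5^3*s5 + (-5)*x*u^2*i5^2*s5^3 + (-275/16)*x*u^2*i5^2*s5 + 5*x*u^2*i5*s5^3 + (45/4)*x*u^2*i5*s5 + (-1)*x*u^2*s5^3 + (5/8)*x*u^2*s5 + (-25/2)*x*u*i5^3*s5^2 + (25/2)*x*u*i5^2*s5^2 + (-10)*x*u*i5*s5^2 + 2*x*u*s5^2 + (5/2)*x*u + (25/16)*x*i5^3*s5 + (-15)*x*i5^2*s5^3 + (-95/16)*x*i5^2*s5 + 17*x*i5*s5^3 + (45/4)*x*i5*s5 + (-5)*x*s5^3 + (5/8)*x*s5 + (125/8)*u^2*i5^3*s5 + (-10)*u^2*i5^2*s5^3 + (-175/8)*u^2*i5^2*s5 + 10*u^2*i5*s5^3 + 10*u^2*i5*s5 + (-2)*u^2*s5^3 + (5/4)*u^2*s5 + 4*u*s5^2 + (5/4)*u + (-25/8)*i5^3*s5 +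 (-10)*i5^2*s5^3 + (-45/8)*i5^2*s5 + 14*i5*s5^3 + 15*i5*s5 + (-6)*s5^3 + (-5/4)*s5) * hi + h * (x*u^2*i5*s5 + (-1/5)*x*u^2*s5 + (-2)*x*u*i5 + (2/5)*x*u + (17/5)*x*i5*s5 + (-1)*x*s5 + 2*u^2*i5*s5 + (-2/5)*u^2*s5 + (4/5)*u + (14/5)*i5*s5 + (-6/5)*s5) * hs5
  · rw [add_2, rot_2]
    simp only [dot, dd_0, dd_1, dd_2, sub_0, sub_1, sub_2, smul_0, smul_1, smul_2, e3_0, e3_1, e3_2, Vr, Z1, Z2, Y4, Y5, Z4, Z5, vec_0, vec_1, vec_2, W_zero, W_one, W_neg_two]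
    rw [c5_eq]
    linear_combination h * ((-125/32)*x*u^2*i5^3 + (5/2)*x*u^2*i5^2*s5^2 + (275/32)*x*u^2*i5^2 + (-45/8)*x*u^2*i5 + (5/2)*x*u^2*s5^2 + (5/16)*x*u^2 + (25/4)*x*u*i5^3*s5 + (-25/4)*x*u*i5^2*s5 + (15/2)*x*u*i5*s5 + (-4)*x*u*s5^3 + (3/2)*x*u*s5 + (-25/32)*x*i5^3 + (15/2)*x*i5^2*s5^2 + (95/32)*x*i5^2 + (-1)*x*i5*s5^2 + (-25/8)*x*i5 + (1/2)*x*s5^2 + (-15/16)*x + (-125/16)*u^2*i5^3 + 5*u^2*i5^2*s5^2 + (175/16)*u^2*i5^2 + (-5)*u^2*i5 + 5*u^2*s5^2 + (15/8)*u^2 + (5/2)*u*i5*s5 + (-2)*u*s5 + (25/16)*i5^3 + 5*i5^2*s5^2 + (45/16)*i5^2 + (-2)*i5*s5^2 + (-5)*i5 + (-1)*s5^2 + (-15/8)) * hi + h * ((-5/2)*x*u^2*i5 + (1/2)*x*u^2 + (4/5)*x*u*i5*s5 + (-4/5)*x*u*s5 + (3/10)*x*i5 + (1/10)*x + (-1)*u^2*i5 + u^2 + (8/5)*u*i5*s5 + (-7/5)*i5 + (-1/5)) * hs5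

lemma z4_eq (h x u : ℝ) : ((h * (1 + x / 2)) * (1 + u ^ 2) ^ 2) • e3 + rot (dd 1) c5 s5 (h • Y4 x u - ((h * (1 + x / 2)) * (1 + u ^ 2) ^ 2) • e3) =
    h • Z4 x u := by
  have hi := i5_sq
  have hs5 := s5_sq_i5
  apply ext3
  · rw [add_0, rot_0]
    simp only [dot, dd_0, dd_1, dd_2, sub_0, sub_1, sub_2, smul_0, smul_1, smul_2, e3_0, e3_1, e3_2, Vr, Z1, Z2, Y4, Y5, Z4, Z5, vec_0, vec_1, vec_2, W_zero, W_one, W_neg_two]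
    rw [c5_eq]
    linear_combination h * ((-125/64)*x*u^4*i5^4 + (25/4)*x*u^4*i5^3*s5^2 + (-25/16)*x*u^4*i5^3 + (-15/2)*x*u^4*i5^2*s5^2 + (125/64)*x*u^4*i5^2 + (5/2)*x*u^4*i5*s5^2 + (5/4)*x*u^4*i5 + (-3/2)*x*u^4*s5^2 + (-5/8)*x*u^4 + (-25/2)*x*u^3*i5^2*s5 + 15*x*u^3*i5*s5 + (-8)*x*u^3*s5^3 + (-7)*x*u^3*s5 + (-1125/32)*x*u^2*i5^4 + (25/2)*x*u^2*i5^3*s5^2 + (275/4)*x*u^2*i5^3 + (-15)*x*u^2*i5^2*s5^2 + (-1695/32)*x*u^2*i5^2 + 5*x*u^2*i5*s5^2 + (55/2)*x*u^2*i5 + (-5)*x*u^2*s5^2 + (-7)*x*u^2 + (-25)*x*u*i5^3*s5 + (85/2)*x*u*i5^2*s5 + (-25)*x*u*i5*s5 + (-8)*x*u*s5^3 + 13*x*u*s5 + (-125/64)*x*i5^4 + (25/4)*x*i5^3*s5^2 + (-75/16)*x*i5^3 + (-15/2)*x*i5^2*s5^2 + (565/64)*x*i5^2 + (5/2)*x*i5*s5^2 + (-15/4)*x*i5 + (-7/2)*x*s5^2 + (21/8)*x + (-125/32)*u^4*i5^4 + (25/2)*u^4*i5^3*s5^2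 + (25/2)*u^4*i5^3 + (-15)*u^4*i5^2*s5^2 + (-475/32)*u^4*i5^2 + 5*u^4*i5*s5^2 + (35/4)*u^4*i5 + (-3)*u^4*s5^2 + (-15/4)*u^4 + (-125/4)*u^3*i5^4*s5 + (75/2)*u^3*i5^3*s5 + (-25/4)*u^3*i5^2*s5 + 6*u^3*s5 + (25/4)*u^2*i5^3 + (-55/4)*u^2*i5^2 + 10*u^2*i5 + 4*u^2*s5^2 + (-13/2)*u^2 + (-125/4)*u*i5^4*s5 + (75/2)*u*i5^3*s5 + (-25/4)*u*i5^2*s5 + 6*u*s5 + (125/32)*i5^4 + (-25/2)*i5^3*s5^2 + (-25/4)*i5^3 + 15*i5^2*s5^2 + (35/32)*i5^2 + (-5)*i5*s5^2 + (5/4)*i5 + 7*s5^2 + (-11/4)) * hi + h * ((-3/2)*x*u^4*i5 + (-3/10)*x*u^4 + (-8/5)*x*u^3*s5 + (-1)*x*u^2*i5 + (-1)*x*u^2 + (-8/5)*x*u*s5 + (1/2)*x*i5 + (-7/10)*x + (-1)*u^4*i5 + (-3/5)*u^4 + (-4)*u^2*i5 + (4/5)*u^2 + (-3)*i5 + (7/5)) * hs5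
  · rw [add_1, rot_1]
    simp only [dot, dd_0, dd_1, dd_2, sub_0, sub_1, sub_2, smul_0, smul_1, smul_2, e3_0, e3_1, e3_2, Vr, Z1, Z2, Y4, Y5, Z4, Z5, vec_0, vec_1, vec_2, W_zero, W_one, W_neg_two]
    rw [c5_eq]
    linear_combination h * ((-25/16)*x*u^4*i5^3*s5 + 5*x*u^4*i5^2*s5^3 + (-25/16)*x*u^4*i5^2*s5 + (-5)*x*u^4*i5*s5^3 + x*u^4*s5^3 + (15/8)*x*u^4*s5 + 8*x*u^3*s5^2 + (-5/2)*x*u^3 + (-225/8)*x*u^2*i5^3*s5 + 10*x*u^2*i5^2*s5^3 + (395/8)*x*u^2*i5^2*s5 + (-10)*x*u^2*i5*s5^3 + (-65/2)*x*u^2*i5*s5 + 2*x*u^2*s5^3 + (39/4)*x*u^2*s5 + (-20)*x*u*i5^2*s5^2 + 40*x*u*i5*s5^2 + (-16)*x*u*s5^2 + (15/2)*x*u + (-25/16)*x*i5^3*s5 + 5*x*i5^2*s5^3 + (-65/16)*x*i5^2*s5 + (-5)*x*i5*s5^3 + (15/2)*x*i5*s5 + x*s5^3 + (-33/8)*x*s5 + (-25/8)*u^4*i5^3*s5 + 10*u^4*i5^2*s5^3 + (75/8)*u^4*i5^2*s5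 + (-10)*u^4*i5*s5^3 + (-25/2)*u^4*i5*s5 + 2*u^4*s5^3 + (15/4)*u^4*s5 + (-25)*u^3*i5^3*s5^2 + 25*u^3*i5^2*s5^2 + (-4)*u^3*s5^2 + (5/4)*u^3 + 5*u^2*i5^2*s5 + (-15)*u^2*i5*s5 + 12*u^2*s5 + (-25)*u*i5^3*s5^2 + 25*u*i5^2*s5^2 + (-4)*u*s5^2 + (5/4)*u + (25/8)*i5^3*s5 + (-10)*i5^2*s5^3 + (-35/8)*i5^2*s5 + 10*i5*s5^3 + (-5/2)*i5*s5 + (-2)*s5^3 + (33/4)*s5) * hi + h * ((-1)*x*u^4*i5*s5 + (1/5)*x*u^4*s5 + (8/5)*x*u^3 + (-2)*x*u^2*i5*s5 + (2/5)*x*u^2*s5 + 8*x*u*i5 + (-16/5)*x*u + (-1)*x*i5*s5 + (1/5)*x*s5 + (-2)*u^4*i5*s5 + (2/5)*u^4*s5 + (-4/5)*u^3 + (-4/5)*u + 2*i5*s5 + (-2/5)*s5) * hs5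
  · rw [add_2, rot_2]
    simp only [dot, dd_0, dd_1, dd_2, sub_0, sub_1, sub_2, smul_0, smul_1, smul_2, e3_0, e3_1, e3_2, Vr, Z1, Z2, Y4, Y5, Z4, Z5, vec_0, vec_1, vec_2, W_zero, W_one, W_neg_two]
    rw [c5_eq]
    linear_combination h * ((25/32)*x*u^4*i5^3 + (-5/2)*x*u^4*i5^2*s5^2 + (25/32)*x*u^4*i5^2 + (-5/8)*x*u^4*i5 + (-1/2)*x*u^4*s5^2 + (-15/16)*x*u^4 + (-4)*x*u^3*s5 + (225/16)*x*u^2*i5^3 + (-5)*x*u^2*i5^2*s5^2 + (-395/16)*x*u^2*i5^2 + (65/4)*x*u^2*i5 + (-9)*x*u^2*s5^2 + (-37/8)*x*u^2 + 10*x*u*i5^2*s5 + (-10)*x*u*i5*s5 + (-4)*x*u*s5 + (25/32)*x*i5^3 + (-5/2)*x*i5^2*s5^2 + (65/32)*x*i5^2 + (-25/8)*x*i5 + (-1/2)*x*s5^2 + (-11/16)*x + (25/16)*u^4*i5^3 + (-5)*u^4*i5^2*s5^2 + (-75/16)*u^4*i5^2 + 5*u^4*i5 + (-1)*u^4*s5^2 + (-5/8)*u^4 + (25/2)*u^3*i5^3*s5 + (-25/2)*u^3*i5^2*s5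 + (5/2)*u^3*i5*s5 + (-8)*u^3*s5^3 + (-3)*u^3*s5 + (-5/2)*u^2*i5^2 + 5*u^2*i5 + (-1/2)*u^2 + (25/2)*u*i5^3*s5 + (-25/2)*u*i5^2*s5 + (5/2)*u*i5*s5 + (-8)*u*s5^3 + (-3)*u*s5 + (-25/16)*i5^3 + 5*i5^2*s5^2 + (35/16)*i5^2 + s5^2 + (1/8)) * hi + h * ((-3/2)*x*u^4*i5 + (-1/10)*x*u^4 + 5*x*u^2*i5 + (-9/5)*x*u^2 + (-3/2)*x*i5 + (-1/10)*x + u^4*i5 + (-1/5)*u^4 + (-8/5)*u^3*s5 + (-8/5)*u*s5 + (-1)*i5 + (1/5)) * hs5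

lemma z5_eq (h x u : ℝ) : ((h * (1 + x / 2)) * (1 + u ^ 2) ^ 2) • e3 + rot (dd (-2)) c5 (-s5) (h • Y5 x u - ((h * (1 + x / 2)) * (1 + u ^ 2) ^ 2) • e3) =
    h • Z5 x u := by
  have hi := i5_sq
  have hs5 := s5_sq_i5
  apply ext3
  · rw [add_0, rot_0]
    simp only [dot, dd_0, dd_1, dd_2, sub_0, sub_1, sub_2, smul_0, smul_1, smul_2, e3_0, e3_1, e3_2, Vr, Z1, Z2, Y4, Y5, Z4, Z5, vec_0, vec_1, vec_2, W_zero, W_one, W_neg_two]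
    rw [c5_eq]
    linear_combination h * ((-3125/256)*x*u^4*i5^6 + (625/16)*x*u^4*i5^5*s5^2 + (-1875/128)*x*u^4*i5^5 + (-125/2)*x*u^4*i5^4*s5^2 + (125/2)*x*u^4*i5^4 + (375/16)*x*u^4*i5^3*s5^2 + (-4925/128)*x*u^4*i5^3 + (-5/2)*x*u^4*i5^2*s5^2 + (725/256)*x*u^4*i5^2 + 5*x*u^4*i5*s5^2 + (-5/4)*x*u^4*i5 + (-7)*x*u^4*s5^2 + (45/16)*x*u^4 + (-625/8)*x*u^3*i5^5*s5 + (1875/8)*x*u^3*i5^4*s5 + (-1725/8)*x*u^3*i5^3*s5 + (495/8)*x*u^3*i5^2*s5 + 20*x*u^3*i5*s5^3 + (-10)*x*u^3*i5*s5 + (-4)*x*u^3*s5^3 + (25/2)*x*u^3*s5 + (-28125/128)*x*u^2*i5^6 + (625/8)*x*u^2*i5^5*s5^2 + (33125/64)*x*u^2*i5^5 + (-125)*x*u^2*i5^4*s5^2 + (-5625/16)*x*u^2*i5^4 + (375/8)*x*u^2*i5^3*s5^2 + (475/64)*x*u^2*i5^3 + (-5)*x*u^2*i5^2*s5^2 + (6245/128)*x*u^2*i5^2 + 5*x*u^2*i5*s5^2 + (-8)*x*u^2*s5^2 + (39/8)*x*u^2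 + (625/8)*x*u*i5^5*s5 + (-1375/8)*x*u*i5^4*s5 + (1025/8)*x*u*i5^3*s5 + (-335/8)*x*u*i5^2*s5 + 20*x*u*i5*s5^3 + 10*x*u*i5*s5 + (-4)*x*u*s5^3 + (-7/2)*x*u*s5 + (-3125/256)*x*i5^6 + (625/16)*x*i5^5*s5^2 + (-1875/128)*x*i5^5 + (-125/2)*x*i5^4*s5^2 + (875/16)*x*i5^4 + (375/16)*x*i5^3*s5^2 + (-2525/128)*x*i5^3 + (-5/2)*x*i5^2*s5^2 + (-2715/256)*x*i5^2 + (5/4)*x*i5 + (-1)*x*s5^2 + (17/16)*x + (-3125/128)*u^4*i5^6 + (625/8)*u^4*i5^5*s5^2 + (4375/64)*u^4*i5^5 + (-125)*u^4*i5^4*s5^2 + (-1625/32)*u^4*i5^4 + (375/8)*u^4*i5^3*s5^2 + (-675/64)*u^4*i5^3 + (-5)*u^4*i5^2*s5^2 + (2625/128)*u^4*i5^2 + 10*u^4*i5*s5^2 + (-5/2)*u^4*i5 + (-9)*u^4*s5^2 + (5/2)*u^4 + (3125/16)*u^3*i5^6*s5 + (-625/2)*u^3*i5^5*s5 + (125/8)*u^3*i5^4*s5 + (275/2)*u^3*i5^3*s5 + (-495/16)*u^3*i5^2*s5 + (-10)*u^3*s5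 + (125/8)*u^2*i5^4 + (-75/2)*u^2*i5^3 + (215/8)*u^2*i5^2 + 10*u^2*i5*s5^2 + (-5)*u^2*i5 + (-12)*u^2*s5^2 + (7/2)*u^2 + (3125/16)*u*i5^6*s5 + (-625/2)*u*i5^5*s5 + (125/8)*u*i5^4*s5 + (275/2)*u*i5^3*s5 + (-495/16)*u*i5^2*s5 + (-10)*u*s5 + (3125/128)*i5^6 + (-625/8)*i5^5*s5^2 + (-4375/64)*i5^5 + 125*i5^4*s5^2 + (2125/32)*i5^4 + (-375/8)*i5^3*s5^2 + (-1725/64)*i5^3 + 5*i5^2*s5^2 + (815/128)*i5^2 + (-5/2)*i5 + (-3)*s5^2 + 1) * hi + h * (2*x*u^4*i5 + (-7/5)*x*u^4 + 4*x*u^3*i5*s5 + (-4/5)*x*u^3*s5 + 2*x*u^2*i5 + (-8/5)*x*u^2 + 4*x*u*i5*s5 + (-4/5)*x*u*s5 + (-1/5)*x + 3*u^4*i5 + (-9/5)*u^4 + 4*u^2*i5 + (-12/5)*u^2 + i5 + (-3/5)) * hs5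
  · rw [add_1, rot_1]
    simp only [dot, dd_0, dd_1, dd_2, sub_0, sub_1, sub_2, smul_0, smul_1, smul_2, e3_0, e3_1, e3_2, Vr, Z1, Z2, Y4, Y5, Z4, Z5, vec_0, vec_1, vec_2, W_zero, W_one, W_neg_two]
    rw [c5_eq]
    linear_combination h * ((625/64)*x*u^4*i5^5*s5 + (-125/4)*x*u^4*i5^4*s5^3 + (875/64)*x*u^4*i5^4*s5 + (175/4)*x*u^4*i5^3*s5^3 + (-2825/64)*x*u^4*i5^3*s5 + (-20)*x*u^4*i5^2*s5^3 + (1925/64)*x*u^4*i5^2*s5 + 10*x*u^4*i5*s5^3 + (-35/2)*x*u^4*i5*s5 + (-4)*x*u^4*s5^3 + 10*x*u^4*s5 + (125/2)*x*u^3*i5^4*s5^2 + (-175)*x*u^3*i5^3*s5^2 + (365/2)*x*u^3*i5^2*s5^2 + (-80)*x*u^3*i5*s5^2 + 32*x*u^3*s5^2 + (-25/2)*x*u^3 + (5625/32)*x*u^2*i5^5*s5 + (-125/2)*x*u^2*i5^4*s5^3 + (-12125/32)*x*u^2*i5^4*s5 + (175/2)*x*u^2*i5^3*s5^3 + (8375/32)*x*u^2*i5^3*s5 + (-40)*x*u^2*i5^2*s5^3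 + (-2035/32)*x*u^2*i5^2*s5 + 20*x*u^2*i5*s5^3 + (15/4)*x*u^2*i5*s5 + (-8)*x*u^2*s5^3 + 6*x*u^2*s5 + (-125/2)*x*u*i5^4*s5^2 + 125*x*u*i5^3*s5^2 + (-145/2)*x*u*i5^2*s5^2 + 40*x*u*i5*s5^2 + (-24)*x*u*s5^2 + (15/2)*x*u + (625/64)*x*i5^5*s5 + (-125/4)*x*i5^4*s5^3 + (875/64)*x*i5^4*s5 + (175/4)*x*i5^3*s5^3 + (-2425/64)*x*i5^3*s5 + (-20)*x*i5^2*s5^3 + (645/64)*x*i5^2*s5 + 10*x*i5*s5^3 + (5/4)*x*i5*s5 + (-4)*x*s5^3 + 4*x*s5 + (625/32)*u^4*i5^5*s5 + (-125/2)*u^4*i5^4*s5^3 + (-1625/32)*u^4*i5^4*s5 + (175/2)*u^4*i5^3*s5^3 + (1175/32)*u^4*i5^3*s5 + (-40)*u^4*i5^2*s5^3 + (225/32)*u^4*i5^2*s5 + 20*u^4*i5*s5^3 + (-65/4)*u^4*i5*s5 + (-8)*u^4*s5^3 + 10*u^4*s5 + (-625/4)*u^3*i5^5*s5^2 + (875/4)*u^3*i5^4*s5^2 + (-75/4)*u^3*i5^3*s5^2 + (-215/4)*u^3*i5^2*s5^2 + 20*u^3*i5*s5^2 + (-16)*u^3*s5^2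 + (15/4)*u^3 + (-25/2)*u^2*i5^3*s5 + 40*u^2*i5^2*s5 + (-75/2)*u^2*i5*s5 + 12*u^2*s5 + (-625/4)*u*i5^5*s5^2 + (875/4)*u*i5^4*s5^2 + (-75/4)*u*i5^3*s5^2 + (-215/4)*u*i5^2*s5^2 + 20*u*i5*s5^2 + (-16)*u*s5^2 + (15/4)*u + (-625/32)*i5^5*s5 + (125/2)*i5^4*s5^3 + (1625/32)*i5^4*s5 + (-175/2)*i5^3*s5^3 + (-1575/32)*i5^3*s5 + 40*i5^2*s5^3 + (1055/32)*i5^2*s5 + (-20)*i5*s5^3 + (-85/4)*i5*s5 + 8*s5^3 + 2*s5) * hi + h * (2*x*u^4*i5*s5 + (-4/5)*x*u^4*s5 + (-16)*x*u^3*i5 + (32/5)*x*u^3 + 4*x*u^2*i5*s5 + (-8/5)*x*u^2*s5 + 8*x*u*i5 + (-24/5)*x*u + 2*x*i5*s5 + (-4/5)*x*s5 + 4*u^4*i5*s5 + (-8/5)*u^4*s5 + 4*u^3*i5 + (-16/5)*u^3 + 4*u*i5 + (-16/5)*u + (-4)*i5*s5 + (8/5)*s5) * hs5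
  · rw [add_2, rot_2]
    simp only [dot, dd_0, dd_1, dd_2, sub_0, sub_1, sub_2, smul_0, smul_1, smul_2, e3_0, e3_1, e3_2, Vr, Z1, Z2, Y4, Y5, Z4, Z5, vec_0, vec_1, vec_2, W_zero, W_one, W_neg_two]
    rw [c5_eq]
    linear_combination h * ((125/64)*x*u^4*i5^4 + (-25/4)*x*u^4*i5^3*s5^2 + (25/8)*x*u^4*i5^3 + (5/4)*x*u^4*i5^2*s5^2 + (-525/64)*x*u^4*i5^2 + (-5/4)*x*u^4*i5*s5^2 + (15/4)*x*u^4*i5 + (-3/2)*x*u^4*s5^2 + (-5/16)*x*u^4 + (25/2)*x*u^3*i5^3*s5 + (-20)*x*u^3*i5^2*s5 + (15/2)*x*u^3*i5*s5 + (1125/32)*x*u^2*i5^4 + (-25/2)*x*u^2*i5^3*s5^2 + (-275/4)*x*u^2*i5^3 + (5/2)*x*u^2*i5^2*s5^2 + (1235/32)*x*u^2*i5^2 + (-45/2)*x*u^2*i5*s5^2 + (-5)*x*u^2*i5 + 21*x*u^2*s5^2 + (-27/8)*x*u^2 + (-25/2)*x*u*i5^3*s5 + 10*x*u*i5^2*s5 + (5/2)*x*u*i5*s5 + 8*x*u*s5 + (125/64)*x*i5^4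 + (-25/4)*x*i5^3*s5^2 + (25/8)*x*i5^3 + (5/4)*x*i5^2*s5^2 + (-445/64)*x*i5^2 + (-5/4)*x*i5*s5^2 + (5/4)*x*i5 + (-3/2)*x*s5^2 + (-1/16)*x + (125/32)*u^4*i5^4 + (-25/2)*u^4*i5^3*s5^2 + (-75/8)*u^4*i5^3 + (5/2)*u^4*i5^2*s5^2 + (175/32)*u^4*i5^2 + (-5/2)*u^4*i5*s5^2 + (5/4)*u^4*i5 + 7*u^4*s5^2 + (-5/8)*u^4 + (-125/4)*u^3*i5^4*s5 + (75/2)*u^3*i5^3*s5 + (-5/2)*u^3*i5^2*s5 + 20*u^3*i5*s5^3 + (-5/4)*u^3*i5*s5 + (-4)*u^3*s5^3 + (5/2)*u^3*s5 + (-5/2)*u^2*i5^2 + 5*u^2*i5 + (-1/2)*u^2 + (-125/4)*u*i5^4*s5 + (75/2)*u*i5^3*s5 + (-5/2)*u*i5^2*s5 + 20*u*i5*s5^3 + (-5/4)*u*i5*s5 + (-4)*u*s5^3 + (5/2)*u*s5 + (-125/32)*i5^4 + (25/2)*i5^3*s5^2 + (75/8)*i5^3 + (-5/2)*i5^2*s5^2 + (-255/32)*i5^2 + (5/2)*i5*s5^2 + (15/4)*i5 + (-7)*s5^2 + (1/8)) * hi + h * ((1/2)*x*u^4*i5 + (-3/10)*x*u^4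 + (-7)*x*u^2*i5 + (21/5)*x*u^2 + (1/2)*x*i5 + (-3/10)*x + (-1)*u^4*i5 + (7/5)*u^4 + 4*u^3*i5*s5 + (-4/5)*u^3*s5 + 4*u*i5*s5 + (-4/5)*u*s5 + i5 + (-7/5)) * hs5

lemma y4_eq (h x u : ℝ) : (c5 * (1 + u ^ 2) ^ 2) • vec (h * x) 0 h + ((1 - c5) * dot (Vr u 0) (vec (h * x) 0 h)) • Vr u 0 +
    (-s5 * (1 + u ^ 2)) • cross (Vr u 0) (vec (h * x) 0 h) = h • Y4 x u := by
  have hi := i5_sq
  have hs5 := s5_sq_i5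
  apply ext3
  · simp only [add_0, smul_0, cross_0, dot, Vr, Y4, vec_0, vec_1, vec_2, W_zero]
    rw [c5_eq]
    linear_combination h * ((-5)*x*u^4*i5 + 5*x*u^4 + 10*x*u^2*i5 + (-10)*x*u^2 + (-5)*x*i5 + 5*x + (5/2)*u^4*i5 + (-5/2)*u^4 + (-5/2)*i5 + (5/2)) * hi
  · simp only [add_1, smul_1, cross_1, dot, Vr, Y4, vec_0, vec_1, vec_2, W_zero]
    rw [c5_eq]
    linear_combination h * ((-10)*x*u^3*i5 + 10*x*u^3 + 10*x*u*i5 + (-10)*x*u + 5*u^3*i5 + (-5)*u^3 + 5*u*i5 + (-5)*u) * hi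
  · simp only [add_2, smul_2, cross_2, dot, Vr, Y4, vec_0, vec_1, vec_2, W_zero]
    rw [c5_eq]
    linear_combination h * ((5/2)*x*u^4*i5 + (-5/2)*x*u^4 + (-5/2)*x*i5 + (5/2)*x + (-5/4)*u^4*i5 + (5/4)*u^4 + (-5/2)*u^2*i5 + (5/2)*u^2 + (-5/4)*i5 + (5/4)) * hi

lemma y5_eq (h x u : ℝ) : (c5 * (1 + u ^ 2) ^ 2) • vec (h * x) 0 h + ((1 - c5) * dot (Vr u 0) (vec (h * x) 0 h)) • Vr u 0 +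
    (s5 * (1 + u ^ 2)) • cross (Vr u 0) (vec (h * x) 0 h) = h • Y5 x u := by
  have hi := i5_sq
  have hs5 := s5_sq_i5
  apply ext3
  · simp only [add_0, smul_0, cross_0, dot, Vr, Y5, vec_0, vec_1, vec_2, W_zero]
    rw [c5_eq]
    linear_combination h * ((-5)*x*u^4*i5 + 5*x*u^4 + 10*x*u^2*i5 + (-10)*x*u^2 + (-5)*x*i5 + 5*x + (5/2)*u^4*i5 + (-5/2)*u^4 + (-5/2)*i5 + (5/2)) * hi
  · simp only [add_1, smul_1, cross_1, dot, Vr, Y5, vec_0, vec_1, vec_2, W_zero]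
    rw [c5_eq]
    linear_combination h * ((-10)*x*u^3*i5 + 10*x*u^3 + 10*x*u*i5 + (-10)*x*u + 5*u^3*i5 + (-5)*u^3 + 5*u*i5 + (-5)*u) * hi
  · simp only [add_2, smul_2, cross_2, dot, Vr, Y5, vec_0, vec_1, vec_2, W_zero]
    rw [c5_eq]
    linear_combination h * ((5/2)*x*u^4*i5 + (-5/2)*x*u^4 + (-5/2)*x*i5 + (5/2)*x + (-5/4)*u^4*i5 + (5/4)*u^4 + (-5/2)*u^2*i5 + (5/2)*u^2 + (-5/4)*i5 + (5/4)) * hi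

lemma off_z1a {x u : ℝ} (hx : (0 / 1000 : ℝ) ≤ x) (hx' : x < (500 / 1000 : ℝ))
    (hu : (41 / 1000 : ℝ) ≤ u) (hu' : u < (280 / 1000 : ℝ)) :
    Z1 x u ∉ SigR u ∧ 0 < ((1 + x ^ 2) - (1 + x / 2 - 5 / 2 * i5 * x) ^ 2) * (1 + u ^ 2) + 2 * (1 + x / 2) * (i5 * (1 + x / 2 - 5 / 2 * i5 * x) * (1 + u ^ 2) - Z1 x u 2) := by
  have hi := i5_sq
  have hs5 := s5_sq_i5
  obtain ⟨c1, c2, c3, c4, c5, c6, c7⟩ := wc_z1a x u i5 s5 hx hx' hu hu' (by have := i5_gt; linarith)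
    (by have := i5_lt; linarith) (by have := s5_gt; linarith) (by have := s5_lt; linarith)
  refine ⟨fun hm => ?_, ?_⟩
  · rcases offR hm with ⟨h0, h1⟩ | ⟨h0, h1⟩ | ⟨h0, h1⟩ | ⟨h0, h1⟩ | ⟨h0, h1⟩ | ⟨h0, h1⟩
    · simp only [Z1, vec_0, vec_1, vec_2] at h0
      refine c2.ne' ?_
      linear_combination (20) * h0
    · simp only [nf, mf, Z1, vec_0, vec_1, vec_2] at h0
      refine c3.ne' ?_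
      linear_combination (10) * h0
    · simp only [nf, mf, Z1, vec_0, vec_1, vec_2] at h0
      refine c7.ne' ?_
      linear_combination (-5) * h0 - (-5) * ((-5/4)*x*u^4*s5 + (-35/8)*x*u^3 + (5/2)*x*u^2*s5 + (45/8)*x*u + (15/4)*x*s5 + (-5/2)*u^4*s5 + (-5)*u^3 + 5*u + (5/2)*s5) * hi - (-5) * (4*x*u^3*i5 + (-2/5)*x*u^3 + 4*x*u*i5 + (-2/5)*x*u + 4*u^3*i5 + (-4/5)*u^3 + 4*u*i5 + (-4/5)*u) * hs5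
    · simp only [nf, mf, Z1, vec_0, vec_1, vec_2] at h0
      refine c6.ne' ?_
      linear_combination (10) * h0 - (10) * ((-5/4)*x*u^4*s5 + (-75/8)*x*u^3 + (5/2)*x*u^2*s5 + (5/8)*x*u + (15/4)*x*s5 + (-5/2)*u^4*s5 + (-10)*u^3 + (5/2)*s5) * hi - (10) * ((-4)*x*u^3*i5 + (2/5)*x*u^3 + (-4)*x*u*i5 + (2/5)*x*u + (-4)*u^3*i5 + (4/5)*u^3 + (-4)*u*i5 + (4/5)*u) * hs5
    · simp only [nf, mf, Z1, vec_0, vec_1, vec_2] at h0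
      refine c4.ne' ?_
      linear_combination (-10) * h0 - (-10) * ((-15/8)*x*u^4*s5 + 10*x*u^3*s5^2 + 5*x*u^3 + 15*x*u^2*s5 + 10*x*u*s5^2 + (-5)*x*u + (-25/8)*x*s5 + (-15/4)*u^4*s5 + 10*u^3*s5^2 + 5*u^3 + (25/2)*u^2*s5 + 10*u*s5^2 + (-5)*u + (-15/4)*s5) * hi - (-10) * ((-3)*x*u^3*i5 + (11/5)*x*u^3 + (-3)*x*u*i5 + (11/5)*x*u + (-4)*u^3*i5 + (12/5)*u^3 + (-4)*u*i5 + (12/5)*u) * hs5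
    · simp only [nf, mf, Z1, vec_0, vec_1, vec_2] at h1
      refine c5.ne' ?_
      linear_combination (-20) * h1 - (-20) * ((5/2)*x*u^4*s5^2 + (-15/8)*x*u^4 + (75/4)*x*u^3*s5 + (-5)*x*u^2*s5^2 + 10*x*u^2 + (-5/4)*x*u*s5 + (-15/2)*x*s5^2 + (15/8)*x + 5*u^4*s5^2 + (-15/4)*u^4 + 20*u^3*s5 + (15/2)*u^2 + (-5)*s5^2 + (5/4)) * hi - (-20) * ((-1/2)*x*u^4*i5 + (1/2)*x*u^4 + 2*x*u^2*i5 + (-6/5)*x*u^2 + (5/2)*x*i5 + (-17/10)*x + (-1)*u^4*i5 + u^4 + 2*u^2*i5 + (-2/5)*u^2 + 3*i5 + (-7/5)) * hs5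
  · have e2 : ((1 + x ^ 2) - (1 + x / 2 - 5 / 2 * i5 * x) ^ 2) * (1 + u ^ 2) + 2 * (1 + x / 2) * (i5 * (1 + x / 2 - 5 / 2 * i5 * x) * (1 + u ^ 2) - Z1 x u 2) =
      (1/5) * ((x * ((x * ((u * ((u * ((i5 * 15) - 5)) + ((i5 * (s5 * (-20))) + (s5 * 4)))) + ((i5 * 25) - 11))) + ((u * ((u * ((i5 * 35) - 15)) + ((i5 * (s5 * (-40))) + (s5 * 16)))) + ((i5 * 65) - 29)))) + ((u * ((u * ((i5 * 10) - 10)) + (s5 * 16))) + ((i5 * 30) - 14))) := by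
      simp only [Z1, vec_0, vec_1, vec_2]
      linear_combination ((-35/4)*x^2*u^2 + (-35/4)*x^2 + (-5)*x*u^2 + (-5)*x) * hi
    rw [e2]
    exact mul_pos (by norm_num) c1

lemma off_z1b {x u : ℝ} (hx : (0 / 1000 : ℝ) ≤ x) (hx' : x < (380 / 1000 : ℝ))
    (hu : (41 / 1000 : ℝ) ≤ u) (hu' : u < (330 / 1000 : ℝ)) :
    Z1 x u ∉ SigR u ∧ 0 < ((1 + x ^ 2) - (1 + x / 2 - 5 / 2 * i5 * x) ^ 2) * (1 + u ^ 2) + 2 * (1 + x / 2) * (i5 * (1 + x / 2 - 5 / 2 * i5 * x) * (1 + u ^ 2) - Z1 x u 2) := by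
  have hi := i5_sq
  have hs5 := s5_sq_i5
  obtain ⟨c1, c2, c3, c4, c5, c6, c7⟩ := wc_z1b x u i5 s5 hx hx' hu hu' (by have := i5_gt; linarith)
    (by have := i5_lt; linarith) (by have := s5_gt; linarith) (by have := s5_lt; linarith)
  refine ⟨fun hm => ?_, ?_⟩
  · rcases offR hm with ⟨h0, h1⟩ | ⟨h0, h1⟩ | ⟨h0, h1⟩ | ⟨h0, h1⟩ | ⟨h0, h1⟩ | ⟨h0, h1⟩
    · simp only [Z1, vec_0, vec_1, vec_2] at h0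
      refine c2.ne' ?_
      linear_combination (20) * h0
    · simp only [nf, mf, Z1, vec_0, vec_1, vec_2] at h0
      refine c3.ne' ?_
      linear_combination (10) * h0
    · simp only [nf, mf, Z1, vec_0, vec_1, vec_2] at h0
      refine c7.ne' ?_
      linear_combination (-5) * h0 - (-5) * ((-5/4)*x*u^4*s5 + (-35/8)*x*u^3 + (5/2)*x*u^2*s5 + (45/8)*x*u + (15/4)*x*s5 + (-5/2)*u^4*s5 + (-5)*u^3 + 5*u + (5/2)*s5) * hi - (-5) * (4*x*u^3*i5 + (-2/5)*x*u^3 + 4*x*u*i5 + (-2/5)*x*u + 4*u^3*i5 + (-4/5)*u^3 + 4*u*i5 + (-4/5)*u) * hs5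
    · simp only [nf, mf, Z1, vec_0, vec_1, vec_2] at h0
      refine c6.ne' ?_
      linear_combination (10) * h0 - (10) * ((-5/4)*x*u^4*s5 + (-75/8)*x*u^3 + (5/2)*x*u^2*s5 + (5/8)*x*u + (15/4)*x*s5 + (-5/2)*u^4*s5 + (-10)*u^3 + (5/2)*s5) * hi - (10) * ((-4)*x*u^3*i5 + (2/5)*x*u^3 + (-4)*x*u*i5 + (2/5)*x*u + (-4)*u^3*i5 + (4/5)*u^3 + (-4)*u*i5 + (4/5)*u) * hs5
    · simp only [nf, mf, Z1, vec_0, vec_1, vec_2] at h0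
      refine c4.ne' ?_
      linear_combination (-10) * h0 - (-10) * ((-15/8)*x*u^4*s5 + 10*x*u^3*s5^2 + 5*x*u^3 + 15*x*u^2*s5 + 10*x*u*s5^2 + (-5)*x*u + (-25/8)*x*s5 + (-15/4)*u^4*s5 + 10*u^3*s5^2 + 5*u^3 + (25/2)*u^2*s5 + 10*u*s5^2 + (-5)*u + (-15/4)*s5) * hi - (-10) * ((-3)*x*u^3*i5 + (11/5)*x*u^3 + (-3)*x*u*i5 + (11/5)*x*u + (-4)*u^3*i5 + (12/5)*u^3 + (-4)*u*i5 + (12/5)*u) * hs5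
    · simp only [nf, mf, Z1, vec_0, vec_1, vec_2] at h1
      refine c5.ne' ?_
      linear_combination (-20) * h1 - (-20) * ((5/2)*x*u^4*s5^2 + (-15/8)*x*u^4 + (75/4)*x*u^3*s5 + (-5)*x*u^2*s5^2 + 10*x*u^2 + (-5/4)*x*u*s5 + (-15/2)*x*s5^2 + (15/8)*x + 5*u^4*s5^2 + (-15/4)*u^4 + 20*u^3*s5 + (15/2)*u^2 + (-5)*s5^2 + (5/4)) * hi - (-20) * ((-1/2)*x*u^4*i5 + (1/2)*x*u^4 + 2*x*u^2*i5 + (-6/5)*x*u^2 + (5/2)*x*i5 + (-17/10)*x + (-1)*u^4*i5 + u^4 + 2*u^2*i5 + (-2/5)*u^2 + 3*i5 + (-7/5)) * hs5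
  · have e2 : ((1 + x ^ 2) - (1 + x / 2 - 5 / 2 * i5 * x) ^ 2) * (1 + u ^ 2) + 2 * (1 + x / 2) * (i5 * (1 + x / 2 - 5 / 2 * i5 * x) * (1 + u ^ 2) - Z1 x u 2) =
      (1/5) * ((x * ((x * ((u * ((u * ((i5 * 15) - 5)) + ((i5 * (s5 * (-20))) + (s5 * 4)))) + ((i5 * 25) - 11))) + ((u * ((u * ((i5 * 35) - 15)) + ((i5 * (s5 * (-40))) + (s5 * 16)))) + ((i5 * 65) - 29)))) + ((u * ((u * ((i5 * 10) - 10)) + (s5 * 16))) + ((i5 * 30) - 14))) := by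
      simp only [Z1, vec_0, vec_1, vec_2]
      linear_combination ((-35/4)*x^2*u^2 + (-35/4)*x^2 + (-5)*x*u^2 + (-5)*x) * hi
    rw [e2]
    exact mul_pos (by norm_num) c1

lemma off_z5a {x u : ℝ} (hx : (380 / 1000 : ℝ) ≤ x) (hx' : x < (500 / 1000 : ℝ))
    (hu : (280 / 1000 : ℝ) ≤ u) (hu' : u < (330 / 1000 : ℝ)) :
    Z5 x u ∉ SigR u ∧ 0 < Y5 x u 2 - Z5 x u 2 ∧
    0 < Y5 x u 0 * ((-(1 + 5 * i5) / 4) * x) + Y5 x u 1 * ((-(s5 * (5 * i5 - 1) / 2)) * x) + Y5 x u 2 - 7152 / 10000 * (1 + x ^ 2) * (1 + u ^ 2) ^ 2 := by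
  have hi := i5_sq
  have hs5 := s5_sq_i5
  obtain ⟨c1, c2, c3, c4, c5, c6, c7, c8⟩ := wc_z5a x u i5 s5 hx hx' hu hu' (by have := i5_gt; linarith)
    (by have := i5_lt; linarith) (by have := s5_gt; linarith) (by have := s5_lt; linarith)
  refine ⟨fun hm => ?_, ?_, ?_⟩
  · rcases offR hm with ⟨h0, h1⟩ | ⟨h0, h1⟩ | ⟨h0, h1⟩ | ⟨h0, h1⟩ | ⟨h0, h1⟩ | ⟨h0, h1⟩
    · simp only [Z5, vec_0, vec_1, vec_2] at h0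
      refine c3.ne' ?_
      linear_combination (-10) * h0
    · simp only [nf, mf, Z5, vec_0, vec_1, vec_2] at h0
      refine c4.ne' ?_
      linear_combination (-10) * h0
    · simp only [nf, mf, Z5, vec_0, vec_1, vec_2] at h1
      refine c5.ne' ?_
      linear_combination (-20) * h1 - (-20) * ((-15/16)*x*u^6 + (15/4)*x*u^5*s5 + (165/16)*x*u^4 + (-25/2)*x*u^3*s5 + (55/16)*x*u^2 + (15/4)*x*u*s5 + (35/16)*x + (5/4)*u^6 + (25/4)*u^4 + 10*u^3*s5 + (15/4)*u^2 + 10*u*s5 + (-5/4)) * hi - (-20) * ((1/2)*x*u^6*i5 + (-3/2)*x*u^6 + (-11/2)*x*u^4*i5 + (53/10)*x*u^4 + (23/2)*x*u^2*i5 + (-5/2)*x*u^2 + (3/2)*x*i5 + (3/10)*x + u^6*i5 + (-1)*u^6 + 7*u^4*i5 + (-27/5)*u^4 + 3*u^2*i5 + (-3)*u^2 + (-3)*i5 + (7/5)) * hs5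
    · simp only [nf, mf, Z5, vec_0, vec_1, vec_2] at h0
      refine c8.ne' ?_
      linear_combination (-5) * h0 - (-5) * ((5/8)*x*u^6*s5 + (65/8)*x*u^5 + (-55/8)*x*u^4*s5 + (-75/4)*x*u^3 + (115/8)*x*u^2*s5 + (25/8)*x*u + (15/8)*x*s5 + (5/4)*u^6*s5 + (35/4)*u^4*s5 + 5*u^3 + (15/4)*u^2*s5 + 5*u + (-15/4)*s5) * hi - (-5) * (3*x*u^5*i5 + (-5)*x*u^5 + (-10)*x*u^3*i5 + (14/5)*x*u^3 + 3*x*u*i5 + (-9/5)*x*u + 8*u^3*i5 + (-24/5)*u^3 + 8*u*i5 + (-24/5)*u) * hs5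
    · simp only [nf, mf, Z5, vec_0, vec_1, vec_2] at h0
      refine c6.ne' ?_
      linear_combination (10) * h0 - (10) * ((15/8)*x*u^6*s5 + (-15/2)*x*u^5*s5^2 + (5/2)*x*u^5 + (-165/8)*x*u^4*s5 + 25*x*u^3*s5^2 + 5*x*u^3 + (-55/8)*x*u^2*s5 + (-15/2)*x*u*s5^2 + (5/2)*x*u + (-35/8)*x*s5 + (-5/2)*u^6*s5 + (-25/2)*u^4*s5 + (-20)*u^3*s5^2 + 10*u^3 + (-15/2)*u^2*s5 + (-20)*u*s5^2 + 10*u + (5/2)*s5) * hi - (10) * (14*x*u^5*i5 + (-4)*x*u^5 + (-12)*x*u^3*i5 + (32/5)*x*u^3 + 6*x*u*i5 + (-12/5)*x*u + 16*u^3*i5 + (-32/5)*u^3 + 16*u*i5 + (-32/5)*u) * hs5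
    · simp only [nf, mf, Z5, vec_0, vec_1, vec_2] at h0
      refine c7.ne' ?_
      linear_combination (10) * h0 - (10) * ((-25/8)*x*u^6*s5 + (15/2)*x*u^5*s5^2 + (-15)*x*u^5 + (275/8)*x*u^4*s5 + (-25)*x*u^3*s5^2 + 20*x*u^3 + (-175/8)*x*u^2*s5 + (15/2)*x*u*s5^2 + (-5)*x*u + (5/8)*x*s5 + (-5)*u^4*s5 + 20*u^3*s5^2 + (-10)*u^3 + 20*u*s5^2 + (-10)*u + 5*s5) * hi - (10) * ((-14)*x*u^5*i5 + 4*x*u^5 + 12*x*u^3*i5 + (-32/5)*x*u^3 + (-6)*x*u*i5 + (12/5)*x*u + (-16)*u^3*i5 + (32/5)*u^3 + (-16)*u*i5 + (32/5)*u) * hs5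
  · have e2 : Y5 x u 2 - Z5 x u 2 =
      (1/5) * ((x * ((u * ((u * ((u * (u * ((i5 * 5) - 5))) + ((i5 * 20) - 16))) + ((i5 * (s5 * 40)) + (s5 * (-8))))) + ((i5 * (-5)) + 1))) + ((u * (u * ((u * (u * ((i5 * 10) - 10))) + ((i5 * 20) - 12)))) + ((i5 * 10) - 2))) := by
      simp only [Z5, Y5, vec_0, vec_1, vec_2]
      linear_combination 0
    rw [e2]
    exact mul_pos (by norm_num) c2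
  · have e2 : Y5 x u 0 * ((-(1 + 5 * i5) / 4) * x) + Y5 x u 1 * ((-(s5 * (5 * i5 - 1) / 2)) * x) + Y5 x u 2 - 7152 / 10000 * (1 + x ^ 2) * (1 + u ^ 2) ^ 2 =
      (1/1250) * ((x * ((x * ((u * ((u * ((u * ((u * ((i5 * (-1250)) - 1519)) + ((i5 * (s5 * (-7500))) + (s5 * 2500)))) + ((i5 * 2500) - 3038))) + ((i5 * (s5 * 7500)) + (s5 * (-2500))))) + ((i5 * (-1250)) - 1519))) + ((u * ((u * (u * ((u * ((i5 * 1250) - 1250)) + (i5 * (s5 * 10000))))) + (i5 * (s5 * 10000)))) + ((i5 * (-1250)) + 1250)))) + ((u * (u * ((u * (u * ((i5 * 1250) - 894))) + ((i5 * 2500) - 1788)))) + ((i5 * 1250) - 894))) := by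
      simp only [Y5, vec_0, vec_1, vec_2]
      linear_combination ((-5/2)*x^2*u^4*s5^2 + 5*x^2*u^3*s5 + (-5)*x^2*u^2*s5^2 + (-5)*x^2*u^2 + (-5)*x^2*u*s5 + (-5/2)*x^2*s5^2 + (-5)*x*u^4*s5^2 + (5/2)*x*u^3*s5 + (5/2)*x*u*s5 + 5*x*s5^2) * hi + ((1/2)*x^2*u^4*i5 + (-1/2)*x^2*u^4 + x^2*u^2*i5 + (-1)*x^2*u^2 + (1/2)*x^2*i5 + (-1/2)*x^2 + x*u^4*i5 + (-1)*x*u^4 + (-1)*x*i5 + x) * hs5
    rw [e2]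
    exact mul_pos (by norm_num) c1

lemma off_z2a {x u : ℝ} (hx : (500 / 1000 : ℝ) ≤ x) (hx' : x < (770 / 1000 : ℝ))
    (hu : (60 / 1000 : ℝ) ≤ u) (hu' : u < (330 / 1000 : ℝ)) :
    Z2 x u ∉ SigR u ∧ 0 < ((1 + x ^ 2) - (1 + x / 2 - 5 / 2 * i5 * x) ^ 2) * (1 + u ^ 2) + 2 * (1 + x / 2) * (i5 * (1 + x / 2 - 5 / 2 * i5 * x) * (1 + u ^ 2) - Z2 x u 2) := by
  have hi := i5_sq
  have hs5 := s5_sq_i5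
  obtain ⟨c1, c2, c3, c4, c5, c6, c7⟩ := wc_z2a x u i5 s5 hx hx' hu hu' (by have := i5_gt; linarith)
    (by have := i5_lt; linarith) (by have := s5_gt; linarith) (by have := s5_lt; linarith)
  refine ⟨fun hm => ?_, ?_⟩
  · rcases offR hm with ⟨h0, h1⟩ | ⟨h0, h1⟩ | ⟨h0, h1⟩ | ⟨h0, h1⟩ | ⟨h0, h1⟩ | ⟨h0, h1⟩
    · simp only [Z2, vec_0, vec_1, vec_2] at h1
      refine c2.ne' ?_
      linear_combination (5) * h1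
    · simp only [nf, mf, Z2, vec_0, vec_1, vec_2] at h0
      refine c3.ne' ?_
      linear_combination (10) * h0
    · simp only [nf, mf, Z2, vec_0, vec_1, vec_2] at h1
      refine c6.ne' ?_
      linear_combination (-5) * h1 - (-5) * ((-5/16)*x*u^4 + 5*x*u^2 + (-10)*x*u*s5 + (5/16)*x + (-5/8)*u^4 + (-5/4)*u^2 + (-10)*u*s5 + (-5/8)) * hi - (-5) * ((-1)*x*u^4*i5 + (-6)*x*u^2*i5 + (22/5)*x*u^2 + 3*x*i5 + (-2/5)*x + (-2)*u^4*i5 + (-8)*u^2*i5 + (4/5)*u^2 + 2*i5 + (-4/5)) * hs5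
    · simp only [nf, mf, Z2, vec_0, vec_1, vec_2] at h1
      refine c7.ne' ?_
      linear_combination (-20) * h1 - (-20) * ((15/16)*x*u^4 + (25/2)*x*u^2 + (-10)*x*u*s5 + (-55/16)*x + (15/8)*u^4 + (35/4)*u^2 + (-10)*u*s5 + (-25/8)) * hi - (-20) * (x*u^4*i5 + 6*x*u^2*i5 + (-22/5)*x*u^2 + (-3)*x*i5 + (2/5)*x + 2*u^4*i5 + 8*u^2*i5 + (-4/5)*u^2 + (-2)*i5 + (4/5)) * hs5
    · simp only [nf, mf, Z2, vec_0, vec_1, vec_2] at h0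
      refine c4.ne' ?_
      linear_combination (-10) * h0 - (-10) * ((5/8)*x*u^4*s5 + (-10)*x*u^2*s5 + 20*x*u*s5^2 + (-5/8)*x*s5 + (5/4)*u^4*s5 + (5/2)*u^2*s5 + 20*u*s5^2 + (5/4)*s5) * hi - (-10) * (5*x*u^3*i5 + (-1)*x*u^3 + (-11)*x*u*i5 + (27/5)*x*u + (-8)*u*i5 + (24/5)*u) * hs5
    · simp only [nf, mf, Z2, vec_0, vec_1, vec_2] at h0
      refine c5.ne' ?_
      linear_combination (-10) * h0 - (-10) * ((15/8)*x*u^4*s5 + (-25/4)*x*u^3 + 25*x*u^2*s5 + (-20)*x*u*s5^2 + (55/4)*x*u + (-55/8)*x*s5 + (15/4)*u^4*s5 + (35/2)*u^2*s5 + (-20)*u*s5^2 + 10*u + (-25/4)*s5) * hi - (-10) * ((-5)*x*u^3*i5 + x*u^3 + 11*x*u*i5 + (-27/5)*x*u + 8*u*i5 + (-24/5)*u) * hs5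
  · have e2 : ((1 + x ^ 2) - (1 + x / 2 - 5 / 2 * i5 * x) ^ 2) * (1 + u ^ 2) + 2 * (1 + x / 2) * (i5 * (1 + x / 2 - 5 / 2 * i5 * x) * (1 + u ^ 2) - Z2 x u 2) =
      (2/5) * ((x * ((x * ((u * (u * ((i5 * 15) - 5))) + ((i5 * 5) - 3))) + ((u * (u * ((i5 * 35) - 15))) + ((i5 * 15) - 7)))) + ((u * (u * ((i5 * 10) - 10))) + ((i5 * 10) - 2))) := by
      simp only [Z2, vec_0, vec_1, vec_2]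
      linear_combination ((-35/4)*x^2*u^2 + (-35/4)*x^2 + (-5)*x*u^2 + (-5)*x) * hi
    rw [e2]
    exact mul_pos (by norm_num) c1

lemma off_z2b {x u : ℝ} (hx : (540 / 1000 : ℝ) ≤ x) (hx' : x < (770 / 1000 : ℝ))
    (hu : (0 / 1000 : ℝ) ≤ u) (hu' : u < (330 / 1000 : ℝ)) :
    Z2 x u ∉ SigR u ∧ 0 < ((1 + x ^ 2) - (1 + x / 2 - 5 / 2 * i5 * x) ^ 2) * (1 + u ^ 2) + 2 * (1 + x / 2) * (i5 * (1 + x / 2 - 5 / 2 * i5 * x) * (1 + u ^ 2) - Z2 x u 2) := by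
  have hi := i5_sq
  have hs5 := s5_sq_i5
  obtain ⟨c1, c2, c3, c4, c5, c6, c7⟩ := wc_z2b x u i5 s5 hx hx' hu hu' (by have := i5_gt; linarith)
    (by have := i5_lt; linarith) (by have := s5_gt; linarith) (by have := s5_lt; linarith)
  refine ⟨fun hm => ?_, ?_⟩
  · rcases offR hm with ⟨h0, h1⟩ | ⟨h0, h1⟩ | ⟨h0, h1⟩ | ⟨h0, h1⟩ | ⟨h0, h1⟩ | ⟨h0, h1⟩
    · simp only [Z2, vec_0, vec_1, vec_2] at h1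
      refine c2.ne' ?_
      linear_combination (5) * h1
    · simp only [nf, mf, Z2, vec_0, vec_1, vec_2] at h0
      refine c3.ne' ?_
      linear_combination (10) * h0
    · simp only [nf, mf, Z2, vec_0, vec_1, vec_2] at h1
      refine c6.ne' ?_
      linear_combination (-5) * h1 - (-5) * ((-5/16)*x*u^4 + 5*x*u^2 + (-10)*x*u*s5 + (5/16)*x + (-5/8)*u^4 + (-5/4)*u^2 + (-10)*u*s5 + (-5/8)) * hi - (-5) * ((-1)*x*u^4*i5 + (-6)*x*u^2*i5 + (22/5)*x*u^2 + 3*x*i5 + (-2/5)*x + (-2)*u^4*i5 + (-8)*u^2*i5 + (4/5)*u^2 + 2*i5 + (-4/5)) * hs5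
    · simp only [nf, mf, Z2, vec_0, vec_1, vec_2] at h1
      refine c7.ne' ?_
      linear_combination (-20) * h1 - (-20) * ((15/16)*x*u^4 + (25/2)*x*u^2 + (-10)*x*u*s5 + (-55/16)*x + (15/8)*u^4 + (35/4)*u^2 + (-10)*u*s5 + (-25/8)) * hi - (-20) * (x*u^4*i5 + 6*x*u^2*i5 + (-22/5)*x*u^2 + (-3)*x*i5 + (2/5)*x + 2*u^4*i5 + 8*u^2*i5 + (-4/5)*u^2 + (-2)*i5 + (4/5)) * hs5
    · simp only [nf, mf, Z2, vec_0, vec_1, vec_2] at h0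
      refine c4.ne' ?_
      linear_combination (-10) * h0 - (-10) * ((5/8)*x*u^4*s5 + (-10)*x*u^2*s5 + 20*x*u*s5^2 + (-5/8)*x*s5 + (5/4)*u^4*s5 + (5/2)*u^2*s5 + 20*u*s5^2 + (5/4)*s5) * hi - (-10) * (5*x*u^3*i5 + (-1)*x*u^3 + (-11)*x*u*i5 + (27/5)*x*u + (-8)*u*i5 + (24/5)*u) * hs5
    · simp only [nf, mf, Z2, vec_0, vec_1, vec_2] at h0
      refine c5.ne' ?_
      linear_combination (-10) * h0 - (-10) * ((15/8)*x*u^4*s5 + (-25/4)*x*u^3 + 25*x*u^2*s5 + (-20)*x*u*s5^2 + (55/4)*x*u + (-55/8)*x*s5 + (15/4)*u^4*s5 + (35/2)*u^2*s5 + (-20)*u*s5^2 + 10*u + (-25/4)*s5) * hi - (-10) * ((-5)*x*u^3*i5 + x*u^3 + 11*x*u*i5 + (-27/5)*x*u + 8*u*i5 + (-24/5)*u) * hs5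
  · have e2 : ((1 + x ^ 2) - (1 + x / 2 - 5 / 2 * i5 * x) ^ 2) * (1 + u ^ 2) + 2 * (1 + x / 2) * (i5 * (1 + x / 2 - 5 / 2 * i5 * x) * (1 + u ^ 2) - Z2 x u 2) =
      (2/5) * ((x * ((x * ((u * (u * ((i5 * 15) - 5))) + ((i5 * 5) - 3))) + ((u * (u * ((i5 * 35) - 15))) + ((i5 * 15) - 7)))) + ((u * (u * ((i5 * 10) - 10))) + ((i5 * 10) - 2))) := by
      simp only [Z2, vec_0, vec_1, vec_2]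
      linear_combination ((-35/4)*x^2*u^2 + (-35/4)*x^2 + (-5)*x*u^2 + (-5)*x) * hi
    rw [e2]
    exact mul_pos (by norm_num) c1

lemma off_z4a {x u : ℝ} (hx : (380 / 1000 : ℝ) ≤ x) (hx' : x < (580 / 1000 : ℝ))
    (hu : (0 / 1000 : ℝ) ≤ u) (hu' : u < (60 / 1000 : ℝ)) :
    Z4 x u ∉ SigR u ∧ 0 < Y4 x u 2 - Z4 x u 2 ∧
    0 < Y4 x u 0 * (((5 * i5 - 1) / 4) * x) + Y4 x u 1 * (s5 * x) + Y4 x u 2 - 7152 / 10000 * (1 + x ^ 2) * (1 + u ^ 2) ^ 2 := by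
  have hi := i5_sq
  have hs5 := s5_sq_i5
  obtain ⟨c1, c2, c3, c4, c5, c6, c7, c8⟩ := wc_z4a x u i5 s5 hx hx' hu hu' (by have := i5_gt; linarith)
    (by have := i5_lt; linarith) (by have := s5_gt; linarith) (by have := s5_lt; linarith)
  refine ⟨fun hm => ?_, ?_, ?_⟩
  · rcases offR hm with ⟨h0, h1⟩ | ⟨h0, h1⟩ | ⟨h0, h1⟩ | ⟨h0, h1⟩ | ⟨h0, h1⟩ | ⟨h0, h1⟩
    · simp only [Z4, vec_0, vec_1, vec_2] at h1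
      refine c3.ne' ?_
      linear_combination (10) * h1
    · simp only [nf, mf, Z4, vec_0, vec_1, vec_2] at h0
      refine c4.ne' ?_
      linear_combination (10) * h0
    · simp only [nf, mf, Z4, vec_0, vec_1, vec_2] at h0
      refine c5.ne' ?_
      linear_combination (10) * h0 - (10) * ((15/8)*x*u^6*s5 + (-35/8)*x*u^5 + (115/8)*x*u^4*s5 + (-35/4)*x*u^3 + (-215/8)*x*u^2*s5 + (45/8)*x*u + (5/8)*x*s5 + (15/4)*u^6*s5 + (-5/2)*u^5 + (-15/4)*u^4*s5 + (-5)*u^3 + (-35/4)*u^2*s5 + (-5/2)*u + (-5/4)*s5) * hi - (10) * (x*u^5*i5 + (-7/5)*x*u^5 + (-22)*x*u^3*i5 + (42/5)*x*u^3 + 9*x*u*i5 + (-3)*x*u + (-8)*u^5*i5 + (16/5)*u^5 + (-8)*u^3*i5 + (24/5)*u^3 + (8/5)*u) * hs5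
    · simp only [nf, mf, Z4, vec_0, vec_1, vec_2] at h0
      refine c8.ne' ?_
      linear_combination (5) * h0 - (5) * ((15/8)*x*u^6*s5 + (-45/8)*x*u^5 + (115/8)*x*u^4*s5 + (75/4)*x*u^3 + (-215/8)*x*u^2*s5 + (-45/8)*x*u + (5/8)*x*s5 + (15/4)*u^6*s5 + (15/2)*u^5 + (-15/4)*u^4*s5 + 5*u^3 + (-35/4)*u^2*s5 + (-5/2)*u + (-5/4)*s5) * hi - (5) * ((-1)*x*u^5*i5 + (7/5)*x*u^5 + 22*x*u^3*i5 + (-42/5)*x*u^3 + (-9)*x*u*i5 + 3*x*u + 8*u^5*i5 + (-16/5)*u^5 + 8*u^3*i5 + (-24/5)*u^3 + (-8/5)*u) * hs5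
    · simp only [nf, mf, Z4, vec_0, vec_1, vec_2] at h0
      refine c6.ne' ?_
      linear_combination (-10) * h0 - (-10) * ((-15/8)*x*u^6*s5 + (5/2)*x*u^5*s5^2 + (5/2)*x*u^5 + (45/8)*x*u^4*s5 + (-55)*x*u^3*s5^2 + 15*x*u^3 + (215/8)*x*u^2*s5 + (45/2)*x*u*s5^2 + (-15/2)*x*u + (-5/8)*x*s5 + (-15/4)*u^6*s5 + (-20)*u^5*s5^2 + 5*u^5 + (-25/4)*u^4*s5 + (-20)*u^3*s5^2 + 10*u^3 + (-5/4)*u^2*s5 + 5*u + (5/4)*s5) * hi - (-10) * ((-4)*x*u^5*i5 + (6/5)*x*u^5 + 32*x*u^3*i5 + (-76/5)*x*u^3 + (-12)*x*u*i5 + 6*x*u + 12*u^5*i5 + (-28/5)*u^5 + 16*u^3*i5 + (-32/5)*u^3 + 4*u*i5 + (-4/5)*u) * hs5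
    · simp only [nf, mf, Z4, vec_0, vec_1, vec_2] at h0
      refine c7.ne' ?_
      linear_combination (-10) * h0 - (-10) * ((-15/8)*x*u^6*s5 + (-5/2)*x*u^5*s5^2 + (15/2)*x*u^5 + (-275/8)*x*u^4*s5 + 55*x*u^3*s5^2 + (-25)*x*u^3 + (215/8)*x*u^2*s5 + (-45/2)*x*u*s5^2 + (15/2)*x*u + (-5/8)*x*s5 + (-15/4)*u^6*s5 + 20*u^5*s5^2 + (-10)*u^5 + (55/4)*u^4*s5 + 20*u^3*s5^2 + (-10)*u^3 + (75/4)*u^2*s5 + (5/4)*s5) * hi - (-10) * (4*x*u^5*i5 + (-6/5)*x*u^5 + (-32)*x*u^3*i5 + (76/5)*x*u^3 + 12*x*u*i5 + (-6)*x*u + (-12)*u^5*i5 + (28/5)*u^5 + (-16)*u^3*i5 + (32/5)*u^3 + (-4)*u*i5 + (4/5)*u) * hs5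
  · have e2 : Y4 x u 2 - Z4 x u 2 =
      (1/5) * ((x * ((u * ((u * ((u * ((u * ((i5 * 15) - 5)) + ((i5 * (s5 * (-20))) + (s5 * 4)))) + ((i5 * (-20)) + 4))) + ((i5 * (s5 * (-20))) + (s5 * 4)))) + ((i5 * 5) + 1))) + ((u * ((u * ((u * ((u * ((i5 * 5) - 5)) + (s5 * 8))) + ((i5 * 20) - 12))) + (s5 * 8))) + ((i5 * 15) - 7))) := by
      simp only [Z4, Y4, vec_0, vec_1, vec_2]
      linear_combination 0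
    rw [e2]
    exact mul_pos (by norm_num) c2
  · have e2 : Y4 x u 0 * (((5 * i5 - 1) / 4) * x) + Y4 x u 1 * (s5 * x) + Y4 x u 2 - 7152 / 10000 * (1 + x ^ 2) * (1 + u ^ 2) ^ 2 =
      (1/2500) * ((x * ((x * ((u * ((u * ((u * ((u * ((i5 * 625) - 2413)) + ((i5 * (s5 * (-5000))) + (s5 * 5000)))) + ((i5 * (-13750)) + 174))) + ((i5 * (s5 * 5000)) + (s5 * (-5000))))) + ((i5 * 625) - 2413))) + ((u * ((u * (u * ((u * ((i5 * (-3750)) - 1250)) + (i5 * (s5 * (-10000)))))) + (i5 * (s5 * (-10000))))) + ((i5 * 3750) + 1250)))) + ((u * (u * ((u * (u * ((i5 * 2500) - 1788))) + ((i5 * 5000) - 3576)))) + ((i5 * 2500) - 1788))) := by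
      simp only [Y4, vec_0, vec_1, vec_2]
      linear_combination ((-5/16)*x^2*u^4 + (35/8)*x^2*u^2 + (-5/16)*x^2 + (-5/8)*x*u^4 + 5*x*u^3*s5 + 5*x*u*s5 + (5/8)*x) * hi + ((-1)*x^2*u^4*i5 + (-2)*x^2*u^2*i5 + (-1)*x^2*i5 + (-2)*x*u^4*i5 + 2*x*i5) * hs5
    rw [e2]
    exact mul_pos (by norm_num) c1

lemma off_z2c {x u : ℝ} (hx : (0 / 1000 : ℝ) ≤ x) (hx' : x < (380 / 1000 : ℝ))
    (hu : (0 / 1000 : ℝ) ≤ u) (hu' : u < (20 / 1000 : ℝ)) :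
    Z2 x u ∉ SigR u ∧ 0 < ((1 + x ^ 2) - (1 + x / 2 - 5 / 2 * i5 * x) ^ 2) * (1 + u ^ 2) + 2 * (1 + x / 2) * (i5 * (1 + x / 2 - 5 / 2 * i5 * x) * (1 + u ^ 2) - Z2 x u 2) := by
  have hi := i5_sq
  have hs5 := s5_sq_i5
  obtain ⟨c1, c2, c3, c4, c5, c6, c7⟩ := wc_z2c x u i5 s5 hx hx' hu hu' (by have := i5_gt; linarith)
    (by have := i5_lt; linarith) (by have := s5_gt; linarith) (by have := s5_lt; linarith)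
  refine ⟨fun hm => ?_, ?_⟩
  · rcases offR hm with ⟨h0, h1⟩ | ⟨h0, h1⟩ | ⟨h0, h1⟩ | ⟨h0, h1⟩ | ⟨h0, h1⟩ | ⟨h0, h1⟩
    · simp only [Z2, vec_0, vec_1, vec_2] at h1
      refine c2.ne' ?_
      linear_combination (5) * h1
    · simp only [nf, mf, Z2, vec_0, vec_1, vec_2] at h0
      refine c3.ne' ?_
      linear_combination (10) * h0
    · simp only [nf, mf, Z2, vec_0, vec_1, vec_2] at h1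
      refine c6.ne' ?_
      linear_combination (5) * h1 - (5) * ((-5/16)*x*u^4 + 5*x*u^2 + (-10)*x*u*s5 + (5/16)*x + (-5/8)*u^4 + (-5/4)*u^2 + (-10)*u*s5 + (-5/8)) * hi - (5) * ((-1)*x*u^4*i5 + (-6)*x*u^2*i5 + (22/5)*x*u^2 + 3*x*i5 + (-2/5)*x + (-2)*u^4*i5 + (-8)*u^2*i5 + (4/5)*u^2 + 2*i5 + (-4/5)) * hs5
    · simp only [nf, mf, Z2, vec_0, vec_1, vec_2] at h0
      refine c7.ne' ?_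
      linear_combination (10) * h0 - (10) * ((-5/4)*x*u^4*s5 + (25/8)*x*u^3 + (-15/2)*x*u^2*s5 + (-95/8)*x*u + (15/4)*x*s5 + (-5/2)*u^4*s5 + (-10)*u^2*s5 + (-10)*u + (5/2)*s5) * hi - (10) * ((-2)*x*u^3 + (-8)*x*u*i5 + (14/5)*x*u + (-8)*u*i5 + (8/5)*u) * hs5
    · simp only [nf, mf, Z2, vec_0, vec_1, vec_2] at h0
      refine c4.ne' ?_
      linear_combination (-10) * h0 - (-10) * ((5/8)*x*u^4*s5 + (-10)*x*u^2*s5 + 20*x*u*s5^2 + (-5/8)*x*s5 + (5/4)*u^4*s5 + (5/2)*u^2*s5 + 20*u*s5^2 + (5/4)*s5) * hi - (-10) * (5*x*u^3*i5 + (-1)*x*u^3 + (-11)*x*u*i5 + (27/5)*x*u + (-8)*u*i5 + (24/5)*u) * hs5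
    · simp only [nf, mf, Z2, vec_0, vec_1, vec_2] at h0
      refine c5.ne' ?_
      linear_combination (-10) * h0 - (-10) * ((15/8)*x*u^4*s5 + (-25/4)*x*u^3 + 25*x*u^2*s5 + (-20)*x*u*s5^2 + (55/4)*x*u + (-55/8)*x*s5 + (15/4)*u^4*s5 + (35/2)*u^2*s5 + (-20)*u*s5^2 + 10*u + (-25/4)*s5) * hi - (-10) * ((-5)*x*u^3*i5 + x*u^3 + 11*x*u*i5 + (-27/5)*x*u + 8*u*i5 + (-24/5)*u) * hs5
  · have e2 : ((1 + x ^ 2) - (1 + x / 2 - 5 / 2 * i5 * x) ^ 2) * (1 + u ^ 2) + 2 * (1 + x / 2) * (i5 * (1 + x / 2 - 5 / 2 * i5 * x) * (1 + u ^ 2) - Z2 x u 2) =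
      (2/5) * ((x * ((x * ((u * (u * ((i5 * 15) - 5))) + ((i5 * 5) - 3))) + ((u * (u * ((i5 * 35) - 15))) + ((i5 * 15) - 7)))) + ((u * (u * ((i5 * 10) - 10))) + ((i5 * 10) - 2))) := by
      simp only [Z2, vec_0, vec_1, vec_2]
      linear_combination ((-35/4)*x^2*u^2 + (-35/4)*x^2 + (-5)*x*u^2 + (-5)*x) * hi
    rw [e2]
    exact mul_pos (by norm_num) c1

lemma off_z2d {x u : ℝ} (hx : (0 / 1000 : ℝ) ≤ x) (hx' : x < (380 / 1000 : ℝ))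
    (hu : (20 / 1000 : ℝ) ≤ u) (hu' : u < (41 / 1000 : ℝ)) :
    Z2 x u ∉ SigR u ∧ 0 < ((1 + x ^ 2) - (1 + x / 2 - 5 / 2 * i5 * x) ^ 2) * (1 + u ^ 2) + 2 * (1 + x / 2) * (i5 * (1 + x / 2 - 5 / 2 * i5 * x) * (1 + u ^ 2) - Z2 x u 2) := by
  have hi := i5_sq
  have hs5 := s5_sq_i5
  obtain ⟨c1, c2, c3, c4, c5, c6, c7⟩ := wc_z2d x u i5 s5 hx hx' hu hu' (by have := i5_gt; linarith)
    (by have := i5_lt; linarith) (by have := s5_gt; linarith) (by have := s5_lt; linarith)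
  refine ⟨fun hm => ?_, ?_⟩
  · rcases offR hm with ⟨h0, h1⟩ | ⟨h0, h1⟩ | ⟨h0, h1⟩ | ⟨h0, h1⟩ | ⟨h0, h1⟩ | ⟨h0, h1⟩
    · simp only [Z2, vec_0, vec_1, vec_2] at h1
      refine c2.ne' ?_
      linear_combination (5) * h1
    · simp only [nf, mf, Z2, vec_0, vec_1, vec_2] at h0
      refine c3.ne' ?_
      linear_combination (10) * h0
    · simp only [nf, mf, Z2, vec_0, vec_1, vec_2] at h0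
      refine c6.ne' ?_
      linear_combination (5/2) * h0 - (5/2) * ((-5/4)*x*u^4*s5 + (25/8)*x*u^3 + (-15/2)*x*u^2*s5 + (-15/8)*x*u + (15/4)*x*s5 + (-5/2)*u^4*s5 + (-10)*u^2*s5 + (5/2)*s5) * hi - (5/2) * (2*x*u^3 + 8*x*u*i5 + (-14/5)*x*u + 8*u*i5 + (-8/5)*u) * hs5
    · simp only [nf, mf, Z2, vec_0, vec_1, vec_2] at h1
      refine c7.ne' ?_
      linear_combination (-20) * h1 - (-20) * ((15/16)*x*u^4 + (25/2)*x*u^2 + (-10)*x*u*s5 + (-55/16)*x + (15/8)*u^4 + (35/4)*u^2 + (-10)*u*s5 + (-25/8)) * hi - (-20) * (x*u^4*i5 + 6*x*u^2*i5 + (-22/5)*x*u^2 + (-3)*x*i5 + (2/5)*x + 2*u^4*i5 + 8*u^2*i5 + (-4/5)*u^2 + (-2)*i5 + (4/5)) * hs5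
    · simp only [nf, mf, Z2, vec_0, vec_1, vec_2] at h0
      refine c4.ne' ?_
      linear_combination (-10) * h0 - (-10) * ((5/8)*x*u^4*s5 + (-10)*x*u^2*s5 + 20*x*u*s5^2 + (-5/8)*x*s5 + (5/4)*u^4*s5 + (5/2)*u^2*s5 + 20*u*s5^2 + (5/4)*s5) * hi - (-10) * (5*x*u^3*i5 + (-1)*x*u^3 + (-11)*x*u*i5 + (27/5)*x*u + (-8)*u*i5 + (24/5)*u) * hs5
    · simp only [nf, mf, Z2, vec_0, vec_1, vec_2] at h0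
      refine c5.ne' ?_
      linear_combination (-10) * h0 - (-10) * ((15/8)*x*u^4*s5 + (-25/4)*x*u^3 + 25*x*u^2*s5 + (-20)*x*u*s5^2 + (55/4)*x*u + (-55/8)*x*s5 + (15/4)*u^4*s5 + (35/2)*u^2*s5 + (-20)*u*s5^2 + 10*u + (-25/4)*s5) * hi - (-10) * ((-5)*x*u^3*i5 + x*u^3 + 11*x*u*i5 + (-27/5)*x*u + 8*u*i5 + (-24/5)*u) * hs5
  · have e2 : ((1 + x ^ 2) - (1 + x / 2 - 5 / 2 * i5 * x) ^ 2) * (1 + u ^ 2) + 2 * (1 + x / 2) * (i5 * (1 + x / 2 - 5 / 2 * i5 * x) * (1 + u ^ 2) - Z2 x u 2) =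
      (2/5) * ((x * ((x * ((u * (u * ((i5 * 15) - 5))) + ((i5 * 5) - 3))) + ((u * (u * ((i5 * 35) - 15))) + ((i5 * 15) - 7)))) + ((u * (u * ((i5 * 10) - 10))) + ((i5 * 10) - 2))) := by
      simp only [Z2, vec_0, vec_1, vec_2]
      linear_combination ((-35/4)*x^2*u^2 + (-35/4)*x^2 + (-5)*x*u^2 + (-5)*x) * hi
    rw [e2]
    exact mul_pos (by norm_num) c1

end

end Pool.Agent.Lib.MP_c5a075_co
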